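import Mathlib
import Pool.Agent.Lib.MP_25b479_co.Kneser

/-!
MP_09e095_co : number of cosets of a subgroup met by a finite set.
-/

set_option autoImplicit false

open Finset
open scoped Pointwise

namespace Pool.Agent.Lib.MP_09e095_co

variable {G : Type*} [AddCommGroup G]

open Classical in
/-- the set of cosets of `V` met by `A` -/
noncomputable def cl (V : AddSubgroup G) (A : Finset G) : Finset (G ⧸ V) :=
  A.image (fun x => (QuotientAddGroup.mk x : G ⧸ V))

/-- the number of cosets of `V` met by `A` -/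
noncomputable def nc (V : AddSubgroup G) (A : Finset G) : ℕ := (cl V A).card

open Classical in
/-- the part of `A` in the coset `θ` of `V` -/
noncomputable def fb (V : AddSubgroup G) (A : Finset G) (θ : G ⧸ V) : Finset G :=
  A.filter (fun x => (QuotientAddGroup.mk x : G ⧸ V) = θ)

theorem mem_cl {V : AddSubgroup G} {A : Finset G} {θ : G ⧸ V} :
    θ ∈ cl V A ↔ ∃ x ∈ A, (QuotientAddGroup.mk x : G ⧸ V) = θ := by
  classical
  unfold cl
  rw [Finset.mem_image]

theorem mk_mem_cl {V : AddSubgroup G} {A : Finset G} {x : G} (hx : x ∈ A) :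
    (QuotientAddGroup.mk x : G ⧸ V) ∈ cl V A := mem_cl.2 ⟨x, hx, rfl⟩

theorem mem_fb {V : AddSubgroup G} {A : Finset G} {θ : G ⧸ V} {x : G} :
    x ∈ fb V A θ ↔ x ∈ A ∧ (QuotientAddGroup.mk x : G ⧸ V) = θ := by
  classical
  unfold fb
  rw [Finset.mem_filter]

theorem fb_subset {V : AddSubgroup G} {A : Finset G} {θ : G ⧸ V} : fb V A θ ⊆ A := by
  intro x hx
  exact (mem_fb.1 hx).1

theorem cl_mono {V : AddSubgroup G} {A B : Finset G} (h : A ⊆ B) : cl V A ⊆ cl V B := by
  intro θ hθ
  obtain ⟨x, hx, rfl⟩ := mem_cl.1 hθ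
  exact mk_mem_cl (h hx)

theorem nc_mono {V : AddSubgroup G} {A B : Finset G} (h : A ⊆ B) : nc V A ≤ nc V B :=
  Finset.card_le_card (cl_mono h)

theorem fb_nonempty_iff {V : AddSubgroup G} {A : Finset G} {θ : G ⧸ V} :
    (fb V A θ).Nonempty ↔ θ ∈ cl V A := by
  rw [mem_cl]
  constructor
  · rintro ⟨x, hx⟩
    exact ⟨x, (mem_fb.1 hx).1, (mem_fb.1 hx).2⟩
  · rintro ⟨x, hx, h⟩
    exact ⟨x, mem_fb.2 ⟨hx, h⟩⟩

theorem nc_pos {V : AddSubgroup G} {A : Finset G} (h : A.Nonempty) : 0 < nc V A := by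
  obtain ⟨x, hx⟩ := h
  exact Finset.card_pos.2 ⟨_, mk_mem_cl hx⟩

theorem nc_eq_zero {V : AddSubgroup G} {A : Finset G} : nc V A = 0 ↔ A = ∅ := by
  constructor
  · intro h
    by_contra h'
    have := nc_pos (V := V) (Finset.nonempty_iff_ne_empty.2 h')
    omega
  · rintro rfl
    unfold nc cl
    simp

theorem nc_le_card (V : AddSubgroup G) (A : Finset G) : nc V A ≤ A.card := by
  classical
  unfold nc cl
  exact Finset.card_image_le

theorem nc_bot (A : Finset G) : nc (⊥ : AddSubgroup G) A = A.card := by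
  classical
  unfold nc cl
  apply Finset.card_image_of_injective
  intro x y h
  simp only at h
  rw [QuotientAddGroup.eq] at h
  have h2 : -x + y = 0 := by simpa using h
  exact (neg_add_eq_zero.1 h2)

theorem natCard_eq {V : AddSubgroup G} (hV : (V : Set G).Finite) :
    Nat.card V = hV.toFinset.card := Nat.card_eq_card_finite_toFinset hV

/-- a set in one coset of `V` has at most `|V|` elements -/
theorem card_le_of_coset {V : AddSubgroup G} (hV : (V : Set G).Finite) {A : Finset G}
    (h : ∀ x ∈ A, ∀ y ∈ A, x - y ∈ V) : A.card ≤ Nat.card V := by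
  classical
  rcases A.eq_empty_or_nonempty with rfl | ⟨a, ha⟩
  · simp
  · rw [natCard_eq hV]
    apply Finset.card_le_card_of_injOn (fun x => x - a)
    · intro x hx
      simp only [Set.Finite.coe_toFinset, SetLike.mem_coe]
      exact h x hx a ha
    · intro x _ y _ hxy
      simpa using hxy

theorem card_fb_le {V : AddSubgroup G} (hV : (V : Set G).Finite) (A : Finset G) (θ : G ⧸ V) :
    (fb V A θ).card ≤ Nat.card V := by
  apply card_le_of_coset hV
  intro x hx y hy
  have h : (QuotientAddGroup.mk y : G ⧸ V) = QuotientAddGroup.mk x :=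
    (mem_fb.1 hy).2.trans (mem_fb.1 hx).2.symm
  rw [QuotientAddGroup.eq] at h
  have : x - y = -y + x := by abel
  rw [this]; exact h

theorem card_eq_sum_fb {V : AddSubgroup G} (A : Finset G) {Θ : Finset (G ⧸ V)}
    (h : cl V A ⊆ Θ) : A.card = ∑ θ ∈ Θ, (fb V A θ).card := by
  classical
  unfold fb
  apply Finset.card_eq_sum_card_fiberwise
  intro x hx
  exact h (mk_mem_cl hx)

theorem card_le_mul_nc {V : AddSubgroup G} (hV : (V : Set G).Finite) (A : Finset G) :
    A.card ≤ Nat.card V * nc V A := by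
  rw [card_eq_sum_fb (V := V) A (le_refl _)]
  calc ∑ θ ∈ cl V A, (fb V A θ).card ≤ ∑ _θ ∈ cl V A, Nat.card V :=
        Finset.sum_le_sum (fun θ _ => card_fb_le hV A θ)
    _ = Nat.card V * nc V A := by
        rw [Finset.sum_const, smul_eq_mul, mul_comm]; rfl

/-- a set inside one coset of `L` has at most `|L ⊓ R|` elements in each coset of `R` -/
theorem card_le_inf_mul_nc {L R : AddSubgroup G} (hL : (L : Set G).Finite) {A : Finset G}
    (h : ∀ x ∈ A, ∀ y ∈ A, x - y ∈ L) :
    A.card ≤ Nat.card (L ⊓ R : AddSubgroup G) * nc R A := by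
  have hI : ((L ⊓ R : AddSubgroup G) : Set G).Finite := hL.subset (fun x hx => hx.1)
  rw [card_eq_sum_fb (V := R) A (le_refl _)]
  calc ∑ θ ∈ cl R A, (fb R A θ).card ≤ ∑ _θ ∈ cl R A, Nat.card (L ⊓ R : AddSubgroup G) := by
        apply Finset.sum_le_sum
        intro θ _
        apply card_le_of_coset hI
        intro x hx y hy
        refine ⟨h x (mem_fb.1 hx).1 y (mem_fb.1 hy).1, ?_⟩
        have h' : (QuotientAddGroup.mk y : G ⧸ R) = QuotientAddGroup.mk x :=
          (mem_fb.1 hy).2.trans (mem_fb.1 hx).2.symm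
        rw [QuotientAddGroup.eq] at h'
        have : x - y = -y + x := by abel
        rw [this]; exact h'
    _ = Nat.card (L ⊓ R : AddSubgroup G) * nc R A := by
        rw [Finset.sum_const, smul_eq_mul, mul_comm]; rfl

theorem sub_mem_of_mk_eq {V : AddSubgroup G} {x y : G}
    (h : (QuotientAddGroup.mk x : G ⧸ V) = QuotientAddGroup.mk y) : x - y ∈ V := by
  rw [eq_comm, QuotientAddGroup.eq] at h
  have : x - y = -y + x := by abel
  rw [this]; exact h

theorem mk_eq_of_sub_mem {V : AddSubgroup G} {x y : G} (h : x - y ∈ V) :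
    (QuotientAddGroup.mk x : G ⧸ V) = QuotientAddGroup.mk y := by
  rw [eq_comm, QuotientAddGroup.eq]
  have : -y + x = x - y := by abel
  rw [this]; exact h

theorem mk_eq_iff {V : AddSubgroup G} {x y : G} :
    (QuotientAddGroup.mk x : G ⧸ V) = QuotientAddGroup.mk y ↔ x - y ∈ V :=
  ⟨sub_mem_of_mk_eq, mk_eq_of_sub_mem⟩

/-- the number of `V`-cosets, computed coset by coset of a larger subgroup `J` -/
theorem nc_eq_sum_fb {V J : AddSubgroup G} (hVJ : V ≤ J) (A : Finset G) {Θ : Finset (G ⧸ J)}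
    (h : cl J A ⊆ Θ) : nc V A = ∑ θ ∈ Θ, nc V (fb J A θ) := by
  classical
  have hdisj : ∀ θ ∈ Θ, ∀ θ' ∈ Θ, θ ≠ θ' → Disjoint (cl V (fb J A θ)) (cl V (fb J A θ')) := by
    intro θ _ θ' _ hne
    rw [Finset.disjoint_left]
    intro c hc hc'
    obtain ⟨x, hx, hxc⟩ := mem_cl.1 hc
    obtain ⟨y, hy, hyc⟩ := mem_cl.1 hc'
    apply hne
    rw [← (mem_fb.1 hx).2, ← (mem_fb.1 hy).2]
    exact mk_eq_of_sub_mem (hVJ (sub_mem_of_mk_eq (hxc.trans hyc.symm)))
  have hcov : cl V A = Θ.biUnion (fun θ => cl V (fb J A θ)) := by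
    ext c
    rw [Finset.mem_biUnion]
    constructor
    · intro hc
      obtain ⟨x, hx, hxc⟩ := mem_cl.1 hc
      exact ⟨_, h (mk_mem_cl hx), mem_cl.2 ⟨x, mem_fb.2 ⟨hx, rfl⟩, hxc⟩⟩
    · rintro ⟨θ, _, hc⟩
      exact cl_mono fb_subset hc
  unfold nc
  rw [hcov, Finset.card_biUnion hdisj]

/-- a set in one coset of `J` meets at most `|J| / |V|` cosets of `V ≤ J` -/
theorem nc_mul_le {V J : AddSubgroup G} (hJ : (J : Set G).Finite) (hVJ : V ≤ J) {A : Finset G}
    (h : ∀ x ∈ A, ∀ y ∈ A, x - y ∈ J) : Nat.card V * nc V A ≤ Nat.card J := by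
  classical
  rcases A.eq_empty_or_nonempty with rfl | ⟨a, ha⟩
  · rw [nc_eq_zero.2 rfl]; simp
  have hV : (V : Set G).Finite := hJ.subset hVJ
  -- the set A + V
  let T : Finset G := A + hV.toFinset
  have hT : T.card = Nat.card V * nc V A := by
    rw [card_eq_sum_fb (V := V) T (le_refl _)]
    have hcl : cl V T = cl V A := by
      ext c
      constructor
      · intro hc
        obtain ⟨x, hx, rfl⟩ := mem_cl.1 hc
        obtain ⟨y, hy, v, hv, rfl⟩ := Finset.mem_add.1 hx
        have hv' : v ∈ V := by simpa using hv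
        refine mem_cl.2 ⟨y, hy, mk_eq_of_sub_mem ?_⟩
        have : y - (y + v) = -v := by abel
        rw [this]; exact V.neg_mem hv'
      · intro hc
        obtain ⟨x, hx, rfl⟩ := mem_cl.1 hc
        refine mem_cl.2 ⟨x + 0, Finset.add_mem_add hx ?_, by rw [add_zero]⟩
        simp
    rw [hcl]
    have : ∀ θ ∈ cl V A, (fb V T θ).card = Nat.card V := by
      intro θ hθ
      obtain ⟨x, hx, rfl⟩ := mem_cl.1 hθ
      have : fb V T (QuotientAddGroup.mk x) = hV.toFinset.image (fun v => x + v) := by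
        ext z
        rw [mem_fb, Finset.mem_image]
        constructor
        · rintro ⟨_, hz⟩
          refine ⟨z - x, ?_, by abel⟩
          simpa using sub_mem_of_mk_eq hz
        · rintro ⟨v, hv, rfl⟩
          have hv' : v ∈ V := by simpa using hv
          refine ⟨Finset.add_mem_add hx hv, mk_eq_of_sub_mem ?_⟩
          simpa using hv'
      rw [this, Finset.card_image_of_injective _ (add_right_injective x),
        natCard_eq hV]
    rw [Finset.sum_congr rfl this, Finset.sum_const, smul_eq_mul, mul_comm]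
    rfl
  rw [← hT]
  apply card_le_of_coset hJ
  intro x hx y hy
  obtain ⟨x', hx', v, hv, rfl⟩ := Finset.mem_add.1 hx
  obtain ⟨y', hy', w, hw, rfl⟩ := Finset.mem_add.1 hy
  have hv' : v ∈ V := by simpa using hv
  have hw' : w ∈ V := by simpa using hw
  have : x' + v - (y' + w) = (x' - y') + (v - w) := by abel
  rw [this]
  exact J.add_mem (h x' hx' y' hy') (hVJ (V.sub_mem hv' hw'))

end Pool.Agent.Lib.MP_09e095_co
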