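import Mathlib
import Pool.Agent.Lib.MP_25b479_co.Kneser
import Pool.Agent.Lib.MP_09e095_co.CosetCount

/-!
MP_09e095_co : Kneser's theorem with the stabiliser of the sumset, in terms of numbers of cosets.
-/

set_option autoImplicit false

open Finset
open scoped Pointwise

namespace Pool.Agent.Lib.MP_09e095_co

variable {G : Type*} [AddCommGroup G]

/-- the stabiliser of a finite set -/
def stb (P : Finset G) : AddSubgroup G where
  carrier := {h | ∀ x, x ∈ P ↔ h + x ∈ P}
  zero_mem' := by intro x; rw [zero_add]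
  add_mem' := by
    intro a b ha hb x
    rw [hb x, ha (b + x), add_assoc]
  neg_mem' := by
    intro a ha x
    have := ha (-a + x)
    rw [add_neg_cancel_left] at this
    exact this.symm

theorem mem_stb {P : Finset G} {h : G} : h ∈ stb P ↔ ∀ x, x ∈ P ↔ h + x ∈ P := Iff.rfl

theorem stb_finite {P : Finset G} (hP : P.Nonempty) : (stb P : Set G).Finite := by
  classical
  obtain ⟨p, hp⟩ := hP
  apply (P.image (fun x => x - p)).finite_toSet.subset
  intro h hh
  rw [Finset.mem_coe, Finset.mem_image]
  exact ⟨h + p, (hh p).1 hp, by abel⟩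

/-- a set stable under `V` is a union of `V`-cosets -/
theorem card_of_stable {V : AddSubgroup G} (hV : (V : Set G).Finite) {P : Finset G}
    (h : ∀ v ∈ V, ∀ x ∈ P, v + x ∈ P) : P.card = Nat.card V * nc V P := by
  classical
  rw [card_eq_sum_fb (V := V) P (le_refl _)]
  have : ∀ θ ∈ cl V P, (fb V P θ).card = Nat.card V := by
    intro θ hθ
    obtain ⟨x, hx, rfl⟩ := mem_cl.1 hθ
    have : fb V P (QuotientAddGroup.mk x) = hV.toFinset.image (fun v => v + x) := by
      ext z
      rw [mem_fb, Finset.mem_image]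
      constructor
      · rintro ⟨_, hz⟩
        refine ⟨z - x, ?_, by abel⟩
        simpa using sub_mem_of_mk_eq hz
      · rintro ⟨v, hv, rfl⟩
        have hv' : v ∈ V := by simpa using hv
        refine ⟨h v hv' x hx, mk_eq_of_sub_mem ?_⟩
        simpa using hv'
    rw [this, Finset.card_image_of_injective _ (add_left_injective x), natCard_eq hV]
  rw [Finset.sum_congr rfl this, Finset.sum_const, smul_eq_mul, mul_comm]
  rfl

theorem card_stb (P : Finset G) (hP : P.Nonempty) :
    P.card = Nat.card (stb P) * nc (stb P) P :=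
  card_of_stable (stb_finite hP) (fun v hv x hx => (hv x).1 hx)

/-- the saturation `A + V` of a finite set -/
noncomputable def sat (V : AddSubgroup G) (hV : (V : Set G).Finite) (A : Finset G) : Finset G := by
  classical exact A + hV.toFinset

theorem mem_sat {V : AddSubgroup G} {hV : (V : Set G).Finite} {A : Finset G} {z : G} :
    z ∈ sat V hV A ↔ ∃ a ∈ A, z - a ∈ V := by
  classical
  unfold sat
  rw [Finset.mem_add]
  constructor
  · rintro ⟨a, ha, v, hv, rfl⟩
    refine ⟨a, ha, ?_⟩
    have hv' : v ∈ V := by simpa using hv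
    simpa using hv'
  · rintro ⟨a, ha, h⟩
    exact ⟨a, ha, z - a, by simpa using h, by abel⟩

theorem subset_sat {V : AddSubgroup G} {hV : (V : Set G).Finite} {A : Finset G} :
    A ⊆ sat V hV A := by
  intro a ha
  exact mem_sat.2 ⟨a, ha, by simp [V.zero_mem]⟩

theorem cl_sat {V W : AddSubgroup G} {hV : (V : Set G).Finite} (hVW : V ≤ W) (A : Finset G) :
    cl W (sat V hV A) = cl W A := by
  ext c
  constructor
  · intro hc
    obtain ⟨x, hx, rfl⟩ := mem_cl.1 hc
    obtain ⟨y, hy, h⟩ := mem_sat.1 hx
    exact mem_cl.2 ⟨y, hy, (mk_eq_of_sub_mem (hVW h)).symm⟩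
  · intro hc
    exact cl_mono subset_sat hc

theorem nc_sat {V W : AddSubgroup G} {hV : (V : Set G).Finite} (hVW : V ≤ W) (A : Finset G) :
    nc W (sat V hV A) = nc W A := by
  unfold nc; rw [cl_sat hVW]

theorem card_sat {V : AddSubgroup G} (hV : (V : Set G).Finite) (A : Finset G) :
    (sat V hV A).card = Nat.card V * nc V A := by
  rw [card_of_stable (P := sat V hV A) hV, nc_sat (le_refl _)]
  intro v hv x hx
  obtain ⟨y, hy, h⟩ := mem_sat.1 hx
  refine mem_sat.2 ⟨y, hy, ?_⟩
  have : v + x - y = v + (x - y) := by abel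
  rw [this]; exact V.add_mem hv h

variable [DecidableEq G]

/-- Kneser's theorem -/
theorem kneser_nc (A B : Finset G) (hA : A.Nonempty) (hB : B.Nonempty) :
    Nat.card (stb (A + B)) * (nc (stb (A + B)) A + nc (stb (A + B)) B) ≤
      (A + B).card + Nat.card (stb (A + B)) := by
  set T := stb (A + B) with hTdef
  have hT : (T : Set G).Finite := stb_finite (hA.add hB)
  have hstab : ∀ t ∈ T, ∀ x ∈ A + B, t + x ∈ A + B := fun t ht x hx => (ht x).1 hx
  obtain ⟨H, hH, hcard⟩ := Pool.Agent.Lib.MP_25b479_co.kneser_weak (sat T hT A) (sat T hT B)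
    (hA.mono subset_sat) (hB.mono subset_sat)
  have hsum : sat T hT A + sat T hT B = A + B := by
    apply Finset.Subset.antisymm
    · intro z hz
      obtain ⟨x, hx, y, hy, rfl⟩ := Finset.mem_add.1 hz
      obtain ⟨a, ha, h1⟩ := mem_sat.1 hx
      obtain ⟨b, hb, h2⟩ := mem_sat.1 hy
      have : x + y = ((x - a) + (y - b)) + (a + b) := by abel
      rw [this]
      exact hstab _ (T.add_mem h1 h2) _ (Finset.add_mem_add ha hb)
    · exact Finset.add_subset_add subset_sat subset_sat
  rw [hsum] at hH hcard
  have hHT : H ≤ T := by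
    intro h hh x
    constructor
    · exact hH.2 h hh x
    · intro hx
      have := hH.2 (-h) (H.neg_mem hh) _ hx
      rwa [neg_add_cancel_left] at this
  have hle : Nat.card H ≤ Nat.card T := by
    haveI : Finite T := hT.to_subtype
    exact Nat.card_le_card_of_injective _ (AddSubgroup.inclusion_injective hHT)
  rw [card_sat, card_sat] at hcard
  rw [mul_add]
  omega

end Pool.Agent.Lib.MP_09e095_co
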