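import Mathlib
import Pool.Agent.Lib.MP_09e095_co.KneserStrong

/-!
MP_09e095_co : compression of two layers `X`, `Y` by a difference `D`; basic facts.
-/

set_option autoImplicit false

open Finset
open scoped Pointwise

namespace Pool.Agent.Lib.MP_09e095_co

variable {G : Type*} [AddCommGroup G]

/-- shifting does not change the number of cosets -/
theorem nc_shift [DecidableEq G] (V : AddSubgroup G) (A : Finset G) (D : G) :
    nc V (A.image (fun y => y - D)) = nc V A := by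
  classical
  unfold nc
  apply Finset.card_bij (fun c _ => c + (QuotientAddGroup.mk D : G ⧸ V))
  · intro c hc
    obtain ⟨x, hx, rfl⟩ := mem_cl.1 hc
    obtain ⟨y, hy, rfl⟩ := Finset.mem_image.1 hx
    refine mem_cl.2 ⟨y, hy, ?_⟩
    rw [← QuotientAddGroup.mk_add, sub_add_cancel]
  · intro c _ c' _ h
    exact add_right_cancel h
  · intro c hc
    obtain ⟨y, hy, rfl⟩ := mem_cl.1 hc
    refine ⟨QuotientAddGroup.mk (y - D), mk_mem_cl (Finset.mem_image.2 ⟨y, hy, rfl⟩), ?_⟩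
    rw [← QuotientAddGroup.mk_add, sub_add_cancel]

theorem nc_neg [DecidableEq G] (V : AddSubgroup G) (A : Finset G) :
    nc V (-A) = nc V A := by
  classical
  unfold nc
  apply Finset.card_bij (fun c _ => -c)
  · intro c hc
    obtain ⟨x, hx, rfl⟩ := mem_cl.1 hc
    refine mem_cl.2 ⟨-x, Finset.mem_neg'.1 hx, ?_⟩
    rw [QuotientAddGroup.mk_neg]
  · intro c _ c' _ h
    exact neg_injective h
  · intro c hc
    obtain ⟨y, hy, rfl⟩ := mem_cl.1 hc
    refine ⟨QuotientAddGroup.mk (-y), mk_mem_cl (Finset.neg_mem_neg hy), ?_⟩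
    rw [← QuotientAddGroup.mk_neg, neg_neg]

theorem natCard_le {V W : AddSubgroup G} (hW : (W : Set G).Finite) (h : V ≤ W) :
    Nat.card V ≤ Nat.card W := by
  have : Finite W := hW.to_subtype
  exact Nat.card_le_card_of_injective _ (AddSubgroup.inclusion_injective h)

theorem cwCard_pos {V : AddSubgroup G} (hV : (V : Set G).Finite) : 0 < Nat.card V := by
  have : Finite V := hV.to_subtype
  exact Nat.card_pos

/-- `|A + V| ≤ |A + V'|` for `V ≤ V'` -/
theorem mul_nc_mono {V J : AddSubgroup G} (hJ : (J : Set G).Finite) (hVJ : V ≤ J)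
    (A : Finset G) : Nat.card V * nc V A ≤ Nat.card J * nc J A := by
  rw [nc_eq_sum_fb hVJ A (le_refl _), Finset.mul_sum]
  calc ∑ θ ∈ cl J A, Nat.card V * nc V (fb J A θ) ≤ ∑ _θ ∈ cl J A, Nat.card J := by
        apply Finset.sum_le_sum
        intro θ _
        apply nc_mul_le hJ hVJ
        intro x hx y hy
        exact sub_mem_of_mk_eq ((mem_fb.1 hx).2.trans (mem_fb.1 hy).2.symm)
    _ = Nat.card J * nc J A := by
        rw [Finset.sum_const, smul_eq_mul, mul_comm]; rfl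

variable [DecidableEq G]

/-- `Y - D` -/
def sh (D : G) (Y : Finset G) : Finset G := Y.image (fun y => y - D)

theorem mem_sh {D : G} {Y : Finset G} {x : G} : x ∈ sh D Y ↔ x + D ∈ Y := by
  unfold sh
  rw [Finset.mem_image]
  constructor
  · rintro ⟨y, hy, rfl⟩
    rwa [sub_add_cancel]
  · intro h
    exact ⟨x + D, h, by abel⟩

/-- `X ∪ (Y - D)` -/
def Bd (X Y : Finset G) (D : G) : Finset G := X ∪ sh D Y

/-- `X ∩ (Y - D)` -/
def Cd (X Y : Finset G) (D : G) : Finset G := X ∩ sh D Y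

theorem mem_Bd {X Y : Finset G} {D x : G} : x ∈ Bd X Y D ↔ x ∈ X ∨ x + D ∈ Y := by
  unfold Bd; rw [Finset.mem_union, mem_sh]

theorem mem_Cd {X Y : Finset G} {D x : G} : x ∈ Cd X Y D ↔ x ∈ X ∧ x + D ∈ Y := by
  unfold Cd; rw [Finset.mem_inter, mem_sh]

theorem Cd_subset_Bd (X Y : Finset G) (D : G) : Cd X Y D ⊆ Bd X Y D := by
  intro x hx
  exact mem_Bd.2 (Or.inl (mem_Cd.1 hx).1)

theorem nc_sh (V : AddSubgroup G) (D : G) (Y : Finset G) : nc V (sh D Y) = nc V Y :=
  nc_shift V Y D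

theorem card_Bd_add_card_Cd (X Y : Finset G) (D : G) :
    (Bd X Y D).card + (Cd X Y D).card = X.card + Y.card := by
  unfold Bd Cd
  rw [Finset.card_union_add_card_inter]
  congr 1
  unfold sh
  exact Finset.card_image_of_injective _ (fun a b h => by simpa using h)

theorem cl_union (V : AddSubgroup G) (A B : Finset G) [DecidableEq (G ⧸ V)] :
    cl V (A ∪ B) = cl V A ∪ cl V B := by
  ext c
  rw [Finset.mem_union, mem_cl, mem_cl, mem_cl]
  constructor
  · rintro ⟨x, hx, h⟩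
    rcases Finset.mem_union.1 hx with h1 | h1
    · exact Or.inl ⟨x, h1, h⟩
    · exact Or.inr ⟨x, h1, h⟩
  · rintro (⟨x, hx, h⟩ | ⟨x, hx, h⟩)
    · exact ⟨x, Finset.mem_union_left _ hx, h⟩
    · exact ⟨x, Finset.mem_union_right _ hx, h⟩

/-- the value of the compressed pair at `V` -/
noncomputable def gm (X Y W : Finset G) (V : AddSubgroup G) (D : G) : ℤ :=
  2 * (Nat.card V * (nc V (Bd X Y D) + nc V (Cd X Y D) + nc V W) : ℕ) - 3 * Nat.card V

/-- the value of the original set at `V` -/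
noncomputable def gz (X Y W : Finset G) (V : AddSubgroup G) : ℤ :=
  2 * (Nat.card V * (nc V X + nc V Y + nc V W) : ℕ) - 3 * Nat.card V

theorem mem_cl_Cd {V : AddSubgroup G} {X Y : Finset G} {D : G} {θ : G ⧸ V} :
    θ ∈ cl V (Cd X Y D) ↔ ∃ x ∈ X, (QuotientAddGroup.mk x : G ⧸ V) = θ ∧ x + D ∈ Y := by
  rw [mem_cl]
  constructor
  · rintro ⟨x, hx, h⟩
    exact ⟨x, (mem_Cd.1 hx).1, h, (mem_Cd.1 hx).2⟩
  · rintro ⟨x, hx, h, h'⟩
    exact ⟨x, mem_Cd.2 ⟨hx, h'⟩, h⟩

end Pool.Agent.Lib.MP_09e095_co
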