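import Mathlib
import Pool.Agent.Lib.MP_09e095_co.CWDefs

/-!
MP_09e095_co : difference sets inside one coset.
-/

set_option autoImplicit false

open Finset
open scoped Pointwise

namespace Pool.Agent.Lib.MP_09e095_co

variable {G : Type*} [AddCommGroup G] [DecidableEq G]

/-- the difference set `y - x` -/
def dP (x y : Finset G) : Finset G := y + (-x)

theorem mem_dP {x y : Finset G} {ν : G} : ν ∈ dP x y ↔ ∃ a ∈ x, a + ν ∈ y := by
  unfold dP
  rw [Finset.mem_add]
  constructor
  · rintro ⟨b, hb, c, hc, rfl⟩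
    refine ⟨-c, Finset.mem_neg'.1 hc, ?_⟩
    have : -c + (b + c) = b := by abel
    rw [this]; exact hb
  · rintro ⟨a, ha, h⟩
    exact ⟨a + ν, h, -a, Finset.neg_mem_neg ha, by abel⟩

theorem dP_nonempty {x y : Finset G} (hx : x.Nonempty) (hy : y.Nonempty) : (dP x y).Nonempty := by
  obtain ⟨a, ha⟩ := hx
  obtain ⟨b, hb⟩ := hy
  exact ⟨b - a, mem_dP.2 ⟨a, ha, by simpa using hb⟩⟩

/-- `x`, `y` lie in one coset of `L` -/
def InC (L : AddSubgroup G) (x y : Finset G) : Prop :=
  ∃ θ : G ⧸ L, (∀ a ∈ x, (QuotientAddGroup.mk a : G ⧸ L) = θ) ∧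
    (∀ b ∈ y, (QuotientAddGroup.mk b : G ⧸ L) = θ)

theorem InC.sub_mem {L : AddSubgroup G} {x y : Finset G} (h : InC L x y) {a b : G}
    (ha : a ∈ x ∪ y) (hb : b ∈ x ∪ y) : a - b ∈ L := by
  obtain ⟨θ, h1, h2⟩ := h
  have key : ∀ c ∈ x ∪ y, (QuotientAddGroup.mk c : G ⧸ L) = θ := by
    intro c hc
    rcases Finset.mem_union.1 hc with h | h
    · exact h1 c h
    · exact h2 c h
  exact sub_mem_of_mk_eq ((key a ha).trans (key b hb).symm)

theorem inC_fb (L : AddSubgroup G) (A B : Finset G) (θ : G ⧸ L) :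
    InC L (fb L A θ) (fb L B θ) :=
  ⟨θ, fun _ ha => (mem_fb.1 ha).2, fun _ hb => (mem_fb.1 hb).2⟩

theorem dP_subset {L : AddSubgroup G} {x y : Finset G} (h : InC L x y) {ν : G}
    (hν : ν ∈ dP x y) : ν ∈ L := by
  obtain ⟨a, ha, hb⟩ := mem_dP.1 hν
  have := h.sub_mem (Finset.mem_union_right _ hb) (Finset.mem_union_left _ ha)
  simpa using this

theorem card_dP_le {L : AddSubgroup G} (hL : (L : Set G).Finite) {x y : Finset G}
    (h : InC L x y) : (dP x y).card ≤ Nat.card L := by
  apply card_le_of_coset hL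
  intro a ha b hb
  exact L.sub_mem (dP_subset h ha) (dP_subset h hb)

theorem stb_dP_le {L : AddSubgroup G} {x y : Finset G} (h : InC L x y)
    (hx : x.Nonempty) (hy : y.Nonempty) : stb (dP x y) ≤ L := by
  intro t ht
  obtain ⟨p, hp⟩ := dP_nonempty hx hy
  have h1 : t + p ∈ dP x y := (ht p).1 hp
  have h2 := dP_subset h hp
  have h3 := dP_subset h h1
  have : t = (t + p) - p := by abel
  rw [this]; exact L.sub_mem h3 h2

theorem kneser_dP {x y : Finset G} (hx : x.Nonempty) (hy : y.Nonempty) :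
    Nat.card (stb (dP x y)) * (nc (stb (dP x y)) x + nc (stb (dP x y)) y) ≤
      (dP x y).card + Nat.card (stb (dP x y)) := by
  have h := kneser_nc y (-x) hy hx.neg
  have e : y + -x = dP x y := rfl
  rw [e, nc_neg, add_comm (nc _ y)] at h
  exact h

theorem cwCard_dvd {V L : AddSubgroup G} (hVL : V ≤ L) : Nat.card V ∣ Nat.card L :=
  AddSubgroup.card_dvd_of_le hVL

theorem stb_dvd_card {P : Finset G} (hP : P.Nonempty) : Nat.card (stb P) ∣ P.card :=
  ⟨_, card_stb P hP⟩

/-- if `|x| + |y| > |L|` then every `ν ∈ L` is a difference -/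
theorem full_of_card {L : AddSubgroup G} (hL : (L : Set G).Finite) {x y : Finset G}
    (h : InC L x y) (hc : Nat.card L < x.card + y.card) {ν : G} (hν : ν ∈ L) :
    ∃ a ∈ x, a + ν ∈ y := by
  by_contra hno
  push Not at hno
  have hdisj : Disjoint (x.image (fun a => a + ν)) y := by
    rw [Finset.disjoint_left]
    intro z hz hz'
    obtain ⟨a, ha, rfl⟩ := Finset.mem_image.1 hz
    exact hno a ha hz'
  have h1 : ((x.image (fun a => a + ν)) ∪ y).card = x.card + y.card := by
    rw [Finset.card_union_of_disjoint hdisj,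
      Finset.card_image_of_injective _ (add_left_injective ν)]
  have h2 : ((x.image (fun a => a + ν)) ∪ y).card ≤ Nat.card L := by
    apply card_le_of_coset hL
    have key : ∀ z ∈ (x.image (fun a => a + ν)) ∪ y, ∃ w ∈ x ∪ y, z - w ∈ L := by
      intro z hz
      rcases Finset.mem_union.1 hz with hz | hz
      · obtain ⟨a, ha, rfl⟩ := Finset.mem_image.1 hz
        exact ⟨a, Finset.mem_union_left _ ha, by simpa using hν⟩
      · exact ⟨z, Finset.mem_union_right _ hz, by simp [L.zero_mem]⟩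
    intro z hz z' hz'
    obtain ⟨w, hw, h3⟩ := key z hz
    obtain ⟨w', hw', h3'⟩ := key z' hz'
    have : z - z' = (z - w) + (w - w') - (z' - w') := by abel
    rw [this]
    exact L.sub_mem (L.add_mem h3 (h.sub_mem hw hw')) h3'
  omega

/-- two sets in a coset of `L` with no difference in `T` are disjoint mod `T` -/
theorem nc_add_le_of_disjoint {T L : AddSubgroup G} (hL : (L : Set G).Finite) (hTL : T ≤ L)
    {x y : Finset G} (h : InC L x y) (hd : ∀ t ∈ T, ∀ a ∈ x, a + t ∉ y) :
    Nat.card T * (nc T x + nc T y) ≤ Nat.card L := by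
  classical
  have hdisj : Disjoint (cl T x) (cl T y) := by
    rw [Finset.disjoint_left]
    intro c hc hc'
    obtain ⟨a, ha, h1⟩ := mem_cl.1 hc
    obtain ⟨b, hb, h2⟩ := mem_cl.1 hc'
    have h3 : b - a ∈ T := sub_mem_of_mk_eq (h2.trans h1.symm)
    apply hd _ h3 a ha
    simpa using hb
  have h1 : nc T x + nc T y = nc T (x ∪ y) := by
    unfold nc
    rw [cl_union, Finset.card_union_of_disjoint hdisj]
  rw [h1]
  apply nc_mul_le hL hTL
  intro a ha b hb
  exact h.sub_mem ha hb

end Pool.Agent.Lib.MP_09e095_co
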