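import Mathlib
import Pool.Agent.Lib.MP_09e095_co.CWDiff

/-!
MP_09e095_co : if `D` is bad at `L`, some `D + ν`, `ν ∈ L`, is better at `L`.
-/

set_option autoImplicit false

open Finset
open scoped Pointwise

namespace Pool.Agent.Lib.MP_09e095_co

variable {G : Type*} [AddCommGroup G] [DecidableEq G]

/-- content of a coset -/
noncomputable def ct (X Y : Finset G) (D : G) (L : AddSubgroup G) (θ : G ⧸ L) : ℕ :=
  (fb L X θ).card + (fb L (sh D Y) θ).card

open Classical in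
/-- type of a coset: `0`, `1` or `2` -/
noncomputable def ty (X Y : Finset G) (D : G) (L : AddSubgroup G) (θ : G ⧸ L) : ℕ :=
  (if θ ∈ cl L (Bd X Y D) then 1 else 0) + (if θ ∈ cl L (Cd X Y D) then 1 else 0)

theorem fb_union_inter (L : AddSubgroup G) (X Y : Finset G) (D : G) (θ : G ⧸ L) :
    (fb L (Bd X Y D) θ).card + (fb L (Cd X Y D) θ).card = ct X Y D L θ := by
  classical
  have h1 : fb L (Bd X Y D) θ = fb L X θ ∪ fb L (sh D Y) θ := by
    ext z
    rw [Finset.mem_union, mem_fb, mem_fb, mem_fb, mem_Bd, mem_sh]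
    tauto
  have h2 : fb L (Cd X Y D) θ = fb L X θ ∩ fb L (sh D Y) θ := by
    ext z
    rw [Finset.mem_inter, mem_fb, mem_fb, mem_fb, mem_Cd, mem_sh]
    tauto
  rw [h1, h2, Finset.card_union_add_card_inter]
  rfl

theorem ct_le {L : AddSubgroup G} (hL : (L : Set G).Finite) (X Y : Finset G) (D : G)
    (θ : G ⧸ L) : ct X Y D L θ ≤ Nat.card L * ty X Y D L θ := by
  classical
  rw [← fb_union_inter]
  unfold ty
  have key : ∀ Z : Finset G, (fb L Z θ).card ≤ Nat.card L * (if θ ∈ cl L Z then 1 else 0) := by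
    intro Z
    by_cases h : θ ∈ cl L Z
    · rw [if_pos h, mul_one]; exact card_fb_le hL Z θ
    · rw [if_neg h, mul_zero]
      have : ¬ (fb L Z θ).Nonempty := fun h' => h (fb_nonempty_iff.1 h')
      rw [Finset.not_nonempty_iff_eq_empty.1 this]; simp
  rw [mul_add]
  exact Nat.add_le_add (key _) (key _)

theorem sum_ty (X Y : Finset G) (D : G) (L : AddSubgroup G) :
    ∑ θ ∈ cl L (Bd X Y D), ty X Y D L θ = nc L (Bd X Y D) + nc L (Cd X Y D) := by
  classical
  unfold ty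
  rw [Finset.sum_add_distrib]
  congr 1
  · rw [Finset.sum_congr rfl (g := fun _ => 1) (fun θ hθ => if_pos hθ)]
    rw [Finset.sum_const, smul_eq_mul, mul_one]; rfl
  · rw [← Finset.card_filter]
    unfold nc
    congr 1
    ext θ
    rw [Finset.mem_filter]
    exact ⟨fun h => h.2, fun h => ⟨cl_mono (Cd_subset_Bd X Y D) h, h⟩⟩

theorem sum_ct (X Y : Finset G) (D : G) (L : AddSubgroup G) :
    ∑ θ ∈ cl L (Bd X Y D), ct X Y D L θ = X.card + Y.card := by
  classical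
  rw [← card_Bd_add_card_Cd X Y D]
  rw [card_eq_sum_fb (V := L) (Bd X Y D) (le_refl _),
    card_eq_sum_fb (V := L) (Cd X Y D) (cl_mono (Cd_subset_Bd X Y D)), ← Finset.sum_add_distrib]
  exact Finset.sum_congr rfl (fun θ _ => (fb_union_inter L X Y D θ).symm)

theorem gz_bot (X Y W : Finset G) :
    gz X Y W ⊥ = 2 * (X.card + Y.card + W.card) - 3 := by
  unfold gz
  rw [nc_bot, nc_bot, nc_bot, AddSubgroup.card_bot]
  push_cast; ring

/-- total hole bound for a bad subgroup -/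
theorem holes_of_bad {L : AddSubgroup G} (hL : (L : Set G).Finite) {X Y W : Finset G} {D : G}
    (h : gm X Y W L D < gz X Y W ⊥) :
    2 * (Nat.card L * (nc L (Bd X Y D) + nc L (Cd X Y D))) + 3 <
      2 * (X.card + Y.card) + 3 * Nat.card L := by
  rw [gz_bot] at h
  unfold gm at h
  have hW := card_le_mul_nc hL W
  rw [mul_add] at h
  push_cast at h
  have hW' : (W.card : ℤ) ≤ Nat.card L * nc L W := by exact_mod_cast hW
  zify
  rw [mul_add] at h ⊢
  linarith

theorem cwHole_le {L : AddSubgroup G} (hL : (L : Set G).Finite) {X Y : Finset G} {D : G}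
    (Φ : Finset (G ⧸ L)) (hΦ : Φ ⊆ cl L (Bd X Y D)) :
    (∑ θ ∈ Φ, (Nat.card L * ty X Y D L θ - ct X Y D L θ : ℤ)) ≤
      (Nat.card L * (nc L (Bd X Y D) + nc L (Cd X Y D)) : ℕ) - (X.card + Y.card : ℕ) := by
  classical
  rw [← sum_ty, ← sum_ct X Y D L, Finset.mul_sum]
  push_cast
  rw [← Finset.sum_sub_distrib]
  apply Finset.sum_le_sum_of_subset_of_nonneg hΦ
  intro θ _ _
  have := ct_le hL X Y D θ
  have : (ct X Y D L θ : ℤ) ≤ Nat.card L * ty X Y D L θ := by exact_mod_cast this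
  linarith

theorem ty_of_mem_Cd {X Y : Finset G} {D : G} {L : AddSubgroup G} {θ : G ⧸ L}
    (h : θ ∈ cl L (Cd X Y D)) : ty X Y D L θ = 2 := by
  classical
  unfold ty
  rw [if_pos h, if_pos (cl_mono (Cd_subset_Bd X Y D) h)]

theorem ty_of_not_mem_Cd {X Y : Finset G} {D : G} {L : AddSubgroup G} {θ : G ⧸ L}
    (h : θ ∉ cl L (Cd X Y D)) (h' : θ ∈ cl L (Bd X Y D)) : ty X Y D L θ = 1 := by
  classical
  unfold ty
  rw [if_neg h, if_pos h']

/-- a hit -/
theorem mem_cl_Cd_add {X Y : Finset G} {D ν : G} {L : AddSubgroup G} (hν : ν ∈ L) {θ : G ⧸ L} :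
    θ ∈ cl L (Cd X Y (D + ν)) ↔ ν ∈ dP (fb L X θ) (fb L (sh D Y) θ) := by
  rw [mem_cl_Cd, mem_dP]
  constructor
  · rintro ⟨x, hx, h1, h2⟩
    refine ⟨x, mem_fb.2 ⟨hx, h1⟩, mem_fb.2 ⟨mem_sh.2 ?_, ?_⟩⟩
    · rw [← add_assoc, add_right_comm] at h2; exact h2
    · rw [← h1]; exact mk_eq_of_sub_mem (by simpa using hν)
  · rintro ⟨x, hx, h⟩
    refine ⟨x, (mem_fb.1 hx).1, (mem_fb.1 hx).2, ?_⟩
    have := mem_sh.1 (mem_fb.1 h).1
    rw [← add_assoc, add_right_comm]; exact this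

theorem mem_cl_Cd_zero {X Y : Finset G} {D : G} {L : AddSubgroup G} {θ : G ⧸ L} :
    θ ∈ cl L (Cd X Y D) ↔ (0 : G) ∈ dP (fb L X θ) (fb L (sh D Y) θ) := by
  have := mem_cl_Cd_add (X := X) (Y := Y) (D := D) (ν := 0) (L.zero_mem) (θ := θ)
  rwa [add_zero] at this

end Pool.Agent.Lib.MP_09e095_co
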