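import Mathlib

/-!
MP_09e095_co : the numerical part of the compression lemma.
-/

set_option autoImplicit false

open Finset

namespace Pool.Agent.Lib.MP_09e095_co

/-- `0`, `1` or `2` : type of a block with `r1` rows of type `1` and `r2` rows of type `2` -/
def nn (r1 r2 : ℕ) : ℕ := if r2 = 0 then (if r1 = 0 then 0 else 1) else 2

/-- upper bound of the content (in units) -/
def FF (p r1 r2 N : ℕ) : ℕ :=
  if p = 2 ∧ 0 < r2 ∧ N = 2 then r1 + 2 * r2 else r1 * min p N + r2 * N

theorem nn_zero : nn 0 0 = 0 := rfl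

theorem nn_one {r1 : ℕ} (h : r1 ≠ 0) : nn r1 0 = 1 := by
  unfold nn; rw [if_pos rfl, if_neg h]

theorem nn_two {r1 r2 : ℕ} (h : r2 ≠ 0) : nn r1 r2 = 2 := by
  unfold nn; rw [if_neg h]

/-- admissible data -/
structure Adm (p q r1 r2 N : ℕ) : Prop where
  rows : r1 + r2 ≤ q
  zero : r1 = 0 → r2 = 0 → N = 0
  one : 0 < r1 + r2 → 1 ≤ N
  two : 0 < r2 → 2 ≤ N
  top : N ≤ 2 * p

theorem num_a {p q r1 r2 N : ℕ} (h : Adm p q r1 r2 N) :
    (p * nn r1 r2 - N : ℤ) ≤ p * (r1 + 2 * r2) - FF p r1 r2 N := by
  obtain ⟨h1, h2, h3, h4, h5⟩ := h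
  rcases Nat.eq_zero_or_pos r2 with rfl | hr2
  · rcases Nat.eq_zero_or_pos r1 with rfl | hr1
    · rw [h2 rfl rfl, nn_zero]
      simp [FF]
    · rw [nn_one (by omega)]
      unfold FF
      rw [if_neg (by omega)]
      rcases le_total N p with hN | hN
      · rw [min_eq_right hN]
        push_cast
        have : (N : ℤ) ≤ p := by exact_mod_cast hN
        have : (1 : ℤ) ≤ r1 := by exact_mod_cast hr1
        nlinarith
      · rw [min_eq_left hN]
        push_cast
        have : (p : ℤ) ≤ N := by exact_mod_cast hN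
        nlinarith
  · rw [nn_two (by omega)]
    have hr2' : (1 : ℤ) ≤ r2 := by exact_mod_cast hr2
    unfold FF
    split_ifs with hs
    · obtain ⟨rfl, _, rfl⟩ := hs
      push_cast
      have : (0 : ℤ) ≤ r1 := by positivity
      linarith
    · have h5' : (N : ℤ) ≤ 2 * p := by exact_mod_cast h5
      have h6 : ((min p N : ℕ) : ℤ) ≤ p := by exact_mod_cast min_le_left p N
      have h7 : (0 : ℤ) ≤ r1 := by positivity
      push_cast at h6 ⊢
      nlinarith [mul_nonneg h7 (sub_nonneg.2 h6), mul_nonneg (sub_nonneg.2 hr2')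
        (sub_nonneg.2 h5')]

theorem FF_le {p q r1 r2 N : ℕ} (h : Adm p q r1 r2 N) : FF p r1 r2 N ≤ q * N := by
  obtain ⟨h1, h2, h3, h4, h5⟩ := h
  have h6 : (r1 + r2) * N ≤ q * N := Nat.mul_le_mul_right _ h1
  unfold FF
  split_ifs with hs
  · obtain ⟨rfl, _, rfl⟩ := hs
    nlinarith
  · have h7 : r1 * min p N ≤ r1 * N := Nat.mul_le_mul_left _ (min_le_right p N)
    nlinarith

theorem num_b {p q r1 r2 N : ℕ} (h : Adm p q r1 r2 N) (hp : 2 ≤ p)
    (hex : 3 ≤ p → 0 < r2 → p < N) :
    (q * nn r1 r2 - (r1 + 2 * r2) : ℤ) ≤ q * N - FF p r1 r2 N := by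
  obtain ⟨h1, h2, h3, h4, h5⟩ := h
  have h1' : (r1 : ℤ) + r2 ≤ q := by exact_mod_cast h1
  rcases Nat.eq_zero_or_pos r2 with rfl | hr2
  · rcases Nat.eq_zero_or_pos r1 with rfl | hr1
    · rw [h2 rfl rfl, nn_zero]
      simp [FF]
    · rw [nn_one (by omega)]
      unfold FF
      rw [if_neg (by omega)]
      have h6 : ((min p N : ℕ) : ℤ) ≤ N := by exact_mod_cast min_le_right p N
      have h7 : (1 : ℤ) ≤ N := by exact_mod_cast h3 (by omega)
      have h8 : (0 : ℤ) ≤ r1 := by positivity
      push_cast at h6 h1' ⊢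
      nlinarith [mul_nonneg h8 (sub_nonneg.2 h6), mul_nonneg (sub_nonneg.2 h1')
        (sub_nonneg.2 h7)]
  · rw [nn_two (by omega)]
    unfold FF
    split_ifs with hs
    · obtain ⟨rfl, _, rfl⟩ := hs
      push_cast
      linarith
    · have hNp : p < N := by
        rcases Nat.lt_or_ge 2 p with h9 | h9
        · exact hex h9 hr2
        · have : p = 2 := by omega
          subst this
          have := h4 hr2
          omega
      rw [min_eq_left hNp.le]
      have h10 : (p : ℤ) + 1 ≤ N := by exact_mod_cast hNp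
      have h11 : (2 : ℤ) ≤ N := by exact_mod_cast h4 hr2
      have h12 : (0 : ℤ) ≤ r1 := by positivity
      push_cast
      nlinarith [mul_nonneg h12 (sub_nonneg.2 h10), mul_nonneg (sub_nonneg.2 h1')
        (sub_nonneg.2 h11)]

/-- the possible blocks in the extremal case -/
def Typ (p q r1 r2 N : ℕ) : Prop :=
  (r1 = 0 ∧ r2 = 0 ∧ N = 0) ∨ (r1 = 1 ∧ r2 = 0 ∧ N = 1) ∨ (r1 = q ∧ r2 = 0 ∧ N = p) ∨
  (r1 = 0 ∧ r2 = 1 ∧ N = 2) ∨ (r1 = q - 1 ∧ r2 = 1 ∧ N = p + 1) ∨
  (r1 = 0 ∧ r2 = q ∧ N = 2 * p)

theorem num_class {p q r1 r2 N : ℕ} (h : Adm p q r1 r2 N) (hp : 2 ≤ p) (hpq : p < q)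
    (hex : 3 ≤ p → 0 < r2 → p < N)
    (ha : (p * nn r1 r2 - N : ℤ) = p * (r1 + 2 * r2) - FF p r1 r2 N)
    (hb : (q * nn r1 r2 - (r1 + 2 * r2) : ℤ) = q * N - FF p r1 r2 N) :
    Typ p q r1 r2 N := by
  obtain ⟨h1, h2, h3, h4, h5⟩ := h
  have h1' : (r1 : ℤ) + r2 ≤ q := by exact_mod_cast h1
  unfold Typ
  rcases Nat.eq_zero_or_pos r2 with rfl | hr2
  · rcases Nat.eq_zero_or_pos r1 with rfl | hr1
    · left; exact ⟨rfl, rfl, h2 rfl rfl⟩
    · rw [nn_one (by omega)] at ha hb
      unfold FF at ha hb
      rw [if_neg (by omega)] at ha hb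
      rcases le_or_gt N p with hN | hN
      · rw [min_eq_right hN] at ha hb
        push_cast at ha hb
        have e1 : ((r1 : ℤ) - 1) * (p - N) = 0 := by linarith
        have e2 : ((q : ℤ) - r1) * (N - 1) = 0 := by linarith
        rcases mul_eq_zero.1 e1 with e | e
        · have e' : r1 = 1 := by omega
          subst e'
          rcases mul_eq_zero.1 e2 with e3 | e3
          · omega
          · right; left; exact ⟨rfl, rfl, by omega⟩
        · have e' : N = p := by omega
          subst e'
          rcases mul_eq_zero.1 e2 with e3 | e3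
          · right; right; left; exact ⟨by omega, rfl, rfl⟩
          · omega
      · rw [min_eq_left hN.le] at ha
        push_cast at ha
        have : (p : ℤ) < N := by exact_mod_cast hN
        nlinarith
  · rw [nn_two (by omega)] at ha hb
    have hr2' : (1 : ℤ) ≤ r2 := by exact_mod_cast hr2
    unfold FF at ha hb
    split_ifs at ha hb with hs
    · obtain ⟨rfl, _, rfl⟩ := hs
      push_cast at ha
      right; right; right; left
      omega
    · have h5' : (N : ℤ) ≤ 2 * p := by exact_mod_cast h5
      have h6 : ((min p N : ℕ) : ℤ) ≤ p := by exact_mod_cast min_le_left p N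
      have h7 : (0 : ℤ) ≤ r1 := by positivity
      rcases eq_or_lt_of_le h5 with h8 | h8
      · -- N = 2p
        right; right; right; right; right
        subst h8
        rw [min_eq_left (by omega)] at hb
        push_cast at hb
        have e1 : ((p : ℤ) - 1) * (2 * q - r1 - 2 * r2) = 0 := by ring_nf at hb ⊢; linarith
        have e2 : (2 * q - r1 - 2 * r2 : ℤ) = 0 := by
          rcases mul_eq_zero.1 e1 with e | e
          · have : (2 : ℤ) ≤ p := by exact_mod_cast hp
            linarith
          · exact e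
        refine ⟨by omega, by omega, rfl⟩
      · have h8' : (N : ℤ) + 1 ≤ 2 * p := by exact_mod_cast h8
        have hr2one : r2 = 1 := by
          by_contra hne
          have : (2 : ℤ) ≤ r2 := by
            have : 2 ≤ r2 := by omega
            exact_mod_cast this
          push_cast at ha h6
          nlinarith [mul_nonneg h7 (sub_nonneg.2 h6)]
        subst hr2one
        rcases Nat.eq_zero_or_pos r1 with rfl | hr1
        · right; right; right; left
          refine ⟨rfl, rfl, ?_⟩
          push_cast at hb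
          have e1 : ((q : ℤ) - 1) * (N - 2) = 0 := by ring_nf at hb ⊢; linarith
          rcases mul_eq_zero.1 e1 with e | e <;> omega
        · -- N > p
          have hNp : p < N := by
            rcases le_or_gt N p with hN | hN
            · exfalso
              rcases Nat.lt_or_ge 2 p with h9 | h9
              · exact absurd (hex h9 hr2) (by omega)
              · have : p = 2 := by omega
                subst this
                have := h4 hr2
                apply hs
                exact ⟨rfl, by omega, by omega⟩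
            · exact hN
          rw [min_eq_left hNp.le] at hb
          push_cast at hb
          have h10 : (p : ℤ) + 1 ≤ N := by exact_mod_cast hNp
          have e1 : ((q : ℤ) - 1 - r1) * (N - 2) + r1 * (N - p - 1) = 0 := by
            ring_nf at hb ⊢; linarith
          have n1 : (0 : ℤ) ≤ ((q : ℤ) - 1 - r1) * (N - 2) := by
            apply mul_nonneg <;> [omega; omega]
          have n2 : (0 : ℤ) ≤ (r1 : ℤ) * (N - p - 1) := by
            apply mul_nonneg <;> [omega; omega]
          have z1 : ((q : ℤ) - 1 - r1) * (N - 2) = 0 := by linarith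
          have z2 : (r1 : ℤ) * (N - p - 1) = 0 := by linarith
          right; right; right; right; left
          refine ⟨?_, rfl, ?_⟩
          · rcases mul_eq_zero.1 z1 with e | e <;> omega
          · rcases mul_eq_zero.1 z2 with e | e <;> omega

end Pool.Agent.Lib.MP_09e095_co
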