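import Mathlib
import Pool.Agent.Lib.MP_09e095_co.CWImp
import Pool.Agent.Lib.MP_09e095_co.CWNum

/-!
MP_09e095_co : the blocks (cosets of `J = L ⊔ R`) and their types.
-/

set_option autoImplicit false

open Finset
open scoped Pointwise

namespace Pool.Agent.Lib.MP_09e095_co

variable {G : Type*} [AddCommGroup G] [DecidableEq G]

theorem fb_fb {V J : AddSubgroup G} (hVJ : V ≤ J) {A : Finset G} {θ : G ⧸ J} {c : G ⧸ V}
    (hc : c ∈ cl V (fb J A θ)) (B : Finset G) : fb V (fb J B θ) c = fb V B c := by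
  obtain ⟨x, hx, rfl⟩ := mem_cl.1 hc
  ext z
  rw [mem_fb, mem_fb, mem_fb]
  constructor
  · rintro ⟨⟨h1, _⟩, h3⟩; exact ⟨h1, h3⟩
  · rintro ⟨h1, h3⟩
    refine ⟨⟨h1, ?_⟩, h3⟩
    rw [← (mem_fb.1 hx).2]
    exact mk_eq_of_sub_mem (hVJ (sub_mem_of_mk_eq h3))

theorem mem_cl_fb {V J : AddSubgroup G} (hVJ : V ≤ J) {A B : Finset G} {θ : G ⧸ J} {c : G ⧸ V}
    (hc : c ∈ cl V (fb J A θ)) : c ∈ cl V (fb J B θ) ↔ c ∈ cl V B := by
  obtain ⟨x, hx, rfl⟩ := mem_cl.1 hc
  constructor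
  · intro h; exact cl_mono fb_subset h
  · intro h
    obtain ⟨y, hy, h2⟩ := mem_cl.1 h
    refine mem_cl.2 ⟨y, mem_fb.2 ⟨hy, ?_⟩, h2⟩
    rw [← (mem_fb.1 hx).2]
    exact mk_eq_of_sub_mem (hVJ (sub_mem_of_mk_eq h2))

theorem fb_shift {J : AddSubgroup G} {D ν : G} (hν : ν ∈ J) (Y : Finset G) (θ : G ⧸ J) :
    fb J (sh (D + ν) Y) θ = sh ν (fb J (sh D Y) θ) := by
  ext z
  rw [mem_fb, mem_sh, mem_sh, mem_fb, mem_sh]
  have h1 : z + (D + ν) = z + ν + D := by abel
  rw [h1]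
  have h2 : (QuotientAddGroup.mk (z + ν) : G ⧸ J) = QuotientAddGroup.mk z :=
    mk_eq_of_sub_mem (by simpa using hν)
  rw [h2]

theorem card_sh (D : G) (Y : Finset G) : (sh D Y).card = Y.card := by
  unfold sh
  exact Finset.card_image_of_injective _ (fun a b h => by simpa using h)

theorem ct_add {L : AddSubgroup G} {X Y : Finset G} {D ν : G} (hν : ν ∈ L) (c : G ⧸ L) :
    ct X Y (D + ν) L c = ct X Y D L c := by
  unfold ct
  rw [fb_shift hν, card_sh]

/-- number of rows of type 2 -/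
noncomputable def bR2 (X Y : Finset G) (D : G) (L J : AddSubgroup G) (θ : G ⧸ J) : ℕ :=
  nc L (fb J (Cd X Y D) θ)

/-- number of rows of type 1 -/
noncomputable def bR1 (X Y : Finset G) (D : G) (L J : AddSubgroup G) (θ : G ⧸ J) : ℕ :=
  nc L (fb J (Bd X Y D) θ) - nc L (fb J (Cd X Y D) θ)

/-- total type -/
noncomputable def bN (X Y : Finset G) (D : G) (R J : AddSubgroup G) (θ : G ⧸ J) : ℕ :=
  nc R (fb J (Bd X Y D) θ) + nc R (fb J (Cd X Y D) θ)

theorem fb_mono {J : AddSubgroup G} {A B : Finset G} (h : A ⊆ B) (θ : G ⧸ J) :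
    fb J A θ ⊆ fb J B θ := by
  intro x hx
  exact mem_fb.2 ⟨h (mem_fb.1 hx).1, (mem_fb.1 hx).2⟩

theorem nc_C_le_B (X Y : Finset G) (D : G) (L J : AddSubgroup G) (θ : G ⧸ J) :
    nc L (fb J (Cd X Y D) θ) ≤ nc L (fb J (Bd X Y D) θ) :=
  nc_mono (fb_mono (Cd_subset_Bd X Y D) θ)

theorem bR_add (X Y : Finset G) (D : G) (L J : AddSubgroup G) (θ : G ⧸ J) :
    bR1 X Y D L J θ + bR2 X Y D L J θ = nc L (fb J (Bd X Y D) θ) := by
  have := nc_C_le_B X Y D L J θ
  unfold bR1 bR2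
  omega

theorem bR_N (X Y : Finset G) (D : G) (L J : AddSubgroup G) (θ : G ⧸ J) :
    bR1 X Y D L J θ + 2 * bR2 X Y D L J θ = bN X Y D L J θ := by
  have := nc_C_le_B X Y D L J θ
  unfold bR1 bR2 bN
  omega

theorem fb_Bd_empty_iff {J : AddSubgroup G} {X Y : Finset G} {D : G} {θ : G ⧸ J} :
    fb J (Bd X Y D) θ = ∅ ↔ fb J X θ = ∅ ∧ fb J (sh D Y) θ = ∅ := by
  have h1 : fb J (Bd X Y D) θ = fb J X θ ∪ fb J (sh D Y) θ := by
    ext z
    rw [Finset.mem_union, mem_fb, mem_fb, mem_fb, mem_Bd, mem_sh]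
    tauto
  rw [h1, Finset.union_eq_empty]

theorem fb_Bd_empty_add {J : AddSubgroup G} {X Y : Finset G} {D ν : G} (hν : ν ∈ J) {θ : G ⧸ J}
    (h : fb J (Bd X Y D) θ = ∅) : fb J (Bd X Y (D + ν)) θ = ∅ := by
  rw [fb_Bd_empty_iff] at h ⊢
  refine ⟨h.1, ?_⟩
  rw [fb_shift hν, h.2]
  rfl

/-- content of a block, row by row -/
theorem ct_eq_sum {L J : AddSubgroup G} (hLJ : L ≤ J) (X Y : Finset G) (D : G) (θ : G ⧸ J) :
    ct X Y D J θ = ∑ c ∈ cl L (fb J (Bd X Y D) θ), ct X Y D L c := by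
  classical
  rw [← fb_union_inter, card_eq_sum_fb (V := L) (fb J (Bd X Y D) θ) (le_refl _),
    card_eq_sum_fb (V := L) (fb J (Cd X Y D) θ) (cl_mono (fb_mono (Cd_subset_Bd X Y D) θ)),
    ← Finset.sum_add_distrib]
  apply Finset.sum_congr rfl
  intro c hc
  rw [fb_fb hLJ hc, fb_fb hLJ hc, fb_union_inter]

/-- bound for the content of a row by the number of columns -/
theorem ct_row_le {L R J : AddSubgroup G} (hL : (L : Set G).Finite) (hLJ : L ≤ J)
    (X Y : Finset G) (D : G) {θ : G ⧸ J} {c : G ⧸ L} {A : Finset G}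
    (hc : c ∈ cl L (fb J A θ)) :
    ct X Y D L c ≤ Nat.card (L ⊓ R : AddSubgroup G) * bN X Y D R J θ := by
  rw [← fb_union_inter]
  unfold bN
  rw [mul_add]
  have key : ∀ Z : Finset G, (fb L Z c).card ≤
      Nat.card (L ⊓ R : AddSubgroup G) * nc R (fb J Z θ) := by
    intro Z
    calc (fb L Z c).card ≤ Nat.card (L ⊓ R : AddSubgroup G) * nc R (fb L Z c) := by
          apply card_le_inf_mul_nc hL
          intro x hx y hy
          exact sub_mem_of_mk_eq ((mem_fb.1 hx).2.trans (mem_fb.1 hy).2.symm)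
      _ ≤ _ := by
          apply Nat.mul_le_mul_left
          apply nc_mono
          rw [← fb_fb hLJ hc Z]
          exact fb_subset
  exact Nat.add_le_add (key _) (key _)

/-- the content of a block -/
theorem ct_block_le {L R J : AddSubgroup G} (hL : (L : Set G).Finite) (hLJ : L ≤ J)
    (X Y : Finset G) {D ν : G} (hν : ν ∈ L) (θ : G ⧸ J) {p i : ℕ}
    (hi : Nat.card (L ⊓ R : AddSubgroup G) = i) (hp : Nat.card L = p * i) :
    ct X Y D J θ ≤ i * (bR1 X Y D L J θ * min p (bN X Y (D + ν) R J θ) +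
      bR2 X Y D L J θ * bN X Y (D + ν) R J θ) := by
  classical
  set N := bN X Y (D + ν) R J θ with hN
  rw [ct_eq_sum hLJ]
  have hrow : ∀ c ∈ cl L (fb J (Bd X Y D) θ), ct X Y D L c ≤ i * N := by
    intro c hc
    rw [← ct_add hν c, ← hi]
    exact ct_row_le hL hLJ X Y (D + ν) hc
  have hsplit : ∀ c ∈ cl L (fb J (Bd X Y D) θ), ct X Y D L c ≤
      if c ∈ cl L (fb J (Cd X Y D) θ) then i * N else i * min p N := by
    intro c hc
    split_ifs with h
    · exact hrow c hc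
    · rw [mem_cl_fb hLJ hc] at h
      have h1 := ct_le hL X Y D c
      have h2 : c ∈ cl L (Bd X Y D) := cl_mono fb_subset hc
      rw [ty_of_not_mem_Cd h h2, mul_one, hp] at h1
      rw [Nat.mul_min_mul_left i p N |>.symm]
      rw [mul_comm p i] at h1
      exact le_min h1 (hrow c hc)
  calc ∑ c ∈ cl L (fb J (Bd X Y D) θ), ct X Y D L c
      ≤ ∑ c ∈ cl L (fb J (Bd X Y D) θ),
        (if c ∈ cl L (fb J (Cd X Y D) θ) then i * N else i * min p N) :=
        Finset.sum_le_sum hsplit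
    _ = _ := by
        rw [Finset.sum_ite, Finset.sum_const, Finset.sum_const, smul_eq_mul, smul_eq_mul]
        have e1 : ((cl L (fb J (Bd X Y D) θ)).filter
            (fun c => c ∈ cl L (fb J (Cd X Y D) θ))).card = bR2 X Y D L J θ := by
          unfold bR2 nc
          congr 1
          ext c
          rw [Finset.mem_filter]
          exact ⟨fun h => h.2, fun h => ⟨cl_mono (fb_mono (Cd_subset_Bd X Y D) θ) h, h⟩⟩
        have e2 := Finset.card_filter_add_card_filter_not (s := cl L (fb J (Bd X Y D) θ))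
          (fun c => c ∈ cl L (fb J (Cd X Y D) θ))
        have e3 := bR_add X Y D L J θ
        have e4 : (cl L (fb J (Bd X Y D) θ)).card = nc L (fb J (Bd X Y D) θ) := rfl
        have e5 : ((cl L (fb J (Bd X Y D) θ)).filter
            (fun c => c ∉ cl L (fb J (Cd X Y D) θ))).card = bR1 X Y D L J θ := by omega
        rw [e1, e5]
        ring

end Pool.Agent.Lib.MP_09e095_co
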