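import Mathlib
import Pool.Agent.Lib.MP_09e095_co.CWBlock

/-!
MP_09e095_co : the blocks are admissible; sums over the blocks.
-/

set_option autoImplicit false

open Finset
open scoped Pointwise

namespace Pool.Agent.Lib.MP_09e095_co

variable {G : Type*} [AddCommGroup G] [DecidableEq G]

theorem nc_fb_mul_le {V J : AddSubgroup G} (hJ : (J : Set G).Finite) (hVJ : V ≤ J)
    (A : Finset G) (θ : G ⧸ J) : Nat.card V * nc V (fb J A θ) ≤ Nat.card J := by
  apply nc_mul_le hJ hVJ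
  intro x hx y hy
  exact sub_mem_of_mk_eq ((mem_fb.1 hx).2.trans (mem_fb.1 hy).2.symm)

/-- `C_D` meets the block, then so does `C_{D+ν}` -/
theorem Cd_block {L J : AddSubgroup G} (hLJ : L ≤ J) {X Y : Finset G} {D D' : G}
    (hsub : cl L (Cd X Y D) ⊆ cl L (Cd X Y D')) {θ : G ⧸ J}
    (h : (fb J (Cd X Y D) θ).Nonempty) : (fb J (Cd X Y D') θ).Nonempty := by
  obtain ⟨x, hx⟩ := h
  have h1 := hsub (mk_mem_cl (V := L) (mem_fb.1 hx).1)
  obtain ⟨y, hy, h2⟩ := mem_cl.1 h1
  refine ⟨y, mem_fb.2 ⟨hy, ?_⟩⟩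
  rw [← (mem_fb.1 hx).2]
  exact mk_eq_of_sub_mem (hLJ (sub_mem_of_mk_eq h2))

theorem bR2_pos_iff {L J : AddSubgroup G} {X Y : Finset G} {D : G} {θ : G ⧸ J} :
    0 < bR2 X Y D L J θ ↔ (fb J (Cd X Y D) θ).Nonempty := by
  unfold bR2
  rw [Nat.pos_iff_ne_zero, Ne, nc_eq_zero, Finset.nonempty_iff_ne_empty]

theorem adm_block {L R J : AddSubgroup G} (hJ : (J : Set G).Finite) (hLJ : L ≤ J) (hRJ : R ≤ J)
    {X Y : Finset G} {D ν : G} (hν : ν ∈ L) {p q i : ℕ} (hi : 0 < i)
    (hp : Nat.card L = p * i) (hq : Nat.card R = q * i) (hpq : Nat.card J = p * q * i)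
    (hp0 : 0 < p) (hq0 : 0 < q)
    (hsub : cl L (Cd X Y D) ⊆ cl L (Cd X Y (D + ν))) (θ : G ⧸ J) :
    Adm p q (bR1 X Y D L J θ) (bR2 X Y D L J θ) (bN X Y (D + ν) R J θ) := by
  constructor
  · rw [bR_add]
    have h := nc_fb_mul_le hJ hLJ (Bd X Y D) θ
    rw [hp, hpq] at h
    have h2 : (p * i) * nc L (fb J (Bd X Y D) θ) ≤ (p * i) * q := by
      calc _ ≤ _ := h
        _ = _ := by ring
    exact Nat.le_of_mul_le_mul_left h2 (Nat.mul_pos hp0 hi)
  · intro h1 h2
    have h3 := bR_add X Y D L J θ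
    rw [h1, h2] at h3
    have h4 : fb J (Bd X Y D) θ = ∅ := nc_eq_zero.1 h3.symm
    have h5 := fb_Bd_empty_add (hLJ hν) h4
    unfold bN
    rw [h5]
    have h6 : fb J (Cd X Y (D + ν)) θ = ∅ := by
      rw [← Finset.subset_empty, ← h5]
      exact fb_mono (Cd_subset_Bd X Y (D + ν)) θ
    rw [h6, nc_eq_zero.2 rfl]
  · intro h1
    rw [bR_add] at h1
    by_contra hcon
    push Not at hcon
    have h2 : bN X Y (D + ν) R J θ = 0 := by omega
    unfold bN at h2
    have h3 : fb J (Bd X Y (D + ν)) θ = ∅ := (nc_eq_zero (V := R)).1 (by omega)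
    have h4 := fb_Bd_empty_add (J := J) (J.neg_mem (hLJ hν)) h3
    rw [add_neg_cancel_right] at h4
    rw [h4, nc_eq_zero.2 rfl] at h1
    exact lt_irrefl _ h1
  · intro h1
    have h2 := Cd_block hLJ hsub (bR2_pos_iff.1 h1)
    have h3 := nc_pos (V := R) h2
    have h4 := nc_C_le_B X Y (D + ν) R J θ
    unfold bN
    omega
  · have key : ∀ Z : Finset G, nc R (fb J Z θ) ≤ p := by
      intro Z
      have h := nc_fb_mul_le hJ hRJ Z θ
      rw [hq, hpq] at h
      have h2 : (q * i) * nc R (fb J Z θ) ≤ (q * i) * p := by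
        calc _ ≤ _ := h
          _ = _ := by ring
      exact Nat.le_of_mul_le_mul_left h2 (Nat.mul_pos hq0 hi)
    have h1 := key (Bd X Y (D + ν))
    have h2 := key (Cd X Y (D + ν))
    unfold bN
    omega

/-- if a block lies in one column `R` for `D + ν` and `C_D` meets it, then `ν ∈ R` -/
theorem mem_R_of_column {R J : AddSubgroup G} {X Y : Finset G} {D ν : G} (hν : ν ∈ J)
    {θ : G ⧸ J} (h1 : nc R (fb J (Bd X Y (D + ν)) θ) = 1)
    (h2 : (fb J (Cd X Y D) θ).Nonempty) : ν ∈ R := by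
  obtain ⟨z, hz⟩ := h2
  have hz' := mem_Cd.1 (mem_fb.1 hz).1
  have hzθ := (mem_fb.1 hz).2
  have m1 : z ∈ fb J (Bd X Y (D + ν)) θ := mem_fb.2 ⟨mem_Bd.2 (Or.inl hz'.1), hzθ⟩
  have m2 : z - ν ∈ fb J (Bd X Y (D + ν)) θ := by
    refine mem_fb.2 ⟨mem_Bd.2 (Or.inr ?_), ?_⟩
    · have : z - ν + (D + ν) = z + D := by abel
      rw [this]; exact hz'.2
    · rw [← hzθ]; exact mk_eq_of_sub_mem (by
        have : z - ν - z = -ν := by abel
        rw [this]; exact J.neg_mem hν)
  unfold nc at h1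
  obtain ⟨c, hc⟩ := Finset.card_eq_one.1 h1
  have e1 := mk_mem_cl (V := R) m1
  have e2 := mk_mem_cl (V := R) m2
  rw [hc, Finset.mem_singleton] at e1 e2
  have := sub_mem_of_mk_eq (e1.trans e2.symm)
  simpa using this

/-- the special bound for `p = 2`, `N = 2` -/
theorem ct_block_special {L R J : AddSubgroup G} (hR : (R : Set G).Finite) (hLJ : L ≤ J)
    {X Y : Finset G} {D ν : G} (hν : ν ∈ L) {i : ℕ}
    (hi : Nat.card (L ⊓ R : AddSubgroup G) = i)
    (hsub : cl L (Cd X Y D) ⊆ cl L (Cd X Y (D + ν))) {θ : G ⧸ J}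
    (h2 : 0 < bR2 X Y D L J θ) (hN : bN X Y (D + ν) R J θ = 2) :
    ct X Y D J θ ≤ i * (bR1 X Y D L J θ + 2 * bR2 X Y D L J θ) := by
  have hC := bR2_pos_iff.1 h2
  have hC' := Cd_block hLJ hsub hC
  have h3 := nc_pos (V := R) hC'
  have h4 := nc_C_le_B X Y (D + ν) R J θ
  have hB1 : nc R (fb J (Bd X Y (D + ν)) θ) = 1 := by
    unfold bN at hN; omega
  have hνR : ν ∈ R := mem_R_of_column (hLJ hν) hB1 hC
  -- the block `Bd X Y D` in `θ` lies in one coset of `R`
  have hone : ∀ x ∈ fb J (Bd X Y D) θ, ∀ y ∈ fb J (Bd X Y D) θ, x - y ∈ R := by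
    unfold nc at hB1
    obtain ⟨c, hc⟩ := Finset.card_eq_one.1 hB1
    have key : ∀ x ∈ fb J (Bd X Y D) θ, (QuotientAddGroup.mk x : G ⧸ R) = c := by
      intro x hx
      rcases mem_Bd.1 (mem_fb.1 hx).1 with h | h
      · have m1 : x ∈ fb J (Bd X Y (D + ν)) θ := mem_fb.2 ⟨mem_Bd.2 (Or.inl h), (mem_fb.1 hx).2⟩
        have e1 := mk_mem_cl (V := R) m1
        rw [hc, Finset.mem_singleton] at e1
        exact e1
      · have m2 : x - ν ∈ fb J (Bd X Y (D + ν)) θ := by
          refine mem_fb.2 ⟨mem_Bd.2 (Or.inr ?_), ?_⟩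
          · have : x - ν + (D + ν) = x + D := by abel
            rw [this]; exact h
          · rw [← (mem_fb.1 hx).2]; exact mk_eq_of_sub_mem (by
              have : x - ν - x = -ν := by abel
              rw [this]; exact J.neg_mem (hLJ hν))
        have e1 := mk_mem_cl (V := R) m2
        rw [hc, Finset.mem_singleton] at e1
        rw [← e1]
        exact mk_eq_of_sub_mem (by simpa using hνR)
    intro x hx y hy
    exact sub_mem_of_mk_eq ((key x hx).trans (key y hy).symm)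
  have hinf : (R ⊓ L : AddSubgroup G) = L ⊓ R := inf_comm _ _
  have b1 : (fb J (Bd X Y D) θ).card ≤ i * nc L (fb J (Bd X Y D) θ) := by
    have := card_le_inf_mul_nc (L := R) (R := L) hR hone
    rwa [hinf, hi] at this
  have b2 : (fb J (Cd X Y D) θ).card ≤ i * nc L (fb J (Cd X Y D) θ) := by
    have := card_le_inf_mul_nc (L := R) (R := L) hR (A := fb J (Cd X Y D) θ) (by
      intro x hx y hy
      exact hone x (fb_mono (Cd_subset_Bd X Y D) θ hx) y (fb_mono (Cd_subset_Bd X Y D) θ hy))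
    rwa [hinf, hi] at this
  rw [← fb_union_inter, bR_N]
  unfold bN
  rw [mul_add]
  exact Nat.add_le_add b1 b2

theorem ct_block_FF {L R J : AddSubgroup G} (hL : (L : Set G).Finite) (hR : (R : Set G).Finite)
    (hLJ : L ≤ J) {X Y : Finset G} {D ν : G} (hν : ν ∈ L) {p i : ℕ}
    (hi : Nat.card (L ⊓ R : AddSubgroup G) = i) (hp : Nat.card L = p * i)
    (hsub : cl L (Cd X Y D) ⊆ cl L (Cd X Y (D + ν))) (θ : G ⧸ J) :
    ct X Y D J θ ≤ i * FF p (bR1 X Y D L J θ) (bR2 X Y D L J θ) (bN X Y (D + ν) R J θ) := by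
  unfold FF
  split_ifs with h
  · exact ct_block_special hR hLJ hν hi hsub h.2.1 h.2.2
  · exact ct_block_le hL hLJ X Y hν θ hi hp

/-- the same for an additional set -/
theorem w_block_FF {L R J : AddSubgroup G} (hL : (L : Set G).Finite)
    (hLJ : L ≤ J) (W : Finset G) {p i : ℕ}
    (hi : Nat.card (L ⊓ R : AddSubgroup G) = i) (hp : Nat.card L = p * i) (θ : G ⧸ J) :
    (fb J W θ).card ≤ i * FF p (nc L (fb J W θ)) 0 (nc R (fb J W θ)) := by
  have hF : FF p (nc L (fb J W θ)) 0 (nc R (fb J W θ)) =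
      nc L (fb J W θ) * min p (nc R (fb J W θ)) := by
    unfold FF
    rw [if_neg (by omega)]; ring
  rw [hF, card_eq_sum_fb (V := L) (fb J W θ) (le_refl _)]
  calc ∑ c ∈ cl L (fb J W θ), (fb L (fb J W θ) c).card
      ≤ ∑ _c ∈ cl L (fb J W θ), i * min p (nc R (fb J W θ)) := by
        apply Finset.sum_le_sum
        intro c _
        rw [← Nat.mul_min_mul_left]
        refine le_min ?_ ?_
        · have := card_fb_le hL (fb J W θ) c
          rw [hp, mul_comm] at this
          exact this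
        · calc (fb L (fb J W θ) c).card ≤
              Nat.card (L ⊓ R : AddSubgroup G) * nc R (fb L (fb J W θ) c) := by
                apply card_le_inf_mul_nc hL
                intro x hx y hy
                exact sub_mem_of_mk_eq ((mem_fb.1 hx).2.trans (mem_fb.1 hy).2.symm)
            _ ≤ _ := by
                rw [hi]
                exact Nat.mul_le_mul_left _ (nc_mono fb_subset)
    _ = _ := by
        rw [Finset.sum_const, smul_eq_mul]
        unfold nc
        ring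

theorem adm_w {L R J : AddSubgroup G} (hJ : (J : Set G).Finite) (hLJ : L ≤ J) (hRJ : R ≤ J)
    (W : Finset G) {p q i : ℕ} (hi : 0 < i)
    (hp : Nat.card L = p * i) (hq : Nat.card R = q * i) (hpq : Nat.card J = p * q * i)
    (hp0 : 0 < p) (hq0 : 0 < q) (θ : G ⧸ J) :
    Adm p q (nc L (fb J W θ)) 0 (nc R (fb J W θ)) := by
  constructor
  · have h := nc_fb_mul_le hJ hLJ W θ
    rw [hp, hpq] at h
    have h2 : (p * i) * nc L (fb J W θ) ≤ (p * i) * q := by
      calc _ ≤ _ := h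
        _ = _ := by ring
    have := Nat.le_of_mul_le_mul_left h2 (Nat.mul_pos hp0 hi)
    omega
  · intro h1 _
    rw [nc_eq_zero.1 h1, nc_eq_zero.2 rfl]
  · intro h1
    apply nc_pos
    rw [Finset.nonempty_iff_ne_empty]
    intro h
    rw [h, nc_eq_zero.2 rfl] at h1
    exact lt_irrefl _ h1
  · intro h; exact absurd h (lt_irrefl _)
  · have h := nc_fb_mul_le hJ hRJ W θ
    rw [hq, hpq] at h
    have h2 : (q * i) * nc R (fb J W θ) ≤ (q * i) * p := by
      calc _ ≤ _ := h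
        _ = _ := by ring
    have := Nat.le_of_mul_le_mul_left h2 (Nat.mul_pos hq0 hi)
    omega

end Pool.Agent.Lib.MP_09e095_co
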