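import Mathlib
import Pool.Agent.Lib.MP_09e095_co.CWBlock2

/-!
MP_09e095_co : cells (`I`-cosets) inside rows (`L`-cosets), `|L| = 2|I|`.
-/

set_option autoImplicit false

open Finset
open scoped Pointwise

namespace Pool.Agent.Lib.MP_09e095_co

variable {G : Type*} [AddCommGroup G] [DecidableEq G]

theorem idx2 {I L : AddSubgroup G} (hL : (L : Set G).Finite) (hIL : I ≤ L)
    (h2 : Nat.card L = 2 * Nat.card I) {u v : G} (hu : u ∈ L) (hv : v ∈ L) (hu' : u ∉ I)
    (hv' : v ∉ I) : u - v ∈ I := by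
  by_contra hcon
  have hI : 0 < Nat.card I := cwCard_pos (hL.subset hIL)
  have h := nc_mul_le hL hIL (A := {0, u, v}) (by
    have key : ∀ x ∈ ({0, u, v} : Finset G), x ∈ L := by
      intro x hx
      simp only [Finset.mem_insert, Finset.mem_singleton] at hx
      rcases hx with rfl | rfl | rfl
      · exact L.zero_mem
      · exact hu
      · exact hv
    intro x hx y hy
    exact L.sub_mem (key x hx) (key y hy))
  have h3 : nc I {0, u, v} = 3 := by
    have e1 : (QuotientAddGroup.mk (0 : G) : G ⧸ I) ≠ QuotientAddGroup.mk u := by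
      intro h
      apply hu'
      have := sub_mem_of_mk_eq h
      simpa using this
    have e2 : (QuotientAddGroup.mk (0 : G) : G ⧸ I) ≠ QuotientAddGroup.mk v := by
      intro h
      apply hv'
      have := sub_mem_of_mk_eq h
      simpa using this
    have e3 : (QuotientAddGroup.mk u : G ⧸ I) ≠ QuotientAddGroup.mk v := by
      intro h
      exact hcon (sub_mem_of_mk_eq h)
    classical
    unfold nc cl
    rw [Finset.image_insert, Finset.image_insert, Finset.image_singleton,
      Finset.card_insert_of_notMem, Finset.card_insert_of_notMem, Finset.card_singleton]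
    · rw [Finset.mem_singleton]; exact e3
    · rw [Finset.mem_insert, Finset.mem_singleton]
      push Not
      exact ⟨e1, e2⟩
  rw [h3, h2] at h
  omega

theorem exists_not_mem {I L : AddSubgroup G} (hL : (L : Set G).Finite) (hIL : I ≤ L)
    (h2 : Nat.card L = 2 * Nat.card I) : ∃ u ∈ L, u ∉ I := by
  by_contra hcon
  push Not at hcon
  have : L = I := le_antisymm (fun x hx => hcon x hx) hIL
  have hI : 0 < Nat.card I := cwCard_pos (hL.subset hIL)
  rw [this] at h2
  omega

/-- a row is the union of two cells -/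
theorem row_eq {I L : AddSubgroup G} (hL : (L : Set G).Finite) (hIL : I ≤ L)
    (h2 : Nat.card L = 2 * Nat.card I) {z w : G} (hzw : z - w ∈ L) (hzw' : z - w ∉ I)
    (A : Finset G) :
    fb L A (QuotientAddGroup.mk z) = fb I A (QuotientAddGroup.mk z) ∪
      fb I A (QuotientAddGroup.mk w) := by
  ext x
  rw [Finset.mem_union, mem_fb, mem_fb, mem_fb]
  constructor
  · rintro ⟨hx, h⟩
    have h1 : x - z ∈ L := sub_mem_of_mk_eq h
    by_cases h3 : x - z ∈ I
    · left; exact ⟨hx, mk_eq_of_sub_mem h3⟩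
    · right
      refine ⟨hx, mk_eq_of_sub_mem ?_⟩
      have h4 : w - z ∈ L := by
        have : w - z = -(z - w) := by abel
        rw [this]; exact L.neg_mem hzw
      have h5 : w - z ∉ I := by
        intro h
        apply hzw'
        have : z - w = -(w - z) := by abel
        rw [this]; exact I.neg_mem h
      have := idx2 hL hIL h2 h1 h4 h3 h5
      have e : x - w = (x - z) - (w - z) := by abel
      rw [e]; exact this
  · rintro (⟨hx, h⟩ | ⟨hx, h⟩)
    · exact ⟨hx, mk_eq_of_sub_mem (hIL (sub_mem_of_mk_eq h))⟩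
    · refine ⟨hx, mk_eq_of_sub_mem ?_⟩
      have e : x - z = (x - w) - (z - w) := by abel
      rw [e]; exact L.sub_mem (hIL (sub_mem_of_mk_eq h)) hzw

theorem cells_disj {I : AddSubgroup G} {z w : G} (hzw' : z - w ∉ I) (A B : Finset G) :
    Disjoint (fb I A (QuotientAddGroup.mk z)) (fb I B (QuotientAddGroup.mk w)) := by
  rw [Finset.disjoint_left]
  intro x hx hx'
  exact hzw' (sub_mem_of_mk_eq ((mem_fb.1 hx).2.symm.trans (mem_fb.1 hx').2))

theorem row_card {I L : AddSubgroup G} (hL : (L : Set G).Finite) (hIL : I ≤ L)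
    (h2 : Nat.card L = 2 * Nat.card I) {z w : G} (hzw : z - w ∈ L) (hzw' : z - w ∉ I)
    (A : Finset G) :
    (fb L A (QuotientAddGroup.mk z)).card = (fb I A (QuotientAddGroup.mk z)).card +
      (fb I A (QuotientAddGroup.mk w)).card := by
  rw [row_eq hL hIL h2 hzw hzw', Finset.card_union_of_disjoint (cells_disj hzw' A A)]

theorem row_nc_le {I L U : AddSubgroup G} (hL : (L : Set G).Finite) (hIL : I ≤ L)
    (h2 : Nat.card L = 2 * Nat.card I) {z w : G} (hzw : z - w ∈ L) (hzw' : z - w ∉ I)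
    (A : Finset G) :
    nc U (fb L A (QuotientAddGroup.mk z)) ≤ nc U (fb I A (QuotientAddGroup.mk z)) +
      nc U (fb I A (QuotientAddGroup.mk w)) := by
  classical
  rw [row_eq hL hIL h2 hzw hzw']
  unfold nc
  rw [cl_union]
  exact Finset.card_union_le _ _

/-- shifted version of `nc_add_le_of_disjoint` -/
theorem nc_add_le_shift {T L : AddSubgroup G} (hL : (L : Set G).Finite) (hTL : T ≤ L)
    {x y : Finset G} (h : InC L x y) {ν : G} (hν : ν ∈ L)
    (hd : ∀ t ∈ T, ∀ a ∈ x, a + (ν + t) ∉ y) :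
    Nat.card T * (nc T x + nc T y) ≤ Nat.card L := by
  have h1 : nc T (sh (-ν) x) = nc T x := nc_sh T (-ν) x
  rw [← h1]
  apply nc_add_le_of_disjoint hL hTL
  · obtain ⟨θ, g1, g2⟩ := h
    refine ⟨θ, ?_, g2⟩
    intro a ha
    rw [mem_sh] at ha
    rw [← g1 _ ha]
    exact mk_eq_of_sub_mem (by
      have : a - (a + -ν) = ν := by abel
      rw [this]; exact hν)
  · intro t ht a ha hcon
    rw [mem_sh] at ha
    apply hd t ht _ ha
    have : a + -ν + (ν + t) = a + t := by abel
    rw [this]; exact hcon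

/-- capacity bound for one row -/
theorem row_ge {L R J : AddSubgroup G} (hL : (L : Set G).Finite) (hLJ : L ≤ J)
    (X Y : Finset G) {D ν : G} (hν : ν ∈ L) (θ : G ⧸ J) {p i : ℕ}
    (hi : Nat.card (L ⊓ R : AddSubgroup G) = i) (hp : Nat.card L = p * i)
    (Λ : Finset (G ⧸ L)) (hΛ : Λ ⊆ cl L (fb J (Bd X Y D) θ)) [DecidableEq (G ⧸ L)] :
    (∑ c ∈ Λ, if c ∈ cl L (fb J (Cd X Y D) θ) then i * bN X Y (D + ν) R J θ
      else i * min p (bN X Y (D + ν) R J θ)) + ct X Y D J θ ≤
    (∑ c ∈ Λ, ct X Y D L c) + i * (bR1 X Y D L J θ * min p (bN X Y (D + ν) R J θ) +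
      bR2 X Y D L J θ * bN X Y (D + ν) R J θ) := by
  classical
  set N := bN X Y (D + ν) R J θ with hN
  have hrow : ∀ c ∈ cl L (fb J (Bd X Y D) θ), ct X Y D L c ≤ i * N := by
    intro c hc
    rw [← ct_add hν c, ← hi]
    exact ct_row_le hL hLJ X Y (D + ν) hc
  have hsplit : ∀ c ∈ cl L (fb J (Bd X Y D) θ), ct X Y D L c ≤
      if c ∈ cl L (fb J (Cd X Y D) θ) then i * N else i * min p N := by
    intro c hc
    split_ifs with h
    · exact hrow c hc
    · rw [mem_cl_fb hLJ hc] at h
      have h1 := ct_le hL X Y D c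
      have h2 : c ∈ cl L (Bd X Y D) := cl_mono fb_subset hc
      rw [ty_of_not_mem_Cd h h2, mul_one, hp] at h1
      rw [Nat.mul_min_mul_left i p N |>.symm]
      rw [mul_comm p i] at h1
      exact le_min h1 (hrow c hc)
  have htot : ∑ c ∈ cl L (fb J (Bd X Y D) θ),
      (if c ∈ cl L (fb J (Cd X Y D) θ) then i * N else i * min p N) =
      i * (bR1 X Y D L J θ * min p N + bR2 X Y D L J θ * N) := by
    rw [Finset.sum_ite, Finset.sum_const, Finset.sum_const, smul_eq_mul, smul_eq_mul]
    have e1 : ((cl L (fb J (Bd X Y D) θ)).filter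
        (fun c => c ∈ cl L (fb J (Cd X Y D) θ))).card = bR2 X Y D L J θ := by
      unfold bR2 nc
      congr 1
      ext c
      rw [Finset.mem_filter]
      exact ⟨fun h => h.2, fun h => ⟨cl_mono (fb_mono (Cd_subset_Bd X Y D) θ) h, h⟩⟩
    have e2 := Finset.card_filter_add_card_filter_not (s := cl L (fb J (Bd X Y D) θ))
      (fun c => c ∈ cl L (fb J (Cd X Y D) θ))
    have e3 := bR_add X Y D L J θ
    have e4 : (cl L (fb J (Bd X Y D) θ)).card = nc L (fb J (Bd X Y D) θ) := rfl
    have e5 : ((cl L (fb J (Bd X Y D) θ)).filter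
        (fun c => c ∉ cl L (fb J (Cd X Y D) θ))).card = bR1 X Y D L J θ := by omega
    rw [e1, e5]
    ring
  rw [← htot, ct_eq_sum hLJ]
  rw [← Finset.sum_sdiff hΛ, ← Finset.sum_sdiff hΛ]
  have hrest : ∑ c ∈ cl L (fb J (Bd X Y D) θ) \ Λ, ct X Y D L c ≤
      ∑ c ∈ cl L (fb J (Bd X Y D) θ) \ Λ,
        (if c ∈ cl L (fb J (Cd X Y D) θ) then i * N else i * min p N) := by
    apply Finset.sum_le_sum
    intro c hc
    exact hsplit c (Finset.mem_sdiff.1 hc).1
  have e6 : (∑ c ∈ Λ, if c ∈ cl L (fb J (Cd X Y D) θ) then i * N else i * min p N) =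
    ∑ c ∈ Λ, (if c ∈ cl L (fb J (Cd X Y D) θ) then i * N else i * min p N) := by
    apply Finset.sum_congr rfl
    intro c _
    split_ifs <;> rfl
  rw [e6]
  omega

end Pool.Agent.Lib.MP_09e095_co
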