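import Mathlib
import Pool.Agent.Lib.MP_09e095_co.CWNum

/-!
MP_09e095_co : the numerical part of the compression lemma, summed over the blocks.
-/

set_option autoImplicit false

open Finset

namespace Pool.Agent.Lib.MP_09e095_co

theorem num_a_nonneg {p q r1 r2 N : ℕ} (h : Adm p q r1 r2 N) :
    (0 : ℤ) ≤ p * (r1 + 2 * r2) - FF p r1 r2 N := by
  have h6 : FF p r1 r2 N ≤ p * (r1 + 2 * r2) := by
    unfold FF
    split_ifs with hs
    · obtain ⟨rfl, _, rfl⟩ := hs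
      omega
    · have h7 : r1 * min p N ≤ r1 * p := Nat.mul_le_mul_left _ (min_le_left p N)
      have h8 : r2 * N ≤ r2 * (2 * p) := Nat.mul_le_mul_left _ h.top
      nlinarith
  have : ((FF p r1 r2 N : ℕ) : ℤ) ≤ ((p * (r1 + 2 * r2) : ℕ) : ℤ) := by exact_mod_cast h6
  push_cast at this
  linarith

/-- no exceptional block for `p ≥ 3` -/
theorem num_excl {ι : Type*} [DecidableEq ι] (Θ : Finset ι) (r1 r2 N : ι → ℕ) {p q : ℕ}
    (hp : 3 ≤ p) (hpq : p < q)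
    (hadm : ∀ j ∈ Θ, Adm p q (r1 j) (r2 j) (N j))
    (hA : 2 * ∑ j ∈ Θ, ((p : ℤ) * (r1 j + 2 * r2 j) - FF p (r1 j) (r2 j) (N j)) < 3 * p)
    (hB : 2 * ∑ j ∈ Θ, ((q : ℤ) * N j - FF p (r1 j) (r2 j) (N j)) < 3 * q)
    (hH : 3 * ((p : ℤ) - 1) < 2 * ∑ j ∈ Θ, ((p : ℤ) * nn (r1 j) (r2 j) - N j))
    (heq : ∀ j ∈ Θ, ((p : ℤ) * nn (r1 j) (r2 j) - N j) =
      p * (r1 j + 2 * r2 j) - FF p (r1 j) (r2 j) (N j)) :
    ∀ j ∈ Θ, 0 < r2 j → p < N j := by
  intro j hj hr2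
  by_contra hcon
  push Not at hcon
  have hb0 : ∀ j ∈ Θ, (0 : ℤ) ≤ (q : ℤ) * N j - FF p (r1 j) (r2 j) (N j) := by
    intro j hj
    have := FF_le (hadm j hj)
    have : ((FF p (r1 j) (r2 j) (N j) : ℕ) : ℤ) ≤ ((q * N j : ℕ) : ℤ) := by exact_mod_cast this
    push_cast at this
    linarith
  have ha0 : ∀ j ∈ Θ, (0 : ℤ) ≤ (p : ℤ) * (r1 j + 2 * r2 j) - FF p (r1 j) (r2 j) (N j) :=
    fun j hj => num_a_nonneg (hadm j hj)
  have hbj : ∀ j ∈ Θ, 2 * ((q : ℤ) * N j - FF p (r1 j) (r2 j) (N j)) < 3 * q := by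
    intro j hj
    have := Finset.single_le_sum hb0 hj
    linarith
  have hq4 : (4 : ℤ) ≤ q := by
    have : 4 ≤ q := by omega
    exact_mod_cast this
  have hp3 : (3 : ℤ) ≤ p := by exact_mod_cast hp
  -- the block `j`
  obtain ⟨h1, h2, h3, h4, h5⟩ := hadm j hj
  have h1' : (r1 j : ℤ) + r2 j ≤ q := by exact_mod_cast h1
  have hN2 : (2 : ℤ) ≤ N j := by exact_mod_cast h4 hr2
  have hNp : (N j : ℤ) ≤ p := by exact_mod_cast hcon
  have hr1 : (0 : ℤ) ≤ r1 j := by positivity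
  have hFj : FF p (r1 j) (r2 j) (N j) = r1 j * N j + r2 j * N j := by
    unfold FF
    rw [if_neg (by omega), min_eq_right hcon]
  have heqj := heq j hj
  rw [hFj, nn_two (by omega)] at heqj
  have hbj' := hbj j hj
  rw [hFj] at hbj'
  push_cast at heqj hbj'
  have hr2' : (1 : ℤ) ≤ r2 j := by exact_mod_cast hr2
  have e1 : (r1 j : ℤ) * (p - N j) + ((r2 j : ℤ) - 1) * (2 * p - N j) = 0 := by
    ring_nf at heqj ⊢; linarith
  have n1 : (0 : ℤ) ≤ (r1 j : ℤ) * (p - N j) := mul_nonneg hr1 (by linarith)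
  have n2 : (0 : ℤ) ≤ ((r2 j : ℤ) - 1) * (2 * p - N j) :=
    mul_nonneg (by linarith) (by linarith)
  have z1 : (r1 j : ℤ) * (p - N j) = 0 := by linarith
  have z2 : ((r2 j : ℤ) - 1) * (2 * p - N j) = 0 := by linarith
  have hr2one : (r2 j : ℤ) = 1 := by
    rcases mul_eq_zero.1 z2 with e | e <;> linarith
  rw [hr2one] at hbj'
  have hNeq : (N j : ℤ) = p := by
    rcases mul_eq_zero.1 z1 with e | e
    · exfalso
      rw [e] at hbj'
      nlinarith
    · linarith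
  -- the other blocks
  have hsplit := Finset.add_sum_erase Θ
    (fun j => ((p : ℤ) * nn (r1 j) (r2 j) - N j)) hj
  have hsplit2 := Finset.add_sum_erase Θ
    (fun j => ((p : ℤ) * (r1 j + 2 * r2 j) - FF p (r1 j) (r2 j) (N j))) hj
  have hhj : ((p : ℤ) * nn (r1 j) (r2 j) - N j) = p := by
    rw [nn_two (by omega), hNeq]; push_cast; ring
  have haj := heq j hj
  rw [hhj] at hsplit haj
  rw [← haj] at hsplit2
  have hpos : 0 < ∑ x ∈ Θ.erase j, ((p : ℤ) * nn (r1 x) (r2 x) - N x) := by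
    linarith
  obtain ⟨j2, hj2, hj2pos⟩ := Finset.exists_lt_of_sum_lt (s := Θ.erase j) (f := fun _ => (0 : ℤ))
    (g := fun x => ((p : ℤ) * nn (r1 x) (r2 x) - N x)) (by simpa using hpos)
  have hj2Θ : j2 ∈ Θ := Finset.mem_of_mem_erase hj2
  have ha2 : ((p : ℤ) * (r1 j2 + 2 * r2 j2) - FF p (r1 j2) (r2 j2) (N j2)) ≤
      ∑ x ∈ Θ.erase j, ((p : ℤ) * (r1 x + 2 * r2 x) - FF p (r1 x) (r2 x) (N x)) :=
    Finset.single_le_sum (fun x hx => ha0 x (Finset.mem_of_mem_erase hx)) hj2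
  have heq2 := heq j2 hj2Θ
  have hb2 := hbj j2 hj2Θ
  obtain ⟨g1, g2, g3, g4, g5⟩ := hadm j2 hj2Θ
  have g1' : (r1 j2 : ℤ) + r2 j2 ≤ q := by exact_mod_cast g1
  have g5' : (N j2 : ℤ) ≤ 2 * p := by exact_mod_cast g5
  have gr1 : (0 : ℤ) ≤ r1 j2 := by positivity
  have hh2 : 2 * ((p : ℤ) * nn (r1 j2) (r2 j2) - N j2) < p := by
    rw [heq2]; linarith
  rcases Nat.eq_zero_or_pos (r2 j2) with e0 | hr2'
  · -- r2 = 0
    rcases Nat.eq_zero_or_pos (r1 j2) with e1 | hr1'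
    · rw [e0, e1, nn_zero] at hj2pos
      have : (0 : ℤ) ≤ N j2 := by positivity
      push_cast at hj2pos
      linarith
    · rw [e0] at hj2pos heq2 hb2 hh2
      rw [nn_one (by omega)] at hj2pos heq2 hh2
      push_cast at hj2pos hh2
      have hNlt : N j2 < p := by
        have : (N j2 : ℤ) < p := by linarith
        exact_mod_cast this
      have hF : FF p (r1 j2) 0 (N j2) = r1 j2 * N j2 := by
        unfold FF; rw [if_neg (by omega), min_eq_right hNlt.le]; ring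
      rw [hF] at heq2 hb2
      push_cast at heq2 hb2
      have e2 : ((r1 j2 : ℤ) - 1) * (p - N j2) = 0 := by ring_nf at heq2 ⊢; linarith
      have e3 : (r1 j2 : ℤ) = 1 := by
        rcases mul_eq_zero.1 e2 with e | e <;> linarith
      rw [e3] at hb2
      nlinarith
  · rw [nn_two (by omega)] at hj2pos heq2 hh2
    push_cast at hj2pos hh2
    have hNgt : p < N j2 := by
      have : (p : ℤ) < N j2 := by linarith
      exact_mod_cast this
    have hF : FF p (r1 j2) (r2 j2) (N j2) = r1 j2 * p + r2 j2 * N j2 := by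
      unfold FF; rw [if_neg (by omega), min_eq_left hNgt.le]
    rw [hF] at heq2 hb2
    push_cast at heq2 hb2
    have e2 : ((r2 j2 : ℤ) - 1) * (2 * p - N j2) = 0 := by ring_nf at heq2 ⊢; linarith
    have e3 : (r2 j2 : ℤ) = 1 := by
      rcases mul_eq_zero.1 e2 with e | e <;> linarith
    rw [e3] at hb2 g1'
    nlinarith

end Pool.Agent.Lib.MP_09e095_co
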