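import Mathlib
import Pool.Agent.Lib.MP_09e095_co.CWNum2

/-!
MP_09e095_co : the numerical part of the compression lemma, main statement.
-/

set_option autoImplicit false

open Finset

namespace Pool.Agent.Lib.MP_09e095_co

theorem typ_k {p q r1 r2 N : ℕ} (hp : 2 ≤ p) (hpq : p < q) (h : Typ p q r1 r2 N) :
    ∃ t : ℕ, (q * nn r1 r2 - (r1 + 2 * r2) : ℤ) = (q - 1) * t := by
  rcases h with ⟨rfl, rfl, rfl⟩ | ⟨rfl, rfl, rfl⟩ | ⟨rfl, rfl, rfl⟩ | ⟨rfl, rfl, rfl⟩ |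
    ⟨rfl, rfl, rfl⟩ | ⟨rfl, rfl, rfl⟩
  · exact ⟨0, by simp [nn]⟩
  · exact ⟨1, by simp [nn]⟩
  · exact ⟨0, by rw [nn_one (by omega)]; push_cast; ring⟩
  · exact ⟨2, by simp [nn]; ring⟩
  · refine ⟨1, ?_⟩
    rw [nn_two (by omega)]
    have : ((q - 1 : ℕ) : ℤ) = q - 1 := by
      rw [Nat.cast_sub (by omega)]; simp
    rw [this]; push_cast; ring
  · exact ⟨0, by rw [nn_two (by omega)]; push_cast; ring⟩

theorem num_main {ι : Type*} [DecidableEq ι] (Θ : Finset ι) (r1 r2 N s : ι → ℕ) {p q i : ℕ}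
    (hi : 0 < i) (hp : 2 ≤ p) (hpq : p < q)
    (hadm : ∀ j ∈ Θ, Adm p q (r1 j) (r2 j) (N j))
    (hs : ∀ j ∈ Θ, s j ≤ i * FF p (r1 j) (r2 j) (N j))
    (hA : 2 * ∑ j ∈ Θ, ((p : ℤ) * i * (r1 j + 2 * r2 j) - s j) < 3 * (p * i))
    (hB : 2 * ∑ j ∈ Θ, ((q : ℤ) * i * N j - s j) < 3 * (q * i))
    (hH : 3 * ((p : ℤ) - 1) < 2 * ∑ j ∈ Θ, ((p : ℤ) * nn (r1 j) (r2 j) - N j))
    (hK : 3 * ((q : ℤ) - 1) < 2 * ∑ j ∈ Θ, ((q : ℤ) * nn (r1 j) (r2 j) - (r1 j + 2 * r2 j))) :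
    p = 2 ∧ q = 3 ∧ (∀ j ∈ Θ, Typ 2 3 (r1 j) (r2 j) (N j)) ∧
      ∑ j ∈ Θ, ((3 : ℤ) * nn (r1 j) (r2 j) - (r1 j + 2 * r2 j)) = 4 ∧
      2 * ∑ j ∈ Θ, ((i : ℤ) * FF 2 (r1 j) (r2 j) (N j) - s j) < i := by
  have hi' : (0 : ℤ) < i := by exact_mod_cast hi
  have hs' : ∀ j ∈ Θ, (s j : ℤ) ≤ i * FF p (r1 j) (r2 j) (N j) := by
    intro j hj; exact_mod_cast hs j hj
  have hA' : 2 * ∑ j ∈ Θ, ((p : ℤ) * (r1 j + 2 * r2 j) - FF p (r1 j) (r2 j) (N j)) < 3 * p := by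
    have h1 : (i : ℤ) * ∑ j ∈ Θ, ((p : ℤ) * (r1 j + 2 * r2 j) - FF p (r1 j) (r2 j) (N j)) ≤
        ∑ j ∈ Θ, ((p : ℤ) * i * (r1 j + 2 * r2 j) - s j) := by
      rw [Finset.mul_sum]
      apply Finset.sum_le_sum
      intro j hj
      have := hs' j hj
      nlinarith
    by_contra hcon
    push Not at hcon
    nlinarith
  have hB' : 2 * ∑ j ∈ Θ, ((q : ℤ) * N j - FF p (r1 j) (r2 j) (N j)) < 3 * q := by
    have h1 : (i : ℤ) * ∑ j ∈ Θ, ((q : ℤ) * N j - FF p (r1 j) (r2 j) (N j)) ≤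
        ∑ j ∈ Θ, ((q : ℤ) * i * N j - s j) := by
      rw [Finset.mul_sum]
      apply Finset.sum_le_sum
      intro j hj
      have := hs' j hj
      nlinarith
    by_contra hcon
    push Not at hcon
    nlinarith
  have hle : ∀ j ∈ Θ, ((p : ℤ) * nn (r1 j) (r2 j) - N j) ≤
      p * (r1 j + 2 * r2 j) - FF p (r1 j) (r2 j) (N j) := fun j hj => num_a (hadm j hj)
  have hsum := Finset.sum_le_sum hle
  have hsumeq : ∑ j ∈ Θ, ((p : ℤ) * nn (r1 j) (r2 j) - N j) =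
      ∑ j ∈ Θ, ((p : ℤ) * (r1 j + 2 * r2 j) - FF p (r1 j) (r2 j) (N j)) := by omega
  have heq := (Finset.sum_eq_sum_iff_of_le hle).1 hsumeq
  have hex : ∀ j ∈ Θ, 3 ≤ p → 0 < r2 j → p < N j := by
    intro j hj h3 hr
    exact num_excl Θ r1 r2 N h3 hpq hadm hA' hB' hH heq j hj hr
  have hleb : ∀ j ∈ Θ, ((q : ℤ) * nn (r1 j) (r2 j) - (r1 j + 2 * r2 j)) ≤
      q * N j - FF p (r1 j) (r2 j) (N j) := fun j hj => num_b (hadm j hj) hp (hex j hj)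
  have hsumb := Finset.sum_le_sum hleb
  have hsumeqb : ∑ j ∈ Θ, ((q : ℤ) * nn (r1 j) (r2 j) - (r1 j + 2 * r2 j)) =
      ∑ j ∈ Θ, ((q : ℤ) * N j - FF p (r1 j) (r2 j) (N j)) := by omega
  have heqb := (Finset.sum_eq_sum_iff_of_le hleb).1 hsumeqb
  have htyp : ∀ j ∈ Θ, Typ p q (r1 j) (r2 j) (N j) := by
    intro j hj
    exact num_class (hadm j hj) hp hpq (hex j hj) (heq j hj) (heqb j hj)
  -- the sum of the `k` is a multiple of `q - 1`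
  have hmul : ∃ t : ℕ, ∑ j ∈ Θ, ((q : ℤ) * nn (r1 j) (r2 j) - (r1 j + 2 * r2 j)) =
      (q - 1) * t := by
    have : ∀ j ∈ Θ, ∃ t : ℕ, ((q : ℤ) * nn (r1 j) (r2 j) - (r1 j + 2 * r2 j)) =
        (q - 1) * t := fun j hj => typ_k hp hpq (htyp j hj)
    choose! t ht using this
    refine ⟨∑ j ∈ Θ, t j, ?_⟩
    rw [Finset.sum_congr rfl ht, ← Finset.mul_sum]
    push_cast; rfl
  obtain ⟨t, ht⟩ := hmul
  have hq1 : (0 : ℤ) < q - 1 := by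
    have : (2 : ℤ) ≤ p := by exact_mod_cast hp
    have : (p : ℤ) < q := by exact_mod_cast hpq
    linarith
  have ht2 : 2 ≤ t := by
    by_contra hcon
    push Not at hcon
    have : (t : ℤ) ≤ 1 := by
      have : t ≤ 1 := by omega
      exact_mod_cast this
    rw [ht] at hK
    nlinarith
  have ht2' : (2 : ℤ) ≤ t := by exact_mod_cast ht2
  have hub : 2 * ((q : ℤ) - 1) * t < 3 * q := by
    have := hB'
    rw [← hsumeqb, ht] at this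
    linarith
  have hq3 : q = 3 := by
    have : (q : ℤ) < 4 := by nlinarith
    omega
  have hp2 : p = 2 := by omega
  subst hq3
  subst hp2
  have ht4 : t = 2 := by
    push_cast at hub
    omega
  refine ⟨rfl, rfl, htyp, ?_, ?_⟩
  · have := ht
    rw [ht4] at this
    push_cast at this
    linarith
  · -- the total deficiency
    have h1 : ∑ j ∈ Θ, (((3 : ℕ) : ℤ) * i * N j - s j) =
        i * ∑ j ∈ Θ, (((3 : ℕ) : ℤ) * N j - FF 2 (r1 j) (r2 j) (N j)) +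
        ∑ j ∈ Θ, ((i : ℤ) * FF 2 (r1 j) (r2 j) (N j) - s j) := by
      rw [Finset.mul_sum, ← Finset.sum_add_distrib]
      apply Finset.sum_congr rfl
      intro j _
      ring
    rw [← hsumeqb, ht, ht4] at h1
    rw [h1] at hB
    push_cast at hB
    nlinarith

end Pool.Agent.Lib.MP_09e095_co
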