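import Mathlib
import Pool.Agent.Lib.MP_09e095_co.CWBlock2
import Pool.Agent.Lib.MP_09e095_co.CWNum3

/-!
MP_09e095_co : the block structure of a pair of bad differences.
-/

set_option autoImplicit false

open Finset
open scoped Pointwise

namespace Pool.Agent.Lib.MP_09e095_co

variable {G : Type*} [AddCommGroup G] [DecidableEq G]

theorem cl_Bd_add {J : AddSubgroup G} {X Y : Finset G} {D ν : G} (hν : ν ∈ J) :
    cl J (Bd X Y (D + ν)) = cl J (Bd X Y D) := by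
  ext θ
  rw [← fb_nonempty_iff, ← fb_nonempty_iff, Finset.nonempty_iff_ne_empty,
    Finset.nonempty_iff_ne_empty, not_iff_not]
  constructor
  · intro h
    have := fb_Bd_empty_add (J := J) (J.neg_mem hν) h
    rwa [add_neg_cancel_right] at this
  · intro h
    exact fb_Bd_empty_add hν h

theorem sum_bN {R J : AddSubgroup G} (hRJ : R ≤ J) (X Y : Finset G) (D : G)
    {Θ : Finset (G ⧸ J)} (h : cl J (Bd X Y D) ⊆ Θ) :
    ∑ θ ∈ Θ, bN X Y D R J θ = nc R (Bd X Y D) + nc R (Cd X Y D) := by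
  unfold bN
  rw [Finset.sum_add_distrib, ← nc_eq_sum_fb hRJ _ h,
    ← nc_eq_sum_fb hRJ _ ((cl_mono (Cd_subset_Bd X Y D)).trans h)]

theorem nn_block {L J : AddSubgroup G} (X Y : Finset G) (D : G) (θ : G ⧸ J) :
    nn (bR1 X Y D L J θ) (bR2 X Y D L J θ) = ty X Y D J θ := by
  classical
  by_cases hC : θ ∈ cl J (Cd X Y D)
  · rw [ty_of_mem_Cd hC]
    apply nn_two
    have := (bR2_pos_iff (L := L) (X := X) (Y := Y) (D := D)).2 (fb_nonempty_iff.2 hC)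
    omega
  · have h0 : bR2 X Y D L J θ = 0 := by
      by_contra h
      exact hC (fb_nonempty_iff.1 (bR2_pos_iff.1 (Nat.pos_of_ne_zero h)))
    rw [h0]
    by_cases hB : θ ∈ cl J (Bd X Y D)
    · rw [ty_of_not_mem_Cd hC hB]
      apply nn_one
      have h1 := bR_add X Y D L J θ
      rw [h0, add_zero] at h1
      rw [h1]
      have := nc_pos (V := L) (fb_nonempty_iff.2 hB)
      omega
    · have h1 := bR_add X Y D L J θ
      rw [h0, add_zero] at h1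
      have h2 : ¬ (fb J (Bd X Y D) θ).Nonempty := fun h => hB (fb_nonempty_iff.1 h)
      rw [Finset.not_nonempty_iff_eq_empty.1 h2, nc_eq_zero.2 rfl] at h1
      rw [h1, nn_zero]
      unfold ty
      rw [if_neg hC, if_neg hB]

theorem sum_ty' {J : AddSubgroup G} (X Y : Finset G) (D : G) {Θ : Finset (G ⧸ J)}
    (h : cl J (Bd X Y D) ⊆ Θ) :
    ∑ θ ∈ Θ, ty X Y D J θ = nc J (Bd X Y D) + nc J (Cd X Y D) := by
  classical
  rw [← sum_ty]
  symm
  apply Finset.sum_subset h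
  intro θ _ hθ
  unfold ty
  rw [if_neg hθ, if_neg (fun h' => hθ (cl_mono (Cd_subset_Bd X Y D) h'))]
  rfl

theorem sum_ct' {J : AddSubgroup G} (X Y : Finset G) (D : G) {Θ : Finset (G ⧸ J)}
    (h : cl J (Bd X Y D) ⊆ Θ) :
    ∑ θ ∈ Θ, ct X Y D J θ = X.card + Y.card := by
  classical
  rw [← sum_ct X Y D J]
  symm
  apply Finset.sum_subset h
  intro θ _ hθ
  rw [← fb_union_inter]
  have h2 : fb J (Bd X Y D) θ = ∅ := by
    rw [← Finset.not_nonempty_iff_eq_empty]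
    exact fun h => hθ (fb_nonempty_iff.1 h)
  have h6 : fb J (Cd X Y D) θ = ∅ := by
    rw [← Finset.subset_empty, ← h2]
    exact fb_mono (Cd_subset_Bd X Y D) θ
  rw [h2, h6]; rfl

theorem nn_w {L J : AddSubgroup G} (W : Finset G) (θ : G ⧸ J) :
    nn (nc L (fb J W θ)) 0 = nc J (fb J W θ) := by
  classical
  rcases Finset.eq_empty_or_nonempty (fb J W θ) with h | h
  · rw [h, nc_eq_zero.2 rfl, nc_eq_zero.2 rfl, nn_zero]
  · have h1 := nc_pos (V := L) h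
    rw [nn_one (by omega)]
    unfold nc
    symm
    rw [Finset.card_eq_one]
    refine ⟨θ, ?_⟩
    ext c
    rw [Finset.mem_singleton]
    constructor
    · intro hc
      obtain ⟨x, hx, rfl⟩ := mem_cl.1 hc
      exact (mem_fb.1 hx).2
    · rintro rfl
      obtain ⟨x, hx⟩ := h
      exact mem_cl.2 ⟨x, hx, (mem_fb.1 hx).2⟩

/-- the block data -/
structure Blocks (X Y W : Finset G) (D ν : G) (L R J : AddSubgroup G) (i : ℕ) : Prop where
  cardL : Nat.card L = 2 * i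
  cardR : Nat.card R = 3 * i
  typ : ∀ θ : G ⧸ J, Typ 2 3 (bR1 X Y D L J θ) (bR2 X Y D L J θ) (bN X Y (D + ν) R J θ)
  typW : ∀ θ : G ⧸ J, Typ 2 3 (nc L (fb J W θ)) 0 (nc R (fb J W θ))
  four : ∃ Θ : Finset (G ⧸ J), cl J (Bd X Y D) ⊆ Θ ∧ cl J W ⊆ Θ ∧
    ∑ θ ∈ Θ, ((3 : ℤ) * nn (bR1 X Y D L J θ) (bR2 X Y D L J θ) -
      (bR1 X Y D L J θ + 2 * bR2 X Y D L J θ)) +
    ∑ θ ∈ Θ, ((3 : ℤ) * nn (nc L (fb J W θ)) 0 - (nc L (fb J W θ))) = 4 ∧
    2 * (∑ θ ∈ Θ, ((i : ℤ) * FF 2 (bR1 X Y D L J θ) (bR2 X Y D L J θ)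
      (bN X Y (D + ν) R J θ) - ct X Y D J θ) +
    ∑ θ ∈ Θ, ((i : ℤ) * FF 2 (nc L (fb J W θ)) 0 (nc R (fb J W θ)) - (fb J W θ).card)) < i
  le : ∀ θ : G ⧸ J, ct X Y D J θ ≤ i * FF 2 (bR1 X Y D L J θ) (bR2 X Y D L J θ)
      (bN X Y (D + ν) R J θ)
  leW : ∀ θ : G ⧸ J, (fb J W θ).card ≤ i * FF 2 (nc L (fb J W θ)) 0 (nc R (fb J W θ))

end Pool.Agent.Lib.MP_09e095_co
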