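import Mathlib
import Pool.Agent.Lib.MP_09e095_co.CWMain1

/-!
MP_09e095_co : a bad `L` for `D` and a bad `R` for `D + ν` force `|L| : |R| = 2 : 3`.
-/

set_option autoImplicit false

open Finset
open scoped Pointwise

namespace Pool.Agent.Lib.MP_09e095_co

variable {G : Type*} [AddCommGroup G] [DecidableEq G]

theorem block_main {L R J : AddSubgroup G} (hJ : (J : Set G).Finite) (hLJ : L ≤ J) (hRJ : R ≤ J)
    {X Y W : Finset G} {D ν : G} (hν : ν ∈ L) {p q i : ℕ} (hi : 0 < i)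
    (hi' : Nat.card (L ⊓ R : AddSubgroup G) = i)
    (hp : Nat.card L = p * i) (hq : Nat.card R = q * i) (hpq : Nat.card J = p * q * i)
    (hp2 : 2 ≤ p) (hpq2 : p < q)
    (hsub : cl L (Cd X Y D) ⊆ cl L (Cd X Y (D + ν)))
    {m : ℤ} (hbot : m ≤ gz X Y W ⊥) (hbL : gm X Y W L D < m) (hbR : gm X Y W R (D + ν) < m)
    (hgJ : m ≤ gm X Y W J D) :
    Blocks X Y W D ν L R J i := by
  classical
  have hL : (L : Set G).Finite := hJ.subset hLJ
  have hR : (R : Set G).Finite := hJ.subset hRJ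
  set Θ0 : Finset (G ⧸ J) := cl J (Bd X Y D) ∪ cl J W with hΘ0
  have hB0 : cl J (Bd X Y D) ⊆ Θ0 := Finset.subset_union_left
  have hW0 : cl J W ⊆ Θ0 := Finset.subset_union_right
  have hB1 : cl J (Bd X Y (D + ν)) ⊆ Θ0 := by rw [cl_Bd_add (hLJ hν)]; exact hB0
  set r1 : (G ⧸ J) ⊕ (G ⧸ J) → ℕ :=
    Sum.elim (fun θ => bR1 X Y D L J θ) (fun θ => nc L (fb J W θ)) with hr1
  set r2 : (G ⧸ J) ⊕ (G ⧸ J) → ℕ := Sum.elim (fun θ => bR2 X Y D L J θ) (fun _ => 0) with hr2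
  set N : (G ⧸ J) ⊕ (G ⧸ J) → ℕ :=
    Sum.elim (fun θ => bN X Y (D + ν) R J θ) (fun θ => nc R (fb J W θ)) with hN
  set s : (G ⧸ J) ⊕ (G ⧸ J) → ℕ :=
    Sum.elim (fun θ => ct X Y D J θ) (fun θ => (fb J W θ).card) with hs
  have hadm : ∀ j, Adm p q (r1 j) (r2 j) (N j) := by
    rintro (θ | θ)
    · exact adm_block hJ hLJ hRJ hν hi hp hq hpq (by omega) (by omega) hsub θ
    · exact adm_w hJ hLJ hRJ W hi hp hq hpq (by omega) (by omega) θ
  have hle : ∀ j, s j ≤ i * FF p (r1 j) (r2 j) (N j) := by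
    rintro (θ | θ)
    · exact ct_block_FF hL hR hLJ hν hi' hp hsub θ
    · exact w_block_FF hL hLJ W hi' hp θ
  -- sums
  have sN1 : ∑ θ ∈ Θ0, ((bR1 X Y D L J θ : ℤ) + 2 * bR2 X Y D L J θ) =
      nc L (Bd X Y D) + nc L (Cd X Y D) := by
    have := sum_bN hLJ X Y D hB0
    rw [← Nat.cast_add, ← this]
    push_cast
    apply Finset.sum_congr rfl
    intro θ _
    exact_mod_cast bR_N X Y D L J θ
  have sN2 : ∑ θ ∈ Θ0, (bN X Y (D + ν) R J θ : ℤ) =
      nc R (Bd X Y (D + ν)) + nc R (Cd X Y (D + ν)) := by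
    have := sum_bN hRJ X Y (D + ν) hB1
    exact_mod_cast this
  have sn : ∑ θ ∈ Θ0, (ty X Y D J θ : ℤ) = nc J (Bd X Y D) + nc J (Cd X Y D) := by
    have := sum_ty' X Y D hB0
    exact_mod_cast this
  have ss : ∑ θ ∈ Θ0, (ct X Y D J θ : ℤ) = X.card + Y.card := by
    have := sum_ct' X Y D hB0
    exact_mod_cast this
  have wL : ∑ θ ∈ Θ0, (nc L (fb J W θ) : ℤ) = nc L W := by
    have := nc_eq_sum_fb hLJ W hW0
    exact_mod_cast this.symm
  have wR : ∑ θ ∈ Θ0, (nc R (fb J W θ) : ℤ) = nc R W := by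
    have := nc_eq_sum_fb hRJ W hW0
    exact_mod_cast this.symm
  have wJ : ∑ θ ∈ Θ0, (nc J (fb J W θ) : ℤ) = nc J W := by
    have := nc_eq_sum_fb (le_refl J) W hW0
    exact_mod_cast this.symm
  have ws : ∑ θ ∈ Θ0, ((fb J W θ).card : ℤ) = W.card := by
    have := card_eq_sum_fb W hW0
    exact_mod_cast this.symm
  -- the four inequalities
  have gL := lt_of_lt_of_le hbL hbot
  have gR := lt_of_lt_of_le hbR hbot
  have gLJ := lt_of_lt_of_le hbL hgJ
  have gRJ := lt_of_lt_of_le hbR hgJ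
  rw [gz_bot] at gL gR
  unfold gm at gL gR gLJ gRJ
  rw [hp] at gL gLJ
  rw [hq] at gR gRJ
  rw [hpq] at gLJ gRJ
  push_cast at gL gR gLJ gRJ
  have hi0 : (0 : ℤ) < i := by exact_mod_cast hi
  have hp0 : (0 : ℤ) < p := by
    have : 0 < p := by omega
    exact_mod_cast this
  have hq0 : (0 : ℤ) < q := by
    have : 0 < q := by omega
    exact_mod_cast this
  have hA : 2 * ∑ j ∈ Θ0.disjSum Θ0, ((p : ℤ) * i * (r1 j + 2 * r2 j) - s j) < 3 * (p * i) := by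
    rw [Finset.sum_disjSum]
    simp only [hr1, hr2, hs, Sum.elim_inl, Sum.elim_inr]
    rw [Finset.sum_sub_distrib, Finset.sum_sub_distrib, ← Finset.mul_sum, ← Finset.mul_sum, sN1,
      ss, ws]
    have : ∑ x ∈ Θ0, ((nc L (fb J W x) : ℤ) + 2 * ((0 : ℕ) : ℤ)) = nc L W := by
      rw [← wL]; apply Finset.sum_congr rfl; intro x _; push_cast; ring
    rw [this]
    linarith
  have hB : 2 * ∑ j ∈ Θ0.disjSum Θ0, ((q : ℤ) * i * N j - s j) < 3 * (q * i) := by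
    rw [Finset.sum_disjSum]
    simp only [hN, hs, Sum.elim_inl, Sum.elim_inr]
    rw [Finset.sum_sub_distrib, Finset.sum_sub_distrib, ← Finset.mul_sum, ← Finset.mul_sum, sN2,
      ss, ws, wR]
    linarith
  have hnn : ∀ θ : G ⧸ J, (nn (bR1 X Y D L J θ) (bR2 X Y D L J θ) : ℤ) = ty X Y D J θ := by
    intro θ; exact_mod_cast nn_block X Y D θ
  have hnw : ∀ θ : G ⧸ J, (nn (nc L (fb J W θ)) 0 : ℤ) = nc J (fb J W θ) := by
    intro θ; exact_mod_cast nn_w W θ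
  have hH : 3 * ((p : ℤ) - 1) < 2 * ∑ j ∈ Θ0.disjSum Θ0, ((p : ℤ) * nn (r1 j) (r2 j) - N j) := by
    rw [Finset.sum_disjSum]
    simp only [hr1, hr2, hN, Sum.elim_inl, Sum.elim_inr]
    rw [Finset.sum_sub_distrib, Finset.sum_sub_distrib, ← Finset.mul_sum, ← Finset.mul_sum, sN2,
      wR, Finset.sum_congr rfl (fun x _ => hnn x), Finset.sum_congr rfl (fun x _ => hnw x), sn, wJ]
    have h1 : (q : ℤ) * i * (2 * (nc R (Bd X Y (D + ν)) + nc R (Cd X Y (D + ν)) + nc R W) - 3) <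
        (q : ℤ) * i * (p * (2 * (nc J (Bd X Y D) + nc J (Cd X Y D) + nc J W) - 3)) := by
      linarith
    have h2 := lt_of_mul_lt_mul_left h1 (by positivity)
    linarith
  have hK : 3 * ((q : ℤ) - 1) <
      2 * ∑ j ∈ Θ0.disjSum Θ0, ((q : ℤ) * nn (r1 j) (r2 j) - (r1 j + 2 * r2 j)) := by
    rw [Finset.sum_disjSum]
    simp only [hr1, hr2, Sum.elim_inl, Sum.elim_inr]
    rw [Finset.sum_sub_distrib, Finset.sum_sub_distrib, ← Finset.mul_sum, ← Finset.mul_sum, sN1,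
      Finset.sum_congr rfl (fun x _ => hnn x), Finset.sum_congr rfl (fun x _ => hnw x), sn, wJ]
    have : ∑ x ∈ Θ0, ((nc L (fb J W x) : ℤ) + 2 * ((0 : ℕ) : ℤ)) = nc L W := by
      rw [← wL]; apply Finset.sum_congr rfl; intro x _; push_cast; ring
    rw [this]
    have h1 : (p : ℤ) * i * (2 * (nc L (Bd X Y D) + nc L (Cd X Y D) + nc L W) - 3) <
        (p : ℤ) * i * (q * (2 * (nc J (Bd X Y D) + nc J (Cd X Y D) + nc J W) - 3)) := by
      linarith
    have h2 := lt_of_mul_lt_mul_left h1 (by positivity)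
    linarith
  obtain ⟨e2, e3, htyp, h4, hdef⟩ := num_main (Θ0.disjSum Θ0) r1 r2 N s hi hp2 hpq2
    (fun j _ => hadm j) (fun j _ => hle j) hA hB hH hK
  subst e2
  subst e3
  rw [Finset.sum_disjSum] at h4 hdef
  simp only [hr1, hr2, hN, hs, Sum.elim_inl, Sum.elim_inr] at h4 hdef
  refine ⟨hp, hq, ?_, ?_, ⟨Θ0, hB0, hW0, ?_, ?_⟩, ?_, ?_⟩
  · intro θ
    by_cases hθ : θ ∈ Θ0
    · exact htyp (Sum.inl θ) (by simpa using hθ)
    · have h1 : fb J (Bd X Y D) θ = ∅ := by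
        rw [← Finset.not_nonempty_iff_eq_empty]
        exact fun h => hθ (hB0 (fb_nonempty_iff.1 h))
      have h2 := bR_add X Y D L J θ
      rw [h1, nc_eq_zero.2 rfl] at h2
      have h3 := (hadm (Sum.inl θ)).zero
      simp only [hr1, hr2, hN, Sum.elim_inl] at h3
      have h4 : bR1 X Y D L J θ = 0 := by omega
      have h5 : bR2 X Y D L J θ = 0 := by omega
      left
      exact ⟨h4, h5, h3 h4 h5⟩
  · intro θ
    by_cases hθ : θ ∈ Θ0
    · exact htyp (Sum.inr θ) (by simpa using hθ)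
    · have h1 : fb J W θ = ∅ := by
        rw [← Finset.not_nonempty_iff_eq_empty]
        exact fun h => hθ (hW0 (fb_nonempty_iff.1 h))
      left
      rw [h1]
      exact ⟨nc_eq_zero.2 rfl, rfl, nc_eq_zero.2 rfl⟩
  · have e : ∀ x ∈ Θ0, ((3 : ℤ) * nn (nc L (fb J W x)) 0 - (nc L (fb J W x) + 2 * ((0 : ℕ) : ℤ))) =
        ((3 : ℤ) * nn (nc L (fb J W x)) 0 - (nc L (fb J W x))) := by
      intro x _; push_cast; ring
    rw [Finset.sum_congr rfl e] at h4
    exact h4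
  · exact hdef
  · intro θ; exact hle (Sum.inl θ)
  · intro θ; exact hle (Sum.inr θ)

end Pool.Agent.Lib.MP_09e095_co
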