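import Mathlib
import Pool.Agent.Lib.MP_09e095_co.CWCells

/-!
MP_09e095_co : two disjoint difference sets in a cell have the same large stabiliser.
-/

set_option autoImplicit false

open Finset
open scoped Pointwise

namespace Pool.Agent.Lib.MP_09e095_co

variable {G : Type*} [AddCommGroup G] [DecidableEq G]

theorem pair_arith4 {t u P P' : ℕ} (h3 : 3 * t = 4 * u) (htP : t ∣ P) (huP : u ∣ P')
    (hP : 0 < P) (hP2 : P < 3 * t)
    (hs : P + P' ≤ 3 * t) (hb : 9 * t < 2 * (P + t + P' + u)) : False := by
  obtain ⟨j, rfl⟩ := htP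
  obtain ⟨j', rfl⟩ := huP
  have ht : 0 < t := Nat.pos_of_mul_pos_right hP |> fun h => by
    rcases Nat.eq_zero_or_pos t with h0 | h0
    · subst h0; simp at hP
    · exact h0
  have hj1 : 0 < j := by
    rcases Nat.eq_zero_or_pos j with h0 | h0
    · subst h0; simp at hP
    · exact h0
  have hj2 : j < 3 := by
    by_contra hcon
    push Not at hcon
    have : t * 3 ≤ t * j := Nat.mul_le_mul_left _ hcon
    omega
  obtain ⟨k, rfl⟩ : ∃ k, t = 4 * k := ⟨t / 4, by omega⟩
  obtain rfl : u = 3 * k := by omega
  have hk : 0 < k := by omega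
  have hj3 : j' < 5 := by
    by_contra hcon
    push Not at hcon
    have : 3 * k * 5 ≤ 3 * k * j' := Nat.mul_le_mul_left _ hcon
    omega
  interval_cases j <;> interval_cases j' <;> omega

theorem pair_arith5 {t u P P' : ℕ} (h3 : 3 * t = 5 * u) (htP : t ∣ P) (huP : u ∣ P')
    (hP : 0 < P) (hP2 : P < 3 * t)
    (hs : P + P' ≤ 3 * t) (hb : 9 * t < 2 * (P + t + P' + u)) : False := by
  obtain ⟨j, rfl⟩ := htP
  obtain ⟨j', rfl⟩ := huP
  have ht : 0 < t := by
    rcases Nat.eq_zero_or_pos t with h0 | h0
    · subst h0; simp at hP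
    · exact h0
  have hj1 : 0 < j := by
    rcases Nat.eq_zero_or_pos j with h0 | h0
    · subst h0; simp at hP
    · exact h0
  have hj2 : j < 3 := by
    by_contra hcon
    push Not at hcon
    have : t * 3 ≤ t * j := Nat.mul_le_mul_left _ hcon
    omega
  obtain ⟨k, rfl⟩ : ∃ k, t = 5 * k := ⟨t / 5, by omega⟩
  obtain rfl : u = 3 * k := by omega
  have hk : 0 < k := by omega
  have hj3 : j' < 6 := by
    by_contra hcon
    push Not at hcon
    have : 3 * k * 6 ≤ 3 * k * j' := Nat.mul_le_mul_left _ hcon
    omega
  interval_cases j <;> interval_cases j' <;> omega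

theorem pair_aux {I : AddSubgroup G} (hI : (I : Set G).Finite) {P P' : Finset G}
    (hP : P.Nonempty) (hP' : P'.Nonempty) (hPI : ∀ x ∈ P, x ∈ I) (hPI' : ∀ x ∈ P', x ∈ I)
    (hd : Disjoint P P')
    (hb : 3 * Nat.card I < 2 * (P.card + Nat.card (stb P) + (P'.card + Nat.card (stb P'))))
    (hle : Nat.card (stb P') ≤ Nat.card (stb P)) :
    Nat.card (stb P) = Nat.card (stb P') ∧ Nat.card I ≤ 3 * Nat.card (stb P) := by
  have hstbI : ∀ Q : Finset G, Q.Nonempty → (∀ x ∈ Q, x ∈ I) → stb Q ≤ I := by
    intro Q hQ hQI t ht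
    obtain ⟨q, hq⟩ := hQ
    have h1 := hQI _ ((ht q).1 hq)
    have h2 := hQI _ hq
    have : t = t + q - q := by abel
    rw [this]; exact I.sub_mem h1 h2
  set T := stb P with hT
  set U := stb P' with hU
  have hTI : T ≤ I := hstbI P hP hPI
  have hUI : U ≤ I := hstbI P' hP' hPI'
  have hTf : (T : Set G).Finite := hI.subset hTI
  have hUf : (U : Set G).Finite := hI.subset hUI
  have ht := cwCard_pos hTf
  have hu := cwCard_pos hUf
  have hcardsum : P.card + P'.card ≤ Nat.card I := by
    rw [← Finset.card_union_of_disjoint hd]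
    apply card_le_of_coset hI
    have key : ∀ z ∈ P ∪ P', z ∈ I := by
      intro z hz
      rcases Finset.mem_union.1 hz with h | h
      · exact hPI z h
      · exact hPI' z h
    intro a ha b hb
    exact I.sub_mem (key a ha) (key b hb)
  have hPpos := Finset.card_pos.2 hP
  have hPpos' := Finset.card_pos.2 hP'
  have dT : Nat.card T ∣ Nat.card I := cwCard_dvd hTI
  have dU : Nat.card U ∣ Nat.card I := cwCard_dvd hUI
  have dP : Nat.card T ∣ P.card := stb_dvd_card hP
  have dP' : Nat.card U ∣ P'.card := stb_dvd_card hP'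
  obtain ⟨a, ha⟩ := dT
  have h4 : Nat.card I < 4 * Nat.card T := by omega
  have ha4 : a < 4 := by
    by_contra hcon
    push Not at hcon
    have : Nat.card T * 4 ≤ Nat.card T * a := Nat.mul_le_mul_left _ hcon
    omega
  have ha2 : 2 ≤ a := by
    by_contra hcon
    have h5 : a = 0 ∨ a = 1 := by omega
    rcases h5 with rfl | rfl
    · simp at ha; omega
    · have := Nat.le_of_dvd hPpos dP
      omega
  have ha23 : a = 2 ∨ a = 3 := by omega
  rcases ha23 with rfl | rfl
  · -- index 2
    have hi2 : Nat.card I = 2 * Nat.card T := by omega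
    have hPt : P.card = Nat.card T := by
      obtain ⟨j, hj⟩ := dP
      have hj1 : j < 2 := by
        by_contra hcon
        push Not at hcon
        have : Nat.card T * 2 ≤ Nat.card T * j := Nat.mul_le_mul_left _ hcon
        omega
      have hj2 : j = 1 := by
        have : j ≠ 0 := by rintro rfl; rw [mul_zero] at hj; omega
        omega
      rw [hj, hj2, mul_one]
    obtain ⟨p, hp⟩ := hP
    have hcos : ∀ q ∈ P', q - p ∉ T := by
      intro q hq hqp
      have : q ∈ P := by
        have := (hqp p).1 hp
        rwa [sub_add_cancel] at this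
      exact Finset.disjoint_left.1 hd this hq
    have hUT : U ≤ T := by
      intro h hh
      obtain ⟨q, hq⟩ := hP'
      have hhq : h + q ∈ P' := (hh q).1 hq
      have h1 := hcos q hq
      have h2 := hcos _ hhq
      have := idx2 hI hTI hi2 (I.sub_mem (hPI' _ hhq) (hPI p hp))
        (I.sub_mem (hPI' q hq) (hPI p hp)) h2 h1
      have e : h = (h + q - p) - (q - p) := by abel
      rw [e]; exact this
    have dUT : Nat.card U ∣ Nat.card T := cwCard_dvd hUT
    obtain ⟨k, hk⟩ := dUT
    obtain ⟨j', hj'⟩ := dP'
    have hkj : k ≤ j' := by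
      by_contra hcon
      push Not at hcon
      have : Nat.card U * (j' + 1) ≤ Nat.card U * k := Nat.mul_le_mul_left _ hcon
      rw [mul_add, mul_one] at this
      omega
    have hge : Nat.card T ≤ P'.card := by
      rw [hk, hj']; exact Nat.mul_le_mul_left _ hkj
    have hPt' : P'.card = Nat.card T := by omega
    -- `P'` is the complement of `P` in `I`
    have hcompl : ∀ x ∈ I, x ∉ P → x ∈ P' := by
      intro x hx hxP
      by_contra hxP'
      have hd2 : Disjoint (P ∪ P') {x} := by
        rw [Finset.disjoint_singleton_right, Finset.mem_union]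
        push Not; exact ⟨hxP, hxP'⟩
      have h5 : ((P ∪ P') ∪ {x}).card ≤ Nat.card I := by
        apply card_le_of_coset hI
        have key : ∀ z ∈ (P ∪ P') ∪ {x}, z ∈ I := by
          intro z hz
          rcases Finset.mem_union.1 hz with h | h
          · rcases Finset.mem_union.1 h with h | h
            · exact hPI z h
            · exact hPI' z h
          · rw [Finset.mem_singleton] at h; rw [h]; exact hx
        intro a ha b hb
        exact I.sub_mem (key a ha) (key b hb)
      rw [Finset.card_union_of_disjoint hd2, Finset.card_union_of_disjoint hd,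
        Finset.card_singleton] at h5
      omega
    have hTU : T ≤ U := by
      intro s hs x
      have key : ∀ s ∈ T, ∀ x ∈ P', s + x ∈ P' := by
        intro s hs x hx
        apply hcompl _ (I.add_mem (hTI hs) (hPI' x hx))
        intro hcon
        have h6 : x ∈ P := (hs x).2 hcon
        exact Finset.disjoint_left.1 hd h6 hx
      constructor
      · exact key s hs x
      · intro hx
        have := key (-s) (T.neg_mem hs) _ hx
        rwa [neg_add_cancel_left] at this
    have : T = U := le_antisymm hTU hUT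
    rw [← this]
    exact ⟨rfl, by omega⟩
  · -- index 3
    have hi3 : Nat.card I = 3 * Nat.card T := by omega
    refine ⟨?_, by omega⟩
    obtain ⟨b, hb'⟩ := dU
    have hPlt : P.card < 3 * Nat.card T := by omega
    have h6 : Nat.card T < 2 * Nat.card U := by omega
    have hb6 : b < 6 := by
      by_contra hcon
      push Not at hcon
      have : Nat.card U * 6 ≤ Nat.card U * b := Nat.mul_le_mul_left _ hcon
      omega
    have hb3 : 3 ≤ b := by
      by_contra hcon
      push Not at hcon
      have : Nat.card U * b ≤ Nat.card U * 2 := Nat.mul_le_mul_left _ (by omega)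
      omega
    have hcases : b = 3 ∨ b = 4 ∨ b = 5 := by omega
    rcases hcases with rfl | rfl | rfl
    · omega
    · exfalso
      exact pair_arith4 (t := Nat.card T) (u := Nat.card U) (by omega) dP dP' hPpos hPlt
        (by omega) (by omega)
    · exfalso
      exact pair_arith5 (t := Nat.card T) (u := Nat.card U) (by omega) dP dP' hPpos hPlt
        (by omega) (by omega)

/-- the pair lemma -/
theorem pair_lemma {I : AddSubgroup G} (hI : (I : Set G).Finite)
    (hcyc : ∀ V V' : AddSubgroup G, V ≤ I → V' ≤ I → Nat.card V = Nat.card V' → V = V')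
    {x y x' y' : Finset G} (hc : InC I x y) (hc' : InC I x' y')
    (hx : x.Nonempty) (hy : y.Nonempty) (hx' : x'.Nonempty) (hy' : y'.Nonempty)
    (hd : Disjoint (dP x y) (dP x' y'))
    (hb : 3 * Nat.card I < 2 * (x.card + y.card + (x'.card + y'.card))) :
    stb (dP x y) = stb (dP x' y') ∧ Nat.card I ≤ 3 * Nat.card (stb (dP x y)) := by
  have hP := dP_nonempty hx hy
  have hP' := dP_nonempty hx' hy'
  have k1 : x.card + y.card ≤ (dP x y).card + Nat.card (stb (dP x y)) := by
    refine le_trans ?_ (kneser_dP hx hy)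
    rw [mul_add]
    exact Nat.add_le_add (card_le_mul_nc (stb_finite hP) _) (card_le_mul_nc (stb_finite hP) _)
  have k2 : x'.card + y'.card ≤ (dP x' y').card + Nat.card (stb (dP x' y')) := by
    refine le_trans ?_ (kneser_dP hx' hy')
    rw [mul_add]
    exact Nat.add_le_add (card_le_mul_nc (stb_finite hP') _) (card_le_mul_nc (stb_finite hP') _)
  have hPI : ∀ z ∈ dP x y, z ∈ I := fun z hz => dP_subset hc hz
  have hPI' : ∀ z ∈ dP x' y', z ∈ I := fun z hz => dP_subset hc' hz
  have hT : stb (dP x y) ≤ I := stb_dP_le hc hx hy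
  have hU : stb (dP x' y') ≤ I := stb_dP_le hc' hx' hy'
  rcases le_total (Nat.card (stb (dP x' y'))) (Nat.card (stb (dP x y))) with h | h
  · obtain ⟨h1, h2⟩ := pair_aux hI hP hP' hPI hPI' hd (by omega) h
    exact ⟨hcyc _ _ hT hU h1, h2⟩
  · obtain ⟨h1, h2⟩ := pair_aux hI hP' hP hPI' hPI hd.symm (by omega) h
    exact ⟨hcyc _ _ hT hU h1.symm, by omega⟩

end Pool.Agent.Lib.MP_09e095_co
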