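import Mathlib
import Pool.Agent.Lib.MP_09e095_co.CWMain2
import Pool.Agent.Lib.MP_09e095_co.CWPair

/-!
MP_09e095_co : the end game, first facts.
-/

set_option autoImplicit false

open Finset
open scoped Pointwise

namespace Pool.Agent.Lib.MP_09e095_co

variable {G : Type*} [AddCommGroup G] [DecidableEq G]

/-- `D + ν` is better than `D` at `L` -/
def Im (X Y : Finset G) (D : G) (L : AddSubgroup G) (ν : G) : Prop :=
  ν ∈ L ∧ cl L (Cd X Y D) ⊆ cl L (Cd X Y (D + ν)) ∧ cl L (Cd X Y D) ≠ cl L (Cd X Y (D + ν))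

/-- the situation of the end game -/
structure EndG (X Y W : Finset G) (D : G) (L R J : AddSubgroup G) (i : ℕ) (m : ℤ) : Prop where
  hJ : (J : Set G).Finite
  hLJ : L ≤ J
  hRJ : R ≤ J
  hi : 0 < i
  hinf : Nat.card (L ⊓ R : AddSubgroup G) = i
  cardL : Nat.card L = 2 * i
  cardR : Nat.card R = 3 * i
  cardJ : Nat.card J = 6 * i
  blocks : ∀ ν, Im X Y D L ν → Blocks X Y W D ν L R J i
  badR : ∀ ν, Im X Y D L ν → gm X Y W R (D + ν) < m
  goodR : m ≤ gm X Y W R D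
  hm : ∀ V ≤ L, m ≤ gz X Y W V
  ex : ∃ ν, Im X Y D L ν
  hcyc : ∀ V V' : AddSubgroup G, V ≤ L → V' ≤ L → Nat.card V = Nat.card V' → V = V'

theorem typ_cases {r1 r2 N : ℕ} (h : Typ 2 3 r1 r2 N) :
    (r1 = 0 ∧ r2 = 0 ∧ N = 0) ∨ (r1 = 1 ∧ r2 = 0 ∧ N = 1) ∨ (r1 = 3 ∧ r2 = 0 ∧ N = 2) ∨
    (r1 = 0 ∧ r2 = 1 ∧ N = 2) ∨ (r1 = 2 ∧ r2 = 1 ∧ N = 3) ∨ (r1 = 0 ∧ r2 = 3 ∧ N = 4) := by
  rcases h with h | h | h | h | h | h
  · exact Or.inl h
  · exact Or.inr (Or.inl h)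
  · exact Or.inr (Or.inr (Or.inl h))
  · exact Or.inr (Or.inr (Or.inr (Or.inl h)))
  · exact Or.inr (Or.inr (Or.inr (Or.inr (Or.inl h))))
  · exact Or.inr (Or.inr (Or.inr (Or.inr (Or.inr h))))

theorem typ_k_nonneg {r1 r2 N : ℕ} (h : Typ 2 3 r1 r2 N) :
    (0 : ℤ) ≤ 3 * nn r1 r2 - (r1 + 2 * r2) := by
  rcases typ_cases h with ⟨rfl, rfl, rfl⟩ | ⟨rfl, rfl, rfl⟩ | ⟨rfl, rfl, rfl⟩ | ⟨rfl, rfl, rfl⟩ |
    ⟨rfl, rfl, rfl⟩ | ⟨rfl, rfl, rfl⟩ <;> simp [nn]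

variable {X Y W : Finset G} {D : G} {L R J : AddSubgroup G} {i : ℕ} {m : ℤ}

/-- total deficiency of any set of blocks -/
theorem Blocks.deficit {ν : G} (h : Blocks X Y W D ν L R J i) (Φ : Finset (G ⧸ J)) :
    2 * ∑ θ ∈ Φ, ((i : ℤ) * FF 2 (bR1 X Y D L J θ) (bR2 X Y D L J θ)
      (bN X Y (D + ν) R J θ) - ct X Y D J θ) < i := by
  classical
  obtain ⟨Θ, hB, hW, _, h2⟩ := h.four
  set d : (G ⧸ J) → ℤ := fun θ => (i : ℤ) * FF 2 (bR1 X Y D L J θ) (bR2 X Y D L J θ)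
      (bN X Y (D + ν) R J θ) - ct X Y D J θ with hd
  have hd0 : ∀ θ, 0 ≤ d θ := by
    intro θ
    have := h.le θ
    have : (ct X Y D J θ : ℤ) ≤ i * FF 2 (bR1 X Y D L J θ) (bR2 X Y D L J θ)
      (bN X Y (D + ν) R J θ) := by exact_mod_cast this
    simp only [hd]
    linarith
  have hout : ∀ θ, θ ∉ Θ → d θ = 0 := by
    intro θ hθ
    have h1 : fb J (Bd X Y D) θ = ∅ := by
      rw [← Finset.not_nonempty_iff_eq_empty]
      exact fun h => hθ (hB (fb_nonempty_iff.1 h))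
    have h3 := bR_add X Y D L J θ
    rw [h1, nc_eq_zero.2 rfl] at h3
    have h4 : bR1 X Y D L J θ = 0 := by omega
    have h5 : bR2 X Y D L J θ = 0 := by omega
    have h6 := hd0 θ
    simp only [hd] at h6 ⊢
    rw [h4, h5] at h6 ⊢
    have h7 : FF 2 0 0 (bN X Y (D + ν) R J θ) = 0 := by simp [FF]
    rw [h7] at h6 ⊢
    push_cast at h6 ⊢
    have : (0 : ℤ) ≤ ct X Y D J θ := by positivity
    linarith
  have hWsum : 0 ≤ ∑ θ ∈ Θ, ((i : ℤ) * FF 2 (nc L (fb J W θ)) 0 (nc R (fb J W θ)) -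
      (fb J W θ).card) := by
    apply Finset.sum_nonneg
    intro θ _
    have := h.leW θ
    have : ((fb J W θ).card : ℤ) ≤ i * FF 2 (nc L (fb J W θ)) 0 (nc R (fb J W θ)) := by
      exact_mod_cast this
    linarith
  have hsum : ∑ θ ∈ Φ, d θ ≤ ∑ θ ∈ Θ, d θ := by
    calc ∑ θ ∈ Φ, d θ = ∑ θ ∈ Φ ∩ Θ, d θ := by
          symm
          apply Finset.sum_subset Finset.inter_subset_left
          intro θ hθ hθ'
          apply hout
          intro hcon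
          exact hθ' (Finset.mem_inter.2 ⟨hθ, hcon⟩)
      _ ≤ ∑ θ ∈ Θ, d θ := Finset.sum_le_sum_of_subset_of_nonneg Finset.inter_subset_right
          (fun θ _ _ => hd0 θ)
  linarith

theorem Blocks.deficit1 {ν : G} (h : Blocks X Y W D ν L R J i) (θ : G ⧸ J) :
    2 * ((i : ℤ) * FF 2 (bR1 X Y D L J θ) (bR2 X Y D L J θ)
      (bN X Y (D + ν) R J θ) - ct X Y D J θ) < i := by
  classical
  have := h.deficit {θ}
  rwa [Finset.sum_singleton] at this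

theorem Blocks.deficit2 {ν : G} (h : Blocks X Y W D ν L R J i) {θ θ' : G ⧸ J} (hne : θ ≠ θ') :
    2 * (((i : ℤ) * FF 2 (bR1 X Y D L J θ) (bR2 X Y D L J θ)
      (bN X Y (D + ν) R J θ) - ct X Y D J θ) +
      ((i : ℤ) * FF 2 (bR1 X Y D L J θ') (bR2 X Y D L J θ')
      (bN X Y (D + ν) R J θ') - ct X Y D J θ')) < i := by
  classical
  have := h.deficit {θ, θ'}
  rwa [Finset.sum_pair hne] at this

/-- only one block of type `T2`, and then all others have `k = 0` -/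
theorem Blocks.k_others {ν : G} (h : Blocks X Y W D ν L R J i) {θ θ' : G ⧸ J} (hne : θ ≠ θ')
    (hθ : bR1 X Y D L J θ = 0 ∧ bR2 X Y D L J θ = 1) :
    ((3 : ℤ) * nn (bR1 X Y D L J θ') (bR2 X Y D L J θ') -
      (bR1 X Y D L J θ' + 2 * bR2 X Y D L J θ')) = 0 := by
  classical
  obtain ⟨Θ, hB, hW, h4, _⟩ := h.four
  set k : (G ⧸ J) → ℤ := fun θ => ((3 : ℤ) * nn (bR1 X Y D L J θ) (bR2 X Y D L J θ) -
      (bR1 X Y D L J θ + 2 * bR2 X Y D L J θ)) with hk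
  have hk0 : ∀ θ, 0 ≤ k θ := fun θ => typ_k_nonneg (h.typ θ)
  have hkW : 0 ≤ ∑ θ ∈ Θ, ((3 : ℤ) * nn (nc L (fb J W θ)) 0 - (nc L (fb J W θ))) := by
    apply Finset.sum_nonneg
    intro θ _
    have := typ_k_nonneg (h.typW θ)
    push_cast at this
    linarith
  have hout : ∀ θ, θ ∉ Θ → k θ = 0 := by
    intro θ hθ
    have h1 : fb J (Bd X Y D) θ = ∅ := by
      rw [← Finset.not_nonempty_iff_eq_empty]
      exact fun h => hθ (hB (fb_nonempty_iff.1 h))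
    have h3 := bR_add X Y D L J θ
    rw [h1, nc_eq_zero.2 rfl] at h3
    have h4 : bR1 X Y D L J θ = 0 := by omega
    have h5 : bR2 X Y D L J θ = 0 := by omega
    simp only [hk]
    rw [h4, h5, nn_zero]; simp
  have hkθ : k θ = 4 := by
    simp only [hk]
    rw [hθ.1, hθ.2, nn_two (by omega)]; norm_num
  have hθΘ : θ ∈ Θ := by
    by_contra hcon
    have := hout θ hcon
    omega
  change k θ' = 0
  by_cases hθ'Θ : θ' ∈ Θ
  · have h5 : k θ + k θ' ≤ ∑ θ ∈ Θ, k θ := by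
      rw [← Finset.sum_pair hne]
      apply Finset.sum_le_sum_of_subset_of_nonneg
      · intro z hz
        rw [Finset.mem_insert, Finset.mem_singleton] at hz
        rcases hz with rfl | rfl
        · exact hθΘ
        · exact hθ'Θ
      · intro z _ _; exact hk0 z
    have h6 := hk0 θ'
    linarith
  · exact hout θ' hθ'Θ

theorem cl_fb_Bd_add {R J : AddSubgroup G} {X Y : Finset G} {D ν : G} (hν : ν ∈ R)
    (hνJ : ν ∈ J) (θ : G ⧸ J) :
    cl R (fb J (Bd X Y (D + ν)) θ) = cl R (fb J (Bd X Y D) θ) := by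
  have key : ∀ (D ν : G), ν ∈ R → ν ∈ J →
      cl R (fb J (Bd X Y (D + ν)) θ) ⊆ cl R (fb J (Bd X Y D) θ) := by
    intro D ν hν hνJ c hc
    obtain ⟨x, hx, rfl⟩ := mem_cl.1 hc
    rcases mem_Bd.1 (mem_fb.1 hx).1 with h | h
    · exact mk_mem_cl (mem_fb.2 ⟨mem_Bd.2 (Or.inl h), (mem_fb.1 hx).2⟩)
    · refine mem_cl.2 ⟨x + ν, mem_fb.2 ⟨mem_Bd.2 (Or.inr ?_), ?_⟩,
        mk_eq_of_sub_mem (by simpa using hν)⟩
      · have : x + ν + D = x + (D + ν) := by abel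
        rw [this]; exact h
      · rw [← (mem_fb.1 hx).2]; exact mk_eq_of_sub_mem (by simpa using hνJ)
  apply Finset.Subset.antisymm
  · exact key D ν hν hνJ
  · have := key (D + ν) (-ν) (R.neg_mem hν) (J.neg_mem hνJ)
    rwa [add_neg_cancel_right] at this

/-- a critical row -/
theorem bR1_pos {X Y : Finset G} {D x : G} (hLJ : L ≤ J) (hx : x ∈ Bd X Y D)
    (hx' : (QuotientAddGroup.mk x : G ⧸ L) ∉ cl L (Cd X Y D)) :
    0 < bR1 X Y D L J (QuotientAddGroup.mk x) := by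
  unfold bR1
  have h1 : (QuotientAddGroup.mk x : G ⧸ L) ∈
      cl L (fb J (Bd X Y D) (QuotientAddGroup.mk x)) := mk_mem_cl (mem_fb.2 ⟨hx, rfl⟩)
  have h2 : cl L (fb J (Cd X Y D) (QuotientAddGroup.mk x)) ⊂
      cl L (fb J (Bd X Y D) (QuotientAddGroup.mk x)) := by
    rw [Finset.ssubset_iff_of_subset (cl_mono (fb_mono (Cd_subset_Bd X Y D) _))]
    refine ⟨_, h1, ?_⟩
    rw [mem_cl_fb hLJ h1]
    exact hx'
  have h3 := Finset.card_lt_card h2
  unfold nc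
  omega

/-- a new coset of an improvement -/
theorem Im.new {ν : G} (h : Im X Y D L ν) :
    ∃ x ∈ X, x + D + ν ∈ Y ∧ (QuotientAddGroup.mk x : G ⧸ L) ∉ cl L (Cd X Y D) := by
  obtain ⟨hν, h1, h2⟩ := h
  have h3 : ¬ cl L (Cd X Y (D + ν)) ⊆ cl L (Cd X Y D) := fun h => h2 (Finset.Subset.antisymm h1 h)
  obtain ⟨c, hc, hc'⟩ := Finset.not_subset.1 h3
  obtain ⟨x, hx, rfl, hxY⟩ := mem_cl_Cd.1 hc
  refine ⟨x, hx, ?_, hc'⟩
  rw [add_assoc]; exact hxY

/-- no block of type `T2` -/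
theorem EndG.noT2 (E : EndG X Y W D L R J i m) (θ : G ⧸ J) :
    ¬ (bR1 X Y D L J θ = 0 ∧ bR2 X Y D L J θ = 1) := by
  intro hθ
  obtain ⟨ν, hIm⟩ := E.ex
  have hB := E.blocks ν hIm
  obtain ⟨x, hx, hxY, hxC⟩ := hIm.new
  have hνJ : ν ∈ J := E.hLJ hIm.1
  have hxB : x ∈ Bd X Y D := mem_Bd.2 (Or.inl hx)
  set θ' : G ⧸ J := QuotientAddGroup.mk x with hθ'
  have hr1 : 0 < bR1 X Y D L J θ' := bR1_pos E.hLJ hxB hxC
  have hne : θ ≠ θ' := by
    rintro rfl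
    rw [hθ.1] at hr1
    exact lt_irrefl _ hr1
  have hk := hB.k_others hne hθ
  -- the type of `θ'`
  have htyp := typ_cases (hB.typ θ')
  have hE : bR1 X Y D L J θ' = 3 ∧ bR2 X Y D L J θ' = 0 ∧ bN X Y (D + ν) R J θ' = 2 := by
    rcases htyp with h | h | h | h | h | h
    · omega
    · rw [h.1, h.2.1, nn_one (by omega)] at hk; norm_num at hk
    · exact h
    · omega
    · rw [h.1, h.2.1, nn_two (by omega)] at hk; norm_num at hk
    · omega
  -- `C_{D+ν}` meets `θ'`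
  have hC' : (fb J (Cd X Y (D + ν)) θ').Nonempty :=
    ⟨x, mem_fb.2 ⟨mem_Cd.2 ⟨hx, by rw [← add_assoc]; exact hxY⟩, rfl⟩⟩
  have h5 := nc_pos (V := R) hC'
  have h6 := nc_C_le_B X Y (D + ν) R J θ'
  have hB1' : nc R (fb J (Bd X Y (D + ν)) θ') = 1 := by
    have := hE.2.2
    unfold bN at this; omega
  -- the block `θ`
  have hθN : bN X Y (D + ν) R J θ = 2 := by
    rcases typ_cases (hB.typ θ) with h | h | h | h | h | h <;> omega
  have hC : (fb J (Cd X Y D) θ).Nonempty :=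
    (bR2_pos_iff (L := L)).1 (by omega)
  have hCν := Cd_block E.hLJ hIm.2.1 hC
  have h7 := nc_pos (V := R) hCν
  have h8 := nc_C_le_B X Y (D + ν) R J θ
  have hB1 : nc R (fb J (Bd X Y (D + ν)) θ) = 1 := by
    unfold bN at hθN; omega
  have hνR : ν ∈ R := mem_R_of_column hνJ hB1 hC
  have hone : nc R (fb J (Bd X Y D) θ') = 1 := by
    unfold nc at hB1' ⊢
    rw [← cl_fb_Bd_add hνR hνJ]; exact hB1'
  have hcoset : ∀ a ∈ fb J (Bd X Y D) θ', ∀ b ∈ fb J (Bd X Y D) θ', a - b ∈ R := by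
    unfold nc at hone
    obtain ⟨c, hc⟩ := Finset.card_eq_one.1 hone
    intro a ha b hb
    have e1 := mk_mem_cl (V := R) ha
    have e2 := mk_mem_cl (V := R) hb
    rw [hc, Finset.mem_singleton] at e1 e2
    exact sub_mem_of_mk_eq (e1.trans e2.symm)
  have hR : (R : Set G).Finite := E.hJ.subset E.hRJ
  have b1 := card_le_inf_mul_nc (L := R) (R := L) hR hcoset
  have hinf : Nat.card (R ⊓ L : AddSubgroup G) = i := by rw [inf_comm]; exact E.hinf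
  rw [hinf, ← bR_add, hE.1, hE.2.1] at b1
  have b2 : (fb J (Cd X Y D) θ').card = 0 := by
    rw [Finset.card_eq_zero]
    have := hE.2.1
    unfold bR2 at this
    exact nc_eq_zero.1 this
  have hdef := hB.deficit1 θ'
  rw [← fb_union_inter, b2, hE.1, hE.2.1, hE.2.2] at hdef
  have hF : FF 2 3 0 2 = 6 := by decide
  rw [hF] at hdef
  have hi := E.hi
  push_cast at hdef
  zify at b1 hi
  linarith

end Pool.Agent.Lib.MP_09e095_co
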