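import Mathlib
import Pool.Agent.Lib.MP_09e095_co.CWEnd1

/-!
MP_09e095_co : the end game, rows.
-/

set_option autoImplicit false

open Finset
open scoped Pointwise

namespace Pool.Agent.Lib.MP_09e095_co

variable {G : Type*} [AddCommGroup G] [DecidableEq G]

variable {X Y W : Finset G} {D : G} {L R J : AddSubgroup G} {i : ℕ} {m : ℤ}

/-- the possible types, without `T2` -/
theorem EndG.types (E : EndG X Y W D L R J i m) {ν : G} (hν : Im X Y D L ν) (θ : G ⧸ J) :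
    (bR1 X Y D L J θ = 0 ∧ bR2 X Y D L J θ = 0 ∧ bN X Y (D + ν) R J θ = 0) ∨
    (bR1 X Y D L J θ = 1 ∧ bR2 X Y D L J θ = 0 ∧ bN X Y (D + ν) R J θ = 1) ∨
    (bR1 X Y D L J θ = 3 ∧ bR2 X Y D L J θ = 0 ∧ bN X Y (D + ν) R J θ = 2) ∨
    (bR1 X Y D L J θ = 2 ∧ bR2 X Y D L J θ = 1 ∧ bN X Y (D + ν) R J θ = 3) ∨
    (bR1 X Y D L J θ = 0 ∧ bR2 X Y D L J θ = 3 ∧ bN X Y (D + ν) R J θ = 4) := by
  have h := typ_cases ((E.blocks ν hν).typ θ)
  have h2 := E.noT2 θ
  tauto

/-- content of a single row, single block form -/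
theorem EndG.row (E : EndG X Y W D L R J i m) {ν : G} (hν : Im X Y D L ν) (θ : G ⧸ J)
    (c : G ⧸ L) (hc : c ∈ cl L (fb J (Bd X Y D) θ)) [Decidable (c ∈ cl L (Cd X Y D))] :
    (if c ∈ cl L (Cd X Y D) then i * bN X Y (D + ν) R J θ
      else i * min 2 (bN X Y (D + ν) R J θ)) + ct X Y D J θ ≤
    ct X Y D L c + i * (bR1 X Y D L J θ * min 2 (bN X Y (D + ν) R J θ) +
      bR2 X Y D L J θ * bN X Y (D + ν) R J θ) := by
  classical
  have hL : (L : Set G).Finite := E.hJ.subset E.hLJ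
  have h := row_ge (R := R) hL E.hLJ X Y hν.1 θ (p := 2) E.hinf E.cardL {c} (by
    intro z hz
    rw [Finset.mem_singleton] at hz
    rw [hz]; exact hc)
  rw [Finset.sum_singleton, Finset.sum_singleton] at h
  have e := mem_cl_fb E.hLJ (B := Cd X Y D) hc
  by_cases hC : c ∈ cl L (Cd X Y D)
  · rw [if_pos (e.2 hC)] at h
    rw [if_pos hC]; exact h
  · rw [if_neg (fun h' => hC (e.1 h'))] at h
    rw [if_neg hC]; exact h

theorem EndG.row_C (E : EndG X Y W D L R J i m) {x : G} (hx : x ∈ Bd X Y D)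
    (hC : (QuotientAddGroup.mk x : G ⧸ L) ∈ cl L (Cd X Y D)) :
    5 * i < 2 * ct X Y D L (QuotientAddGroup.mk x) := by
  classical
  obtain ⟨ν, hν⟩ := E.ex
  set θ : G ⧸ J := QuotientAddGroup.mk x with hθ
  have hc : (QuotientAddGroup.mk x : G ⧸ L) ∈ cl L (fb J (Bd X Y D) θ) :=
    mk_mem_cl (mem_fb.2 ⟨hx, rfl⟩)
  have h := E.row hν θ _ hc
  rw [if_pos hC] at h
  have hdef := (E.blocks ν hν).deficit1 θ
  have hr2 : 0 < bR2 X Y D L J θ := by
    rw [bR2_pos_iff]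
    have := (mem_cl_fb E.hLJ (B := Cd X Y D) hc).2 hC
    obtain ⟨z, hz, _⟩ := mem_cl.1 this
    exact ⟨z, hz⟩
  have hi := E.hi
  rcases E.types hν θ with h1 | h1 | h1 | h1 | h1
  · omega
  · omega
  · omega
  · rw [h1.1, h1.2.1, h1.2.2] at h hdef
    have hF : FF 2 2 1 3 = 7 := by decide
    rw [hF] at hdef
    norm_num at h
    push_cast at hdef
    zify at h hi ⊢
    linarith
  · rw [h1.1, h1.2.1, h1.2.2] at h hdef
    have hF : FF 2 0 3 4 = 12 := by decide
    rw [hF] at hdef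
    norm_num at h
    push_cast at hdef
    zify at h hi ⊢
    linarith

theorem EndG.row_B (E : EndG X Y W D L R J i m) {x : G} (hx : x ∈ Bd X Y D)
    (hC : (QuotientAddGroup.mk x : G ⧸ L) ∉ cl L (Cd X Y D))
    (h1' : bR1 X Y D L J (QuotientAddGroup.mk x) ≠ 1) :
    3 * i < 2 * ct X Y D L (QuotientAddGroup.mk x) := by
  classical
  obtain ⟨ν, hν⟩ := E.ex
  set θ : G ⧸ J := QuotientAddGroup.mk x with hθ
  have hc : (QuotientAddGroup.mk x : G ⧸ L) ∈ cl L (fb J (Bd X Y D) θ) :=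
    mk_mem_cl (mem_fb.2 ⟨hx, rfl⟩)
  have h := E.row hν θ _ hc
  rw [if_neg hC] at h
  have hdef := (E.blocks ν hν).deficit1 θ
  have hr1 : 0 < bR1 X Y D L J θ := bR1_pos E.hLJ hx hC
  have hi := E.hi
  rcases E.types hν θ with h1 | h1 | h1 | h1 | h1
  · omega
  · exact absurd h1.1 h1'
  · rw [h1.1, h1.2.1, h1.2.2] at h hdef
    have hF : FF 2 3 0 2 = 6 := by decide
    rw [hF] at hdef
    norm_num at h
    push_cast at hdef
    zify at h hi ⊢
    linarith
  · rw [h1.1, h1.2.1, h1.2.2] at h hdef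
    have hF : FF 2 2 1 3 = 7 := by decide
    rw [hF] at hdef
    norm_num at h
    push_cast at hdef
    zify at h hi ⊢
    linarith
  · omega

/-- every hit of a critical row is an improvement -/
theorem EndG.im_of_hit (E : EndG X Y W D L R J i m) {x ν : G} (hν : ν ∈ L) (hx : x ∈ X)
    (hxY : x + D + ν ∈ Y) (hC : (QuotientAddGroup.mk x : G ⧸ L) ∉ cl L (Cd X Y D)) :
    Im X Y D L ν := by
  have hL : (L : Set G).Finite := E.hJ.subset E.hLJ
  refine ⟨hν, ?_, ?_⟩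
  · intro c hc
    obtain ⟨z, hz, rfl⟩ := mem_cl.1 hc
    rw [mem_cl_Cd_add hν, mem_dP]
    apply full_of_card hL (inC_fb L X (sh D Y) _) _ hν
    have h1 := E.row_C (Cd_subset_Bd X Y D hz) hc
    unfold ct at h1
    rw [E.cardL]
    have := E.hi
    omega
  · intro h
    apply hC
    rw [h]
    exact mem_cl_Cd.2 ⟨x, hx, rfl, by rw [← add_assoc]; exact hxY⟩

/-- blocks of type `T1` contain points of only one of the two sets -/
theorem EndG.T1_not_critical (E : EndG X Y W D L R J i m) {θ : G ⧸ J}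
    (h1 : bR1 X Y D L J θ = 1) (h2 : bR2 X Y D L J θ = 0) {x y : G}
    (hx : x ∈ fb J X θ) (hy : y ∈ fb J (sh D Y) θ) : False := by
  have hnc : nc L (fb J (Bd X Y D) θ) = 1 := by rw [← bR_add]; omega
  have hxB : x ∈ fb J (Bd X Y D) θ :=
    mem_fb.2 ⟨mem_Bd.2 (Or.inl (mem_fb.1 hx).1), (mem_fb.1 hx).2⟩
  have hyB : y ∈ fb J (Bd X Y D) θ :=
    mem_fb.2 ⟨mem_Bd.2 (Or.inr (mem_sh.1 (mem_fb.1 hy).1)), (mem_fb.1 hy).2⟩
  have hxy : y - x ∈ L := by
    unfold nc at hnc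
    obtain ⟨c, hc⟩ := Finset.card_eq_one.1 hnc
    have e1 := mk_mem_cl (V := L) hxB
    have e2 := mk_mem_cl (V := L) hyB
    rw [hc, Finset.mem_singleton] at e1 e2
    exact sub_mem_of_mk_eq (e2.trans e1.symm)
  have hC0 : fb J (Cd X Y D) θ = ∅ := by
    unfold bR2 at h2; exact nc_eq_zero.1 h2
  have hxC : (QuotientAddGroup.mk x : G ⧸ L) ∉ cl L (Cd X Y D) := by
    intro h
    have h3 := (mem_cl_fb E.hLJ (B := Cd X Y D) (mk_mem_cl (V := L) hxB)).2 h
    rw [hC0] at h3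
    obtain ⟨z, hz, _⟩ := mem_cl.1 h3
    exact absurd hz (Finset.notMem_empty z)
  have hhit : x + D + (y - x) ∈ Y := by
    have : x + D + (y - x) = y + D := by abel
    rw [this]; exact mem_sh.1 (mem_fb.1 hy).1
  have hIm := E.im_of_hit hxy (mem_fb.1 hx).1 hhit hxC
  have hN : bN X Y (D + (y - x)) R J θ = 1 := by
    rcases E.types hIm θ with h | h | h | h | h <;> omega
  have hC' : (fb J (Cd X Y (D + (y - x))) θ).Nonempty :=
    ⟨x, mem_fb.2 ⟨mem_Cd.2 ⟨(mem_fb.1 hx).1, by rw [← add_assoc]; exact hhit⟩, (mem_fb.1 hx).2⟩⟩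
  have h5 := nc_pos (V := R) hC'
  have h6 := nc_C_le_B X Y (D + (y - x)) R J θ
  unfold bN at hN
  omega

/-- at most two columns -/
theorem EndG.two_cols (E : EndG X Y W D L R J i m) (A : Finset G) (θ : G ⧸ J) :
    nc R (fb J A θ) ≤ 2 := by
  have h := nc_fb_mul_le E.hJ E.hRJ A θ
  rw [E.cardR, E.cardJ] at h
  have hi := E.hi
  have h2 : (3 * i) * nc R (fb J A θ) ≤ (3 * i) * 2 := by
    calc _ ≤ _ := h
      _ = _ := by ring
  exact Nat.le_of_mul_le_mul_left h2 (by omega)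

/-- the block where a column is lost -/
theorem EndG.gain (E : EndG X Y W D L R J i m) :
    ∃ θ : G ⧸ J, bR1 X Y D L J θ = 2 ∧ bR2 X Y D L J θ = 1 ∧
      nc R (fb J (Cd X Y D) θ) = 2 := by
  classical
  obtain ⟨ν, hν⟩ := E.ex
  have hνJ : ν ∈ J := E.hLJ hν.1
  have hlt := lt_of_lt_of_le (E.badR ν hν) E.goodR
  unfold gm at hlt
  have hlt2 : nc R (Bd X Y (D + ν)) + nc R (Cd X Y (D + ν)) <
      nc R (Bd X Y D) + nc R (Cd X Y D) := by
    by_contra hcon
    push Not at hcon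
    have h1 : Nat.card R * (nc R (Bd X Y D) + nc R (Cd X Y D) + nc R W) ≤
        Nat.card R * (nc R (Bd X Y (D + ν)) + nc R (Cd X Y (D + ν)) + nc R W) :=
      Nat.mul_le_mul_left _ (by omega)
    have h2 : ((Nat.card R * (nc R (Bd X Y D) + nc R (Cd X Y D) + nc R W) : ℕ) : ℤ) ≤
        (Nat.card R * (nc R (Bd X Y (D + ν)) + nc R (Cd X Y (D + ν)) + nc R W) : ℕ) := by
      exact_mod_cast h1
    linarith
  rw [← sum_bN E.hRJ X Y D (le_refl _), ← sum_bN E.hRJ X Y (D + ν)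
    (Θ := cl J (Bd X Y D)) (by rw [cl_Bd_add hνJ])] at hlt2
  obtain ⟨θ, _, hθ⟩ := Finset.exists_lt_of_sum_lt hlt2
  have hB2 := E.two_cols (Bd X Y D) θ
  have hC2 := E.two_cols (Cd X Y D) θ
  have hC0 : bR2 X Y D L J θ = 0 → nc R (fb J (Cd X Y D) θ) = 0 := by
    intro h
    unfold bR2 at h
    rw [nc_eq_zero.1 h]; exact nc_eq_zero.2 rfl
  refine ⟨θ, ?_⟩
  rcases E.types hν θ with h | h | h | h | h
  · exfalso
    have h3 := bR_add X Y D L J θ
    have h4 : fb J (Bd X Y D) θ = ∅ := by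
      apply (nc_eq_zero (V := L)).1; omega
    have h5 := hC0 h.2.1
    have h6 : nc R (fb J (Bd X Y D) θ) = 0 := by rw [h4]; exact nc_eq_zero.2 rfl
    unfold bN at hθ
    omega
  · exfalso
    have h5 := hC0 h.2.1
    -- only one of the two sets is present
    have hN := h.2.2
    by_cases hX : (fb J X θ).Nonempty
    · obtain ⟨x, hx⟩ := hX
      have hY : fb J (sh D Y) θ = ∅ := by
        rw [← Finset.not_nonempty_iff_eq_empty]
        rintro ⟨y, hy⟩
        exact E.T1_not_critical h.1 h.2.1 hx hy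
      have hsub : fb J (Bd X Y D) θ ⊆ fb J (Bd X Y (D + ν)) θ := by
        intro z hz
        rcases mem_Bd.1 (mem_fb.1 hz).1 with h6 | h6
        · exact mem_fb.2 ⟨mem_Bd.2 (Or.inl h6), (mem_fb.1 hz).2⟩
        · exfalso
          have : z ∈ fb J (sh D Y) θ := mem_fb.2 ⟨mem_sh.2 h6, (mem_fb.1 hz).2⟩
          rw [hY] at this
          exact absurd this (Finset.notMem_empty z)
      have h7 := nc_mono (V := R) hsub
      unfold bN at hθ hN
      omega
    · have hX0 := Finset.not_nonempty_iff_eq_empty.1 hX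
      have e1 : fb J (Bd X Y D) θ = fb J (sh D Y) θ := by
        ext z
        rw [mem_fb, mem_fb, mem_Bd, mem_sh]
        constructor
        · rintro ⟨h6 | h6, h7⟩
          · exfalso
            have : z ∈ fb J X θ := mem_fb.2 ⟨h6, h7⟩
            rw [hX0] at this
            exact absurd this (Finset.notMem_empty z)
          · exact ⟨h6, h7⟩
        · rintro ⟨h6, h7⟩; exact ⟨Or.inr h6, h7⟩
      have e2 : fb J (sh (D + ν) Y) θ ⊆ fb J (Bd X Y (D + ν)) θ := by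
        intro z hz
        exact mem_fb.2 ⟨mem_Bd.2 (Or.inr (mem_sh.1 (mem_fb.1 hz).1)), (mem_fb.1 hz).2⟩
      have h7 := nc_mono (V := R) e2
      rw [fb_shift hνJ, nc_sh, ← e1] at h7
      unfold bN at hθ hN
      omega
  · exfalso
    have h5 := hC0 h.2.1
    have hN := h.2.2
    unfold bN at hθ hN
    omega
  · refine ⟨h.1, h.2.1, ?_⟩
    have hN := h.2.2
    unfold bN at hθ hN
    omega
  · exfalso
    have hN := h.2.2
    unfold bN at hθ hN
    omega

end Pool.Agent.Lib.MP_09e095_co
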