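import Mathlib
import Pool.Agent.Lib.MP_09e095_co.CWEnd2

/-!
MP_09e095_co : the end game, the row with a lost column; case II.
-/

set_option autoImplicit false

open Finset
open scoped Pointwise

namespace Pool.Agent.Lib.MP_09e095_co

variable {G : Type*} [AddCommGroup G] [DecidableEq G]

variable {X Y W : Finset G} {D : G} {L R J : AddSubgroup G} {i : ℕ} {m : ℤ}

/-- in a block of type `(2,1)` exactly one column meets `C_{D+ν}` -/
theorem EndG.one_col (E : EndG X Y W D L R J i m) {ν : G} (hν : Im X Y D L ν) {θ : G ⧸ J}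
    (h1 : bR1 X Y D L J θ = 2) {w w' : G} (hw : w ∈ X) (hwY : w + D + ν ∈ Y)
    (hw' : w' ∈ X) (hwY' : w' + D + ν ∈ Y) (hθ : (QuotientAddGroup.mk w : G ⧸ J) = θ)
    (hθ' : (QuotientAddGroup.mk w' : G ⧸ J) = θ) : w - w' ∈ R := by
  have hN : bN X Y (D + ν) R J θ = 3 := by
    rcases E.types hν θ with h | h | h | h | h <;> omega
  have m1 : w ∈ fb J (Cd X Y (D + ν)) θ :=
    mem_fb.2 ⟨mem_Cd.2 ⟨hw, by rw [← add_assoc]; exact hwY⟩, hθ⟩
  have m2 : w' ∈ fb J (Cd X Y (D + ν)) θ :=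
    mem_fb.2 ⟨mem_Cd.2 ⟨hw', by rw [← add_assoc]; exact hwY'⟩, hθ'⟩
  have h2 := E.two_cols (Bd X Y (D + ν)) θ
  have h3 := nc_pos (V := R) ⟨w, m1⟩
  have h4 : nc R (fb J (Cd X Y (D + ν)) θ) = 1 := by
    have h5 := nc_C_le_B X Y (D + ν) R J θ
    unfold bN at hN
    omega
  unfold nc at h4
  obtain ⟨c, hc⟩ := Finset.card_eq_one.1 h4
  have e1 := mk_mem_cl (V := R) m1
  have e2 := mk_mem_cl (V := R) m2
  rw [hc, Finset.mem_singleton] at e1 e2
  exact sub_mem_of_mk_eq (e1.trans e2.symm)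

/-- the two cells of the row where a column is lost -/
theorem EndG.gain_cells (E : EndG X Y W D L R J i m) :
    ∃ (θ : G ⧸ J) (z z' : G), bR1 X Y D L J θ = 2 ∧ bR2 X Y D L J θ = 1 ∧
      z ∈ fb J (Cd X Y D) θ ∧ z' ∈ fb J (Cd X Y D) θ ∧ z - z' ∈ L ∧ z - z' ∉ R := by
  classical
  obtain ⟨θ, h1, h2, h3⟩ := E.gain
  unfold nc at h3
  obtain ⟨c, c', hne, hcc⟩ := Finset.card_eq_two.1 h3
  have hc : c ∈ cl R (fb J (Cd X Y D) θ) := by rw [hcc]; simp
  have hc' : c' ∈ cl R (fb J (Cd X Y D) θ) := by rw [hcc]; simp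
  obtain ⟨z, hz, rfl⟩ := mem_cl.1 hc
  obtain ⟨z', hz', rfl⟩ := mem_cl.1 hc'
  refine ⟨θ, z, z', h1, h2, hz, hz', ?_, ?_⟩
  · unfold bR2 nc at h2
    obtain ⟨d, hd⟩ := Finset.card_eq_one.1 h2
    have e1 := mk_mem_cl (V := L) hz
    have e2 := mk_mem_cl (V := L) hz'
    rw [hd, Finset.mem_singleton] at e1 e2
    exact sub_mem_of_mk_eq (e1.trans e2.symm)
  · intro h
    exact hne (mk_eq_of_sub_mem h)

theorem EndG.cardL' (E : EndG X Y W D L R J i m) :
    Nat.card L = 2 * Nat.card (L ⊓ R : AddSubgroup G) := by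
  rw [E.hinf]; exact E.cardL

/-- content of a row as the sum over its two cells -/
theorem EndG.ct_cells (E : EndG X Y W D L R J i m) {z w : G} (hzw : z - w ∈ L)
    (hzw' : z - w ∉ L ⊓ R) :
    ct X Y D L (QuotientAddGroup.mk z) =
      (fb (L ⊓ R) X (QuotientAddGroup.mk z)).card +
      (fb (L ⊓ R) (sh D Y) (QuotientAddGroup.mk z)).card +
      ((fb (L ⊓ R) X (QuotientAddGroup.mk w)).card +
      (fb (L ⊓ R) (sh D Y) (QuotientAddGroup.mk w)).card) := by
  have hL : (L : Set G).Finite := E.hJ.subset E.hLJ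
  unfold ct
  rw [row_card hL inf_le_left E.cardL' hzw hzw' X, row_card hL inf_le_left E.cardL' hzw hzw'
    (sh D Y)]
  omega

/-- two sets in one coset of `I` after a shift -/
theorem hit_of_card {I : AddSubgroup G} (hI : (I : Set G).Finite) {x y : Finset G} {a b ν : G}
    (hx : ∀ z ∈ x, z - a ∈ I) (hy : ∀ z ∈ y, z - b ∈ I) (hν : a + ν - b ∈ I)
    (hc : Nat.card I < x.card + y.card) : ∃ z ∈ x, z + ν ∈ y := by
  have h : InC I (sh (-ν) x) y := by
    refine ⟨QuotientAddGroup.mk b, ?_, ?_⟩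
    · intro z hz
      rw [mem_sh] at hz
      apply mk_eq_of_sub_mem
      have e : z - b = (z + -ν - a) + (a + ν - b) := by abel
      rw [e]; exact I.add_mem (hx _ hz) hν
    · intro z hz
      exact mk_eq_of_sub_mem (hy z hz)
  obtain ⟨z, hz, hz'⟩ := full_of_card hI h (by rw [card_sh]; exact hc) I.zero_mem
  rw [mem_sh] at hz
  refine ⟨z + -ν, hz, ?_⟩
  have : z + -ν + ν = z + 0 := by abel
  rw [this]; exact hz'

/-- contradiction if all `ν ∈ L \ I` are improvements -/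
theorem EndG.caseII_aux (E : EndG X Y W D L R J i m)
    (hall : ∀ ν ∈ L, ν ∉ L ⊓ R → Im X Y D L ν) {θ : G ⧸ J} (h1 : bR1 X Y D L J θ = 2)
    {z z' : G} (hz : z ∈ fb J (Cd X Y D) θ) (hz' : z' ∈ fb J (Cd X Y D) θ) (hL' : z - z' ∈ L)
    (hR' : z - z' ∉ R)
    (hbig : i < (fb (L ⊓ R) X (QuotientAddGroup.mk z)).card +
      (fb (L ⊓ R) (sh D Y) (QuotientAddGroup.mk z')).card) : False := by
  have hL : (L : Set G).Finite := E.hJ.subset E.hLJ
  have hIf : ((L ⊓ R : AddSubgroup G) : Set G).Finite := hL.subset (fun x hx => hx.1)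
  have hnI : z - z' ∉ L ⊓ R := fun h => hR' h.2
  have hnI' : -(z - z') ∉ L ⊓ R := by
    intro h
    apply hnI
    have := (L ⊓ R).neg_mem h
    rwa [neg_neg] at this
  have hIm := hall (z - z') hL' hnI
  have h2 : z + (z - z') - z' ∈ L ⊓ R := by
    have := idx2 hL inf_le_left E.cardL' hL' (L.neg_mem hL') hnI hnI'
    have e : z + (z - z') - z' = (z - z') - -(z - z') := by abel
    rw [e]; exact this
  obtain ⟨x, hx, hxY⟩ := hit_of_card hIf (x := fb (L ⊓ R) X (QuotientAddGroup.mk z))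
    (y := fb (L ⊓ R) (sh D Y) (QuotientAddGroup.mk z')) (a := z) (b := z') (ν := z - z')
    (fun w hw => sub_mem_of_mk_eq (mem_fb.1 hw).2) (fun w hw => sub_mem_of_mk_eq (mem_fb.1 hw).2)
    h2 (by rw [E.hinf]; exact hbig)
  have hxz : x - z ∈ L ⊓ R := sub_mem_of_mk_eq (mem_fb.1 hx).2
  have hzC := mem_Cd.1 (mem_fb.1 hz).1
  have hzC' := mem_Cd.1 (mem_fb.1 hz').1
  have hres := E.one_col hIm h1 (w := x) (w' := z') (mem_fb.1 hx).1
    (by
      have := mem_sh.1 (mem_fb.1 hxY).1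
      rw [add_right_comm]; exact this)
    hzC'.1
    (by
      have : z' + D + (z - z') = z + D := by abel
      rw [this]; exact hzC.2)
    (by
      rw [← (mem_fb.1 hz).2]
      exact mk_eq_of_sub_mem (E.hLJ hxz.1))
    (mem_fb.1 hz').2
  apply hR'
  have e : z - z' = (x - z') - (x - z) := by abel
  rw [e]; exact R.sub_mem hres hxz.2

/-- case II : no critical hit in `I` -/
theorem EndG.caseII (E : EndG X Y W D L R J i m)
    (hII : ∀ x ∈ X, ∀ ν ∈ L ⊓ R, x + D + ν ∈ Y →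
      (QuotientAddGroup.mk x : G ⧸ L) ∈ cl L (Cd X Y D)) : False := by
  have hL : (L : Set G).Finite := E.hJ.subset E.hLJ
  have hIf : ((L ⊓ R : AddSubgroup G) : Set G).Finite := hL.subset (fun x hx => hx.1)
  obtain ⟨ν0, hν0⟩ := E.ex
  obtain ⟨x0, hx0, hxY0, hxC0⟩ := hν0.new
  have hi := E.hi
  have hx0B : x0 ∈ Bd X Y D := mem_Bd.2 (Or.inl hx0)
  set y0 := x0 + ν0 with hy0
  have hy0Y : y0 + D ∈ Y := by rw [hy0, add_right_comm]; exact hxY0
  have hy0L : y0 - x0 ∈ L := by rw [hy0]; simpa using hν0.1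
  have hr1 : bR1 X Y D L J (QuotientAddGroup.mk x0) ≠ 1 := by
    intro h1
    have hr2 : bR2 X Y D L J (QuotientAddGroup.mk x0) = 0 := by
      rcases E.types hν0 (QuotientAddGroup.mk x0) with h | h | h | h | h <;> omega
    exact E.T1_not_critical h1 hr2 (mem_fb.2 ⟨hx0, rfl⟩)
      (mem_fb.2 ⟨mem_sh.2 hy0Y, mk_eq_of_sub_mem (E.hLJ hy0L)⟩)
  have hct := E.row_B hx0B hxC0 hr1
  -- all `x` of the row lie in the cell of `x0`
  have hnhit : ∀ x ∈ fb L X (QuotientAddGroup.mk x0), ∀ y ∈ fb L (sh D Y) (QuotientAddGroup.mk x0),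
      y - x ∉ L ⊓ R := by
    intro x hx y hy hcon
    have := hII x (mem_fb.1 hx).1 (y - x) hcon (by
      have : x + D + (y - x) = y + D := by abel
      rw [this]; exact mem_sh.1 (mem_fb.1 hy).1)
    rw [(mem_fb.1 hx).2] at this
    exact hxC0 this
  have hx0row : x0 ∈ fb L X (QuotientAddGroup.mk x0) := mem_fb.2 ⟨hx0, rfl⟩
  have hy0row : y0 ∈ fb L (sh D Y) (QuotientAddGroup.mk x0) :=
    mem_fb.2 ⟨mem_sh.2 hy0Y, mk_eq_of_sub_mem hy0L⟩
  have hdiffL : ∀ x ∈ fb L X (QuotientAddGroup.mk x0), ∀ y ∈ fb L (sh D Y)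
      (QuotientAddGroup.mk x0), y - x ∈ L := by
    intro x hx y hy
    exact sub_mem_of_mk_eq ((mem_fb.1 hy).2.trans (mem_fb.1 hx).2.symm)
  have hXcell : ∀ x ∈ fb L X (QuotientAddGroup.mk x0), x - x0 ∈ L ⊓ R := by
    intro x hx
    have := idx2 hL inf_le_left E.cardL' (hdiffL x0 hx0row y0 hy0row) (hdiffL x hx y0 hy0row)
      (hnhit x0 hx0row y0 hy0row) (hnhit x hx y0 hy0row)
    have e : x - x0 = (y0 - x0) - (y0 - x) := by abel
    rw [e]; exact this
  have hYcell : ∀ y ∈ fb L (sh D Y) (QuotientAddGroup.mk x0), y - y0 ∈ L ⊓ R := by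
    intro y hy
    have := idx2 hL inf_le_left E.cardL' (hdiffL x0 hx0row y hy) (hdiffL x0 hx0row y0 hy0row)
      (hnhit x0 hx0row y hy) (hnhit x0 hx0row y0 hy0row)
    have e : y - y0 = (y - x0) - (y0 - x0) := by abel
    rw [e]; exact this
  have hall : ∀ ν ∈ L, ν ∉ L ⊓ R → Im X Y D L ν := by
    intro ν hν hνI
    have h2 : x0 + ν - y0 ∈ L ⊓ R := by
      have := idx2 hL inf_le_left E.cardL' hν hy0L hνI (hnhit x0 hx0row y0 hy0row)
      have e : x0 + ν - y0 = ν - (y0 - x0) := by abel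
      rw [e]; exact this
    obtain ⟨x, hx, hxY⟩ := hit_of_card hIf (x := fb L X (QuotientAddGroup.mk x0))
      (y := fb L (sh D Y) (QuotientAddGroup.mk x0)) (a := x0) (b := y0) (ν := ν)
      hXcell hYcell h2 (by
        rw [E.hinf]
        unfold ct at hct
        omega)
    apply E.im_of_hit hν (mem_fb.1 hx).1
    · have := mem_sh.1 (mem_fb.1 hxY).1
      rw [add_right_comm]; exact this
    · rw [(mem_fb.1 hx).2]; exact hxC0
  obtain ⟨θ, z, z', h1, h2, hz, hz', hzL, hzR⟩ := E.gain_cells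
  have hnI : z - z' ∉ L ⊓ R := fun h => hzR h.2
  have hct2 := E.row_C (Cd_subset_Bd X Y D (mem_fb.1 hz).1) (mk_mem_cl (mem_fb.1 hz).1)
  rw [E.ct_cells hzL hnI] at hct2
  have hcase : i < (fb (L ⊓ R) X (QuotientAddGroup.mk z)).card +
      (fb (L ⊓ R) (sh D Y) (QuotientAddGroup.mk z')).card ∨
      i < (fb (L ⊓ R) X (QuotientAddGroup.mk z')).card +
      (fb (L ⊓ R) (sh D Y) (QuotientAddGroup.mk z)).card := by omega
  rcases hcase with h | h
  · exact E.caseII_aux hall h1 hz hz' hzL hzR h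
  · refine E.caseII_aux hall h1 hz' hz ?_ ?_ h
    · have : z' - z = -(z - z') := by abel
      rw [this]; exact L.neg_mem hzL
    · intro hcon
      apply hzR
      have : z - z' = -(z' - z) := by abel
      rw [this]; exact R.neg_mem hcon

end Pool.Agent.Lib.MP_09e095_co
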