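import Mathlib
import Pool.Agent.Lib.MP_09e095_co.CWEnd3

/-!
MP_09e095_co : the end game, the final count.
-/

set_option autoImplicit false

open Finset
open scoped Pointwise

namespace Pool.Agent.Lib.MP_09e095_co

variable {G : Type*} [AddCommGroup G] [DecidableEq G]

variable {X Y W : Finset G} {D : G} {L R J : AddSubgroup G} {i : ℕ} {m : ℤ}

theorem sum_rows_le (hLJ : L ≤ J) (X Y : Finset G) (D : G) (θ : G ⧸ J) (f : G ⧸ L → ℕ)
    (b1 b2 : ℕ)
    (h1 : ∀ c ∈ cl L (fb J (Bd X Y D) θ), c ∉ cl L (Cd X Y D) → f c ≤ b1)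
    (h2 : ∀ c ∈ cl L (fb J (Bd X Y D) θ), c ∈ cl L (Cd X Y D) → f c ≤ b2) :
    ∑ c ∈ cl L (fb J (Bd X Y D) θ), f c ≤ bR1 X Y D L J θ * b1 + bR2 X Y D L J θ * b2 := by
  classical
  calc ∑ c ∈ cl L (fb J (Bd X Y D) θ), f c
      ≤ ∑ c ∈ cl L (fb J (Bd X Y D) θ), (if c ∈ cl L (fb J (Cd X Y D) θ) then b2 else b1) := by
        apply Finset.sum_le_sum
        intro c hc
        split_ifs with h
        · exact h2 c hc ((mem_cl_fb hLJ hc).1 h)
        · exact h1 c hc (fun h' => h ((mem_cl_fb hLJ hc).2 h'))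
    _ = _ := by
        rw [Finset.sum_ite, Finset.sum_const, Finset.sum_const, smul_eq_mul, smul_eq_mul]
        have e1 : ((cl L (fb J (Bd X Y D) θ)).filter
            (fun c => c ∈ cl L (fb J (Cd X Y D) θ))).card = bR2 X Y D L J θ := by
          unfold bR2 nc
          congr 1
          ext c
          rw [Finset.mem_filter]
          exact ⟨fun h => h.2, fun h => ⟨cl_mono (fb_mono (Cd_subset_Bd X Y D) θ) h, h⟩⟩
        have e2 := Finset.card_filter_add_card_filter_not (s := cl L (fb J (Bd X Y D) θ))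
          (fun c => c ∈ cl L (fb J (Cd X Y D) θ))
        have e3 := bR_add X Y D L J θ
        have e4 : (cl L (fb J (Bd X Y D) θ)).card = nc L (fb J (Bd X Y D) θ) := rfl
        have e5 : ((cl L (fb J (Bd X Y D) θ)).filter
            (fun c => c ∉ cl L (fb J (Cd X Y D) θ))).card = bR1 X Y D L J θ := by omega
        rw [e1, e5]
        ring

/-- number of `U`-cosets of a block, row by row -/
theorem block_nc_eq {U : AddSubgroup G} (hUL : U ≤ L) (hLJ : L ≤ J) (X Y : Finset G) (D : G)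
    (θ : G ⧸ J) :
    Nat.card U * (nc U (fb J X θ) + nc U (fb J (sh D Y) θ)) =
      ∑ c ∈ cl L (fb J (Bd X Y D) θ),
        Nat.card U * (nc U (fb L X c) + nc U (fb L (sh D Y) c)) := by
  classical
  have hX : cl L (fb J X θ) ⊆ cl L (fb J (Bd X Y D) θ) :=
    cl_mono (fb_mono (by intro x hx; exact mem_Bd.2 (Or.inl hx)) θ)
  have hY : cl L (fb J (sh D Y) θ) ⊆ cl L (fb J (Bd X Y D) θ) :=
    cl_mono (fb_mono (by intro x hx; exact mem_Bd.2 (Or.inr (mem_sh.1 hx))) θ)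
  rw [nc_eq_sum_fb hUL (fb J X θ) hX, nc_eq_sum_fb hUL (fb J (sh D Y) θ) hY,
    ← Finset.sum_add_distrib, Finset.mul_sum]
  apply Finset.sum_congr rfl
  intro c hc
  rw [fb_fb hLJ hc, fb_fb hLJ hc]

theorem fb_diff {V : AddSubgroup G} {A : Finset G} {c : G ⧸ V} {x y : G} (hx : x ∈ fb V A c)
    (hy : y ∈ fb V A c) : x - y ∈ V :=
  sub_mem_of_mk_eq ((mem_fb.1 hx).2.trans (mem_fb.1 hy).2.symm)

/-- rows of type 1 -/
theorem EndG.fin_row1 (E : EndG X Y W D L R J i m) {U : AddSubgroup G} (hU : U ≤ L)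
    (hnot : ∀ u ∈ U, ¬ Im X Y D L u) {c : G ⧸ L} (hc : c ∉ cl L (Cd X Y D)) :
    Nat.card U * (nc U (fb L X c) + nc U (fb L (sh D Y) c)) ≤ 2 * i := by
  have hL : (L : Set G).Finite := E.hJ.subset E.hLJ
  rw [← E.cardL]
  apply nc_add_le_of_disjoint hL hU (inC_fb L X (sh D Y) c)
  intro t ht a ha hcon
  apply hnot t ht
  apply E.im_of_hit (hU ht) (mem_fb.1 ha).1
  · have := mem_sh.1 (mem_fb.1 hcon).1
    rw [add_right_comm]; exact this
  · rw [(mem_fb.1 ha).2]; exact hc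

/-- rows of type 2, trivial bound -/
theorem EndG.fin_row2 (E : EndG X Y W D L R J i m) {U : AddSubgroup G} (hU : U ≤ L)
    (c : G ⧸ L) :
    Nat.card U * (nc U (fb L X c) + nc U (fb L (sh D Y) c)) ≤ 4 * i := by
  have hL : (L : Set G).Finite := E.hJ.subset E.hLJ
  have h1 : Nat.card U * nc U (fb L X c) ≤ Nat.card L :=
    nc_mul_le hL hU (fun a ha b hb => fb_diff ha hb)
  have h2 : Nat.card U * nc U (fb L (sh D Y) c) ≤ Nat.card L :=
    nc_mul_le hL hU (fun a ha b hb => fb_diff ha hb)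
  rw [E.cardL] at h1 h2
  rw [mul_add]; omega

/-- rows of type 2 in a block of type `(2,1)` -/
theorem EndG.fin_row3_aux (E : EndG X Y W D L R J i m) {U : AddSubgroup G} (hU : U ≤ L ⊓ R)
    {ν1 : G} (hν1 : ν1 ∈ L ⊓ R) (hIm : ∀ u ∈ U, Im X Y D L (ν1 + u)) {z w : G}
    (hzw : z - w ∈ L) (hzw' : z - w ∉ L ⊓ R)
    (h1 : bR1 X Y D L J (QuotientAddGroup.mk z) = 2)
    (hbig : i < (fb (L ⊓ R) X (QuotientAddGroup.mk w)).card +
      (fb (L ⊓ R) (sh D Y) (QuotientAddGroup.mk w)).card) :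
    Nat.card U * (nc U (fb (L ⊓ R) X (QuotientAddGroup.mk z)) +
      nc U (fb (L ⊓ R) (sh D Y) (QuotientAddGroup.mk z))) ≤ i := by
  have hL : (L : Set G).Finite := E.hJ.subset E.hLJ
  have hIf : ((L ⊓ R : AddSubgroup G) : Set G).Finite := hL.subset (fun x hx => hx.1)
  rw [← E.hinf]
  apply nc_add_le_shift hIf hU (inC_fb (L ⊓ R) X (sh D Y) _) hν1
  intro t ht a ha hcon
  have hν : ν1 + t ∈ L ⊓ R := (L ⊓ R).add_mem hν1 (hU ht)
  obtain ⟨b, hb, hbY⟩ := full_of_card hIf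
    (inC_fb (L ⊓ R) X (sh D Y) (QuotientAddGroup.mk w)) (by rw [E.hinf]; exact hbig) hν
  have haz : a - z ∈ L ⊓ R := sub_mem_of_mk_eq (mem_fb.1 ha).2
  have hbw : b - w ∈ L ⊓ R := sub_mem_of_mk_eq (mem_fb.1 hb).2
  have hres := E.one_col (hIm t ht) h1 (w := a) (w' := b) (mem_fb.1 ha).1
    (by have := mem_sh.1 (mem_fb.1 hcon).1; rw [add_right_comm]; exact this)
    (mem_fb.1 hb).1
    (by have := mem_sh.1 (mem_fb.1 hbY).1; rw [add_right_comm]; exact this)
    (mk_eq_of_sub_mem (E.hLJ haz.1))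
    (mk_eq_of_sub_mem (by
      have e : b - z = (b - w) - (z - w) := by abel
      rw [e]; exact J.sub_mem (E.hLJ hbw.1) (E.hLJ hzw)))
  apply hzw'
  refine ⟨hzw, ?_⟩
  have e : z - w = (a - b) - (a - z) + (b - w) := by abel
  rw [e]; exact R.add_mem (R.sub_mem hres haz.2) hbw.2

theorem EndG.fin_row3 (E : EndG X Y W D L R J i m) {U : AddSubgroup G} (hU : U ≤ L ⊓ R)
    {ν1 : G} (hν1 : ν1 ∈ L ⊓ R) (hIm : ∀ u ∈ U, Im X Y D L (ν1 + u)) {z : G}
    (hz : z ∈ Cd X Y D) (h1 : bR1 X Y D L J (QuotientAddGroup.mk z) = 2) :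
    Nat.card U * (nc U (fb L X (QuotientAddGroup.mk z)) +
      nc U (fb L (sh D Y) (QuotientAddGroup.mk z))) ≤ 3 * i := by
  have hL : (L : Set G).Finite := E.hJ.subset E.hLJ
  have hIf : ((L ⊓ R : AddSubgroup G) : Set G).Finite := hL.subset (fun x hx => hx.1)
  obtain ⟨u, hu, hu'⟩ := exists_not_mem hL (inf_le_left : L ⊓ R ≤ L) E.cardL'
  set w := z - u with hw
  have hzw : z - w ∈ L := by rw [hw]; simpa using hu
  have hzw' : z - w ∉ L ⊓ R := by rw [hw, sub_sub_cancel]; exact hu'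
  have hwz : w - z ∈ L := by
    have : w - z = -(z - w) := by abel
    rw [this]; exact L.neg_mem hzw
  have hwz' : w - z ∉ L ⊓ R := by
    intro h
    apply hzw'
    have : z - w = -(w - z) := by abel
    rw [this]; exact (L ⊓ R).neg_mem h
  have hct := E.row_C (Cd_subset_Bd X Y D hz) (mk_mem_cl hz)
  rw [E.ct_cells hzw hzw'] at hct
  have n1 := row_nc_le (U := U) hL inf_le_left E.cardL' hzw hzw' X
  have n2 := row_nc_le (U := U) hL inf_le_left E.cardL' hzw hzw' (sh D Y)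
  have triv : ∀ (A : Finset G) (c : G ⧸ (L ⊓ R)), Nat.card U * nc U (fb (L ⊓ R) A c) ≤ i := by
    intro A c
    rw [← E.hinf]
    exact nc_mul_le hIf hU (fun a ha b hb => fb_diff ha hb)
  have tot : Nat.card U * (nc U (fb L X (QuotientAddGroup.mk z)) +
      nc U (fb L (sh D Y) (QuotientAddGroup.mk z))) ≤
      Nat.card U * (nc U (fb (L ⊓ R) X (QuotientAddGroup.mk z)) +
        nc U (fb (L ⊓ R) (sh D Y) (QuotientAddGroup.mk z))) +
      Nat.card U * (nc U (fb (L ⊓ R) X (QuotientAddGroup.mk w)) +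
        nc U (fb (L ⊓ R) (sh D Y) (QuotientAddGroup.mk w))) := by
    rw [← mul_add]
    apply Nat.mul_le_mul_left
    omega
  have hcase : i < (fb (L ⊓ R) X (QuotientAddGroup.mk z)).card +
      (fb (L ⊓ R) (sh D Y) (QuotientAddGroup.mk z)).card ∨
      i < (fb (L ⊓ R) X (QuotientAddGroup.mk w)).card +
      (fb (L ⊓ R) (sh D Y) (QuotientAddGroup.mk w)).card := by omega
  rcases hcase with h | h
  · have hJw : bR1 X Y D L J (QuotientAddGroup.mk w) = 2 := by
      have : (QuotientAddGroup.mk w : G ⧸ J) = QuotientAddGroup.mk z :=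
        mk_eq_of_sub_mem (E.hLJ hwz)
      rw [this]; exact h1
    have b1 := E.fin_row3_aux hU hν1 hIm hwz hwz' hJw h
    have b2 := triv X (QuotientAddGroup.mk z)
    have b3 := triv (sh D Y) (QuotientAddGroup.mk z)
    rw [mul_add] at tot
    rw [mul_add (Nat.card U) (nc U (fb (L ⊓ R) X (QuotientAddGroup.mk z)))] at tot
    rw [← mul_add] at tot
    omega
  · have b1 := E.fin_row3_aux hU hν1 hIm hzw hzw' h1 h
    have b2 := triv X (QuotientAddGroup.mk w)
    have b3 := triv (sh D Y) (QuotientAddGroup.mk w)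
    rw [mul_add (Nat.card U) (nc U (fb (L ⊓ R) X (QuotientAddGroup.mk w)))] at tot
    omega

end Pool.Agent.Lib.MP_09e095_co
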