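import Mathlib
import Pool.Agent.Lib.MP_09e095_co.CWEnd4

/-!
MP_09e095_co : the end game, the final count.
-/

set_option autoImplicit false

open Finset
open scoped Pointwise

namespace Pool.Agent.Lib.MP_09e095_co

variable {G : Type*} [AddCommGroup G] [DecidableEq G]

variable {X Y W : Finset G} {D : G} {L R J : AddSubgroup G} {i : ℕ} {m : ℤ}

theorem diff_of_nc_one {V : AddSubgroup G} {A : Finset G} (h : nc V A ≤ 1) {x y : G}
    (hx : x ∈ A) (hy : y ∈ A) : x - y ∈ V := by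
  have h1 : nc V A = 1 := by
    have := nc_pos (V := V) ⟨x, hx⟩
    omega
  unfold nc at h1
  obtain ⟨c, hc⟩ := Finset.card_eq_one.1 h1
  have e1 := mk_mem_cl (V := V) hx
  have e2 := mk_mem_cl (V := V) hy
  rw [hc, Finset.mem_singleton] at e1 e2
  exact sub_mem_of_mk_eq (e1.trans e2.symm)

/-- a block, in number of `U`-cosets -/
theorem EndG.fin_block (E : EndG X Y W D L R J i m) {U : AddSubgroup G} (hU : U ≤ L ⊓ R)
    {ν1 : G} (hν1 : ν1 ∈ L ⊓ R) (hIm : ∀ u ∈ U, Im X Y D L (ν1 + u))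
    (hnot : ∀ u ∈ U, ¬ Im X Y D L u) (hIm0 : Im X Y D L ν1) (θ : G ⧸ J) :
    Nat.card U * (nc U (fb J X θ) + nc U (fb J (sh D Y) θ)) ≤
      i * FF 2 (bR1 X Y D L J θ) (bR2 X Y D L J θ) (bN X Y (D + ν1) R J θ) := by
  have hL : (L : Set G).Finite := E.hJ.subset E.hLJ
  have hIf : ((L ⊓ R : AddSubgroup G) : Set G).Finite := hL.subset (fun x hx => hx.1)
  have hUL : U ≤ L := hU.trans inf_le_left
  have hνJ : ν1 ∈ J := E.hLJ hν1.1
  rcases E.types hIm0 θ with h | h | h | h | h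
  · -- empty
    have h3 := bR_add X Y D L J θ
    have h4 : fb J (Bd X Y D) θ = ∅ := by
      apply (nc_eq_zero (V := L)).1; omega
    rw [fb_Bd_empty_iff] at h4
    rw [h4.1, h4.2, nc_eq_zero.2 rfl]
    simp
  · -- type T1
    rw [h.1, h.2.1, h.2.2]
    have hF : FF 2 1 0 1 = 1 := by decide
    rw [hF, mul_one]
    have hncL : nc L (fb J (Bd X Y D) θ) ≤ 1 := by rw [← bR_add]; omega
    have hncR : nc R (fb J (Bd X Y (D + ν1)) θ) ≤ 1 := by
      have := h.2.2; unfold bN at this; omega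
    have hXd : ∀ a ∈ fb J X θ, ∀ b ∈ fb J X θ, a - b ∈ L ⊓ R := by
      intro a ha b hb
      refine ⟨diff_of_nc_one hncL ?_ ?_, diff_of_nc_one hncR ?_ ?_⟩
      · exact fb_mono (by intro x hx; exact mem_Bd.2 (Or.inl hx)) θ ha
      · exact fb_mono (by intro x hx; exact mem_Bd.2 (Or.inl hx)) θ hb
      · exact fb_mono (by intro x hx; exact mem_Bd.2 (Or.inl hx)) θ ha
      · exact fb_mono (by intro x hx; exact mem_Bd.2 (Or.inl hx)) θ hb
    have hYd : ∀ a ∈ fb J (sh D Y) θ, ∀ b ∈ fb J (sh D Y) θ, a - b ∈ L ⊓ R := by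
      intro a ha b hb
      have key : ∀ c ∈ fb J (sh D Y) θ, c - ν1 ∈ fb J (Bd X Y (D + ν1)) θ := by
        intro c hc
        refine mem_fb.2 ⟨mem_Bd.2 (Or.inr ?_), ?_⟩
        · have : c - ν1 + (D + ν1) = c + D := by abel
          rw [this]; exact mem_sh.1 (mem_fb.1 hc).1
        · rw [← (mem_fb.1 hc).2]
          exact mk_eq_of_sub_mem (by
            have : c - ν1 - c = -ν1 := by abel
            rw [this]; exact J.neg_mem hνJ)
      refine ⟨diff_of_nc_one hncL ?_ ?_, ?_⟩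
      · exact fb_mono (by intro x hx; exact mem_Bd.2 (Or.inr (mem_sh.1 hx))) θ ha
      · exact fb_mono (by intro x hx; exact mem_Bd.2 (Or.inr (mem_sh.1 hx))) θ hb
      · have := diff_of_nc_one hncR (key a ha) (key b hb)
        have e : a - b = (a - ν1) - (b - ν1) := by abel
        rw [e]; exact this
    by_cases hX : (fb J X θ).Nonempty
    · obtain ⟨x, hx⟩ := hX
      have hY : fb J (sh D Y) θ = ∅ := by
        rw [← Finset.not_nonempty_iff_eq_empty]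
        rintro ⟨y, hy⟩
        exact E.T1_not_critical h.1 h.2.1 hx hy
      rw [hY, nc_eq_zero.2 rfl, add_zero, ← E.hinf]
      exact nc_mul_le hIf hU hXd
    · rw [Finset.not_nonempty_iff_eq_empty.1 hX, nc_eq_zero.2 rfl, zero_add, ← E.hinf]
      exact nc_mul_le hIf hU hYd
  · -- type E
    rw [block_nc_eq hUL E.hLJ]
    have := sum_rows_le E.hLJ X Y D θ (fun c => Nat.card U * (nc U (fb L X c) +
      nc U (fb L (sh D Y) c))) (2 * i) (4 * i) (fun c _ hc => E.fin_row1 hUL hnot hc)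
      (fun c _ _ => E.fin_row2 hUL c)
    rw [h.1, h.2.1] at this
    rw [h.1, h.2.1, h.2.2]
    have hF : FF 2 3 0 2 = 6 := by decide
    rw [hF]
    omega
  · -- type Td
    rw [block_nc_eq hUL E.hLJ]
    have := sum_rows_le E.hLJ X Y D θ (fun c => Nat.card U * (nc U (fb L X c) +
      nc U (fb L (sh D Y) c))) (2 * i) (3 * i) (fun c _ hc => E.fin_row1 hUL hnot hc)
      (by
        intro c hc hC
        have h5 := (mem_cl_fb E.hLJ (B := Cd X Y D) hc).2 hC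
        obtain ⟨z, hz, rfl⟩ := mem_cl.1 h5
        apply E.fin_row3 hU hν1 hIm (mem_fb.1 hz).1
        rw [(mem_fb.1 hz).2]; exact h.1)
    rw [h.1, h.2.1] at this
    rw [h.1, h.2.1, h.2.2]
    have hF : FF 2 2 1 3 = 7 := by decide
    rw [hF]
    omega
  · -- full
    rw [block_nc_eq hUL E.hLJ]
    have := sum_rows_le E.hLJ X Y D θ (fun c => Nat.card U * (nc U (fb L X c) +
      nc U (fb L (sh D Y) c))) (2 * i) (4 * i) (fun c _ hc => E.fin_row1 hUL hnot hc)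
      (fun c _ _ => E.fin_row2 hUL c)
    rw [h.1, h.2.1] at this
    rw [h.1, h.2.1, h.2.2]
    have hF : FF 2 0 3 4 = 12 := by decide
    rw [hF]
    omega

/-- a block of the additional set -/
theorem EndG.fin_w (E : EndG X Y W D L R J i m) {U : AddSubgroup G} (hU : U ≤ L ⊓ R)
    {ν1 : G} (hIm0 : Im X Y D L ν1) (θ : G ⧸ J) :
    Nat.card U * nc U (fb J W θ) ≤ i * FF 2 (nc L (fb J W θ)) 0 (nc R (fb J W θ)) := by
  have hL : (L : Set G).Finite := E.hJ.subset E.hLJ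
  have hIf : ((L ⊓ R : AddSubgroup G) : Set G).Finite := hL.subset (fun x hx => hx.1)
  have hUJ : U ≤ J := hU.trans (inf_le_left.trans E.hLJ)
  rcases typ_cases ((E.blocks ν1 hIm0).typW θ) with h | h | h | h | h | h
  · rw [(nc_eq_zero (V := L)).1 h.1, nc_eq_zero.2 rfl]; simp
  · rw [h.1, h.2.2]
    have hF : FF 2 1 0 1 = 1 := by decide
    rw [hF, mul_one, ← E.hinf]
    apply nc_mul_le hIf hU
    intro a ha b hb
    exact ⟨diff_of_nc_one h.1.le ha hb, diff_of_nc_one h.2.2.le ha hb⟩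
  · rw [h.1, h.2.2]
    have hF : FF 2 3 0 2 = 6 := by decide
    rw [hF]
    have := nc_mul_le E.hJ hUJ (A := fb J W θ) (fun a ha b hb => fb_diff ha hb)
    rw [E.cardJ] at this
    omega
  · omega
  · omega
  · omega

theorem typ_FF {r1 r2 N : ℕ} (h : Typ 2 3 r1 r2 N) :
    (3 : ℤ) * N = FF 2 r1 r2 N + (3 * nn r1 r2 - (r1 + 2 * r2)) := by
  rcases typ_cases h with ⟨rfl, rfl, rfl⟩ | ⟨rfl, rfl, rfl⟩ | ⟨rfl, rfl, rfl⟩ | ⟨rfl, rfl, rfl⟩ |
    ⟨rfl, rfl, rfl⟩ | ⟨rfl, rfl, rfl⟩ <;> simp [nn, FF]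

/-- the final count -/
theorem EndG.final (E : EndG X Y W D L R J i m) {U : AddSubgroup G} (hU : U ≤ L ⊓ R)
    (hU3 : i ≤ 3 * Nat.card U) {ν1 : G} (hν1 : ν1 ∈ L ⊓ R)
    (hIm : ∀ u ∈ U, Im X Y D L (ν1 + u)) (hnot : ∀ u ∈ U, ¬ Im X Y D L u) : False := by
  classical
  have hIm0 : Im X Y D L ν1 := by
    have := hIm 0 U.zero_mem
    rwa [add_zero] at this
  have hUL : U ≤ L := hU.trans inf_le_left
  have hUJ : U ≤ J := hUL.trans E.hLJ
  have hνJ : ν1 ∈ J := E.hLJ hν1.1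
  have hB := E.blocks ν1 hIm0
  obtain ⟨Θ, hBΘ, hWΘ, h4, _⟩ := hB.four
  have hbad := E.badR ν1 hIm0
  have hgz := E.hm U hUL
  -- count of `U`-cosets
  have hXΘ : cl J X ⊆ Θ := (cl_mono (by intro x hx; exact mem_Bd.2 (Or.inl hx))).trans hBΘ
  have hYΘ : cl J (sh D Y) ⊆ Θ :=
    (cl_mono (by intro x hx; exact mem_Bd.2 (Or.inr (mem_sh.1 hx)))).trans hBΘ
  have c1 : Nat.card U * (nc U X + nc U Y) ≤ ∑ θ ∈ Θ, i * FF 2 (bR1 X Y D L J θ)
      (bR2 X Y D L J θ) (bN X Y (D + ν1) R J θ) := by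
    rw [← nc_sh U D Y, nc_eq_sum_fb hUJ X hXΘ, nc_eq_sum_fb hUJ (sh D Y) hYΘ,
      ← Finset.sum_add_distrib, Finset.mul_sum]
    apply Finset.sum_le_sum
    intro θ _
    exact E.fin_block hU hν1 hIm hnot hIm0 θ
  have c2 : Nat.card U * nc U W ≤ ∑ θ ∈ Θ, i * FF 2 (nc L (fb J W θ)) 0 (nc R (fb J W θ)) := by
    rw [nc_eq_sum_fb hUJ W hWΘ, Finset.mul_sum]
    apply Finset.sum_le_sum
    intro θ _
    exact E.fin_w hU hIm0 θ
  -- columns
  have s1 : ∑ θ ∈ Θ, (bN X Y (D + ν1) R J θ : ℤ) =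
      nc R (Bd X Y (D + ν1)) + nc R (Cd X Y (D + ν1)) := by
    have := sum_bN E.hRJ X Y (D + ν1) (Θ := Θ) (by rw [cl_Bd_add hνJ]; exact hBΘ)
    exact_mod_cast this
  have s2 : ∑ θ ∈ Θ, (nc R (fb J W θ) : ℤ) = nc R W := by
    have := nc_eq_sum_fb E.hRJ W hWΘ
    exact_mod_cast this.symm
  have t1 : (3 : ℤ) * ∑ θ ∈ Θ, (bN X Y (D + ν1) R J θ : ℤ) =
      ∑ θ ∈ Θ, (FF 2 (bR1 X Y D L J θ) (bR2 X Y D L J θ) (bN X Y (D + ν1) R J θ) : ℤ) +
      ∑ θ ∈ Θ, ((3 : ℤ) * nn (bR1 X Y D L J θ) (bR2 X Y D L J θ) -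
      (bR1 X Y D L J θ + 2 * bR2 X Y D L J θ)) := by
    rw [Finset.mul_sum, ← Finset.sum_add_distrib]
    apply Finset.sum_congr rfl
    intro θ _
    exact typ_FF (hB.typ θ)
  have t2 : (3 : ℤ) * ∑ θ ∈ Θ, (nc R (fb J W θ) : ℤ) =
      ∑ θ ∈ Θ, (FF 2 (nc L (fb J W θ)) 0 (nc R (fb J W θ)) : ℤ) +
      ∑ θ ∈ Θ, ((3 : ℤ) * nn (nc L (fb J W θ)) 0 - (nc L (fb J W θ))) := by
    rw [Finset.mul_sum, ← Finset.sum_add_distrib]
    apply Finset.sum_congr rfl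
    intro θ _
    have := typ_FF (hB.typW θ)
    push_cast at this ⊢
    linarith
  rw [s1] at t1
  rw [s2] at t2
  unfold gm at hbad
  unfold gz at hgz
  rw [E.cardR] at hbad
  have c1' : ((Nat.card U * (nc U X + nc U Y) : ℕ) : ℤ) ≤
      i * ∑ θ ∈ Θ, (FF 2 (bR1 X Y D L J θ) (bR2 X Y D L J θ) (bN X Y (D + ν1) R J θ) : ℤ) := by
    rw [Finset.mul_sum]
    exact_mod_cast c1
  have c2' : ((Nat.card U * nc U W : ℕ) : ℤ) ≤
      i * ∑ θ ∈ Θ, (FF 2 (nc L (fb J W θ)) 0 (nc R (fb J W θ)) : ℤ) := by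
    rw [Finset.mul_sum]
    exact_mod_cast c2
  set F1 := ∑ θ ∈ Θ, (FF 2 (bR1 X Y D L J θ) (bR2 X Y D L J θ) (bN X Y (D + ν1) R J θ) : ℤ)
  set F2 := ∑ θ ∈ Θ, (FF 2 (nc L (fb J W θ)) 0 (nc R (fb J W θ)) : ℤ)
  have hU3' : (i : ℤ) ≤ 3 * Nat.card U := by exact_mod_cast hU3
  have e1 : 3 * (((nc R (Bd X Y (D + ν1)) : ℤ) + nc R (Cd X Y (D + ν1))) + nc R W) =
      F1 + F2 + 4 := by linarith
  push_cast at hbad hgz c1' c2'
  have e2 : 2 * ((3 : ℤ) * i * (nc R (Bd X Y (D + ν1)) + nc R (Cd X Y (D + ν1)) + nc R W)) =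
      2 * i * (F1 + F2 + 4) := by rw [← e1]; ring
  nlinarith

end Pool.Agent.Lib.MP_09e095_co
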