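import Mathlib
import Pool.Agent.Lib.MP_09e095_co.CWEnd5

/-!
MP_09e095_co : the end game, case I.
-/

set_option autoImplicit false

open Finset
open scoped Pointwise

namespace Pool.Agent.Lib.MP_09e095_co

variable {G : Type*} [AddCommGroup G] [DecidableEq G]

variable {X Y W : Finset G} {D : G} {L R J : AddSubgroup G} {i : ℕ} {m : ℤ}

/-- content of the critical row plus the row of type 2 -/
theorem EndG.two_rows (E : EndG X Y W D L R J i m) {ν : G} (hν : Im X Y D L ν) {x z : G}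
    (hx : x ∈ Bd X Y D) (hxC : (QuotientAddGroup.mk x : G ⧸ L) ∉ cl L (Cd X Y D))
    (hx1 : bR1 X Y D L J (QuotientAddGroup.mk x) ≠ 1)
    (hz : z ∈ Cd X Y D) (hz1 : bR1 X Y D L J (QuotientAddGroup.mk z) = 2) :
    9 * i < 2 * (ct X Y D L (QuotientAddGroup.mk x) + ct X Y D L (QuotientAddGroup.mk z)) := by
  classical
  have hL : (L : Set G).Finite := E.hJ.subset E.hLJ
  have hzB := Cd_subset_Bd X Y D hz
  have hzC : (QuotientAddGroup.mk z : G ⧸ L) ∈ cl L (Cd X Y D) := mk_mem_cl hz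
  have hcx : (QuotientAddGroup.mk x : G ⧸ L) ∈ cl L (fb J (Bd X Y D) (QuotientAddGroup.mk x)) :=
    mk_mem_cl (mem_fb.2 ⟨hx, rfl⟩)
  have hcz : (QuotientAddGroup.mk z : G ⧸ L) ∈ cl L (fb J (Bd X Y D) (QuotientAddGroup.mk z)) :=
    mk_mem_cl (mem_fb.2 ⟨hzB, rfl⟩)
  have hi := E.hi
  have hr1 : 0 < bR1 X Y D L J (QuotientAddGroup.mk x) := bR1_pos E.hLJ hx hxC
  have hB := E.blocks ν hν
  have tz : bR2 X Y D L J (QuotientAddGroup.mk z) = 1 ∧
      bN X Y (D + ν) R J (QuotientAddGroup.mk z) = 3 := by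
    rcases E.types hν (QuotientAddGroup.mk z) with h | h | h | h | h <;> omega
  have hF7 : FF 2 2 1 3 = 7 := by decide
  have hF6 : FF 2 3 0 2 = 6 := by decide
  by_cases hθ : (QuotientAddGroup.mk x : G ⧸ J) = QuotientAddGroup.mk z
  · have hne : (QuotientAddGroup.mk x : G ⧸ L) ≠ QuotientAddGroup.mk z := by
      intro h; rw [h] at hxC; exact hxC hzC
    have h := row_ge (R := R) hL E.hLJ X Y hν.1 (QuotientAddGroup.mk z) (p := 2) E.hinf E.cardL
      {(QuotientAddGroup.mk x : G ⧸ L), QuotientAddGroup.mk z} (by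
        intro c hc
        rw [Finset.mem_insert, Finset.mem_singleton] at hc
        rcases hc with rfl | rfl
        · rw [← hθ]; exact hcx
        · exact hcz)
    rw [Finset.sum_pair hne, Finset.sum_pair hne] at h
    have e1 : (QuotientAddGroup.mk x : G ⧸ L) ∉
        cl L (fb J (Cd X Y D) (QuotientAddGroup.mk z)) := by
      intro h'
      rw [← hθ, mem_cl_fb E.hLJ hcx] at h'
      exact hxC h'
    have e2 : (QuotientAddGroup.mk z : G ⧸ L) ∈
        cl L (fb J (Cd X Y D) (QuotientAddGroup.mk z)) := (mem_cl_fb E.hLJ hcz).2 hzC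
    rw [if_neg e1, if_pos e2] at h
    have hdef := hB.deficit1 (QuotientAddGroup.mk z)
    rw [hz1, tz.1, tz.2] at h hdef
    rw [hF7] at hdef
    norm_num at h
    push_cast at hdef
    zify at h hi ⊢
    linarith
  · have hrx := E.row hν _ _ hcx
    have hrz := E.row hν _ _ hcz
    rw [if_neg hxC] at hrx
    rw [if_pos hzC] at hrz
    have hdef := hB.deficit2 hθ
    rw [hz1, tz.1, tz.2] at hrz hdef
    rw [hF7] at hdef
    rcases E.types hν (QuotientAddGroup.mk x) with h | h | h | h | h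
    · omega
    · exact absurd h.1 hx1
    · rw [h.1, h.2.1, h.2.2] at hrx hdef
      rw [hF6] at hdef
      norm_num at hrx hrz
      push_cast at hdef
      zify at hrx hrz hi ⊢
      linarith
    · rw [h.1, h.2.1, h.2.2] at hrx hdef
      rw [hF7] at hdef
      norm_num at hrx hrz
      push_cast at hdef
      zify at hrx hrz hi ⊢
      linarith
    · omega

/-- case I, the cell of `z'` is full -/
theorem EndG.caseI_aux (E : EndG X Y W D L R J i m) {x1 ν1 : G} (hx1 : x1 ∈ X)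
    (hν1 : ν1 ∈ L ⊓ R) (hxY : x1 + D + ν1 ∈ Y)
    (hxC : (QuotientAddGroup.mk x1 : G ⧸ L) ∉ cl L (Cd X Y D)) {θ : G ⧸ J}
    (h1 : bR1 X Y D L J θ = 2)
    {z z' : G} (hz : z ∈ fb J (Cd X Y D) θ) (hz' : z' ∈ fb J (Cd X Y D) θ) (hzL : z - z' ∈ L)
    (hzR : z - z' ∉ R)
    (hbig : i < (fb (L ⊓ R) X (QuotientAddGroup.mk z')).card +
      (fb (L ⊓ R) (sh D Y) (QuotientAddGroup.mk z')).card) : False := by
  classical
  have hL : (L : Set G).Finite := E.hJ.subset E.hLJ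
  have hIf : ((L ⊓ R : AddSubgroup G) : Set G).Finite := hL.subset (fun x hx => hx.1)
  have hnI : z - z' ∉ L ⊓ R := fun h => hzR h.2
  have hi := E.hi
  set x := fb (L ⊓ R) X (QuotientAddGroup.mk x1) with hxdef
  set y := fb (L ⊓ R) (sh D Y) (QuotientAddGroup.mk x1) with hydef
  set x' := fb (L ⊓ R) X (QuotientAddGroup.mk z) with hx'def
  set y' := fb (L ⊓ R) (sh D Y) (QuotientAddGroup.mk z) with hy'def
  have hIm1 : ∀ ν ∈ dP x y, Im X Y D L ν := by
    intro ν hν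
    have hνI : ν ∈ L ⊓ R := dP_subset (inC_fb (L ⊓ R) X (sh D Y) _) hν
    obtain ⟨a, ha, haY⟩ := mem_dP.1 hν
    apply E.im_of_hit hνI.1 (mem_fb.1 ha).1
    · have := mem_sh.1 (mem_fb.1 haY).1
      rw [add_right_comm]; exact this
    · have h2 : a - x1 ∈ L ⊓ R := sub_mem_of_mk_eq (mem_fb.1 ha).2
      rw [mk_eq_of_sub_mem h2.1]; exact hxC
  have hnot : ∀ ν ∈ dP x' y', ¬ Im X Y D L ν := by
    intro ν hν hIm
    have hνI : ν ∈ L ⊓ R := dP_subset (inC_fb (L ⊓ R) X (sh D Y) _) hν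
    obtain ⟨a, ha, haY⟩ := mem_dP.1 hν
    obtain ⟨b, hb, hbY⟩ := full_of_card hIf
      (inC_fb (L ⊓ R) X (sh D Y) (QuotientAddGroup.mk z')) (by rw [E.hinf]; exact hbig) hνI
    have haz : a - z ∈ L ⊓ R := sub_mem_of_mk_eq (mem_fb.1 ha).2
    have hbz : b - z' ∈ L ⊓ R := sub_mem_of_mk_eq (mem_fb.1 hb).2
    have hres := E.one_col hIm h1 (w := a) (w' := b) (mem_fb.1 ha).1
      (by have := mem_sh.1 (mem_fb.1 haY).1; rw [add_right_comm]; exact this)
      (mem_fb.1 hb).1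
      (by have := mem_sh.1 (mem_fb.1 hbY).1; rw [add_right_comm]; exact this)
      (by rw [← (mem_fb.1 hz).2]; exact mk_eq_of_sub_mem (E.hLJ haz.1))
      (by rw [← (mem_fb.1 hz').2]; exact mk_eq_of_sub_mem (E.hLJ hbz.1))
    apply hzR
    have e : z - z' = (a - b) - (a - z) + (b - z') := by abel
    rw [e]; exact R.add_mem (R.sub_mem hres haz.2) hbz.2
  have hmem1 : ν1 ∈ dP x y := by
    refine mem_dP.2 ⟨x1, mem_fb.2 ⟨hx1, rfl⟩, mem_fb.2 ⟨mem_sh.2 ?_, ?_⟩⟩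
    · rw [add_right_comm]; exact hxY
    · exact mk_eq_of_sub_mem (by simpa using hν1)
  have hzC := mem_Cd.1 (mem_fb.1 hz).1
  have hmem0 : (0 : G) ∈ dP x' y' := by
    refine mem_dP.2 ⟨z, mem_fb.2 ⟨hzC.1, rfl⟩, mem_fb.2 ⟨mem_sh.2 ?_, ?_⟩⟩
    · rw [add_zero]; exact hzC.2
    · rw [add_zero]
  have ne1 : x.Nonempty := by obtain ⟨a, ha, _⟩ := mem_dP.1 hmem1; exact ⟨a, ha⟩
  have ne2 : y.Nonempty := by obtain ⟨a, _, ha⟩ := mem_dP.1 hmem1; exact ⟨_, ha⟩
  have ne3 : x'.Nonempty := by obtain ⟨a, ha, _⟩ := mem_dP.1 hmem0; exact ⟨a, ha⟩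
  have ne4 : y'.Nonempty := by obtain ⟨a, _, ha⟩ := mem_dP.1 hmem0; exact ⟨_, ha⟩
  have hdisj : Disjoint (dP x y) (dP x' y') := by
    rw [Finset.disjoint_left]
    intro ν h2 h3
    exact hnot ν h3 (hIm1 ν h2)
  -- contents
  have hIm : Im X Y D L ν1 := hIm1 ν1 hmem1
  have hx1B : x1 ∈ Bd X Y D := mem_Bd.2 (Or.inl hx1)
  have hr1 : bR1 X Y D L J (QuotientAddGroup.mk x1) ≠ 1 := by
    intro h2
    have hr2 : bR2 X Y D L J (QuotientAddGroup.mk x1) = 0 := by
      rcases E.types hIm (QuotientAddGroup.mk x1) with h | h | h | h | h <;> omega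
    refine E.T1_not_critical h2 hr2 (mem_fb.2 ⟨hx1, rfl⟩) (y := x1 + ν1)
      (mem_fb.2 ⟨mem_sh.2 ?_, mk_eq_of_sub_mem ?_⟩)
    · rw [add_right_comm]; exact hxY
    · simpa using E.hLJ hν1.1
  have hz1 : bR1 X Y D L J (QuotientAddGroup.mk z) = 2 := by
    rw [(mem_fb.1 hz).2]; exact h1
  have hrows := E.two_rows hIm hx1B hxC hr1 (mem_fb.1 hz).1 hz1
  obtain ⟨u, hu, hu'⟩ := exists_not_mem hL (inf_le_left : L ⊓ R ≤ L) E.cardL'
  have hw1 : x1 - (x1 - u) ∈ L := by rw [sub_sub_cancel]; exact hu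
  have hw2 : x1 - (x1 - u) ∉ L ⊓ R := by rw [sub_sub_cancel]; exact hu'
  rw [E.ct_cells hw1 hw2, E.ct_cells hzL hnI] at hrows
  have hother : (fb (L ⊓ R) X (QuotientAddGroup.mk (x1 - u))).card +
      (fb (L ⊓ R) (sh D Y) (QuotientAddGroup.mk (x1 - u))).card ≤ i := by
    have hd : Disjoint (fb (L ⊓ R) X (QuotientAddGroup.mk (x1 - u)))
        (fb (L ⊓ R) (sh D Y) (QuotientAddGroup.mk (x1 - u))) := by
      rw [Finset.disjoint_left]
      intro a ha ha'
      apply hxC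
      have h2 : a - (x1 - u) ∈ L ⊓ R := sub_mem_of_mk_eq (mem_fb.1 ha).2
      refine mem_cl_Cd.2 ⟨a, (mem_fb.1 ha).1, ?_, mem_sh.1 (mem_fb.1 ha').1⟩
      apply mk_eq_of_sub_mem
      have e : a - x1 = (a - (x1 - u)) - u := by abel
      rw [e]; exact L.sub_mem h2.1 hu
    rw [← Finset.card_union_of_disjoint hd, ← E.hinf]
    apply card_le_of_coset hIf
    intro a ha b hb
    exact (inC_fb (L ⊓ R) X (sh D Y) (QuotientAddGroup.mk (x1 - u))).sub_mem ha hb
  have hbt1 := card_fb_le hIf X (QuotientAddGroup.mk z' : G ⧸ (L ⊓ R))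
  have hbt2 := card_fb_le hIf (sh D Y) (QuotientAddGroup.mk z' : G ⧸ (L ⊓ R))
  rw [E.hinf] at hbt1 hbt2
  have hb : 3 * Nat.card (L ⊓ R : AddSubgroup G) <
      2 * (x.card + y.card + (x'.card + y'.card)) := by
    rw [E.hinf, hxdef, hydef, hx'def, hy'def]; omega
  obtain ⟨hst, h3⟩ := pair_lemma hIf
    (fun V V' hV hV' h => E.hcyc V V' (hV.trans inf_le_left) (hV'.trans inf_le_left) h)
    (inC_fb (L ⊓ R) X (sh D Y) (QuotientAddGroup.mk x1))
    (inC_fb (L ⊓ R) X (sh D Y) (QuotientAddGroup.mk z)) ne1 ne2 ne3 ne4 hdisj hb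
  have hUI : stb (dP x y) ≤ L ⊓ R := stb_dP_le (inC_fb (L ⊓ R) X (sh D Y) _) ne1 ne2
  rw [E.hinf] at h3
  apply E.final hUI h3 hν1
  · intro u hu
    apply hIm1
    have := (hu ν1).1 hmem1
    rwa [add_comm] at this
  · intro u hu
    apply hnot
    rw [hst] at hu
    have := (hu 0).1 hmem0
    rwa [add_zero] at this

/-- the contradiction -/
theorem EndG.false (E : EndG X Y W D L R J i m) : False := by
  classical
  by_cases hII : ∀ x ∈ X, ∀ ν ∈ L ⊓ R, x + D + ν ∈ Y →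
      (QuotientAddGroup.mk x : G ⧸ L) ∈ cl L (Cd X Y D)
  · exact E.caseII hII
  · push Not at hII
    obtain ⟨x1, hx1, ν1, hν1, hxY, hxC⟩ := hII
    obtain ⟨θ, z, z', h1, h2, hz, hz', hzL, hzR⟩ := E.gain_cells
    have hnI : z - z' ∉ L ⊓ R := fun h => hzR h.2
    have hct := E.row_C (Cd_subset_Bd X Y D (mem_fb.1 hz).1) (mk_mem_cl (mem_fb.1 hz).1)
    rw [E.ct_cells hzL hnI] at hct
    have hcase : i < (fb (L ⊓ R) X (QuotientAddGroup.mk z')).card +
      (fb (L ⊓ R) (sh D Y) (QuotientAddGroup.mk z')).card ∨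
      i < (fb (L ⊓ R) X (QuotientAddGroup.mk z)).card +
      (fb (L ⊓ R) (sh D Y) (QuotientAddGroup.mk z)).card := by omega
    rcases hcase with h | h
    · exact E.caseI_aux hx1 hν1 hxY hxC h1 hz hz' hzL hzR h
    · refine E.caseI_aux hx1 hν1 hxY hxC h1 hz' hz ?_ ?_ h
      · have : z' - z = -(z - z') := by abel
        rw [this]; exact L.neg_mem hzL
      · intro hcon
        apply hzR
        have : z - z' = -(z' - z) := by abel
        rw [this]; exact R.neg_mem hcon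

end Pool.Agent.Lib.MP_09e095_co
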