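import Mathlib
import Pool.Agent.Lib.MP_09e095_co.CWImp

/-!
MP_09e095_co : if `D` is bad at `L`, some `D + ν`, `ν ∈ L`, is better at `L`.
-/

set_option autoImplicit false

open Finset
open scoped Pointwise

namespace Pool.Agent.Lib.MP_09e095_co

variable {G : Type*} [AddCommGroup G] [DecidableEq G]

/-- existence of a critical coset -/
theorem exists_crit {L : AddSubgroup G} (hL : (L : Set G).Finite) {X Y W : Finset G} {D : G}
    (h : gm X Y W L D < gz X Y W L) :
    ∃ κ, κ ∉ cl L (Cd X Y D) ∧ (fb L X κ).Nonempty ∧ (fb L (sh D Y) κ).Nonempty := by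
  classical
  have hpos := cwCard_pos hL
  unfold gm gz at h
  have h1 : nc L (Bd X Y D) + nc L (Cd X Y D) < nc L X + nc L Y := by
    by_contra hcon
    push Not at hcon
    have h2 : Nat.card L * (nc L X + nc L Y + nc L W) ≤
        Nat.card L * (nc L (Bd X Y D) + nc L (Cd X Y D) + nc L W) :=
      Nat.mul_le_mul_left _ (by omega)
    have h3 : ((Nat.card L * (nc L X + nc L Y + nc L W) : ℕ) : ℤ) ≤
        (Nat.card L * (nc L (Bd X Y D) + nc L (Cd X Y D) + nc L W) : ℕ) := by exact_mod_cast h2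
    linarith
  rw [← nc_sh L D Y] at h1
  have h2 : nc L (Bd X Y D) = (cl L X ∪ cl L (sh D Y)).card := by
    unfold nc Bd; rw [cl_union]
  have h3 := Finset.card_union_add_card_inter (cl L X) (cl L (sh D Y))
  have h4 : (cl L (Cd X Y D)).card < (cl L X ∩ cl L (sh D Y)).card := by
    unfold nc at h1 h2
    omega
  obtain ⟨κ, hκ, hκ'⟩ := Finset.exists_mem_notMem_of_card_lt_card h4
  rw [Finset.mem_inter] at hκ
  exact ⟨κ, hκ', fb_nonempty_iff.2 hκ.1, fb_nonempty_iff.2 hκ.2⟩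

/-- the arithmetic at the end -/
theorem improve_arith {l t u P0 Pk s0 sk : ℕ} (hu : u ≤ Pk) (hpos : 0 < u)
    (htl : t ∣ l) (htP : t ∣ P0) (hP : P0 + Pk ≤ l) (hlt : l + t < 2 * P0)
    (h0 : s0 ≤ P0 + t) (hk : sk ≤ Pk + u) (hh : 3 * l < 2 * (s0 + sk)) : False := by
  obtain ⟨a, rfl⟩ := htl
  obtain ⟨i, rfl⟩ := htP
  rcases Nat.eq_zero_or_pos t with rfl | htpos
  · simp at hlt
  have h1 : a + 1 < 2 * i := by
    by_contra hcon
    push Not at hcon
    have : t * (2 * i) ≤ t * (a + 1) := Nat.mul_le_mul_left _ hcon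
    nlinarith
  have h2 : t * (a + 2) ≤ t * (2 * i) := Nat.mul_le_mul_left _ h1
  nlinarith

/-- the main improvement lemma -/
theorem improve {L : AddSubgroup G} (hL : (L : Set G).Finite) {X Y W : Finset G} {D : G}
    {m : ℤ} (hm : ∀ V ≤ L, m ≤ gz X Y W V) (hbad : gm X Y W L D < m) :
    ∃ ν ∈ L, cl L (Cd X Y D) ⊆ cl L (Cd X Y (D + ν)) ∧
      cl L (Cd X Y D) ≠ cl L (Cd X Y (D + ν)) := by
  classical
  obtain ⟨κ, hκ, hκx, hκy⟩ := exists_crit hL (lt_of_lt_of_le hbad (hm L le_rfl))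
  by_contra hno
  push Not at hno
  -- for a critical coset hit by `ν`, some coset of `C` is lost
  have lost : ∀ ν ∈ L, ∀ κ', κ' ∉ cl L (Cd X Y D) → ν ∈ dP (fb L X κ') (fb L (sh D Y) κ') →
      ∃ θ ∈ cl L (Cd X Y D), ν ∉ dP (fb L X θ) (fb L (sh D Y) θ) := by
    intro ν hν κ' hκ' hhit
    by_contra hcon
    push Not at hcon
    have hsub : cl L (Cd X Y D) ⊆ cl L (Cd X Y (D + ν)) := by
      intro θ hθ
      exact (mem_cl_Cd_add hν).2 (hcon θ hθ)
    have := hno ν hν hsub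
    rw [this] at hκ'
    exact hκ' ((mem_cl_Cd_add hν).2 hhit)
  have hl := cwCard_pos hL
  set l := Nat.card L with hldef
  -- hole bounds
  have hbot : gm X Y W L D < gz X Y W ⊥ := lt_of_lt_of_le hbad (hm ⊥ bot_le)
  have hholes := holes_of_bad hL hbot
  obtain ⟨ν1, hν1⟩ := dP_nonempty hκx hκy
  have hν1L : ν1 ∈ L := dP_subset (inC_fb L X (sh D Y) κ) hν1
  obtain ⟨θ0, hθ0, hθ0'⟩ := lost ν1 hν1L κ hκ hν1
  have small0 : ct X Y D L θ0 ≤ l := by
    by_contra hcon
    push Not at hcon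
    apply hθ0'
    exact mem_dP.2 (full_of_card hL (inC_fb L X (sh D Y) θ0) hcon hν1L)
  have hCB := cl_mono (V := L) (Cd_subset_Bd X Y D)
  have big : ∀ θ ∈ cl L (Cd X Y D), θ ≠ θ0 → l < ct X Y D L θ := by
    intro θ hθ hne
    by_contra hcon
    push Not at hcon
    have h := cwHole_le hL (X := X) (Y := Y) (D := D) {θ0, θ} (by
      intro z hz
      rw [Finset.mem_insert, Finset.mem_singleton] at hz
      rcases hz with rfl | rfl
      · exact hCB hθ0
      · exact hCB hθ)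
    rw [Finset.sum_pair hne.symm, ty_of_mem_Cd hθ0, ty_of_mem_Cd hθ] at h
    rw [← hldef] at h
    push_cast at h hholes
    zify at small0 hcon hholes hl
    nlinarith
  have hit_all : ∀ θ ∈ cl L (Cd X Y D), θ ≠ θ0 → ∀ ν ∈ L,
      ν ∈ dP (fb L X θ) (fb L (sh D Y) θ) := by
    intro θ hθ hne ν hν
    exact mem_dP.2 (full_of_card hL (inC_fb L X (sh D Y) θ) (big θ hθ hne) hν)
  have lost0 : ∀ ν ∈ L, ∀ κ', κ' ∉ cl L (Cd X Y D) → ν ∈ dP (fb L X κ') (fb L (sh D Y) κ') →
      ν ∉ dP (fb L X θ0) (fb L (sh D Y) θ0) := by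
    intro ν hν κ' hκ' hhit
    obtain ⟨θ, hθ, hθ'⟩ := lost ν hν κ' hκ' hhit
    by_cases hne : θ = θ0
    · rw [← hne]; exact hθ'
    · exact absurd (hit_all θ hθ hne ν hν) hθ'
  -- the two difference sets
  set P0 := dP (fb L X θ0) (fb L (sh D Y) θ0) with hP0
  set Pk := dP (fb L X κ) (fb L (sh D Y) κ) with hPk
  have h0mem : (0 : G) ∈ P0 := mem_cl_Cd_zero.1 hθ0
  have hx0 : (fb L X θ0).Nonempty := by
    obtain ⟨a, ha, _⟩ := mem_dP.1 h0mem; exact ⟨a, ha⟩
  have hy0 : (fb L (sh D Y) θ0).Nonempty := by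
    obtain ⟨a, _, ha⟩ := mem_dP.1 h0mem; exact ⟨_, ha⟩
  have hP0L : ∀ ν ∈ P0, ν ∈ L := fun ν hν => dP_subset (inC_fb L X (sh D Y) θ0) hν
  have hPkL : ∀ ν ∈ Pk, ν ∈ L := fun ν hν => dP_subset (inC_fb L X (sh D Y) κ) hν
  have hdisj : Disjoint P0 Pk := by
    rw [Finset.disjoint_left]
    intro ν h1 h2
    exact lost0 ν (hP0L ν h1) κ hκ h2 h1
  have hsum : P0.card + Pk.card ≤ l := by
    rw [← Finset.card_union_of_disjoint hdisj]
    apply card_le_of_coset hL
    have key : ∀ z ∈ P0 ∪ Pk, z ∈ L := by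
      intro z hz
      rcases Finset.mem_union.1 hz with h | h
      · exact hP0L z h
      · exact hPkL z h
    intro a ha b hb
    exact L.sub_mem (key a ha) (key b hb)
  set T := stb P0 with hT
  have hTL : T ≤ L := stb_dP_le (inC_fb L X (sh D Y) θ0) hx0 hy0
  have hTfin : (T : Set G).Finite := hL.subset hTL
  have hTP : ∀ t ∈ T, t ∈ P0 := by
    intro t ht
    have := (ht 0).1 h0mem
    rwa [add_zero] at this
  have hK0 : Nat.card T * (nc T (fb L X θ0) + nc T (fb L (sh D Y) θ0)) ≤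
      P0.card + Nat.card T := kneser_dP hx0 hy0
  have hKk : Nat.card (stb Pk) * (nc (stb Pk) (fb L X κ) + nc (stb Pk) (fb L (sh D Y) κ)) ≤
      Pk.card + Nat.card (stb Pk) := kneser_dP hκx hκy
  have hPkne : Pk.Nonempty := ⟨ν1, hν1⟩
  have hP0ne : P0.Nonempty := ⟨0, h0mem⟩
  have hUfin : (stb Pk : Set G).Finite := stb_finite hPkne
  -- the value at `T`
  have hgT := lt_of_lt_of_le hbad (hm T hTL)
  have hmain : l + Nat.card T < 2 * P0.card := by
    -- sum over cosets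
    have hXT : nc T X = ∑ θ ∈ cl L (Bd X Y D), nc T (fb L X θ) :=
      nc_eq_sum_fb hTL X (cl_mono (by intro x hx; exact mem_Bd.2 (Or.inl hx)))
    have hYT : nc T Y = ∑ θ ∈ cl L (Bd X Y D), nc T (fb L (sh D Y) θ) := by
      rw [← nc_sh T D Y]
      exact nc_eq_sum_fb hTL _ (cl_mono (by
        intro x hx; exact mem_Bd.2 (Or.inr (mem_sh.1 hx))))
    have hbound : ∀ θ ∈ cl L (Bd X Y D), θ ≠ θ0 →
        Nat.card T * (nc T (fb L X θ) + nc T (fb L (sh D Y) θ)) ≤ l * ty X Y D L θ := by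
      intro θ hθ hne
      by_cases hC : θ ∈ cl L (Cd X Y D)
      · rw [ty_of_mem_Cd hC]
        have h1 : Nat.card T * nc T (fb L X θ) ≤ l := nc_mul_le hL hTL
          (fun a ha b hb => sub_mem_of_mk_eq ((mem_fb.1 ha).2.trans (mem_fb.1 hb).2.symm))
        have h2 : Nat.card T * nc T (fb L (sh D Y) θ) ≤ l := nc_mul_le hL hTL
          (fun a ha b hb => sub_mem_of_mk_eq ((mem_fb.1 ha).2.trans (mem_fb.1 hb).2.symm))
        rw [mul_add]; omega
      · rw [ty_of_not_mem_Cd hC hθ, mul_one]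
        apply nc_add_le_of_disjoint hL hTL (inC_fb L X (sh D Y) θ)
        intro t ht a ha hb
        exact lost0 t (hTL ht) θ hC (mem_dP.2 ⟨a, ha, hb⟩) (hTP t ht)
    have hθ0B := hCB hθ0
    have hsumle : Nat.card T * (nc T X + nc T Y) + 2 * l ≤
        l * (nc L (Bd X Y D) + nc L (Cd X Y D)) + (P0.card + Nat.card T) := by
      rw [hXT, hYT, ← Finset.sum_add_distrib, Finset.mul_sum, ← sum_ty, Finset.mul_sum,
        ← Finset.add_sum_erase _ _ hθ0B, ← Finset.add_sum_erase (cl L (Bd X Y D))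
          (fun θ => l * ty X Y D L θ) hθ0B, ty_of_mem_Cd hθ0]
      have h3 : ∑ θ ∈ (cl L (Bd X Y D)).erase θ0,
          Nat.card T * (nc T (fb L X θ) + nc T (fb L (sh D Y) θ)) ≤
          ∑ θ ∈ (cl L (Bd X Y D)).erase θ0, l * ty X Y D L θ := by
        apply Finset.sum_le_sum
        intro θ hθ
        exact hbound θ (Finset.mem_of_mem_erase hθ) (Finset.ne_of_mem_erase hθ)
      omega
    have hW : Nat.card T * nc T W ≤ l * nc L W := mul_nc_mono hL hTL W
    unfold gm gz at hgT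
    rw [← hldef] at hgT
    rw [mul_add] at hsumle
    push_cast at hgT
    zify at hsumle hW ⊢
    nlinarith
  -- contents
  have hs0 : ct X Y D L θ0 ≤ P0.card + Nat.card T := by
    refine le_trans ?_ hK0
    unfold ct
    rw [mul_add]
    exact Nat.add_le_add (card_le_mul_nc hTfin _) (card_le_mul_nc hTfin _)
  have hsk : ct X Y D L κ ≤ Pk.card + Nat.card (stb Pk) := by
    refine le_trans ?_ hKk
    unfold ct
    rw [mul_add]
    exact Nat.add_le_add (card_le_mul_nc hUfin _) (card_le_mul_nc hUfin _)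
  have hκB : κ ∈ cl L (Bd X Y D) := by
    apply cl_mono (A := X) (by intro x hx; exact mem_Bd.2 (Or.inl hx))
    exact fb_nonempty_iff.1 hκx
  have hκ0 : θ0 ≠ κ := by rintro rfl; exact hκ hθ0
  have hh : 3 * l < 2 * (ct X Y D L θ0 + ct X Y D L κ) := by
    have h := cwHole_le hL (X := X) (Y := Y) (D := D) {θ0, κ} (by
      intro z hz
      rw [Finset.mem_insert, Finset.mem_singleton] at hz
      rcases hz with rfl | rfl
      · exact hCB hθ0
      · exact hκB)
    rw [Finset.sum_pair hκ0, ty_of_mem_Cd hθ0, ty_of_not_mem_Cd hκ hκB, ← hldef] at h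
    push_cast at h hholes
    zify at hholes ⊢
    nlinarith
  exact improve_arith (t := Nat.card T) (u := Nat.card (stb Pk)) (l := l)
    (P0 := P0.card) (Pk := Pk.card)
    (Nat.le_of_dvd (Finset.card_pos.2 hPkne) (stb_dvd_card hPkne)) (cwCard_pos hUfin)
    (cwCard_dvd hTL) (stb_dvd_card hP0ne) hsum hmain hs0 hsk hh

end Pool.Agent.Lib.MP_09e095_co
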