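import Mathlib
import Pool.Agent.Lib.MP_09e095_co.CWEnd6
import Pool.Agent.Lib.MP_09e095_co.CWImp2

/-!
MP_09e095_co : existence of a good difference `D` for two layers `X`, `Y` (and further layers
`W`), if all subgroups of `K` of the same order are equal (e.g. `K` cyclic).
-/

set_option autoImplicit false

open Finset
open scoped Pointwise

namespace Pool.Agent.Lib.MP_09e095_co

variable {G : Type*} [AddCommGroup G] [DecidableEq G]

theorem card_sup_mul_inf (L R : AddSubgroup G) :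
    Nat.card (L ⊔ R : AddSubgroup G) * Nat.card (L ⊓ R : AddSubgroup G) =
      Nat.card L * Nat.card R := by
  have h1 : (⊥ : AddSubgroup G).relIndex R * R.relIndex (L ⊔ R) =
      (⊥ : AddSubgroup G).relIndex (L ⊔ R) :=
    AddSubgroup.relIndex_mul_relIndex ⊥ R (L ⊔ R) bot_le le_sup_right
  have h2 : (⊥ : AddSubgroup G).relIndex (L ⊓ R) * (L ⊓ R).relIndex L =
      (⊥ : AddSubgroup G).relIndex L :=
    AddSubgroup.relIndex_mul_relIndex ⊥ (L ⊓ R) L bot_le inf_le_left
  rw [AddSubgroup.relIndex_sup_right] at h1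
  rw [AddSubgroup.inf_relIndex_left] at h2
  rw [AddSubgroup.relIndex_bot_left, AddSubgroup.relIndex_bot_left] at h1 h2
  rw [← h1, ← h2]
  ring

theorem gm_mono {X Y W : Finset G} {D ν : G} {L R : AddSubgroup G} (hLR : L ≤ R) (hν : ν ∈ L)
    (hsub : cl L (Cd X Y D) ⊆ cl L (Cd X Y (D + ν))) :
    gm X Y W R D ≤ gm X Y W R (D + ν) := by
  have h1 : nc R (Bd X Y (D + ν)) = nc R (Bd X Y D) := by
    unfold nc; rw [cl_Bd_add (hLR hν)]
  have h2 : nc R (Cd X Y D) ≤ nc R (Cd X Y (D + ν)) := by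
    apply Finset.card_le_card
    intro c hc
    obtain ⟨x, hx, rfl⟩ := mem_cl.1 hc
    obtain ⟨y, hy, h⟩ := mem_cl.1 (hsub (mk_mem_cl (V := L) hx))
    exact mem_cl.2 ⟨y, hy, mk_eq_of_sub_mem (hLR (sub_mem_of_mk_eq h))⟩
  unfold gm
  rw [h1]
  have h3 : Nat.card R * (nc R (Bd X Y D) + nc R (Cd X Y D) + nc R W) ≤
      Nat.card R * (nc R (Bd X Y D) + nc R (Cd X Y (D + ν)) + nc R W) :=
    Nat.mul_le_mul_left _ (by omega)
  have h4 : ((Nat.card R * (nc R (Bd X Y D) + nc R (Cd X Y D) + nc R W) : ℕ) : ℤ) ≤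
      (Nat.card R * (nc R (Bd X Y D) + nc R (Cd X Y (D + ν)) + nc R W) : ℕ) := by
    exact_mod_cast h3
  linarith

theorem card_lt_of_lt {V V' : AddSubgroup G} (hV' : (V' : Set G).Finite) (h : V < V') :
    Nat.card V < Nat.card V' := by
  rcases lt_or_eq_of_le (natCard_le hV' h.le) with h1 | h1
  · exact h1
  · exfalso
    have : Finite V' := hV'.to_subtype
    have h2 := AddSubgroup.eq_of_le_of_card_ge h.le h1.ge
    exact h.ne h2

/-- Existence of a good difference. -/
theorem combW (K : AddSubgroup G) (hK : (K : Set G).Finite)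
    (hcyc : ∀ V V' : AddSubgroup G, V ≤ K → V' ≤ K → Nat.card V = Nat.card V' → V = V')
    (X Y W : Finset G) (hX : X.Nonempty) (hY : Y.Nonempty) (m : ℤ)
    (hm : ∀ V ≤ K, m ≤ gz X Y W V) :
    ∃ D, (Cd X Y D).Nonempty ∧ ∀ V ≤ K, m ≤ gm X Y W V D := by
  classical
  by_contra hno
  push Not at hno
  -- bad subgroups
  let bad : G → AddSubgroup G → Prop := fun D V => V ≤ K ∧ gm X Y W V D < m
  have hbad : ∀ D, (Cd X Y D).Nonempty → ∃ V, bad D V := fun D hD => by
    obtain ⟨V, h1, h2⟩ := hno D hD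
    exact ⟨V, h1, h2⟩
  have hfin : ∀ V : AddSubgroup G, V ≤ K → (V : Set G).Finite := fun V hV => hK.subset hV
  -- the maximal order of a bad subgroup
  have hmax : ∀ D, (Cd X Y D).Nonempty → ∃ V, bad D V ∧ ∀ V', bad D V' →
      Nat.card V' ≤ Nat.card V := by
    intro D hD
    obtain ⟨V0, hV0⟩ := hbad D hD
    let P : ℕ → Prop := fun n => ∃ V, bad D V ∧ Nat.card V = n
    have hP : ∃ n, P n ∧ ∀ n', P n' → n' ≤ n := by
      have hbdd : ∀ n, P n → n ≤ Nat.card K := by
        rintro n ⟨V, hV, rfl⟩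
        exact natCard_le hK hV.1
      have hne : ∃ n, P n := ⟨_, V0, hV0, rfl⟩
      refine ⟨Nat.findGreatest P (Nat.card K), ?_, ?_⟩
      · obtain ⟨n, hn⟩ := hne
        exact Nat.findGreatest_spec (hbdd n hn) hn
      · intro n' hn'
        exact Nat.le_findGreatest (hbdd n' hn') hn'
    obtain ⟨n, ⟨V, hV, rfl⟩, h2⟩ := hP
    exact ⟨V, hV, fun V' hV' => h2 _ ⟨V', hV', rfl⟩⟩
  -- minimal such order
  let Q : ℕ → Prop := fun n => ∃ D V, (Cd X Y D).Nonempty ∧ bad D V ∧ Nat.card V = n ∧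
    ∀ V', bad D V' → Nat.card V' ≤ n
  have hQ : ∃ n, Q n := by
    obtain ⟨x, hx⟩ := hX
    obtain ⟨y, hy⟩ := hY
    have hD : (Cd X Y (y - x)).Nonempty :=
      ⟨x, mem_Cd.2 ⟨hx, by rw [add_sub_cancel]; exact hy⟩⟩
    obtain ⟨V, h1, h2⟩ := hmax _ hD
    exact ⟨_, y - x, V, hD, h1, rfl, h2⟩
  set n := Nat.find hQ with hn
  have hQn : Q n := Nat.find_spec hQ
  have hQmin : ∀ n', Q n' → n ≤ n' := fun n' h => Nat.find_min' hQ h
  obtain ⟨D1, L, hD1, hL1, hLn, hL1max⟩ := hQn
  -- maximal number of cosets of `L`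
  let T : ℕ → Prop := fun k => ∃ D, (Cd X Y D).Nonempty ∧ bad D L ∧
    (∀ V', bad D V' → Nat.card V' ≤ n) ∧ nc L (Cd X Y D) = k
  have hT : ∃ k, T k ∧ ∀ k', T k' → k' ≤ k := by
    have hbdd : ∀ k, T k → k ≤ X.card := by
      rintro k ⟨D, _, _, _, rfl⟩
      exact (nc_le_card _ _).trans (Finset.card_le_card Finset.inter_subset_left)
    have hne : T (nc L (Cd X Y D1)) := ⟨D1, hD1, hL1, hL1max, rfl⟩
    refine ⟨Nat.findGreatest T X.card, ?_, ?_⟩
    · exact Nat.findGreatest_spec (hbdd _ hne) hne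
    · intro k' hk'
      exact Nat.le_findGreatest (hbdd k' hk') hk'
  obtain ⟨k, ⟨D, hD, hDL, hDmax, hDk⟩, hkmax⟩ := hT
  have hLK : L ≤ K := hDL.1
  have hLfin : (L : Set G).Finite := hfin L hLK
  -- `D` is good above `n`
  have hgood : ∀ V ≤ K, n < Nat.card V → m ≤ gm X Y W V D := by
    intro V hV hlt
    by_contra hcon
    push Not at hcon
    have := hDmax V ⟨hV, hcon⟩
    omega
  -- improvements are bad at a larger subgroup
  have himp : ∀ ν, Im X Y D L ν → ∃ R ≤ K, gm X Y W R (D + ν) < m ∧ n < Nat.card R ∧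
      ¬ L ≤ R := by
    intro ν hν
    have hD' : (Cd X Y (D + ν)).Nonempty := by
      obtain ⟨x, hx, hxY, _⟩ := hν.new
      exact ⟨x, mem_Cd.2 ⟨hx, by rw [← add_assoc]; exact hxY⟩⟩
    obtain ⟨R, hR1, hR2⟩ := hmax _ hD'
    have hge : n ≤ Nat.card R := hQmin _ ⟨D + ν, R, hD', hR1, rfl, hR2⟩
    have hne : Nat.card R ≠ n := by
      intro heq
      have hRL : R = L := hcyc R L hR1.1 hLK (by rw [heq, hLn])
      have h1 : T (nc L (Cd X Y (D + ν))) := by
        refine ⟨D + ν, hD', ?_, ?_, rfl⟩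
        · rw [← hRL]; exact hR1
        · intro V' hV'
          rw [← heq]; exact hR2 V' hV'
      have h2 := hkmax _ h1
      have h3 : (cl L (Cd X Y D)).card < (cl L (Cd X Y (D + ν))).card := by
        apply Finset.card_lt_card
        exact Finset.ssubset_iff_subset_ne.2 ⟨hν.2.1, hν.2.2⟩
      unfold nc at h2 hDk
      omega
    have hgt : n < Nat.card R := by omega
    refine ⟨R, hR1.1, hR1.2, hgt, ?_⟩
    intro hLR
    have h1 := hgood R hR1.1 hgt
    have h2 := gm_mono (W := W) hLR hν.1 hν.2.1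
    have h3 := hR1.2
    linarith
  -- the block structure
  have hblock : ∀ ν, Im X Y D L ν → ∀ R ≤ K, gm X Y W R (D + ν) < m → n < Nat.card R →
      ¬ L ≤ R → Blocks X Y W D ν L R (L ⊔ R) (Nat.card (L ⊓ R : AddSubgroup G)) := by
    intro ν hν R hRK hRbad hRn hLR
    have hRfin := hfin R hRK
    have hJK : L ⊔ R ≤ K := sup_le hLK hRK
    have hJfin := hfin _ hJK
    have hIfin : ((L ⊓ R : AddSubgroup G) : Set G).Finite := hLfin.subset (fun x hx => hx.1)
    have hi := cwCard_pos hIfin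
    obtain ⟨p, hp⟩ := cwCard_dvd (inf_le_left : L ⊓ R ≤ L)
    obtain ⟨q, hq⟩ := cwCard_dvd (inf_le_right : L ⊓ R ≤ R)
    set i := Nat.card (L ⊓ R : AddSubgroup G) with hidef
    have hprod := card_sup_mul_inf L R
    rw [← hidef] at hprod
    have hJcard : Nat.card (L ⊔ R : AddSubgroup G) = p * q * i := by
      have h1 : Nat.card (L ⊔ R : AddSubgroup G) * i = (p * q * i) * i := by
        rw [hprod, hp, hq]; ring
      exact Nat.eq_of_mul_eq_mul_right hi h1
    have hp2 : 2 ≤ p := by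
      by_contra hcon
      have hI : L ⊓ R < L := lt_of_le_of_ne inf_le_left (fun h => hLR (by
        rw [← h]; exact inf_le_right))
      have h1 := card_lt_of_lt hLfin hI
      rw [← hidef, hp] at h1
      have h2 : p = 0 ∨ p = 1 := by omega
      rcases h2 with rfl | rfl
      · simp at h1
      · simp at h1
    have hpq : p < q := by
      by_contra hcon
      push Not at hcon
      have h1 : Nat.card R ≤ Nat.card L := by
        rw [hp, hq]; exact Nat.mul_le_mul_left _ hcon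
      omega
    have hJn : n < Nat.card (L ⊔ R : AddSubgroup G) :=
      lt_of_lt_of_le hRn (natCard_le hJfin le_sup_right)
    exact block_main hJfin le_sup_left le_sup_right hν.1 hi rfl (by rw [hp, mul_comm])
      (by rw [hq, mul_comm]) hJcard hp2 hpq hν.2.1 (hm ⊥ bot_le) hDL.2 hRbad
      (hgood _ hJK hJn)
  -- an improvement exists
  obtain ⟨ν0, hν0L, hν0s, hν0n⟩ := improve hLfin (fun V hV => hm V (hV.trans hLK)) hDL.2
  have hν0 : Im X Y D L ν0 := ⟨hν0L, hν0s, hν0n⟩
  obtain ⟨R, hRK, hRbad, hRn, hLR⟩ := himp ν0 hν0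
  have hB0 := hblock ν0 hν0 R hRK hRbad hRn hLR
  have hIfin : ((L ⊓ R : AddSubgroup G) : Set G).Finite := hLfin.subset (fun x hx => hx.1)
  set i := Nat.card (L ⊓ R : AddSubgroup G) with hidef
  have hi : 0 < i := cwCard_pos hIfin
  have hsame : ∀ ν, Im X Y D L ν → ∀ R' ≤ K, gm X Y W R' (D + ν) < m → n < Nat.card R' →
      ¬ L ≤ R' → R' = R := by
    intro ν hν R' hR'K hR'bad hR'n hLR'
    have h1 := hblock ν hν R' hR'K hR'bad hR'n hLR'
    apply hcyc R' R hR'K hRK
    have e1 := h1.cardL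
    have e2 := h1.cardR
    have e3 := hB0.cardL
    have e4 := hB0.cardR
    omega
  have E : EndG X Y W D L R (L ⊔ R) i m := by
    refine ⟨hfin _ (sup_le hLK hRK), le_sup_left, le_sup_right, hi, rfl, hB0.cardL, hB0.cardR,
      ?_, ?_, ?_, hgood R hRK hRn, fun V hV => hm V (hV.trans hLK), ⟨ν0, hν0⟩,
      fun V V' hV hV' h => hcyc V V' (hV.trans hLK) (hV'.trans hLK) h⟩
    · have hprod := card_sup_mul_inf L R
      rw [← hidef, hB0.cardL, hB0.cardR] at hprod
      have h1 : Nat.card (L ⊔ R : AddSubgroup G) * i = (6 * i) * i := by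
        rw [hprod]; ring
      exact Nat.eq_of_mul_eq_mul_right hi h1
    · intro ν hν
      obtain ⟨R', h1, h2, h3, h4⟩ := himp ν hν
      have := hsame ν hν R' h1 h2 h3 h4
      subst this
      exact hblock ν hν R' h1 h2 h3 h4
    · intro ν hν
      obtain ⟨R', h1, h2, h3, h4⟩ := himp ν hν
      have := hsame ν hν R' h1 h2 h3 h4
      subst this
      exact h2
  exact E.false

end Pool.Agent.Lib.MP_09e095_co
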