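import Mathlib
import Pool.Agent.Lib.MP_09e095_co.KneserStrong

/-!
MP_09e095_co : basic facts on sets lying in one coset of a finite subgroup, the pigeonhole
principle, stabilisers and Kneser's theorem in its tight form.
-/

set_option autoImplicit false

open Finset
open scoped Pointwise

namespace Pool.Agent.Lib.MP_09e095_co

variable {G : Type*} [AddCommGroup G]

/-- all elements of `A` lie in one coset of `L` -/
def InCoset (L : AddSubgroup G) (A : Finset G) : Prop := ∀ x ∈ A, ∀ y ∈ A, x - y ∈ L

theorem InCoset.mono {L M : AddSubgroup G} {A : Finset G} (hLM : L ≤ M) (h : InCoset L A) :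
    InCoset M A := fun x hx y hy => hLM (h x hx y hy)

theorem InCoset.subset {L : AddSubgroup G} {A B : Finset G} (hAB : A ⊆ B) (h : InCoset L B) :
    InCoset L A := fun x hx y hy => h x (hAB hx) y (hAB hy)

theorem inCoset_fb (L : AddSubgroup G) (A : Finset G) (θ : G ⧸ L) : InCoset L (fb L A θ) := by
  intro x hx y hy
  exact sub_mem_of_mk_eq ((mem_fb.1 hx).2.trans (mem_fb.1 hy).2.symm)

theorem InCoset.card_le {L : AddSubgroup G} (hL : (L : Set G).Finite) {A : Finset G}
    (h : InCoset L A) : A.card ≤ Nat.card L := card_le_of_coset hL h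

theorem InCoset.nc_eq_one {L : AddSubgroup G} {A : Finset G} (hA : A.Nonempty)
    (h : InCoset L A) : nc L A = 1 := by
  obtain ⟨a, ha⟩ := hA
  unfold nc
  rw [Finset.card_eq_one]
  refine ⟨QuotientAddGroup.mk a, ?_⟩
  ext θ
  rw [Finset.mem_singleton, mem_cl]
  constructor
  · rintro ⟨x, hx, rfl⟩
    exact mk_eq_of_sub_mem (h x hx a ha)
  · rintro rfl
    exact ⟨a, ha, rfl⟩

theorem inCoset_of_nc_eq_one {L : AddSubgroup G} {A : Finset G} (h : nc L A = 1) :
    InCoset L A := by
  intro x hx y hy
  unfold nc at h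
  rw [Finset.card_eq_one] at h
  obtain ⟨θ, hθ⟩ := h
  have h1 : (QuotientAddGroup.mk x : G ⧸ L) ∈ cl L A := mk_mem_cl hx
  have h2 : (QuotientAddGroup.mk y : G ⧸ L) ∈ cl L A := mk_mem_cl hy
  rw [hθ, Finset.mem_singleton] at h1 h2
  exact sub_mem_of_mk_eq (h1.trans h2.symm)

theorem natCard_mono {V W : AddSubgroup G} (hW : (W : Set G).Finite) (h : V ≤ W) :
    Nat.card V ≤ Nat.card W := by
  haveI : Finite W := hW.to_subtype
  exact Nat.card_le_card_of_injective _ (AddSubgroup.inclusion_injective h)

theorem natCard_pos {V : AddSubgroup G} (hV : (V : Set G).Finite) : 0 < Nat.card V := by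
  haveI : Finite V := hV.to_subtype
  exact Nat.card_pos

theorem eq_of_natCard_eq {V W : AddSubgroup G} (hW : (W : Set G).Finite) (h : V ≤ W)
    (hc : Nat.card W ≤ Nat.card V) : V = W := by
  apply le_antisymm h
  have hV : (V : Set G).Finite := hW.subset h
  have h1 : hV.toFinset ⊆ hW.toFinset := by
    intro x hx
    simp only [Set.Finite.mem_toFinset, SetLike.mem_coe] at hx ⊢
    exact h hx
  have h2 : hV.toFinset = hW.toFinset := by
    apply Finset.eq_of_subset_of_card_le h1
    rw [← natCard_eq hV, ← natCard_eq hW]; exact hc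
  intro x hx
  have : x ∈ hW.toFinset := by simpa using hx
  rw [← h2] at this
  simpa using this

theorem natCard_lt {V W : AddSubgroup G} (hW : (W : Set G).Finite) (h : V ≤ W) (hne : V ≠ W) :
    Nat.card V < Nat.card W := by
  by_contra hc
  exact hne (eq_of_natCard_eq hW h (by omega))

theorem natCard_dvd {V W : AddSubgroup G} (h : V ≤ W) : Nat.card V ∣ Nat.card W :=
  AddSubgroup.card_dvd_of_le h

section dec
variable [DecidableEq G]

theorem InCoset.add {L : AddSubgroup G} {A B : Finset G} (hA : InCoset L A) (hB : InCoset L B) :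
    InCoset L (A + B) := by
  intro x hx y hy
  obtain ⟨a, ha, b, hb, rfl⟩ := Finset.mem_add.1 hx
  obtain ⟨a', ha', b', hb', rfl⟩ := Finset.mem_add.1 hy
  have : a + b - (a' + b') = (a - a') + (b - b') := by abel
  rw [this]
  exact L.add_mem (hA a ha a' ha') (hB b hb b' hb')

/-- pigeonhole: if `|A| + |B| > |L|` then `A + B` is a full coset of `L` -/
theorem mem_add_of_card {L : AddSubgroup G} (hL : (L : Set G).Finite) {A B : Finset G}
    (hA : InCoset L A) (hB : InCoset L B) (h : Nat.card L < A.card + B.card)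
    {a b z : G} (ha : a ∈ A) (hb : b ∈ B) (hz : z - (a + b) ∈ L) : z ∈ A + B := by
  classical
  by_contra hcon
  have hinj : Function.Injective (fun y : G => z - y) := by
    intro x y hxy
    exact (sub_right_inj.1 hxy)
  have hdisj : Disjoint A (B.image (fun y => z - y)) := by
    rw [Finset.disjoint_left]
    intro x hx hx'
    obtain ⟨y, hy, rfl⟩ := Finset.mem_image.1 hx'
    apply hcon
    have : z = (z - y) + y := by abel
    rw [this]
    exact Finset.add_mem_add hx hy
  have hcard : (A ∪ B.image (fun y => z - y)).card = A.card + B.card := by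
    rw [Finset.card_union_of_disjoint hdisj, Finset.card_image_of_injective _ hinj]
  have hin : ∀ x ∈ A ∪ B.image (fun y => z - y), x - a ∈ L := by
    intro x hx
    rcases Finset.mem_union.1 hx with hx | hx
    · exact hA x hx a ha
    · obtain ⟨y, hy, rfl⟩ := Finset.mem_image.1 hx
      have : z - y - a = (z - (a + b)) + (b - y) := by abel
      rw [this]
      exact L.add_mem hz (hB b hb y hy)
  have hle : (A ∪ B.image (fun y => z - y)).card ≤ Nat.card L := by
    apply card_le_of_coset hL
    intro x hx y hy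
    have : x - y = (x - a) - (y - a) := by abel
    rw [this]
    exact L.sub_mem (hin x hx) (hin y hy)
  omega

theorem card_add_of_card {L : AddSubgroup G} (hL : (L : Set G).Finite) {A B : Finset G}
    (hA : InCoset L A) (hB : InCoset L B) (hAne : A.Nonempty) (hBne : B.Nonempty)
    (h : Nat.card L < A.card + B.card) : (A + B).card = Nat.card L := by
  have hst : ∀ v ∈ L, ∀ x ∈ A + B, v + x ∈ A + B := by
    intro v hv x hx
    obtain ⟨a, ha, b, hb, rfl⟩ := Finset.mem_add.1 hx
    apply mem_add_of_card hL hA hB h ha hb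
    simpa using hv
  rw [card_of_stable hL hst, (hA.add hB).nc_eq_one (hAne.add hBne), mul_one]

omit [DecidableEq G] in
/-- a coset of `L` which meets `P` only partially -/
theorem stb_le {L : AddSubgroup G} {P : Finset G} (hP : P.Nonempty) (h : InCoset L P) :
    stb P ≤ L := by
  intro v hv
  obtain ⟨p, hp⟩ := hP
  have := h _ ((hv p).1 hp) p hp
  simpa using this

/-- Kneser: in the tight case -/
theorem kneser_tight (A B : Finset G) (hA : A.Nonempty) (hB : B.Nonempty)
    (h : (A + B).card < A.card + B.card) :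
    Nat.card (stb (A + B)) * nc (stb (A + B)) A + Nat.card (stb (A + B)) * nc (stb (A + B)) B
      = (A + B).card + Nat.card (stb (A + B)) := by
  set U := stb (A + B) with hU
  have hUf : (U : Set G).Finite := stb_finite (hA.add hB)
  have h1 := kneser_nc A B hA hB
  rw [← hU] at h1
  have h2 := card_stb (A + B) (hA.add hB)
  rw [← hU] at h2
  have h3 := card_le_mul_nc hUf A
  have h4 := card_le_mul_nc hUf B
  rw [mul_add] at h1
  have h5 : nc U (A + B) < nc U A + nc U B := by
    by_contra hc
    push Not at hc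
    have := Nat.mul_le_mul_left (Nat.card U) hc
    rw [mul_add] at this
    omega
  have h6 := Nat.mul_le_mul_left (Nat.card U) (Nat.succ_le_of_lt h5)
  rw [Nat.succ_eq_add_one, mul_add, mul_add, mul_one] at h6
  omega

omit [DecidableEq G] in
theorem fb_add_subset [DecidableEq G] {V : AddSubgroup G} {A B : Finset G} {θ θ' : G ⧸ V} :
    fb V A θ + fb V B θ' ⊆ fb V (A + B) (θ + θ') := by
  intro z hz
  obtain ⟨a, ha, b, hb, rfl⟩ := Finset.mem_add.1 hz
  rw [mem_fb] at ha hb ⊢
  refine ⟨Finset.add_mem_add ha.1 hb.1, ?_⟩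
  rw [← ha.2, ← hb.2]
  rfl

theorem cl_add {V : AddSubgroup G} {A B : Finset G} {σ : G ⧸ V} (h : σ ∈ cl V (A + B)) :
    ∃ θ ∈ cl V A, ∃ θ' ∈ cl V B, θ + θ' = σ := by
  obtain ⟨z, hz, rfl⟩ := mem_cl.1 h
  obtain ⟨a, ha, b, hb, rfl⟩ := Finset.mem_add.1 hz
  exact ⟨_, mk_mem_cl ha, _, mk_mem_cl hb, rfl⟩

theorem add_mem_cl {V : AddSubgroup G} {A B : Finset G} {θ θ' : G ⧸ V} (h : θ ∈ cl V A)
    (h' : θ' ∈ cl V B) : θ + θ' ∈ cl V (A + B) := by
  obtain ⟨a, ha, rfl⟩ := mem_cl.1 h
  obtain ⟨b, hb, rfl⟩ := mem_cl.1 h'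
  exact mem_cl.2 ⟨a + b, Finset.add_mem_add ha hb, rfl⟩

/-- a sum of two fibres with more than `|V|` elements together is a full coset -/
theorem card_fb_add_full {V : AddSubgroup G} (hV : (V : Set G).Finite) {A B : Finset G}
    {θ θ' : G ⧸ V} (hθ : θ ∈ cl V A) (hθ' : θ' ∈ cl V B)
    (h : Nat.card V < (fb V A θ).card + (fb V B θ').card) :
    Nat.card V ≤ (fb V (A + B) (θ + θ')).card := by
  rw [← card_add_of_card hV (inCoset_fb V A θ) (inCoset_fb V B θ') (fb_nonempty_iff.2 hθ)
    (fb_nonempty_iff.2 hθ') h]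
  exact Finset.card_le_card fb_add_subset

/-- if `|A + V| - |A| < |V|` then `|2A + V| - |2A| ≤ |A + V| - |A|` -/
theorem card_add_self_ge {V : AddSubgroup G} (hV : (V : Set G).Finite) (A : Finset G)
    (h : Nat.card V * nc V A < A.card + Nat.card V) :
    Nat.card V * nc V (A + A) + A.card ≤ (A + A).card + Nat.card V * nc V A := by
  classical
  set n := Nat.card V with hn
  -- holes
  have hsum : ∑ θ ∈ cl V A, (n - (fb V A θ).card) + A.card = n * nc V A := by
    rw [card_eq_sum_fb (V := V) A (le_refl _), ← Finset.sum_add_distrib]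
    rw [Finset.sum_congr rfl (fun θ _ => Nat.sub_add_cancel (card_fb_le hV A θ))]
    rw [Finset.sum_const, smul_eq_mul, mul_comm]; rfl
  have key : ∀ σ ∈ cl V (A + A), n ≤ (fb V (A + A) σ).card +
      ∑ θ ∈ (cl V A).filter (fun θ => θ + θ = σ), (n - (fb V A θ).card) := by
    intro σ hσ
    obtain ⟨θ, hθ, θ', hθ', rfl⟩ := cl_add hσ
    by_cases hne : θ = θ'
    · subst hne
      have h1 : (fb V A θ).card ≤ (fb V (A + A) (θ + θ)).card := by
        refine le_trans ?_ (Finset.card_le_card (fb_add_subset (A := A) (B := A)))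
        exact Finset.card_le_card_add_right (fb_nonempty_iff.2 hθ)
      have h2 : n - (fb V A θ).card ≤
          ∑ θ' ∈ (cl V A).filter (fun θ' => θ' + θ' = θ + θ), (n - (fb V A θ').card) := by
        apply Finset.single_le_sum (f := fun θ' => n - (fb V A θ').card)
          (fun i _ => Nat.zero_le _)
        rw [Finset.mem_filter]
        exact ⟨hθ, rfl⟩
      omega
    · have h1 : (n - (fb V A θ).card) + (n - (fb V A θ').card) ≤
          ∑ θ ∈ cl V A, (n - (fb V A θ).card) := by
        rw [← Finset.sum_pair (f := fun θ => n - (fb V A θ).card) hne]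
        apply Finset.sum_le_sum_of_subset
        intro x hx
        rcases Finset.mem_insert.1 hx with rfl | hx
        · exact hθ
        · rw [Finset.mem_singleton.1 hx]; exact hθ'
      have h2 := card_fb_le hV A θ
      have h3 := card_fb_le hV A θ'
      have h4 := card_fb_add_full hV hθ hθ' (A := A) (B := A) (by omega)
      omega
  have hs := Finset.sum_le_sum key
  rw [Finset.sum_add_distrib, ← card_eq_sum_fb (V := V) (A + A) (le_refl _)] at hs
  rw [Finset.sum_const, smul_eq_mul] at hs
  have hs2 : ∑ σ ∈ cl V (A + A), ∑ θ ∈ (cl V A).filter (fun θ => θ + θ = σ),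
      (n - (fb V A θ).card) ≤ ∑ θ ∈ cl V A, (n - (fb V A θ).card) := by
    rw [Finset.sum_fiberwise_of_maps_to (s := cl V A) (t := cl V (A + A))
      (g := fun θ => θ + θ) (fun θ hθ => add_mem_cl hθ hθ)
      (fun θ => n - (fb V A θ).card)]
  have : (cl V (A + A)).card = nc V (A + A) := rfl
  rw [this] at hs
  have hcomm : nc V (A + A) * n = n * nc V (A + A) := mul_comm _ _
  omega

/-- `A` is not contained in a coset of the stabiliser of `A + B` : then `2A` meets more cosets -/
theorem nc_add_self_ge {A B : Finset G} (hA : A.Nonempty) (hB : B.Nonempty)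
    (h : 2 ≤ nc (stb (A + B)) A) :
    nc (stb (A + B)) A + 1 ≤ nc (stb (A + B)) (A + A) := by
  classical
  set U := stb (A + B) with hU
  have hUf : (U : Set G).Finite := stb_finite (hA.add hB)
  by_contra hcon
  push Not at hcon
  have hcon' : nc U (A + A) ≤ nc U A := by omega
  set P := sat U hUf A with hP
  have hPP : ∀ p ∈ P, ∀ q ∈ P, p + q ∈ sat U hUf (A + A) := by
    intro p hp q hq
    obtain ⟨a, ha, h1⟩ := mem_sat.1 hp
    obtain ⟨b, hb, h2⟩ := mem_sat.1 hq
    refine mem_sat.2 ⟨a + b, Finset.add_mem_add ha hb, ?_⟩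
    have : p + q - (a + b) = (p - a) + (q - b) := by abel
    rw [this]; exact U.add_mem h1 h2
  have heq : ∀ p ∈ P, P.image (fun q => p + q) = sat U hUf (A + A) := by
    intro p hp
    apply Finset.eq_of_subset_of_card_le
    · intro z hz
      obtain ⟨q, hq, rfl⟩ := Finset.mem_image.1 hz
      exact hPP p hp q hq
    · rw [Finset.card_image_of_injective _ (add_right_injective p), hP, card_sat, card_sat]
      exact Nat.mul_le_mul_left _ hcon'
  -- differences of elements of `P` stabilise `P`
  have hdiff : ∀ p ∈ P, ∀ q ∈ P, ∀ x ∈ P, (p - q) + x ∈ P := by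
    intro p hp q hq x hx
    have h1 : p + x ∈ P.image (fun y => q + y) := by
      rw [heq q hq, ← heq p hp]
      exact Finset.mem_image.2 ⟨x, hx, rfl⟩
    obtain ⟨y, hy, hxy⟩ := Finset.mem_image.1 h1
    have : (p - q) + x = y := by
      have : y = (q + y) - q := by abel
      rw [this, hxy]; abel
    rw [this]; exact hy
  have hstab : ∀ z, z ∈ A + B ↔ ∃ p ∈ P, ∃ b ∈ B, p + b = z := by
    intro z
    constructor
    · intro hz
      obtain ⟨a, ha, b, hb, rfl⟩ := Finset.mem_add.1 hz
      exact ⟨a, subset_sat ha, b, hb, rfl⟩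
    · rintro ⟨p, hp, b, hb, rfl⟩
      obtain ⟨a, ha, h1⟩ := mem_sat.1 hp
      have h2 : (p - a) ∈ U := h1
      have h3 := (h2 (a + b)).1 (Finset.add_mem_add ha hb)
      have : p + b = p - a + (a + b) := by abel
      rw [this]; exact h3
  have hmem : ∀ p ∈ P, ∀ q ∈ P, p - q ∈ U := by
    have hone : ∀ p ∈ P, ∀ q ∈ P, ∀ z ∈ A + B, (p - q) + z ∈ A + B := by
      intro p hp q hq z hz
      obtain ⟨r, hr, b, hb, rfl⟩ := (hstab z).1 hz
      rw [hstab]
      exact ⟨(p - q) + r, hdiff p hp q hq r hr, b, hb, by abel⟩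
    intro p hp q hq x
    constructor
    · exact hone p hp q hq x
    · intro hx
      have := hone q hq p hp _ hx
      have h2 : q - p + (p - q + x) = x := by abel
      rwa [h2] at this
  have : nc U A = 1 := by
    apply InCoset.nc_eq_one hA
    intro x hx y hy
    exact hmem x (subset_sat hx) y (subset_sat hy)
  omega

end dec

end Pool.Agent.Lib.MP_09e095_co
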