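import Mathlib
import Pool.Agent.Lib.MP_09e095_co.QBasic

/-!
MP_09e095_co : subgroups of equal order of a finite cyclic subgroup are equal.
-/

set_option autoImplicit false

open Finset
open scoped Pointwise

namespace Pool.Agent.Lib.MP_09e095_co

/-- in a finite cyclic subgroup, subgroups of equal order are equal -/
theorem eq_of_card_cyclic {G : Type*} [AddCommGroup G] {K : AddSubgroup G} (hf : Finite K)
    (hc : IsAddCyclic K) {V W : AddSubgroup G} (hV : V ≤ K) (hW : W ≤ K)
    (h : Nat.card V = Nat.card W) : V = W := by
  classical
  haveI := Fintype.ofFinite K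
  have hKf : (K : Set G).Finite := Set.toFinite _
  have hVf : (V : Set G).Finite := hKf.subset hV
  have hWf : (W : Set G).Finite := hKf.subset hW
  have hpos := natCard_pos hVf
  -- the elements killed by `|V|`
  set T : Finset K := Finset.univ.filter (fun x : K => Nat.card V • x = 0) with hT
  have hTc : T.card ≤ Nat.card V := IsAddCyclic.card_nsmul_eq_zero_le hpos
  have key : ∀ U : AddSubgroup G, U ≤ K → Nat.card U = Nat.card V →
      ∀ x : K, x ∈ T ↔ (x : G) ∈ U := by
    intro U hU hUV
    have hUf : (U : Set G).Finite := hKf.subset hU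
    haveI : Finite U := hUf.to_subtype
    set T' : Finset K := Finset.univ.filter (fun x : K => (x : G) ∈ U) with hT'
    have hsub : T' ⊆ T := by
      intro x hx
      rw [hT', Finset.mem_filter] at hx
      rw [hT, Finset.mem_filter]
      refine ⟨Finset.mem_univ _, ?_⟩
      have h1 : Nat.card U • (⟨(x : G), hx.2⟩ : U) = 0 := card_nsmul_eq_zero'
      have h2 : Nat.card U • (x : G) = 0 := by
        have h4 := congrArg (U.subtype) h1
        rw [map_nsmul, map_zero] at h4
        exact h4
      rw [hUV] at h2
      apply Subtype.ext
      rw [AddSubgroup.coe_nsmul, h2]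
      rfl
    have hcard : T'.card = Nat.card U := by
      rw [natCard_eq hUf]
      have himg : hUf.toFinset = T'.image (fun x : K => (x : G)) := by
        ext y
        rw [Set.Finite.mem_toFinset, SetLike.mem_coe, Finset.mem_image]
        constructor
        · intro hy
          refine ⟨⟨y, hU hy⟩, ?_, rfl⟩
          rw [hT', Finset.mem_filter]
          exact ⟨Finset.mem_univ _, hy⟩
        · rintro ⟨x, hx, rfl⟩
          rw [hT', Finset.mem_filter] at hx
          exact hx.2
      rw [himg, Finset.card_image_of_injective _ Subtype.val_injective]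
    have heq : T' = T := by
      apply Finset.eq_of_subset_of_card_le hsub
      omega
    intro x
    rw [← heq, hT', Finset.mem_filter]
    exact ⟨fun h => h.2, fun h => ⟨Finset.mem_univ _, h⟩⟩
  ext x
  constructor
  · intro hx
    have h1 := (key V hV rfl ⟨x, hV hx⟩).2 hx
    exact (key W hW h.symm ⟨x, hV hx⟩).1 h1
  · intro hx
    have h1 := (key W hW h.symm ⟨x, hW hx⟩).2 hx
    exact (key V hV rfl ⟨x, hW hx⟩).1 h1

end Pool.Agent.Lib.MP_09e095_co
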