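import Mathlib
import Pool.Agent.Lib.MP_09e095_co.QBasic

/-!
MP_09e095_co : transfer of coset numbers along maps: two layers in `G × ℤ`, quotients, subgroups.
-/

set_option autoImplicit false

open Finset
open scoped Pointwise

namespace Pool.Agent.Lib.MP_09e095_co.Lay

universe u

theorem card_image_le_of_iff {α β γ : Type*} [DecidableEq β] [DecidableEq γ] (X : Finset α)
    (g : α → β) (h : α → γ) (hgh : ∀ x ∈ X, ∀ y ∈ X, g x = g y → h x = h y) :
    (X.image h).card ≤ (X.image g).card := by
  classical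
  rcases X.eq_empty_or_nonempty with rfl | ⟨x0, hx0⟩
  · simp
  let φ : β → γ := fun b => if hb : ∃ x ∈ X, g x = b then h hb.choose else h x0
  have : X.image h ⊆ (X.image g).image φ := by
    intro c hc
    obtain ⟨x, hx, rfl⟩ := Finset.mem_image.1 hc
    refine Finset.mem_image.2 ⟨g x, Finset.mem_image.2 ⟨x, hx, rfl⟩, ?_⟩
    have hb : ∃ x' ∈ X, g x' = g x := ⟨x, hx, rfl⟩
    change (if hb : ∃ x' ∈ X, g x' = g x then h hb.choose else h x0) = h x
    rw [dif_pos hb]
    exact hgh _ hb.choose_spec.1 _ hx hb.choose_spec.2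
  exact le_trans (Finset.card_le_card this) Finset.card_image_le

theorem nc_image {G H : Type*} [AddCommGroup G] [AddCommGroup H] [DecidableEq H]
    {V : AddSubgroup G} {W : AddSubgroup H} (f : G → H) (X : Finset G)
    (hf : ∀ x ∈ X, ∀ y ∈ X, (f x - f y ∈ W ↔ x - y ∈ V)) : nc W (X.image f) = nc V X := by
  classical
  unfold nc cl
  rw [Finset.image_image]
  apply le_antisymm
  · apply card_image_le_of_iff
    intro x hx y hy h
    exact mk_eq_of_sub_mem ((hf x hx y hy).2 (sub_mem_of_mk_eq h))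
  · apply card_image_le_of_iff
    intro x hx y hy h
    exact mk_eq_of_sub_mem ((hf x hx y hy).1 (sub_mem_of_mk_eq h))

theorem nc_union {G : Type*} [AddCommGroup G] [DecidableEq G] {V : AddSubgroup G}
    {A B : Finset G} (h : ∀ a ∈ A, ∀ b ∈ B, a - b ∉ V) : nc V (A ∪ B) = nc V A + nc V B := by
  classical
  unfold nc cl
  rw [Finset.image_union, Finset.card_union_of_disjoint]
  rw [Finset.disjoint_left]
  intro c hc hc'
  obtain ⟨a, ha, rfl⟩ := Finset.mem_image.1 hc
  obtain ⟨b, hb, hab⟩ := Finset.mem_image.1 hc'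
  exact h a ha b hb (sub_mem_of_mk_eq hab.symm)

/-! ### two layers in `G × ℤ` -/

section layers

variable {G : Type u} [AddCommGroup G] [DecidableEq G]

/-- the copy of `X` in layer `i` -/
def lay (i : ℤ) (X : Finset G) : Finset (G × ℤ) := X.image (fun x => (x, i))

omit [AddCommGroup G] in
theorem mem_lay {i : ℤ} {X : Finset G} {z : G × ℤ} : z ∈ lay i X ↔ z.1 ∈ X ∧ z.2 = i := by
  unfold lay
  rw [Finset.mem_image]
  constructor
  · rintro ⟨x, hx, rfl⟩
    exact ⟨hx, rfl⟩
  · rintro ⟨h1, h2⟩
    exact ⟨z.1, h1, by rw [← h2]⟩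

omit [AddCommGroup G] in
theorem card_lay (i : ℤ) (X : Finset G) : (lay i X).card = X.card := by
  unfold lay
  apply Finset.card_image_of_injective
  intro x y h
  exact (Prod.mk.inj h).1

theorem lay_add_lay (i j : ℤ) (X Y : Finset G) : lay i X + lay j Y = lay (i + j) (X + Y) := by
  ext z
  rw [mem_lay, Finset.mem_add]
  constructor
  · rintro ⟨a, ha, b, hb, rfl⟩
    rw [mem_lay] at ha hb
    refine ⟨Finset.add_mem_add ha.1 hb.1, ?_⟩
    rw [Prod.snd_add, ha.2, hb.2]
  · rintro ⟨h1, h2⟩
    obtain ⟨a, ha, b, hb, hab⟩ := Finset.mem_add.1 h1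
    refine ⟨(a, i), mem_lay.2 ⟨ha, rfl⟩, (b, j), mem_lay.2 ⟨hb, rfl⟩, ?_⟩
    ext
    · exact hab
    · exact h2.symm

theorem nc_lay (V : AddSubgroup G) (i : ℤ) (X : Finset G) :
    nc (V.prod (⊥ : AddSubgroup ℤ)) (lay i X) = nc V X := by
  unfold lay
  apply nc_image
  intro x _ y _
  rw [AddSubgroup.mem_prod]
  simp

/-- the two layer set -/
def two (X Y : Finset G) : Finset (G × ℤ) := lay 0 X ∪ lay 1 Y

theorem card_two (X Y : Finset G) : (two X Y).card = X.card + Y.card := by
  unfold two
  rw [Finset.card_union_of_disjoint, card_lay, card_lay]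
  rw [Finset.disjoint_left]
  intro z h1 h2
  rw [mem_lay] at h1 h2
  omega

theorem nc_two (V : AddSubgroup G) (X Y : Finset G) :
    nc (V.prod (⊥ : AddSubgroup ℤ)) (two X Y) = nc V X + nc V Y := by
  unfold two
  rw [nc_union, nc_lay, nc_lay]
  intro a ha b hb h
  rw [mem_lay] at ha hb
  rw [AddSubgroup.mem_prod] at h
  have := h.2
  rw [Prod.snd_sub, ha.2, hb.2] at this
  simp at this

theorem two_add_two (X Y : Finset G) :
    two X Y + two X Y = lay 0 (X + X) ∪ lay 1 (X + Y) ∪ lay 2 (Y + Y) := by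
  unfold two
  rw [Finset.add_union, Finset.union_add, Finset.union_add, lay_add_lay, lay_add_lay,
    lay_add_lay, lay_add_lay]
  rw [add_comm Y X]
  norm_num

theorem card_two_add_two (X Y : Finset G) :
    (two X Y + two X Y).card = (X + X).card + (X + Y).card + (Y + Y).card := by
  rw [two_add_two, Finset.card_union_of_disjoint, Finset.card_union_of_disjoint, card_lay,
    card_lay, card_lay]
  · rw [Finset.disjoint_left]
    intro z h1 h2
    rw [mem_lay] at h1 h2
    omega
  · rw [Finset.disjoint_left]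
    intro z h1 h2
    rw [Finset.mem_union, mem_lay, mem_lay] at h1
    rw [mem_lay] at h2
    omega

theorem nc_two_add_two (V : AddSubgroup G) (X Y : Finset G) :
    nc (V.prod (⊥ : AddSubgroup ℤ)) (two X Y + two X Y) =
      nc V (X + X) + nc V (X + Y) + nc V (Y + Y) := by
  rw [two_add_two, nc_union, nc_union, nc_lay, nc_lay, nc_lay]
  · intro a ha b hb h
    rw [mem_lay] at ha hb
    rw [AddSubgroup.mem_prod] at h
    have := h.2
    rw [Prod.snd_sub, ha.2, hb.2] at this
    simp at this
  · intro a ha b hb h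
    rw [Finset.mem_union, mem_lay, mem_lay] at ha
    rw [mem_lay] at hb
    rw [AddSubgroup.mem_prod] at h
    have := h.2
    rw [Prod.snd_sub, hb.2, AddSubgroup.mem_bot] at this
    omega

omit [DecidableEq G] in
theorem prod_bot_finite {V : AddSubgroup G} (hV : (V : Set G).Finite) :
    ((V.prod (⊥ : AddSubgroup ℤ) : AddSubgroup (G × ℤ)) : Set (G × ℤ)).Finite := by
  rw [AddSubgroup.coe_prod]
  exact hV.prod (Set.finite_singleton _)

omit [DecidableEq G] in
theorem card_prod_bot (V : AddSubgroup G) :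
    Nat.card (V.prod (⊥ : AddSubgroup ℤ) : AddSubgroup (G × ℤ)) = Nat.card V := by
  rw [Nat.card_congr (AddSubgroup.prodEquiv V (⊥ : AddSubgroup ℤ)).toEquiv, Nat.card_prod]
  rw [AddSubgroup.card_bot, mul_one]

omit [DecidableEq G] in
theorem exists_eq_prod_bot {K : AddSubgroup G} {V' : AddSubgroup (G × ℤ)}
    (h : V' ≤ K.prod (⊥ : AddSubgroup ℤ)) :
    ∃ V : AddSubgroup G, V ≤ K ∧ V' = V.prod (⊥ : AddSubgroup ℤ) := by
  refine ⟨V'.comap (AddMonoidHom.inl G ℤ), ?_, ?_⟩
  · intro x hx
    rw [AddSubgroup.mem_comap] at hx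
    have := h hx
    rw [AddSubgroup.mem_prod] at this
    exact this.1
  · ext ⟨x, i⟩
    rw [AddSubgroup.mem_prod, AddSubgroup.mem_comap]
    constructor
    · intro hx
      have h2 := h hx
      rw [AddSubgroup.mem_prod] at h2
      have hi : i = 0 := h2.2
      subst hi
      exact ⟨hx, h2.2⟩
    · rintro ⟨h1, h2⟩
      have hi : i = 0 := h2
      subst hi
      exact h1

end layers

/-! ### quotients -/

section quot

variable {G : Type u} [AddCommGroup G]

theorem mk_sub_mk_mem_iff {V : AddSubgroup G} {W : AddSubgroup (G ⧸ V)} {x y : G} :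
    ((QuotientAddGroup.mk x : G ⧸ V) - QuotientAddGroup.mk y ∈ W) ↔
      x - y ∈ W.comap (QuotientAddGroup.mk' V) := by
  rw [AddSubgroup.mem_comap, map_sub]
  rfl

theorem cl_add_cl [DecidableEq G] {V : AddSubgroup G} [DecidableEq (G ⧸ V)] (X Y : Finset G) :
    cl V X + cl V Y = cl V (X + Y) := by
  ext σ
  rw [Finset.mem_add]
  constructor
  · rintro ⟨a, ha, b, hb, rfl⟩
    exact add_mem_cl ha hb
  · intro h
    obtain ⟨a, ha, b, hb, hab⟩ := cl_add h
    exact ⟨a, ha, b, hb, hab⟩

theorem nc_cl {V : AddSubgroup G} (W : AddSubgroup (G ⧸ V)) (X : Finset G) :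
    nc W (cl V X) = nc (W.comap (QuotientAddGroup.mk' V)) X := by
  classical
  unfold cl
  have := nc_image (V := W.comap (QuotientAddGroup.mk' V)) (W := W)
    (fun x : G => (QuotientAddGroup.mk x : G ⧸ V)) X (fun x _ y _ => mk_sub_mk_mem_iff)
  convert this

theorem le_comap_mk {V : AddSubgroup G} (W : AddSubgroup (G ⧸ V)) :
    V ≤ W.comap (QuotientAddGroup.mk' V) := by
  intro x hx
  rw [AddSubgroup.mem_comap]
  have : (QuotientAddGroup.mk' V) x = 0 := (QuotientAddGroup.eq_zero_iff x).2 hx
  rw [this]; exact W.zero_mem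

theorem card_comap_mk {V : AddSubgroup G} (W : AddSubgroup (G ⧸ V)) :
    Nat.card (W.comap (QuotientAddGroup.mk' V)) = Nat.card V * Nat.card W := by
  have h1 := AddSubgroup.relIndex_ker (QuotientAddGroup.mk' V)
    (K := W.comap (QuotientAddGroup.mk' V))
  rw [QuotientAddGroup.ker_mk', AddSubgroup.map_comap_eq_self_of_surjective
      (QuotientAddGroup.mk'_surjective V)] at h1
  have h2 := AddSubgroup.relIndex_mul_relIndex ⊥ V _ bot_le (le_comap_mk W)
  rw [AddSubgroup.relIndex_bot_left, AddSubgroup.relIndex_bot_left, h1] at h2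
  exact h2.symm

end quot

/-! ### subgroups -/

section sub

variable {G : Type u} [AddCommGroup G]

theorem down_inj (K : AddSubgroup G) (x0 : G) :
    Function.Injective (fun v : K => (v : G) + x0) :=
  fun _ _ h => Subtype.ext (add_right_cancel h)

/-- the part of `X` in `x0 + K`, moved into `K` -/
noncomputable def down (K : AddSubgroup G) (x0 : G) (X : Finset G) : Finset K :=
  X.preimage (fun v : K => (v : G) + x0) (down_inj K x0).injOn

theorem mem_down {K : AddSubgroup G} {x0 : G} {X : Finset G} {v : K} :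
    v ∈ down K x0 X ↔ (v : G) + x0 ∈ X := by
  unfold down
  rw [Finset.mem_preimage]

theorem image_down [DecidableEq G] {K : AddSubgroup G} {x0 : G} {X : Finset G}
    (h : ∀ x ∈ X, x - x0 ∈ K) : (down K x0 X).image (fun v : K => (v : G) + x0) = X := by
  ext x
  rw [Finset.mem_image]
  constructor
  · rintro ⟨v, hv, rfl⟩
    exact mem_down.1 hv
  · intro hx
    refine ⟨⟨x - x0, h x hx⟩, mem_down.2 ?_, ?_⟩
    · simpa using hx
    · simp

theorem card_down {K : AddSubgroup G} {x0 : G} {X : Finset G}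
    (h : ∀ x ∈ X, x - x0 ∈ K) : (down K x0 X).card = X.card := by
  classical
  conv_rhs => rw [← image_down h]
  rw [Finset.card_image_of_injective]
  intro x y hxy
  exact Subtype.ext (add_right_cancel hxy)

theorem nc_down {K : AddSubgroup G} {x0 : G} {X : Finset G}
    (h : ∀ x ∈ X, x - x0 ∈ K) (V : AddSubgroup K) :
    nc V (down K x0 X) = nc (V.map K.subtype) X := by
  classical
  conv_rhs => rw [← image_down h]
  rw [nc_image (V := V)]
  intro x _ y _
  rw [AddSubgroup.mem_map]
  constructor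
  · rintro ⟨v, hv, h1⟩
    have : v = x - y := by
      apply Subtype.ext
      rw [AddSubgroup.coe_sub]
      rw [AddSubgroup.subtype_apply] at h1
      rw [h1]; abel
    rwa [← this]
  · intro hxy
    refine ⟨x - y, hxy, ?_⟩
    rw [AddSubgroup.subtype_apply, AddSubgroup.coe_sub]; abel

theorem down_add_down [DecidableEq G] {K : AddSubgroup G} [DecidableEq K] {x0 y0 : G}
    {X Y : Finset G} (hX : ∀ x ∈ X, x - x0 ∈ K) (hY : ∀ y ∈ Y, y - y0 ∈ K) :
    down K x0 X + down K y0 Y = down K (x0 + y0) (X + Y) := by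
  ext v
  rw [Finset.mem_add, mem_down]
  constructor
  · rintro ⟨a, ha, b, hb, rfl⟩
    rw [mem_down] at ha hb
    have := Finset.add_mem_add ha hb
    have e : ((a + b : K) : G) + (x0 + y0) = (a : G) + x0 + ((b : G) + y0) := by
      rw [AddSubgroup.coe_add]; abel
    rwa [e]
  · intro h
    obtain ⟨a, ha, b, hb, hab⟩ := Finset.mem_add.1 h
    refine ⟨⟨a - x0, hX a ha⟩, mem_down.2 (by simpa using ha), ⟨b - y0, hY b hb⟩,
      mem_down.2 (by simpa using hb), ?_⟩
    apply Subtype.ext
    rw [AddSubgroup.coe_add]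
    change a - x0 + (b - y0) = (v : G)
    have : (v : G) = a + b - (x0 + y0) := by rw [hab]; abel
    rw [this]; abel

theorem card_map_subtype {K : AddSubgroup G} (V : AddSubgroup K) :
    Nat.card (V.map K.subtype) = Nat.card V :=
  AddSubgroup.card_map_of_injective K.subtype_injective

end sub

end Pool.Agent.Lib.MP_09e095_co.Lay
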