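import Mathlib
import Pool.Agent.Lib.MP_09e095_co.QBasic

/-!
MP_09e095_co : Lemma T, three fibres in cosets of one finite group.
-/

set_option autoImplicit false

open Finset
open scoped Pointwise

namespace Pool.Agent.Lib.MP_09e095_co

variable {G : Type*} [AddCommGroup G]

/-- hypothesis (T3) -/
def TThree (L : AddSubgroup G) (A B C : Finset G) (t u : ℕ) : Prop :=
  ∀ V : AddSubgroup G, V ≤ L → V ≠ ⊥ → V ≠ L →
    4 * Nat.card V + 2 * (A.card + B.card + C.card) ≤
      2 * (Nat.card V * nc V A + Nat.card V * nc V B + Nat.card V * nc V C) + t + 2 * u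

theorem TThree.swap12 {L : AddSubgroup G} {A B C : Finset G} {t u : ℕ}
    (h : TThree L A B C t u) : TThree L B A C t u := by
  intro V h1 h2 h3
  have := h V h1 h2 h3
  omega

theorem TThree.swap23 {L : AddSubgroup G} {A B C : Finset G} {t u : ℕ}
    (h : TThree L A B C t u) : TThree L A C B t u := by
  intro V h1 h2 h3
  have := h V h1 h2 h3
  omega

/-- `|A + W| ≤ |A + V|` for `W ≤ V` -/
theorem card_mul_nc_mono {V W : AddSubgroup G} (hVf : (V : Set G).Finite) (hWV : W ≤ V)
    (X : Finset G) : Nat.card W * nc W X ≤ Nat.card V * nc V X := by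
  have hWf : (W : Set G).Finite := hVf.subset hWV
  rw [← card_sat hWf, ← card_sat hVf]
  apply Finset.card_le_card
  intro z hz
  obtain ⟨a, ha, h⟩ := mem_sat.1 hz
  exact mem_sat.2 ⟨a, ha, hWV h⟩

/-- a set in a coset of `L` whose saturation is not the whole coset misses a coset of `V` -/
theorem exists_missed {L V : AddSubgroup G} (hL : (L : Set G).Finite) (hV : (V : Set G).Finite)
    {A : Finset G} {a : G} (hlt : Nat.card V * nc V A < Nat.card L) :
    ∃ x, x - a ∈ L ∧ ∀ b ∈ A, x - b ∉ V := by
  classical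
  by_contra hcon
  push Not at hcon
  have hsub : hL.toFinset.image (fun v => v + a) ⊆ sat V hV A := by
    intro z hz
    obtain ⟨v, hv, rfl⟩ := Finset.mem_image.1 hz
    have hv' : v ∈ L := by simpa using hv
    obtain ⟨b, hb, h⟩ := hcon (v + a) (by simpa using hv')
    exact mem_sat.2 ⟨b, hb, h⟩
  have h1 := Finset.card_le_card hsub
  rw [Finset.card_image_of_injective _ (add_left_injective a), card_sat, ← natCard_eq hL] at h1
  omega

/-- count in one coset of `L`: `A` misses a coset of `U` and a coset of `V` -/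
theorem card_missed_two {L U V : AddSubgroup G} (hL : (L : Set G).Finite) (hU : U ≤ L)
    (hV : V ≤ L) {A : Finset G} (hA : A.Nonempty) (hAL : InCoset L A)
    (hUlt : Nat.card U * nc U A < Nat.card L) (hVlt : Nat.card V * nc V A < Nat.card L) :
    A.card + Nat.card U + Nat.card V ≤ Nat.card L + Nat.card (U ⊓ V : AddSubgroup G) := by
  classical
  obtain ⟨a, ha⟩ := hA
  have hUf : (U : Set G).Finite := hL.subset hU
  have hVf : (V : Set G).Finite := hL.subset hV
  have hWf : ((U ⊓ V : AddSubgroup G) : Set G).Finite := hUf.subset (fun x hx => hx.1)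
  obtain ⟨x, hx, hxA⟩ := exists_missed hL hUf (a := a) hUlt
  obtain ⟨y, hy, hyA⟩ := exists_missed hL hVf (a := a) hVlt
  set P := hUf.toFinset.image (fun v => v + x) with hP
  set Q := hVf.toFinset.image (fun v => v + y) with hQ
  have hPc : P.card = Nat.card U := by
    rw [hP, Finset.card_image_of_injective _ (add_left_injective x), ← natCard_eq hUf]
  have hQc : Q.card = Nat.card V := by
    rw [hQ, Finset.card_image_of_injective _ (add_left_injective y), ← natCard_eq hVf]
  have hPm : ∀ z ∈ P, z - x ∈ U := by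
    intro z hz
    obtain ⟨v, hv, rfl⟩ := Finset.mem_image.1 hz
    simpa using hv
  have hQm : ∀ z ∈ Q, z - y ∈ V := by
    intro z hz
    obtain ⟨v, hv, rfl⟩ := Finset.mem_image.1 hz
    simpa using hv
  have hPQ : (P ∩ Q).card ≤ Nat.card (U ⊓ V : AddSubgroup G) := by
    apply card_le_of_coset hWf
    intro z hz w hw
    rw [Finset.mem_inter] at hz hw
    refine ⟨?_, ?_⟩
    · have := U.sub_mem (hPm z hz.1) (hPm w hw.1)
      simpa using this
    · have := V.sub_mem (hQm z hz.2) (hQm w hw.2)
      simpa using this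
  have hunion : (P ∪ Q).card + (P ∩ Q).card = P.card + Q.card := Finset.card_union_add_card_inter P Q
  have hdisj : Disjoint A (P ∪ Q) := by
    rw [Finset.disjoint_left]
    intro z hz hz'
    rcases Finset.mem_union.1 hz' with h | h
    · apply hxA z hz
      have := U.neg_mem (hPm z h)
      simpa using this
    · apply hyA z hz
      have := V.neg_mem (hQm z h)
      simpa using this
  have hall : (A ∪ (P ∪ Q)).card ≤ Nat.card L := by
    have hin : ∀ z ∈ A ∪ (P ∪ Q), z - a ∈ L := by
      intro z hz
      rcases Finset.mem_union.1 hz with h | h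
      · exact hAL z h a ha
      rcases Finset.mem_union.1 h with h | h
      · have := L.add_mem (hU (hPm z h)) hx
        simpa using this
      · have := L.add_mem (hV (hQm z h)) hy
        simpa using this
    apply card_le_of_coset hL
    intro z hz w hw
    have := L.sub_mem (hin z hz) (hin w hw)
    simpa using this
  rw [Finset.card_union_of_disjoint hdisj] at hall
  omega

variable [DecidableEq G]

/-- the data of a bad pair -/
theorem bad_facts {L : AddSubgroup G} {A B : Finset G}
    (hA : A.Nonempty) (hB : B.Nonempty) (hAL : InCoset L A) (hBL : InCoset L B)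
    (hT : A.card + B.card ≤ Nat.card L) (hbad : (A + B).card + 2 ≤ A.card + B.card) :
    stb (A + B) ≤ L ∧ stb (A + B) ≠ ⊥ ∧ stb (A + B) ≠ L ∧
    Nat.card (stb (A + B)) * nc (stb (A + B)) A + Nat.card (stb (A + B)) * nc (stb (A + B)) B
      = (A + B).card + Nat.card (stb (A + B)) := by
  have htight := kneser_tight A B hA hB (by omega)
  have hle := stb_le (hA.add hB) (hAL.add hBL)
  refine ⟨hle, ?_, ?_, htight⟩
  · intro h
    rw [h, nc_bot, nc_bot, AddSubgroup.card_bot] at htight
    omega
  · intro h
    have h1 := card_stb (A + B) (hA.add hB)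
    rw [h, (hAL.add hBL).nc_eq_one (hA.add hB)] at h1
    omega

/-- (E) -/
theorem lemE {A B : Finset G} (hA : A.Nonempty) (hB : B.Nonempty)
    (hbad : (A + B).card + 2 ≤ A.card + B.card) (hk : 2 ≤ nc (stb (A + B)) A) :
    A.card + Nat.card (stb (A + B)) ≤ (A + A).card := by
  have htight := kneser_tight A B hA hB (by omega)
  have hf : (stb (A + B) : Set G).Finite := stb_finite (hA.add hB)
  have h1 := card_le_mul_nc hf B
  have h2 := card_add_self_ge hf A (by omega)
  have h3 := nc_add_self_ge hA hB hk
  have h4 := Nat.mul_le_mul_left (Nat.card (stb (A + B))) h3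
  rw [mul_add, mul_one] at h4
  omega

/-- (E), in the form used at the end -/
theorem lemE' {A B : Finset G} (hA : A.Nonempty) (hB : B.Nonempty)
    (hbad : (A + B).card + 2 ≤ A.card + B.card) (hk : 2 ≤ nc (stb (A + B)) A) :
    A.card + A.card + B.card ≤ (A + A).card + (A + B).card := by
  have htight := kneser_tight A B hA hB (by omega)
  have hf : (stb (A + B) : Set G).Finite := stb_finite (hA.add hB)
  have h1 := card_le_mul_nc hf B
  have h0 := card_le_mul_nc hf A
  have := lemE hA hB hbad hk
  omega

/-- (F) -/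
theorem lemF {L : AddSubgroup G} (hL : (L : Set G).Finite) {A B C : Finset G} {t u : ℕ}
    (hA : A.Nonempty) (hB : B.Nonempty)
    (hAL : InCoset L A) (hBL : InCoset L B) (hCL : InCoset L C)
    (hT : A.card + B.card ≤ Nat.card L)
    (hT2 : 2 * Nat.card L + t + 2 * u < 2 * (A.card + B.card + C.card))
    (hT3 : TThree L A B C t u)
    (hbad : (A + B).card + 2 ≤ A.card + B.card)
    (hkA : nc (stb (A + B)) A = 1) (hkB : nc (stb (A + B)) B = 1) : False := by
  obtain ⟨h1, h2, h3, h4⟩ := bad_facts hA hB hAL hBL hT hbad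
  have h5 := hT3 _ h1 h2 h3
  rw [hkA, hkB] at h4 h5
  have h6 := nc_mul_le hL h1 hCL
  omega

/-- (IIa) -/
theorem lemIIa {L : AddSubgroup G} (hL : (L : Set G).Finite) {A B C : Finset G} {t u : ℕ}
    (hA : A.Nonempty) (hB : B.Nonempty) (hC : C.Nonempty)
    (hAL : InCoset L A) (hBL : InCoset L B) (hCL : InCoset L C)
    (hTB : A.card + B.card ≤ Nat.card L) (hTC : A.card + C.card ≤ Nat.card L)
    (hT2 : 2 * Nat.card L + t + 2 * u < 2 * (A.card + B.card + C.card))
    (hT3 : TThree L A B C t u) (ht : 3 ≤ t)
    (hbadB : (A + B).card + 2 ≤ A.card + B.card)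
    (hbadC : (A + C).card + 2 ≤ A.card + C.card)
    (hkAB : 2 ≤ nc (stb (A + B)) A) (hkB : nc (stb (A + B)) B = 1)
    (hkAC : 2 ≤ nc (stb (A + C)) A) (hkC : nc (stb (A + C)) C = 1) :
    A.card + B.card + (A.card + C.card) + A.card + 1 ≤
      (A + B).card + (A + C).card + (A + A).card + t + u := by
  classical
  obtain ⟨hU1, hU2, hU3, hU4⟩ := bad_facts hA hB hAL hBL hTB hbadB
  obtain ⟨hV1, hV2, hV3, hV4⟩ := bad_facts hA hC hAL hCL hTC hbadC
  have hUst := card_stb (A + B) (hA.add hB)
  have hVst := card_stb (A + C) (hA.add hC)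
  have hEB := nc_add_self_ge hA hB hkAB
  have hEC := nc_add_self_ge hA hC hkAC
  have hUf : (stb (A + B) : Set G).Finite := stb_finite (hA.add hB)
  have hVf : (stb (A + C) : Set G).Finite := stb_finite (hA.add hC)
  have hBle := card_le_mul_nc hUf B
  have hCle := card_le_mul_nc hVf C
  have hAleU := card_le_mul_nc hUf A
  have hAleV := card_le_mul_nc hVf A
  have hselfU := card_add_self_ge hUf A (by omega)
  have hselfV := card_add_self_ge hVf A (by omega)
  have hUdvd := natCard_dvd hU1
  have hVdvd := natCard_dvd hV1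
  have hfull : Nat.card L < A.card + A.card → (A + A).card = Nat.card L :=
    card_add_of_card hL hAL hAL hA hA
  -- numbers of cosets: `A + U` is not a full coset
  have hUlt : Nat.card (stb (A + B)) * nc (stb (A + B)) A < Nat.card L := by
    have h1 := nc_mul_le hL hU1 hAL
    have h2 : (A + B).card < Nat.card L := by
      have := InCoset.card_le hL (hAL.add hBL)
      by_contra hc
      omega
    rw [hkB] at hU4
    omega
  have hVlt : Nat.card (stb (A + C)) * nc (stb (A + C)) A < Nat.card L := by
    have h1 := nc_mul_le hL hV1 hAL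
    have h2 : (A + C).card < Nat.card L := by
      have := InCoset.card_le hL (hAL.add hCL)
      by_contra hc
      omega
    rw [hkC] at hV4
    omega
  -- the intersection
  set U := stb (A + B) with hU
  set V := stb (A + C) with hV
  have hWf : ((U ⊓ V : AddSubgroup G) : Set G).Finite := hUf.subset (fun x hx => hx.1)
  have hWL : U ⊓ V ≤ L := inf_le_left.trans hU1
  have hWne : U ⊓ V ≠ L := by
    intro h
    apply hU3
    apply le_antisymm hU1
    rw [← h]; exact inf_le_left
  -- h_W(A) ≤ h_U(A), etc.
  have hWA1 := card_mul_nc_mono hUf (inf_le_left : U ⊓ V ≤ U) A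
  have hWA2 := card_mul_nc_mono hVf (inf_le_right : U ⊓ V ≤ V) A
  have hWB := card_mul_nc_mono hUf (inf_le_left : U ⊓ V ≤ U) B
  have hWC := card_mul_nc_mono hVf (inf_le_right : U ⊓ V ≤ V) C
  -- the complement of `A` in its coset
  have hcompl := card_missed_two hL hU1 hV1 hA hAL hUlt hVlt
  -- `2A`
  have hAA : Nat.card L ≤ (A + A).card ∨
      Nat.card L + A.card ≤ (A + A).card + Nat.card U * nc U A ∨
      Nat.card L + A.card ≤ (A + A).card + Nat.card V * nc V A := by
    by_cases h2a : Nat.card L < A.card + A.card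
    · left
      exact (hfull h2a).ge
    · rw [hkB, mul_one] at hBle
      rw [hkC, mul_one] at hCle
      have hbig : Nat.card L < 4 * Nat.card U ∨ Nat.card L < 4 * Nat.card V := by omega
      rcases hbig with hbig | hbig
      · right; left
        obtain ⟨m, hm⟩ := hUdvd
        have hm4 : m ≤ 3 := by
          by_contra hc
          have : Nat.card U * 4 ≤ Nat.card U * m := Nat.mul_le_mul_left _ (by omega)
          omega
        have h3 : Nat.card U * m ≤ Nat.card U * nc U (A + A) :=
          Nat.mul_le_mul_left _ (by omega)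
        omega
      · right; right
        obtain ⟨m, hm⟩ := hVdvd
        have hm4 : m ≤ 3 := by
          by_contra hc
          have : Nat.card V * 4 ≤ Nat.card V * m := Nat.mul_le_mul_left _ (by omega)
          omega
        have h3 : Nat.card V * m ≤ Nat.card V * nc V (A + A) :=
          Nat.mul_le_mul_left _ (by omega)
        omega
  rw [hkB] at hU4 hBle
  rw [hkC] at hV4 hCle
  rw [hkB] at hWB
  rw [hkC] at hWC
  by_cases hW0 : U ⊓ V = ⊥
  · have hW1 : Nat.card (U ⊓ V : AddSubgroup G) = 1 := by rw [hW0]; exact AddSubgroup.card_bot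
    omega
  · have hW3 := hT3 _ hWL hW0 hWne
    have hW2 : 2 ≤ Nat.card (U ⊓ V : AddSubgroup G) := by
      have h1 := natCard_pos hWf
      by_contra hc
      apply hW0
      have : Nat.card (U ⊓ V : AddSubgroup G) = 1 := by omega
      exact AddSubgroup.card_eq_one.1 this
    omega

/-- (IIb) -/
theorem lemIIb {L : AddSubgroup G} (hL : (L : Set G).Finite) {A B C : Finset G} {t u : ℕ}
    (hA : A.Nonempty) (hB : B.Nonempty) (hC : C.Nonempty)
    (hAL : InCoset L A) (hBL : InCoset L B) (hCL : InCoset L C)
    (hTA : A.card + C.card ≤ Nat.card L) (hTB : B.card + C.card ≤ Nat.card L)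
    (hT3 : TThree L A B C t u)
    (hbadA : (A + C).card + 2 ≤ A.card + C.card)
    (hbadB : (B + C).card + 2 ≤ B.card + C.card)
    (hkA : nc (stb (A + C)) C = 1) (hkB : nc (stb (B + C)) C = 1) :
    2 * (A.card + C.card + (B.card + C.card)) ≤
      2 * ((A + C).card + (B + C).card) + t + 2 * u := by
  classical
  obtain ⟨hU1, hU2, hU3, hU4⟩ := bad_facts hA hC hAL hCL hTA hbadA
  obtain ⟨hV1, hV2, hV3, hV4⟩ := bad_facts hB hC hBL hCL hTB hbadB
  have hUf : (stb (A + C) : Set G).Finite := stb_finite (hA.add hC)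
  have hVf : (stb (B + C) : Set G).Finite := stb_finite (hB.add hC)
  have hCW : InCoset (stb (A + C) ⊓ stb (B + C)) C := by
    intro x hx y hy
    exact ⟨inCoset_of_nc_eq_one hkA x hx y hy, inCoset_of_nc_eq_one hkB x hx y hy⟩
  have hAle := card_le_mul_nc hUf A
  have hBle := card_le_mul_nc hVf B
  set U := stb (A + C) with hU
  set V := stb (B + C) with hV
  have hWf : ((U ⊓ V : AddSubgroup G) : Set G).Finite := hUf.subset (fun x hx => hx.1)
  have hWL : U ⊓ V ≤ L := inf_le_left.trans hU1
  have hWne : U ⊓ V ≠ L := by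
    intro h
    apply hU3
    apply le_antisymm hU1
    rw [← h]; exact inf_le_left
  have hWA := card_mul_nc_mono hUf (inf_le_left : U ⊓ V ≤ U) A
  have hWB := card_mul_nc_mono hVf (inf_le_right : U ⊓ V ≤ V) B
  have hWC : nc (U ⊓ V) C = 1 := hCW.nc_eq_one hC
  have hCle := card_le_mul_nc hWf C
  rw [hkA] at hU4
  rw [hkB] at hV4
  rw [hWC] at hCle
  have hW0 : U ⊓ V ≠ ⊥ := by
    intro h
    have hW1 : Nat.card (U ⊓ V : AddSubgroup G) = 1 := by rw [h]; exact AddSubgroup.card_bot
    omega
  have hW3 := hT3 _ hWL hW0 hWne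
  rw [hWC] at hW3
  omega

/-- the possible situations of a pair -/
theorem pair_status {L : AddSubgroup G} (hL : (L : Set G).Finite) {A B C : Finset G} {t u : ℕ}
    (hA : A.Nonempty) (hB : B.Nonempty)
    (hAL : InCoset L A) (hBL : InCoset L B) (hCL : InCoset L C)
    (hT : A.card + B.card ≤ Nat.card L)
    (hT2 : 2 * Nat.card L + t + 2 * u < 2 * (A.card + B.card + C.card))
    (hT3 : TThree L A B C t u) :
    (A.card + B.card ≤ (A + B).card + 1) ∨
    ((A.card + A.card + B.card ≤ (A + A).card + (A + B).card) ∧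
      (B.card + A.card + B.card ≤ (B + B).card + (A + B).card)) ∨
    ((A.card + A.card + B.card ≤ (A + A).card + (A + B).card) ∧
      (A + B).card + 2 ≤ A.card + B.card ∧
      2 ≤ nc (stb (A + B)) A ∧ nc (stb (A + B)) B = 1) ∨
    ((B.card + A.card + B.card ≤ (B + B).card + (A + B).card) ∧
      (A + B).card + 2 ≤ A.card + B.card ∧
      nc (stb (A + B)) A = 1 ∧ 2 ≤ nc (stb (A + B)) B) := by
  by_cases hbad : (A + B).card + 2 ≤ A.card + B.card
  · have h1 := nc_pos (V := stb (A + B)) hA
    have h2 := nc_pos (V := stb (A + B)) hB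
    have e1 := lemE' hA hB hbad
    have e2 : 2 ≤ nc (stb (A + B)) B →
        B.card + B.card + A.card ≤ (B + B).card + (A + B).card := by
      have := lemE' (A := B) (B := A) hB hA
      rw [add_comm B A] at this
      exact this (by omega)
    by_cases hkA : nc (stb (A + B)) A = 1
    · by_cases hkB : nc (stb (A + B)) B = 1
      · exact absurd (lemF hL hA hB hAL hBL hCL hT hT2 hT3 hbad hkA hkB) id
      · right; right; right
        have := e2 (by omega)
        exact ⟨by omega, hbad, hkA, by omega⟩
    · by_cases hkB : nc (stb (A + B)) B = 1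
      · right; right; left
        have := e1 (by omega)
        exact ⟨by omega, hbad, by omega, hkB⟩
      · right; left
        have := e1 (by omega)
        have := e2 (by omega)
        exact ⟨by omega, by omega⟩
  · left; omega

theorem lemT {L : AddSubgroup G} (hL : (L : Set G).Finite) {A B C : Finset G} {t u : ℕ}
    (hA : A.Nonempty) (hB : B.Nonempty) (hC : C.Nonempty)
    (hAL : InCoset L A) (hBL : InCoset L B) (hCL : InCoset L C)
    (hAB : A.card + B.card ≤ Nat.card L) (hAC : A.card + C.card ≤ Nat.card L)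
    (hBC : B.card + C.card ≤ Nat.card L)
    (hT2 : 2 * Nat.card L + t + 2 * u < 2 * (A.card + B.card + C.card))
    (hT3 : TThree L A B C t u) (ht : 3 ≤ t) :
    3 * (A.card + B.card + C.card) ≤
      (A + A).card + (A + B).card + (A + C).card + (B + B).card + (B + C).card + (C + C).card
        + t + u := by
  have sAB := pair_status hL hA hB hAL hBL hCL hAB hT2 hT3
  have sAC := pair_status hL hA hC hAL hCL hBL hAC (by omega) hT3.swap23
  have sBC := pair_status hL hB hC hBL hCL hAL hBC (by omega) hT3.swap12.swap23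
  have dA : A.card ≤ (A + A).card := Finset.card_le_card_add_right hA
  have dB : B.card ≤ (B + B).card := Finset.card_le_card_add_right hB
  have dC : C.card ≤ (C + C).card := Finset.card_le_card_add_right hC
  have cAB : B + A = A + B := add_comm B A
  have cAC : C + A = A + C := add_comm C A
  have cBC : C + B = B + C := add_comm C B
  -- (IIa)
  have aA := lemIIa hL hA hB hC hAL hBL hCL hAB hAC hT2 hT3 ht
  have aB := lemIIa hL hB hA hC hBL hAL hCL (by omega) hBC (by omega) hT3.swap12 ht
  have aC := lemIIa hL hC hA hB hCL hAL hBL (by omega) (by omega) (by omega)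
    hT3.swap23.swap12 ht
  rw [cAB] at aB
  rw [cAC, cBC] at aC
  -- (IIb)
  have bC := lemIIb hL hA hB hC hAL hBL hCL hAC hBC hT3
  have bB := lemIIb hL hA hC hB hAL hCL hBL hAB (by omega) hT3.swap23
  have bA := lemIIb hL hB hC hA hBL hCL hAL (by omega) (by omega) hT3.swap12.swap23
  rw [cBC] at bB
  rw [cAB, cAC] at bA
  rcases sAB with sAB | ⟨e1, e1'⟩ | ⟨e1, g1, x1, y1⟩ | ⟨e1, g1, x1, y1⟩ <;>
  rcases sAC with sAC | ⟨e2, e2'⟩ | ⟨e2, g2, x2, y2⟩ | ⟨e2, g2, x2, y2⟩ <;>
  rcases sBC with sBC | ⟨e3, e3'⟩ | ⟨e3, g3, x3, y3⟩ | ⟨e3, g3, x3, y3⟩ <;>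
    first
      | (clear aA aB aC bA bB bC; omega)
      | (have := aA (by omega) (by omega) x1 y1 x2 y2; clear aA aB aC bA bB bC; omega)
      | (have := aB (by omega) (by omega) y1 x1 x3 y3; clear aA aB aC bA bB bC; omega)
      | (have := aC (by omega) (by omega) y2 x2 y3 x3; clear aA aB aC bA bB bC; omega)
      | (have := bC (by omega) (by omega) y2 y3; clear aA aB aC bA bB bC; omega)
      | (have := bB (by omega) (by omega) y1 x3; clear aA aB aC bA bB bC; omega)
      | (have := bA (by omega) (by omega) x1 x2; clear aA aB aC bA bB bC; omega)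

end Pool.Agent.Lib.MP_09e095_co
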