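import Mathlib
import Pool.Agent.Lib.MP_09e095_co.QBasic

/-!
MP_09e095_co : Step A. A set with few holes with respect to a finite subgroup `L`: the holes of
`A + A` come from the two (three) smallest fibres.
-/

set_option autoImplicit false

open Finset
open scoped Pointwise

namespace Pool.Agent.Lib.MP_09e095_co

variable {G : Type*} [AddCommGroup G]

theorem holes_le {L : AddSubgroup G} (B : Finset G) {ι : Type*}
    (J : Finset ι) (s : ι → G ⧸ L) (w : ι → ℕ) (hs : ∀ j ∈ J, s j ∈ cl L B)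
    (hcov : ∀ σ ∈ cl L B, Nat.card L ≤ (fb L B σ).card ∨
      ∃ j ∈ J, s j = σ ∧ Nat.card L ≤ (fb L B σ).card + w j) :
    Nat.card L * nc L B ≤ B.card + ∑ j ∈ J, w j := by
  classical
  have key : ∀ σ ∈ cl L B, Nat.card L ≤ (fb L B σ).card +
      ∑ j ∈ J.filter (fun j => s j = σ), w j := by
    intro σ hσ
    rcases hcov σ hσ with h | ⟨j, hj, h1, h2⟩
    · omega
    · have h3 : w j ≤ ∑ j ∈ J.filter (fun j => s j = σ), w j := by
        apply Finset.single_le_sum (f := w) (fun i _ => Nat.zero_le _)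
        rw [Finset.mem_filter]
        exact ⟨hj, h1⟩
      omega
  have hsum := Finset.sum_le_sum key
  rw [Finset.sum_add_distrib, ← card_eq_sum_fb (V := L) B (le_refl _), Finset.sum_const,
    smul_eq_mul, Finset.sum_fiberwise_of_maps_to hs] at hsum
  have : (cl L B).card = nc L B := rfl
  rw [this, mul_comm] at hsum
  exact hsum

theorem exists_min_fb {L : AddSubgroup G} (A : Finset G) (I : Finset (G ⧸ L))
    (hI : I.Nonempty) : ∃ θ ∈ I, ∀ θ' ∈ I, (fb L A θ).card ≤ (fb L A θ').card :=
  Finset.exists_min_image I (fun θ => (fb L A θ).card) hI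

/-- the sum of the holes -/
theorem sum_holes_fb {L : AddSubgroup G} (hL : (L : Set G).Finite) (A : Finset G) :
    ∑ θ ∈ cl L A, (Nat.card L - (fb L A θ).card) + A.card = Nat.card L * nc L A := by
  rw [card_eq_sum_fb (V := L) A (le_refl _), ← Finset.sum_add_distrib]
  rw [Finset.sum_congr rfl (fun θ _ => Nat.sub_add_cancel (card_fb_le hL A θ))]
  rw [Finset.sum_const, smul_eq_mul, mul_comm]; rfl

theorem mul_nc_le_two {L V : AddSubgroup G} (hL : (L : Set G).Finite) (hV : V ≤ L)
    {A : Finset G} {θ0 θ1 : G ⧸ L} (h0 : θ0 ∈ cl L A) (h1 : θ1 ∈ cl L A) (hne : θ0 ≠ θ1) :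
    Nat.card V * nc V A + 2 * Nat.card L ≤
      Nat.card V * nc V (fb L A θ0) + Nat.card V * nc V (fb L A θ1) +
        Nat.card L * nc L A := by
  classical
  have hle : ∀ θ, Nat.card V * nc V (fb L A θ) ≤ Nat.card L := by
    intro θ
    exact nc_mul_le hL hV (inCoset_fb L A θ)
  rw [nc_eq_sum_fb hV A (le_refl _), Finset.mul_sum]
  have h1' : θ1 ∈ (cl L A).erase θ0 := Finset.mem_erase.2 ⟨hne.symm, h1⟩
  rw [← Finset.add_sum_erase _ _ h0, ← Finset.add_sum_erase _ _ h1']
  have h2 : ∑ θ ∈ ((cl L A).erase θ0).erase θ1, Nat.card V * nc V (fb L A θ) ≤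
      ∑ _θ ∈ ((cl L A).erase θ0).erase θ1, Nat.card L := Finset.sum_le_sum (fun θ _ => hle θ)
  rw [Finset.sum_const, smul_eq_mul] at h2
  have hc1 : (((cl L A).erase θ0).erase θ1).card + 2 = nc L A := by
    have e1 := Finset.card_erase_add_one h0
    have e2 := Finset.card_erase_add_one h1'
    have : (cl L A).card = nc L A := rfl
    omega
  have : (((cl L A).erase θ0).erase θ1).card * Nat.card L + 2 * Nat.card L =
      Nat.card L * nc L A := by
    rw [← hc1]; ring
  omega

theorem mul_nc_le_three {L V : AddSubgroup G} (hL : (L : Set G).Finite) (hV : V ≤ L)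
    {A : Finset G} {θ0 θ1 θ2 : G ⧸ L} (h0 : θ0 ∈ cl L A) (h1 : θ1 ∈ cl L A)
    (h2 : θ2 ∈ cl L A) (h01 : θ0 ≠ θ1) (h02 : θ0 ≠ θ2) (h12 : θ1 ≠ θ2) :
    Nat.card V * nc V A + 3 * Nat.card L ≤
      Nat.card V * nc V (fb L A θ0) + Nat.card V * nc V (fb L A θ1) +
        Nat.card V * nc V (fb L A θ2) + Nat.card L * nc L A := by
  classical
  have hle : ∀ θ, Nat.card V * nc V (fb L A θ) ≤ Nat.card L := by
    intro θ
    exact nc_mul_le hL hV (inCoset_fb L A θ)
  rw [nc_eq_sum_fb hV A (le_refl _), Finset.mul_sum]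
  have h1' : θ1 ∈ (cl L A).erase θ0 := Finset.mem_erase.2 ⟨h01.symm, h1⟩
  have h2' : θ2 ∈ ((cl L A).erase θ0).erase θ1 :=
    Finset.mem_erase.2 ⟨h12.symm, Finset.mem_erase.2 ⟨h02.symm, h2⟩⟩
  rw [← Finset.add_sum_erase _ _ h0, ← Finset.add_sum_erase _ _ h1',
    ← Finset.add_sum_erase _ _ h2']
  have h3 : ∑ θ ∈ (((cl L A).erase θ0).erase θ1).erase θ2, Nat.card V * nc V (fb L A θ) ≤
      ∑ _θ ∈ (((cl L A).erase θ0).erase θ1).erase θ2, Nat.card L :=
    Finset.sum_le_sum (fun θ _ => hle θ)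
  rw [Finset.sum_const, smul_eq_mul] at h3
  have hc1 : ((((cl L A).erase θ0).erase θ1).erase θ2).card + 3 = nc L A := by
    have e1 := Finset.card_erase_add_one h0
    have e2 := Finset.card_erase_add_one h1'
    have e3 := Finset.card_erase_add_one h2'
    have : (cl L A).card = nc L A := rfl
    omega
  have : ((((cl L A).erase θ0).erase θ1).erase θ2).card * Nat.card L + 3 * Nat.card L =
      Nat.card L * nc L A := by
    rw [← hc1]; ring
  omega

variable [DecidableEq G]

/-- what a sum of two fibres contributes -/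
theorem fb_pair {L : AddSubgroup G} (A : Finset G) (θ θ' : G ⧸ L) :
    Nat.card L ≤ (fb L (A + A) (θ + θ')).card +
      (Nat.card L - (fb L A θ + fb L A θ').card) := by
  have := Finset.card_le_card (fb_add_subset (V := L) (A := A) (B := A) (θ := θ) (θ' := θ'))
  omega

theorem fb_pair' {L : AddSubgroup G} (A : Finset G) {θ θ' : G ⧸ L}
    (h : θ ∈ cl L A) :
    Nat.card L ≤ (fb L (A + A) (θ + θ')).card + (Nat.card L - (fb L A θ').card) := by
  have h1 := Finset.card_le_card (fb_add_subset (V := L) (A := A) (B := A) (θ := θ) (θ' := θ'))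
  have h2 : (fb L A θ').card ≤ (fb L A θ + fb L A θ').card :=
    Finset.card_le_card_add_left (fb_nonempty_iff.2 h)
  omega

theorem stepA {L : AddSubgroup G} (hL : (L : Set G).Finite) (A : Finset G)
    (h2 : 2 ≤ nc L A) (hh : Nat.card L * nc L A < A.card + 2 * Nat.card L) :
    (∃ θ0 ∈ cl L A, ∃ θ1 ∈ cl L A, θ0 ≠ θ1 ∧ ∃ u : ℕ,
      u + A.card + 2 * Nat.card L =
        Nat.card L * nc L A + (fb L A θ0).card + (fb L A θ1).card ∧
      Nat.card L * nc L (A + A) + ((fb L A θ0 + fb L A θ0).card +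
        (fb L A θ0 + fb L A θ1).card + (fb L A θ1 + fb L A θ1).card) ≤
        (A + A).card + 3 * Nat.card L + u) ∨
    (∃ θ0 ∈ cl L A, ∃ θ1 ∈ cl L A, ∃ θ2 ∈ cl L A, θ0 ≠ θ1 ∧ θ0 ≠ θ2 ∧ θ1 ≠ θ2 ∧
      (fb L A θ0).card + (fb L A θ1).card ≤ Nat.card L ∧
      (fb L A θ0).card + (fb L A θ2).card ≤ Nat.card L ∧
      (fb L A θ1).card + (fb L A θ2).card ≤ Nat.card L ∧ ∃ u : ℕ,
      u + A.card + 3 * Nat.card L =
        Nat.card L * nc L A + (fb L A θ0).card + (fb L A θ1).card + (fb L A θ2).card ∧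
      Nat.card L * nc L (A + A) + ((fb L A θ0 + fb L A θ0).card +
        (fb L A θ0 + fb L A θ1).card + (fb L A θ0 + fb L A θ2).card +
        (fb L A θ1 + fb L A θ1).card + (fb L A θ1 + fb L A θ2).card +
        (fb L A θ2 + fb L A θ2).card) ≤ (A + A).card + 6 * Nat.card L) := by
  classical
  set l := Nat.card L with hl
  set η : G ⧸ L → ℕ := fun θ => l - (fb L A θ).card with hη
  have hηl : ∀ θ, η θ + (fb L A θ).card = l := fun θ => Nat.sub_add_cancel (card_fb_le hL A θ)
  have hsum := sum_holes_fb hL A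
  rw [← hl] at hsum
  have hsum' : ∑ θ ∈ cl L A, η θ + A.card = l * nc L A := hsum
  have hcard2 : 2 ≤ (cl L A).card := h2
  obtain ⟨θ0, h0, hmin0⟩ := exists_min_fb A (cl L A) (Finset.card_pos.1 (by omega))
  have he0 := Finset.card_erase_add_one h0
  obtain ⟨θ1, h1', hmin1⟩ := exists_min_fb A ((cl L A).erase θ0) (Finset.card_pos.1 (by omega))
  have he1 := Finset.card_erase_add_one h1'
  obtain ⟨h10, h1⟩ := Finset.mem_erase.1 h1'
  have hle01 : (fb L A θ0).card ≤ (fb L A θ1).card := hmin0 θ1 h1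
  have hpair : ∀ θ θ', (fb L A θ + fb L A θ').card ≤ l := by
    intro θ θ'
    exact InCoset.card_le hL ((inCoset_fb L A θ).add (inCoset_fb L A θ'))
  by_cases htri : ∃ θ2 ∈ ((cl L A).erase θ0).erase θ1,
      (∀ θ' ∈ ((cl L A).erase θ0).erase θ1, (fb L A θ2).card ≤ (fb L A θ').card) ∧
      (fb L A θ1).card + (fb L A θ2).card ≤ l
  · -- the triangle
    right
    obtain ⟨θ2, h2'', hmin2, h12le⟩ := htri
    obtain ⟨h21, h2'⟩ := Finset.mem_erase.1 h2''
    obtain ⟨h20, h2m⟩ := Finset.mem_erase.1 h2'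
    have hle12 : (fb L A θ1).card ≤ (fb L A θ2).card := hmin1 θ2 h2'
    have hsplit : ∑ θ ∈ cl L A, η θ = η θ0 + (η θ1 + (η θ2 +
        ∑ θ ∈ (((cl L A).erase θ0).erase θ1).erase θ2, η θ)) := by
      rw [← Finset.add_sum_erase _ _ h0, ← Finset.add_sum_erase _ _ h1',
        ← Finset.add_sum_erase _ _ h2'']
    have hfull : ∀ θ' ∈ (((cl L A).erase θ0).erase θ1).erase θ2, ∀ θ ∈ cl L A,
        l < (fb L A θ).card + (fb L A θ').card := by
      intro θ' hθ' θ hθ
      have hs1 : η θ' ≤ ∑ θ ∈ (((cl L A).erase θ0).erase θ1).erase θ2, η θ :=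
        Finset.single_le_sum (f := η) (fun i _ => Nat.zero_le _) hθ'
      have hθ'2 := hmin2 θ' (Finset.mem_of_mem_erase hθ')
      have := hmin0 θ hθ
      have e0 := hηl θ0
      have e1 := hηl θ1
      have e2 := hηl θ2
      have e3 := hηl θ'
      omega
    refine ⟨θ0, h0, θ1, h1, θ2, h2m, h10.symm, h20.symm, h21.symm, by omega, by omega,
      h12le, ∑ θ ∈ (((cl L A).erase θ0).erase θ1).erase θ2, η θ, ?_, ?_⟩
    · have e0 := hηl θ0
      have e1 := hηl θ1
      have e2 := hηl θ2
      omega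
    · have hmain := holes_le (A + A) (Finset.univ : Finset (Fin 6))
        ![θ0 + θ0, θ0 + θ1, θ0 + θ2, θ1 + θ1, θ1 + θ2, θ2 + θ2]
        ![l - (fb L A θ0 + fb L A θ0).card, l - (fb L A θ0 + fb L A θ1).card,
          l - (fb L A θ0 + fb L A θ2).card, l - (fb L A θ1 + fb L A θ1).card,
          l - (fb L A θ1 + fb L A θ2).card, l - (fb L A θ2 + fb L A θ2).card]
        (by
          intro j _
          fin_cases j
          · exact add_mem_cl h0 h0
          · exact add_mem_cl h0 h1
          · exact add_mem_cl h0 h2m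
          · exact add_mem_cl h1 h1
          · exact add_mem_cl h1 h2m
          · exact add_mem_cl h2m h2m)
        (by
          intro σ hσ
          obtain ⟨θ, hθ, θ', hθ', rfl⟩ := cl_add hσ
          by_cases hθ'3 : θ' ∈ (((cl L A).erase θ0).erase θ1).erase θ2
          · left
            exact card_fb_add_full hL hθ hθ' (hfull θ' hθ'3 θ hθ)
          by_cases hθ3 : θ ∈ (((cl L A).erase θ0).erase θ1).erase θ2
          · left
            have := card_fb_add_full hL hθ' hθ (A := A) (B := A) (hfull θ hθ3 θ' hθ')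
            rwa [add_comm θ θ']
          right
          have hc' : θ' = θ0 ∨ θ' = θ1 ∨ θ' = θ2 := by
            by_contra hcon
            push Not at hcon
            apply hθ'3
            exact Finset.mem_erase.2 ⟨hcon.2.2, Finset.mem_erase.2 ⟨hcon.2.1,
              Finset.mem_erase.2 ⟨hcon.1, hθ'⟩⟩⟩
          have hc : θ = θ0 ∨ θ = θ1 ∨ θ = θ2 := by
            by_contra hcon
            push Not at hcon
            apply hθ3
            exact Finset.mem_erase.2 ⟨hcon.2.2, Finset.mem_erase.2 ⟨hcon.2.1,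
              Finset.mem_erase.2 ⟨hcon.1, hθ⟩⟩⟩
          rcases hc with rfl | rfl | rfl <;> rcases hc' with rfl | rfl | rfl
          · exact ⟨0, Finset.mem_univ _, rfl, fb_pair A _ _⟩
          · exact ⟨1, Finset.mem_univ _, rfl, fb_pair A _ _⟩
          · exact ⟨2, Finset.mem_univ _, rfl, fb_pair A _ _⟩
          · refine ⟨1, Finset.mem_univ _, add_comm _ _, ?_⟩
            rw [add_comm θ θ']; exact fb_pair A _ _
          · exact ⟨3, Finset.mem_univ _, rfl, fb_pair A _ _⟩
          · exact ⟨4, Finset.mem_univ _, rfl, fb_pair A _ _⟩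
          · refine ⟨2, Finset.mem_univ _, add_comm _ _, ?_⟩
            rw [add_comm θ θ']; exact fb_pair A _ _
          · refine ⟨4, Finset.mem_univ _, add_comm _ _, ?_⟩
            rw [add_comm θ θ']; exact fb_pair A _ _
          · exact ⟨5, Finset.mem_univ _, rfl, fb_pair A _ _⟩)
      rw [Fin.sum_univ_six, ← hl] at hmain
      simp only [Matrix.cons_val_zero, Matrix.cons_val_one, Matrix.cons_val] at hmain
      have p1 := hpair θ0 θ0
      have p2 := hpair θ0 θ1
      have p3 := hpair θ0 θ2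
      have p4 := hpair θ1 θ1
      have p5 := hpair θ1 θ2
      have p6 := hpair θ2 θ2
      omega
  · -- the star
    left
    have hfull : ∀ θ ∈ (cl L A).erase θ0, ∀ θ' ∈ ((cl L A).erase θ0).erase θ1,
        l < (fb L A θ).card + (fb L A θ').card := by
      intro θ hθ θ' hθ'
      obtain ⟨θ2, h2'', hmin2⟩ := exists_min_fb A (((cl L A).erase θ0).erase θ1) ⟨θ', hθ'⟩
      have h3 : ¬ ((fb L A θ1).card + (fb L A θ2).card ≤ l) := by
        intro hcon
        exact htri ⟨θ2, h2'', hmin2, hcon⟩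
      have h4 := hmin2 θ' hθ'
      have h5 := hmin1 θ hθ
      omega
    have hsplit : ∑ θ ∈ cl L A, η θ = η θ0 + (η θ1 +
        ∑ θ ∈ ((cl L A).erase θ0).erase θ1, η θ) := by
      rw [← Finset.add_sum_erase _ _ h0, ← Finset.add_sum_erase _ _ h1']
    refine ⟨θ0, h0, θ1, h1, h10.symm, ∑ θ ∈ ((cl L A).erase θ0).erase θ1, η θ, ?_, ?_⟩
    · have e0 := hηl θ0
      have e1 := hηl θ1
      omega
    · have hmain := holes_le (A + A)
        ((Finset.univ : Finset (Fin 3)).disjSum (((cl L A).erase θ0).erase θ1))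
        (Sum.elim ![θ0 + θ0, θ0 + θ1, θ1 + θ1] (fun θ => θ0 + θ))
        (Sum.elim ![l - (fb L A θ0 + fb L A θ0).card, l - (fb L A θ0 + fb L A θ1).card,
          l - (fb L A θ1 + fb L A θ1).card] η)
        (by
          intro j hj
          rcases Finset.mem_disjSum.1 hj with ⟨i, _, rfl⟩ | ⟨θ, hθ, rfl⟩
          · fin_cases i
            · exact add_mem_cl h0 h0
            · exact add_mem_cl h0 h1
            · exact add_mem_cl h1 h1
          · exact add_mem_cl h0 (Finset.mem_of_mem_erase (Finset.mem_of_mem_erase hθ)))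
        (by
          intro σ hσ
          obtain ⟨θ, hθ, θ', hθ', rfl⟩ := cl_add hσ
          -- `θ0` is one of the two
          have haux : ∀ θ' ∈ cl L A, ∃ j ∈ (Finset.univ : Finset (Fin 3)).disjSum
              (((cl L A).erase θ0).erase θ1),
              Sum.elim ![θ0 + θ0, θ0 + θ1, θ1 + θ1] (fun θ => θ0 + θ) j = θ0 + θ' ∧
              l ≤ (fb L (A + A) (θ0 + θ')).card +
              Sum.elim ![l - (fb L A θ0 + fb L A θ0).card, l - (fb L A θ0 + fb L A θ1).card,
                l - (fb L A θ1 + fb L A θ1).card] η j := by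
            intro θ' hθ'
            by_cases e0 : θ' = θ0
            · subst e0
              exact ⟨Sum.inl 0, Finset.mem_disjSum.2 (Or.inl ⟨0, Finset.mem_univ _, rfl⟩), rfl,
                fb_pair A _ _⟩
            by_cases e1 : θ' = θ1
            · subst e1
              exact ⟨Sum.inl 1, Finset.mem_disjSum.2 (Or.inl ⟨1, Finset.mem_univ _, rfl⟩), rfl,
                fb_pair A _ _⟩
            · refine ⟨Sum.inr θ', Finset.mem_disjSum.2 (Or.inr ⟨θ', ?_, rfl⟩), rfl,
                fb_pair' A h0⟩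
              exact Finset.mem_erase.2 ⟨e1, Finset.mem_erase.2 ⟨e0, hθ'⟩⟩
          by_cases e0 : θ = θ0
          · subst e0
            right
            exact haux θ' hθ'
          by_cases e0' : θ' = θ0
          · subst e0'
            right
            rw [add_comm θ θ']
            exact haux θ hθ
          by_cases e1' : θ' = θ1
          · by_cases e1 : θ = θ1
            · subst e1 e1'
              right
              exact ⟨Sum.inl 2, Finset.mem_disjSum.2 (Or.inl ⟨2, Finset.mem_univ _, rfl⟩), rfl,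
                fb_pair A _ _⟩
            · left
              have := card_fb_add_full hL hθ' hθ (A := A) (B := A)
                (hfull θ' (Finset.mem_erase.2 ⟨e0', hθ'⟩) θ
                  (Finset.mem_erase.2 ⟨e1, Finset.mem_erase.2 ⟨e0, hθ⟩⟩))
              rwa [add_comm θ θ']
          · left
            exact card_fb_add_full hL hθ hθ' (hfull θ (Finset.mem_erase.2 ⟨e0, hθ⟩) θ'
              (Finset.mem_erase.2 ⟨e1', Finset.mem_erase.2 ⟨e0', hθ'⟩⟩)))
      rw [Finset.sum_disjSum, Fin.sum_univ_three, ← hl] at hmain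
      simp only [Sum.elim_inl, Sum.elim_inr, Matrix.cons_val_zero, Matrix.cons_val_one,
        Matrix.cons_val] at hmain
      have p1 := hpair θ0 θ0
      have p2 := hpair θ0 θ1
      have p3 := hpair θ1 θ1
      omega

end Pool.Agent.Lib.MP_09e095_co
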