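import Mathlib
import Pool.Agent.Lib.MP_09e095_co.QBasic

/-!
MP_09e095_co : Step C of the two-layer theorem, from the dichotomy for one stabiliser and the
inequality for two incomparable stabilisers.
-/

set_option autoImplicit false

open Finset
open scoped Pointwise

namespace Pool.Agent.Lib.MP_09e095_co

variable {G : Type*} [AddCommGroup G]

/-- the sum of the holes of `A` in the cosets of `V` -/
theorem sum_holes {V : AddSubgroup G} (hV : (V : Set G).Finite) (A : Finset G) :
    ∑ θ ∈ cl V A, (Nat.card V - (fb V A θ).card) + A.card = Nat.card V * nc V A := by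
  rw [card_eq_sum_fb (V := V) A (le_refl _), ← Finset.sum_add_distrib]
  rw [Finset.sum_congr rfl (fun θ _ => Nat.sub_add_cancel (card_fb_le hV A θ))]
  rw [Finset.sum_const, smul_eq_mul, mul_comm]; rfl

/-- the holes in one coset -/
theorem hole_le {V : AddSubgroup G} (hV : (V : Set G).Finite) {A : Finset G} {θ : G ⧸ V}
    (hθ : θ ∈ cl V A) : Nat.card V + A.card ≤ (fb V A θ).card + Nat.card V * nc V A := by
  have h1 := sum_holes hV A
  have h2 : Nat.card V - (fb V A θ).card ≤ ∑ θ ∈ cl V A, (Nat.card V - (fb V A θ).card) :=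
    Finset.single_le_sum (f := fun θ => Nat.card V - (fb V A θ).card)
      (fun i _ => Nat.zero_le _) hθ
  have h3 := card_fb_le hV A θ
  omega

section dec
variable [DecidableEq G]

/-- if the two sets have together fewer than `|V|` holes then their sum is a union of cosets -/
theorem card_add_full {V : AddSubgroup G} (hV : (V : Set G).Finite) (X Y : Finset G)
    (h : Nat.card V * (nc V X + nc V Y) < X.card + Y.card + Nat.card V) :
    Nat.card V * nc V (X + Y) ≤ (X + Y).card := by
  rw [card_eq_sum_fb (V := V) (X + Y) (le_refl _)]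
  have : ∀ σ ∈ cl V (X + Y), Nat.card V ≤ (fb V (X + Y) σ).card := by
    intro σ hσ
    obtain ⟨θ, hθ, θ', hθ', rfl⟩ := cl_add hσ
    have h1 := hole_le hV hθ
    have h2 := hole_le hV hθ'
    rw [mul_add] at h
    exact card_fb_add_full hV hθ hθ' (by omega)
  have h2 := Finset.sum_le_sum this
  rw [Finset.sum_const, smul_eq_mul] at h2
  have h3 : (cl V (X + Y)).card = nc V (X + Y) := rfl
  rw [h3, mul_comm] at h2
  exact h2

/-- fewer than `|V|` holes : saturating does not increase the excess -/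
theorem excess_sat_le {V : AddSubgroup G} (hV : (V : Set G).Finite) (X Y : Finset G)
    (h : Nat.card V * (nc V X + nc V Y) < X.card + Y.card + Nat.card V) :
    Nat.card V * (nc V (X + X) + nc V (X + Y) + nc V (Y + Y)) + X.card + Y.card ≤
      (X + X).card + (X + Y).card + (Y + Y).card + Nat.card V * (nc V X + nc V Y) := by
  have h1 := card_add_full hV X Y h
  rw [mul_add] at h
  have hx := card_le_mul_nc hV X
  have hy := card_le_mul_nc hV Y
  have h2 := card_add_self_ge hV X (by omega)
  have h3 := card_add_self_ge hV Y (by omega)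
  rw [mul_add, mul_add, mul_add]
  omega

/-- if `Y` has at most `|V| / 2` holes then `X + Y` has at most as many holes as `X` -/
theorem holes_add_le {V : AddSubgroup G} (hV : (V : Set G).Finite) (X Y : Finset G) {h : ℕ}
    (hY : Y.card + h = Nat.card V * nc V Y) (h2 : 2 * h ≤ Nat.card V) :
    Nat.card V * nc V (X + Y) + X.card ≤ (X + Y).card + Nat.card V * nc V X := by
  classical
  set n := Nat.card V with hn
  set Lt : Finset (G ⧸ V) := (cl V X).filter (fun κ => (fb V X κ).card ≤ h) with hLt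
  have hsX := sum_holes hV X
  have hsY := sum_holes hV Y
  rw [← hn] at hsX hsY
  have hYsum : ∑ τ ∈ cl V Y, (n - (fb V Y τ).card) = h := by omega
  have key : ∀ σ ∈ cl V (X + Y), n ≤ (fb V (X + Y) σ).card +
      ∑ p ∈ (Lt ×ˢ cl V Y).filter (fun p => p.1 + p.2 = σ), (n - (fb V Y p.2).card) := by
    intro σ hσ
    obtain ⟨κ, hκ, τ, hτ, rfl⟩ := cl_add hσ
    by_cases hl : (fb V X κ).card ≤ h
    · have h3 : n - (fb V Y τ).card ≤
          ∑ p ∈ (Lt ×ˢ cl V Y).filter (fun p => p.1 + p.2 = κ + τ),
            (n - (fb V Y p.2).card) := by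
        apply Finset.single_le_sum (f := fun p : (G ⧸ V) × (G ⧸ V) => n - (fb V Y p.2).card)
          (a := (κ, τ)) (fun i _ => Nat.zero_le _)
        rw [Finset.mem_filter, Finset.mem_product]
        exact ⟨⟨Finset.mem_filter.2 ⟨hκ, hl⟩, hτ⟩, rfl⟩
      have h4 : (fb V Y τ).card ≤ (fb V (X + Y) (κ + τ)).card := by
        refine le_trans ?_ (Finset.card_le_card (fb_add_subset (A := X) (B := Y)))
        exact Finset.card_le_card_add_left (fb_nonempty_iff.2 hκ)
      omega
    · have h3 := hole_le hV hτ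
      rw [← hn] at h3
      have h4 := card_fb_add_full hV hκ hτ (A := X) (B := Y) (by rw [← hn]; omega)
      omega
  have hs := Finset.sum_le_sum key
  rw [Finset.sum_add_distrib, ← card_eq_sum_fb (V := V) (X + Y) (le_refl _)] at hs
  rw [Finset.sum_const, smul_eq_mul] at hs
  rw [Finset.sum_fiberwise_of_maps_to (s := Lt ×ˢ cl V Y) (t := cl V (X + Y))
      (g := fun p : (G ⧸ V) × (G ⧸ V) => p.1 + p.2)
      (fun p hp => by
        rw [Finset.mem_product] at hp
        exact add_mem_cl (Finset.mem_filter.1 hp.1).1 hp.2)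
      (fun p => n - (fb V Y p.2).card)] at hs
  rw [Finset.sum_product] at hs
  simp only [hYsum, Finset.sum_const, smul_eq_mul] at hs
  have h5 : Lt.card * h ≤ ∑ θ ∈ cl V X, (n - (fb V X θ).card) := by
    calc Lt.card * h = ∑ _θ ∈ Lt, h := by rw [Finset.sum_const, smul_eq_mul]
      _ ≤ ∑ θ ∈ Lt, (n - (fb V X θ).card) := by
          apply Finset.sum_le_sum
          intro θ hθ
          have := (Finset.mem_filter.1 hθ).2
          omega
      _ ≤ ∑ θ ∈ cl V X, (n - (fb V X θ).card) := by
          apply Finset.sum_le_sum_of_subset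
          exact Finset.filter_subset _ _
  have : (cl V (X + Y)).card = nc V (X + Y) := rfl
  rw [this] at hs
  have hcomm : nc V (X + Y) * n = n * nc V (X + Y) := mul_comm _ _
  omega

theorem cl_add_sat {S : AddSubgroup G} (hS : (S : Set G).Finite) (X Y : Finset G) :
    cl S (sat S hS X + Y) = cl S (X + Y) := by
  ext c
  constructor
  · intro hc
    obtain ⟨z, hz, rfl⟩ := mem_cl.1 hc
    obtain ⟨x, hx, y, hy, rfl⟩ := Finset.mem_add.1 hz
    obtain ⟨a, ha, h⟩ := mem_sat.1 hx
    refine mem_cl.2 ⟨a + y, Finset.add_mem_add ha hy, mk_eq_of_sub_mem ?_⟩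
    have : a + y - (x + y) = -(x - a) := by abel
    rw [this]; exact S.neg_mem h
  · intro hc
    obtain ⟨z, hz, rfl⟩ := mem_cl.1 hc
    obtain ⟨x, hx, y, hy, rfl⟩ := Finset.mem_add.1 hz
    exact mk_mem_cl (Finset.add_mem_add (subset_sat hx) hy)

theorem sat_add_stable {S : AddSubgroup G} (hS : (S : Set G).Finite) (X Y : Finset G) :
    ∀ v ∈ S, ∀ z ∈ sat S hS X + Y, v + z ∈ sat S hS X + Y := by
  intro v hv z hz
  obtain ⟨x, hx, y, hy, rfl⟩ := Finset.mem_add.1 hz
  obtain ⟨a, ha, h⟩ := mem_sat.1 hx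
  have : v + (x + y) = (v + x) + y := by abel
  rw [this]
  refine Finset.add_mem_add (mem_sat.2 ⟨a, ha, ?_⟩) hy
  have : v + x - a = v + (x - a) := by abel
  rw [this]; exact S.add_mem hv h

omit [DecidableEq G] in
theorem le_stb {S : AddSubgroup G} {P : Finset G} (h : ∀ v ∈ S, ∀ z ∈ P, v + z ∈ P) :
    S ≤ stb P := by
  intro v hv x
  constructor
  · exact h v hv x
  · intro hx
    have := h (-v) (S.neg_mem hv) _ hx
    rwa [neg_add_cancel_left] at this

/-- Kneser's theorem for `X + Y + S` -/
theorem kneser_sat {S : AddSubgroup G} (hS : (S : Set G).Finite) {X Y : Finset G}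
    (hX : X.Nonempty) (hY : Y.Nonempty) :
    ∃ N : AddSubgroup G, (N : Set G).Finite ∧ S ≤ N ∧
      Nat.card S * nc S (X + Y) = Nat.card N * nc N (X + Y) ∧
      Nat.card N * (nc N X + nc N Y) ≤ Nat.card S * nc S (X + Y) + Nat.card N := by
  have hXs : (sat S hS X).Nonempty := hX.mono subset_sat
  set N := stb (sat S hS X + Y) with hN
  have hSN : S ≤ N := le_stb (sat_add_stable hS X Y)
  have hNf : (N : Set G).Finite := stb_finite (hXs.add hY)
  have hc : (sat S hS X + Y).card = Nat.card S * nc S (X + Y) := by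
    rw [card_of_stable hS (sat_add_stable hS X Y)]
    unfold nc; rw [cl_add_sat]
  have hc2 : (sat S hS X + Y).card = Nat.card N * nc N (X + Y) := by
    rw [card_stb _ (hXs.add hY), ← hN]
    congr 1
    unfold nc
    congr 1
    ext c
    constructor
    · intro hc
      obtain ⟨z, hz, rfl⟩ := mem_cl.1 hc
      obtain ⟨x, hx, y, hy, rfl⟩ := Finset.mem_add.1 hz
      obtain ⟨a, ha, h⟩ := mem_sat.1 hx
      refine mem_cl.2 ⟨a + y, Finset.add_mem_add ha hy, mk_eq_of_sub_mem ?_⟩
      have : a + y - (x + y) = -(x - a) := by abel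
      rw [this]; exact N.neg_mem (hSN h)
    · intro hc
      obtain ⟨z, hz, rfl⟩ := mem_cl.1 hc
      obtain ⟨x, hx, y, hy, rfl⟩ := Finset.mem_add.1 hz
      exact mk_mem_cl (Finset.add_mem_add (subset_sat hx) hy)
  refine ⟨N, hNf, hSN, by rw [← hc, hc2], ?_⟩
  have hk := kneser_nc (sat S hS X) Y hXs hY
  rw [← hN, nc_sat hSN, hc] at hk
  exact hk

/-- nonempty set, sum with itself of small size : the data attached to the stabiliser -/
theorem delta_data {X : Finset G} (hX : X.Nonempty) (h : (X + X).card + 2 ≤ 2 * X.card) :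
    ∃ hx : ℕ, X.card + hx = Nat.card (stb (X + X)) * nc (stb (X + X)) X ∧
      2 * hx + 2 ≤ Nat.card (stb (X + X)) ∧
      2 * X.card + 2 * hx = (X + X).card + Nat.card (stb (X + X)) := by
  have h1 := kneser_tight X X hX hX (by omega)
  have h2 := card_le_mul_nc (stb_finite (hX.add hX)) X
  refine ⟨Nat.card (stb (X + X)) * nc (stb (X + X)) X - X.card, by omega, by omega, by omega⟩

variable [Finite G]

omit [DecidableEq G] in
theorem fin_set (V : AddSubgroup G) : (V : Set G).Finite := Set.toFinite _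

omit [DecidableEq G] [Finite G] in
theorem nc_top {X : Finset G} (hX : X.Nonempty) : nc (⊤ : AddSubgroup G) X = 1 :=
  InCoset.nc_eq_one hX (fun _ _ _ _ => AddSubgroup.mem_top _)

omit [DecidableEq G] [Finite G] in
theorem natCard_top : Nat.card (⊤ : AddSubgroup G) = Nat.card G := by
  simp

omit [DecidableEq G] in
theorem two_mul_card_le {S : AddSubgroup G} (hS : S ≠ ⊤) : 2 * Nat.card S ≤ Nat.card G := by
  have h1 : Nat.card S ∣ Nat.card G := AddSubgroup.card_addSubgroup_dvd_card S
  have h2 : Nat.card S < Nat.card (⊤ : AddSubgroup G) := natCard_lt (fin_set ⊤) le_top hS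
  rw [natCard_top] at h2
  obtain ⟨k, hk⟩ := h1
  have h3 : 0 < Nat.card S := natCard_pos (fin_set S)
  have h4 : 2 ≤ k := by
    by_contra hc
    interval_cases k <;> omega
  rw [hk]
  calc 2 * Nat.card S = Nat.card S * 2 := by ring
    _ ≤ Nat.card S * k := Nat.mul_le_mul_left _ h4

/-- STAR -/
theorem star_tau
    (hD : ∀ (S : AddSubgroup G) (X Y : Finset G) (h : ℕ), X.Nonempty → Y.Nonempty →
      X.card + h = Nat.card S * nc S X → 2 * h < Nat.card S →
      Nat.card S * nc S (X + Y) ≤ (X + Y).card + 2 * h ∨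
      X.card + Y.card + Nat.card S ≤ (X + Y).card + 2 * h)
    {τ L : ℕ} (hT : (τ = 3 ∧ L = 4) ∨ (4 ≤ τ ∧ L = τ))
    {X Y : Finset G} (hX : X.Nonempty) (hY : Y.Nonempty)
    (H : ∀ V : AddSubgroup G, V ≠ ⊥ → V ≠ ⊤ →
      4 * Nat.card V + 2 * (X.card + Y.card) ≤ 2 * (Nat.card V * (nc V X + nc V Y)) + L)
    (HK : 2 * (X.card + Y.card) ≤ Nat.card G + τ)
    {S : AddSubgroup G} (hS0 : S ≠ ⊥) (hS1 : S ≠ ⊤) {h : ℕ}
    (h1 : X.card + h = Nat.card S * nc S X) (h2 : 2 * h < Nat.card S) :
    X.card + Y.card + Nat.card S + 1 ≤ (X + Y).card + 2 * h + τ := by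
  rcases hD S X Y h hX hY h1 h2 with hc | hc
  · obtain ⟨N, hNf, hSN, he, hk⟩ := kneser_sat (fin_set S) hX hY
    by_cases hN : N = ⊤
    · rw [hN, natCard_top, nc_top (hX.add hY), mul_one] at he
      have h3 := two_mul_card_le hS1
      rw [he] at hc
      by_cases h4 : X.card + Y.card ≤ Nat.card S
      · omega
      · omega
    · have hN0 : N ≠ ⊥ := by
        rintro rfl
        exact hS0 (le_bot_iff.1 hSN)
      have h3 := H N hN0 hN
      have h4 := natCard_mono hNf hSN
      omega
  · omega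

/-- **Step C.** -/
theorem stepC_of
    -- the dichotomy for one stabiliser
    (hD : ∀ (S : AddSubgroup G) (X Y : Finset G) (h : ℕ), X.Nonempty → Y.Nonempty →
      X.card + h = Nat.card S * nc S X → 2 * h < Nat.card S →
      Nat.card S * nc S (X + Y) ≤ (X + Y).card + 2 * h ∨
      X.card + Y.card + Nat.card S ≤ (X + Y).card + 2 * h)
    {τ L : ℕ} (hT : (τ = 3 ∧ L = 4) ∨ (4 ≤ τ ∧ L = τ))
    {X Y : Finset G} (hX : X.Nonempty) (hY : Y.Nonempty)
    (H : ∀ V : AddSubgroup G, V ≠ ⊥ → V ≠ ⊤ →
      4 * Nat.card V + 2 * (X.card + Y.card) ≤ 2 * (Nat.card V * (nc V X + nc V Y)) + L)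
    (HK : 2 * (X.card + Y.card) ≤ Nat.card G + τ)
    (HF : ∀ V : AddSubgroup G, V ≠ ⊥ →
      (X + X).card + (X + Y).card + (Y + Y).card + Nat.card V * (nc V X + nc V Y) <
        Nat.card V * (nc V (X + X) + nc V (X + Y) + nc V (Y + Y)) + X.card + Y.card)
    -- two incomparable stabilisers
    (hG : ∀ (S R : AddSubgroup G) (hx hy : ℕ), ¬ (S ≤ R) → ¬ (R ≤ S) → S ≠ ⊤ → R ≠ ⊤ →
      S = stb (X + X) → R = stb (Y + Y) →
      X.card + hx = Nat.card S * nc S X → 2 * hx + 2 ≤ Nat.card S →
      Y.card + hy = Nat.card R * nc R Y → 2 * hy + 2 ≤ Nat.card R →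
      (∀ V : AddSubgroup G, V ≠ ⊥ →
        X.card + Y.card + Nat.card V ≤ Nat.card V * (nc V X + nc V Y)) →
      X.card + Y.card ≤ (X + Y).card + 1 →
      X.card + Y.card + (Nat.card S - 2 * hx) + (Nat.card R - 2 * hy) ≤ (X + Y).card + τ) :
    3 * (X.card + Y.card) ≤ (X + X).card + (X + Y).card + (Y + Y).card + τ := by
  -- sizes
  have hXX : X.card ≤ (X + X).card := Finset.card_le_card_add_right hX
  have hYY : Y.card ≤ (Y + Y).card := Finset.card_le_card_add_right hY
  have hXY : X.card ≤ (X + Y).card := Finset.card_le_card_add_right hY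
  have hYX : Y.card ≤ (X + Y).card := Finset.card_le_card_add_left hX
  have hX0 : 0 < X.card := Finset.card_pos.2 hX
  have hY0 : 0 < Y.card := Finset.card_pos.2 hY
  -- the trivial group
  by_cases ht : (⊤ : AddSubgroup G) = ⊥
  · have h1 : ∀ Z : Finset G, Z.card ≤ 1 := by
      intro Z
      have := card_le_of_coset (V := (⊤ : AddSubgroup G)) (fin_set _) (A := Z)
        (fun _ _ _ _ => AddSubgroup.mem_top _)
      rw [ht] at this
      simpa using this
    have := h1 X
    have := h1 Y
    omega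
  -- the whole group
  have hG0 : (X + X).card + (X + Y).card + (Y + Y).card < Nat.card G + X.card + Y.card := by
    have := HF ⊤ ht
    rw [nc_top hX, nc_top hY, nc_top (hX.add hX), nc_top (hX.add hY), nc_top (hY.add hY),
      natCard_top] at this
    omega
  -- every nonzero subgroup has at least `|V|` holes
  have h1 : ∀ V : AddSubgroup G, V ≠ ⊥ →
      X.card + Y.card + Nat.card V ≤ Nat.card V * (nc V X + nc V Y) := by
    intro V hV
    by_contra hc
    push Not at hc
    have := excess_sat_le (fin_set V) X Y hc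
    have := HF V hV
    omega
  -- gamma <= 1
  have hk := kneser_nc X Y hX hY
  have hγ : X.card + Y.card ≤ (X + Y).card + 1 := by
    by_cases hb : stb (X + Y) = ⊥
    · rw [hb] at hk
      rw [nc_bot, nc_bot] at hk
      simp at hk
      omega
    · have := h1 _ hb
      omega
  -- a stabiliser of a large doubled set
  have hst : ∀ Z : Finset G, Z.Nonempty → (Z + Z).card + 2 ≤ 2 * Z.card →
      (Z + Z).card < Nat.card G → stb (Z + Z) ≠ ⊥ ∧ stb (Z + Z) ≠ ⊤ := by
    intro Z hZ h2 h3
    obtain ⟨hz, e1, e2, e3⟩ := delta_data hZ h2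
    constructor
    · intro hb
      rw [hb] at e2
      simp at e2
    · intro hb
      have := card_stb (Z + Z) (hZ.add hZ)
      rw [hb, nc_top (hZ.add hZ), natCard_top] at this
      omega
  by_cases hx2 : (X + X).card + 2 ≤ 2 * X.card
  · obtain ⟨hx, x1, x2, x3⟩ := delta_data hX hx2
    obtain ⟨hS0, hS1⟩ := hst X hX hx2 (by omega)
    by_cases hy2 : (Y + Y).card + 2 ≤ 2 * Y.card
    · obtain ⟨hy, y1, y2, y3⟩ := delta_data hY hy2
      obtain ⟨hR0, hR1⟩ := hst Y hY hy2 (by omega)
      have hXs : (X + X).card = Nat.card (stb (X + X)) * nc (stb (X + X)) (X + X) :=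
        card_stb _ (hX.add hX)
      have hYs : (Y + Y).card = Nat.card (stb (Y + Y)) * nc (stb (Y + Y)) (Y + Y) :=
        card_stb _ (hY.add hY)
      by_cases hSR : stb (X + X) ≤ stb (Y + Y)
      · exfalso
        have e1 := HF _ hS0
        have e2 : (Y + Y).card = Nat.card (stb (X + X)) * nc (stb (X + X)) (Y + Y) :=
          card_of_stable (fin_set _) (fun v hv x hx => ((hSR hv) x).1 hx)
        have e3 := holes_add_le (fin_set (stb (X + X))) Y X x1 (by omega)
        rw [add_comm Y X] at e3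
        rw [mul_add, mul_add, mul_add] at e1
        omega
      · by_cases hRS : stb (Y + Y) ≤ stb (X + X)
        · exfalso
          have e1 := HF _ hR0
          have e2 : (X + X).card = Nat.card (stb (Y + Y)) * nc (stb (Y + Y)) (X + X) :=
            card_of_stable (fin_set _) (fun v hv x hx => ((hRS hv) x).1 hx)
          have e3 := holes_add_le (fin_set (stb (Y + Y))) X Y y1 (by omega)
          rw [mul_add, mul_add, mul_add] at e1
          omega
        · have := hG _ _ hx hy hSR hRS hS1 hR1 rfl rfl x1 x2 y1 y2 h1 hγ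
          omega
    · have := star_tau hD hT hX hY H HK hS0 hS1 x1 (by omega)
      omega
  · by_cases hy2 : (Y + Y).card + 2 ≤ 2 * Y.card
    · obtain ⟨hy, y1, y2, y3⟩ := delta_data hY hy2
      obtain ⟨hR0, hR1⟩ := hst Y hY hy2 (by omega)
      have := star_tau hD hT hY hX
        (fun V h0 h1 => by
          rw [add_comm Y.card X.card, add_comm (nc V Y) (nc V X)]; exact H V h0 h1)
        (by rw [add_comm Y.card X.card]; exact HK) hR0 hR1 y1 (by omega)
      rw [add_comm Y X] at this
      omega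
    · omega

end dec

end Pool.Agent.Lib.MP_09e095_co
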