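import Mathlib
import Pool.Agent.Lib.MP_09e095_co.QStepC

/-!
MP_09e095_co : the two-layer theorem, statement, and its behaviour under quotients and subgroups.
-/

set_option autoImplicit false

open Finset
open scoped Pointwise

namespace Pool.Agent.Lib.MP_09e095_co

/-- the two-layer theorem for the group `G` -/
def QThm (G : Type*) [AddCommGroup G] : Prop :=
  ∀ (_ : DecidableEq G) (X Y : Finset G), X.Nonempty → Y.Nonempty →
    ∃ V : AddSubgroup G, (V : Set G).Finite ∧
      X.card + Y.card + 2 * (Nat.card V * (nc V X + nc V Y)) ≤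
        (X + X).card + (X + Y).card + (Y + Y).card + 3 * Nat.card V

theorem card_image_congr {α β γ : Type*} [DecidableEq β] [DecidableEq γ] (s : Finset α)
    (g₁ : α → β) (g₂ : α → γ) (h : ∀ x ∈ s, ∀ y ∈ s, g₁ x = g₁ y ↔ g₂ x = g₂ y) :
    (s.image g₁).card = (s.image g₂).card := by
  classical
  apply Finset.card_bij (fun b hb => g₂ (Finset.mem_image.1 hb).choose)
  · intro b hb
    exact Finset.mem_image_of_mem _ (Finset.mem_image.1 hb).choose_spec.1
  · intro b hb b' hb' heq
    have h1 := (Finset.mem_image.1 hb).choose_spec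
    have h2 := (Finset.mem_image.1 hb').choose_spec
    rw [← h1.2, ← h2.2]
    exact (h _ h1.1 _ h2.1).2 heq
  · intro c hc
    obtain ⟨x, hx, rfl⟩ := Finset.mem_image.1 hc
    have hb : g₁ x ∈ s.image g₁ := Finset.mem_image_of_mem _ hx
    refine ⟨g₁ x, hb, ?_⟩
    have h1 := (Finset.mem_image.1 hb).choose_spec
    exact (h _ h1.1 _ hx).1 h1.2

variable {G : Type*} [AddCommGroup G]

theorem cl_add_cl [DecidableEq G] {V : AddSubgroup G} [DecidableEq (G ⧸ V)] (X Y : Finset G) :
    cl V (X + Y) = cl V X + cl V Y := by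
  ext c
  rw [Finset.mem_add]
  constructor
  · intro hc
    obtain ⟨θ, hθ, θ', hθ', h⟩ := cl_add hc
    exact ⟨θ, hθ, θ', hθ', h⟩
  · rintro ⟨θ, hθ, θ', hθ', rfl⟩
    exact add_mem_cl hθ hθ'

theorem nc_comap {V : AddSubgroup G} (W : AddSubgroup (G ⧸ V)) (X : Finset G) :
    nc (W.comap (QuotientAddGroup.mk' V)) X = nc W (cl V X) := by
  classical
  unfold nc cl
  rw [Finset.image_image]
  apply card_image_congr
  intro x _ y _
  simp only [Function.comp_apply]
  rw [mk_eq_iff, mk_eq_iff]
  rw [AddSubgroup.mem_comap]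
  rfl

theorem le_comap_mk {V : AddSubgroup G} (W : AddSubgroup (G ⧸ V)) :
    V ≤ W.comap (QuotientAddGroup.mk' V) := by
  intro v hv
  rw [AddSubgroup.mem_comap]
  have : QuotientAddGroup.mk' V v = 0 := by
    simpa using hv
  rw [this]; exact W.zero_mem

theorem card_comap_mk [Finite G] {V : AddSubgroup G} (W : AddSubgroup (G ⧸ V)) :
    Nat.card (W.comap (QuotientAddGroup.mk' V)) = Nat.card V * Nat.card W := by
  classical
  set V' := W.comap (QuotientAddGroup.mk' V) with hV'
  have hV'f : (V' : Set G).Finite := Set.toFinite _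
  have hVf : (V : Set G).Finite := Set.toFinite _
  have hWf : (W : Set (G ⧸ V)).Finite := Set.toFinite _
  rw [natCard_eq hV'f]
  rw [card_of_stable (V := V) hVf (P := hV'f.toFinset)]
  · congr 1
    rw [natCard_eq hWf]
    unfold nc
    congr 1
    ext c
    rw [mem_cl]
    constructor
    · rintro ⟨x, hx, rfl⟩
      simp only [Set.Finite.mem_toFinset, SetLike.mem_coe] at hx ⊢
      exact hx
    · intro hc
      obtain ⟨x, rfl⟩ := QuotientAddGroup.mk_surjective c
      refine ⟨x, ?_, rfl⟩
      simp only [Set.Finite.mem_toFinset, SetLike.mem_coe] at hc ⊢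
      exact hc
  · intro v hv x hx
    simp only [Set.Finite.mem_toFinset, SetLike.mem_coe] at hx ⊢
    exact V'.add_mem (le_comap_mk W hv) hx

/-- the theorem for `G ⧸ V`, read in `G` -/
theorem quot_transfer [DecidableEq G] [Finite G] {V : AddSubgroup G} (hQ : QThm (G ⧸ V))
    {X Y : Finset G} (hX : X.Nonempty) (hY : Y.Nonempty) :
    ∃ V' : AddSubgroup G, V ≤ V' ∧
      Nat.card V * (nc V X + nc V Y) + 2 * (Nat.card V' * (nc V' X + nc V' Y)) ≤
        Nat.card V * (nc V (X + X) + nc V (X + Y) + nc V (Y + Y)) + 3 * Nat.card V' := by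
  classical
  have hX' : (cl V X).Nonempty := by
    obtain ⟨x, hx⟩ := hX
    exact ⟨_, mk_mem_cl hx⟩
  have hY' : (cl V Y).Nonempty := by
    obtain ⟨x, hx⟩ := hY
    exact ⟨_, mk_mem_cl hx⟩
  obtain ⟨W, _, hW⟩ := hQ inferInstance (cl V X) (cl V Y) hX' hY'
  refine ⟨W.comap (QuotientAddGroup.mk' V), le_comap_mk W, ?_⟩
  rw [card_comap_mk, nc_comap, nc_comap]
  rw [← cl_add_cl, ← cl_add_cl, ← cl_add_cl] at hW
  have e1 : (cl V X).card = nc V X := rfl
  have e2 : (cl V Y).card = nc V Y := rfl
  have e3 : (cl V (X + X)).card = nc V (X + X) := rfl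
  have e4 : (cl V (X + Y)).card = nc V (X + Y) := rfl
  have e5 : (cl V (Y + Y)).card = nc V (Y + Y) := rfl
  rw [e1, e2, e3, e4, e5] at hW
  have := Nat.mul_le_mul_left (Nat.card V) hW
  calc Nat.card V * (nc V X + nc V Y) +
        2 * (Nat.card V * Nat.card W * (nc W (cl V X) + nc W (cl V Y)))
      = Nat.card V * (nc V X + nc V Y +
          2 * (Nat.card W * (nc W (cl V X) + nc W (cl V Y)))) := by ring
    _ ≤ Nat.card V * (nc V (X + X) + nc V (X + Y) + nc V (Y + Y) + 3 * Nat.card W) := this
    _ = _ := by ring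

/-- number of cosets, through an injective homomorphism and a translation -/
theorem nc_map {H : Type*} [AddCommGroup H] (f : H →+ G) (hf : Function.Injective f)
    [DecidableEq G] (W : AddSubgroup H) (P : Finset H) (p : G) :
    nc (W.map f) (P.image (fun x => f x + p)) = nc W P := by
  classical
  unfold nc cl
  rw [Finset.image_image]
  apply card_image_congr
  intro x _ y _
  simp only [Function.comp_apply]
  rw [mk_eq_iff, mk_eq_iff]
  have : f x + p - (f y + p) = f (x - y) := by rw [map_sub]; abel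
  rw [this]
  constructor
  · intro h
    obtain ⟨w, hw, hwx⟩ := h
    rw [← hf hwx]; exact hw
  · intro h
    exact ⟨x - y, h, rfl⟩

theorem card_map_sub {H : Type*} [AddCommGroup H] (f : H →+ G) (hf : Function.Injective f)
    (W : AddSubgroup H) : Nat.card (W.map f) = Nat.card W :=
  (Nat.card_congr (W.equivMapOfInjective f hf).toEquiv).symm

/-- the theorem for the group `V`, read in `G` for sets inside cosets of `V` -/
theorem sub_transfer [DecidableEq G] {V : AddSubgroup G} (hQ : QThm V) {P Q : Finset G}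
    (hP : P.Nonempty) (hQ' : Q.Nonempty) (hPV : InCoset V P) (hQV : InCoset V Q) :
    ∃ W : AddSubgroup G, (W : Set G).Finite ∧ W ≤ V ∧
      P.card + Q.card + 2 * (Nat.card W * (nc W P + nc W Q)) ≤
        (P + P).card + (P + Q).card + (Q + Q).card + 3 * Nat.card W := by
  classical
  obtain ⟨p, hp⟩ := hP
  obtain ⟨q, hq⟩ := hQ'
  -- lift
  have lift : ∀ (Z : Finset G) (z : G), z ∈ Z → InCoset V Z →
      ∃ Z' : Finset V, Z = Z'.image (fun x => V.subtype x + z) := by
    intro Z z hz hZ
    refine ⟨(Z.image (fun x => x - z)).subtype (fun x => x ∈ V), ?_⟩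
    ext w
    rw [Finset.mem_image]
    constructor
    · intro hw
      refine ⟨⟨w - z, hZ w hw z hz⟩, ?_, by simp⟩
      rw [Finset.mem_subtype, Finset.mem_image]
      exact ⟨w, hw, rfl⟩
    · rintro ⟨x, hx, rfl⟩
      rw [Finset.mem_subtype, Finset.mem_image] at hx
      obtain ⟨w, hw, hwx⟩ := hx
      have : V.subtype x + z = w := by
        rw [AddSubgroup.coe_subtype, ← hwx]; abel
      rw [this]; exact hw
  obtain ⟨P', hP'⟩ := lift P p hp hPV
  obtain ⟨Q', hQ''⟩ := lift Q q hq hQV
  have hinj : Function.Injective (V.subtype) := Subtype.val_injective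
  have hinj' : ∀ z : G, Function.Injective (fun x : V => V.subtype x + z) := by
    intro z x y hxy
    exact hinj (add_right_cancel hxy)
  have hP'n : P'.Nonempty := by
    rw [hP'] at hp
    obtain ⟨x, hx, _⟩ := Finset.mem_image.1 hp
    exact ⟨x, hx⟩
  have hQ'n : Q'.Nonempty := by
    rw [hQ''] at hq
    obtain ⟨x, hx, _⟩ := Finset.mem_image.1 hq
    exact ⟨x, hx⟩
  obtain ⟨W, hWf, hW⟩ := hQ inferInstance P' Q' hP'n hQ'n
  have hsum : ∀ (A B : Finset V) (a b : G),
      (A.image (fun x => V.subtype x + a) + B.image (fun x => V.subtype x + b)).card =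
        (A + B).card := by
    intro A B a b
    have : A.image (fun x => V.subtype x + a) + B.image (fun x => V.subtype x + b) =
        (A + B).image (fun x => V.subtype x + (a + b)) := by
      ext w
      simp only [Finset.mem_add, Finset.mem_image]
      constructor
      · rintro ⟨_, ⟨x, hx, rfl⟩, _, ⟨y, hy, rfl⟩, rfl⟩
        refine ⟨x + y, ⟨x, hx, y, hy, rfl⟩, ?_⟩
        rw [map_add]; abel
      · rintro ⟨_, ⟨x, hx, y, hy, rfl⟩, rfl⟩
        refine ⟨_, ⟨x, hx, rfl⟩, _, ⟨y, hy, rfl⟩, ?_⟩
        rw [map_add]; abel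
    rw [this, Finset.card_image_of_injective _ (hinj' _)]
  refine ⟨W.map V.subtype, ?_, ?_, ?_⟩
  · rw [AddSubgroup.coe_map]
    exact hWf.image _
  · rintro _ ⟨w, _, rfl⟩
    exact w.2
  · rw [hP', hQ'', nc_map _ hinj, nc_map _ hinj, card_map_sub _ hinj, hsum, hsum, hsum,
      Finset.card_image_of_injective _ (hinj' _), Finset.card_image_of_injective _ (hinj' _)]
    exact hW

end Pool.Agent.Lib.MP_09e095_co
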