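import Mathlib
import Pool.Agent.Lib.MP_09e095_co.QLemT
import Pool.Agent.Lib.MP_09e095_co.QStepA
import Pool.Agent.Lib.MP_09e095_co.QLayers
import Pool.Agent.Lib.MP_09e095_co.QTransfer

/-!
MP_09e095_co : Step B and the induction: theorem Q from Step C.
-/

set_option autoImplicit false

open Finset
open scoped Pointwise

namespace Pool.Agent.Lib.MP_09e095_co

universe u

open Lay (two lay card_two card_two_add_two nc_two nc_two_add_two prod_bot_finite card_prod_bot
  exists_eq_prod_bot down card_down nc_down down_add_down card_map_subtype)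

/-- theorem Q for sets in cosets of the finite subgroup `K` -/
def W2 (G : Type u) [AddCommGroup G] (K : AddSubgroup G) : Prop :=
  ∀ (_ : DecidableEq G) (X Y : Finset G), X.Nonempty → Y.Nonempty → InCoset K X → InCoset K Y →
    ∃ V : AddSubgroup G, V ≤ K ∧
      X.card + Y.card + 2 * (Nat.card V * (nc V X + nc V Y)) ≤
        (X + X).card + (X + Y).card + (Y + Y).card + 3 * Nat.card V

/-- the statement of Step C for the finite group `H` -/
def StepCStmt (H : Type u) [AddCommGroup H] : Prop :=
  ∀ (_ : DecidableEq H) (X Y : Finset H) (tau Lam : ℕ), X.Nonempty → Y.Nonempty →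
    ((tau = 3 ∧ Lam = 4) ∨ (4 ≤ tau ∧ Lam = tau)) →
    (∀ V : AddSubgroup H, V ≠ ⊥ → V ≠ ⊤ →
      4 * Nat.card V + 2 * (X.card + Y.card) ≤
        2 * (Nat.card V * (nc V X + nc V Y)) + Lam) →
    2 * (X.card + Y.card) ≤ Nat.card H + tau →
    (∀ V : AddSubgroup H, V ≠ ⊥ →
      (X + X).card + (X + Y).card + (Y + Y).card + Nat.card V * (nc V X + nc V Y) <
        Nat.card V * (nc V (X + X) + nc V (X + Y) + nc V (Y + Y)) + X.card + Y.card) →
    3 * (X.card + Y.card) ≤ (X + X).card + (X + Y).card + (Y + Y).card + tau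

/-- the quotient step -/
theorem quot_step {G : Type u} [AddCommGroup G] [DecidableEq G] {K V : AddSubgroup G}
    (hVK : V ≤ K) (ih : W2 (G ⧸ V) (K.map (QuotientAddGroup.mk' V))) {X Y : Finset G}
    (hX : X.Nonempty) (hY : Y.Nonempty) (hXK : InCoset K X) (hYK : InCoset K Y) :
    ∃ W : AddSubgroup G, V ≤ W ∧ W ≤ K ∧
      Nat.card V * (nc V X + nc V Y) + 2 * (Nat.card W * (nc W X + nc W Y)) ≤
        Nat.card V * (nc V (X + X) + nc V (X + Y) + nc V (Y + Y)) + 3 * Nat.card W := by
  classical
  have hin : ∀ Z : Finset G, InCoset K Z → InCoset (K.map (QuotientAddGroup.mk' V)) (cl V Z) := by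
    intro Z hZ a ha b hb
    obtain ⟨x, hx, rfl⟩ := mem_cl.1 ha
    obtain ⟨y, hy, rfl⟩ := mem_cl.1 hb
    exact AddSubgroup.mem_map.2 ⟨x - y, hZ x hx y hy, rfl⟩
  have hne : ∀ Z : Finset G, Z.Nonempty → (cl V Z).Nonempty := by
    intro Z hZ
    exact Finset.card_pos.1 (nc_pos hZ)
  obtain ⟨W, hW, h⟩ := ih inferInstance (cl V X) (cl V Y) (hne X hX) (hne Y hY) (hin X hXK)
    (hin Y hYK)
  refine ⟨W.comap (QuotientAddGroup.mk' V), Lay.le_comap_mk W, ?_, ?_⟩
  · intro x hx
    rw [AddSubgroup.mem_comap] at hx
    obtain ⟨k, hk, hkx⟩ := AddSubgroup.mem_map.1 (hW hx)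
    have h1 : (QuotientAddGroup.mk k : G ⧸ V) = QuotientAddGroup.mk x := hkx
    have h2 := sub_mem_of_mk_eq h1
    have h3 := K.sub_mem hk (hVK h2)
    simpa using h3
  · rw [Lay.cl_add_cl, Lay.cl_add_cl, Lay.cl_add_cl, Lay.nc_cl, Lay.nc_cl] at h
    change nc V X + nc V Y + _ ≤ nc V (X + X) + nc V (X + Y) + nc V (Y + Y) + _ at h
    rw [Lay.card_comap_mk]
    have := Nat.mul_le_mul_left (Nat.card V) h
    nlinarith [this]

/-- moving Step C from the group `K` to sets in cosets of `K` -/
theorem stepC_rel {G : Type u} [AddCommGroup G] [DecidableEq G] {K : AddSubgroup G}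
    (hC : StepCStmt K) {X Y : Finset G} (tau : ℕ)
    (hX : X.Nonempty) (hY : Y.Nonempty) (hXK : InCoset K X) (hYK : InCoset K Y)
    (htau : 3 ≤ tau)
    (hH : ∀ V : AddSubgroup G, V ≤ K → V ≠ ⊥ → V ≠ K →
      4 * Nat.card V + 2 * (X.card + Y.card) ≤
        2 * (Nat.card V * (nc V X + nc V Y)) + tau)
    (hHK : 2 * (X.card + Y.card) ≤ Nat.card K + tau)
    (hHF : ∀ V : AddSubgroup G, V ≤ K → V ≠ ⊥ →
      (X + X).card + (X + Y).card + (Y + Y).card + Nat.card V * (nc V X + nc V Y) <
        Nat.card V * (nc V (X + X) + nc V (X + Y) + nc V (Y + Y)) + X.card + Y.card) :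
    3 * (X.card + Y.card) ≤ (X + X).card + (X + Y).card + (Y + Y).card + tau := by
  classical
  obtain ⟨x0, hx0⟩ := hX
  obtain ⟨y0, hy0⟩ := hY
  have hx : ∀ x ∈ X, x - x0 ∈ K := fun x h => hXK x h x0 hx0
  have hy : ∀ y ∈ Y, y - y0 ∈ K := fun y h => hYK y h y0 hy0
  have hxx : ∀ z ∈ X + X, z - (x0 + x0) ∈ K := by
    intro z hz
    obtain ⟨a, ha, b, hb, rfl⟩ := Finset.mem_add.1 hz
    have : a + b - (x0 + x0) = (a - x0) + (b - x0) := by abel
    rw [this]; exact K.add_mem (hx a ha) (hx b hb)
  have hxy : ∀ z ∈ X + Y, z - (x0 + y0) ∈ K := by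
    intro z hz
    obtain ⟨a, ha, b, hb, rfl⟩ := Finset.mem_add.1 hz
    have : a + b - (x0 + y0) = (a - x0) + (b - y0) := by abel
    rw [this]; exact K.add_mem (hx a ha) (hy b hb)
  have hyy : ∀ z ∈ Y + Y, z - (y0 + y0) ∈ K := by
    intro z hz
    obtain ⟨a, ha, b, hb, rfl⟩ := Finset.mem_add.1 hz
    have : a + b - (y0 + y0) = (a - y0) + (b - y0) := by abel
    rw [this]; exact K.add_mem (hy a ha) (hy b hb)
  have hle : ∀ V : AddSubgroup K, V.map K.subtype ≤ K := by
    intro V x hx
    obtain ⟨v, _, rfl⟩ := AddSubgroup.mem_map.1 hx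
    exact v.2
  have hbot : ∀ V : AddSubgroup K, V ≠ ⊥ → V.map K.subtype ≠ ⊥ := by
    intro V hV h
    apply hV
    rw [AddSubgroup.map_eq_bot_iff_of_injective _ K.subtype_injective] at h
    exact h
  have htop : ∀ V : AddSubgroup K, V ≠ ⊤ → V.map K.subtype ≠ K := by
    intro V hV h
    apply hV
    rw [eq_top_iff]
    intro v _
    have h1 : (v : G) ∈ V.map K.subtype := by rw [h]; exact v.2
    obtain ⟨w, hw, hwv⟩ := AddSubgroup.mem_map.1 h1
    have : w = v := Subtype.ext hwv
    rwa [← this]
  have key := hC inferInstance (down K x0 X) (down K y0 Y) tau (if tau = 3 then 4 else tau)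
    (by rw [← Finset.card_pos, card_down hx]; exact Finset.card_pos.2 ⟨x0, hx0⟩)
    (by rw [← Finset.card_pos, card_down hy]; exact Finset.card_pos.2 ⟨y0, hy0⟩)
    (by
      by_cases h : tau = 3
      · left; exact ⟨h, by rw [if_pos h]⟩
      · right; exact ⟨by omega, by rw [if_neg h]⟩)
    (by
      intro V h1 h2
      rw [card_down hx, card_down hy, nc_down hx, nc_down hy, ← card_map_subtype V]
      have := hH _ (hle V) (hbot V h1) (htop V h2)
      split_ifs with h
      · omega
      · exact this)
    (by rw [card_down hx, card_down hy]; exact hHK)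
    (by
      intro V h1
      rw [down_add_down hx hx, down_add_down hx hy, down_add_down hy hy, card_down hx,
        card_down hy, card_down hxx, card_down hxy, card_down hyy, nc_down hx, nc_down hy,
        nc_down hxx, nc_down hxy, nc_down hyy, ← card_map_subtype V]
      exact hHF _ (hle V) (hbot V h1))
  rw [down_add_down hx hx, down_add_down hx hy, down_add_down hy hy, card_down hx,
        card_down hy, card_down hxx, card_down hxy, card_down hyy] at key
  exact key

/-- a proper nontrivial subgroup `V ≤ K` gives a smaller quotient -/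
theorem card_map_mk_lt {G : Type u} [AddCommGroup G] {K V : AddSubgroup G}
    (hK : (K : Set G).Finite) (hVK : V ≤ K) (hV : V ≠ ⊥) :
    Nat.card (K.map (QuotientAddGroup.mk' V)) < Nat.card K := by
  have h1 := Lay.card_comap_mk (K.map (QuotientAddGroup.mk' V))
  have h2 : (K.map (QuotientAddGroup.mk' V)).comap (QuotientAddGroup.mk' V) = K := by
    rw [AddSubgroup.comap_map_eq, QuotientAddGroup.ker_mk']
    exact sup_eq_left.2 hVK
  rw [h2] at h1
  have hVf : (V : Set G).Finite := hK.subset hVK
  have h3 := natCard_pos hVf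
  have h4 : Nat.card V ≠ 1 := by
    intro h
    exact hV (AddSubgroup.card_eq_one.1 h)
  have h5 := natCard_pos hK
  have h6 : 0 < Nat.card (K.map (QuotientAddGroup.mk' V)) := by
    rcases Nat.eq_zero_or_pos (Nat.card (K.map (QuotientAddGroup.mk' V))) with h | h
    · rw [h] at h1; omega
    · exact h
  have h7 : 2 * Nat.card (K.map (QuotientAddGroup.mk' V)) ≤
      Nat.card V * Nat.card (K.map (QuotientAddGroup.mk' V)) :=
    Nat.mul_le_mul_right _ (by omega)
  omega

theorem finite_map_mk {G : Type u} [AddCommGroup G] {K V : AddSubgroup G}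
    (hK : (K : Set G).Finite) :
    ((K.map (QuotientAddGroup.mk' V) : AddSubgroup (G ⧸ V)) : Set (G ⧸ V)).Finite := by
  rw [AddSubgroup.coe_map]
  exact hK.image _

theorem prod_bot_eq_bot {G : Type u} [AddCommGroup G] {V : AddSubgroup G}
    (h : V = ⊥) : V.prod (⊥ : AddSubgroup ℤ) = ⊥ := by
  rw [h]; exact AddSubgroup.bot_prod_bot

/-- the main induction -/
theorem W2_of_stepC (hC : ∀ (H : Type u) [AddCommGroup H] [Finite H], StepCStmt H) :
    ∀ (n : ℕ) (G : Type u) [AddCommGroup G] (K : AddSubgroup G), (K : Set G).Finite →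
      Nat.card K ≤ n → W2 G K := by
  intro n
  induction n with
  | zero =>
    intro G _ K hK hn
    have := natCard_pos hK
    omega
  | succ n ih =>
    intro G _ K hK hn
    intro _ X Y hX hY hXK hYK
    by_contra hcon
    push Not at hcon
    -- the violator
    have hbot := hcon ⊥ bot_le
    rw [nc_bot, nc_bot, AddSubgroup.card_bot] at hbot
    obtain ⟨t, ht⟩ : ∃ t, (X + X).card + (X + Y).card + (Y + Y).card + t + 1 =
        3 * (X.card + Y.card) :=
      ⟨3 * (X.card + Y.card) - ((X + X).card + (X + Y).card + (Y + Y).card) - 1, by omega⟩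
    have ht3 : 3 ≤ t := by omega
    have hpsi : ∀ V : AddSubgroup G, V ≤ K → 3 * Nat.card V + 2 * (X.card + Y.card) ≤
        2 * (Nat.card V * (nc V X + nc V Y)) + t := by
      intro V hV
      have := hcon V hV
      omega
    -- quotients
    have hquot : ∀ V : AddSubgroup G, V ≤ K → V ≠ ⊥ →
        Nat.card V * (nc V X + nc V Y) + 2 * (X.card + Y.card) ≤
          Nat.card V * (nc V (X + X) + nc V (X + Y) + nc V (Y + Y)) + t := by
      intro V hVK hV
      have hlt := card_map_mk_lt hK hVK hV
      obtain ⟨W, _, hWK, hW⟩ := quot_step hVK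
        (ih (G ⧸ V) (K.map (QuotientAddGroup.mk' V)) (finite_map_mk hK) (by omega)) hX hY hXK hYK
      have := hpsi W hWK
      omega
    -- Step B
    have hH : ∀ (m : ℕ) (V : AddSubgroup G), Nat.card V ≤ m → V ≤ K → V ≠ ⊥ → V ≠ K →
        4 * Nat.card V + 2 * (X.card + Y.card) ≤
          2 * (Nat.card V * (nc V X + nc V Y)) + t := by
      intro m
      induction m with
      | zero =>
        intro V hVm hVK
        have := natCard_pos (hK.subset hVK)
        omega
      | succ m ihm =>
        intro V hVm hVK hVbot hVne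
        by_contra hbad
        push Not at hbad
        have hVf : (V : Set G).Finite := hK.subset hVK
        have hVlt := natCard_lt hK hVK hVne
        have hVpos := natCard_pos hVf
        have hq := hquot V hVK hVbot
        -- c(A/V) ≤ 3
        have hc3 : 3 * (nc V X + nc V Y) ≤ nc V (X + X) + nc V (X + Y) + nc V (Y + Y) + 3 := by
          by_contra hcc
          push Not at hcc
          have := Nat.mul_le_mul_left (Nat.card V) hcc
          have e1 : Nat.card V * (nc V (X + X) + nc V (X + Y) + nc V (Y + Y) + 3).succ =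
              Nat.card V * (nc V (X + X) + nc V (X + Y) + nc V (Y + Y)) + 4 * Nat.card V := by
            rw [Nat.succ_eq_add_one]; ring
          have e2 : Nat.card V * (3 * (nc V X + nc V Y)) =
              3 * (Nat.card V * (nc V X + nc V Y)) := by ring
          rw [e1, e2] at this
          omega
        have hc3' := Nat.mul_le_mul_left (Nat.card V) hc3
        have e1 : Nat.card V * (nc V (X + X) + nc V (X + Y) + nc V (Y + Y) + 3) =
              Nat.card V * (nc V (X + X) + nc V (X + Y) + nc V (Y + Y)) + 3 * Nat.card V := by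
            ring
        have e2 : Nat.card V * (3 * (nc V X + nc V Y)) =
              3 * (Nat.card V * (nc V X + nc V Y)) := by ring
        rw [e1, e2] at hc3'
        -- Step A in `G × ℤ`
        set L : AddSubgroup (G × ℤ) := V.prod (⊥ : AddSubgroup ℤ) with hL
        have hLf : (L : Set (G × ℤ)).Finite := prod_bot_finite hVf
        have hLc : Nat.card L = Nat.card V := card_prod_bot V
        have hncL : nc L (two X Y) = nc V X + nc V Y := nc_two V X Y
        have hncL2 : nc L (two X Y + two X Y) = nc V (X + X) + nc V (X + Y) + nc V (Y + Y) :=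
          nc_two_add_two V X Y
        have hcard := card_two X Y
        have hcard2 := card_two_add_two X Y
        have hX1 := nc_pos (V := V) hX
        have hY1 := nc_pos (V := V) hY
        have hA := stepA hLf (two X Y) (by omega) (by rw [hncL, hLc]; omega)
        rw [hncL, hncL2, hLc, hcard, hcard2] at hA
        rcases hA with ⟨θ0, h0, θ1, h1, hne, u, hu, hA⟩ |
          ⟨θ0, h0, θ1, h1, θ2, h2, h01, h02, h12, s01, s02, s12, u, hu, hA⟩
        · -- two fibres
          obtain ⟨V', hV', hV'2⟩ := ih (G × ℤ) L hLf (by omega) inferInstance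
            (fb L (two X Y) θ0) (fb L (two X Y) θ1) (fb_nonempty_iff.2 h0)
            (fb_nonempty_iff.2 h1) (inCoset_fb _ _ _) (inCoset_fb _ _ _)
          have hm := mul_nc_le_two hLf hV' h0 h1 hne
          obtain ⟨W, hWV, rfl⟩ := exists_eq_prod_bot hV'
          have hp := hpsi W (hWV.trans hVK)
          rw [nc_two, hncL, hLc, card_prod_bot] at hm
          rw [card_prod_bot, mul_add] at hV'2
          omega
        · -- three fibres
          have hT3 : TThree L (fb L (two X Y) θ0) (fb L (two X Y) θ1) (fb L (two X Y) θ2) t u := by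
            intro V' hV' hV'bot hV'ne
            have hm := mul_nc_le_three hLf hV' h0 h1 h2 h01 h02 h12
            obtain ⟨W, hWV, rfl⟩ := exists_eq_prod_bot hV'
            have hWne : W ≠ V := by
              rintro rfl
              exact hV'ne rfl
            have hWbot : W ≠ ⊥ := by
              intro h
              exact hV'bot (prod_bot_eq_bot h)
            have hWlt := natCard_lt hVf hWV hWne
            have hWK : W ≠ K := by
              rintro rfl
              omega
            have hp := ihm W (by omega) (hWV.trans hVK) hWbot hWK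
            rw [nc_two, hncL, hLc, card_prod_bot] at hm
            rw [card_prod_bot]
            omega
          have hT := lemT hLf (fb_nonempty_iff.2 h0) (fb_nonempty_iff.2 h1)
            (fb_nonempty_iff.2 h2) (inCoset_fb _ _ _) (inCoset_fb _ _ _) (inCoset_fb _ _ _)
            (by rw [hLc]; exact s01) (by rw [hLc]; exact s02) (by rw [hLc]; exact s12)
            (t := t) (u := u) (by rw [hLc]; omega) hT3 ht3
          omega
    have hH' : ∀ V : AddSubgroup G, V ≤ K → V ≠ ⊥ → V ≠ K →
        4 * Nat.card V + 2 * (X.card + Y.card) ≤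
          2 * (Nat.card V * (nc V X + nc V Y)) + t := fun V => hH (Nat.card V) V le_rfl
    -- Step C
    haveI : Finite K := hK.to_subtype
    have hfin := stepC_rel (hC K) t hX hY hXK hYK ht3 hH'
      (by
        have h1 := hpsi K le_rfl
        rw [hXK.nc_eq_one hX, hYK.nc_eq_one hY] at h1
        omega)
      (by
        intro V hVK hV
        have := hquot V hVK hV
        omega)
    omega

/-- theorem Q for a finite group, given Step C -/
theorem QThm_of_stepC (hC : ∀ (H : Type u) [AddCommGroup H] [Finite H], StepCStmt H)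
    (G : Type u) [AddCommGroup G] [Finite G] [DecidableEq G] (X Y : Finset G)
    (hX : X.Nonempty) (hY : Y.Nonempty) :
    ∃ V : AddSubgroup G, X.card + Y.card + 2 * (Nat.card V * (nc V X + nc V Y)) ≤
        (X + X).card + (X + Y).card + (Y + Y).card + 3 * Nat.card V := by
  obtain ⟨V, _, h⟩ := W2_of_stepC hC (Nat.card (⊤ : AddSubgroup G)) G ⊤ (Set.toFinite _) le_rfl
    inferInstance X Y hX hY (fun x _ y _ => AddSubgroup.mem_top _)
    (fun x _ y _ => AddSubgroup.mem_top _)
  exact ⟨V, h⟩

/-- theorem Q for a finite group, given Step C, in the form `QThm` -/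
theorem QThm_of_stepC' (hC : ∀ (H : Type u) [AddCommGroup H] [Finite H], StepCStmt H)
    (G : Type u) [AddCommGroup G] [Finite G] : QThm G := by
  intro _ X Y hX hY
  obtain ⟨V, hV⟩ := QThm_of_stepC hC G X Y hX hY
  exact ⟨V, Set.toFinite _, hV⟩

end Pool.Agent.Lib.MP_09e095_co
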