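import Mathlib
import Pool.Agent.Lib.MP_09e095_co.KneserStrong

/-!
MP_09e095_co : preparations for the STAR dichotomy (two summands, one of them nearly periodic).
-/

set_option autoImplicit false

open Finset
open scoped Pointwise

namespace Pool.Agent.Lib.MP_09e095_co.Star

variable {G : Type*} [AddCommGroup G]

theorem cl_add {S : AddSubgroup G} [DecidableEq G] [DecidableEq (G ⧸ S)] (X Y : Finset G) :
    cl S (X + Y) = cl S X + cl S Y := by
  ext q
  rw [mem_cl, Finset.mem_add]
  constructor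
  · rintro ⟨z, hz, rfl⟩
    obtain ⟨x, hx, y, hy, rfl⟩ := Finset.mem_add.1 hz
    exact ⟨_, mk_mem_cl hx, _, mk_mem_cl hy, by rw [← QuotientAddGroup.mk_add]⟩
  · rintro ⟨a, ha, b, hb, rfl⟩
    obtain ⟨x, hx, rfl⟩ := mem_cl.1 ha
    obtain ⟨y, hy, rfl⟩ := mem_cl.1 hb
    exact ⟨x + y, Finset.add_mem_add hx hy, by rw [QuotientAddGroup.mk_add]⟩

theorem fb_add_subset {S : AddSubgroup G} [DecidableEq G] (X Y : Finset G) (σ τ : G ⧸ S) :
    fb S X σ + fb S Y τ ⊆ fb S (X + Y) (σ + τ) := by
  intro z hz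
  obtain ⟨x, hx, y, hy, rfl⟩ := Finset.mem_add.1 hz
  rw [mem_fb] at hx hy ⊢
  exact ⟨Finset.add_mem_add hx.1 hy.1, by rw [QuotientAddGroup.mk_add, hx.2, hy.2]⟩

theorem fb_sub_mem {S : AddSubgroup G} {X : Finset G} {σ : G ⧸ S} :
    ∀ x ∈ fb S X σ, ∀ y ∈ fb S X σ, x - y ∈ S := by
  intro x hx y hy
  exact sub_mem_of_mk_eq ((mem_fb.1 hx).2.trans (mem_fb.1 hy).2.symm)

theorem add_sub_mem {S : AddSubgroup G} [DecidableEq G] {A B : Finset G}
    (hA : ∀ x ∈ A, ∀ y ∈ A, x - y ∈ S) (hB : ∀ x ∈ B, ∀ y ∈ B, x - y ∈ S) :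
    ∀ x ∈ A + B, ∀ y ∈ A + B, x - y ∈ S := by
  intro x hx y hy
  obtain ⟨a, ha, b, hb, rfl⟩ := Finset.mem_add.1 hx
  obtain ⟨a', ha', b', hb', rfl⟩ := Finset.mem_add.1 hy
  have : a + b - (a' + b') = (a - a') + (b - b') := by abel
  rw [this]; exact S.add_mem (hA a ha a' ha') (hB b hb b' hb')

theorem natCard_pos {S : AddSubgroup G} (hS : (S : Set G).Finite) : 0 < Nat.card S := by
  have : Finite S := hS.to_subtype
  exact Nat.card_pos

/-- pigeonhole inside a coset -/
theorem inter_ge {S : AddSubgroup G} [DecidableEq G] (hS : (S : Set G).Finite) {A B : Finset G}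
    (hA : ∀ x ∈ A, ∀ y ∈ A, x - y ∈ S) (hB : ∀ x ∈ B, ∀ y ∈ B, x - y ∈ S) {a₀ b₀ q : G}
    (ha : a₀ ∈ A) (hb : b₀ ∈ B) (hq : q - (a₀ + b₀) ∈ S) :
    A.card + B.card ≤ ((A ×ˢ B).filter (fun p => p.1 + p.2 = q)).card + Nat.card S := by
  classical
  -- A and q - B
  let B' : Finset G := B.image (fun b => q - b)
  have hB' : B'.card = B.card := Finset.card_image_of_injective _ (by
    intro x y h
    simpa using h)
  have hun : (A ∪ B').card ≤ Nat.card S := by
    apply card_le_of_coset hS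
    have key : ∀ x ∈ A ∪ B', x - a₀ ∈ S := by
      intro x hx
      rcases Finset.mem_union.1 hx with hx | hx
      · exact hA x hx a₀ ha
      · obtain ⟨b, hb', rfl⟩ := Finset.mem_image.1 hx
        have : q - b - a₀ = (q - (a₀ + b₀)) + (b₀ - b) := by abel
        rw [this]; exact S.add_mem hq (hB b₀ hb b hb')
    intro x hx y hy
    have : x - y = (x - a₀) - (y - a₀) := by abel
    rw [this]; exact S.sub_mem (key x hx) (key y hy)
  have hin : (A ∩ B').card ≤ ((A ×ˢ B).filter (fun p => p.1 + p.2 = q)).card := by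
    apply Finset.card_le_card_of_injOn (fun x => (x, q - x))
    · intro x hx
      rw [Finset.mem_coe, Finset.mem_inter] at hx
      obtain ⟨hx1, hx2⟩ := hx
      obtain ⟨b, hb', h⟩ := Finset.mem_image.1 hx2
      simp only [Finset.coe_filter, Finset.mem_product, Set.mem_ofPred_eq]
      refine ⟨⟨hx1, ?_⟩, by abel⟩
      have : q - x = b := by rw [← h]; abel
      rw [this]; exact hb'
    · intro x _ y _ h
      exact (Prod.mk.inj h).1
  have := Finset.card_union_add_card_inter A B'
  omega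

theorem card_add_full {S : AddSubgroup G} [DecidableEq G] (hS : (S : Set G).Finite)
    {A B : Finset G}
    (hA : ∀ x ∈ A, ∀ y ∈ A, x - y ∈ S) (hB : ∀ x ∈ B, ∀ y ∈ B, x - y ∈ S)
    (h : Nat.card S < A.card + B.card) : (A + B).card = Nat.card S := by
  classical
  have hAle := card_le_of_coset hS hA
  have hBle := card_le_of_coset hS hB
  have hA0 : A.Nonempty := by
    rw [← Finset.card_pos]; omega
  have hB0 : B.Nonempty := by
    rw [← Finset.card_pos]; omega
  obtain ⟨a₀, ha⟩ := hA0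
  obtain ⟨b₀, hb⟩ := hB0
  apply le_antisymm
  · exact card_le_of_coset hS (add_sub_mem hA hB)
  · rw [natCard_eq hS]
    apply Finset.card_le_card_of_injOn (fun v => a₀ + b₀ + v)
    · intro v hv
      have hv' : v ∈ S := by simpa using hv
      have hq : (a₀ + b₀ + v) - (a₀ + b₀) ∈ S := by simpa using hv'
      have h1 := inter_ge hS hA hB ha hb hq
      have h2 : 0 < ((A ×ˢ B).filter (fun p => p.1 + p.2 = a₀ + b₀ + v)).card := by omega
      obtain ⟨p, hp⟩ := Finset.card_pos.1 h2
      rw [Finset.mem_filter, Finset.mem_product] at hp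
      show a₀ + b₀ + v ∈ A + B
      rw [← hp.2]
      exact Finset.add_mem_add hp.1.1 hp.1.2
    · intro x _ y _ hxy
      simpa using hxy

/-- Kneser inside a coset: more than half on one side, not full -/
theorem kneser_third {S : AddSubgroup G} [DecidableEq G] (hS : (S : Set G).Finite)
    {A B : Finset G} (hA0 : A.Nonempty) (hB0 : B.Nonempty)
    (hA : ∀ x ∈ A, ∀ y ∈ A, x - y ∈ S) (hB : ∀ x ∈ B, ∀ y ∈ B, x - y ∈ S)
    (h2 : Nat.card S < 2 * A.card) (hnf : (A + B).card < Nat.card S) :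
    3 * (A.card + B.card) ≤ 3 * (A + B).card + Nat.card S := by
  classical
  have hAB0 := hA0.add hB0
  set V := stb (A + B) with hVdef
  have hVfin : (V : Set G).Finite := stb_finite hAB0
  have hVS : V ≤ S := by
    intro v hv
    obtain ⟨z, hz⟩ := hAB0
    have h1 := (hv z).1 hz
    have := add_sub_mem hA hB _ h1 _ hz
    simpa using this
  have hk := kneser_nc A B hA0 hB0
  rw [← hVdef] at hk
  have h1 := card_le_mul_nc hVfin A
  have h3 := card_le_mul_nc hVfin B
  have hcard := card_stb (A + B) hAB0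
  rw [← hVdef] at hcard
  have : Finite S := hS.to_subtype
  obtain ⟨w, hw⟩ : Nat.card V ∣ Nat.card S := AddSubgroup.card_dvd_of_le hVS
  set v := Nat.card V with hv
  set k := nc V (A + B) with hkdef
  have hvpos : 0 < v := natCard_pos hVfin
  have hAle : A.card ≤ (A + B).card := Finset.card_le_card_add_right hB0
  have hkw : k < w := by
    by_contra hcon
    have hcon := not_lt.1 hcon
    have : v * w ≤ v * k := Nat.mul_le_mul_left _ hcon
    omega
  have h2k : w < 2 * k := by
    by_contra hcon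
    have hcon := not_lt.1 hcon
    have : v * (2 * k) ≤ v * w := Nat.mul_le_mul_left _ hcon
    have h4 : v * (2 * k) = 2 * (v * k) := by ring
    omega
  have hw3 : 3 ≤ w := by omega
  have h5 : 3 * v ≤ Nat.card S := by
    rw [hw]
    have : v * 3 ≤ v * w := Nat.mul_le_mul_left _ hw3
    omega
  rw [mul_add] at hk
  omega

end Pool.Agent.Lib.MP_09e095_co.Star
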