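import Mathlib
import Pool.Agent.Lib.MP_09e095_co.QStarA

/-!
MP_09e095_co : representation counts and averaging for the STAR dichotomy.
-/

set_option autoImplicit false

open Finset
open scoped Pointwise

namespace Pool.Agent.Lib.MP_09e095_co.Star

variable {H : Type*} [AddCommGroup H]

/-- the holes of `A` with respect to a finite subgroup dominate the holes of one coset -/
theorem hole_one_coset {N : AddSubgroup H} (hN : (N : Set H).Finite) {A : Finset H} {θ : H ⧸ N}
    (hθ : θ ∈ cl N A) : Nat.card N + A.card ≤ (fb N A θ).card + Nat.card N * nc N A := by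
  classical
  have h1 := card_eq_sum_fb (V := N) A (le_refl _)
  have h2 : ∑ θ' ∈ (cl N A).erase θ, (fb N A θ').card ≤ Nat.card N * ((cl N A).erase θ).card := by
    rw [mul_comm, ← smul_eq_mul]
    apply Finset.sum_le_card_nsmul
    intro θ' _
    exact card_fb_le hN A θ'
  have h3 := Finset.add_sum_erase (cl N A) (fun θ' => (fb N A θ').card) hθ
  have h4 : ((cl N A).erase θ).card + 1 = (cl N A).card := Finset.card_erase_add_one hθ
  have h5 : nc N A = ((cl N A).erase θ).card + 1 := h4.symm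
  rw [h5, mul_add, mul_one]
  omega

/-- every element of `A + B` has at least `ν - e` representations, `ν` the order of the
stabiliser and `e` the number of holes of `A` and `B` with respect to it -/
theorem rep_ge [DecidableEq H] {A B : Finset H} {q : H} (hq : q ∈ A + B) {N : AddSubgroup H}
    (hN : (N : Set H).Finite) {e : ℕ} (he : A.card + B.card + e = Nat.card N * (nc N A + nc N B)) :
    Nat.card N ≤ ((A ×ˢ B).filter (fun p => p.1 + p.2 = q)).card + e := by
  classical
  obtain ⟨a, ha, b, hb, rfl⟩ := Finset.mem_add.1 hq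
  have h1 := hole_one_coset hN (A := A) (mk_mem_cl ha)
  have h2 := hole_one_coset hN (A := B) (mk_mem_cl hb)
  have ha' : a ∈ fb N A (QuotientAddGroup.mk a) := mem_fb.2 ⟨ha, rfl⟩
  have hb' : b ∈ fb N B (QuotientAddGroup.mk b) := mem_fb.2 ⟨hb, rfl⟩
  have h3 := inter_ge hN (fb_sub_mem (S := N) (X := A) (σ := QuotientAddGroup.mk a))
    (fb_sub_mem (S := N) (X := B) (σ := QuotientAddGroup.mk b)) (q := a + b) ha' hb'
    (by rw [sub_self]; exact N.zero_mem)
  have h4 : ((fb N A (QuotientAddGroup.mk a) ×ˢ fb N B (QuotientAddGroup.mk b)).filter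
      (fun p => p.1 + p.2 = a + b)).card ≤ ((A ×ˢ B).filter (fun p => p.1 + p.2 = a + b)).card := by
    apply Finset.card_le_card
    intro p hp
    rw [Finset.mem_filter, Finset.mem_product] at hp ⊢
    exact ⟨⟨fb_subset hp.1.1, fb_subset hp.1.2⟩, hp.2⟩
  rw [mul_add] at he
  omega

theorem rep_pos [DecidableEq H] {A B : Finset H} {q : H} (hq : q ∈ A + B) :
    1 ≤ ((A ×ˢ B).filter (fun p => p.1 + p.2 = q)).card := by
  obtain ⟨a, ha, b, hb, rfl⟩ := Finset.mem_add.1 hq
  rw [Nat.one_le_iff_ne_zero, ← Nat.pos_iff_ne_zero, Finset.card_pos]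
  exact ⟨(a, b), by simp [ha, hb]⟩

/-- averaging over representations -/
theorem avg_reps [DecidableEq H] {A B : Finset H} {r : ℕ}
    (hr : ∀ q ∈ A + B, r ≤ ((A ×ˢ B).filter (fun p => p.1 + p.2 = q)).card)
    (hole : H → ℕ) (b : H → H → ℕ) (hb : ∀ σ ∈ A, ∀ τ ∈ B, hole (σ + τ) ≤ b σ τ) :
    r * ∑ q ∈ A + B, hole q ≤ ∑ τ ∈ B, ∑ σ ∈ A, b σ τ := by
  classical
  have h1 : ∑ τ ∈ B, ∑ σ ∈ A, b σ τ = ∑ p ∈ A ×ˢ B, b p.1 p.2 := by
    rw [Finset.sum_comm, Finset.sum_product]
  rw [h1]
  have h2 : ∑ p ∈ A ×ˢ B, b p.1 p.2 =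
      ∑ q ∈ A + B, ∑ p ∈ (A ×ˢ B).filter (fun p => p.1 + p.2 = q), b p.1 p.2 := by
    rw [Finset.sum_fiberwise_of_maps_to]
    intro p hp
    rw [Finset.mem_product] at hp
    exact Finset.add_mem_add hp.1 hp.2
  rw [h2, Finset.mul_sum]
  apply Finset.sum_le_sum
  intro q hq
  calc r * hole q ≤ ((A ×ˢ B).filter (fun p => p.1 + p.2 = q)).card * hole q :=
        Nat.mul_le_mul_right _ (hr q hq)
    _ = ((A ×ˢ B).filter (fun p => p.1 + p.2 = q)).card • hole q := by rw [smul_eq_mul]
    _ ≤ ∑ p ∈ (A ×ˢ B).filter (fun p => p.1 + p.2 = q), b p.1 p.2 := by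
        apply Finset.card_nsmul_le_sum
        intro p hp
        rw [Finset.mem_filter, Finset.mem_product] at hp
        have := hb p.1 hp.1.1 p.2 hp.1.2
        rwa [hp.2] at this

/-- arithmetic of the STAR dichotomy -/
theorem star_arith {s h r l W D : ℤ} (hP : 2 * h < s) (hh : 0 ≤ h) (hr : 1 ≤ r)
    (hl : 2 * r + 1 ≤ l) (W1 : l * (r * s - (r + 1) * h) ≤ W)
    (W2 : l * (3 * r * s - 3 * r * h - s) ≤ 3 * W)
    (hD : -(r * r * s) + r * h + W ≤ r * D) :
    s - 2 * h ≤ D ∧ (4 ≤ l → l * (s - 2 * h) ≤ 2 * D) := by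
  obtain ⟨P, rfl⟩ : ∃ P, s = P + 2 * h := ⟨s - 2 * h, by ring⟩
  have hP' : 0 < P := by linarith
  rcases eq_or_lt_of_le hr with h1 | h1
  · subst h1
    have key : (l - 2) * P ≤ D := by
      by_cases hc : h ≤ P
      · nlinarith
      · have hc := not_le.1 hc
        have e1 : l * (2 * P + h) ≤ 3 * W := by nlinarith
        have e2 : 0 ≤ (l - 3) * (h - P) := mul_nonneg (by linarith) (by linarith)
        nlinarith
    constructor
    · nlinarith
    · intro h4
      nlinarith
  · have hr2 : 2 ≤ r := by linarith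
    -- (2r+1) * 3 * W ≥ 3 l [(2r-1)(r+1) P + r(2r-1) h]
    have e1 : l * ((2 * r - 1) * (r + 1) * P + r * (2 * r - 1) * h) ≤ (2 * r + 1) * W := by
      have a1 : (2 * r - 2) * (l * (r * (P + 2 * h) - (r + 1) * h)) ≤ (2 * r - 2) * W :=
        mul_le_mul_of_nonneg_left W1 (by linarith)
      nlinarith
    have e2 : (2 * r + 1) * (-(r * r * (P + 2 * h)) + r * h + W) ≤ (2 * r + 1) * (r * D) :=
      mul_le_mul_of_nonneg_left hD (by linarith)
    have e3 : (l * ((2 * r - 1) * (r + 1)) - (2 * r + 1) * (r * r)) * P ≤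
        (2 * r + 1) * (r * D) := by
      have a1 : 0 ≤ (l - 2 * r - 1) * (r * (2 * r - 1) * h) := by
        apply mul_nonneg (by linarith)
        apply mul_nonneg _ hh
        apply mul_nonneg <;> linarith
      nlinarith
    have e4 : (2 * r + 1) * (r * l) ≤ 2 * (l * ((2 * r - 1) * (r + 1)) - (2 * r + 1) * (r * r)) := by
      have a1 : 0 ≤ (l - (2 * r + 1)) * (2 * (r * r) + r - 2) := by
        apply mul_nonneg (by linarith)
        nlinarith
      nlinarith
    have e5 : (2 * r + 1) * (r * (l * P)) ≤ (2 * r + 1) * (r * (2 * D)) := by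
      have a1 := mul_le_mul_of_nonneg_right e4 hP'.le
      nlinarith
    have e6 : l * P ≤ 2 * D := by
      have a1 : r * (l * P) ≤ r * (2 * D) := le_of_mul_le_mul_left e5 (by linarith)
      exact le_of_mul_le_mul_left a1 (by linarith)
    constructor
    · nlinarith
    · intro _
      have : l * (P + 2 * h - 2 * h) = l * P := by ring
      linarith

end Pool.Agent.Lib.MP_09e095_co.Star
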