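import Mathlib
import Pool.Agent.Lib.MP_09e095_co.QStarB

/-!
MP_09e095_co : the STAR dichotomy for `X + Y`, where `X` is nearly periodic modulo `S`.
-/

set_option autoImplicit false

open Finset
open scoped Pointwise

namespace Pool.Agent.Lib.MP_09e095_co.Star

variable {G : Type*} [AddCommGroup G]

/-- the light `S`-cosets of `Y`: those containing at most `h` elements -/
noncomputable def lt (S : AddSubgroup G) (Y : Finset G) (h : ℕ) : Finset (G ⧸ S) :=
  (cl S Y).filter (fun τ => (fb S Y τ).card ≤ h)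

theorem mem_lt {S : AddSubgroup G} {Y : Finset G} {h : ℕ} {τ : G ⧸ S} :
    τ ∈ lt S Y h ↔ τ ∈ cl S Y ∧ (fb S Y τ).card ≤ h := by
  unfold lt; rw [Finset.mem_filter]

theorem lt_subset (S : AddSubgroup G) (Y : Finset G) (h : ℕ) : lt S Y h ⊆ cl S Y :=
  Finset.filter_subset _ _

/-- total holes as a sum over cosets -/
theorem sum_holes {S : AddSubgroup G} (hS : (S : Set G).Finite) (X : Finset G) :
    X.card + ∑ σ ∈ cl S X, (Nat.card S - (fb S X σ).card) = Nat.card S * nc S X := by
  rw [card_eq_sum_fb (V := S) X (le_refl _), ← Finset.sum_add_distrib]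
  have : ∀ σ ∈ cl S X, (fb S X σ).card + (Nat.card S - (fb S X σ).card) = Nat.card S := by
    intro σ _
    have := card_fb_le hS X σ
    omega
  rw [Finset.sum_congr rfl this, Finset.sum_const, smul_eq_mul, mul_comm]
  rfl

variable [DecidableEq G]

/-- the loss in the sum of the cosets `σ` and `τ` -/
noncomputable def bl (S : AddSubgroup G) (X Y : Finset G) (σ τ : G ⧸ S) : ℕ :=
  Nat.card S - (fb S X σ + fb S Y τ).card

/-- the loss of the coset `τ` of `Y` -/
noncomputable def loss (S : AddSubgroup G) (X Y : Finset G) (τ : G ⧸ S) : ℕ :=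
  ∑ σ ∈ cl S X, bl S X Y σ τ

theorem bl_le_left {S : AddSubgroup G} {X Y : Finset G} {σ τ : G ⧸ S} (hτ : τ ∈ cl S Y) :
    bl S X Y σ τ ≤ Nat.card S - (fb S X σ).card := by
  unfold bl
  have h1 : (fb S X σ).card ≤ (fb S X σ + fb S Y τ).card :=
    Finset.card_le_card_add_right (fb_nonempty_iff.2 hτ)
  omega

theorem loss_le {S : AddSubgroup G} (hS : (S : Set G).Finite) {X Y : Finset G} {h : ℕ}
    (hh : X.card + h = Nat.card S * nc S X) {τ : G ⧸ S} (hτ : τ ∈ cl S Y) :
    loss S X Y τ ≤ h := by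
  have h1 := sum_holes hS X
  have h2 : loss S X Y τ ≤ ∑ σ ∈ cl S X, (Nat.card S - (fb S X σ).card) :=
    Finset.sum_le_sum (fun σ _ => bl_le_left hτ)
  omega

omit [DecidableEq G] in
theorem hole_le {S : AddSubgroup G} (hS : (S : Set G).Finite) {X : Finset G} {h : ℕ}
    (hh : X.card + h = Nat.card S * nc S X) {σ : G ⧸ S} (hσ : σ ∈ cl S X) :
    Nat.card S ≤ (fb S X σ).card + h := by
  have h1 := sum_holes hS X
  have h2 : Nat.card S - (fb S X σ).card ≤ ∑ σ ∈ cl S X, (Nat.card S - (fb S X σ).card) :=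
    Finset.single_le_sum (f := fun σ => Nat.card S - (fb S X σ).card) (fun _ _ => Nat.zero_le _) hσ
  omega

theorem loss_eq_zero {S : AddSubgroup G} (hS : (S : Set G).Finite) {X Y : Finset G} {h : ℕ}
    (hh : X.card + h = Nat.card S * nc S X) {τ : G ⧸ S} (hτ : h < (fb S Y τ).card) :
    loss S X Y τ = 0 := by
  unfold loss
  apply Finset.sum_eq_zero
  intro σ hσ
  have h1 := hole_le hS hh hσ
  have h2 := card_add_full hS (fb_sub_mem (S := S) (X := X) (σ := σ))
    (fb_sub_mem (S := S) (X := Y) (σ := τ)) (by omega)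
  unfold bl
  omega

theorem loss_third {S : AddSubgroup G} (hS : (S : Set G).Finite) {X Y : Finset G} {h : ℕ}
    (hh : X.card + h = Nat.card S * nc S X) (h2 : 2 * h < Nat.card S) {τ : G ⧸ S}
    (hτ : τ ∈ lt S Y h) :
    3 * ((fb S Y τ).card + loss S X Y τ) ≤ 3 * h + Nat.card S := by
  classical
  obtain ⟨hτ1, hτ2⟩ := mem_lt.1 hτ
  by_cases h0 : loss S X Y τ = 0
  · omega
  · obtain ⟨σ, hσ, hne⟩ : ∃ σ ∈ cl S X, bl S X Y σ τ ≠ 0 := by
      by_contra hcon
      apply h0
      unfold loss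
      apply Finset.sum_eq_zero
      intro σ hσ
      by_contra hc
      exact hcon ⟨σ, hσ, hc⟩
    have hge := hole_le hS hh hσ
    have hk := kneser_third hS (fb_nonempty_iff.2 hσ) (fb_nonempty_iff.2 hτ1)
      (fb_sub_mem (S := S) (X := X) (σ := σ)) (fb_sub_mem (S := S) (X := Y) (σ := τ))
      (by omega) (by unfold bl at hne; omega)
    have hfull := card_fb_le hS X σ
    have hsum := sum_holes hS X
    have e1 : loss S X Y τ = bl S X Y σ τ + ∑ σ' ∈ (cl S X).erase σ, bl S X Y σ' τ := by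
      unfold loss
      rw [Finset.add_sum_erase _ (fun σ' => bl S X Y σ' τ) hσ]
    have e2 : ∑ σ ∈ cl S X, (Nat.card S - (fb S X σ).card) = (Nat.card S - (fb S X σ).card) +
        ∑ σ' ∈ (cl S X).erase σ, (Nat.card S - (fb S X σ').card) := by
      rw [Finset.add_sum_erase _ (fun σ' => Nat.card S - (fb S X σ').card) hσ]
    have e3 : ∑ σ' ∈ (cl S X).erase σ, bl S X Y σ' τ ≤
        ∑ σ' ∈ (cl S X).erase σ, (Nat.card S - (fb S X σ').card) :=
      Finset.sum_le_sum (fun σ' _ => bl_le_left hτ1)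
    have e4 : bl S X Y σ τ = Nat.card S - (fb S X σ + fb S Y τ).card := rfl
    have e5 : (fb S X σ + fb S Y τ).card ≤ Nat.card S :=
      card_le_of_coset hS (add_sub_mem (fb_sub_mem (S := S) (X := X) (σ := σ))
        (fb_sub_mem (S := S) (X := Y) (σ := τ)))
    omega

/-- holes of `X + Y` -/
theorem hole_sum_le {S : AddSubgroup G} {X Y : Finset G} (σ τ : G ⧸ S) :
    Nat.card S - (fb S (X + Y) (σ + τ)).card ≤ bl S X Y σ τ := by
  have := Finset.card_le_card (fb_add_subset (S := S) X Y σ τ)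
  unfold bl
  omega

theorem w1_arith {r s h y w : ℤ} (a3 : w ≤ h) (a4 : y ≤ h) (a5 : 1 ≤ r) :
    r * s - (r + 1) * h ≤ r * (s - y) - w := by
  have a6 : 0 ≤ (r - 1) * (h - y) := mul_nonneg (by linarith) (by linarith)
  nlinarith [a6]

theorem w2_arith {r s h y w : ℤ} (a3 : 3 * (y + w) ≤ 3 * h + s) (a4 : y ≤ h) (a5 : 1 ≤ r) :
    3 * r * s - 3 * r * h - s ≤ 3 * (r * (s - y) - w) := by
  have a6 : 0 ≤ (r - 1) * (h - y) := mul_nonneg (by linarith) (by linarith)
  nlinarith [a6]

/-- the STAR dichotomy -/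
theorem star_dich {S : AddSubgroup G} (hS : (S : Set G).Finite) {X Y : Finset G}
    (hX : X.Nonempty) (hY : Y.Nonempty) {h : ℕ}
    (hh : X.card + h = Nat.card S * nc S X) (h2 : 2 * h < Nat.card S) :
    Nat.card S * nc S (X + Y) ≤ (X + Y).card + 2 * h ∨
    (3 ≤ (lt S Y h).card ∧ X.card + Y.card + (Nat.card S - 2 * h) ≤ (X + Y).card ∧
      (4 ≤ (lt S Y h).card →
        2 * (X.card + Y.card) + (lt S Y h).card * (Nat.card S - 2 * h) ≤ 2 * (X + Y).card)) := by
  classical
  set s := Nat.card S with hs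
  have hX' : (cl S X).Nonempty := by
    obtain ⟨x, hx⟩ := hX; exact ⟨_, mk_mem_cl hx⟩
  have hY' : (cl S Y).Nonempty := by
    obtain ⟨x, hx⟩ := hY; exact ⟨_, mk_mem_cl hx⟩
  set U := cl S X + cl S Y with hU
  set N := stb U with hN
  have hNfin : (N : Set (G ⧸ S)).Finite := stb_finite (hX'.add hY')
  have hkn := kneser_nc (cl S X) (cl S Y) hX' hY'
  rw [← hU, ← hN] at hkn
  have hxe := card_le_mul_nc hNfin (cl S X)
  have hye := card_le_mul_nc hNfin (cl S Y)
  obtain ⟨e, he⟩ : ∃ e, (cl S X).card + (cl S Y).card + e =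
      Nat.card N * (nc N (cl S X) + nc N (cl S Y)) := by
    refine ⟨Nat.card N * (nc N (cl S X) + nc N (cl S Y)) - ((cl S X).card + (cl S Y).card), ?_⟩
    rw [mul_add]; omega
  set ν := Nat.card N with hν
  set r := max 1 (ν - e) with hr
  have hr1 : 1 ≤ r := le_max_left _ _
  have hr2 : ν ≤ r + e := by
    have := le_max_right 1 (ν - e)
    omega
  have hreps : ∀ q ∈ cl S X + cl S Y,
      r ≤ ((cl S X ×ˢ cl S Y).filter (fun p => p.1 + p.2 = q)).card := by
    intro q hq
    have h1 := rep_ge hq hNfin he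
    have h3 := rep_pos hq
    rw [hr]
    apply max_le h3
    omega
  -- averaging
  have havg := avg_reps hreps (fun q => s - (fb S (X + Y) q).card) (fun σ τ => bl S X Y σ τ)
    (fun σ _ τ _ => hole_sum_le σ τ)
  have hsumU := sum_holes hS (X + Y)
  rw [cl_add, ← hs] at hsumU
  rw [← hU] at hsumU havg
  have hncU : nc S (X + Y) = U.card := by unfold nc; rw [cl_add]
  set Hq := ∑ q ∈ U, (s - (fb S (X + Y) q).card) with hHq
  set L := ∑ τ ∈ lt S Y h, loss S X Y τ with hL
  have hlossum : ∑ τ ∈ cl S Y, ∑ σ ∈ cl S X, bl S X Y σ τ = L := by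
    rw [hL]
    have : ∀ τ ∈ cl S Y, τ ∉ lt S Y h → loss S X Y τ = 0 := by
      intro τ hτ hn
      apply loss_eq_zero hS hh
      by_contra hc
      exact hn (mem_lt.2 ⟨hτ, not_lt.1 hc⟩)
    have h5 := Finset.sum_subset (f := fun τ => loss S X Y τ) (lt_subset S Y h) this
    rw [h5]
    rfl
  rw [hlossum] at havg
  set l := (lt S Y h).card with hl
  have hLh : L ≤ l * h := by
    rw [hL, hl, ← smul_eq_mul]
    apply Finset.sum_le_card_nsmul
    intro τ hτ
    exact loss_le hS hh (mem_lt.1 hτ).1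
  rcases le_or_gt l (2 * r) with hcase | hcase
  · left
    rw [hncU]
    rw [hncU] at hsumU
    have h3 : r * Hq ≤ r * (2 * h) := by
      calc r * Hq ≤ l * h := havg.trans hLh
        _ ≤ (2 * r) * h := Nat.mul_le_mul_right _ hcase
        _ = r * (2 * h) := by ring
    have h4 : Hq ≤ 2 * h := Nat.le_of_mul_le_mul_left h3 hr1
    omega
  · right
    have hsumY := sum_holes hS Y
    rw [← hs] at hsumY
    have hsubY : ∑ τ ∈ lt S Y h, (s - (fb S Y τ).card) ≤
        ∑ τ ∈ cl S Y, (s - (fb S Y τ).card) :=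
      Finset.sum_le_sum_of_subset (lt_subset S Y h)
    rw [hncU] at hsumU
    -- W over the integers
    let W : ℤ := ∑ τ ∈ lt S Y h, ((r : ℤ) * (s - (fb S Y τ).card) - loss S X Y τ)
    have hW1 : (l : ℤ) * (r * s - (r + 1) * h) ≤ W := by
      rw [hl, ← smul_eq_mul, Nat.cast_smul_eq_nsmul]
      apply Finset.card_nsmul_le_sum
      intro τ hτ
      have a1 := loss_le hS hh (mem_lt.1 hτ).1 (X := X)
      have a2 := (mem_lt.1 hτ).2
      have a3 : (loss S X Y τ : ℤ) ≤ h := by exact_mod_cast a1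
      have a4 : (((fb S Y τ).card : ℕ) : ℤ) ≤ h := by exact_mod_cast a2
      have a5 : (1 : ℤ) ≤ r := by exact_mod_cast hr1
      exact w1_arith a3 a4 a5
    have hW2 : (l : ℤ) * (3 * r * s - 3 * r * h - s) ≤ 3 * W := by
      have : 3 * W = ∑ τ ∈ lt S Y h, 3 * ((r : ℤ) * (s - (fb S Y τ).card) - loss S X Y τ) := by
        simp only [W, Finset.mul_sum]
      rw [this, hl, ← smul_eq_mul, Nat.cast_smul_eq_nsmul]
      apply Finset.card_nsmul_le_sum
      intro τ hτ
      have a1 := loss_third hS hh h2 hτ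
      have a2 := (mem_lt.1 hτ).2
      have a3 : 3 * (((fb S Y τ).card : ℤ) + loss S X Y τ) ≤ 3 * h + s := by exact_mod_cast a1
      have a4 : (((fb S Y τ).card : ℕ) : ℤ) ≤ h := by exact_mod_cast a2
      have a5 : (1 : ℤ) ≤ r := by exact_mod_cast hr1
      exact w2_arith a3 a4 a5
    have hWsum : W = (r : ℤ) * (∑ τ ∈ lt S Y h, (s - (fb S Y τ).card) : ℕ) - L := by
      simp only [W, hL]
      rw [Finset.sum_sub_distrib, Nat.cast_sum, Nat.cast_sum, Finset.mul_sum]
      congr 1
      apply Finset.sum_congr rfl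
      intro τ _
      rw [Nat.cast_sub (card_fb_le hS Y τ)]
    set HY := ∑ τ ∈ lt S Y h, (s - (fb S Y τ).card) with hHY
    have hD : -((r : ℤ) * r * s) + r * h + W ≤
        r * (((X + Y).card : ℤ) - X.card - Y.card) := by
      have b1 : (r : ℤ) * Hq ≤ L := by exact_mod_cast havg
      have b2 : ((X + Y).card : ℤ) + Hq = s * U.card := by exact_mod_cast hsumU
      have b3 : (X.card : ℤ) + h = s * (cl S X).card := by exact_mod_cast hh
      have b4 : (Y.card : ℤ) + HY ≤ s * (cl S Y).card := by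
        have : Y.card + HY ≤ s * (cl S Y).card := by
          have : s * (cl S Y).card = s * nc S Y := rfl
          omega
        exact_mod_cast this
      have b5 : ((cl S X).card : ℤ) + (cl S Y).card + e ≤ U.card + ν := by
        have : (cl S X).card + (cl S Y).card + e ≤ U.card + ν := by omega
        exact_mod_cast this
      have b6 : (ν : ℤ) ≤ r + e := by exact_mod_cast hr2
      have b7 : (0 : ℤ) ≤ s := Int.natCast_nonneg _
      have b8 : (0 : ℤ) ≤ r := Int.natCast_nonneg _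
      -- |X+Y| = s U - Hq ≥ s (X̂ + Ŷ - r) - Hq
      have c1 : ((cl S X).card : ℤ) + (cl S Y).card - r ≤ U.card := by linarith
      have c2 : (s : ℤ) * (((cl S X).card : ℤ) + (cl S Y).card - r) ≤ s * U.card :=
        mul_le_mul_of_nonneg_left c1 b7
      have c2' : (s : ℤ) * (cl S X).card + s * (cl S Y).card - s * r ≤ s * U.card := by
        rw [mul_sub, mul_add] at c2
        exact c2
      have c3 : (X.card : ℤ) + h + Y.card + HY - s * r - Hq ≤ (X + Y).card := by linarith
      have c4 : (r : ℤ) * ((X.card : ℤ) + h + Y.card + HY - s * r - Hq) ≤ r * (X + Y).card :=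
        mul_le_mul_of_nonneg_left c3 b8
      rw [hWsum]
      clear_value HY Hq L s r l
      linarith [c4, b1]
    have hfin := star_arith (s := (s : ℤ)) (h := h) (r := r) (l := l) (W := W)
      (D := ((X + Y).card : ℤ) - X.card - Y.card) (by exact_mod_cast h2)
      (Int.natCast_nonneg _) (by exact_mod_cast hr1) (by exact_mod_cast hcase) hW1 hW2 hD
    obtain ⟨f1, f2⟩ := hfin
    refine ⟨by omega, ?_, ?_⟩
    · omega
    · intro h4
      have f3 := f2 (by exact_mod_cast h4)
      have f4 : (((l * (s - 2 * h) : ℕ)) : ℤ) = l * ((s : ℤ) - 2 * h) := by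
        rw [Nat.cast_mul, Nat.cast_sub h2.le]; push_cast; ring
      have f5 : ((2 * (X.card + Y.card) + l * (s - 2 * h) : ℕ) : ℤ) ≤ ((2 * (X + Y).card : ℕ) : ℤ) := by
        push_cast
        push_cast at f4
        linarith
      exact_mod_cast f5

end Pool.Agent.Lib.MP_09e095_co.Star
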