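import Mathlib
import Pool.Agent.Lib.MP_09e095_co.CosetCount
import Pool.Agent.Lib.MP_09e095_co.KneserStrong

/-!
MP_09e095_co : grid lemmas inside the cosets of `J = S ⊔ R`, `S ⊓ R = ⊥`
(combinatorial part of inequality (G)).
-/

set_option autoImplicit false
set_option linter.unusedSectionVars false

open Finset
open scoped Pointwise

namespace Pool.Agent.Lib.MP_09e095_co.QG

variable {G : Type*} [AddCommGroup G] [Fintype G] [DecidableEq G]

theorem fin_sub (V : AddSubgroup G) : (V : Set G).Finite := Set.toFinite _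

/-- saturation in a finite group -/
noncomputable abbrev st (V : AddSubgroup G) (A : Finset G) : Finset G := sat V (fin_sub V) A

/-- `|S ⊔ R| = |S| |R|` when `S ⊓ R = ⊥` -/
theorem card_sup_of_inf_bot (S R : AddSubgroup G) (h : S ⊓ R = ⊥) :
    Nat.card (S ⊔ R : AddSubgroup G) = Nat.card S * Nat.card R := by
  rw [← Nat.card_prod]
  symm
  apply Nat.card_eq_of_bijective
    (f := fun p : S × R => (⟨p.1.1 + p.2.1, AddSubgroup.add_mem_sup p.1.2 p.2.2⟩ :
      (S ⊔ R : AddSubgroup G)))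
  constructor
  · rintro ⟨⟨a, ha⟩, ⟨b, hb⟩⟩ ⟨⟨c, hc⟩, ⟨d, hd⟩⟩ heq
    simp only [Subtype.mk.injEq] at heq
    have h1 : a - c ∈ S ⊓ R := by
      refine ⟨S.sub_mem ha hc, ?_⟩
      have : a - c = d - b := by
        rw [sub_eq_sub_iff_add_eq_add, heq, add_comm]
      rw [this]; exact R.sub_mem hd hb
    rw [h, AddSubgroup.mem_bot] at h1
    have hac : a = c := sub_eq_zero.1 h1
    subst hac
    have : b = d := by simpa using heq
    subst this
    rfl
  · rintro ⟨x, hx⟩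
    obtain ⟨s, hs, r, hr, rfl⟩ := AddSubgroup.mem_sup.1 hx
    exact ⟨(⟨s, hs⟩, ⟨r, hr⟩), rfl⟩

/-- elements of one coset of `S` lie in different cosets of `R` -/
theorem card_eq_nc_of_coset {S R : AddSubgroup G} (h : S ⊓ R = ⊥) {A : Finset G}
    (hA : ∀ x ∈ A, ∀ y ∈ A, x - y ∈ S) : nc R A = A.card := by
  classical
  unfold nc cl
  apply Finset.card_image_of_injOn
  intro x hx y hy hxy
  have h1 : x - y ∈ R := sub_mem_of_mk_eq hxy
  have h2 : x - y ∈ S ⊓ R := ⟨hA x hx y hy, h1⟩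
  rw [h, AddSubgroup.mem_bot] at h2
  exact sub_eq_zero.1 h2

/-- a set has at most `nc S · nc R` elements if `S ⊓ R = ⊥` -/
theorem card_le_nc_mul_nc {S R : AddSubgroup G} (h : S ⊓ R = ⊥) (A : Finset G) :
    A.card ≤ nc S A * nc R A := by
  classical
  unfold nc
  rw [← Finset.card_product]
  apply Finset.card_le_card_of_injOn
    (fun x => ((QuotientAddGroup.mk x : G ⧸ S), (QuotientAddGroup.mk x : G ⧸ R)))
  · intro x hx
    simp only [Finset.coe_product, Set.mem_prod, Finset.mem_coe]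
    exact ⟨mk_mem_cl hx, mk_mem_cl hx⟩
  · intro x _ y _ hxy
    simp only [Prod.mk.injEq] at hxy
    have h2 : x - y ∈ S ⊓ R := ⟨sub_mem_of_mk_eq hxy.1, sub_mem_of_mk_eq hxy.2⟩
    rw [h, AddSubgroup.mem_bot] at h2
    exact sub_eq_zero.1 h2

/-- the holes -/
theorem card_holes {S : AddSubgroup G} {X : Finset G} {e : ℕ}
    (hX : X.card + e = Nat.card S * nc S X) : (st S X \ X).card = e := by
  have h1 : (st S X \ X).card + X.card = (st S X).card :=
    Finset.card_sdiff_add_card_eq_card subset_sat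
  have h2 : (st S X).card = Nat.card S * nc S X := card_sat _ _
  omega

/-- the (B2) count: a missing point of a `J`-coset of `X + Y` -/
theorem grid_count {S R : AddSubgroup G} {X Y : Finset G} {eX eY : ℕ}
    (hX : X.card + eX = Nat.card S * nc S X) (hY : Y.card + eY = Nat.card R * nc R Y)
    {x0 y0 z : G} (hz : z - (x0 + y0) ∈ S ⊔ R) (hzn : z ∉ X + Y) :
    nc S (fb (S ⊔ R) X (QuotientAddGroup.mk x0)) * nc R (fb (S ⊔ R) Y (QuotientAddGroup.mk y0))
      ≤ eX + eY := by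
  classical
  set J := S ⊔ R with hJ
  set A := fb J X (QuotientAddGroup.mk x0) with hA
  set B := fb J Y (QuotientAddGroup.mk y0) with hB
  let P : Finset G := (st S X \ X) ∪ ((st R Y \ Y).image (fun b => z - b))
  have hP : P.card ≤ eX + eY := by
    calc P.card ≤ (st S X \ X).card + ((st R Y \ Y).image (fun b => z - b)).card :=
          Finset.card_union_le _ _
      _ ≤ (st S X \ X).card + (st R Y \ Y).card :=
          Nat.add_le_add_left Finset.card_image_le _
      _ = eX + eY := by rw [card_holes hX, card_holes hY]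
  refine le_trans ?_ hP
  unfold nc
  rw [← Finset.card_product]
  apply Finset.card_le_card_of_surjOn
    (fun a => ((QuotientAddGroup.mk a : G ⧸ S), (QuotientAddGroup.mk (z - a) : G ⧸ R)))
  rintro ⟨σ, ρ⟩ hσρ
  simp only [Finset.coe_product, Set.mem_prod, Finset.mem_coe] at hσρ
  obtain ⟨x, hx, rfl⟩ := mem_cl.1 hσρ.1
  obtain ⟨y, hy, rfl⟩ := mem_cl.1 hσρ.2
  have hx0 : x - x0 ∈ J := sub_mem_of_mk_eq (mem_fb.1 hx).2
  have hy0 : y - y0 ∈ J := sub_mem_of_mk_eq (mem_fb.1 hy).2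
  have hxX : x ∈ X := (mem_fb.1 hx).1
  have hyY : y ∈ Y := (mem_fb.1 hy).1
  have h1 : z - x - y ∈ J := by
    have : z - x - y = (z - (x0 + y0)) - (x - x0) - (y - y0) := by abel
    rw [this]
    exact J.sub_mem (J.sub_mem hz hx0) hy0
  obtain ⟨s, hs, r, hr, hsr⟩ := AddSubgroup.mem_sup.1 h1
  refine ⟨x + s, ?_, ?_⟩
  · have hza : z - (x + s) = y + r := by
      have : z = x + y + (s + r) := by rw [hsr]; abel
      rw [this]; abel
    rw [Finset.mem_coe]
    by_cases hc : x + s ∈ X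
    · have hd : y + r ∉ Y := by
        intro hd
        apply hzn
        have : z = (x + s) + (y + r) := by rw [← hza]; abel
        rw [this]
        exact Finset.add_mem_add hc hd
      apply Finset.mem_union_right
      rw [Finset.mem_image]
      refine ⟨y + r, ?_, by rw [← hza]; abel⟩
      rw [Finset.mem_sdiff]
      refine ⟨mem_sat.2 ⟨y, hyY, ?_⟩, hd⟩
      simpa using hr
    · apply Finset.mem_union_left
      rw [Finset.mem_sdiff]
      refine ⟨mem_sat.2 ⟨x, hxX, ?_⟩, hc⟩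
      simpa using hs
  · simp only [Prod.mk.injEq]
    constructor
    · apply mk_eq_of_sub_mem
      simpa using hs
    · apply mk_eq_of_sub_mem
      have : z - (x + s) - y = r := by
        have : z = x + y + (s + r) := by rw [hsr]; abel
        rw [this]; abel
      rw [this]; exact hr

/-- pigeonhole in `J/S`: a missing `S`-coset in a `J`-coset of `X + Y` -/
theorem row_count {S R : AddSubgroup G} {X Y : Finset G} {eY : ℕ}
    (hY : Y.card + eY = Nat.card R * nc R Y)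
    {x0 y0 z : G} (hy0 : y0 ∈ Y) (hz : z - (x0 + y0) ∈ S ⊔ R) (hzn : z ∉ st S (X + Y)) :
    nc S (fb (S ⊔ R) X (QuotientAddGroup.mk x0)) ≤ eY := by
  classical
  set J := S ⊔ R with hJ
  rw [← card_holes hY]
  unfold nc
  apply Finset.card_le_card_of_surjOn (fun b => (QuotientAddGroup.mk (z - b) : G ⧸ S))
  intro σ hσ
  rw [Finset.mem_coe] at hσ
  obtain ⟨x, hx, rfl⟩ := mem_cl.1 hσ
  have hx0 : x - x0 ∈ J := sub_mem_of_mk_eq (mem_fb.1 hx).2
  have hxX : x ∈ X := (mem_fb.1 hx).1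
  have h1 : z - x - y0 ∈ J := by
    have : z - x - y0 = (z - (x0 + y0)) - (x - x0) := by abel
    rw [this]
    exact J.sub_mem hz hx0
  obtain ⟨s, hs, r, hr, hsr⟩ := AddSubgroup.mem_sup.1 h1
  have hzb : z = x + s + (y0 + r) := by
    have : z = x + y0 + (s + r) := by rw [hsr]; abel
    rw [this]; abel
  refine ⟨y0 + r, ?_, ?_⟩
  · rw [Finset.mem_coe, Finset.mem_sdiff]
    refine ⟨mem_sat.2 ⟨y0, hy0, by simpa using hr⟩, ?_⟩
    intro hd
    apply hzn
    refine mem_sat.2 ⟨x + (y0 + r), Finset.add_mem_add hxX hd, ?_⟩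
    have : z - (x + (y0 + r)) = s := by rw [hzb]; abel
    rw [this]; exact hs
  · apply mk_eq_of_sub_mem
    have : z - (y0 + r) - x = s := by rw [hzb]; abel
    rw [this]; exact hs

/-- an `R`-coset of `Y` has at least `|R| - eY` points -/
theorem fb_ge {R : AddSubgroup G} {Y : Finset G} {eY : ℕ}
    (hY : Y.card + eY = Nat.card R * nc R Y) {ρ : G ⧸ R} (hρ : ρ ∈ cl R Y) :
    Nat.card R ≤ (fb R Y ρ).card + eY := by
  classical
  have h1 : Y.card = ∑ θ ∈ cl R Y, (fb R Y θ).card := card_eq_sum_fb Y (le_refl _)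
  have h2 : ∑ θ ∈ cl R Y, (fb R Y θ).card + ∑ θ ∈ cl R Y, (Nat.card R - (fb R Y θ).card)
      = Nat.card R * nc R Y := by
    rw [← Finset.sum_add_distrib]
    have : ∀ θ ∈ cl R Y, (fb R Y θ).card + (Nat.card R - (fb R Y θ).card) = Nat.card R := by
      intro θ _
      have := card_fb_le (fin_sub R) Y θ
      omega
    rw [Finset.sum_congr rfl this, Finset.sum_const, smul_eq_mul, mul_comm]
    rfl
  have h3 : Nat.card R - (fb R Y ρ).card ≤ ∑ θ ∈ cl R Y, (Nat.card R - (fb R Y θ).card) :=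
    Finset.single_le_sum (f := fun θ => Nat.card R - (fb R Y θ).card)
      (fun _ _ => Nat.zero_le _) hρ
  omega

/-- number of `S`-cosets in a `J`-coset met by `Y`, at least `|R| - eY` -/
theorem nc_fb_ge {S R : AddSubgroup G} (h : S ⊓ R = ⊥) {Y : Finset G} {eY : ℕ}
    (hY : Y.card + eY = Nat.card R * nc R Y) {y0 : G} (hy0 : y0 ∈ Y) :
    Nat.card R ≤ nc S (fb (S ⊔ R) Y (QuotientAddGroup.mk y0)) + eY := by
  have h1 := fb_ge hY (mk_mem_cl (V := R) hy0)
  have hsub : fb R Y (QuotientAddGroup.mk y0) ⊆ fb (S ⊔ R) Y (QuotientAddGroup.mk y0) := by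
    intro y hy
    refine mem_fb.2 ⟨(mem_fb.1 hy).1, mk_eq_of_sub_mem ?_⟩
    exact (le_sup_right : R ≤ S ⊔ R) (sub_mem_of_mk_eq (mem_fb.1 hy).2)
  have h2 := nc_mono (V := S) hsub
  have h3 : nc S (fb R Y (QuotientAddGroup.mk y0)) = (fb R Y (QuotientAddGroup.mk y0)).card := by
    apply card_eq_nc_of_coset (S := R) (R := S) (by rw [inf_comm]; exact h)
    intro x hx y hy
    exact sub_mem_of_mk_eq ((mem_fb.1 hx).2.trans (mem_fb.1 hy).2.symm)
  omega

/-- the `S`-cosets of `Y` inside a `J`-coset with few `R`-cosets are light -/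
theorem light_of_few {S R : AddSubgroup G} (h : S ⊓ R = ⊥) {Y : Finset G} {y0 : G} {m : ℕ}
    (hm : nc R (fb (S ⊔ R) Y (QuotientAddGroup.mk y0)) ≤ m) {τ : G ⧸ S}
    (hτ : τ ∈ cl S (fb (S ⊔ R) Y (QuotientAddGroup.mk y0))) :
    (fb S Y τ).card ≤ m := by
  obtain ⟨y, hy, rfl⟩ := mem_cl.1 hτ
  refine le_trans ?_ hm
  rw [← card_eq_nc_of_coset (S := S) (R := R) h]
  · apply nc_mono
    intro y' hy'
    refine mem_fb.2 ⟨(mem_fb.1 hy').1, ?_⟩
    rw [← (mem_fb.1 hy).2]
    apply mk_eq_of_sub_mem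
    exact (le_sup_left : S ≤ S ⊔ R) (sub_mem_of_mk_eq (mem_fb.1 hy').2)
  · intro x hx y hy
    exact sub_mem_of_mk_eq ((mem_fb.1 hx).2.trans (mem_fb.1 hy).2.symm)

/-- number of light `S`-cosets of `Y` when some `J`-coset of `Y` has few `R`-cosets -/
theorem light_count {S R : AddSubgroup G} (h : S ⊓ R = ⊥) {Y : Finset G} {eY : ℕ}
    (hY : Y.card + eY = Nat.card R * nc R Y) {y0 : G} (hy0 : y0 ∈ Y) {m : ℕ}
    (hm : nc R (fb (S ⊔ R) Y (QuotientAddGroup.mk y0)) ≤ m) :
    Nat.card R ≤ ((cl S Y).filter (fun τ => (fb S Y τ).card ≤ m)).card + eY := by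
  classical
  have h1 := nc_fb_ge h hY hy0
  have h2 : nc S (fb (S ⊔ R) Y (QuotientAddGroup.mk y0)) ≤
      ((cl S Y).filter (fun τ => (fb S Y τ).card ≤ m)).card := by
    unfold nc
    apply Finset.card_le_card
    intro τ hτ
    rw [Finset.mem_filter]
    exact ⟨cl_mono fb_subset hτ, light_of_few h hm hτ⟩
  omega

/-- restricting the number of holes to one `J`-coset -/
theorem fb_holes_le {S J : AddSubgroup G} (hSJ : S ≤ J) (W : Finset G) {L : ℕ}
    (hL : Nat.card S * nc S W ≤ W.card + L) (θ : G ⧸ J) :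
    Nat.card S * nc S (fb J W θ) ≤ (fb J W θ).card + L := by
  classical
  by_cases hθ : θ ∈ cl J W
  · have h1 : W.card = ∑ θ ∈ cl J W, (fb J W θ).card := card_eq_sum_fb W (le_refl _)
    have h2 : nc S W = ∑ θ ∈ cl J W, nc S (fb J W θ) := nc_eq_sum_fb hSJ W (le_refl _)
    have h3 : ∑ θ ∈ cl J W, (Nat.card S * nc S (fb J W θ) - (fb J W θ).card) +
        ∑ θ ∈ cl J W, (fb J W θ).card = Nat.card S * nc S W := by
      rw [← Finset.sum_add_distrib, h2, Finset.mul_sum]
      apply Finset.sum_congr rfl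
      intro θ _
      have := card_le_mul_nc (fin_sub S) (fb J W θ)
      omega
    have h4 : Nat.card S * nc S (fb J W θ) - (fb J W θ).card ≤
        ∑ θ ∈ cl J W, (Nat.card S * nc S (fb J W θ) - (fb J W θ).card) :=
      Finset.single_le_sum (f := fun θ => Nat.card S * nc S (fb J W θ) - (fb J W θ).card)
        (fun _ _ => Nat.zero_le _) hθ
    omega
  · have : fb J W θ = ∅ := by
      rw [← Finset.not_nonempty_iff_eq_empty, fb_nonempty_iff]
      exact hθ
    rw [this, nc_eq_zero.2 rfl]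
    simp

/-- if `J` does not stabilise `W + S` then some `J`-coset of `W` misses an `S`-coset -/
theorem exists_missing {S J : AddSubgroup G} (hSJ : S ≤ J) {q : ℕ} (W : Finset G)
    (hJ : Nat.card J = Nat.card S * q) (hn : ¬ J ≤ stb (st S W)) :
    ∃ θ ∈ cl J W, nc S (fb J W θ) < q := by
  classical
  by_contra hcon
  push Not at hcon
  apply hn
  have h2 : nc S W = ∑ θ ∈ cl J W, nc S (fb J W θ) := nc_eq_sum_fb hSJ W (le_refl _)
  have h3 : q * nc J W ≤ nc S W := by
    rw [h2]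
    calc q * nc J W = ∑ _θ ∈ cl J W, q := by
          rw [Finset.sum_const, smul_eq_mul, mul_comm]; rfl
      _ ≤ _ := Finset.sum_le_sum (fun θ hθ => hcon θ hθ)
  have hsub : st S W ⊆ st J W := by
    intro z hz
    obtain ⟨a, ha, h⟩ := mem_sat.1 hz
    exact mem_sat.2 ⟨a, ha, hSJ h⟩
  have heq : st S W = st J W := by
    apply Finset.eq_of_subset_of_card_le hsub
    have h4 : (st J W).card = Nat.card J * nc J W := card_sat _ _
    have h5 : (st S W).card = Nat.card S * nc S W := card_sat _ _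
    rw [h4, h5, hJ, mul_assoc]
    exact Nat.mul_le_mul_left _ h3
  rw [heq]
  intro j hj x
  constructor
  · intro hx
    obtain ⟨a, ha, h⟩ := mem_sat.1 hx
    refine mem_sat.2 ⟨a, ha, ?_⟩
    have : j + x - a = j + (x - a) := by abel
    rw [this]; exact J.add_mem hj h
  · intro hx
    obtain ⟨a, ha, h⟩ := mem_sat.1 hx
    refine mem_sat.2 ⟨a, ha, ?_⟩
    have : x - a = (j + x - a) - j := by abel
    rw [this]; exact J.sub_mem h hj

/-- number of `R`-cosets of `X + Y` in a `J`-coset, at least `|S| - eX` -/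
theorem nc_sum_ge {S R : AddSubgroup G} (h : S ⊓ R = ⊥) {X Y : Finset G} {eX : ℕ}
    (hX : X.card + eX = Nat.card S * nc S X) {θ : G ⧸ (S ⊔ R)} (hθ : θ ∈ cl (S ⊔ R) (X + Y)) :
    Nat.card S ≤ nc R (fb (S ⊔ R) (X + Y) θ) + eX := by
  classical
  obtain ⟨z, hz, rfl⟩ := mem_cl.1 hθ
  obtain ⟨x, hx, y, hy, rfl⟩ := Finset.mem_add.1 hz
  have h1 := fb_ge hX (mk_mem_cl (V := S) hx)
  have h2 : ((fb S X (QuotientAddGroup.mk x)).image (fun a => a + y)).card =
      (fb S X (QuotientAddGroup.mk x)).card :=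
    Finset.card_image_of_injective _ (add_left_injective y)
  have h3 : nc R ((fb S X (QuotientAddGroup.mk x)).image (fun a => a + y)) =
      ((fb S X (QuotientAddGroup.mk x)).image (fun a => a + y)).card := by
    apply card_eq_nc_of_coset (S := S) (R := R) h
    intro a ha b hb
    obtain ⟨a', ha', rfl⟩ := Finset.mem_image.1 ha
    obtain ⟨b', hb', rfl⟩ := Finset.mem_image.1 hb
    have : a' + y - (b' + y) = a' - b' := by abel
    rw [this]
    exact sub_mem_of_mk_eq ((mem_fb.1 ha').2.trans (mem_fb.1 hb').2.symm)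
  have hsub : (fb S X (QuotientAddGroup.mk x)).image (fun a => a + y) ⊆
      fb (S ⊔ R) (X + Y) (QuotientAddGroup.mk (x + y)) := by
    intro a ha
    obtain ⟨a', ha', rfl⟩ := Finset.mem_image.1 ha
    refine mem_fb.2 ⟨Finset.add_mem_add (mem_fb.1 ha').1 hy, mk_eq_of_sub_mem ?_⟩
    have : a' + y - (x + y) = a' - x := by abel
    rw [this]
    exact (le_sup_left : S ≤ S ⊔ R) (sub_mem_of_mk_eq (mem_fb.1 ha').2)
  have h4 := nc_mono (V := R) hsub
  omega

/-- arithmetic of the last case -/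
theorem last_arith {p q u w : ℕ} (hu : u < q) (hw : w < p)
    (h1 : u * (p - w) + 2 ≤ p) (h2 : w * (q - u) + 2 ≤ q)
    (hw2 : p + 2 ≤ 2 * w) (hu2 : q + 2 ≤ 2 * u) : False := by
  obtain ⟨a, rfl⟩ : ∃ a, p = w + a := ⟨p - w, by omega⟩
  obtain ⟨b, rfl⟩ : ∃ b, q = u + b := ⟨q - u, by omega⟩
  have ha : w + a - w = a := by omega
  have hb : u + b - u = b := by omega
  rw [ha] at h1
  rw [hb] at h2
  have ha1 : 1 ≤ a := by omega
  have hb1 : 1 ≤ b := by omega
  -- u * a + 2 ≤ w + a, w * b + 2 ≤ u + b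
  -- a + 2 ≤ w, b + 2 ≤ u
  have e1 : a + 2 ≤ w := by omega
  have e2 : b + 2 ≤ u := by omega
  -- (u-1)(a-1) ... : u a - a = (u-1) a >= ... 
  have f1 : (u - 1) * a + 2 ≤ w := by
    obtain ⟨u', rfl⟩ : ∃ u', u = u' + 1 := ⟨u - 1, by omega⟩
    simp only [Nat.add_sub_cancel]
    nlinarith
  have f2 : (w - 1) * b + 2 ≤ u := by
    obtain ⟨w', rfl⟩ : ∃ w', w = w' + 1 := ⟨w - 1, by omega⟩
    simp only [Nat.add_sub_cancel]
    nlinarith
  have g1 : (u - 1) ≤ (u - 1) * a := Nat.le_mul_of_pos_right _ (by omega)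
  have g2 : (w - 1) ≤ (w - 1) * b := Nat.le_mul_of_pos_right _ (by omega)
  omega

/-- the LAST CASE is impossible -/
theorem last_case {S R : AddSubgroup G} (h : S ⊓ R = ⊥) {X Y : Finset G} {eX eY : ℕ}
    (hX : X.card + eX = Nat.card S * nc S X) (hY : Y.card + eY = Nat.card R * nc R Y)
    (hP : 2 * eX + 2 ≤ Nat.card S) (hQ : 2 * eY + 2 ≤ Nat.card R)
    (hLS : Nat.card S * nc S (X + Y) ≤ (X + Y).card + 2 * eX)
    (hLR : Nat.card R * nc R (X + Y) ≤ (X + Y).card + 2 * eY)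
    (hnS : ¬ (S ⊔ R) ≤ stb (st S (X + Y))) (hnR : ¬ (S ⊔ R) ≤ stb (st R (X + Y))) : False := by
  classical
  have hJ := card_sup_of_inf_bot S R h
  obtain ⟨θ, hθ, hlt⟩ := exists_missing (S := S) (J := S ⊔ R) le_sup_left (X + Y) hJ hnS
  obtain ⟨θ', hθ', hlt'⟩ := exists_missing (S := R) (J := S ⊔ R) le_sup_right (X + Y)
    (by rw [hJ, mul_comm]) hnR
  -- facts for every theta
  have key : ∀ θ ∈ cl (S ⊔ R) (X + Y),
      (nc S (fb (S ⊔ R) (X + Y) θ)) * (Nat.card S - nc R (fb (S ⊔ R) (X + Y) θ)) ≤ 2 * eX ∧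
      (nc R (fb (S ⊔ R) (X + Y) θ)) * (Nat.card R - nc S (fb (S ⊔ R) (X + Y) θ)) ≤ 2 * eY ∧
      Nat.card S ≤ nc R (fb (S ⊔ R) (X + Y) θ) + eX ∧
      Nat.card R ≤ nc S (fb (S ⊔ R) (X + Y) θ) + eY ∧
      nc R (fb (S ⊔ R) (X + Y) θ) ≤ Nat.card S ∧ nc S (fb (S ⊔ R) (X + Y) θ) ≤ Nat.card R := by
    intro θ hθ
    have a1 := fb_holes_le (S := S) (J := S ⊔ R) le_sup_left (X + Y) hLS θ
    have a2 := fb_holes_le (S := R) (J := S ⊔ R) le_sup_right (X + Y) hLR θ
    have a3 := card_le_nc_mul_nc h (fb (S ⊔ R) (X + Y) θ)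
    have a4 := nc_sum_ge (S := S) (R := R) h hX hθ
    have a5 : Nat.card R ≤ nc S (fb (S ⊔ R) (X + Y) θ) + eY := by
      have h' : R ⊓ S = ⊥ := by rw [inf_comm]; exact h
      have hXY : X + Y = Y + X := add_comm _ _
      have hsup : S ⊔ R = R ⊔ S := sup_comm _ _
      revert θ
      rw [hXY, hsup]
      intro θ hθ _ _ _ _
      exact nc_sum_ge (S := R) (R := S) h' hY hθ
    have hin : ∀ x ∈ fb (S ⊔ R) (X + Y) θ, ∀ y ∈ fb (S ⊔ R) (X + Y) θ, x - y ∈ S ⊔ R := by
      intro x hx y hy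
      exact sub_mem_of_mk_eq ((mem_fb.1 hx).2.trans (mem_fb.1 hy).2.symm)
    have hSpos : 0 < Nat.card S := Nat.card_pos
    have hRpos : 0 < Nat.card R := Nat.card_pos
    have a6 : nc S (fb (S ⊔ R) (X + Y) θ) ≤ Nat.card R := by
      have := nc_mul_le (V := S) (fin_sub (S ⊔ R)) le_sup_left hin
      rw [hJ] at this
      exact Nat.le_of_mul_le_mul_left this hSpos
    have a7 : nc R (fb (S ⊔ R) (X + Y) θ) ≤ Nat.card S := by
      have := nc_mul_le (V := R) (fin_sub (S ⊔ R)) le_sup_right hin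
      rw [hJ, mul_comm (Nat.card S)] at this
      exact Nat.le_of_mul_le_mul_left this hRpos
    refine ⟨?_, ?_, a4, a5, a7, a6⟩
    · rw [Nat.mul_sub]
      rw [mul_comm (nc S _) (Nat.card S)]
      omega
    · rw [Nat.mul_sub]
      rw [mul_comm (nc R _) (Nat.card R), mul_comm (nc R _) (nc S _)]
      omega
  obtain ⟨b1, b2, b3, b4, b5, b6⟩ := key θ hθ
  obtain ⟨c1, c2, c3, c4, c5, c6⟩ := key θ' hθ'
  by_cases hw : nc R (fb (S ⊔ R) (X + Y) θ) < Nat.card S
  · exact last_arith hlt hw (by omega) (by omega) (by omega) (by omega)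
  · by_cases hu : nc S (fb (S ⊔ R) (X + Y) θ') < Nat.card R
    · exact last_arith hu hlt' (by omega) (by omega) (by omega) (by omega)
    · have d1 : nc R (fb (S ⊔ R) (X + Y) θ) = Nat.card S := by omega
      have d2 : nc S (fb (S ⊔ R) (X + Y) θ') = Nat.card R := by omega
      rw [d1] at b2
      rw [d2] at c1
      have e1 : Nat.card S ≤ Nat.card S * (Nat.card R - nc S (fb (S ⊔ R) (X + Y) θ)) :=
        Nat.le_mul_of_pos_right _ (by omega)
      have e2 : Nat.card R ≤ Nat.card R * (Nat.card S - nc R (fb (S ⊔ R) (X + Y) θ')) :=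
        Nat.le_mul_of_pos_right _ (by omega)
      omega

end Pool.Agent.Lib.MP_09e095_co.QG
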