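import Mathlib
import Pool.Agent.Lib.MP_09e095_co.QGrid

/-!
MP_09e095_co : combinatorial part of inequality (G), subgroups `S`, `R` with `S ⊓ R = ⊥`.
-/

set_option autoImplicit false
set_option linter.unusedSectionVars false

open Finset
open scoped Pointwise

namespace Pool.Agent.Lib.MP_09e095_co.QG

variable {G : Type*} [AddCommGroup G] [Fintype G] [DecidableEq G]

/-- the STAR dichotomy (unconditional) -/
def Dich (G : Type*) [AddCommGroup G] [Fintype G] [DecidableEq G] : Prop :=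
  ∀ (X Y : Finset G) (S : AddSubgroup G) (h : ℕ), X.Nonempty → Y.Nonempty →
    X.card + h = Nat.card S * nc S X → 2 * h < Nat.card S →
    (Nat.card S * nc S (X + Y) ≤ (X + Y).card + 2 * h ∨
      (3 ≤ ((cl S Y).filter (fun τ => (fb S Y τ).card ≤ h)).card ∧
        X.card + Y.card + (Nat.card S - 2 * h) ≤ (X + Y).card ∧
        (4 ≤ ((cl S Y).filter (fun τ => (fb S Y τ).card ≤ h)).card →
          2 * X.card + 2 * Y.card +
            ((cl S Y).filter (fun τ => (fb S Y τ).card ≤ h)).card * (Nat.card S - 2 * h) ≤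
            2 * (X + Y).card)))

/-- (B2): `X + Y` is `J`-periodic -/
theorem grid_periodic {S R : AddSubgroup G} {X Y : Finset G} {eX eY : ℕ}
    (hX : X.card + eX = Nat.card S * nc S X) (hY : Y.card + eY = Nat.card R * nc R Y)
    (hκ : ∀ x0 ∈ X, eY + 1 ≤ nc S (fb (S ⊔ R) X (QuotientAddGroup.mk x0)))
    (hl : ∀ y0 ∈ Y, eX + 1 ≤ nc R (fb (S ⊔ R) Y (QuotientAddGroup.mk y0))) :
    S ⊔ R ≤ stb (X + Y) := by
  have main : ∀ j ∈ S ⊔ R, ∀ z ∈ X + Y, j + z ∈ X + Y := by
    intro j hj z hz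
    by_contra hcon
    obtain ⟨x0, hx0, y0, hy0, rfl⟩ := Finset.mem_add.1 hz
    have h1 := grid_count hX hY (x0 := x0) (y0 := y0) (z := j + (x0 + y0))
      (by simpa using hj) hcon
    have h2 := hκ x0 hx0
    have h3 := hl y0 hy0
    have h4 := Nat.mul_le_mul h2 h3
    nlinarith
  intro j hj x
  constructor
  · exact main j hj x
  · intro hx
    have := main (-j) ((S ⊔ R).neg_mem hj) _ hx
    rwa [neg_add_cancel_left] at this

/-- (a3): if `X + Y + S` is not `J`-periodic then some `J`-coset of `X` has few `S`-cosets -/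
theorem row_few {S R : AddSubgroup G} {X Y : Finset G} {eY : ℕ}
    (hY : Y.card + eY = Nat.card R * nc R Y) (hn : ¬ S ⊔ R ≤ stb (st S (X + Y))) :
    ∃ x0 ∈ X, nc S (fb (S ⊔ R) X (QuotientAddGroup.mk x0)) ≤ eY := by
  by_contra hcon
  push Not at hcon
  apply hn
  have main : ∀ j ∈ S ⊔ R, ∀ z ∈ st S (X + Y), j + z ∈ st S (X + Y) := by
    intro j hj z hz
    by_contra hcon2
    obtain ⟨a, ha, h⟩ := mem_sat.1 hz
    obtain ⟨x0, hx0, y0, hy0, rfl⟩ := Finset.mem_add.1 ha
    have h1 := row_count (S := S) (R := R) (X := X) (Y := Y) hY (x0 := x0) hy0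
      (z := j + z) (by
        have : j + z - (x0 + y0) = j + (z - (x0 + y0)) := by abel
        rw [this]
        exact (S ⊔ R).add_mem hj ((le_sup_left : S ≤ S ⊔ R) h)) hcon2
    have h2 := hcon x0 hx0
    omega
  intro j hj x
  constructor
  · exact main j hj x
  · intro hx
    have := main (-j) ((S ⊔ R).neg_mem hj) _ hx
    rwa [neg_add_cancel_left] at this

theorem two_mul_card_le {S : AddSubgroup G} (hS : S ≠ ⊤) : 2 * Nat.card S ≤ Nat.card G := by
  have h1 := S.card_mul_index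
  have h2 : S.index ≠ 1 := by
    intro h
    exact hS (AddSubgroup.index_eq_one.1 h)
  have h3 : S.index ≠ 0 := AddSubgroup.index_ne_zero_of_finite
  have h4 : 2 ≤ S.index := by omega
  calc 2 * Nat.card S = Nat.card S * 2 := by ring
    _ ≤ Nat.card S * S.index := Nat.mul_le_mul_left _ h4
    _ = Nat.card G := h1

theorem card_mono {S T : AddSubgroup G} (h : S ≤ T) : Nat.card S ≤ Nat.card T :=
  Nat.card_le_card_of_injective _ (AddSubgroup.inclusion_injective h)

theorem card_of_stb_top {W : Finset G} (hW : W.Nonempty) (h : stb W = ⊤) :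
    W.card = Nat.card G := by
  have : W = Finset.univ := by
    ext x
    simp only [Finset.mem_univ, iff_true]
    obtain ⟨w, hw⟩ := hW
    have h1 : x - w ∈ stb W := by rw [h]; exact AddSubgroup.mem_top _
    have := (h1 w).1 hw
    simpa using this
  rw [this, Finset.card_univ, Nat.card_eq_fintype_card]

/-- the subgroup `S` stabilises `W + S` -/
theorem le_stb_sat (S : AddSubgroup G) (W : Finset G) : S ≤ stb (st S W) := by
  intro s hs x
  constructor
  · intro hx
    obtain ⟨a, ha, h⟩ := mem_sat.1 hx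
    refine mem_sat.2 ⟨a, ha, ?_⟩
    have : s + x - a = s + (x - a) := by abel
    rw [this]; exact S.add_mem hs h
  · intro hx
    obtain ⟨a, ha, h⟩ := mem_sat.1 hx
    refine mem_sat.2 ⟨a, ha, ?_⟩
    have : x - a = (s + x - a) - s := by abel
    rw [this]; exact S.sub_mem h hs

/-- output of the combinatorial part -/
def Out (X Y : Finset G) (P Q : ℕ) : Prop :=
  (2 * (X.card + Y.card) + 2 * (P + Q) ≤ 2 * (X + Y).card + 6 ∧
    2 * (X.card + Y.card) + P * Q ≤ 2 * (X + Y).card + P + Q) ∨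
  (∃ (V : AddSubgroup G) (L : ℕ), (st V (X + Y)).card ≤ (X + Y).card + L ∧
    (stb (st V (X + Y)) ≠ ⊤ → L + P + Q ≤ Nat.card (stb (st V (X + Y))) + 1 ∧
      2 * L + P * Q ≤ 2 * Nat.card (stb (st V (X + Y)))) ∧
    (stb (st V (X + Y)) = ⊤ → 2 * (L + P + Q) ≤ Nat.card G + 4 ∧
      2 * L + P * Q ≤ Nat.card G))

theorem out_symm {X Y : Finset G} {P Q : ℕ} (h : Out Y X Q P) : Out X Y P Q := by
  unfold Out at h ⊢
  rw [add_comm Y X, add_comm Y.card X.card, add_comm Q P, mul_comm Q P] at h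
  rcases h with h | ⟨V, L, h1, h2, h3⟩
  · left
    refine ⟨h.1, by have := h.2; omega⟩
  · right
    refine ⟨V, L, h1, ?_, ?_⟩
    · intro h; have := h2 h; omega
    · intro h; have := h3 h; omega

/-- case `Q = 1` -/
theorem tri_one (hd : Dich G) (X Y : Finset G) (hXn : X.Nonempty) (hYn : Y.Nonempty)
    (S : AddSubgroup G) (hST : S ≠ ⊤) (eX P : ℕ)
    (hX : X.card + eX = Nat.card S * nc S X) (hP : Nat.card S = P + 2 * eX) (hP1 : 1 ≤ P) :
    Out X Y P 1 := by
  rcases hd X Y S eX hXn hYn hX (by omega) with h | ⟨_, h2, _⟩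
  · right
    have h3 : (st S (X + Y)).card = Nat.card S * nc S (X + Y) := card_sat _ _
    have h4 := card_mono (le_stb_sat S (X + Y))
    have h5 := two_mul_card_le hST
    refine ⟨S, 2 * eX, by omega, ?_, ?_⟩
    · intro _; omega
    · intro _; omega
  · left
    omega

/-- arithmetic: `p, q ≥ 2` -/
theorem arith_pq {p q P Q eX eY : ℕ} (hp : p = P + 2 * eX) (hq : q = Q + 2 * eY)
    (hP : 2 ≤ P) (hQ : 2 ≤ Q) : 2 * (p + q) ≤ p * q + 4 ∧ 4 * eX + P * Q ≤ p * q := by
  obtain ⟨P', rfl⟩ : ∃ P', P = P' + 2 := ⟨P - 2, by omega⟩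
  obtain ⟨Q', rfl⟩ : ∃ Q', Q = Q' + 2 := ⟨Q - 2, by omega⟩
  subst hp hq
  constructor
  · nlinarith [Nat.zero_le (P' * Q'), Nat.zero_le (P' * eY), Nat.zero_le (Q' * eX),
      Nat.zero_le (eX * eY)]
  · nlinarith [Nat.zero_le (P' * Q'), Nat.zero_le (P' * eY), Nat.zero_le (Q' * eX),
      Nat.zero_le (eX * eY)]

/-- arithmetic of the (b)-conclusion -/
theorem arith_b {P Q l : ℕ} (hP : 2 ≤ P) (hl : 4 ≤ l) (hQ : Q ≤ l) :
    2 * (P + Q) ≤ l * P + 6 ∧ P * Q ≤ l * P + P + Q := by
  obtain ⟨P', rfl⟩ : ∃ P', P = P' + 2 := ⟨P - 2, by omega⟩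
  constructor
  · rcases Nat.lt_or_ge Q 5 with h | h
    · nlinarith
    · obtain ⟨m, rfl⟩ : ∃ m, l = Q + m := ⟨l - Q, by omega⟩
      nlinarith
  · nlinarith [Nat.mul_le_mul_left (P' + 2) hQ]

/-- conclusion from the (b) alternative -/
theorem out_of_b {X Y : Finset G} {P Q l : ℕ} (hP : 2 ≤ P) (hl3 : 3 ≤ l) (hQ : Q ≤ l)
    (h1 : X.card + Y.card + P ≤ (X + Y).card)
    (h2 : 4 ≤ l → 2 * X.card + 2 * Y.card + l * P ≤ 2 * (X + Y).card) : Out X Y P Q := by
  left
  rcases Nat.lt_or_ge l 4 with h | h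
  · have hl : l = 3 := by omega
    have hQ3 : Q ≤ 3 := by omega
    constructor
    · omega
    · have : P * Q ≤ P * 3 := Nat.mul_le_mul_left _ hQ3
      omega
  · have h3 := h2 h
    have h4 := arith_b hP h hQ
    constructor <;> omega

theorem sup_card_le {S R N : AddSubgroup G} (h : S ⊓ R = ⊥) (hN : S ⊔ R ≤ N) :
    Nat.card S * Nat.card R ≤ Nat.card N := by
  rw [← card_sup_of_inf_bot S R h]
  exact card_mono hN

/-- the main case -/
theorem tri_aux (hd : Dich G) (X Y : Finset G) (hXn : X.Nonempty) (hYn : Y.Nonempty)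
    (S R : AddSubgroup G) (hSR : S ⊓ R = ⊥) (eX eY P Q : ℕ)
    (hX : X.card + eX = Nat.card S * nc S X) (hY : Y.card + eY = Nat.card R * nc R Y)
    (hP : Nat.card S = P + 2 * eX) (hQ : Nat.card R = Q + 2 * eY)
    (hP2 : 2 ≤ P) (hQ2 : 2 ≤ Q)
    (hfew : ∃ y0 ∈ Y, nc R (fb (S ⊔ R) Y (QuotientAddGroup.mk y0)) ≤ eX) :
    Out X Y P Q := by
  classical
  obtain ⟨y0, hy0, hy0f⟩ := hfew
  have hRS : R ⊓ S = ⊥ := by rw [inf_comm]; exact hSR
  have harith := arith_pq hP hQ hP2 hQ2
  have harith' := arith_pq hQ hP hQ2 hP2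
  have hG : Nat.card S * Nat.card R ≤ Nat.card G := by
    have := sup_card_le hSR (le_top : S ⊔ R ≤ ⊤)
    rwa [AddSubgroup.card_top] at this
  rcases hd X Y S eX hXn hYn hX (by omega) with haS | ⟨hb1, hb2, hb3⟩
  · by_cases hNS : S ⊔ R ≤ stb (st S (X + Y))
    · right
      have h3 : (st S (X + Y)).card = Nat.card S * nc S (X + Y) := card_sat _ _
      have h4 := sup_card_le hSR hNS
      refine ⟨S, 2 * eX, by omega, ?_, ?_⟩
      · intro _
        constructor
        · omega
        · omega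
      · intro _
        constructor
        · omega
        · omega
    · by_cases htopS : stb (st S (X + Y)) = ⊤
      · rw [htopS] at hNS; exact absurd le_top hNS
      obtain ⟨x0, hx0, hx0f⟩ := row_few hY hNS
      rcases hd Y X R eY hYn hXn hY (by omega) with haR | ⟨hc1, hc2, hc3⟩
      · have haR' : Nat.card R * nc R (X + Y) ≤ (X + Y).card + 2 * eY := by
          rw [add_comm X Y]; exact haR
        by_cases hNR : S ⊔ R ≤ stb (st R (X + Y))
        · right
          have h3 : (st R (X + Y)).card = Nat.card R * nc R (X + Y) := card_sat _ _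
          have h4 := sup_card_le hSR hNR
          rw [mul_comm (Nat.card R)] at harith'
          rw [mul_comm Q P] at harith'
          refine ⟨R, 2 * eY, by omega, ?_, ?_⟩
          · intro _
            constructor
            · omega
            · omega
          · intro _
            constructor
            · omega
            · omega
        · exact (last_case hSR hX hY (by omega) (by omega) haS haR' hNS hNR).elim
      · apply out_symm
        have hl := light_count hRS hX hx0 (m := eY) (by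
          have hsup : R ⊔ S = S ⊔ R := sup_comm _ _
          rw [hsup]; exact hx0f)
        have hPQ : Nat.card R - 2 * eY = Q := by omega
        rw [hPQ] at hc2 hc3
        exact out_of_b hQ2 hc1 (by omega) hc2 hc3
  · have hl := light_count hSR hY hy0 hy0f
    have hPQ : Nat.card S - 2 * eX = P := by omega
    rw [hPQ] at hb2 hb3
    exact out_of_b hP2 hb1 (by omega) hb2 hb3

/-- the combinatorial part of (G) -/
theorem tri (hd : Dich G) (X Y : Finset G) (hXn : X.Nonempty) (hYn : Y.Nonempty)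
    (S R : AddSubgroup G) (hSR : S ⊓ R = ⊥) (hST : S ≠ ⊤) (hRT : R ≠ ⊤) (eX eY P Q : ℕ)
    (hX : X.card + eX = Nat.card S * nc S X) (hY : Y.card + eY = Nat.card R * nc R Y)
    (hP : Nat.card S = P + 2 * eX) (hQ : Nat.card R = Q + 2 * eY)
    (hP1 : 1 ≤ P) (hQ1 : 1 ≤ Q) : Out X Y P Q := by
  rcases Nat.lt_or_ge Q 2 with h | hQ2
  · have : Q = 1 := by omega
    subst this
    exact tri_one hd X Y hXn hYn S hST eX P hX hP hP1
  rcases Nat.lt_or_ge P 2 with h | hP2
  · have : P = 1 := by omega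
    subst this
    apply out_symm
    exact tri_one hd Y X hYn hXn R hRT eY Q hY hQ hQ1
  have hRS : R ⊓ S = ⊥ := by rw [inf_comm]; exact hSR
  by_cases h1 : ∃ y0 ∈ Y, nc R (fb (S ⊔ R) Y (QuotientAddGroup.mk y0)) ≤ eX
  · exact tri_aux hd X Y hXn hYn S R hSR eX eY P Q hX hY hP hQ hP2 hQ2 h1
  by_cases h2 : ∃ x0 ∈ X, nc S (fb (S ⊔ R) X (QuotientAddGroup.mk x0)) ≤ eY
  · apply out_symm
    apply tri_aux hd Y X hYn hXn R S hRS eY eX Q P hY hX hQ hP hQ2 hP2
    have hsup : R ⊔ S = S ⊔ R := sup_comm _ _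
    rw [hsup]; exact h2
  push Not at h1 h2
  have hper := grid_periodic hX hY (fun x0 hx0 => h2 x0 hx0) (fun y0 hy0 => h1 y0 hy0)
  right
  have hbot : st (⊥ : AddSubgroup G) (X + Y) = X + Y := by
    ext z
    constructor
    · intro hz
      obtain ⟨a, ha, h⟩ := mem_sat.1 hz
      rw [AddSubgroup.mem_bot] at h
      rw [sub_eq_zero.1 h]; exact ha
    · intro hz; exact subset_sat hz
  have harith := arith_pq hP hQ hP2 hQ2
  have h4 := sup_card_le hSR hper
  have hG : Nat.card S * Nat.card R ≤ Nat.card G := by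
    have := sup_card_le hSR (le_top : S ⊔ R ≤ ⊤)
    rwa [AddSubgroup.card_top] at this
  refine ⟨⊥, 0, ?_, ?_, ?_⟩
  · rw [hbot]; omega
  · rw [hbot]
    intro _
    constructor <;> omega
  · rw [hbot]
    intro _
    constructor <;> omega

end Pool.Agent.Lib.MP_09e095_co.QG
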