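import Mathlib
import Pool.Agent.Lib.MP_09e095_co.QStar
import Pool.Agent.Lib.MP_09e095_co.QTri

/-!
MP_09e095_co : the STAR dichotomy in the two forms used elsewhere (`QTri`, `QStepC`).
-/

set_option autoImplicit false

open Finset
open scoped Pointwise

namespace Pool.Agent.Lib.MP_09e095_co

/-- the hypothesis `QG.Dich G` of `QTri` holds for every finite group -/
theorem dich (G : Type*) [AddCommGroup G] [Fintype G] [DecidableEq G] : QG.Dich G := by
  intro X Y S h hX hY hh h2
  rcases Star.star_dich (S := S) (Set.toFinite _) hX hY hh h2 with h3 | ⟨h3, h4, h5⟩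
  · exact Or.inl h3
  · refine Or.inr ⟨h3, h4, fun h6 => ?_⟩
    have := h5 h6
    rw [mul_add] at this
    exact this

/-- the short form used in `QStepC` -/
theorem dich_short {G : Type*} [AddCommGroup G] [DecidableEq G] (S : AddSubgroup G)
    (hS : (S : Set G).Finite) (X Y : Finset G) (h : ℕ) (hX : X.Nonempty) (hY : Y.Nonempty)
    (hh : X.card + h = Nat.card S * nc S X) (h2 : 2 * h < Nat.card S) :
    Nat.card S * nc S (X + Y) ≤ (X + Y).card + 2 * h ∨
      X.card + Y.card + Nat.card S ≤ (X + Y).card + 2 * h := by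
  rcases Star.star_dich hS hX hY hh h2 with h3 | ⟨h3, h4, h5⟩
  · exact Or.inl h3
  · right; omega

end Pool.Agent.Lib.MP_09e095_co
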