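import Mathlib
import Pool.Agent.Lib.MP_09e095_co.QTri

/-!
MP_09e095_co : inequality (G).
-/

set_option autoImplicit false
set_option linter.unusedSectionVars false

open Finset
open scoped Pointwise

namespace Pool.Agent.Lib.MP_09e095_co.QG

/-! ### arithmetic -/

/-- first output of `tri` -/
theorem garith1 {i x y P Q t l T : ℤ} (hi : 1 ≤ i) (hx : 0 ≤ x) (hy : 0 ≤ y)
    (hT : (t = 3 ∧ l = 4) ∨ (3 ≤ t ∧ l = t))
    (hP : 2 * x ≤ i * P) (hQ : 2 * y ≤ i * Q)
    (hH : i = 1 ∨ 4 * i ≤ 2 * (x + y) + l) (hi1 : i = 1 → x = 0 ∧ y = 0)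
    (h1 : 2 * (P + Q) - 6 ≤ 2 * T) (h2 : P * Q - P - Q ≤ 2 * T) :
    2 * (i * i) * (P + Q) + 4 * (x * y) ≤ 2 * (i * i) * T + 6 * i * (x + y) + 2 * i * t := by
  have ht : 3 ≤ t := by rcases hT with h | h <;> omega
  have key : (2 * x - 3 * i) * (2 * y - 3 * i) = 4 * (x * y) - 6 * i * (x + y) + 9 * (i * i) := by
    ring
  have hii : 0 ≤ i * i := by positivity
  have m1 : i * i * (2 * (P + Q) - 6) ≤ i * i * (2 * T) := mul_le_mul_of_nonneg_left h1 hii
  have m2 : i * i * (P * Q - P - Q) ≤ i * i * (2 * T) := mul_le_mul_of_nonneg_left h2 hii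
  rcases lt_or_ge (2 * x) (3 * i) with hx3 | hx3
  · rcases lt_or_ge (2 * y) (3 * i) with hy3 | hy3
    · -- both small
      have huv : (2 * x - 3 * i) * (2 * y - 3 * i) ≤ 3 * (i * i) + 2 * i * t := by
        have e1 : (2 * x - 3 * i) * (2 * y - 3 * i) ≤ 9 * (i * i) := by
          nlinarith [mul_nonneg hx hy, mul_nonneg hx (by linarith : (0:ℤ) ≤ 3 * i - 2 * y),
            mul_nonneg hy (by linarith : (0:ℤ) ≤ i)]
        rcases hH with h | h
        · obtain ⟨rfl, rfl⟩ := hi1 h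
          subst h
          linarith
        · rcases le_or_gt (3 * i) t with h3 | h3
          · nlinarith
          · have e2 : 4 * ((2 * x - 3 * i) * (2 * y - 3 * i)) ≤
                ((3 * i - 2 * x) + (3 * i - 2 * y)) ^ 2 := by
              nlinarith [sq_nonneg ((3 * i - 2 * x) - (3 * i - 2 * y))]
            have e3 : ((3 * i - 2 * x) + (3 * i - 2 * y)) ^ 2 ≤ (2 * i + l) ^ 2 := by
              apply pow_le_pow_left₀ <;> linarith
            rcases hT with ⟨rfl, rfl⟩ | ⟨_, rfl⟩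
            · nlinarith
            · nlinarith
      nlinarith
    · have huv : (2 * x - 3 * i) * (2 * y - 3 * i) ≤ 0 := by
        apply mul_nonpos_of_nonpos_of_nonneg <;> linarith
      nlinarith
  · rcases lt_or_ge (2 * y) (3 * i) with hy3 | hy3
    · have huv : (2 * x - 3 * i) * (2 * y - 3 * i) ≤ 0 := by
        apply mul_nonpos_of_nonneg_of_nonpos <;> linarith
      nlinarith
    · have huv : (2 * x - 3 * i) * (2 * y - 3 * i) ≤ (i * P - 3 * i) * (i * Q - 3 * i) := by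
        apply mul_le_mul <;> linarith
      nlinarith

/-- second output of `tri` -/
theorem garith2 {i x y P Q t l N : ℤ} (hi : 1 ≤ i) (hx : 0 ≤ x) (hy : 0 ≤ y)
    (hT : (t = 3 ∧ l = 4) ∨ (3 ≤ t ∧ l = t))
    (hP : 2 * x ≤ i * P) (hQ : 2 * y ≤ i * Q)
    (hH : i = 1 ∨ 4 * i ≤ 2 * (x + y) + l) (hi1 : i = 1 → x = 0 ∧ y = 0)
    (h1 : P + Q - 1 ≤ N) (h2 : P * Q ≤ 2 * N) :
    2 * (i * i) * (P + Q) + 4 * (x * y) ≤ 2 * (i * i) * N + 4 * i * (x + y) + i * (2 * t - l) := by
  have ht : 2 ≤ 2 * t - l := by rcases hT with h | h <;> omega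
  have hit : 2 * i ≤ i * (2 * t - l) := by nlinarith
  have hii : 0 ≤ i * i := by positivity
  have m1 : i * i * (P + Q - 1) ≤ i * i * N := mul_le_mul_of_nonneg_left h1 hii
  have m2 : i * i * (P * Q) ≤ i * i * (2 * N) := mul_le_mul_of_nonneg_left h2 hii
  have key : 4 * ((i - x) * (i - y)) = 4 * (i * i) - 4 * i * (x + y) + 4 * (x * y) := by ring
  rcases lt_or_ge x i with hx3 | hx3
  · rcases lt_or_ge y i with hy3 | hy3
    · have e0 : 4 * ((i - x) * (i - y)) ≤ 2 * (i * i) + i * (2 * t - l) := by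
        rcases hH with h | h
        · obtain ⟨rfl, rfl⟩ := hi1 h
          subst h
          linarith
        · have e1 : (i - x) * (i - y) ≤ i * i := by
            nlinarith [mul_nonneg hx hy, mul_nonneg hx (by linarith : (0:ℤ) ≤ i - y),
              mul_nonneg hy (by linarith : (0:ℤ) ≤ i)]
          have e2 : 4 * ((i - x) * (i - y)) ≤ ((i - x) + (i - y)) ^ 2 := by
            nlinarith [sq_nonneg ((i - x) - (i - y))]
          have e3 : 4 * ((i - x) + (i - y)) ^ 2 ≤ l ^ 2 := by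
            have : (2 * ((i - x) + (i - y))) ^ 2 ≤ l ^ 2 := by
              apply pow_le_pow_left₀ <;> linarith
            nlinarith
          rcases hT with ⟨rfl, rfl⟩ | ⟨h3, rfl⟩
          · nlinarith
          · rcases le_or_gt (2 * i) l with h3 | h3
            · nlinarith
            · nlinarith
      nlinarith
    · have e0 : (i - x) * (i - y) ≤ 0 := by
        apply mul_nonpos_of_nonneg_of_nonpos <;> linarith
      nlinarith
  · rcases lt_or_ge y i with hy3 | hy3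
    · have e0 : (i - x) * (i - y) ≤ 0 := by
        apply mul_nonpos_of_nonpos_of_nonneg <;> linarith
      nlinarith
    · have e0 : (2 * x - 2 * i) * (2 * y - 2 * i) ≤ (i * P - 2 * i) * (i * Q - 2 * i) := by
        apply mul_le_mul <;> linarith
      nlinarith

/-- third output of `tri` (`N = ⊤`) -/
theorem garith3 {i x y P Q t l K L : ℤ} (hi : 2 ≤ i) (hx : 0 ≤ x) (hy : 0 ≤ y)
    (hT : (t = 3 ∧ l = 4) ∨ (3 ≤ t ∧ l = t))
    (hP : 2 * x ≤ i * P) (hQ : 2 * y ≤ i * Q)
    (hH : 4 * i ≤ 2 * (x + y) + l)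
    (h1 : 2 * (L + P + Q) ≤ K + 4) (h2 : 2 * L + P * Q ≤ K) :
    2 * (i * i) * (P + Q) + 4 * (x * y) + 2 * (i * i) * L ≤
      (i * i) * K + 4 * i * (x + y) + i * t := by
  have ht : 3 ≤ t := by rcases hT with h | h <;> omega
  have hii : 0 ≤ i * i := by positivity
  have m1 : i * i * (2 * (L + P + Q)) ≤ i * i * (K + 4) := mul_le_mul_of_nonneg_left h1 hii
  have m2 : i * i * (2 * L + P * Q) ≤ i * i * K := mul_le_mul_of_nonneg_left h2 hii
  have key : 4 * ((i - x) * (i - y)) = 4 * (i * i) - 4 * i * (x + y) + 4 * (x * y) := by ring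
  have hit : 3 * i ≤ i * t := by nlinarith
  rcases lt_or_ge x i with hx3 | hx3
  · rcases lt_or_ge y i with hy3 | hy3
    · have e0 : 4 * ((i - x) * (i - y)) ≤ i * t := by
        have e1 : (i - x) * (i - y) ≤ i * i := by
          nlinarith [mul_nonneg hx hy, mul_nonneg hx (by linarith : (0:ℤ) ≤ i - y),
            mul_nonneg hy (by linarith : (0:ℤ) ≤ i)]
        have e2 : 4 * ((i - x) * (i - y)) ≤ ((i - x) + (i - y)) ^ 2 := by
          nlinarith [sq_nonneg ((i - x) - (i - y))]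
        have e3 : 4 * ((i - x) + (i - y)) ^ 2 ≤ l ^ 2 := by
          have : (2 * ((i - x) + (i - y))) ^ 2 ≤ l ^ 2 := by
            apply pow_le_pow_left₀ <;> linarith
          nlinarith
        rcases hT with ⟨rfl, rfl⟩ | ⟨_, rfl⟩
        · nlinarith
        · rcases le_or_gt (4 * i) l with h3 | h3
          · nlinarith
          · nlinarith
      nlinarith
    · have e0 : (i - x) * (i - y) ≤ 0 := by
        apply mul_nonpos_of_nonneg_of_nonpos <;> linarith
      nlinarith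
  · rcases lt_or_ge y i with hy3 | hy3
    · have e0 : (i - x) * (i - y) ≤ 0 := by
        apply mul_nonpos_of_nonpos_of_nonneg <;> linarith
      nlinarith
    · have e0 : (2 * x - 2 * i) * (2 * y - 2 * i) ≤ (i * P - 2 * i) * (i * Q - 2 * i) := by
        apply mul_le_mul <;> linarith
      nlinarith

/-! ### transfer to a quotient -/

section transfer
variable {G : Type*} [AddCommGroup G]

/-- two maps with the same kernel have images of the same size -/
theorem card_image_eq_of_iff {α β γ : Type*} [DecidableEq β] [DecidableEq γ] {A : Finset α}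
    {f : α → β} {g : α → γ} (h : ∀ x ∈ A, ∀ y ∈ A, f x = f y ↔ g x = g y) :
    (A.image f).card = (A.image g).card := by
  classical
  have h1 : ((A.image (fun x => (f x, g x))).image Prod.fst).card =
      (A.image (fun x => (f x, g x))).card := by
    apply Finset.card_image_of_injOn
    intro p hp q hq hpq
    obtain ⟨x, hx, rfl⟩ := Finset.mem_image.1 hp
    obtain ⟨y, hy, rfl⟩ := Finset.mem_image.1 hq
    simp only at hpq
    simp only [Prod.mk.injEq]
    exact ⟨hpq, (h x hx y hy).1 hpq⟩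
  have h2 : ((A.image (fun x => (f x, g x))).image Prod.snd).card =
      (A.image (fun x => (f x, g x))).card := by
    apply Finset.card_image_of_injOn
    intro p hp q hq hpq
    obtain ⟨x, hx, rfl⟩ := Finset.mem_image.1 hp
    obtain ⟨y, hy, rfl⟩ := Finset.mem_image.1 hq
    simp only at hpq
    simp only [Prod.mk.injEq]
    exact ⟨(h x hx y hy).2 hpq, hpq⟩
  rw [Finset.image_image] at h1 h2
  exact h1.trans h2.symm

/-- number of cosets in a quotient -/
theorem nc_cl (I : AddSubgroup G) (N : AddSubgroup (G ⧸ I)) (X : Finset G) :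
    nc N (cl I X) = nc (N.comap (QuotientAddGroup.mk' I)) X := by
  classical
  unfold nc cl
  rw [Finset.image_image]
  apply card_image_eq_of_iff
  intro x _ y _
  simp only [Function.comp]
  rw [mk_eq_iff, mk_eq_iff, AddSubgroup.mem_comap]
  rfl

theorem cl_add_eq [DecidableEq G] (I : AddSubgroup G) [DecidableEq (G ⧸ I)] (X Y : Finset G) :
    cl I (X + Y) = cl I X + cl I Y := by
  ext c
  rw [Finset.mem_add]
  constructor
  · intro h
    obtain ⟨z, hz, rfl⟩ := mem_cl.1 h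
    obtain ⟨a, ha, b, hb, rfl⟩ := Finset.mem_add.1 hz
    exact ⟨_, mk_mem_cl ha, _, mk_mem_cl hb, rfl⟩
  · rintro ⟨c1, h1, c2, h2, rfl⟩
    obtain ⟨a, ha, rfl⟩ := mem_cl.1 h1
    obtain ⟨b, hb, rfl⟩ := mem_cl.1 h2
    exact mem_cl.2 ⟨a + b, Finset.add_mem_add ha hb, rfl⟩

theorem cl_nonempty {I : AddSubgroup G} {X : Finset G} (h : X.Nonempty) : (cl I X).Nonempty := by
  obtain ⟨x, hx⟩ := h
  exact ⟨_, mk_mem_cl hx⟩

theorem card_comap [Finite G] (I : AddSubgroup G) (N : AddSubgroup (G ⧸ I)) :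
    Nat.card (N.comap (QuotientAddGroup.mk' I)) = Nat.card I * Nat.card N := by
  have h1 := (N.comap (QuotientAddGroup.mk' I)).card_mul_index
  have h2 := N.card_mul_index
  have h3 : (N.comap (QuotientAddGroup.mk' I)).index = N.index :=
    AddSubgroup.index_comap_of_surjective _ (QuotientAddGroup.mk'_surjective I)
  have h4 := AddSubgroup.card_eq_card_quotient_mul_card_addSubgroup I
  have h5 : 0 < N.index := Nat.pos_of_ne_zero AddSubgroup.index_ne_zero_of_finite
  rw [h3] at h1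
  apply Nat.eq_of_mul_eq_mul_right h5
  rw [h1, h4, ← h2]
  ring

theorem comap_map_mk' {I S : AddSubgroup G} (h : I ≤ S) :
    (S.map (QuotientAddGroup.mk' I)).comap (QuotientAddGroup.mk' I) = S := by
  apply AddSubgroup.comap_map_eq_self
  rw [QuotientAddGroup.ker_mk']
  exact h

theorem comap_bot_mk' (I : AddSubgroup G) :
    (⊥ : AddSubgroup (G ⧸ I)).comap (QuotientAddGroup.mk' I) = I := by
  ext x
  rw [AddSubgroup.mem_comap, AddSubgroup.mem_bot]
  exact QuotientAddGroup.eq_zero_iff x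

theorem map_inf_map (S R : AddSubgroup G) :
    S.map (QuotientAddGroup.mk' (S ⊓ R)) ⊓ R.map (QuotientAddGroup.mk' (S ⊓ R)) = ⊥ := by
  apply AddSubgroup.comap_injective (QuotientAddGroup.mk'_surjective (S ⊓ R))
  rw [AddSubgroup.comap_inf, comap_map_mk' inf_le_left, comap_map_mk' inf_le_right, comap_bot_mk']

theorem map_ne_top {I S : AddSubgroup G} (h : I ≤ S) (hS : S ≠ ⊤) :
    S.map (QuotientAddGroup.mk' I) ≠ ⊤ := by
  intro hc
  apply hS
  rw [← comap_map_mk' h, hc]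
  rfl

theorem comap_ne_top {I : AddSubgroup G} {N : AddSubgroup (G ⧸ I)} (hN : N ≠ ⊤) :
    N.comap (QuotientAddGroup.mk' I) ≠ ⊤ := by
  intro hc
  apply hN
  apply AddSubgroup.comap_injective (QuotientAddGroup.mk'_surjective I)
  rw [hc]; rfl

end transfer

/-- reduction of the goal to integers -/
theorem gred {i x y P Q t a b c sS sR : ℕ} (hi : 1 ≤ i) (gS : sS + 2 * x = i * P)
    (gR : sR + 2 * y = i * Q)
    (h : 2 * ((i : ℤ) * i) * (P + Q) - 4 * i * (x + y) ≤ 2 * i * (c - a - b + t)) :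
    a + b + sS + sR ≤ c + t := by
  have g1 : (sS : ℤ) + 2 * x = i * P := by exact_mod_cast gS
  have g2 : (sR : ℤ) + 2 * y = i * Q := by exact_mod_cast gR
  have hi' : (1 : ℤ) ≤ i := by exact_mod_cast hi
  have e : 2 * ((i : ℤ) * i) * (P + Q) - 4 * i * (x + y) = 2 * i * (sS + sR) := by
    have e1 : (sS : ℤ) = i * P - 2 * x := by linarith
    have e2 : (sR : ℤ) = i * Q - 2 * y := by linarith
    rw [e1, e2]; ring
  rw [e] at h
  have h2 := le_of_mul_le_mul_left h (by linarith)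
  have h3 : (a : ℤ) + b + sS + sR ≤ c + t := by linarith
  exact_mod_cast h3

/-- first output -/
theorem gout1 {i x y P Q t l a b c a' b' c' sS sR : ℕ} (hi : 1 ≤ i)
    (hT : (t = 3 ∧ l = 4) ∨ (3 ≤ t ∧ l = t))
    (gS : sS + 2 * x = i * P) (gR : sR + 2 * y = i * Q)
    (hH : i = 1 ∨ 4 * i ≤ 2 * (x + y) + l) (hi1 : i = 1 → x = 0 ∧ y = 0)
    (ha : a + x = i * a') (hb : b + y = i * b') (hc : i * i * c' ≤ i * c + 2 * (x * y))
    (o1 : 2 * (a' + b') + 2 * (P + Q) ≤ 2 * c' + 6)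
    (o2 : 2 * (a' + b') + P * Q ≤ 2 * c' + P + Q) : a + b + sS + sR ≤ c + t := by
  apply gred hi gS gR
  have lS : 2 * (x : ℤ) ≤ i * P := by
    have : 2 * x ≤ i * P := by omega
    exact_mod_cast this
  have lR : 2 * (y : ℤ) ≤ i * Q := by
    have : 2 * y ≤ i * Q := by omega
    exact_mod_cast this
  have o1' : 2 * ((P : ℤ) + Q) - 6 ≤ 2 * (c' - a' - b') := by
    have : (2 : ℤ) * (a' + b') + 2 * (P + Q) ≤ 2 * c' + 6 := by exact_mod_cast o1
    linarith
  have o2' : (P : ℤ) * Q - P - Q ≤ 2 * (c' - a' - b') := by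
    have : (2 : ℤ) * (a' + b') + P * Q ≤ 2 * c' + P + Q := by exact_mod_cast o2
    linarith
  have key := garith1 (i := i) (x := x) (y := y) (P := P) (Q := Q) (t := t) (l := l)
    (by omega) (by omega) (by omega) (by omega) lS lR (by omega) (by omega) o1' o2'
  have e3 : (i : ℤ) * i * a' = i * (a + x) := by
    have : (a : ℤ) + x = i * a' := by exact_mod_cast ha
    rw [this]; ring
  have e4 : (i : ℤ) * i * b' = i * (b + y) := by
    have : (b : ℤ) + y = i * b' := by exact_mod_cast hb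
    rw [this]; ring
  have hc' : (i : ℤ) * i * c' ≤ i * c + 2 * (x * y) := by exact_mod_cast hc
  have e5 : 2 * ((i : ℤ) * i) * (c' - a' - b') =
    2 * (i * i * c') - 2 * (i * i * a') - 2 * (i * i * b') := by ring
  rw [e5, e3, e4] at key
  nlinarith

/-- second output, `N ≠ ⊤` -/
theorem gout2 {i x y P Q t l a b c c' sS sR N L k : ℕ} (hi : 1 ≤ i)
    (hT : (t = 3 ∧ l = 4) ∨ (3 ≤ t ∧ l = t))
    (gS : sS + 2 * x = i * P) (gR : sR + 2 * y = i * Q)
    (hH : i = 1 ∨ 4 * i ≤ 2 * (x + y) + l) (hi1 : i = 1 → x = 0 ∧ y = 0)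
    (hc : i * i * c' ≤ i * c + 2 * (x * y))
    (q1 : L + P + Q ≤ N + 1) (q2 : 2 * L + P * Q ≤ 2 * N)
    (hHN : 4 * (i * N) + 2 * (a + b) ≤ 2 * (i * N * k) + l)
    (hkn : N * k ≤ c' + L + N) : a + b + sS + sR ≤ c + t := by
  apply gred hi gS gR
  have lS : 2 * (x : ℤ) ≤ i * P := by
    have : 2 * x ≤ i * P := by omega
    exact_mod_cast this
  have lR : 2 * (y : ℤ) ≤ i * Q := by
    have : 2 * y ≤ i * Q := by omega
    exact_mod_cast this
  have hHN' : 4 * ((i : ℤ) * N) + 2 * (a + b) ≤ 2 * (i * N * k) + l := by exact_mod_cast hHN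
  have hkn' : (N : ℤ) * k ≤ c' + L + N := by exact_mod_cast hkn
  have q1' : (P : ℤ) + Q - 1 ≤ N - L := by omega
  have q2' : (P : ℤ) * Q ≤ 2 * (N - L) := by
    have : (2 : ℤ) * L + P * Q ≤ 2 * N := by exact_mod_cast q2
    linarith
  have hc' : (i : ℤ) * i * c' ≤ i * c + 2 * (x * y) := by exact_mod_cast hc
  have key := garith2 (i := i) (x := x) (y := y) (P := P) (Q := Q) (t := t) (l := l)
    (by omega) (by omega) (by omega) (by omega) lS lR (by omega) (by omega) q1' q2'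
  have m1 : (i : ℤ) * (N * k) ≤ i * (c' + L + N) :=
    mul_le_mul_of_nonneg_left hkn' (by positivity)
  have m2 : 4 * ((i : ℤ) * N) + 2 * (a + b) ≤ 2 * (i * (c' + L + N)) + l := by
    have : (i : ℤ) * N * k = i * (N * k) := by ring
    linarith
  have m3 := mul_le_mul_of_nonneg_left m2 (by positivity : (0 : ℤ) ≤ i)
  nlinarith

/-- second output, `N = ⊤`, `i ≥ 2` -/
theorem gout3 {i x y P Q t l a b c c' sS sR K L : ℕ} (hi : 2 ≤ i)
    (hT : (t = 3 ∧ l = 4) ∨ (3 ≤ t ∧ l = t))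
    (gS : sS + 2 * x = i * P) (gR : sR + 2 * y = i * Q)
    (hH : 4 * i ≤ 2 * (x + y) + l)
    (hc : i * i * c' ≤ i * c + 2 * (x * y))
    (q1 : 2 * (L + P + Q) ≤ K + 4) (q2 : 2 * L + P * Q ≤ K)
    (HK : 2 * (a + b) ≤ i * K + t)
    (o1 : K ≤ c' + L) : a + b + sS + sR ≤ c + t := by
  apply gred (by omega) gS gR
  have lS : 2 * (x : ℤ) ≤ i * P := by
    have : 2 * x ≤ i * P := by omega
    exact_mod_cast this
  have lR : 2 * (y : ℤ) ≤ i * Q := by
    have : 2 * y ≤ i * Q := by omega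
    exact_mod_cast this
  have o1' : (K : ℤ) ≤ c' + L := by exact_mod_cast o1
  have HK' : 2 * ((a : ℤ) + b) ≤ i * K + t := by exact_mod_cast HK
  have q1' : 2 * ((L : ℤ) + P + Q) ≤ K + 4 := by exact_mod_cast q1
  have q2' : 2 * (L : ℤ) + P * Q ≤ K := by exact_mod_cast q2
  have hc' : (i : ℤ) * i * c' ≤ i * c + 2 * (x * y) := by exact_mod_cast hc
  have key := garith3 (i := i) (x := x) (y := y) (P := P) (Q := Q) (t := t) (l := l)
    (by omega) (by omega) (by omega) (by omega) lS lR (by omega) q1' q2'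
  have m1 : (i : ℤ) * i * K ≤ i * i * (c' + L) :=
    mul_le_mul_of_nonneg_left o1' (by positivity)
  have m2 : (i : ℤ) * (2 * ((a : ℤ) + b)) ≤ i * (i * K + t) :=
    mul_le_mul_of_nonneg_left HK' (by positivity)
  nlinarith

/-- the product bound: `|I| |X + Y| + 2 h_I(X) h_I(Y) ≥ |I|² nc_I(X + Y)` -/
def ProdB (G : Type*) [AddCommGroup G] [DecidableEq G] : Prop :=
  ∀ (I : AddSubgroup G) (X Y : Finset G) (hx hy : ℕ), X.card + hx = Nat.card I * nc I X →
    Y.card + hy = Nat.card I * nc I Y →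
    Nat.card I * Nat.card I * nc I (X + Y) ≤ Nat.card I * (X + Y).card + 2 * (hx * hy)

variable {G : Type*} [AddCommGroup G] [Fintype G] [DecidableEq G]

theorem nc_st {V N : AddSubgroup G} (h : V ≤ N) (A : Finset G) : nc N (st V A) = nc N A :=
  nc_sat h A

theorem st_add_eq (V : AddSubgroup G) (A B : Finset G) : st V (A + B) = st V A + B := by
  ext z
  constructor
  · intro hz
    obtain ⟨c, hc, h⟩ := mem_sat.1 hz
    obtain ⟨a, ha, b, hb, rfl⟩ := Finset.mem_add.1 hc
    refine Finset.mem_add.2 ⟨z - b, mem_sat.2 ⟨a, ha, ?_⟩, b, hb, by abel⟩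
    have : z - b - a = z - (a + b) := by abel
    rw [this]; exact h
  · intro hz
    obtain ⟨c, hc, b, hb, rfl⟩ := Finset.mem_add.1 hz
    obtain ⟨a, ha, h⟩ := mem_sat.1 hc
    refine mem_sat.2 ⟨a + b, Finset.add_mem_add ha hb, ?_⟩
    have : c + b - (a + b) = c - a := by abel
    rw [this]; exact h

/-- Kneser's theorem for the saturated sumset -/
theorem kneser_st (V : AddSubgroup G) (A B : Finset G) (hA : A.Nonempty) (hB : B.Nonempty) :
    Nat.card (stb (st V (A + B))) * (nc (stb (st V (A + B))) A + nc (stb (st V (A + B))) B) ≤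
      (st V (A + B)).card + Nat.card (stb (st V (A + B))) := by
  have h1 := kneser_nc (st V A) B (hA.mono subset_sat) hB
  rw [← st_add_eq] at h1
  rw [nc_st (le_stb_sat V (A + B))] at h1
  exact h1

/-- inequality (G) -/
theorem Gt {t Λ : ℕ} (hT : (t = 3 ∧ Λ = 4) ∨ (3 ≤ t ∧ Λ = t)) (S R : AddSubgroup G)
    (hS : S ≠ ⊤) (hR : R ≠ ⊤)
    (hd : ∀ (i1 : Fintype (G ⧸ (S ⊓ R))) (i2 : DecidableEq (G ⧸ (S ⊓ R))),
      @Dich (G ⧸ (S ⊓ R)) _ i1 i2) (hprod : ProdB G)
    (X Y : Finset G) (hXn : X.Nonempty) (hYn : Y.Nonempty) (hX hY : ℕ)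
    (hXS : X.card + hX = Nat.card S * nc S X) (hXl : 2 * hX < Nat.card S)
    (hYR : Y.card + hY = Nat.card R * nc R Y) (hYl : 2 * hY < Nat.card R)
    (H : ∀ V : AddSubgroup G, V ≠ ⊥ → V ≠ ⊤ → 4 * Nat.card V + 2 * (X.card + Y.card) ≤
      2 * (Nat.card V * (nc V X + nc V Y)) + Λ)
    (HK : 2 * (X.card + Y.card) ≤ Nat.card G + t) :
    X.card + Y.card + (Nat.card S - 2 * hX) + (Nat.card R - 2 * hY) ≤ (X + Y).card + t := by
  classical
  obtain ⟨I, hI⟩ : ∃ I : AddSubgroup G, I = S ⊓ R := ⟨_, rfl⟩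
  rw [← hI] at hd
  have hIS : I ≤ S := hI ▸ inf_le_left
  have hIR : I ≤ R := hI ▸ inf_le_right
  let _ : Fintype (G ⧸ I) := Fintype.ofFinite _
  obtain ⟨S', hS'⟩ : ∃ S' : AddSubgroup (G ⧸ I), S' = S.map (QuotientAddGroup.mk' I) := ⟨_, rfl⟩
  obtain ⟨R', hR'⟩ : ∃ R' : AddSubgroup (G ⧸ I), R' = R.map (QuotientAddGroup.mk' I) := ⟨_, rfl⟩
  obtain ⟨X', hX'⟩ : ∃ X' : Finset (G ⧸ I), X' = cl I X := ⟨_, rfl⟩
  obtain ⟨Y', hY'⟩ : ∃ Y' : Finset (G ⧸ I), Y' = cl I Y := ⟨_, rfl⟩
  obtain ⟨i, hi⟩ : ∃ i : ℕ, i = Nat.card I := ⟨_, rfl⟩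
  have hipos : 1 ≤ i := hi ▸ Nat.card_pos
  have cS : Nat.card S = i * Nat.card S' := by
    have := card_comap I S'
    rwa [hS', comap_map_mk' hIS, ← hS', ← hi] at this
  have cR : Nat.card R = i * Nat.card R' := by
    have := card_comap I R'
    rwa [hR', comap_map_mk' hIR, ← hR', ← hi] at this
  have nS : nc S' X' = nc S X := by rw [hX', nc_cl, hS', comap_map_mk' hIS]
  have nR : nc R' Y' = nc R Y := by rw [hY', nc_cl, hR', comap_map_mk' hIR]
  have cG : Nat.card G = i * Nat.card (G ⧸ I) := by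
    rw [AddSubgroup.card_eq_card_quotient_mul_card_addSubgroup I, mul_comm, hi]
  have hbot : S' ⊓ R' = ⊥ := by
    apply AddSubgroup.comap_injective (QuotientAddGroup.mk'_surjective I)
    rw [AddSubgroup.comap_inf, hS', hR', comap_map_mk' hIS, comap_map_mk' hIR, comap_bot_mk', hI]
  -- holes
  obtain ⟨hx, ehx⟩ : ∃ hx, X.card + hx = i * nc I X := by
    rw [hi]
    exact ⟨_, Nat.add_sub_of_le (card_le_mul_nc (fin_sub I) X)⟩
  obtain ⟨hy, ehy⟩ : ∃ hy, Y.card + hy = i * nc I Y := by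
    rw [hi]
    exact ⟨_, Nat.add_sub_of_le (card_le_mul_nc (fin_sub I) Y)⟩
  obtain ⟨eX, eeX⟩ : ∃ eX, X'.card + eX = Nat.card S' * nc S' X' :=
    ⟨_, Nat.add_sub_of_le (card_le_mul_nc (fin_sub S') X')⟩
  obtain ⟨eY, eeY⟩ : ∃ eY, Y'.card + eY = Nat.card R' * nc R' Y' :=
    ⟨_, Nat.add_sub_of_le (card_le_mul_nc (fin_sub R') Y')⟩
  have hcX : nc I X = X'.card := by rw [hX']; rfl
  have hcY : nc I Y = Y'.card := by rw [hY']; rfl
  have hX'n : X'.Nonempty := hX' ▸ cl_nonempty hXn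
  have hY'n : Y'.Nonempty := hY' ▸ cl_nonempty hYn
  have e1 : hX = i * eX + hx := by
    have h1 : i * (X'.card + eX) = Nat.card S * nc S X := by rw [eeX, cS, nS, mul_assoc]
    rw [mul_add, ← hcX, ← ehx, ← hXS] at h1
    omega
  have e2 : hY = i * eY + hy := by
    have h1 : i * (Y'.card + eY) = Nat.card R * nc R Y := by rw [eeY, cR, nR, mul_assoc]
    rw [mul_add, ← hcY, ← ehy, ← hYR] at h1
    omega
  have hP1 : 2 * eX < Nat.card S' := by
    rw [e1, cS] at hXl
    have : i * (2 * eX) < i * Nat.card S' := by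
      calc i * (2 * eX) = 2 * (i * eX) := by ring
        _ < _ := by omega
    exact Nat.lt_of_mul_lt_mul_left this
  have hQ1 : 2 * eY < Nat.card R' := by
    rw [e2, cR] at hYl
    have : i * (2 * eY) < i * Nat.card R' := by
      calc i * (2 * eY) = 2 * (i * eY) := by ring
        _ < _ := by omega
    exact Nat.lt_of_mul_lt_mul_left this
  obtain ⟨P, hP⟩ : ∃ P, Nat.card S' = P + 2 * eX := ⟨Nat.card S' - 2 * eX, by omega⟩
  obtain ⟨Q, hQ⟩ : ∃ Q, Nat.card R' = Q + 2 * eY := ⟨Nat.card R' - 2 * eY, by omega⟩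
  have gS : Nat.card S - 2 * hX + 2 * hx = i * P := by
    have : i * (P + 2 * eX) = i * P + 2 * (i * eX) := by ring
    rw [cS, hP, e1] at hXl ⊢
    omega
  have gR : Nat.card R - 2 * hY + 2 * hy = i * Q := by
    have : i * (Q + 2 * eY) = i * Q + 2 * (i * eY) := by ring
    rw [cR, hQ, e2] at hYl ⊢
    omega
  -- combinatorics in the quotient
  have htri := tri (G := G ⧸ I) (hd _ _) X' Y' hX'n hY'n S' R'
    hbot (hS' ▸ map_ne_top hIS hS) (hR' ▸ map_ne_top hIR hR) eX eY P Q eeX eeY hP hQ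
    (by omega) (by omega)
  have hpr : i * i * (X' + Y').card ≤ i * (X + Y).card + 2 * (hx * hy) := by
    have h1 := hprod I X Y hx hy (hi ▸ ehx) (hi ▸ ehy)
    have h2 : nc I (X + Y) = (X' + Y').card := by
      rw [hX', hY', ← cl_add_eq]; rfl
    rw [h2, ← hi] at h1
    exact h1
  -- alternatives on I
  have hi1 : i = 1 → hx = 0 ∧ hy = 0 := by
    intro h
    have h2 : I = ⊥ := AddSubgroup.card_eq_one.1 (hi ▸ h)
    rw [h2, nc_bot, h] at ehx ehy
    omega
  have hH : i = 1 ∨ 4 * i ≤ 2 * (hx + hy) + Λ := by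
    by_cases h : I = ⊥
    · left; rw [hi, h]; exact AddSubgroup.card_bot
    · right
      have h1 := H I h (fun hc => hS (top_le_iff.1 (hc ▸ hIS)))
      rw [← hi] at h1
      have h2 : i * (nc I X + nc I Y) = i * nc I X + i * nc I Y := mul_add _ _ _
      omega
  rcases htri with ⟨o1, o2⟩ | ⟨V, L, o1, o2, o3⟩
  · -- first output
    exact gout1 hipos hT gS gR hH hi1 (by rw [ehx, hcX]) (by rw [ehy, hcY]) hpr o1 o2
  · -- second output
    have hkn := kneser_st V X' Y' hX'n hY'n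
    obtain ⟨N, hN⟩ : ∃ N : AddSubgroup (G ⧸ I), N = stb (st V (X' + Y')) := ⟨_, rfl⟩
    rw [← hN] at hkn o2 o3
    by_cases hNT : N = ⊤
    · -- N = ⊤
      have hc : (st V (X' + Y')).card = Nat.card (G ⧸ I) :=
        card_of_stb_top ((hX'n.add hY'n).mono subset_sat) (hN ▸ hNT)
      obtain ⟨q1, q2⟩ := o3 hNT
      rw [cG] at HK
      rw [hc] at o1
      rcases Nat.lt_or_ge i 2 with h2 | h2
      · have h1 : i = 1 := by omega
        obtain ⟨rfl, rfl⟩ := hi1 h1
        rw [h1] at hpr HK gS gR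
        omega
      · have hH2 : 4 * i ≤ 2 * (hx + hy) + Λ := by omega
        exact gout3 h2 hT gS gR hH2 hpr q1 q2 HK o1
    · -- N ≠ ⊤
      obtain ⟨q1, q2⟩ := o2 hNT
      by_cases hNB : N.comap (QuotientAddGroup.mk' I) = ⊥
      · -- i = 1, |N| = 1
        have hc := card_comap I N
        rw [hNB, AddSubgroup.card_bot, ← hi] at hc
        have h1 : i = 1 := Nat.eq_one_of_mul_eq_one_right hc.symm
        have hN1 : Nat.card N = 1 := Nat.eq_one_of_mul_eq_one_left hc.symm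
        obtain ⟨rfl, rfl⟩ := hi1 h1
        have hk2 : Nat.card N * (nc N X' + nc N Y') = X.card + Y.card := by
          rw [hX', hY', nc_cl, nc_cl, hNB, nc_bot, nc_bot, hN1, one_mul]
        rw [hk2, hN1] at hkn
        rw [hN1] at q1
        rw [h1] at hpr gS gR
        omega
      · have hHN := H _ hNB (comap_ne_top hNT)
        rw [← nc_cl, ← nc_cl, card_comap, ← hX', ← hY', ← hi] at hHN
        have hkn' : Nat.card N * (nc N X' + nc N Y') ≤ (X' + Y').card + L + Nat.card N := by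
          omega
        exact gout2 hipos hT gS gR hH hi1 hpr q1 q2 hHN hkn'

end Pool.Agent.Lib.MP_09e095_co.QG
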