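import Mathlib
import Pool.Agent.Lib.MP_09e095_co.QStar

/-!
MP_09e095_co : product bound for the holes of `X + Y` in the cosets of a finite subgroup.
-/

set_option autoImplicit false

open Finset
open scoped Pointwise

namespace Pool.Agent.Lib.MP_09e095_co.Star

variable {G : Type*} [AddCommGroup G] [DecidableEq G]

theorem prod_arith {i a b c : ℕ} (h1 : c ≤ a) (h2 : c ≤ b) (h3 : i ≤ a + b) :
    i * c ≤ 2 * a * b := by
  rcases le_total a b with h | h
  · calc i * c ≤ (2 * b) * a := Nat.mul_le_mul (by omega) h1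
      _ = 2 * a * b := by ring
  · calc i * c ≤ (2 * a) * b := Nat.mul_le_mul (by omega) h2
      _ = 2 * a * b := by ring

theorem bl_le_right {S : AddSubgroup G} {X Y : Finset G} {σ τ : G ⧸ S} (hσ : σ ∈ cl S X) :
    bl S X Y σ τ ≤ Nat.card S - (fb S Y τ).card := by
  unfold bl
  have h1 : (fb S Y τ).card ≤ (fb S X σ + fb S Y τ).card :=
    Finset.card_le_card_add_left (fb_nonempty_iff.2 hσ)
  omega

theorem card_mul_bl_le {I : AddSubgroup G} (hI : (I : Set G).Finite) {X Y : Finset G}
    {σ τ : G ⧸ I} (hσ : σ ∈ cl I X) (hτ : τ ∈ cl I Y) :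
    Nat.card I * bl I X Y σ τ ≤
      2 * (Nat.card I - (fb I X σ).card) * (Nat.card I - (fb I Y τ).card) := by
  by_cases h : bl I X Y σ τ = 0
  · rw [h, mul_zero]; exact Nat.zero_le _
  · apply prod_arith (bl_le_left hτ) (bl_le_right hσ)
    by_contra hc
    apply h
    have h1 := card_add_full hI (fb_sub_mem (S := I) (X := X) (σ := σ))
      (fb_sub_mem (S := I) (X := Y) (σ := τ)) (by omega)
    unfold bl
    omega

/-- the product bound -/
theorem prod_bound {I : AddSubgroup G} (hI : (I : Set G).Finite) {X Y : Finset G} {hx hy : ℕ}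
    (h1 : X.card + hx = Nat.card I * nc I X) (h2 : Y.card + hy = Nat.card I * nc I Y) :
    Nat.card I * (Nat.card I * nc I (X + Y)) ≤ Nat.card I * (X + Y).card + 2 * hx * hy := by
  classical
  have e1 := sum_holes hI X
  have e2 := sum_holes hI Y
  have e3 := sum_holes hI (X + Y)
  have e4 : ∑ σ ∈ cl I X, (Nat.card I - (fb I X σ).card) = hx := by omega
  have e5 : ∑ τ ∈ cl I Y, (Nat.card I - (fb I Y τ).card) = hy := by omega
  have havg := avg_reps (A := cl I X) (B := cl I Y) (r := 1) (fun q hq => rep_pos hq)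
    (fun q => Nat.card I * (Nat.card I - (fb I (X + Y) q).card))
    (fun σ τ => 2 * (Nat.card I - (fb I X σ).card) * (Nat.card I - (fb I Y τ).card))
    (fun σ hσ τ hτ => (Nat.mul_le_mul_left _ (hole_sum_le σ τ)).trans (card_mul_bl_le hI hσ hτ))
  rw [one_mul, ← cl_add, ← Finset.mul_sum] at havg
  have e6 : ∑ τ ∈ cl I Y, ∑ σ ∈ cl I X,
      2 * (Nat.card I - (fb I X σ).card) * (Nat.card I - (fb I Y τ).card) = 2 * hx * hy := by
    rw [← e4, ← e5, Finset.mul_sum, Finset.mul_sum]
    apply Finset.sum_congr rfl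
    intro τ _
    rw [Finset.sum_mul]
  rw [e6] at havg
  have e7 : Nat.card I * (Nat.card I * nc I (X + Y)) = Nat.card I * (X + Y).card +
      Nat.card I * ∑ q ∈ cl I (X + Y), (Nat.card I - (fb I (X + Y) q).card) := by
    rw [← mul_add, e3]
  omega

end Pool.Agent.Lib.MP_09e095_co.Star
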