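import Mathlib
import Pool.Agent.Lib.MP_09e095_co.QG
import Pool.Agent.Lib.MP_09e095_co.QDich
import Pool.Agent.Lib.MP_09e095_co.QProd
import Pool.Agent.Lib.MP_09e095_co.QStepC

/-!
MP_09e095_co : Step C without hypotheses on the dichotomy and on inequality (G).
-/

set_option autoImplicit false

open Finset
open scoped Pointwise

namespace Pool.Agent.Lib.MP_09e095_co

variable {G : Type*} [AddCommGroup G] [DecidableEq G]

/-- the product bound in the form used by `QG.Gt` -/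
theorem prodB [Finite G] : QG.ProdB G := by
  intro I X Y hx hy h1 h2
  have := Star.prod_bound (I := I) (Set.toFinite _) h1 h2
  calc Nat.card I * Nat.card I * nc I (X + Y) = Nat.card I * (Nat.card I * nc I (X + Y)) := by
        ring
    _ ≤ Nat.card I * (X + Y).card + 2 * hx * hy := this
    _ = Nat.card I * (X + Y).card + 2 * (hx * hy) := by ring

/-- inequality (G) -/
theorem ineqG [Finite G] {t Λ : ℕ} (hT : (t = 3 ∧ Λ = 4) ∨ (3 ≤ t ∧ Λ = t)) (S R : AddSubgroup G)
    (hS : S ≠ ⊤) (hR : R ≠ ⊤)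
    (X Y : Finset G) (hXn : X.Nonempty) (hYn : Y.Nonempty) (hX hY : ℕ)
    (hXS : X.card + hX = Nat.card S * nc S X) (hXl : 2 * hX < Nat.card S)
    (hYR : Y.card + hY = Nat.card R * nc R Y) (hYl : 2 * hY < Nat.card R)
    (H : ∀ V : AddSubgroup G, V ≠ ⊥ → V ≠ ⊤ → 4 * Nat.card V + 2 * (X.card + Y.card) ≤
      2 * (Nat.card V * (nc V X + nc V Y)) + Λ)
    (HK : 2 * (X.card + Y.card) ≤ Nat.card G + t) :
    X.card + Y.card + (Nat.card S - 2 * hX) + (Nat.card R - 2 * hY) ≤ (X + Y).card + t := by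
  classical
  let _ : Fintype G := Fintype.ofFinite G
  exact QG.Gt hT S R hS hR (fun _ _ => dich _) prodB X Y hXn hYn hX hY hXS hXl hYR hYl H HK

/-- **Step C** -/
theorem stepC [Finite G] {τ L : ℕ} (hT : (τ = 3 ∧ L = 4) ∨ (4 ≤ τ ∧ L = τ))
    {X Y : Finset G} (hX : X.Nonempty) (hY : Y.Nonempty)
    (H : ∀ V : AddSubgroup G, V ≠ ⊥ → V ≠ ⊤ →
      4 * Nat.card V + 2 * (X.card + Y.card) ≤ 2 * (Nat.card V * (nc V X + nc V Y)) + L)
    (HK : 2 * (X.card + Y.card) ≤ Nat.card G + τ)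
    (HF : ∀ V : AddSubgroup G, V ≠ ⊥ →
      (X + X).card + (X + Y).card + (Y + Y).card + Nat.card V * (nc V X + nc V Y) <
        Nat.card V * (nc V (X + X) + nc V (X + Y) + nc V (Y + Y)) + X.card + Y.card) :
    3 * (X.card + Y.card) ≤ (X + X).card + (X + Y).card + (Y + Y).card + τ := by
  apply stepC_of (fun S X Y h h1 h2 h3 h4 => dich_short S (Set.toFinite _) X Y h h1 h2 h3 h4)
    hT hX hY H HK HF
  intro S R hx hy _ _ hS hR _ _ hXS hXl hYR hYl _ _
  exact ineqG (by rcases hT with h | h <;> omega) S R hS hR X Y hX hY hx hy hXS (by omega) hYR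
    (by omega) H HK

end Pool.Agent.Lib.MP_09e095_co
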