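import Mathlib
import Pool.Agent.Lib.MP_09e095_co.QInduct
import Pool.Agent.Lib.MP_09e095_co.QStepCFull

/-!
MP_09e095_co : theorem Q (the two-layer theorem) for all finite abelian groups.
-/

set_option autoImplicit false

open Finset
open scoped Pointwise

namespace Pool.Agent.Lib.MP_09e095_co

universe u

theorem stepCStmt_finite (H : Type u) [AddCommGroup H] [Finite H] : StepCStmt H := by
  intro _ X Y τ L hX hY hT hH hHK hHF
  exact stepC hT hX hY hH hHK hHF

/-- theorem Q for all finite abelian groups -/
theorem QThm_finite (G : Type u) [AddCommGroup G] [Finite G] : QThm G :=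
  QThm_of_stepC' (fun H _ _ => stepCStmt_finite H) G

/-- theorem Q relative to a finite subgroup of any abelian group -/
theorem W2_finite (G : Type u) [AddCommGroup G] (K : AddSubgroup G) (hK : (K : Set G).Finite) :
    W2 G K :=
  W2_of_stepC (fun H _ _ => stepCStmt_finite H) _ G K hK le_rfl

end Pool.Agent.Lib.MP_09e095_co
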