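import Mathlib
import Pool.Agent.Lib.MP_09e095_co.QFinal
import Pool.Agent.Lib.MP_09e095_co.QStepA

/-!
MP_09e095_co : Lemma H. If `A` has few holes with respect to a finite subgroup `L ≠ 0`, then
filling `A` up with respect to a suitable subgroup `0 ≠ L' ≤ L` does not increase `|2A| - |A|`.
-/

set_option autoImplicit false

open Finset
open scoped Pointwise

namespace Pool.Agent.Lib.MP_09e095_co.Fin

variable {G : Type*} [AddCommGroup G] [DecidableEq G]

theorem lemH_aux (A : Finset G) (hA : A.Nonempty) : ∀ (n : ℕ) (L : AddSubgroup G),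
    (L : Set G).Finite → Nat.card L ≤ n → L ≠ ⊥ →
    2 * (Nat.card L * nc L A) + 4 ≤ 3 * Nat.card L + 2 * A.card →
    ∃ L' : AddSubgroup G, L' ≤ L ∧ L' ≠ ⊥ ∧
      Nat.card L' * nc L' (A + A) + A.card ≤ (A + A).card + Nat.card L' * nc L' A := by
  intro n
  induction n with
  | zero =>
    intro L hL hn
    have := natCard_pos hL
    omega
  | succ n ih =>
    intro L hL hn hne hgood
    rcases Nat.lt_or_ge (nc L A) 2 with h1 | h2
    · -- one coset
      have hnc : nc L A = 1 := by
        have := nc_pos (V := L) hA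
        omega
      refine ⟨L, le_rfl, hne, ?_⟩
      have hin := inCoset_of_nc_eq_one hnc
      have hnc2 : nc L (A + A) = 1 := (hin.add hin).nc_eq_one (hA.add hA)
      have hcard : A.card ≤ (A + A).card := Finset.card_le_card_add_right hA
      rw [hnc, hnc2]
      omega
    · rcases stepA hL A h2 (by omega) with ⟨θ0, h0, θ1, h1, hne01, u, e1, e2⟩ |
        ⟨θ0, h0, θ1, h1, θ2, h2', hne01, hne02, hne12, g1, g2, g3, u, e1, e2⟩
      · by_cases hfin : Nat.card L * nc L (A + A) + A.card ≤ (A + A).card + Nat.card L * nc L A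
        · exact ⟨L, le_rfl, hne, hfin⟩
        · push Not at hfin
          obtain ⟨V, hVL, hV⟩ := W2_finite G L hL inferInstance (fb L A θ0) (fb L A θ1)
            (fb_nonempty_iff.2 h0) (fb_nonempty_iff.2 h1) (inCoset_fb L A θ0)
            (inCoset_fb L A θ1)
          have hVne : V ≠ ⊥ := by
            rintro rfl
            rw [nc_bot, nc_bot, AddSubgroup.card_bot] at hV
            omega
          have hVneL : V ≠ L := by
            rintro rfl
            rw [(inCoset_fb V A θ0).nc_eq_one (fb_nonempty_iff.2 h0),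
              (inCoset_fb V A θ1).nc_eq_one (fb_nonempty_iff.2 h1)] at hV
            omega
          have hVlt := natCard_lt hL hVL hVneL
          have h3 := mul_nc_le_two hL hVL h0 h1 hne01
          have h4 : Nat.card V * (nc V (fb L A θ0) + nc V (fb L A θ1)) =
            Nat.card V * nc V (fb L A θ0) + Nat.card V * nc V (fb L A θ1) := mul_add _ _ _
          obtain ⟨L', hL', hne', hres⟩ := ih V (hL.subset hVL) (by omega) hVne (by omega)
          exact ⟨L', hL'.trans hVL, hne', hres⟩
      · omega

/-- **Lemma H** -/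
theorem lemH {A : Finset G} (hA : A.Nonempty) {L : AddSubgroup G} (hL : (L : Set G).Finite)
    (hne : L ≠ ⊥) (hgood : 2 * (Nat.card L * nc L A) + 4 ≤ 3 * Nat.card L + 2 * A.card) :
    ∃ L' : AddSubgroup G, L' ≤ L ∧ L' ≠ ⊥ ∧
      Nat.card L' * nc L' (A + A) + A.card ≤ (A + A).card + Nat.card L' * nc L' A :=
  lemH_aux A hA (Nat.card L) L hL le_rfl hne hgood

end Pool.Agent.Lib.MP_09e095_co.Fin
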