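import Mathlib
import Pool.Agent.Lib.MP_09e095_co.FinH
import Pool.Agent.Lib.MP_09e095_co.QG

/-!
MP_09e095_co : iteration of the several-layer theorem (QQ) with Lemma H in a group `Γ` with a
homomorphism `π : Γ → ℤ` with finite cyclic kernel.
-/

set_option autoImplicit false

open Finset
open scoped Pointwise

namespace Pool.Agent.Lib.MP_09e095_co

/-- the statement of the several-layer theorem -/
def QQStmt : Prop :=
  ∀ (Γ : Type) [AddCommGroup Γ] (π : Γ →+ ℤ), Finite π.ker → IsAddCyclic π.ker →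
    ∀ (_ : DecidableEq Γ) (A : Finset Γ) (x y : Γ), x ∈ A → y ∈ A → π x ≠ π y →
      (∃ V : AddSubgroup Γ, (V : Set Γ).Finite ∧
        2 * (Nat.card V * nc V A) + A.card ≤ (A + A).card + 3 * Nat.card V) ∨
      (∃ (N : ℕ) (V : AddSubgroup Γ) (a d : Γ), (V : Set Γ).Finite ∧ 2 ≤ N ∧
        (∀ z ∈ A, ∃ j : ℕ, j < N ∧ z - a - j • d ∈ V) ∧
        (N - 1) * Nat.card V + A.card ≤ (A + A).card)

namespace Fin

section quot
variable {Γ : Type} [AddCommGroup Γ]

theorem le_ker {π : Γ →+ ℤ} {H : AddSubgroup Γ} (hH : (H : Set Γ).Finite) : H ≤ π.ker := by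
  intro x hx
  rw [AddMonoidHom.mem_ker]
  by_contra hne
  have : Finite H := hH.to_subtype
  have h1 : Nat.card H • (⟨x, hx⟩ : H) = 0 := card_nsmul_eq_zero'
  have h2 : Nat.card H • x = 0 := by
    have h4 := congrArg (H.subtype) h1
    rw [map_nsmul, map_zero] at h4
    exact h4
  have h3 : Nat.card H • π x = 0 := by rw [← map_nsmul, h2, map_zero]
  rw [nsmul_eq_mul] at h3
  rcases mul_eq_zero.1 h3 with h | h
  · have : 0 < Nat.card H := Nat.card_pos
    have h5 : Nat.card H = 0 := by exact_mod_cast h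
    omega
  · exact hne h

/-- the induced map on the quotient -/
noncomputable def qmap (π : Γ →+ ℤ) (H : AddSubgroup Γ) (h : H ≤ π.ker) : Γ ⧸ H →+ ℤ :=
  QuotientAddGroup.lift H π h

theorem qmap_mk (π : Γ →+ ℤ) (H : AddSubgroup Γ) (h : H ≤ π.ker) (x : Γ) :
    qmap π H h (QuotientAddGroup.mk x) = π x := rfl

/-- the map of kernels -/
noncomputable def kerMap (π : Γ →+ ℤ) (H : AddSubgroup Γ) (h : H ≤ π.ker) :
    π.ker →+ (qmap π H h).ker :=
  ((QuotientAddGroup.mk' H).comp π.ker.subtype).codRestrict (qmap π H h).ker (by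
    rintro ⟨x, hx⟩
    exact hx)

theorem kerMap_surjective (π : Γ →+ ℤ) (H : AddSubgroup Γ) (h : H ≤ π.ker) :
    Function.Surjective (kerMap π H h) := by
  rintro ⟨y, hy⟩
  obtain ⟨x, rfl⟩ := QuotientAddGroup.mk_surjective y
  exact ⟨⟨x, hy⟩, rfl⟩

theorem finite_ker (π : Γ →+ ℤ) (H : AddSubgroup Γ) (h : H ≤ π.ker) [Finite π.ker] :
    Finite (qmap π H h).ker := Finite.of_surjective _ (kerMap_surjective π H h)

theorem cyclic_ker (π : Γ →+ ℤ) (H : AddSubgroup Γ) (h : H ≤ π.ker) [IsAddCyclic π.ker] :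
    IsAddCyclic (qmap π H h).ker :=
  isAddCyclic_of_surjective (kerMap π H h) (kerMap_surjective π H h)

/-- the preimage of a finite subgroup of the quotient -/
theorem comap_finite {H : AddSubgroup Γ} (hH : (H : Set Γ).Finite) {V : AddSubgroup (Γ ⧸ H)}
    (hV : (V : Set (Γ ⧸ H)).Finite) :
    ((V.comap (QuotientAddGroup.mk' H) : AddSubgroup Γ) : Set Γ).Finite := by
  have : ((V.comap (QuotientAddGroup.mk' H) : AddSubgroup Γ) : Set Γ) =
      ⋃ v ∈ (V : Set (Γ ⧸ H)), (QuotientAddGroup.mk' H) ⁻¹' {v} := by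
    ext x
    simp
  rw [this]
  apply hV.biUnion
  intro v _
  obtain ⟨y, rfl⟩ := QuotientAddGroup.mk_surjective v
  apply (hH.image (fun z => z + y)).subset
  intro x hx
  refine ⟨x - y, ?_, by simp⟩
  have h1 : (QuotientAddGroup.mk x : Γ ⧸ H) = QuotientAddGroup.mk y := hx
  exact sub_mem_of_mk_eq h1

theorem le_comap {H : AddSubgroup Γ} (V : AddSubgroup (Γ ⧸ H)) :
    H ≤ V.comap (QuotientAddGroup.mk' H) := by
  intro x hx
  rw [AddSubgroup.mem_comap]
  have : (QuotientAddGroup.mk' H) x = 0 := (QuotientAddGroup.eq_zero_iff x).2 hx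
  rw [this]; exact V.zero_mem

theorem card_comap' {H : AddSubgroup Γ} (hH : (H : Set Γ).Finite) {V : AddSubgroup (Γ ⧸ H)}
    (hV : (V : Set (Γ ⧸ H)).Finite) :
    Nat.card (V.comap (QuotientAddGroup.mk' H) : AddSubgroup Γ) = Nat.card H * Nat.card V := by
  classical
  set V' := V.comap (QuotientAddGroup.mk' H) with hV'
  have hV'f : (V' : Set Γ).Finite := comap_finite hH hV
  rw [natCard_eq hV'f]
  rw [card_of_stable (V := H) hH (P := hV'f.toFinset)]
  · congr 1
    rw [natCard_eq hV]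
    unfold nc
    congr 1
    ext c
    rw [mem_cl]
    constructor
    · rintro ⟨x, hx, rfl⟩
      simp only [Set.Finite.mem_toFinset, SetLike.mem_coe] at hx ⊢
      exact hx
    · intro hc
      obtain ⟨x, rfl⟩ := QuotientAddGroup.mk_surjective c
      refine ⟨x, ?_, rfl⟩
      simp only [Set.Finite.mem_toFinset, SetLike.mem_coe] at hc ⊢
      exact hc
  · intro v hv x hx
    simp only [Set.Finite.mem_toFinset, SetLike.mem_coe] at hx ⊢
    exact V'.add_mem (le_comap V hv) hx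

end quot

/-- the conclusion of the iteration for `A` in `Γ` -/
def Concl {Γ : Type} [AddCommGroup Γ] [DecidableEq Γ] (A : Finset Γ) : Prop :=
  ∃ H : AddSubgroup Γ, (H : Set Γ).Finite ∧
    ((Nat.card H * nc H (A + A) + A.card ≤ (A + A).card + Nat.card H * nc H A ∧
      3 * nc H A ≤ nc H (A + A) + 3) ∨
    (∃ (N : ℕ) (a d : Γ), 2 ≤ N ∧ (∀ z ∈ A, ∃ j : ℕ, j < N ∧ z - a - j • d ∈ H) ∧
      (N - 1) * Nat.card H + A.card ≤ (A + A).card))

/-- **iteration** -/
theorem iter (hQQ : QQStmt) {Γ : Type} [AddCommGroup Γ] [DecidableEq Γ] (π : Γ →+ ℤ)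
    [Finite π.ker] [IsAddCyclic π.ker] (A : Finset Γ) (x y : Γ) (hx : x ∈ A) (hy : y ∈ A)
    (hxy : π x ≠ π y) : Concl A := by
  classical
  -- a subgroup of largest order
  let Q : ℕ → Prop := fun n => ∃ H : AddSubgroup Γ, (H : Set Γ).Finite ∧ Nat.card H = n ∧
    Nat.card H * nc H (A + A) + A.card ≤ (A + A).card + Nat.card H * nc H A
  have hQ1 : Q 1 := by
    refine ⟨⊥, Set.finite_singleton _, AddSubgroup.card_bot, ?_⟩
    rw [nc_bot, nc_bot, AddSubgroup.card_bot]
    omega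
  have hkf : ((π.ker : AddSubgroup Γ) : Set Γ).Finite := Set.toFinite _
  have hQb : ∀ n, Q n → n ≤ Nat.card π.ker := by
    rintro n ⟨H, hH, rfl, _⟩
    exact natCard_mono hkf (le_ker hH)
  obtain ⟨H, hH, hHn, hF⟩ := Nat.findGreatest_spec (P := Q) (hQb 1 hQ1) hQ1
  have hmax : ∀ H' : AddSubgroup Γ, (H' : Set Γ).Finite →
      Nat.card H' * nc H' (A + A) + A.card ≤ (A + A).card + Nat.card H' * nc H' A →
      Nat.card H' ≤ Nat.card H := by
    intro H' hH' h
    rw [hHn]
    exact Nat.le_findGreatest (hQb _ ⟨H', hH', rfl, h⟩) ⟨H', hH', rfl, h⟩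
  by_cases h3 : 3 * nc H A ≤ nc H (A + A) + 3
  · exact ⟨H, hH, Or.inl ⟨hF, h3⟩⟩
  push Not at h3
  have hHpos := natCard_pos hH
  have hker := le_ker (π := π) hH
  have hP2 : cl H A + cl H A = cl H (A + A) := (QG.cl_add_eq H A A).symm
  have hPc : (cl H A + cl H A).card = nc H (A + A) := by rw [hP2]; rfl
  have hPc1 : (cl H A).card = nc H A := rfl
  rcases hQQ (Γ ⧸ H) (qmap π H hker) (finite_ker π H hker) (cyclic_ker π H hker) inferInstance
    (cl H A) (QuotientAddGroup.mk x) (QuotientAddGroup.mk y) (mk_mem_cl hx) (mk_mem_cl hy)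
    (by rw [qmap_mk, qmap_mk]; exact hxy) with ⟨V, hV, h⟩ | ⟨N, V, a, d, hV, hN, hc, h⟩
  · exfalso
    rw [hPc, hPc1] at h
    have hVne : V ≠ ⊥ := by
      rintro rfl
      rw [nc_bot, AddSubgroup.card_bot, hPc1] at h
      omega
    obtain ⟨L', hL'V, hL'ne, hL'⟩ := lemH (A := cl H A) ⟨_, mk_mem_cl hx⟩ hV hVne
      (by rw [hPc1]; omega)
    have hL'f : (L' : Set (Γ ⧸ H)).Finite := hV.subset hL'V
    rw [hPc, hPc1, hP2, QG.nc_cl, QG.nc_cl] at hL'
    have hcard := card_comap' hH hL'f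
    have hm := hmax _ (comap_finite hH hL'f) (by
      rw [hcard]
      have h5 := Nat.mul_le_mul_left (Nat.card H) hL'
      rw [mul_add, mul_add] at h5
      rw [mul_assoc, mul_assoc]
      omega)
    rw [hcard] at hm
    have h6 : 1 < Nat.card L' := by
      have := natCard_pos hL'f
      have h7 : Nat.card L' ≠ 1 := fun h => hL'ne (AddSubgroup.card_eq_one.1 h)
      omega
    have h8 : Nat.card H * 2 ≤ Nat.card H * Nat.card L' := Nat.mul_le_mul_left _ h6
    omega
  · obtain ⟨a', rfl⟩ := QuotientAddGroup.mk_surjective a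
    obtain ⟨d', rfl⟩ := QuotientAddGroup.mk_surjective d
    refine ⟨V.comap (QuotientAddGroup.mk' H), comap_finite hH hV, Or.inr ⟨N, a', d', hN, ?_, ?_⟩⟩
    · intro z hz
      obtain ⟨j, hj, hjm⟩ := hc _ (mk_mem_cl hz)
      exact ⟨j, hj, hjm⟩
    · rw [card_comap' hH hV]
      rw [hPc, hPc1] at h
      have h5 := Nat.mul_le_mul_left (Nat.card H) h
      rw [mul_add] at h5
      have h6 : Nat.card H * ((N - 1) * Nat.card V) = (N - 1) * (Nat.card H * Nat.card V) := by
        ring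
      omega

end Fin

end Pool.Agent.Lib.MP_09e095_co
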