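import Mathlib

/-!
MP_09e095_co : a set with small doubling has an iterated sumset which is almost invariant.
-/

set_option autoImplicit false

open Finset
open scoped Pointwise

namespace Pool.Agent.Lib.MP_09e095_co

variable {G : Type*} [AddCommGroup G] [DecidableEq G]

/-- iterated sumset -/
def itS (A : Finset G) : ℕ → Finset G
  | 0 => {0}
  | k + 1 => itS A k + A

@[simp] theorem itS_zero (A : Finset G) : itS A 0 = {0} := rfl

theorem itS_succ (A : Finset G) (k : ℕ) : itS A (k + 1) = itS A k + A := rfl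

@[simp] theorem itS_one (A : Finset G) : itS A 1 = A := by
  rw [itS_succ, itS_zero, singleton_zero, zero_add]

theorem itS_nonempty {A : Finset G} (hA : A.Nonempty) (k : ℕ) : (itS A k).Nonempty := by
  induction k with
  | zero => exact singleton_nonempty 0
  | succ k ih => exact ih.add hA

theorem itS_card_mono {A : Finset G} (hA : A.Nonempty) {k l : ℕ} (h : k ≤ l) :
    (itS A k).card ≤ (itS A l).card := by
  induction l, h using Nat.le_induction with
  | base => exact le_rfl
  | succ l _ ih => exact ih.trans (card_le_card_add_right hA)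

/-- elements of an iterated sumset are combinations with bounded coefficients -/
theorem itS_repr (F : Finset G) (k : ℕ) : ∀ x ∈ itS F k,
    ∃ c : G → ℕ, (∀ s ∈ F, c s ≤ k) ∧ x = ∑ s ∈ F, c s • s := by
  induction k with
  | zero =>
    intro x hx
    refine ⟨fun _ => 0, fun _ _ => le_rfl, ?_⟩
    simpa using hx
  | succ k ih =>
    intro x hx
    rw [itS_succ, mem_add] at hx
    obtain ⟨y, hy, s0, hs0, rfl⟩ := hx
    obtain ⟨c, hc, rfl⟩ := ih y hy
    refine ⟨fun s => c s + if s = s0 then 1 else 0, fun s hs => ?_, ?_⟩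
    · have := hc s hs
      dsimp only
      split_ifs <;> omega
    · simp only [add_smul, sum_add_distrib]
      congr 1
      simp [ite_smul, hs0]

theorem itS_card_le (F : Finset G) (k : ℕ) : (itS F k).card ≤ (k + 1) ^ F.card := by
  classical
  have hsub : itS F k ⊆ (Fintype.piFinset (fun _ : F => range (k + 1))).image
      (fun c => ∑ s : F, c s • (s : G)) := by
    intro x hx
    obtain ⟨c, hc, rfl⟩ := itS_repr F k x hx
    rw [mem_image]
    refine ⟨fun s => c s, ?_, ?_⟩
    · rw [Fintype.mem_piFinset]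
      intro s
      rw [mem_range]
      have := hc s s.2
      omega
    · exact Finset.sum_coe_sort F (fun s => c s • s)
  refine (card_le_card hsub).trans (card_image_le.trans (le_of_eq ?_))
  rw [Fintype.card_piFinset]
  simp

/-- covering: `(k+1)A - A ⊆ kF + (A - A)` -/
theorem itS_sub_subset {A F : Finset G} (hF : A + A - A ⊆ F + (A - A)) (k : ℕ) :
    itS A (k + 1) - A ⊆ itS F k + (A - A) := by
  induction k with
  | zero =>
    rw [itS_one, itS_zero, singleton_zero, zero_add]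
  | succ k ih =>
    intro x hx
    rw [mem_sub] at hx
    obtain ⟨z, hz, b, hb, rfl⟩ := hx
    rw [itS_succ, mem_add] at hz
    obtain ⟨y, hy, a, ha, rfl⟩ := hz
    have h1 : y - b ∈ itS F k + (A - A) := ih (sub_mem_sub hy hb)
    rw [mem_add] at h1
    obtain ⟨f, hf, d, hd, hfd⟩ := h1
    rw [mem_sub] at hd
    obtain ⟨a1, ha1, a2, ha2, rfl⟩ := hd
    have h2 : a1 + a - a2 ∈ F + (A - A) := hF (sub_mem_sub (add_mem_add ha1 ha) ha2)
    rw [mem_add] at h2
    obtain ⟨f', hf', d', hd', hfd'⟩ := h2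
    rw [itS_succ, mem_add]
    refine ⟨f + f', add_mem_add hf hf', d', hd', ?_⟩
    have e1 : y + a - b = f + (a1 + a - a2) := by
      have : y = f + (a1 - a2) + b := by rw [hfd]; abel
      rw [this]; abel
    rw [e1, ← hfd']
    abel

theorem plunnecke_real {A : Finset G} (hA : A.Nonempty) {K : ℝ}
    (hK : ((A + A).card : ℝ) ≤ K * A.card) (m n : ℕ) :
    ((m • A - n • A).card : ℝ) ≤ K ^ (m + n) * A.card := by
  have h := pluennecke_ruzsa_inequality_nsmul_sub_nsmul_add hA A m n
  have hpos : (0 : ℝ) < A.card := by exact_mod_cast hA.card_pos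
  have h1 : ((m • A - n • A).card : ℝ) ≤ ((A + A).card / A.card : ℝ) ^ (m + n) * A.card := by
    have h' : (((m • A - n • A).card : ℚ≥0) : ℝ) ≤
        (((((A + A).card : ℚ≥0) / A.card) ^ (m + n) * A.card : ℚ≥0) : ℝ) := by
      exact_mod_cast h
    push_cast at h'
    exact h'
  refine h1.trans ?_
  have h2 : ((A + A).card / A.card : ℝ) ≤ K := by
    rw [div_le_iff₀ hpos]; exact hK
  gcongr

/-- polynomial growth -/
theorem itS_growth {A : Finset G} (hA : A.Nonempty) {K : ℝ} (hK1 : 1 ≤ K)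
    (hK : ((A + A).card : ℝ) ≤ K * A.card) (k : ℕ) :
    ((itS A (k + 1)).card : ℝ) ≤ (k + 1 : ℝ) ^ ⌊K ^ 4⌋₊ * K ^ 2 * A.card := by
  have hcov : ((A + A - A + A).card : ℝ) ≤ K ^ 4 * A.card := by
    have h := plunnecke_real hA hK 3 1
    have e : A + A - A + A = (3 : ℕ) • A - (1 : ℕ) • A := by
      rw [one_nsmul, show (3 : ℕ) = 2 + 1 from rfl, succ_nsmul, two_nsmul]
      rw [sub_eq_add_neg, sub_eq_add_neg, add_assoc (A + A), add_comm (-A), ← add_assoc]
    rw [e]
    exact h
  obtain ⟨F, _, hFc, hF⟩ := ruzsa_covering_add hA hcov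
  have hdiff : ((A - A).card : ℝ) ≤ K ^ 2 * A.card := by
    have h := plunnecke_real hA hK 1 1
    rwa [one_nsmul] at h
  have hFn : F.card ≤ ⌊K ^ 4⌋₊ := Nat.le_floor hFc
  have h1 : (itS A (k + 1)).card ≤ (itS A (k + 1) - A).card := card_le_card_sub_right hA
  have h2 : (itS A (k + 1) - A).card ≤ (itS F k).card * (A - A).card :=
    (card_le_card (itS_sub_subset hF k)).trans (card_add_le)
  have h3 : (itS F k).card ≤ (k + 1) ^ ⌊K ^ 4⌋₊ :=
    (itS_card_le F k).trans (Nat.pow_le_pow_right (by omega) hFn)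
  calc ((itS A (k + 1)).card : ℝ) ≤ (itS F k).card * (A - A).card := by
        exact_mod_cast h1.trans h2
    _ ≤ (k + 1 : ℝ) ^ ⌊K ^ 4⌋₊ * (K ^ 2 * A.card) := by
        refine mul_le_mul ?_ hdiff (Nat.cast_nonneg _) (by positivity)
        exact_mod_cast h3
    _ = _ := by ring

/-- some iterated sumset, of bounded index, is almost invariant -/
theorem exists_almost_invariant (K η : ℝ) (hK1 : 1 ≤ K) (hη : 0 < η) :
    ∃ C : ℝ, 0 < C ∧ ∀ (G : Type) [AddCommGroup G] [DecidableEq G] (A : Finset G), A.Nonempty →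
      ((A + A).card : ℝ) ≤ K * A.card →
      ∃ B : Finset G, B.Nonempty ∧ ((B + A).card : ℝ) ≤ (1 + η) * B.card ∧
        (B.card : ℝ) ≤ C * A.card := by
  -- choose `k₀`
  have hlim : Filter.Tendsto (fun k : ℕ => (k : ℝ) ^ ⌊K ^ 4⌋₊ / (1 + η) ^ k) Filter.atTop
      (nhds 0) := tendsto_pow_const_div_const_pow_of_one_lt _ (by linarith)
  have hev : ∀ᶠ k : ℕ in Filter.atTop,
      (k : ℝ) ^ ⌊K ^ 4⌋₊ / (1 + η) ^ k < 1 / ((1 + η) * (K ^ 2 * 2)) :=
    hlim.eventually (gt_mem_nhds (by positivity))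
  obtain ⟨k₀, hk₀, hk₁⟩ := (hev.and (Filter.eventually_ge_atTop 1)).exists
  obtain ⟨k₁, rfl⟩ : ∃ k₁, k₀ = k₁ + 1 := ⟨k₀ - 1, by omega⟩
  refine ⟨(k₁ + 1 : ℝ) ^ ⌊K ^ 4⌋₊ * K ^ 2, by positivity, ?_⟩
  intro G _ _ A hA hK
  have hpos : (0 : ℝ) < A.card := by exact_mod_cast hA.card_pos
  by_contra hcon
  push Not at hcon
  have hstep : ∀ j, j ≤ k₁ → ((1 + η) ^ j * A.card : ℝ) ≤ (itS A (j + 1)).card := by
    intro j
    induction j with
    | zero => intro _; simp
    | succ j ih =>
      intro hj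
      have h1 := ih (by omega)
      by_contra h2
      push Not at h2
      have h3 : ((itS A (j + 1) + A).card : ℝ) ≤ (1 + η) * (itS A (j + 1)).card := by
        have : itS A (j + 1) + A = itS A (j + 1 + 1) := rfl
        rw [this]
        refine h2.le.trans ?_
        rw [pow_succ]
        nlinarith
      have h4 := hcon _ (itS_nonempty hA (j + 1)) h3
      have h5 := itS_growth hA hK1 hK k₁
      have h6 : ((itS A (j + 1)).card : ℝ) ≤ (itS A (k₁ + 1)).card := by
        exact_mod_cast itS_card_mono hA (by omega)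
      linarith
  have h1 := hstep k₁ le_rfl
  have h2 := itS_growth hA hK1 hK k₁
  have h3 : ((1 + η) ^ k₁ : ℝ) ≤ (k₁ + 1 : ℝ) ^ ⌊K ^ 4⌋₊ * K ^ 2 := by
    have := h1.trans h2
    exact le_of_mul_le_mul_right this hpos
  rw [div_lt_div_iff₀ (by positivity) (by positivity)] at hk₀
  push_cast at hk₀
  rw [pow_succ (1 + η)] at hk₀
  have h4 : 0 < (1 + η) := by linarith
  have h5 : 0 < (1 + η) ^ k₁ := by positivity
  have h6 : 0 < (k₁ + 1 : ℝ) ^ ⌊K ^ 4⌋₊ * K ^ 2 := by positivity
  have h7 : (1 + η) * ((k₁ + 1 : ℝ) ^ ⌊K ^ 4⌋₊ * K ^ 2 * 2) < (1 + η) * (1 + η) ^ k₁ := by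
    linarith
  have h8 := lt_of_mul_lt_mul_left h7 h4.le
  linarith

end Pool.Agent.Lib.MP_09e095_co
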