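import Mathlib
import Pool.Agent.Lib.MP_09e095_co.RectGrowth

/-!
MP_09e095_co : a small set with small doubling lies in a small arc of a nontrivial character.
-/

set_option autoImplicit false

open Finset
open scoped Pointwise

namespace Pool.Agent.Lib.MP_09e095_co

section fourier

variable {G : Type} [AddCommGroup G] [Fintype G] [DecidableEq G]

/-- exponential sum -/
noncomputable def es (B : Finset G) (ψ : AddChar G ℂ) : ℂ := ∑ b ∈ B, ψ b

theorem char_sub (ψ : AddChar G ℂ) (x y : G) :
    ψ (x - y) = ψ x * (starRingEnd ℂ) (ψ y) := by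
  rw [sub_eq_add_neg, AddChar.map_add_eq_mul, AddChar.map_neg_eq_conj]

/-- the correlation identity -/
theorem sum_es_sq (B : Finset G) (t : G) :
    ∑ ψ : AddChar G ℂ, es B ψ * (starRingEnd ℂ) (es B ψ) * ψ t =
      (Fintype.card G : ℂ) * ((B.filter fun b => b + t ∈ B).card : ℂ) := by
  have h1 : ∀ ψ : AddChar G ℂ, es B ψ * (starRingEnd ℂ) (es B ψ) * ψ t =
      ∑ b ∈ B, ∑ b' ∈ B, ψ (b - b' + t) := by
    intro ψ
    rw [es, map_sum, Finset.sum_mul_sum, Finset.sum_mul]
    refine Finset.sum_congr rfl fun b _ => ?_
    rw [Finset.sum_mul]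
    refine Finset.sum_congr rfl fun b' _ => ?_
    rw [AddChar.map_add_eq_mul, char_sub]
  simp only [h1]
  rw [Finset.sum_comm]
  have h2 : ∀ b ∈ B, ∑ ψ : AddChar G ℂ, ∑ b' ∈ B, ψ (b - b' + t) =
      if b + t ∈ B then (Fintype.card G : ℂ) else 0 := by
    intro b _
    rw [Finset.sum_comm]
    simp only [AddChar.sum_apply_eq_ite]
    have h3 : ∀ b' : G, (b - b' + t = 0) ↔ (b' = b + t) := by
      intro b'
      constructor
      · intro h
        have : b' = b' + (b - b' + t) := by rw [h, add_zero]
        rw [this]; abel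
      · rintro rfl; abel
    simp only [h3]
    rw [Finset.sum_ite_eq' B (b + t) (fun _ => (Fintype.card G : ℂ))]
  rw [Finset.sum_congr rfl h2, Finset.sum_ite, Finset.sum_const_zero, add_zero,
    Finset.sum_const, nsmul_eq_mul, mul_comm]

/-- the weight of a character -/
noncomputable def wt (B : Finset G) (ψ : AddChar G ℂ) : ℝ :=
  ‖es B ψ‖ ^ 2 / (Fintype.card G * B.card)

theorem wt_nonneg (B : Finset G) (ψ : AddChar G ℂ) : 0 ≤ wt B ψ := by
  unfold wt; positivity

theorem sum_wt_mul {B : Finset G} (hB : B.Nonempty) (t : G) :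
    ∑ ψ : AddChar G ℂ, wt B ψ * (ψ t).re =
      ((B.filter fun b => b + t ∈ B).card : ℝ) / B.card := by
  have hG : (0 : ℝ) < Fintype.card G := by
    have : 0 < Fintype.card G := Fintype.card_pos_iff.2 ⟨0⟩
    exact_mod_cast this
  have hb : (0 : ℝ) < B.card := by exact_mod_cast hB.card_pos
  have h := congrArg Complex.re (sum_es_sq B t)
  rw [Complex.re_sum] at h
  have h1 : ∀ ψ : AddChar G ℂ, (es B ψ * (starRingEnd ℂ) (es B ψ) * ψ t).re =
      ‖es B ψ‖ ^ 2 * (ψ t).re := by
    intro ψ
    rw [Complex.mul_conj, Complex.re_ofReal_mul, Complex.normSq_eq_norm_sq]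
  simp only [h1] at h
  have h2 : ((Fintype.card G : ℂ) * ((B.filter fun b => b + t ∈ B).card : ℂ)).re =
      (Fintype.card G : ℝ) * ((B.filter fun b => b + t ∈ B).card : ℝ) := by
    norm_cast
  rw [h2] at h
  have h3 : ∑ ψ : AddChar G ℂ, wt B ψ * (ψ t).re =
      (∑ ψ : AddChar G ℂ, ‖es B ψ‖ ^ 2 * (ψ t).re) / (Fintype.card G * B.card) := by
    rw [Finset.sum_div]
    refine Finset.sum_congr rfl fun ψ _ => ?_
    unfold wt
    ring
  rw [h3, h]
  field_simp

theorem sum_wt {B : Finset G} (hB : B.Nonempty) : ∑ ψ : AddChar G ℂ, wt B ψ = 1 := by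
  have h := sum_wt_mul hB 0
  have hb : (0 : ℝ) < B.card := by exact_mod_cast hB.card_pos
  simp only [AddChar.map_zero_eq_one, Complex.one_re, mul_one, add_zero] at h
  rw [h, Finset.filter_true_of_mem (fun b hb => hb)]
  exact div_self hb.ne'

theorem wt_zero (B : Finset G) (hB : B.Nonempty) :
    wt B 0 = (B.card : ℝ) / Fintype.card G := by
  have hb : (0 : ℝ) < B.card := by exact_mod_cast hB.card_pos
  unfold wt es
  simp only [AddChar.zero_apply, Finset.sum_const, nsmul_eq_mul, mul_one]
  rw [Complex.norm_natCast]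
  field_simp

theorem norm_one_sub_sq (ψ : AddChar G ℂ) (t : G) : ‖1 - ψ t‖ ^ 2 = 2 - 2 * (ψ t).re := by
  have h1 : ‖ψ t‖ = 1 := AddChar.norm_apply ψ t
  rw [← Complex.normSq_eq_norm_sq, Complex.normSq_sub, Complex.normSq_one,
    Complex.normSq_eq_norm_sq, h1]
  simp
  ring

/-- an almost invariant set controls the characters in mean square -/
theorem sum_wt_dist {A B : Finset G} (hB : B.Nonempty) {η : ℝ}
    (h : ((B + A).card : ℝ) ≤ (1 + η) * B.card) {a a' : G} (ha : a ∈ A) (ha' : a' ∈ A) :
    ∑ ψ : AddChar G ℂ, wt B ψ * ‖1 - ψ (a - a')‖ ^ 2 ≤ 2 * η := by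
  have hb : (0 : ℝ) < B.card := by exact_mod_cast hB.card_pos
  have h1 : ∑ ψ : AddChar G ℂ, wt B ψ * ‖1 - ψ (a - a')‖ ^ 2 =
      2 - 2 * (((B.filter fun b => b + (a - a') ∈ B).card : ℝ) / B.card) := by
    have : ∀ ψ : AddChar G ℂ, wt B ψ * ‖1 - ψ (a - a')‖ ^ 2 =
        2 * wt B ψ - 2 * (wt B ψ * (ψ (a - a')).re) := by
      intro ψ
      rw [norm_one_sub_sq]; ring
    simp only [this]
    rw [Finset.sum_sub_distrib, ← Finset.mul_sum, ← Finset.mul_sum, sum_wt hB, sum_wt_mul hB]
    ring
  rw [h1]
  -- the two translates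
  set S₁ : Finset G := B.image (fun b => b + a) with hS₁
  set S₂ : Finset G := B.image (fun b => b + a') with hS₂
  have c1 : S₁.card = B.card := card_image_of_injective _ (add_left_injective a)
  have c2 : S₂.card = B.card := card_image_of_injective _ (add_left_injective a')
  have hsub : S₁ ∪ S₂ ⊆ B + A := by
    intro x hx
    rcases mem_union.1 hx with h | h
    · obtain ⟨b, hb, rfl⟩ := mem_image.1 h
      exact add_mem_add hb ha
    · obtain ⟨b, hb, rfl⟩ := mem_image.1 h
      exact add_mem_add hb ha'
  have hint : (S₁ ∩ S₂).card ≤ (B.filter fun b => b + (a - a') ∈ B).card := by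
    have : S₁ ∩ S₂ ⊆ (B.filter fun b => b + (a - a') ∈ B).image (fun b => b + a) := by
      intro x hx
      obtain ⟨hx1, hx2⟩ := mem_inter.1 hx
      obtain ⟨b, hb, rfl⟩ := mem_image.1 hx1
      obtain ⟨b', hb', hbb⟩ := mem_image.1 hx2
      refine mem_image.2 ⟨b, mem_filter.2 ⟨hb, ?_⟩, rfl⟩
      have : b + (a - a') = b' := by
        have : b' = b + a - a' := by rw [← hbb]; abel
        rw [this]; abel
      rw [this]; exact hb'
    exact (card_le_card this).trans card_image_le
  have hcard := card_union_add_card_inter S₁ S₂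
  have h2 : (2 * B.card : ℝ) ≤ (B + A).card + (B.filter fun b => b + (a - a') ∈ B).card := by
    have h3 := card_le_card hsub
    have h4 : 2 * B.card ≤ (B + A).card + (B.filter fun b => b + (a - a') ∈ B).card := by
      omega
    exact_mod_cast h4
  have h5 : (1 - η) ≤ ((B.filter fun b => b + (a - a') ∈ B).card : ℝ) / B.card := by
    rw [le_div_iff₀ hb]
    nlinarith
  linarith

end fourier

section cover

variable {G : Type} [AddCommGroup G] [DecidableEq G]

/-- a bounded number of translates of `A` meets every translate `a + A` in many points -/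
theorem exists_net {A : Finset G} (hA : A.Nonempty) {K : ℝ} (hK1 : 1 ≤ K)
    (hK : ((A + A).card : ℝ) ≤ K * A.card) :
    ∃ F : Finset G, F ⊆ A ∧ (F.card : ℝ) ≤ 2 * K ∧
      ∀ a ∈ A, ∃ x ∈ F, ((A.card : ℝ)) ≤
        2 * K * ((A.image (fun u => a + u) ∩ A.image (fun u => x + u)).card : ℝ) := by
  classical
  have hpos : (0 : ℝ) < A.card := by exact_mod_cast hA.card_pos
  -- maximal family
  let P : Finset G → Prop := fun F => F ⊆ A ∧ ∀ x ∈ F, ∀ y ∈ F, x ≠ y →
    2 * K * ((A.image (fun u => x + u) ∩ A.image (fun u => y + u)).card : ℝ) < A.card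
  obtain ⟨F, hF, hmax⟩ := (A.powerset.filter P).exists_max_image (fun F => F.card)
    ⟨∅, by simp [P]⟩
  rw [mem_filter, mem_powerset] at hF
  obtain ⟨hFA, _, hFP⟩ := hF
  refine ⟨F, hFA, ?_, ?_⟩
  · -- size by Cauchy-Schwarz
    set N : G → ℝ := fun y => ((F.filter fun x => y ∈ A.image (fun u => x + u)).card : ℝ) with hN
    have hsum1 : ∑ y ∈ A + A, N y = F.card * A.card := by
      have : ∀ y, N y = ∑ x ∈ F, if y ∈ A.image (fun u => x + u) then (1 : ℝ) else 0 := by
        intro y
        rw [hN, Finset.sum_ite, Finset.sum_const_zero, add_zero, Finset.sum_const,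
          nsmul_eq_mul, mul_one]
      simp only [this]
      rw [Finset.sum_comm]
      have h2 : ∀ x ∈ F, ∑ y ∈ A + A, (if y ∈ A.image (fun u => x + u) then (1 : ℝ) else 0) =
          A.card := by
        intro x hx
        rw [← Finset.sum_filter, Finset.sum_const, nsmul_eq_mul, mul_one]
        have : (A + A).filter (fun y => y ∈ A.image (fun u => x + u)) =
            A.image (fun u => x + u) := by
          ext y
          rw [mem_filter]
          constructor
          · exact fun h => h.2
          · intro h
            refine ⟨?_, h⟩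
            obtain ⟨u, hu, rfl⟩ := mem_image.1 h
            exact add_mem_add (hFA hx) hu
        rw [this, card_image_of_injective _ (add_right_injective x)]
      rw [Finset.sum_congr rfl h2, Finset.sum_const, nsmul_eq_mul]
    have hsum2 : ∑ y ∈ A + A, N y ^ 2 ≤ F.card * A.card + F.card * F.card * (A.card / (2 * K)) := by
      have h1 : ∀ y, N y ^ 2 = ∑ x ∈ F, ∑ x' ∈ F,
          if y ∈ A.image (fun u => x + u) ∩ A.image (fun u => x' + u) then (1 : ℝ) else 0 := by
        intro y
        have : N y = ∑ x ∈ F, if y ∈ A.image (fun u => x + u) then (1 : ℝ) else 0 := by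
          rw [hN, Finset.sum_ite, Finset.sum_const_zero, add_zero, Finset.sum_const,
            nsmul_eq_mul, mul_one]
        rw [this, sq, Finset.sum_mul_sum]
        refine Finset.sum_congr rfl fun x _ => Finset.sum_congr rfl fun x' _ => ?_
        rw [mul_ite, mul_one, mul_zero]
        by_cases h1 : y ∈ A.image (fun u => x + u) <;>
          by_cases h2 : y ∈ A.image (fun u => x' + u)
        · rw [if_pos h1, if_pos h2, if_pos (mem_inter.2 ⟨h1, h2⟩)]
        · rw [if_neg h2, if_neg (fun h => h2 (mem_inter.1 h).2)]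
        · rw [if_neg h1, if_pos h2, if_neg (fun h => h1 (mem_inter.1 h).1)]
        · rw [if_neg h2, if_neg (fun h => h2 (mem_inter.1 h).2)]
      simp only [h1]
      rw [Finset.sum_comm]
      have h2 : ∀ x ∈ F, ∑ y ∈ A + A, ∑ x' ∈ F,
          (if y ∈ A.image (fun u => x + u) ∩ A.image (fun u => x' + u) then (1 : ℝ) else 0) ≤
          A.card + F.card * (A.card / (2 * K)) := by
        intro x hx
        rw [Finset.sum_comm]
        have h3 : ∀ x' ∈ F, ∑ y ∈ A + A,
            (if y ∈ A.image (fun u => x + u) ∩ A.image (fun u => x' + u) then (1 : ℝ) else 0) ≤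
            (if x' = x then (A.card : ℝ) else 0) + A.card / (2 * K) := by
          intro x' hx'
          rw [← Finset.sum_filter, Finset.sum_const, nsmul_eq_mul, mul_one]
          have h4 : ((A + A).filter
              (fun y => y ∈ A.image (fun u => x + u) ∩ A.image (fun u => x' + u))).card ≤
              (A.image (fun u => x + u) ∩ A.image (fun u => x' + u)).card :=
            card_le_card (fun y hy => (mem_filter.1 hy).2)
          have h4' : (((A + A).filter
              (fun y => y ∈ A.image (fun u => x + u) ∩ A.image (fun u => x' + u))).card : ℝ) ≤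
              (A.image (fun u => x + u) ∩ A.image (fun u => x' + u)).card := by
            exact_mod_cast h4
          refine h4'.trans ?_
          by_cases hxx : x' = x
          · rw [if_pos hxx]
            have h5 : (A.image (fun u => x + u) ∩ A.image (fun u => x' + u)).card ≤ A.card :=
              (card_le_card inter_subset_left).trans card_image_le
            have h6 : ((A.image (fun u => x + u) ∩ A.image (fun u => x' + u)).card : ℝ) ≤
              A.card := by exact_mod_cast h5
            have h7 : (0 : ℝ) ≤ A.card / (2 * K) := by positivity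
            linarith
          · rw [if_neg hxx, zero_add, le_div_iff₀ (by positivity)]
            have := hFP x hx x' hx' (Ne.symm hxx)
            linarith
        refine (Finset.sum_le_sum h3).trans (le_of_eq ?_)
        rw [Finset.sum_add_distrib, Finset.sum_ite_eq' F x (fun _ => (A.card : ℝ)), if_pos hx,
          Finset.sum_const, nsmul_eq_mul]
      refine (Finset.sum_le_sum h2).trans (le_of_eq ?_)
      rw [Finset.sum_const, nsmul_eq_mul]
      ring
    have hcs := sq_sum_le_card_mul_sum_sq (s := A + A) (f := N)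
    rw [hsum1] at hcs
    by_cases hF0 : F.card = 0
    · rw [hF0]; push_cast; positivity
    have hFpos : (0 : ℝ) < F.card := by
      have : 0 < F.card := Nat.pos_of_ne_zero hF0
      exact_mod_cast this
    have h8 : ((F.card : ℝ) * A.card) ^ 2 ≤
        (K * A.card) * (F.card * A.card + F.card * F.card * (A.card / (2 * K))) := by
      refine hcs.trans (mul_le_mul hK hsum2 (Finset.sum_nonneg fun _ _ => sq_nonneg _) (by positivity))
    have h9 : (K * A.card) * (F.card * A.card + F.card * F.card * (A.card / (2 * K))) =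
        (F.card * A.card ^ 2) * (K + F.card / 2) := by
      field_simp
    rw [h9] at h8
    have h10 : (F.card : ℝ) * A.card ^ 2 * F.card ≤ (F.card * A.card ^ 2) * (K + F.card / 2) := by
      nlinarith
    have h11 := le_of_mul_le_mul_left h10 (by positivity)
    linarith
  · intro a ha
    by_contra hcon
    push Not at hcon
    have haF : a ∉ F := by
      intro haF
      have h1 := hcon a haF
      rw [inter_self, card_image_of_injective _ (add_right_injective a)] at h1
      nlinarith
    have hins : insert a F ∈ A.powerset.filter P := by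
      rw [mem_filter, mem_powerset]
      have hsub : insert a F ⊆ A := by
        intro x hx
        rcases mem_insert.1 hx with rfl | hx
        · exact ha
        · exact hFA hx
      refine ⟨hsub, hsub, ?_⟩
      intro x hx y hy hxy
      rcases mem_insert.1 hx with hx | hx <;> rcases mem_insert.1 hy with hy | hy
      · exact absurd (hx.trans hy.symm) hxy
      · rw [hx]; exact hcon y hy
      · rw [hy, inter_comm]; exact hcon x hx
      · exact hFP x hx y hy hxy
    have := hmax _ hins
    rw [card_insert_of_notMem haF] at this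
    omega

end cover

end Pool.Agent.Lib.MP_09e095_co
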