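import Mathlib
import Pool.Agent.Lib.MP_09e095_co.RectGrowth
import Pool.Agent.Lib.MP_09e095_co.RectChar

/-!
MP_09e095_co : a small set with small doubling lies in a small arc of a nontrivial character.
-/

set_option autoImplicit false

open Finset
open scoped Pointwise

namespace Pool.Agent.Lib.MP_09e095_co

/-- pigeonhole over the characters: if a nonnegative cost has small mean then some nontrivial
character has small cost -/
theorem exists_cheap_char {G : Type} [AddCommGroup G] [Fintype G] [DecidableEq G] {B : Finset G}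
    (hB : B.Nonempty) (hsmall : 2 * B.card ≤ Fintype.card G) (S : AddChar G ℂ → ℝ)
    (hS : ∀ ψ, 0 ≤ S ψ) {T : ℝ} (hT : ∑ ψ : AddChar G ℂ, wt B ψ * S ψ < T / 2) :
    ∃ ψ : AddChar G ℂ, ψ ≠ 0 ∧ S ψ ≤ T := by
  classical
  by_contra hcon
  push Not at hcon
  have hG : (0 : ℝ) < Fintype.card G := by
    have : 0 < Fintype.card G := Fintype.card_pos_iff.2 ⟨0⟩
    exact_mod_cast this
  have h0 : wt B 0 ≤ 1 / 2 := by
    rw [wt_zero B hB, div_le_iff₀ hG]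
    have : (2 * B.card : ℝ) ≤ Fintype.card G := by exact_mod_cast hsmall
    linarith
  have h1 := sum_wt hB
  rw [← Finset.add_sum_erase _ _ (Finset.mem_univ (0 : AddChar G ℂ))] at h1
  have hT0 : 0 ≤ T := by
    have : 0 ≤ ∑ ψ : AddChar G ℂ, wt B ψ * S ψ :=
      Finset.sum_nonneg fun ψ _ => mul_nonneg (wt_nonneg B ψ) (hS ψ)
    linarith
  have h2 : (∑ ψ ∈ Finset.univ.erase (0 : AddChar G ℂ), wt B ψ) * T ≤
      ∑ ψ : AddChar G ℂ, wt B ψ * S ψ := by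
    rw [← Finset.add_sum_erase _ _ (Finset.mem_univ (0 : AddChar G ℂ)), Finset.sum_mul]
    have h3 : ∑ ψ ∈ Finset.univ.erase (0 : AddChar G ℂ), wt B ψ * T ≤
        ∑ ψ ∈ Finset.univ.erase (0 : AddChar G ℂ), wt B ψ * S ψ :=
      Finset.sum_le_sum fun ψ hψ =>
        mul_le_mul_of_nonneg_left (hcon ψ (Finset.ne_of_mem_erase hψ)).le (wt_nonneg B ψ)
    have h4 := mul_nonneg (wt_nonneg B 0) (hS 0)
    linarith
  have h5 : 1 / 2 ≤ ∑ ψ ∈ Finset.univ.erase (0 : AddChar G ℂ), wt B ψ := by linarith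
  have h6 := mul_le_mul_of_nonneg_right h5 hT0
  linarith

/-- A small set with small doubling lies in a small arc of a nontrivial character. -/
theorem exists_char_arc (K δ : ℝ) (hK1 : 1 ≤ K) (hδ : 0 < δ) :
    ∃ c : ℝ, 0 < c ∧ ∀ (G : Type) [AddCommGroup G] [Fintype G] [DecidableEq G] (A : Finset G),
      ((A + A).card : ℝ) ≤ K * A.card → (A.card : ℝ) ≤ c * Fintype.card G →
      ∀ a₀ ∈ A, ∃ ψ : AddChar G ℂ, ψ ≠ 0 ∧ ∀ a ∈ A, ‖1 - ψ (a - a₀)‖ ≤ δ := by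
  -- constants
  set T : ℝ := δ ^ 2 / (128 * K) with hTdef
  have hTpos : 0 < T := by positivity
  set η : ℝ := T / (5 * (2 * K + 1)) with hηdef
  have hηpos : 0 < η := by positivity
  obtain ⟨C, hC, hgrow⟩ := exists_almost_invariant K η hK1 hηpos
  refine ⟨1 / (2 * C), by positivity, ?_⟩
  intro G _ _ _ A hKA hcA a₀ ha₀
  have hA : A.Nonempty := ⟨a₀, ha₀⟩
  have hpos : (0 : ℝ) < A.card := by exact_mod_cast hA.card_pos
  obtain ⟨B, hB, hBA, hBC⟩ := hgrow G A hA hKA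
  have hsmall : 2 * B.card ≤ Fintype.card G := by
    have h1 : (2 * B.card : ℝ) ≤ Fintype.card G := by
      have h2 : C * (A.card : ℝ) ≤ C * (1 / (2 * C) * Fintype.card G) :=
        mul_le_mul_of_nonneg_left hcA hC.le
      have h3 : C * (1 / (2 * C) * (Fintype.card G : ℝ)) = Fintype.card G / 2 := by
        field_simp
      linarith
    exact_mod_cast h1
  obtain ⟨F, hFA, hFc, hFnet⟩ := exists_net hA hK1 hKA
  -- the cost
  set S : AddChar G ℂ → ℝ := fun ψ =>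
    ∑ x ∈ F, ‖1 - ψ (x - a₀)‖ ^ 2 + (∑ a ∈ A, ‖1 - ψ (a - a₀)‖ ^ 2) / A.card with hSdef
  have hS0 : ∀ ψ, 0 ≤ S ψ := fun ψ => by rw [hSdef]; positivity
  have hmean : ∑ ψ : AddChar G ℂ, wt B ψ * S ψ < T / 2 := by
    have h1 : ∑ ψ : AddChar G ℂ, wt B ψ * S ψ =
        ∑ x ∈ F, (∑ ψ : AddChar G ℂ, wt B ψ * ‖1 - ψ (x - a₀)‖ ^ 2) +
        (∑ a ∈ A, ∑ ψ : AddChar G ℂ, wt B ψ * ‖1 - ψ (a - a₀)‖ ^ 2) / A.card := by
      rw [Finset.sum_comm, Finset.sum_comm (s := A), Finset.sum_div, ← Finset.sum_add_distrib]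
      refine Finset.sum_congr rfl fun ψ _ => ?_
      rw [hSdef, mul_add, Finset.mul_sum, ← mul_div_assoc, Finset.mul_sum]
    rw [h1]
    have h2 : ∑ x ∈ F, (∑ ψ : AddChar G ℂ, wt B ψ * ‖1 - ψ (x - a₀)‖ ^ 2) ≤
        F.card * (2 * η) := by
      refine (Finset.sum_le_sum fun x hx => sum_wt_dist hB hBA (hFA hx) ha₀).trans (le_of_eq ?_)
      rw [Finset.sum_const, nsmul_eq_mul]
    have h3 : (∑ a ∈ A, ∑ ψ : AddChar G ℂ, wt B ψ * ‖1 - ψ (a - a₀)‖ ^ 2) / A.card ≤ 2 * η := by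
      rw [div_le_iff₀ hpos]
      refine (Finset.sum_le_sum fun a ha => sum_wt_dist hB hBA ha ha₀).trans (le_of_eq ?_)
      rw [Finset.sum_const, nsmul_eq_mul, mul_comm]
    have h4 : (F.card : ℝ) * (2 * η) ≤ 2 * K * (2 * η) :=
      mul_le_mul_of_nonneg_right hFc (by positivity)
    have h5 : T = η * (5 * (2 * K + 1)) := by
      rw [hηdef]; field_simp
    nlinarith
  obtain ⟨ψ, hψ0, hψT⟩ := exists_cheap_char hB hsmall S hS0 hmean
  refine ⟨ψ, hψ0, fun a ha => ?_⟩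
  have hδ4 : 0 < δ / 4 := by positivity
  have hTδ : T ≤ δ ^ 2 / 128 := by
    rw [hTdef]
    gcongr
    linarith
  -- points of the net
  have hnet : ∀ x ∈ F, ‖1 - ψ (x - a₀)‖ ≤ δ / 4 := by
    intro x hx
    have h1 : ‖1 - ψ (x - a₀)‖ ^ 2 ≤ T := by
      have h2 : ‖1 - ψ (x - a₀)‖ ^ 2 ≤ ∑ x ∈ F, ‖1 - ψ (x - a₀)‖ ^ 2 :=
        Finset.single_le_sum (f := fun x => ‖1 - ψ (x - a₀)‖ ^ 2) (fun _ _ => sq_nonneg _) hx
      have h3 : 0 ≤ (∑ a ∈ A, ‖1 - ψ (a - a₀)‖ ^ 2) / A.card := by positivity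
      have h4 : ∑ x ∈ F, ‖1 - ψ (x - a₀)‖ ^ 2 + (∑ a ∈ A, ‖1 - ψ (a - a₀)‖ ^ 2) / A.card ≤ T :=
        hψT
      linarith
    refine (pow_le_pow_iff_left₀ (norm_nonneg _) hδ4.le two_ne_zero).1 (h1.trans (hTδ.trans ?_))
    nlinarith [sq_nonneg δ]
  -- the bad points
  set Bad : Finset G := A.filter fun u => δ / 4 < ‖1 - ψ (u - a₀)‖ with hBad
  have hBadc : 4 * K * (Bad.card : ℝ) < A.card := by
    have h1 : (Bad.card : ℝ) * (δ / 4) ^ 2 ≤ ∑ a ∈ A, ‖1 - ψ (a - a₀)‖ ^ 2 := by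
      calc (Bad.card : ℝ) * (δ / 4) ^ 2 = ∑ _a ∈ Bad, (δ / 4) ^ 2 := by
            rw [Finset.sum_const, nsmul_eq_mul]
        _ ≤ ∑ a ∈ Bad, ‖1 - ψ (a - a₀)‖ ^ 2 := by
            refine Finset.sum_le_sum fun a ha => ?_
            have := (mem_filter.1 ha).2
            exact pow_le_pow_left₀ hδ4.le this.le 2
        _ ≤ ∑ a ∈ A, ‖1 - ψ (a - a₀)‖ ^ 2 :=
            Finset.sum_le_sum_of_subset_of_nonneg (filter_subset _ _) fun _ _ _ => sq_nonneg _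
    have h2 : (∑ a ∈ A, ‖1 - ψ (a - a₀)‖ ^ 2) ≤ T * A.card := by
      have h3 : 0 ≤ ∑ x ∈ F, ‖1 - ψ (x - a₀)‖ ^ 2 := Finset.sum_nonneg fun _ _ => sq_nonneg _
      have h4 : ∑ x ∈ F, ‖1 - ψ (x - a₀)‖ ^ 2 + (∑ a ∈ A, ‖1 - ψ (a - a₀)‖ ^ 2) / A.card ≤ T :=
        hψT
      have h5 : (∑ a ∈ A, ‖1 - ψ (a - a₀)‖ ^ 2) / A.card ≤ T := by linarith
      rwa [div_le_iff₀ hpos] at h5
    have h3 : (Bad.card : ℝ) * (δ / 4) ^ 2 ≤ δ ^ 2 / (128 * K) * A.card := h1.trans h2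
    have hKpos : 0 < K := by linarith
    have h4 : (Bad.card : ℝ) * 8 * K ≤ A.card := by
      have h5 : δ ^ 2 / (128 * K) * (A.card : ℝ) = (δ ^ 2 * A.card) / (128 * K) := by ring
      rw [h5, le_div_iff₀ (by positivity)] at h3
      have h6 : δ ^ 2 * ((Bad.card : ℝ) * 8 * K) ≤ δ ^ 2 * A.card := by nlinarith
      exact le_of_mul_le_mul_left h6 (by positivity)
    have h5 : 0 ≤ (Bad.card : ℝ) * K := by positivity
    rcases Nat.eq_zero_or_pos Bad.card with h0 | h0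
    · rw [h0]; simpa using hpos
    · have : (0 : ℝ) < Bad.card := by exact_mod_cast h0
      have h6 : 0 < (Bad.card : ℝ) * K := by positivity
      nlinarith
  -- a good representation of `a`
  obtain ⟨x, hx, hxa⟩ := hFnet a ha
  have hex : ∃ u ∈ A, ∃ v ∈ A, a + u = x + v ∧ u ∉ Bad ∧ v ∉ Bad := by
    by_contra hno
    push Not at hno
    have hsub : A.image (fun u => a + u) ∩ A.image (fun u => x + u) ⊆
        Bad.image (fun u => a + u) ∪ Bad.image (fun u => x + u) := by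
      intro y hy
      obtain ⟨hy1, hy2⟩ := mem_inter.1 hy
      obtain ⟨u, hu, rfl⟩ := mem_image.1 hy1
      obtain ⟨v, hv, hvu⟩ := mem_image.1 hy2
      rw [mem_union]
      by_cases hub : u ∈ Bad
      · exact Or.inl (mem_image_of_mem _ hub)
      · right
        have := hno u hu v hv hvu.symm hub
        exact mem_image.2 ⟨v, this, hvu⟩
    have h1 := card_le_card hsub
    have h2 := card_union_le (Bad.image (fun u => a + u)) (Bad.image (fun u => x + u))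
    have h3 : (Bad.image (fun u => a + u)).card ≤ Bad.card := card_image_le
    have h4 : (Bad.image (fun u => x + u)).card ≤ Bad.card := card_image_le
    have h5 : (A.image (fun u => a + u) ∩ A.image (fun u => x + u)).card ≤ 2 * Bad.card := by
      omega
    have h6 : ((A.image (fun u => a + u) ∩ A.image (fun u => x + u)).card : ℝ) ≤
        2 * Bad.card := by exact_mod_cast h5
    have h7 : 2 * K * ((A.image (fun u => a + u) ∩ A.image (fun u => x + u)).card : ℝ) ≤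
        2 * K * (2 * Bad.card) := mul_le_mul_of_nonneg_left h6 (by linarith)
    linarith
  obtain ⟨u, hu, v, hv, huv, hub, hvb⟩ := hex
  have hu' : ‖1 - ψ (u - a₀)‖ ≤ δ / 4 := by
    by_contra h
    push Not at h
    exact hub (mem_filter.2 ⟨hu, h⟩)
  have hv' : ‖1 - ψ (v - a₀)‖ ≤ δ / 4 := by
    by_contra h
    push Not at h
    exact hvb (mem_filter.2 ⟨hv, h⟩)
  have hx' := hnet x hx
  -- `ψ (a - a₀) ψ (u - a₀) = ψ (x - a₀) ψ (v - a₀)`
  have hmul : ψ (a - a₀) * ψ (u - a₀) = ψ (x - a₀) * ψ (v - a₀) := by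
    rw [← AddChar.map_add_eq_mul, ← AddChar.map_add_eq_mul]
    congr 1
    have : a - a₀ + (u - a₀) = (a + u) - a₀ - a₀ := by abel
    rw [this, huv]; abel
  have hnu : ‖ψ (u - a₀)‖ = 1 := AddChar.norm_apply ψ _
  have hnx : ‖ψ (x - a₀)‖ = 1 := AddChar.norm_apply ψ _
  have h1 : ‖1 - ψ (a - a₀)‖ = ‖ψ (u - a₀) - ψ (x - a₀) * ψ (v - a₀)‖ := by
    rw [← hmul]
    have : ψ (u - a₀) - ψ (a - a₀) * ψ (u - a₀) = (1 - ψ (a - a₀)) * ψ (u - a₀) := by ring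
    rw [this, norm_mul, hnu, mul_one]
  rw [h1]
  have h2 : ψ (u - a₀) - ψ (x - a₀) * ψ (v - a₀) =
      (1 - ψ (x - a₀)) - (1 - ψ (u - a₀)) + ψ (x - a₀) * (1 - ψ (v - a₀)) := by ring
  rw [h2]
  calc ‖(1 - ψ (x - a₀)) - (1 - ψ (u - a₀)) + ψ (x - a₀) * (1 - ψ (v - a₀))‖
      ≤ ‖(1 - ψ (x - a₀)) - (1 - ψ (u - a₀))‖ + ‖ψ (x - a₀) * (1 - ψ (v - a₀))‖ :=
        norm_add_le _ _
    _ ≤ (‖1 - ψ (x - a₀)‖ + ‖1 - ψ (u - a₀)‖) + ‖1 - ψ (v - a₀)‖ := by
        gcongr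
        · exact norm_sub_le _ _
        · rw [norm_mul, hnx, one_mul]
    _ ≤ (δ / 4 + δ / 4) + δ / 4 := by gcongr
    _ ≤ δ := by linarith

end Pool.Agent.Lib.MP_09e095_co
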