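import Mathlib
import Pool.Agent.Lib.MP_09e095_co.RectMain

/-!
MP_09e095_co : a small set with small doubling in `ZMod n` lies in a short proper progression of
cosets of a proper subgroup.
-/

set_option autoImplicit false

open Finset
open scoped Pointwise

namespace Pool.Agent.Lib.MP_09e095_co

/-- explicit form of the characters of `ZMod n` -/
theorem char_explicit {n : ℕ} [NeZero n] (ψ : AddChar (ZMod n) ℂ) :
    ∃ j : ℕ, ∀ m : ℤ, ψ (m : ZMod n) = Complex.exp (2 * Real.pi * Complex.I * (j * m / n)) := by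
  have hn : (n : ℂ) ≠ 0 := by exact_mod_cast NeZero.ne n
  have hu : (ψ 1) ^ n = 1 := by
    rw [← AddChar.map_nsmul_eq_pow, nsmul_one, ZMod.natCast_self, AddChar.map_zero_eq_one]
  have hu0 : ψ 1 ≠ 0 := by
    intro h
    rw [h, zero_pow (NeZero.ne n)] at hu
    exact zero_ne_one hu
  have hmem : Units.mk0 (ψ 1) hu0 ∈ rootsOfUnity n ℂ := by
    rw [mem_rootsOfUnity]
    ext
    simpa using hu
  obtain ⟨j, _, hj⟩ := (Complex.mem_rootsOfUnity n _).1 hmem
  refine ⟨j, fun m => ?_⟩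
  have h1 : (m : ZMod n) = m • (1 : ZMod n) := by simp
  rw [h1, AddChar.map_zsmul_eq_zpow]
  have h2 : ψ 1 = Complex.exp (2 * Real.pi * Complex.I * (j / n)) := by
    rw [hj]; rfl
  rw [h2, ← Complex.exp_int_mul]
  congr 1
  ring

/-- chord and arc -/
theorem chord_lower {f : ℕ} (hf : 0 < f) {t : ℤ} (ht : 2 * |t| ≤ f) :
    4 * (|t| : ℝ) / f ≤ ‖1 - Complex.exp (2 * Real.pi * Complex.I * (t / f))‖ := by
  have hf' : (0 : ℝ) < f := by exact_mod_cast hf
  have h1 : ‖1 - Complex.exp (2 * Real.pi * Complex.I * (t / f))‖ =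
      2 * |Real.sin (Real.pi * t / f)| := by
    have h2 : (2 * Real.pi * Complex.I * (t / f) : ℂ) =
        Complex.I * ((2 * (Real.pi * t / f) : ℝ) : ℂ) := by
      push_cast; ring
    rw [h2, norm_sub_rev, Complex.norm_exp_I_mul_ofReal_sub_one]
    rw [norm_mul, Real.norm_eq_abs, Real.norm_eq_abs, abs_of_pos (by norm_num : (0:ℝ) < 2)]
    congr 3
    ring
  rw [h1]
  have habs : |Real.sin (Real.pi * t / f)| = Real.sin (Real.pi * |(t : ℝ)| / f) := by
    have h3 : 0 ≤ Real.pi * |(t : ℝ)| / f := by positivity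
    have h4 : Real.pi * |(t : ℝ)| / f ≤ Real.pi := by
      rw [div_le_iff₀ hf']
      have : 2 * |(t : ℝ)| ≤ f := by exact_mod_cast ht
      nlinarith [Real.pi_pos, abs_nonneg (t : ℝ)]
    have h5 : 0 ≤ Real.sin (Real.pi * |(t : ℝ)| / f) := Real.sin_nonneg_of_nonneg_of_le_pi h3 h4
    rcases abs_cases (t : ℝ) with ⟨h, _⟩ | ⟨h, _⟩
    · rw [h] at h5 ⊢
      exact abs_of_nonneg h5
    · rw [h] at h5 ⊢
      have h6 : Real.pi * -(t : ℝ) / f = -(Real.pi * t / f) := by ring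
      rw [h6, Real.sin_neg] at h5 ⊢
      rw [abs_of_nonpos (by linarith)]
  rw [habs]
  have h3 : 0 ≤ Real.pi * |(t : ℝ)| / f := by positivity
  have h4 : Real.pi * |(t : ℝ)| / f ≤ Real.pi / 2 := by
    rw [div_le_iff₀ hf']
    have : 2 * |(t : ℝ)| ≤ f := by exact_mod_cast ht
    nlinarith [Real.pi_pos, abs_nonneg (t : ℝ)]
  have h5 := Real.mul_le_sin h3 h4
  have h6 : 2 / Real.pi * (Real.pi * |(t : ℝ)| / f) = 2 * |(t : ℝ)| / f := by
    field_simp
  rw [h6] at h5
  have h7 : 4 * |(t : ℝ)| / f = 2 * (2 * |(t : ℝ)| / f) := by ring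
  rw [h7]
  have h8 : ((|t| : ℤ) : ℝ) = |(t : ℝ)| := by push_cast; rfl
  linarith

/-- the kernel of a character -/
def kerChar {G : Type} [AddCommGroup G] (ψ : AddChar G ℂ) : AddSubgroup G where
  carrier := {x | ψ x = 1}
  zero_mem' := AddChar.map_zero_eq_one ψ
  add_mem' := by
    intro x y hx hy
    have hx' : ψ x = 1 := hx
    have hy' : ψ y = 1 := hy
    show ψ (x + y) = 1
    rw [AddChar.map_add_eq_mul, hx', hy', mul_one]
  neg_mem' := by
    intro x hx
    have hx' : ψ x = 1 := hx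
    show ψ (-x) = 1
    have h := AddChar.map_add_eq_mul ψ x (-x)
    rw [add_neg_cancel, AddChar.map_zero_eq_one, hx', one_mul] at h
    exact h.symm

theorem mem_kerChar {G : Type} [AddCommGroup G] {ψ : AddChar G ℂ} {x : G} :
    x ∈ kerChar ψ ↔ ψ x = 1 := Iff.rfl

/-- A set `A` in `ZMod n` with `|2A| ≤ K|A|` and `|A| ≤ c n` is contained in a progression of
cosets of a proper subgroup which is `R` times shorter than the order of its difference. -/
theorem exists_coset_progression (K : ℝ) (hK1 : 1 ≤ K) (R : ℕ) :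
    ∃ c : ℝ, 0 < c ∧ ∀ (n : ℕ) [NeZero n] (A : Finset (ZMod n)),
      ((A + A).card : ℝ) ≤ K * A.card → (A.card : ℝ) ≤ c * n → ∀ a₀ ∈ A,
      ∃ (N : AddSubgroup (ZMod n)) (g : ZMod n) (M : ℕ) (t : ZMod n → ℤ), N ≠ ⊤ ∧
        (∀ m : ℤ, |m| ≤ R * M → m • g ∈ N → m = 0) ∧
        (∀ a ∈ A, |t a| ≤ M ∧ a - a₀ - t a • g ∈ N) := by
  obtain ⟨c, hc, h⟩ := exists_char_arc K (4 / (R + 1)) hK1 (by positivity)
  refine ⟨c, hc, ?_⟩
  intro n _ A hKA hcA a₀ ha₀
  obtain ⟨ψ, hψ, harc⟩ := h (ZMod n) A hKA (by rw [ZMod.card]; exact hcA) a₀ ha₀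
  obtain ⟨j, hj⟩ := char_explicit ψ
  have hnpos : 0 < n := Nat.pos_of_ne_zero (NeZero.ne n)
  set d := Nat.gcd j n with hd
  have hdpos : 0 < d := Nat.gcd_pos_of_pos_right _ hnpos
  obtain ⟨f, hf⟩ : d ∣ n := Nat.gcd_dvd_right j n
  obtain ⟨j', hj'⟩ : d ∣ j := Nat.gcd_dvd_left j n
  have hfpos : 0 < f := by
    rcases Nat.eq_zero_or_pos f with h0 | h0
    · rw [h0, mul_zero] at hf; omega
    · exact h0
  have hcop : Nat.Coprime j' f := by
    have := Nat.coprime_div_gcd_div_gcd (m := j) (n := n) hdpos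
    rw [← hd] at this
    rw [hj', hf, Nat.mul_div_cancel_left _ hdpos, Nat.mul_div_cancel_left _ hdpos] at this
    exact this
  have hdC : (d : ℂ) ≠ 0 := by exact_mod_cast hdpos.ne'
  have hfC : (f : ℂ) ≠ 0 := by exact_mod_cast hfpos.ne'
  have hψm : ∀ m : ℤ, ψ (m : ZMod n) =
      Complex.exp (2 * Real.pi * Complex.I * ((j' * m : ℤ) / f)) := by
    intro m
    rw [hj m]
    congr 1
    have e1 : (j : ℂ) = d * j' := by rw [hj']; push_cast; rfl
    have e2 : (n : ℂ) = d * f := by rw [hf]; push_cast; rfl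
    rw [e1, e2]
    push_cast
    field_simp
  -- two exponents congruent mod `f`
  have hcong : ∀ s s' : ℤ, (f : ℤ) ∣ s - s' →
      Complex.exp (2 * Real.pi * Complex.I * (s / f)) =
      Complex.exp (2 * Real.pi * Complex.I * (s' / f)) := by
    intro s s' hs
    obtain ⟨q, hq⟩ := hs
    rw [Complex.exp_eq_exp_iff_exists_int]
    refine ⟨q, ?_⟩
    have : (s : ℂ) = s' + f * q := by
      have : s = s' + f * q := by linarith
      rw [this]; push_cast; ring
    rw [this]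
    field_simp
  have hexp1 : ∀ s : ℤ, Complex.exp (2 * Real.pi * Complex.I * (s / f)) = 1 → (f : ℤ) ∣ s := by
    intro s hs
    rw [Complex.exp_eq_one_iff] at hs
    obtain ⟨q, hq⟩ := hs
    refine ⟨q, ?_⟩
    have h1 : (2 * Real.pi * Complex.I : ℂ) ≠ 0 := Complex.two_pi_I_ne_zero
    have h2 : (s : ℂ) / f = q := by
      apply mul_left_cancel₀ h1
      rw [hq]; ring
    rw [div_eq_iff hfC] at h2
    have h3 : (s : ℂ) = ((f * q : ℤ) : ℂ) := by rw [h2]; push_cast; ring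
    exact_mod_cast h3
  -- the generator
  obtain ⟨g₀, hg₀⟩ : ∃ g₀ : ℤ, (f : ℤ) ∣ j' * g₀ - 1 := by
    have h1 : IsCoprime (j' : ℤ) (f : ℤ) := Nat.isCoprime_iff_coprime.2 hcop
    obtain ⟨a, b, hab⟩ := h1
    refine ⟨a, ⟨-b, ?_⟩⟩
    linarith
  have hψg : ∀ m : ℤ, ψ (m • ((g₀ : ℤ) : ZMod n)) =
      Complex.exp (2 * Real.pi * Complex.I * (m / f)) := by
    intro m
    have e : m • ((g₀ : ℤ) : ZMod n) = ((m * g₀ : ℤ) : ZMod n) := by
      push_cast; rw [zsmul_eq_mul]
    rw [e, hψm]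
    apply hcong
    obtain ⟨q, hq⟩ := hg₀
    refine ⟨m * q, ?_⟩
    have : (j' : ℤ) * (m * g₀) - m = m * (j' * g₀ - 1) := by ring
    rw [this, hq]; ring
  -- balanced residues
  have hbal : ∀ x : ZMod n, ∃ s : ℤ, 2 * |s| ≤ f ∧ ψ x =
      Complex.exp (2 * Real.pi * Complex.I * (s / f)) := by
    intro x
    set y : ℤ := j' * (x.val : ℤ) with hy
    refine ⟨Int.bmod y f, ?_, ?_⟩
    · have h1 := Int.bmod_lt (x := y) (m := f) hfpos
      have h2 := Int.le_bmod (x := y) (m := f) hfpos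
      rcases abs_cases (Int.bmod y f) with ⟨h, _⟩ | ⟨h, _⟩ <;> rw [h] <;> omega
    · have h1 : x = ((x.val : ℤ) : ZMod n) := by simp
      conv_lhs => rw [h1]
      rw [hψm]
      apply hcong
      rw [← hy]
      have := Int.dvd_self_sub_bmod (x := y) (m := f)
      exact this
  choose s hs1 hs2 using hbal
  refine ⟨kerChar ψ, ((g₀ : ℤ) : ZMod n), f / (R + 1), fun a => s (a - a₀), ?_, ?_, ?_⟩
  · intro htop
    apply hψ
    ext x
    have : x ∈ kerChar ψ := by rw [htop]; trivial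
    rw [mem_kerChar] at this
    rw [this, AddChar.zero_apply]
  · intro m hm hmem
    rw [mem_kerChar, hψg] at hmem
    have h1 := hexp1 m hmem
    by_contra hm0
    have h2 : (f : ℤ) ≤ |m| := by
      have := Int.le_of_dvd (abs_pos.2 hm0) ((dvd_abs _ _).2 h1)
      exact this
    have h3 : (R : ℤ) * ((f / (R + 1) : ℕ) : ℤ) < f := by
      have h4 : R * (f / (R + 1)) < f := by
        have h5 : (R + 1) * (f / (R + 1)) ≤ f := Nat.mul_div_le _ _
        rcases Nat.eq_zero_or_pos (f / (R + 1)) with h6 | h6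
        · rw [h6, mul_zero]; exact hfpos
        · nlinarith
      exact_mod_cast h4
    omega
  · intro a ha
    refine ⟨?_, ?_⟩
    · have h1 := harc a ha
      rw [hs2] at h1
      have h2 := (chord_lower hfpos (hs1 (a - a₀))).trans h1
      have hf' : (0 : ℝ) < f := by exact_mod_cast hfpos
      rw [div_le_div_iff₀ hf' (by positivity)] at h2
      have h3 : ((|s (a - a₀)| : ℤ) : ℝ) * (R + 1) ≤ f := by
        push_cast
        linarith
      have h4 : |s (a - a₀)| * (R + 1) ≤ f := by exact_mod_cast h3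
      have h5 : |s (a - a₀)| ≤ (f : ℤ) / (R + 1) := by
        rw [Int.le_ediv_iff_mul_le (by positivity)]
        exact h4
      calc |s (a - a₀)| ≤ (f : ℤ) / (R + 1) := h5
        _ = ((f / (R + 1) : ℕ) : ℤ) := by push_cast; rfl
    · rw [mem_kerChar, char_sub, hs2, hψg]
      rw [Complex.mul_conj, Complex.normSq_eq_norm_sq]
      have h6 : (2 * Real.pi * Complex.I * ((s (a - a₀) : ℤ) / f) : ℂ) =
          ((2 * Real.pi * (s (a - a₀)) / f : ℝ) : ℂ) * Complex.I := by
        push_cast; ring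
      rw [h6, Complex.norm_exp_ofReal_mul_I]
      simp

end Pool.Agent.Lib.MP_09e095_co
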