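import Mathlib
import Pool.Agent.Lib.MP_09e095_co.RectLift

/-!
MP_09e095_co : rectification relative to the subgroup generated by the differences.
-/

set_option autoImplicit false

open Finset
open scoped Pointwise

namespace Pool.Agent.Lib.MP_09e095_co.Fin

/-- `exists_coset_progression` for a set in a coset of the subgroup `G₀` of `ZMod n`. -/
theorem exists_cp (K : ℝ) (hK1 : 1 ≤ K) (R : ℕ) :
    ∃ c : ℝ, 0 < c ∧ ∀ (n : ℕ) [NeZero n] (A : Finset (ZMod n)) (G₀ : AddSubgroup (ZMod n)),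
      ((A + A).card : ℝ) ≤ K * A.card → (A.card : ℝ) ≤ c * Nat.card G₀ → ∀ a₀ ∈ A,
      (∀ a ∈ A, a - a₀ ∈ G₀) →
      ∃ (N : AddSubgroup (ZMod n)) (g : ZMod n) (M : ℕ) (t : ZMod n → ℤ), N ≤ G₀ ∧ N ≠ G₀ ∧
        (∀ m : ℤ, |m| ≤ R * M → m • g ∈ N → m = 0) ∧
        (∀ a ∈ A, |t a| ≤ M ∧ a - a₀ - t a • g ∈ N) := by
  classical
  obtain ⟨c, hc, h⟩ := exists_coset_progression K hK1 R
  refine ⟨c, hc, ?_⟩
  intro n _ A G₀ hKA hcA a₀ ha₀ hin
  have hcyc : IsAddCyclic G₀ := inferInstance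
  set n₀ := Nat.card G₀ with hn₀
  have hn₀pos : 0 < n₀ := Nat.card_pos
  have : NeZero n₀ := ⟨hn₀pos.ne'⟩
  let e : ZMod n₀ ≃+ G₀ := zmodAddCyclicAddEquiv hcyc
  let ι : ZMod n₀ →+ ZMod n := G₀.subtype.comp e.toAddMonoidHom
  have hιinj : Function.Injective ι := by
    intro x y hxy
    exact e.injective (G₀.subtype_injective hxy)
  have hιmem : ∀ x, ι x ∈ G₀ := fun x => (e x).2
  have hιsurj : ∀ y ∈ G₀, ∃ x, ι x = y := by
    intro y hy
    refine ⟨e.symm ⟨y, hy⟩, ?_⟩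
    change ((e (e.symm ⟨y, hy⟩) : G₀) : ZMod n) = y
    rw [AddEquiv.apply_symm_apply]
  let A₀ : Finset (ZMod n₀) := Finset.univ.filter (fun z => ι z + a₀ ∈ A)
  have hA₀ : ∀ z, z ∈ A₀ ↔ ι z + a₀ ∈ A := by
    intro z; simp [A₀]
  have himg : A₀.image (fun z => ι z + a₀) = A := by
    ext a
    rw [Finset.mem_image]
    constructor
    · rintro ⟨z, hz, rfl⟩
      exact (hA₀ z).1 hz
    · intro ha
      obtain ⟨z, hz⟩ := hιsurj _ (hin a ha)
      refine ⟨z, (hA₀ z).2 ?_, ?_⟩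
      · rw [hz, sub_add_cancel]; exact ha
      · rw [hz, sub_add_cancel]
  have himg2 : (A₀ + A₀).image (fun z => ι z + (a₀ + a₀)) = A + A := by
    ext a
    rw [Finset.mem_image]
    constructor
    · rintro ⟨z, hz, rfl⟩
      obtain ⟨x, hx, y, hy, rfl⟩ := Finset.mem_add.1 hz
      have : ι (x + y) + (a₀ + a₀) = (ι x + a₀) + (ι y + a₀) := by rw [map_add]; abel
      rw [this]
      exact Finset.add_mem_add ((hA₀ x).1 hx) ((hA₀ y).1 hy)
    · intro ha
      obtain ⟨x, hx, y, hy, rfl⟩ := Finset.mem_add.1 ha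
      rw [← himg, Finset.mem_image] at hx hy
      obtain ⟨x', hx', rfl⟩ := hx
      obtain ⟨y', hy', rfl⟩ := hy
      refine ⟨x' + y', Finset.add_mem_add hx' hy', ?_⟩
      rw [map_add]; abel
  have hcard : A₀.card = A.card := by
    rw [← himg, Finset.card_image_of_injective]
    intro x y hxy
    exact hιinj (add_right_cancel hxy)
  have hcard2 : (A₀ + A₀).card = (A + A).card := by
    rw [← himg2, Finset.card_image_of_injective]
    intro x y hxy
    exact hιinj (add_right_cancel hxy)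
  have h0 : (0 : ZMod n₀) ∈ A₀ := by
    rw [hA₀, map_zero, zero_add]; exact ha₀
  obtain ⟨N₀, g₀, M, t₀, hN₀, hm, ht⟩ := h n₀ A₀ (by rw [hcard, hcard2]; exact hKA)
    (by rw [hcard]; exact hcA) 0 h0
  have hmemN : ∀ z, ι z ∈ N₀.map ι ↔ z ∈ N₀ := by
    intro z
    rw [AddSubgroup.mem_map]
    constructor
    · rintro ⟨w, hw, hwz⟩
      rwa [hιinj hwz] at hw
    · intro hz
      exact ⟨z, hz, rfl⟩
  refine ⟨N₀.map ι, ι g₀, M, fun a => t₀ (Function.invFun ι (a - a₀)), ?_, ?_, ?_, ?_⟩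
  · rintro x ⟨z, _, rfl⟩
    exact hιmem z
  · intro heq
    apply hN₀
    rw [eq_top_iff]
    intro z _
    rw [← hmemN, heq]
    exact hιmem z
  · intro m hmM hmN
    apply hm m hmM
    rw [← map_zsmul, hmemN] at hmN
    exact hmN
  · intro a ha
    obtain ⟨z, hz⟩ := hιsurj _ (hin a ha)
    have hinv : Function.invFun ι (a - a₀) = z := by
      rw [← hz]
      exact Function.leftInverse_invFun hιinj z
    have hzA : z ∈ A₀ := by
      rw [hA₀, hz, sub_add_cancel]; exact ha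
    obtain ⟨h1, h2⟩ := ht z hzA
    simp only
    rw [hinv]
    refine ⟨h1, ?_⟩
    rw [← hz, ← map_zsmul, ← map_sub, hmemN]
    simpa using h2

end Pool.Agent.Lib.MP_09e095_co.Fin
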