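import Mathlib
import Pool.Agent.Lib.MP_09e095_co.FinIter
import Pool.Agent.Lib.MP_09e095_co.FinRect
import Pool.Agent.Lib.MP_09e095_co.QLayers

/-!
MP_09e095_co : from the several-layer theorem to cyclic groups.
-/

set_option autoImplicit false

open Finset
open scoped Pointwise

namespace Pool.Agent.Lib.MP_09e095_co.Fin

section lift

variable {n : ℕ} [NeZero n] {N : AddSubgroup (ZMod n)} {g : ZMod n}

/-- the map `(m, x) ↦ m g + x` -/
def psi (N : AddSubgroup (ZMod n)) (g : ZMod n) : ℤ × N →+ ZMod n :=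
  AddMonoidHom.coprod (zmultiplesHom (ZMod n) g) N.subtype

theorem psi_apply (z : ℤ × N) : psi N g z = z.1 • g + (z.2 : ZMod n) := by
  simp [psi]

theorem psi_eq_zero {M : ℕ} (hm : ∀ m : ℤ, |m| ≤ 4 * M → m • g ∈ N → m = 0) {z : ℤ × N}
    (hz : |z.1| ≤ 4 * M) (h : psi N g z = 0) : z = 0 := by
  rw [psi_apply] at h
  have h1 : z.1 • g ∈ N := by
    rw [eq_neg_of_add_eq_zero_left h]
    exact N.neg_mem z.2.2
  have h2 := hm z.1 hz h1
  rw [h2, zero_smul, zero_add] at h
  apply Prod.ext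
  · exact h2
  · exact Subtype.ext h

theorem fst_eq_zero {H : AddSubgroup (ℤ × N)} (hH : (H : Set (ℤ × N)).Finite) {z : ℤ × N}
    (hz : z ∈ H) : z.1 = 0 :=
  le_ker (π := AddMonoidHom.fst ℤ N) hH hz

theorem psi_mem_map {M : ℕ} (hm : ∀ m : ℤ, |m| ≤ 4 * M → m • g ∈ N → m = 0)
    {H : AddSubgroup (ℤ × N)} (hH : (H : Set (ℤ × N)).Finite) {z : ℤ × N}
    (hz : |z.1| ≤ 4 * M) : psi N g z ∈ H.map (psi N g) ↔ z ∈ H := by
  constructor
  · rintro ⟨w, hw, hwz⟩
    have h1 : psi N g (z - w) = 0 := by rw [map_sub, hwz, sub_self]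
    have h2 : (z - w).1 = z.1 := by
      rw [Prod.fst_sub, fst_eq_zero hH hw, sub_zero]
    have h3 := psi_eq_zero hm (by rw [h2]; exact hz) h1
    rw [sub_eq_zero.1 h3]
    exact hw
  · intro h
    exact ⟨z, h, rfl⟩

theorem card_map_psi {M : ℕ} (hm : ∀ m : ℤ, |m| ≤ 4 * M → m • g ∈ N → m = 0)
    {H : AddSubgroup (ℤ × N)} (hH : (H : Set (ℤ × N)).Finite) :
    Nat.card (H.map (psi N g)) = Nat.card H := by
  symm
  apply Nat.card_eq_of_bijective (f := fun h : H =>
    (⟨psi N g h, AddSubgroup.mem_map_of_mem _ h.2⟩ : H.map (psi N g)))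
  constructor
  · rintro ⟨x, hx⟩ ⟨y, hy⟩ hxy
    simp only [Subtype.mk.injEq] at hxy
    have h1 : psi N g (x - y) = 0 := by rw [map_sub, hxy, sub_self]
    have h2 : (x - y).1 = 0 := fst_eq_zero hH (H.sub_mem hx hy)
    have h3 := psi_eq_zero hm (by rw [h2]; simp) h1
    exact Subtype.ext (sub_eq_zero.1 h3)
  · rintro ⟨y, hy⟩
    obtain ⟨x, hx, rfl⟩ := AddSubgroup.mem_map.1 hy
    exact ⟨⟨x, hx⟩, rfl⟩

theorem map_le {H : AddSubgroup (ℤ × N)} (hH : (H : Set (ℤ × N)).Finite) :
    H.map (psi N g) ≤ N := by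
  rintro x ⟨z, hz, rfl⟩
  rw [psi_apply, fst_eq_zero hH hz, zero_smul, zero_add]
  exact z.2.2

/-- the lift of `A` -/
noncomputable def lft (N : AddSubgroup (ZMod n)) (g a₀ : ZMod n) (t : ZMod n → ℤ)
    (a : ZMod n) : ℤ × N := by
  classical
  exact if h : a - a₀ - t a • g ∈ N then (t a, ⟨_, h⟩) else (0, 0)

theorem psi_lft {a₀ : ZMod n} {t : ZMod n → ℤ} {a : ZMod n} (h : a - a₀ - t a • g ∈ N) :
    psi N g (lft N g a₀ t a) = a - a₀ := by
  rw [psi_apply, lft, dif_pos h]
  simp

theorem fst_lft {a₀ : ZMod n} {t : ZMod n → ℤ} {a : ZMod n} (h : a - a₀ - t a • g ∈ N) :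
    (lft N g a₀ t a).1 = t a := by
  rw [lft, dif_pos h]

end lift

instance ker_fst_finite {n : ℕ} [NeZero n] (N : AddSubgroup (ZMod n)) :
    Finite (AddMonoidHom.fst ℤ N).ker := by
  apply Finite.of_injective (fun z : (AddMonoidHom.fst ℤ N).ker => (z : ℤ × N).2)
  rintro ⟨⟨x1, x2⟩, hx⟩ ⟨⟨y1, y2⟩, hy⟩ hxy
  have h1 : x1 = 0 := hx
  have h2 : y1 = 0 := hy
  simp only at hxy
  subst h1 h2 hxy
  rfl

instance ker_fst_cyclic {n : ℕ} [NeZero n] (N : AddSubgroup (ZMod n)) :
    IsAddCyclic (AddMonoidHom.fst ℤ N).ker := by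
  apply isAddCyclic_of_injective ((AddMonoidHom.snd ℤ N).comp (AddMonoidHom.fst ℤ N).ker.subtype)
  rintro ⟨⟨x1, x2⟩, hx⟩ ⟨⟨y1, y2⟩, hy⟩ hxy
  have h1 : x1 = 0 := hx
  have h2 : y1 = 0 := hy
  have h3 : x2 = y2 := hxy
  subst h1 h2 h3
  rfl

/-- the trichotomy -/
def Tri (C : ℝ) {n : ℕ} (A : Finset (ZMod n)) : Prop :=
  (∃ (H : AddSubgroup (ZMod n)) (x : ZMod n), (∀ a ∈ A, a - x ∈ H) ∧
    (Nat.card H : ℝ) ≤ C * A.card) ∨
  (∃ (H : AddSubgroup (ZMod n)) (k : ℕ) (p d : ZMod n), 2 ≤ k ∧ 2 ≤ nc H A ∧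
    (∀ a ∈ A, ∃ j : ℕ, j < k ∧ a - p - j • d ∈ H) ∧
    (k - 1) * Nat.card H + A.card ≤ (A + A).card) ∨
  (∃ H : AddSubgroup (ZMod n), 2 ≤ nc H A ∧ 3 * nc H A ≤ nc H (A + A) + 3 ∧
    Nat.card H * nc H (A + A) + A.card ≤ (A + A).card + Nat.card H * nc H A)

theorem two_le_nc {n : ℕ} {H : AddSubgroup (ZMod n)} {A : Finset (ZMod n)} {a b : ZMod n}
    (ha : a ∈ A) (hb : b ∈ A) (h : a - b ∉ H) : 2 ≤ nc H A := by
  unfold nc
  have : 1 < (cl H A).card := Finset.one_lt_card.2
    ⟨_, mk_mem_cl ha, _, mk_mem_cl hb, fun h' => h (sub_mem_of_mk_eq h')⟩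
  omega

/-- **main theorem**: structure of sets of doubling at most `3` in cyclic groups -/
theorem fin_main (hQQ : QQStmt) : ∃ C : ℝ, 0 < C ∧ ∀ (n : ℕ) [NeZero n] (A : Finset (ZMod n)),
    A.Nonempty → (A + A).card ≤ 3 * A.card → Tri C A := by
  classical
  obtain ⟨c, hc, hcp⟩ := exists_cp 3 (by norm_num) 4
  refine ⟨1 / c, by positivity, ?_⟩
  intro n _ A hA hAA
  obtain ⟨a₀, ha₀⟩ := hA
  set G₀ : AddSubgroup (ZMod n) := AddSubgroup.closure {x | ∃ a ∈ A, a - a₀ = x} with hG₀
  have hin : ∀ a ∈ A, a - a₀ ∈ G₀ := fun a ha => AddSubgroup.subset_closure ⟨a, ha, rfl⟩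
  rcases lt_or_ge (c * Nat.card G₀) (A.card : ℝ) with hbig | hsmall
  · left
    refine ⟨G₀, a₀, hin, ?_⟩
    rw [one_div, inv_mul_eq_div, le_div_iff₀ hc]
    linarith
  · right
    obtain ⟨N, g, M, t, hNG, hNne, hm, ht⟩ := hcp n A G₀ (by exact_mod_cast hAA) hsmall a₀ ha₀ hin
    have hm' : ∀ m : ℤ, |m| ≤ 4 * M → m • g ∈ N → m = 0 := by
      intro m h1 h2
      exact hm m (by exact_mod_cast h1) h2
    have hta : ∀ a ∈ A, a - a₀ - t a • g ∈ N := fun a ha => (ht a ha).2
    -- a second layer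
    obtain ⟨b, hb, hbN⟩ : ∃ b ∈ A, b - a₀ ∉ N := by
      by_contra hcon
      push Not at hcon
      apply hNne
      apply le_antisymm hNG
      rw [hG₀, AddSubgroup.closure_le]
      rintro x ⟨a, ha, rfl⟩
      exact hcon a ha
    have ht0 : t a₀ = 0 := by
      apply hm' _ _
      · have := hta a₀ ha₀
        rw [sub_self, zero_sub] at this
        simpa using N.neg_mem this
      · have := (ht a₀ ha₀).1
        have h0 : (0 : ℤ) ≤ M := by positivity
        linarith
    have htb : t b ≠ 0 := by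
      intro h
      apply hbN
      have := hta b hb
      rwa [h, zero_smul, sub_zero] at this
    -- the lift
    set e := lft N g a₀ t with he
    set B := A.image e with hB
    have hBm : ∀ z ∈ B, |z.1| ≤ M := by
      intro z hz
      obtain ⟨a, ha, rfl⟩ := Finset.mem_image.1 hz
      rw [he, fst_lft (hta a ha)]
      exact (ht a ha).1
    have hBm2 : ∀ z ∈ B + B, |z.1| ≤ 2 * M := by
      intro z hz
      obtain ⟨x, hx, y, hy, rfl⟩ := Finset.mem_add.1 hz
      rw [Prod.fst_add]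
      have := abs_add_le x.1 y.1
      have := hBm x hx
      have := hBm y hy
      linarith
    have hBi : B.image (fun z => psi N g z + a₀) = A := by
      rw [hB, Finset.image_image]
      ext x
      rw [Finset.mem_image]
      constructor
      · rintro ⟨a, ha, rfl⟩
        simp only [Function.comp]
        rw [he, psi_lft (hta a ha), sub_add_cancel]
        exact ha
      · intro hx
        refine ⟨x, hx, ?_⟩
        simp only [Function.comp]
        rw [he, psi_lft (hta x hx), sub_add_cancel]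
    have hBi2 : (B + B).image (fun z => psi N g z + (a₀ + a₀)) = A + A := by
      ext x
      rw [Finset.mem_image]
      constructor
      · rintro ⟨z, hz, rfl⟩
        obtain ⟨x, hx, y, hy, rfl⟩ := Finset.mem_add.1 hz
        have h1 : psi N g x + a₀ ∈ A := by
          rw [← hBi]; exact Finset.mem_image.2 ⟨x, hx, rfl⟩
        have h2 : psi N g y + a₀ ∈ A := by
          rw [← hBi]; exact Finset.mem_image.2 ⟨y, hy, rfl⟩
        have : psi N g (x + y) + (a₀ + a₀) = (psi N g x + a₀) + (psi N g y + a₀) := by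
          rw [map_add]; abel
        rw [this]
        exact Finset.add_mem_add h1 h2
      · intro hxx
        obtain ⟨x, hx, y, hy, rfl⟩ := Finset.mem_add.1 hxx
        rw [← hBi, Finset.mem_image] at hx hy
        obtain ⟨x', hx', rfl⟩ := hx
        obtain ⟨y', hy', rfl⟩ := hy
        refine ⟨x' + y', Finset.add_mem_add hx' hy', ?_⟩
        rw [map_add]; abel
    have hM0 : (0 : ℤ) ≤ M := by positivity
    have hcB : B.card = A.card := by
      conv_rhs => rw [← hBi]
      symm
      apply Finset.card_image_of_injOn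
      intro x hx y hy hxy
      have h1 : psi N g (x - y) = 0 := by
        rw [map_sub, sub_eq_zero]
        exact add_right_cancel hxy
      have h2 : |(x - y).1| ≤ 4 * M := by
        rw [Prod.fst_sub]
        have := abs_sub x.1 y.1
        have := hBm x hx
        have := hBm y hy
        linarith
      exact sub_eq_zero.1 (psi_eq_zero hm' h2 h1)
    have hcB2 : (B + B).card = (A + A).card := by
      conv_rhs => rw [← hBi2]
      symm
      apply Finset.card_image_of_injOn
      intro x hx y hy hxy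
      have h1 : psi N g (x - y) = 0 := by
        rw [map_sub, sub_eq_zero]
        exact add_right_cancel hxy
      have h2 : |(x - y).1| ≤ 4 * M := by
        rw [Prod.fst_sub]
        have := abs_sub x.1 y.1
        have := hBm2 x hx
        have := hBm2 y hy
        linarith
      exact sub_eq_zero.1 (psi_eq_zero hm' h2 h1)
    have hx0 : e a₀ ∈ B := Finset.mem_image_of_mem _ ha₀
    have hxb : e b ∈ B := Finset.mem_image_of_mem _ hb
    have hne : (AddMonoidHom.fst ℤ N) (e b) ≠ (AddMonoidHom.fst ℤ N) (e a₀) := by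
      change (e b).1 ≠ (e a₀).1
      rw [he, fst_lft (hta b hb), fst_lft (hta a₀ ha₀), ht0]
      exact htb
    obtain ⟨H', hH', hconc⟩ := iter hQQ (AddMonoidHom.fst ℤ N) B (e b) (e a₀) hxb hx0 hne
    have hcard := card_map_psi (g := g) hm' hH'
    have hHN := map_le (g := g) hH'
    have hbH : b - a₀ ∉ H'.map (psi N g) := fun h => hbN (hHN h)
    rcases hconc with ⟨c1, c2⟩ | ⟨k, a', d', hk, hcov, c1⟩
    · right
      have e1 : nc (H'.map (psi N g)) A = nc H' B := by
        conv_lhs => rw [← hBi]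
        apply Lay.nc_image
        intro x hx y hy
        rw [add_sub_add_right_eq_sub, ← map_sub]
        apply psi_mem_map hm' hH'
        rw [Prod.fst_sub]
        have := abs_sub x.1 y.1
        have := hBm x hx
        have := hBm y hy
        linarith
      have e2 : nc (H'.map (psi N g)) (A + A) = nc H' (B + B) := by
        conv_lhs => rw [← hBi2]
        apply Lay.nc_image
        intro x hx y hy
        rw [add_sub_add_right_eq_sub, ← map_sub]
        apply psi_mem_map hm' hH'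
        rw [Prod.fst_sub]
        have := abs_sub x.1 y.1
        have := hBm2 x hx
        have := hBm2 y hy
        linarith
      refine ⟨H'.map (psi N g), two_le_nc hb ha₀ hbH, ?_, ?_⟩
      · rw [e1, e2]; exact c2
      · rw [e1, e2, hcard, ← hcB, ← hcB2]; exact c1
    · left
      refine ⟨H'.map (psi N g), k, psi N g a' + a₀, psi N g d', hk, two_le_nc hb ha₀ hbH, ?_, ?_⟩
      · intro a ha
        obtain ⟨j, hj, hjm⟩ := hcov (e a) (Finset.mem_image_of_mem _ ha)
        refine ⟨j, hj, ?_⟩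
        have h1 : psi N g (e a) = a - a₀ := psi_lft (hta a ha)
        have h2 : a - (psi N g a' + a₀) - j • psi N g d' = psi N g (e a - a' - j • d') := by
          rw [map_sub, map_sub, map_nsmul, h1]; abel
        rw [h2]
        exact AddSubgroup.mem_map_of_mem _ hjm
      · rw [hcard, ← hcB, ← hcB2]; exact c1

end Pool.Agent.Lib.MP_09e095_co.Fin
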