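import Mathlib
import Pool.Agent.Lib.MP_09e095_co.FinMain

/-!
MP_09e095_co : final form of the theorem, quotient form of Q1.
-/

set_option autoImplicit false

open Finset
open scoped Pointwise

namespace Pool.Agent.Lib.MP_09e095_co.Fin

/-- `P` is an arithmetic progression with `k` terms -/
def IsAPk {G : Type*} [AddCommGroup G] (P : Set G) (k : ℕ) : Prop :=
  ∃ p d : G, P = {x | ∃ j : ℕ, j < k ∧ x = p + j • d}

section ap
variable {G : Type*} [AddCommGroup G]

theorem IsAPk.eq_image [DecidableEq G] {P : Set G} {k : ℕ} (h : IsAPk P k) :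
    ∃ p d : G, P = ((Finset.range k).image (fun j => p + j • d) : Finset G) := by
  obtain ⟨p, d, rfl⟩ := h
  refine ⟨p, d, ?_⟩
  ext x
  rw [Finset.mem_coe, Finset.mem_image]
  constructor
  · rintro ⟨j, hj, rfl⟩
    exact ⟨j, Finset.mem_range.2 hj, rfl⟩
  · rintro ⟨j, hj, rfl⟩
    exact ⟨j, Finset.mem_range.1 hj, rfl⟩

theorem IsAPk.finite {P : Set G} {k : ℕ} (h : IsAPk P k) : P.Finite := by
  classical
  obtain ⟨p, d, rfl⟩ := h.eq_image
  exact Finset.finite_toSet _

theorem IsAPk.ncard_le {P : Set G} {k : ℕ} (h : IsAPk P k) : P.ncard ≤ k := by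
  classical
  obtain ⟨p, d, rfl⟩ := h.eq_image
  rw [Set.ncard_coe_finset]
  exact Finset.card_image_le.trans (by rw [Finset.card_range])

theorem IsAPk.ncard_add_le {P : Set G} {k : ℕ} (hk : 1 ≤ k) (h : IsAPk P k) :
    (P + P).ncard ≤ P.ncard + (k - 1) := by
  classical
  obtain ⟨p, d, rfl⟩ := h.eq_image
  set Q : Finset G := (Finset.range k).image (fun j => p + j • d) with hQ
  rw [← Finset.coe_add, Set.ncard_coe_finset, Set.ncard_coe_finset]
  have hsub : Q + Q ⊆ Q.image (fun x => p + x) ∪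
      (Finset.range (k - 1)).image (fun j => p + p + (k + j) • d) := by
    intro z hz
    obtain ⟨x, hx, y, hy, rfl⟩ := Finset.mem_add.1 hz
    obtain ⟨i, hi, rfl⟩ := Finset.mem_image.1 hx
    obtain ⟨j, hj, rfl⟩ := Finset.mem_image.1 hy
    rw [Finset.mem_range] at hi hj
    rw [Finset.mem_union]
    rcases Nat.lt_or_ge (i + j) k with h | h
    · left
      refine Finset.mem_image.2 ⟨p + (i + j) • d, Finset.mem_image.2
        ⟨i + j, Finset.mem_range.2 h, rfl⟩, ?_⟩
      rw [add_smul]; abel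
    · right
      refine Finset.mem_image.2 ⟨i + j - k, Finset.mem_range.2 (by omega), ?_⟩
      have : k + (i + j - k) = i + j := by omega
      rw [this, add_smul]; abel
  calc (Q + Q).card ≤ _ := Finset.card_le_card hsub
    _ ≤ (Q.image (fun x => p + x)).card +
        ((Finset.range (k - 1)).image (fun j => p + p + (k + j) • d)).card :=
      Finset.card_union_le _ _
    _ ≤ Q.card + (k - 1) := by
      apply Nat.add_le_add
      · exact Finset.card_image_le
      · exact Finset.card_image_le.trans (by rw [Finset.card_range])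

end ap

section concl
variable {n : ℕ} [NeZero n]

/-- (c) follows from (b) and (a) -/
theorem cond_c {a a2 p p2 h : ℕ} (h1 : (((p2 : ℤ) - p) * h ≤ (a2 : ℤ) - a)) (h2 : a ≤ p * h)
    (h3 : p ≤ p2) : p2 * a ≤ a2 * p := by
  have h2' : (a : ℤ) ≤ p * h := by exact_mod_cast h2
  have h3' : (0 : ℤ) ≤ (p2 : ℤ) - p := by
    have : (p : ℤ) ≤ p2 := by exact_mod_cast h3
    linarith
  have e1 := mul_le_mul_of_nonneg_left h2' h3'
  have e2 := mul_le_mul_of_nonneg_left h1 (by positivity : (0 : ℤ) ≤ p)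
  have : (p2 : ℤ) * a ≤ a2 * p := by nlinarith
  exact_mod_cast this

theorem card_le_ncard_mul {H : AddSubgroup (ZMod n)} {A : Finset (ZMod n)}
    {P : Set (ZMod n ⧸ H)} (hP : P.Finite) (h : ∀ a ∈ A, (QuotientAddGroup.mk a : ZMod n ⧸ H) ∈ P) :
    nc H A ≤ P.ncard ∧ A.card ≤ P.ncard * Nat.card H := by
  have h1 : nc H A ≤ P.ncard := by
    unfold nc
    rw [← Set.ncard_coe_finset]
    apply Set.ncard_le_ncard _ hP
    intro x hx
    obtain ⟨a, ha, rfl⟩ := mem_cl.1 (Finset.mem_coe.1 hx)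
    exact h a ha
  refine ⟨h1, ?_⟩
  have h2 := card_le_mul_nc (Set.toFinite (H : Set (ZMod n))) A
  calc A.card ≤ Nat.card H * nc H A := h2
    _ ≤ Nat.card H * P.ncard := Nat.mul_le_mul_left _ h1
    _ = _ := mul_comm _ _

end concl

/-- the conclusion of the precise form -/
def Precise (C₁ : ℝ) {n : ℕ} (A : Finset (ZMod n)) : Prop :=
  ∃ (H : AddSubgroup (ZMod n)) (P : Set (ZMod n ⧸ H)), H ≠ ⊤ ∧
    (∀ a ∈ A, (QuotientAddGroup.mk a : ZMod n ⧸ H) ∈ P) ∧
    (((P + P).ncard : ℤ) - P.ncard) * Nat.card H ≤ ((A + A).card : ℤ) - A.card ∧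
    (P + P).ncard * A.card ≤ (A + A).card * P.ncard ∧
    (P.ncard = 1 ∨ (2 ≤ P.ncard ∧ ∃ k : ℕ, IsAPk P k ∧
        ((k : ℤ) - 1) * Nat.card H ≤ ((A + A).card : ℤ) - A.card) ∨
      (2 ≤ P.ncard ∧ 3 * P.ncard ≤ (P + P).ncard + 3 ∧
        P = {x | ∃ a ∈ A, (QuotientAddGroup.mk a : ZMod n ⧸ H) = x})) ∧
    (P.ncard : ℝ) * Nat.card H ≤ C₁ * A.card

/-- **final theorem, Q1 in quotient form**, with an absolute `C₁` and `C₂ = 3 / ε`. -/
theorem q1 (hQQ : QQStmt) : ∃ C₁ : ℝ, 0 < C₁ ∧ ∀ (n : ℕ) [NeZero n] (A : Finset (ZMod n)),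
    (A.card : ℝ) < C₁⁻¹ * n → A.Nonempty → (A + A).card ≤ 3 * A.card → Precise C₁ A := by
  classical
  obtain ⟨C, hC, hmain⟩ := fin_main hQQ
  refine ⟨max C 4, by positivity, ?_⟩
  intro n _ A hAn hA hAA
  have hC4 : (4 : ℝ) ≤ max C 4 := le_max_right _ _
  have hCC : C ≤ max C 4 := le_max_left _ _
  have hA0 : (0 : ℝ) ≤ A.card := by positivity
  have hAle : A.card ≤ (A + A).card := Finset.card_le_card_add_right hA
  have hAn' : max C 4 * (A.card : ℝ) < n := by
    rw [← lt_inv_mul_iff₀ (by positivity)]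
    exact hAn
  rcases hmain n A hA hAA with ⟨H, x, hx, hHc⟩ | ⟨H, k, p, d, hk, hnc, hcov, hkk⟩ |
    ⟨H, hnc, h3, hF⟩
  · -- one coset
    refine ⟨H, {(QuotientAddGroup.mk x : ZMod n ⧸ H)}, ?_, ?_, ?_, ?_, Or.inl ?_, ?_⟩
    · rintro rfl
      rw [AddSubgroup.card_top, Nat.card_zmod] at hHc
      have : C * (A.card : ℝ) ≤ max C 4 * A.card := mul_le_mul_of_nonneg_right hCC hA0
      linarith
    · intro a ha
      exact mk_eq_of_sub_mem (hx a ha)
    · rw [Set.singleton_add_singleton, Set.ncard_singleton, Set.ncard_singleton]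
      have : (A.card : ℤ) ≤ (A + A).card := by exact_mod_cast hAle
      simp only [Nat.cast_one, sub_self, zero_mul]
      linarith
    · rw [Set.singleton_add_singleton, Set.ncard_singleton, Set.ncard_singleton]
      omega
    · exact Set.ncard_singleton _
    · rw [Set.ncard_singleton, Nat.cast_one, one_mul]
      exact hHc.trans (mul_le_mul_of_nonneg_right hCC hA0)
  · -- progression
    set P : Set (ZMod n ⧸ H) := {y | ∃ j : ℕ, j < k ∧ y = (QuotientAddGroup.mk p : ZMod n ⧸ H) +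
      j • (QuotientAddGroup.mk d : ZMod n ⧸ H)} with hP
    have hAP : IsAPk P k := ⟨_, _, rfl⟩
    have hAP1 := hAP.ncard_le
    have hAP2 := hAP.ncard_add_le (by omega)
    have hmem : ∀ a ∈ A, (QuotientAddGroup.mk a : ZMod n ⧸ H) ∈ P := by
      intro a ha
      obtain ⟨j, hj, hjm⟩ := hcov a ha
      refine ⟨j, hj, ?_⟩
      have : a - p - j • d = a - (p + j • d) := by abel
      rw [this] at hjm
      exact mk_eq_of_sub_mem hjm
    obtain ⟨hle1, hle2⟩ := card_le_ncard_mul hAP.finite hmem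
    have hPP : P.ncard ≤ (P + P).ncard := by
      obtain ⟨a, ha⟩ := hA
      have hsub : (fun y => (QuotientAddGroup.mk a : ZMod n ⧸ H) + y) '' P ⊆ P + P := by
        rintro z ⟨y, hy, rfl⟩
        exact Set.add_mem_add (hmem a ha) hy
      calc P.ncard = ((fun y => (QuotientAddGroup.mk a : ZMod n ⧸ H) + y) '' P).ncard :=
            (Set.ncard_image_of_injective _ (add_right_injective _)).symm
        _ ≤ (P + P).ncard := Set.ncard_le_ncard hsub (hAP.finite.add hAP.finite)
    have hkk' : ((k : ℤ) - 1) * Nat.card H ≤ ((A + A).card : ℤ) - A.card := by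
      have h1 : ((k - 1 : ℕ) : ℤ) = (k : ℤ) - 1 := by
        rw [Nat.cast_sub (by omega)]; rfl
      rw [← h1]
      have : (((k - 1) * Nat.card H + A.card : ℕ) : ℤ) ≤ ((A + A).card : ℤ) := by
        exact_mod_cast hkk
      push_cast at this ⊢
      linarith
    have hb : (((P + P).ncard : ℤ) - P.ncard) * Nat.card H ≤ ((A + A).card : ℤ) - A.card := by
      refine le_trans ?_ hkk'
      apply mul_le_mul_of_nonneg_right _ (by positivity)
      omega
    refine ⟨H, P, ?_, hmem, hb, cond_c hb hle2 hPP, Or.inr (Or.inl ⟨by omega, k, hAP, hkk'⟩), ?_⟩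
    · rintro rfl
      have : nc (⊤ : AddSubgroup (ZMod n)) A ≤ 1 := by
        unfold nc
        rw [Finset.card_le_one]
        intro a ha b hb
        obtain ⟨x, _, rfl⟩ := mem_cl.1 ha
        obtain ⟨y, _, rfl⟩ := mem_cl.1 hb
        exact mk_eq_of_sub_mem (AddSubgroup.mem_top _)
      omega
    · have h1 : (P.ncard : ℝ) * Nat.card H ≤ 4 * A.card := by
        have : P.ncard * Nat.card H ≤ 4 * A.card := by
          calc P.ncard * Nat.card H ≤ (2 * (k - 1)) * Nat.card H :=
                Nat.mul_le_mul_right _ (by omega)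
            _ = 2 * ((k - 1) * Nat.card H) := by ring
            _ ≤ 4 * A.card := by omega
        exact_mod_cast this
      exact h1.trans (mul_le_mul_of_nonneg_right hC4 hA0)
  · -- few cosets
    set P : Set (ZMod n ⧸ H) := {y | ∃ a ∈ A, (QuotientAddGroup.mk a : ZMod n ⧸ H) = y} with hP
    have hPc : P = (cl H A : Set (ZMod n ⧸ H)) := by
      ext y
      rw [Finset.mem_coe, mem_cl]
      rfl
    have hPn : P.ncard = nc H A := by
      rw [hPc, Set.ncard_coe_finset]; rfl
    have hPPn : (P + P).ncard = nc H (A + A) := by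
      rw [hPc, ← Finset.coe_add, Set.ncard_coe_finset, ← QG.cl_add_eq]; rfl
    have hmem : ∀ a ∈ A, (QuotientAddGroup.mk a : ZMod n ⧸ H) ∈ P := fun a ha => ⟨a, ha, rfl⟩
    obtain ⟨hle1, hle2⟩ := card_le_ncard_mul (Set.toFinite P) hmem
    have hb : (((P + P).ncard : ℤ) - P.ncard) * Nat.card H ≤ ((A + A).card : ℤ) - A.card := by
      rw [hPn, hPPn]
      have : ((Nat.card H * nc H (A + A) + A.card : ℕ) : ℤ) ≤
          (((A + A).card + Nat.card H * nc H A : ℕ) : ℤ) := by exact_mod_cast hF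
      push_cast at this
      linarith
    have hnt : H ≠ ⊤ := by
      rintro rfl
      have : nc (⊤ : AddSubgroup (ZMod n)) A ≤ 1 := by
        unfold nc
        rw [Finset.card_le_one]
        intro a ha b hb
        obtain ⟨x, _, rfl⟩ := mem_cl.1 ha
        obtain ⟨y, _, rfl⟩ := mem_cl.1 hb
        exact mk_eq_of_sub_mem (AddSubgroup.mem_top _)
      omega
    refine ⟨H, P, hnt, hmem, hb, cond_c hb hle2 (by rw [hPn, hPPn]; omega), Or.inr (Or.inr
      ⟨by omega, by omega, rfl⟩), ?_⟩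
    have h1 : (P.ncard : ℝ) * Nat.card H ≤ 4 * A.card := by
      have : P.ncard * Nat.card H ≤ 4 * A.card := by
        rw [hPn]
        set h := Nat.card H
        set u := nc H A
        set v := nc H (A + A)
        have e1 : h * (3 * u) ≤ h * (v + 3) := Nat.mul_le_mul_left _ h3
        have e2 : h * 2 ≤ h * u := Nat.mul_le_mul_left _ hnc
        have e3 : h * (3 * u) = 3 * (h * u) := by ring
        have e4 : h * (v + 3) = h * v + 3 * h := by ring
        have e5 : u * h = h * u := mul_comm _ _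
        omega
      exact_mod_cast this
    exact h1.trans (mul_le_mul_of_nonneg_right hC4 hA0)

/-- the form with `ε` -/
theorem q1_eps {C₁ : ℝ} {n : ℕ} {A : Finset (ZMod n)} (h : A.Nonempty → (A + A).card ≤
    3 * A.card → Precise C₁ A) {ε : ℝ} (hε : 0 < ε) (h2 : ((A + A).card : ℝ) < (3 - ε) * A.card) :
    ∃ (H : AddSubgroup (ZMod n)) (P : Set (ZMod n ⧸ H)), H ≠ ⊤ ∧
      (∀ a ∈ A, (QuotientAddGroup.mk a : ZMod n ⧸ H) ∈ P) ∧
      (((P + P).ncard : ℤ) - P.ncard) * Nat.card H ≤ ((A + A).card : ℤ) - A.card ∧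
      (P + P).ncard * A.card ≤ (A + A).card * P.ncard ∧
      ((P.ncard : ℝ) ≤ 3 / ε ∨ (2 ≤ P.ncard ∧ ∃ k : ℕ, IsAPk P k)) ∧
      (P.ncard : ℝ) * Nat.card H ≤ C₁ * A.card := by
  have hA : A.Nonempty := by
    rw [Finset.nonempty_iff_ne_empty]
    rintro rfl
    simp at h2
  have hA0 : (0 : ℝ) < A.card := by exact_mod_cast hA.card_pos
  have hAle : (A.card : ℝ) ≤ (A + A).card := by
    exact_mod_cast (Finset.card_le_card_add_right hA : A.card ≤ (A + A).card)
  have hAA : (A + A).card ≤ 3 * A.card := by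
    have h3 : ((A + A).card : ℝ) ≤ 3 * A.card := by nlinarith
    exact_mod_cast h3
  have hε2 : ε < 2 := by
    by_contra hc
    push Not at hc
    have : (3 - ε) * (A.card : ℝ) ≤ 1 * A.card := mul_le_mul_of_nonneg_right (by linarith) hA0.le
    linarith
  obtain ⟨H, P, hH, ha, hb, hc, hd, he⟩ := h hA hAA
  refine ⟨H, P, hH, ha, hb, hc, ?_, he⟩
  rcases hd with hd | ⟨hd1, k, hk, _⟩ | ⟨hd1, hd2, _⟩
  · left
    rw [hd, le_div_iff₀ hε]
    push_cast
    linarith
  · right
    exact ⟨hd1, k, hk⟩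
  · left
    rw [le_div_iff₀ hε]
    have hp : (0 : ℝ) < P.ncard := by
      have : 0 < P.ncard := by omega
      exact_mod_cast this
    have e1 : ((P + P).ncard : ℝ) * A.card ≤ (A + A).card * P.ncard := by exact_mod_cast hc
    have e2 : 3 * (P.ncard : ℝ) ≤ (P + P).ncard + 3 := by exact_mod_cast hd2
    have e3 : ((A + A).card : ℝ) * P.ncard < (3 - ε) * A.card * P.ncard :=
      mul_lt_mul_of_pos_right h2 hp
    have e4 : ((P + P).ncard : ℝ) < (3 - ε) * P.ncard := by
      have : ((P + P).ncard : ℝ) * A.card < ((3 - ε) * P.ncard) * A.card := by nlinarith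
      exact lt_of_mul_lt_mul_right this hA0.le
    nlinarith

end Pool.Agent.Lib.MP_09e095_co.Fin
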