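import Mathlib
import Pool.Agent.Lib.MP_09e095_co.FinFinal

/-!
MP_09e095_co : the statement of the hand-in, from the several-layer theorem.
-/

set_option autoImplicit false

open Finset
open scoped Pointwise

namespace Pool.Agent.Lib.MP_09e095_co.Fin

theorem ne_top_of_nc {n : ℕ} {H : AddSubgroup (ZMod n)} {A : Finset (ZMod n)}
    (h : 2 ≤ nc H A) : H ≠ ⊤ := by
  rintro rfl
  have : nc (⊤ : AddSubgroup (ZMod n)) A ≤ 1 := by
    unfold nc
    rw [Finset.card_le_one]
    intro a ha b hb
    obtain ⟨x, _, rfl⟩ := mem_cl.1 ha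
    obtain ⟨y, _, rfl⟩ := mem_cl.1 hb
    exact mk_eq_of_sub_mem (AddSubgroup.mem_top _)
  omega

/-- Q1 in quotient form, `C₁` absolute, `C₂ = 3 / ε` -/
theorem final_form (hQQ : QQStmt) : ∃ C₁ : ℝ, 0 < C₁ ∧
    ∀ (ε : ℝ), 0 < ε → ∀ (n : ℕ) [NeZero n] (A : Finset (ZMod n)),
      ((A + A).card : ℝ) < (3 - ε) * A.card →
      ∃ (H : AddSubgroup (ZMod n)) (P : Set (ZMod n ⧸ H)),
        ((A.card : ℝ) < C₁⁻¹ * n → H ≠ ⊤) ∧
        (∀ a ∈ A, (QuotientAddGroup.mk a : ZMod n ⧸ H) ∈ P) ∧
        (((P + P).ncard : ℤ) - P.ncard) * Nat.card H ≤ ((A + A).card : ℤ) - A.card ∧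
        (P + P).ncard * A.card ≤ (A + A).card * P.ncard ∧
        ((P = {x | ∃ a ∈ A, (QuotientAddGroup.mk a : ZMod n ⧸ H) = x} ∧
            3 * P.ncard ≤ (P + P).ncard + 3 ∧ (P.ncard : ℝ) ≤ 3 / ε) ∨
          (2 ≤ P.ncard ∧ ∃ (k : ℕ) (p d : ZMod n ⧸ H), P = {x | ∃ j : ℕ, j < k ∧ x = p + j • d} ∧
            ((k : ℤ) - 1) * Nat.card H ≤ ((A + A).card : ℤ) - A.card)) ∧
        (P.ncard : ℝ) * Nat.card H ≤ C₁ * A.card := by
  classical
  obtain ⟨C, hC, hmain⟩ := fin_main hQQ
  refine ⟨max C 4, by positivity, ?_⟩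
  intro ε hε n _ A h2
  have hA : A.Nonempty := by
    rw [Finset.nonempty_iff_ne_empty]
    rintro rfl
    simp at h2
  have hA0 : (0 : ℝ) < A.card := by exact_mod_cast hA.card_pos
  have hAle : A.card ≤ (A + A).card := Finset.card_le_card_add_right hA
  have hAle' : (A.card : ℝ) ≤ (A + A).card := by exact_mod_cast hAle
  have hAA : (A + A).card ≤ 3 * A.card := by
    have h3 : ((A + A).card : ℝ) ≤ 3 * A.card := by nlinarith
    exact_mod_cast h3
  have hε2 : ε < 2 := by
    by_contra hc
    push Not at hc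
    have : (3 - ε) * (A.card : ℝ) ≤ 1 * A.card := mul_le_mul_of_nonneg_right (by linarith) hA0.le
    linarith
  have hC4 : (4 : ℝ) ≤ max C 4 := le_max_right _ _
  have hCC : C ≤ max C 4 := le_max_left _ _
  rcases hmain n A hA hAA with ⟨H, x, hx, hHc⟩ | ⟨H, k, p, d, hk, hnc, hcov, hkk⟩ |
    ⟨H, hnc, h3, hF⟩
  · -- one coset
    refine ⟨H, {(QuotientAddGroup.mk x : ZMod n ⧸ H)}, ?_, ?_, ?_, ?_, Or.inl ⟨?_, ?_, ?_⟩, ?_⟩
    · intro hAn
      have hAn' : max C 4 * (A.card : ℝ) < n := by
        rw [← lt_inv_mul_iff₀ (by positivity)]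
        exact hAn
      rintro rfl
      rw [AddSubgroup.card_top, Nat.card_zmod] at hHc
      have : C * (A.card : ℝ) ≤ max C 4 * A.card := mul_le_mul_of_nonneg_right hCC hA0.le
      linarith
    · intro a ha
      exact mk_eq_of_sub_mem (hx a ha)
    · rw [Set.singleton_add_singleton, Set.ncard_singleton, Set.ncard_singleton]
      have : (A.card : ℤ) ≤ (A + A).card := by exact_mod_cast hAle
      simp only [Nat.cast_one, sub_self, zero_mul]
      linarith
    · rw [Set.singleton_add_singleton, Set.ncard_singleton, Set.ncard_singleton]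
      omega
    · obtain ⟨a, ha⟩ := hA
      ext y
      constructor
      · intro hy
        exact ⟨a, ha, (mk_eq_of_sub_mem (hx a ha)).trans (Set.mem_singleton_iff.1 hy).symm⟩
      · rintro ⟨b, hb, rfl⟩
        exact mk_eq_of_sub_mem (hx b hb)
    · rw [Set.singleton_add_singleton, Set.ncard_singleton, Set.ncard_singleton]
      omega
    · rw [Set.ncard_singleton, le_div_iff₀ hε]
      push_cast
      linarith
    · rw [Set.ncard_singleton, Nat.cast_one, one_mul]
      exact hHc.trans (mul_le_mul_of_nonneg_right hCC hA0.le)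
  · -- progression
    set P : Set (ZMod n ⧸ H) := {y | ∃ j : ℕ, j < k ∧ y = (QuotientAddGroup.mk p : ZMod n ⧸ H) +
      j • (QuotientAddGroup.mk d : ZMod n ⧸ H)} with hP
    have hAP : IsAPk P k := ⟨_, _, rfl⟩
    have hAP1 := hAP.ncard_le
    have hAP2 := hAP.ncard_add_le (by omega)
    have hmem : ∀ a ∈ A, (QuotientAddGroup.mk a : ZMod n ⧸ H) ∈ P := by
      intro a ha
      obtain ⟨j, hj, hjm⟩ := hcov a ha
      refine ⟨j, hj, ?_⟩
      have : a - p - j • d = a - (p + j • d) := by abel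
      rw [this] at hjm
      exact mk_eq_of_sub_mem hjm
    obtain ⟨hle1, hle2⟩ := card_le_ncard_mul hAP.finite hmem
    have hPP : P.ncard ≤ (P + P).ncard := by
      obtain ⟨a, ha⟩ := hA
      have hsub : (fun y => (QuotientAddGroup.mk a : ZMod n ⧸ H) + y) '' P ⊆ P + P := by
        rintro z ⟨y, hy, rfl⟩
        exact Set.add_mem_add (hmem a ha) hy
      calc P.ncard = ((fun y => (QuotientAddGroup.mk a : ZMod n ⧸ H) + y) '' P).ncard :=
            (Set.ncard_image_of_injective _ (add_right_injective _)).symm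
        _ ≤ (P + P).ncard := Set.ncard_le_ncard hsub (hAP.finite.add hAP.finite)
    have hkk' : ((k : ℤ) - 1) * Nat.card H ≤ ((A + A).card : ℤ) - A.card := by
      have h1 : ((k - 1 : ℕ) : ℤ) = (k : ℤ) - 1 := by
        rw [Nat.cast_sub (by omega)]; rfl
      rw [← h1]
      have : (((k - 1) * Nat.card H + A.card : ℕ) : ℤ) ≤ ((A + A).card : ℤ) := by
        exact_mod_cast hkk
      push_cast at this ⊢
      linarith
    have hb : (((P + P).ncard : ℤ) - P.ncard) * Nat.card H ≤ ((A + A).card : ℤ) - A.card := by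
      refine le_trans ?_ hkk'
      apply mul_le_mul_of_nonneg_right _ (by positivity)
      omega
    refine ⟨H, P, fun _ => ne_top_of_nc hnc, hmem, hb, cond_c hb hle2 hPP,
      Or.inr ⟨by omega, k, _, _, rfl, hkk'⟩, ?_⟩
    have h1 : (P.ncard : ℝ) * Nat.card H ≤ 4 * A.card := by
      have : P.ncard * Nat.card H ≤ 4 * A.card := by
        calc P.ncard * Nat.card H ≤ (2 * (k - 1)) * Nat.card H :=
              Nat.mul_le_mul_right _ (by omega)
          _ = 2 * ((k - 1) * Nat.card H) := by ring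
          _ ≤ 4 * A.card := by omega
      exact_mod_cast this
    exact h1.trans (mul_le_mul_of_nonneg_right hC4 hA0.le)
  · -- few cosets
    set P : Set (ZMod n ⧸ H) := {y | ∃ a ∈ A, (QuotientAddGroup.mk a : ZMod n ⧸ H) = y} with hP
    have hPc : P = (cl H A : Set (ZMod n ⧸ H)) := by
      ext y
      rw [Finset.mem_coe, mem_cl]
      rfl
    have hPn : P.ncard = nc H A := by
      rw [hPc, Set.ncard_coe_finset]; rfl
    have hPPn : (P + P).ncard = nc H (A + A) := by
      rw [hPc, ← Finset.coe_add, Set.ncard_coe_finset, ← QG.cl_add_eq]; rfl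
    have hmem : ∀ a ∈ A, (QuotientAddGroup.mk a : ZMod n ⧸ H) ∈ P := fun a ha => ⟨a, ha, rfl⟩
    obtain ⟨hle1, hle2⟩ := card_le_ncard_mul (Set.toFinite P) hmem
    have hb : (((P + P).ncard : ℤ) - P.ncard) * Nat.card H ≤ ((A + A).card : ℤ) - A.card := by
      rw [hPn, hPPn]
      have : ((Nat.card H * nc H (A + A) + A.card : ℕ) : ℤ) ≤
          (((A + A).card + Nat.card H * nc H A : ℕ) : ℤ) := by exact_mod_cast hF
      push_cast at this
      linarith
    have hc := cond_c hb hle2 (by rw [hPn, hPPn]; omega)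
    refine ⟨H, P, fun _ => ne_top_of_nc hnc, hmem, hb, hc, Or.inl ⟨rfl, by omega, ?_⟩, ?_⟩
    · rw [le_div_iff₀ hε]
      have hp : (0 : ℝ) < P.ncard := by
        have : 0 < P.ncard := by omega
        exact_mod_cast this
      have e1 : ((P + P).ncard : ℝ) * A.card ≤ (A + A).card * P.ncard := by exact_mod_cast hc
      have e2 : 3 * (P.ncard : ℝ) ≤ (P + P).ncard + 3 := by
        have : 3 * P.ncard ≤ (P + P).ncard + 3 := by omega
        exact_mod_cast this
      have e3 : ((A + A).card : ℝ) * P.ncard < (3 - ε) * A.card * P.ncard :=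
        mul_lt_mul_of_pos_right h2 hp
      have e4 : ((P + P).ncard : ℝ) < (3 - ε) * P.ncard := by
        have : ((P + P).ncard : ℝ) * A.card < ((3 - ε) * P.ncard) * A.card := by nlinarith
        exact lt_of_mul_lt_mul_right this hA0.le
      nlinarith
    · have h1 : (P.ncard : ℝ) * Nat.card H ≤ 4 * A.card := by
        have : P.ncard * Nat.card H ≤ 4 * A.card := by
          rw [hPn]
          set h := Nat.card H
          set u := nc H A
          set v := nc H (A + A)
          have e1 : h * (3 * u) ≤ h * (v + 3) := Nat.mul_le_mul_left _ h3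
          have e2 : h * 2 ≤ h * u := Nat.mul_le_mul_left _ hnc
          have e3 : h * (3 * u) = 3 * (h * u) := by ring
          have e4 : h * (v + 3) = h * v + 3 * h := by ring
          have e5 : u * h = h * u := mul_comm _ _
          omega
        exact_mod_cast this
      exact h1.trans (mul_le_mul_of_nonneg_right hC4 hA0.le)

end Pool.Agent.Lib.MP_09e095_co.Fin
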