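import Mathlib
import Pool.Agent.Lib.MP_09e095_co.FinFinal

/-!
MP_09e095_co : the trichotomy in terms of subsets `P` of `ℤ_n / H`.
-/

set_option autoImplicit false

open Finset
open scoped Pointwise

namespace Pool.Agent.Lib.MP_09e095_co.Fin

theorem tri_pub {C : ℝ} {n : ℕ} [NeZero n] {A : Finset (ZMod n)} (h : Tri C A) :
    (∃ (H : AddSubgroup (ZMod n)) (x : ZMod n), (∀ a ∈ A, a - x ∈ H) ∧
      (Nat.card H : ℝ) ≤ C * A.card) ∨
    (∃ (H : AddSubgroup (ZMod n)) (P : Set (ZMod n ⧸ H)) (k : ℕ), 2 ≤ P.ncard ∧ IsAPk P k ∧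
      (∀ a ∈ A, (QuotientAddGroup.mk a : ZMod n ⧸ H) ∈ P) ∧
      ((k : ℤ) - 1) * Nat.card H ≤ ((A + A).card : ℤ) - A.card) ∨
    (∃ (H : AddSubgroup (ZMod n)) (P : Set (ZMod n ⧸ H)),
      P = {x | ∃ a ∈ A, (QuotientAddGroup.mk a : ZMod n ⧸ H) = x} ∧ 2 ≤ P.ncard ∧
      3 * P.ncard ≤ (P + P).ncard + 3 ∧
      (((P + P).ncard : ℤ) - P.ncard) * Nat.card H ≤ ((A + A).card : ℤ) - A.card) := by
  classical
  rcases h with ⟨H, x, hx, hHc⟩ | ⟨H, k, p, d, hk, hnc, hcov, hkk⟩ | ⟨H, hnc, h3, hF⟩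
  · exact Or.inl ⟨H, x, hx, hHc⟩
  · refine Or.inr (Or.inl ?_)
    set P : Set (ZMod n ⧸ H) := {y | ∃ j : ℕ, j < k ∧ y = (QuotientAddGroup.mk p : ZMod n ⧸ H) +
      j • (QuotientAddGroup.mk d : ZMod n ⧸ H)} with hP
    have hAP : IsAPk P k := ⟨_, _, rfl⟩
    have hmem : ∀ a ∈ A, (QuotientAddGroup.mk a : ZMod n ⧸ H) ∈ P := by
      intro a ha
      obtain ⟨j, hj, hjm⟩ := hcov a ha
      refine ⟨j, hj, ?_⟩
      have : a - p - j • d = a - (p + j • d) := by abel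
      rw [this] at hjm
      exact mk_eq_of_sub_mem hjm
    obtain ⟨hle1, hle2⟩ := card_le_ncard_mul hAP.finite hmem
    refine ⟨H, P, k, by omega, hAP, hmem, ?_⟩
    have h1 : ((k - 1 : ℕ) : ℤ) = (k : ℤ) - 1 := by
      rw [Nat.cast_sub (by omega)]; rfl
    rw [← h1]
    have : (((k - 1) * Nat.card H + A.card : ℕ) : ℤ) ≤ ((A + A).card : ℤ) := by
      exact_mod_cast hkk
    push_cast at this ⊢
    linarith
  · refine Or.inr (Or.inr ?_)
    set P : Set (ZMod n ⧸ H) := {y | ∃ a ∈ A, (QuotientAddGroup.mk a : ZMod n ⧸ H) = y} with hP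
    have hPc : P = (cl H A : Set (ZMod n ⧸ H)) := by
      ext y
      rw [Finset.mem_coe, mem_cl]
      rfl
    have hPn : P.ncard = nc H A := by
      rw [hPc, Set.ncard_coe_finset]; rfl
    have hPPn : (P + P).ncard = nc H (A + A) := by
      rw [hPc, ← Finset.coe_add, Set.ncard_coe_finset, ← QG.cl_add_eq]; rfl
    refine ⟨H, P, rfl, by omega, by omega, ?_⟩
    rw [hPn, hPPn]
    have : ((Nat.card H * nc H (A + A) + A.card : ℕ) : ℤ) ≤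
        (((A + A).card + Nat.card H * nc H A : ℕ) : ℤ) := by exact_mod_cast hF
    push_cast at this
    linarith

/-- all conclusions together, from the several-layer theorem -/
theorem all (hQQ : QQStmt) : ∃ C₁ : ℝ, 0 < C₁ ∧
    (∀ ε : ℝ, 0 < ε → ∀ (n : ℕ) [NeZero n] (A : Finset (ZMod n)),
      (A.card : ℝ) < C₁⁻¹ * n → ((A + A).card : ℝ) < (3 - ε) * A.card →
      ∃ (H : AddSubgroup (ZMod n)) (P : Set (ZMod n ⧸ H)), H ≠ ⊤ ∧
        (∀ a ∈ A, (QuotientAddGroup.mk a : ZMod n ⧸ H) ∈ P) ∧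
        (((P + P).ncard : ℤ) - P.ncard) * Nat.card H ≤ ((A + A).card : ℤ) - A.card ∧
        (P + P).ncard * A.card ≤ (A + A).card * P.ncard ∧
        ((P.ncard : ℝ) ≤ 3 / ε ∨ (2 ≤ P.ncard ∧ ∃ k : ℕ, IsAPk P k)) ∧
        (P.ncard : ℝ) * Nat.card H ≤ C₁ * A.card) ∧
    (∀ (n : ℕ) [NeZero n] (A : Finset (ZMod n)), A.Nonempty → (A + A).card ≤ 3 * A.card →
      (∃ (H : AddSubgroup (ZMod n)) (x : ZMod n), (∀ a ∈ A, a - x ∈ H) ∧
        (Nat.card H : ℝ) ≤ C₁ * A.card) ∨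
      (∃ (H : AddSubgroup (ZMod n)) (P : Set (ZMod n ⧸ H)) (k : ℕ), 2 ≤ P.ncard ∧ IsAPk P k ∧
        (∀ a ∈ A, (QuotientAddGroup.mk a : ZMod n ⧸ H) ∈ P) ∧
        ((k : ℤ) - 1) * Nat.card H ≤ ((A + A).card : ℤ) - A.card) ∨
      (∃ (H : AddSubgroup (ZMod n)) (P : Set (ZMod n ⧸ H)),
        P = {x | ∃ a ∈ A, (QuotientAddGroup.mk a : ZMod n ⧸ H) = x} ∧ 2 ≤ P.ncard ∧
        3 * P.ncard ≤ (P + P).ncard + 3 ∧
        (((P + P).ncard : ℤ) - P.ncard) * Nat.card H ≤ ((A + A).card : ℤ) - A.card)) := by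
  obtain ⟨C, hC, h1⟩ := q1 hQQ
  obtain ⟨C', hC', h2⟩ := fin_main hQQ
  refine ⟨max C C', by positivity, ?_, ?_⟩
  · intro ε hε n _ A hAn hAA
    have hA0 : (0 : ℝ) ≤ A.card := by positivity
    have hle : C ≤ max C C' := le_max_left _ _
    have hinv : (max C C')⁻¹ * (n : ℝ) ≤ C⁻¹ * n :=
      mul_le_mul_of_nonneg_right (inv_anti₀ hC hle) (by positivity)
    obtain ⟨H, P, g1, g2, g3, g4, g5, g6⟩ := q1_eps (fun hA hAA' => h1 n A (by linarith) hA hAA')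
      hε hAA
    exact ⟨H, P, g1, g2, g3, g4, g5, g6.trans (mul_le_mul_of_nonneg_right hle hA0)⟩
  · intro n _ A hA hAA
    have hA0 : (0 : ℝ) ≤ A.card := by positivity
    have hle : C' ≤ max C C' := le_max_right _ _
    rcases tri_pub (h2 n A hA hAA) with ⟨H, x, g1, g2⟩ | g | g
    · exact Or.inl ⟨H, x, g1, g2.trans (mul_le_mul_of_nonneg_right hle hA0)⟩
    · exact Or.inr (Or.inl g)
    · exact Or.inr (Or.inr g)

end Pool.Agent.Lib.MP_09e095_co.Fin
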