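import Mathlib
import Pool.Agent.Lib.MP_09e095_co.KneserStrong

/-!
MP_09e095_co, multi-layer theorem: interface definitions.
-/

set_option autoImplicit false

open Finset
open scoped Pointwise

namespace Pool.Agent.Lib.MP_09e095_co

/-- what is known about the image `B` of `A` in `Γ/N` -/
structure HW {H : Type*} [AddCommGroup H] (B : Finset H) : Prop where
  three : 3 ≤ B.card
  h1 : ∀ S : AddSubgroup H, (∀ b ∈ B, ∀ b' ∈ B, b - b' ∈ S) → 2 * B.card ≤ Nat.card S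
  h2 : ∀ S : AddSubgroup H, S ≠ ⊥ → 2 * B.card + Nat.card S ≤ 2 * (Nat.card S * nc S B)
  h3 : ∀ S : AddSubgroup H, nc S B = 2 → ∀ b ∈ B, ∀ b' ∈ B, (b - b') + (b - b') ∈ S

/-- what is known about the sizes `p r` of the strips, `r ∈ B` -/
def SD {H : Type*} (B : Finset H) (p : H → ℕ) : Prop :=
  ∃ (lam : ℕ) (e x : H → ℕ), 2 ≤ lam ∧ (∀ r ∈ B, x r ≤ 1) ∧ (∀ r ∈ B, p r + e r = lam + x r) ∧
    2 * (∑ r ∈ B, e r) + 1 ≤ lam ∧ ∃ r ∈ B, x r = 1

/-- the three possible conclusions for the set `P` of `L`-cells of `A` (used by `MLTransfer`) -/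
def PGood {Q : Type*} [AddCommGroup Q] [DecidableEq Q] (P : Finset Q) : Prop :=
  (∀ F ⊆ P, F.Nonempty → 3 * F.card ≤ (F + P).card) ∨
  (3 * P.card ≤ (P + P).card + 1 ∧
    ∀ F ⊆ P, F.Nonempty → F ≠ P → 3 * F.card + 1 ≤ (F + P).card) ∨
  (3 * P.card ≤ (P + P).card + 2 ∧
    ∀ F ⊆ P, F.Nonempty → F.card + 3 ≤ P.card → 3 * F.card + 2 ≤ (F + P).card)

end Pool.Agent.Lib.MP_09e095_co
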