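import Mathlib
import Pool.Agent.Lib.MP_09e095_co.QBasic
import Pool.Agent.Lib.MP_09e095_co.MLDefs

/-!
MP_09e095_co : (T1) consequences of the hypothesis `HW` on the set of strips.
-/

set_option autoImplicit false

open Finset
open scoped Pointwise

namespace Pool.Agent.Lib.MP_09e095_co.ML

open Pool.Agent.Lib.MP_09e095_co

variable {H : Type*} [AddCommGroup H] [DecidableEq H] [Finite H]

/-- the consequences of `HW B` that are used: (h1), (h2) and (h1)+(h3) -/
structure HW' (B : Finset H) : Prop where
  three : 3 ≤ B.card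
  h1 : ∀ S : AddSubgroup H, nc S B = 1 → 2 * B.card ≤ Nat.card S
  h2 : ∀ S : AddSubgroup H, S ≠ ⊥ → 2 * B.card + Nat.card S ≤ 2 * (Nat.card S * nc S B)
  h3 : ∀ S : AddSubgroup H, nc S B = 2 → B.card ≤ Nat.card S

/-- the witness data -/
def Kap (F B : Finset H) : Prop := (F + B).card + 2 ≤ F.card + B.card

omit [DecidableEq H] in
theorem card_pos_sub (S : AddSubgroup H) : 0 < Nat.card S := natCard_pos (Set.toFinite _)

omit [DecidableEq H] in
theorem two_le_card {S : AddSubgroup H} (hS : S ≠ ⊥) : 2 ≤ Nat.card S := by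
  have h1 := card_pos_sub S
  have h2 : Nat.card S ≠ 1 := fun h => hS (AddSubgroup.card_eq_one.1 h)
  omega

theorem HW'.kappa {B : Finset H} (hB : HW' B) {F : Finset H} (hF : F.Nonempty) (hFB : F ⊆ B)
    (hk : (F + B).card + 2 ≤ F.card + B.card) :
    ∃ S : AddSubgroup H, S = stb (F + B) ∧ S ≠ ⊥ ∧ 4 ≤ Nat.card S ∧ 3 ≤ nc S B ∧
      nc S F + 1 ≤ nc S B ∧
      Nat.card S * nc S F + Nat.card S * nc S B = (F + B).card + Nat.card S ∧
      Nat.card S * nc S F + Nat.card S * nc S B + 2 ≤ Nat.card S + F.card + B.card := by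
  have hBn : B.Nonempty := hF.mono hFB
  have htight := kneser_tight F B hF hBn (by omega)
  set S := stb (F + B) with hS
  have hSf : (S : Set H).Finite := Set.toFinite _
  have hSbot : S ≠ ⊥ := by
    intro h
    rw [h, nc_bot, nc_bot, AddSubgroup.card_bot] at htight
    omega
  have hB2 := hB.h2 S hSbot
  have hFle := card_le_mul_nc hSf F
  have hBle := card_le_mul_nc hSf B
  have hFc := Finset.card_le_card hFB
  have hFnc : nc S F ≤ nc S B := nc_mono hFB
  have hF1 := nc_pos (V := S) hF
  have hB1 := nc_pos (V := S) hBn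
  have hSpos := card_pos_sub S
  have h4 : 4 ≤ Nat.card S := by
    by_contra hc
    omega
  have hlt : nc S F + 1 ≤ nc S B := by
    by_contra hc
    have he : nc S F = nc S B := by omega
    rw [he] at htight hFle
    omega
  have h3 : 3 ≤ nc S B := by
    by_contra hc
    have h2 : nc S B = 2 := by omega
    have h1 : nc S F = 1 := by omega
    have := hB.h3 S h2
    rw [h1, h2] at htight
    rw [h1] at hFle
    omega
  exact ⟨S, rfl, hSbot, h4, h3, hlt, htight, by omega⟩

theorem HW'.e0 {B : Finset H} (hB : HW' B) {F : Finset H} (hF : F.Nonempty) (hFB : F ⊆ B)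
    (hne : F ≠ B) : 2 * F.card ≤ (F + B).card := by
  have hlt : F.card < B.card := Finset.card_lt_card (Finset.ssubset_iff_subset_ne.2 ⟨hFB, hne⟩)
  by_cases hk : (F + B).card + 2 ≤ F.card + B.card
  · obtain ⟨S, _, hSbot, h4, h3, hlt', ht, h5⟩ := hB.kappa hF hFB hk
    have h6 := card_le_mul_nc (V := S) (Set.toFinite _) F
    have h7 := Nat.mul_le_mul_left (Nat.card S) hlt'
    rw [mul_add, mul_one] at h7
    omega
  · omega

theorem HW'.e1 {B : Finset H} (hB : HW' B) : 2 * B.card ≤ (B + B).card + 1 := by
  by_contra hc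
  have hBn : B.Nonempty := Finset.card_pos.1 (by have := hB.three; omega)
  obtain ⟨S, _, hSbot, h4, h3, hlt', ht, h5⟩ := hB.kappa hBn (Finset.Subset.refl B) (by omega)
  omega

theorem HW'.k10 {B : Finset H} (hB : HW' B) {F : Finset H} (hF : F.Nonempty) (hFB : F ⊆ B)
    (hk : (F + B).card + 2 ≤ F.card + B.card) : 10 ≤ B.card := by
  obtain ⟨S, _, hSbot, h4, h3, hlt', ht, h5⟩ := hB.kappa hF hFB hk
  have h6 := card_le_mul_nc (V := S) (Set.toFinite _) F
  have h7 := Nat.mul_le_mul_left (Nat.card S) h3
  omega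

/-- a set with `|2T| = |T|` is a coset of its stabiliser -/
theorem coset_of_card {T : Finset H} (hT : T.Nonempty) (h : (T + T).card ≤ T.card) :
    ∃ S : AddSubgroup H, Nat.card S = T.card ∧ InCoset S T ∧
      ∀ B : Finset H, (T + B).card = Nat.card S * nc S B := by
  classical
  have heq : ∀ p ∈ T, T.image (fun q => p + q) = T + T := by
    intro p hp
    apply Finset.eq_of_subset_of_card_le
    · intro z hz
      obtain ⟨q, hq, rfl⟩ := Finset.mem_image.1 hz
      exact Finset.add_mem_add hp hq
    · rw [Finset.card_image_of_injective _ (add_right_injective p)]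
      exact h
  have hdiff : ∀ p ∈ T, ∀ q ∈ T, ∀ x ∈ T, (p - q) + x ∈ T := by
    intro p hp q hq x hx
    have h1 : p + x ∈ T.image (fun y => q + y) := by
      rw [heq q hq]; exact Finset.add_mem_add hp hx
    obtain ⟨y, hy, hxy⟩ := Finset.mem_image.1 h1
    have : (p - q) + x = y := by
      have : y = (q + y) - q := by abel
      rw [this, hxy]; abel
    rw [this]; exact hy
  set S := stb T with hS
  have hin : InCoset S T := by
    intro p hp q hq x
    constructor
    · exact hdiff p hp q hq x
    · intro hx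
      have := hdiff q hq p hp _ hx
      have h2 : q - p + (p - q + x) = x := by abel
      rwa [h2] at this
  have hcard := card_stb T hT
  rw [← hS, hin.nc_eq_one hT, mul_one] at hcard
  refine ⟨S, hcard.symm, hin, ?_⟩
  intro B
  have hst : ∀ v ∈ S, ∀ x ∈ T + B, v + x ∈ T + B := by
    intro v hv x hx
    obtain ⟨a, ha, b, hb, rfl⟩ := Finset.mem_add.1 hx
    have : v + (a + b) = (v + a) + b := by abel
    rw [this]
    exact Finset.add_mem_add ((hv a).1 ha) hb
  rw [card_of_stable (Set.toFinite _) hst]
  congr 1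
  obtain ⟨t, ht⟩ := hT
  unfold nc
  apply le_antisymm
  · have : cl S (T + B) ⊆ (cl S B).image (fun θ => (QuotientAddGroup.mk t : H ⧸ S) + θ) := by
      intro σ hσ
      obtain ⟨θ, hθ, θ', hθ', rfl⟩ := cl_add hσ
      obtain ⟨x, hx, rfl⟩ := mem_cl.1 hθ
      rw [Finset.mem_image]
      refine ⟨θ', hθ', ?_⟩
      rw [mk_eq_of_sub_mem (hin t ht x hx)]
    exact (Finset.card_le_card this).trans Finset.card_image_le
  · apply Finset.card_le_card_of_injOn (fun θ => (QuotientAddGroup.mk t : H ⧸ S) + θ)
    · intro θ hθ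
      exact add_mem_cl (mk_mem_cl ht) hθ
    · intro x _ y _ hxy
      exact add_left_cancel hxy

theorem HW'.psi1 {B : Finset H} (hB : HW' B) {T : Finset H} (hT : T.Nonempty) (hTB : T ⊆ B)
    (hne : T ≠ B) : 3 * T.card + 1 ≤ (T + B).card + (T + T).card := by
  have hlt : T.card < B.card := Finset.card_lt_card (Finset.ssubset_iff_subset_ne.2 ⟨hTB, hne⟩)
  have h0 := hB.e0 hT hTB hne
  have h1 : T.card ≤ (T + T).card := Finset.card_le_card_add_right hT
  by_contra hc
  obtain ⟨S, hS, hin, hst⟩ := coset_of_card hT (by omega)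
  have h2 := hst B
  have h3 : Nat.card S * nc S B = Nat.card S * 2 := by omega
  have h4 : nc S B = 2 := Nat.eq_of_mul_eq_mul_left (card_pos_sub S) h3
  have h5 := hB.h3 S h4
  omega

/-- `|2T| ≤ |T| + 2`, `|T| ≥ 5` or `|2T| ≤ |T| + 1`, `|T| ≥ 3`: then `2T` is one coset of `U` -/
theorem one_coset {T : Finset H} (hT : T.Nonempty)
    (h : (2 ≤ T.card ∧ (T + T).card ≤ T.card + 1 ∧ T.card ≠ 2) ∨
      ((T + T).card ≤ T.card + 2 ∧ 5 ≤ T.card)) :
    ∃ U : AddSubgroup H, InCoset U T ∧ Nat.card U = (T + T).card := by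
  have htight := kneser_tight T T hT hT (by omega)
  set U := stb (T + T) with hU
  have hTle := card_le_mul_nc (V := U) (Set.toFinite _) T
  have hpos := nc_pos (V := U) hT
  have hst := card_stb (T + T) (hT.add hT)
  rw [← hU] at hst
  have h1 : nc U T = 1 := by
    by_contra hc
    have h2 : 2 ≤ nc U T := by omega
    have h3 := Nat.mul_le_mul_left (Nat.card U) h2
    omega
  rw [h1] at htight
  exact ⟨U, inCoset_of_nc_eq_one h1, by omega⟩

/-- `|T + B| ≥ |2T| + (c - 1) |T|` when `T ⊆ B` lies in one coset of `U` and `c = nc U B` -/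
theorem card_add_ge {U : AddSubgroup H} {T B : Finset H} (hT : T.Nonempty) (hTB : T ⊆ B)
    (hin : InCoset U T) : (T + T).card + nc U B * T.card ≤ (T + B).card + T.card := by
  classical
  obtain ⟨t, ht⟩ := hT
  have htB : (QuotientAddGroup.mk t : H ⧸ U) ∈ cl U B := mk_mem_cl (hTB ht)
  set Θ : Finset (H ⧸ U) := (cl U B).image (fun θ => (QuotientAddGroup.mk t : H ⧸ U) + θ) with hΘ
  have hinj : Function.Injective (fun θ : H ⧸ U => (QuotientAddGroup.mk t : H ⧸ U) + θ) :=
    add_right_injective _
  have hfbT : T ⊆ fb U T (QuotientAddGroup.mk t) := by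
    intro x hx
    exact mem_fb.2 ⟨hx, mk_eq_of_sub_mem (hin x hx t ht)⟩
  have hfbT' : T ⊆ fb U B (QuotientAddGroup.mk t) := by
    intro x hx
    exact mem_fb.2 ⟨hTB hx, mk_eq_of_sub_mem (hin x hx t ht)⟩
  have hsub : cl U (T + B) ⊇ Θ := by
    intro σ hσ
    obtain ⟨θ, hθ, rfl⟩ := Finset.mem_image.1 hσ
    exact add_mem_cl (mk_mem_cl ht) hθ
  have h1 : ∑ σ ∈ Θ, (fb U (T + B) σ).card ≤ (T + B).card := by
    rw [card_eq_sum_fb (V := U) (T + B) (le_refl _)]
    exact Finset.sum_le_sum_of_subset hsub
  rw [hΘ, Finset.sum_image (fun x _ y _ h => hinj h)] at h1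
  have h2 : ∀ θ ∈ cl U B, T.card ≤ (fb U (T + B) ((QuotientAddGroup.mk t : H ⧸ U) + θ)).card := by
    intro θ hθ
    refine le_trans ?_ (Finset.card_le_card (fb_add_subset (A := T) (B := B)))
    refine le_trans (Finset.card_le_card hfbT) ?_
    exact Finset.card_le_card_add_right (fb_nonempty_iff.2 hθ)
  have h3 : (T + T).card ≤ (fb U (T + B)
      ((QuotientAddGroup.mk t : H ⧸ U) + QuotientAddGroup.mk t)).card := by
    refine le_trans ?_ (Finset.card_le_card (fb_add_subset (A := T) (B := B)))
    exact Finset.card_le_card (Finset.add_subset_add hfbT hfbT')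
  rw [← Finset.add_sum_erase _ _ htB] at h1
  have h4 : ∑ _θ ∈ (cl U B).erase (QuotientAddGroup.mk t), T.card ≤
      ∑ θ ∈ (cl U B).erase (QuotientAddGroup.mk t),
        (fb U (T + B) ((QuotientAddGroup.mk t : H ⧸ U) + θ)).card :=
    Finset.sum_le_sum (fun θ hθ => h2 θ (Finset.mem_of_mem_erase hθ))
  rw [Finset.sum_const, smul_eq_mul] at h4
  have h5 : ((cl U B).erase (QuotientAddGroup.mk t)).card + 1 = nc U B :=
    Finset.card_erase_add_one htB
  have h6 : nc U B * T.card =
      ((cl U B).erase (QuotientAddGroup.mk t)).card * T.card + T.card := by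
    rw [← h5]; ring
  omega

theorem HW'.psi2 {B : Finset H} (hB : HW' B) (hm : 4 ≤ B.card) {T : Finset H}
    (hT : T.Nonempty) (hTB : T ⊆ B) (hne : T ≠ B) :
    3 * T.card + 2 ≤ (T + B).card + (T + T).card := by
  classical
  have hlt : T.card < B.card := Finset.card_lt_card (Finset.ssubset_iff_subset_ne.2 ⟨hTB, hne⟩)
  have h0 := hB.e0 hT hTB hne
  have h1 : T.card ≤ (T + T).card := Finset.card_le_card_add_right hT
  have hTB' : B.card ≤ (T + B).card := Finset.card_le_card_add_left hT
  have hTpos := Finset.card_pos.2 hT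
  by_contra hc
  by_cases hcase : (T + T).card ≤ T.card
  · obtain ⟨S, hS, hin, hst⟩ := coset_of_card hT hcase
    have h2 := hst B
    have hSpos := card_pos_sub S
    have h3 : nc S B ≠ 2 := by
      intro h
      have := hB.h3 S h
      omega
    have h4 : 2 ≤ nc S B := by
      by_contra h
      have := Nat.mul_le_mul_left (Nat.card S) (show nc S B ≤ 1 by omega)
      omega
    have h5 := Nat.mul_le_mul_left (Nat.card S) (show 3 ≤ nc S B by omega)
    omega
  · have h2T : (T + T).card = T.card + 1 := by omega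
    have hTT : (T + T).card ≤ T.card * T.card := Finset.card_add_le
    have hT2 : 2 ≤ T.card := by
      by_contra h
      have h' : T.card = 1 := by omega
      rw [h', h2T, h'] at hTT
      omega
    by_cases hT2' : T.card = 2
    · -- `T + B = t + B`
      have hBc : (T + B).card = B.card := by omega
      have heq : ∀ t ∈ T, B.image (fun q => t + q) = T + B := by
        intro t ht
        apply Finset.eq_of_subset_of_card_le
        · intro z hz
          obtain ⟨q, hq, rfl⟩ := Finset.mem_image.1 hz
          exact Finset.add_mem_add ht hq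
        · rw [Finset.card_image_of_injective _ (add_right_injective t)]
          omega
      have hst : ∀ p ∈ T, ∀ q ∈ T, ∀ x ∈ B, (p - q) + x ∈ B := by
        intro p hp q hq x hx
        have h1 : p + x ∈ B.image (fun y => q + y) := by
          rw [heq q hq]; exact Finset.add_mem_add hp hx
        obtain ⟨y, hy, hxy⟩ := Finset.mem_image.1 h1
        have : (p - q) + x = y := by
          have : y = (q + y) - q := by abel
          rw [this, hxy]; abel
        rw [this]; exact hy
      obtain ⟨p, hp, q, hq, hpq⟩ := Finset.one_lt_card.1 (show 1 < T.card by omega)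
      have hmem : p - q ∈ stb B := by
        intro x
        constructor
        · exact hst p hp q hq x
        · intro hx
          have := hst q hq p hp _ hx
          have h2 : q - p + (p - q + x) = x := by abel
          rwa [h2] at this
      have hbot : stb B ≠ ⊥ := by
        intro h
        rw [h, AddSubgroup.mem_bot, sub_eq_zero] at hmem
        exact hpq hmem
      have h2 := hB.h2 (stb B) hbot
      have h3 := card_stb B (hT.mono hTB)
      have h4 := card_pos_sub (stb B)
      omega
    · obtain ⟨U, hin, hU⟩ := one_coset hT (Or.inl ⟨hT2, by omega, hT2'⟩)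
      have hge := card_add_ge hT hTB hin
      have hnc1 : nc U B ≠ 1 := by
        intro h
        have := hB.h1 U h
        omega
      have hncpos := nc_pos (V := U) (hT.mono hTB)
      have := Nat.mul_le_mul_right T.card (show 2 ≤ nc U B by omega)
      omega

theorem HW'.psi3 {B : Finset H} (hB : HW' B) {F : Finset H} (hF : F.Nonempty) (hFB : F ⊆ B)
    (hk : (F + B).card + 2 ≤ F.card + B.card) {T : Finset H}
    (hT : T.Nonempty) (hTB : T ⊆ B) (hne : T ≠ B) :
    3 * T.card + 3 ≤ (T + B).card + (T + T).card := by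
  classical
  have hlt : T.card < B.card := Finset.card_lt_card (Finset.ssubset_iff_subset_ne.2 ⟨hTB, hne⟩)
  have h0 := hB.e0 hT hTB hne
  have h1 : T.card ≤ (T + T).card := Finset.card_le_card_add_right hT
  have hTB' : B.card ≤ (T + B).card := Finset.card_le_card_add_left hT
  have hTpos := Finset.card_pos.2 hT
  have hm := hB.k10 hF hFB hk
  obtain ⟨S, _, hSbot, hS4, hS3, _, _, hS⟩ := hB.kappa hF hFB hk
  have hFle := card_le_mul_nc (V := S) (Set.toFinite _) F
  by_contra hc
  have hT4 : 4 ≤ T.card := by omega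
  by_cases hT4' : T.card = 4
  · obtain ⟨S', hS', hin, hst⟩ := coset_of_card hT (by omega)
    have h2 := hst B
    rw [hS', hT4'] at h2
    omega
  · obtain ⟨U, hin, hU⟩ := one_coset hT (Or.inr ⟨by omega, by omega⟩)
    have hge := card_add_ge hT hTB hin
    have hnc1 : nc U B ≠ 1 := by
      intro h
      have := hB.h1 U h
      omega
    have hncpos := nc_pos (V := U) (hT.mono hTB)
    have hnc3 : nc U B ≤ 2 := by
      by_contra h
      have := Nat.mul_le_mul_right T.card (show 3 ≤ nc U B by omega)
      omega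
    have hnc2 : nc U B = 2 := by omega
    have hUm := hB.h3 U hnc2
    obtain ⟨t, ht⟩ := hT
    have htB : (QuotientAddGroup.mk t : H ⧸ U) ∈ cl U B := mk_mem_cl (hTB ht)
    -- the two parts
    set B1 := fb U B (QuotientAddGroup.mk t) with hB1
    have hTB1 : T ⊆ B1 := by
      intro x hx
      exact mem_fb.2 ⟨hTB hx, mk_eq_of_sub_mem (hin x hx t ht)⟩
    have hTB1c := Finset.card_le_card hTB1
    have hB1c := card_fb_le (V := U) (Set.toFinite _) B (QuotientAddGroup.mk t)
    have he : ((cl U B).erase (QuotientAddGroup.mk t)).card = 1 := by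
      have h5 : ((cl U B).erase (QuotientAddGroup.mk t)).card + 1 = nc U B :=
        Finset.card_erase_add_one htB
      omega
    obtain ⟨θ, hθ⟩ := Finset.card_eq_one.1 he
    have hθm : θ ∈ cl U B := by
      have : θ ∈ (cl U B).erase (QuotientAddGroup.mk t) := by
        rw [hθ]; exact Finset.mem_singleton_self _
      exact Finset.mem_of_mem_erase this
    set B2 := fb U B θ with hB2
    have hsum : B.card = B1.card + B2.card := by
      rw [card_eq_sum_fb (V := U) B (le_refl _), ← Finset.add_sum_erase _ _ htB, hθ,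
        Finset.sum_singleton]
    have hB2pos : 0 < B2.card := Finset.card_pos.2 (fb_nonempty_iff.2 hθm)
    by_cases hSU : S ≤ U
    · have hncsum : nc S B = nc S B1 + nc S B2 := by
        rw [nc_eq_sum_fb hSU B (le_refl _), ← Finset.add_sum_erase _ _ htB, hθ,
          Finset.sum_singleton]
      have hB1le := card_le_mul_nc (V := S) (Set.toFinite _) B1
      have hB2pos' : 0 < nc S B2 := nc_pos (fb_nonempty_iff.2 hθm)
      have hB2le := Nat.mul_le_mul_left (Nat.card S) (show 1 ≤ nc S B2 from hB2pos')
      rw [hncsum, mul_add] at hS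
      have heq : B1.card = Nat.card S * nc S B1 := by omega
      have hd1 : Nat.card S ∣ B1.card := ⟨_, heq⟩
      have hd2 : Nat.card S ∣ Nat.card U := natCard_dvd hSU
      have hd3 : Nat.card S ∣ Nat.card U - B1.card := Nat.dvd_sub hd2 hd1
      have h7 : Nat.card U - B1.card = 2 := by omega
      rw [h7] at hd3
      have := Nat.le_of_dvd (by omega) hd3
      omega
    · have hinf : Nat.card (U ⊓ S : AddSubgroup H) * 2 ≤ Nat.card S := by
        have hlt' : Nat.card (U ⊓ S : AddSubgroup H) < Nat.card S := by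
          apply natCard_lt (Set.toFinite _) inf_le_right
          intro h
          apply hSU
          rw [← h]; exact inf_le_left
        obtain ⟨k, hk'⟩ := natCard_dvd (inf_le_right : U ⊓ S ≤ S)
        have hk2 : 2 ≤ k := by
          by_contra hk3
          have := Nat.mul_le_mul_left (Nat.card (U ⊓ S : AddSubgroup H)) (show k ≤ 1 by omega)
          omega
        rw [hk']
        exact Nat.mul_le_mul_left _ hk2
      have hB1' := card_le_inf_mul_nc (L := U) (R := S) (Set.toFinite _) (inCoset_fb U B
        (QuotientAddGroup.mk t))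
      rw [← hB1] at hB1'
      have hmono : nc S B1 ≤ nc S B := nc_mono fb_subset
      have h8 : Nat.card (U ⊓ S : AddSubgroup H) * nc S B1 * 2 ≤ Nat.card S * nc S B := by
        calc Nat.card (U ⊓ S : AddSubgroup H) * nc S B1 * 2
            = Nat.card (U ⊓ S : AddSubgroup H) * 2 * nc S B1 := by ring
          _ ≤ Nat.card S * nc S B1 := Nat.mul_le_mul_right _ hinf
          _ ≤ Nat.card S * nc S B := Nat.mul_le_mul_left _ hmono
      have h9 := Nat.mul_le_mul_left (Nat.card S) hS3
      omega

omit [DecidableEq H] in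
/-- (h1) and (h3) give `|B| ≤ |S|` when `B` meets exactly two cosets of `S` -/
theorem card_le_of_two {B : Finset H} (hB : HW B) (S : AddSubgroup H) (h2 : nc S B = 2) :
    B.card ≤ Nat.card S := by
  classical
  obtain ⟨θ0, θ1, hne, hcl⟩ := Finset.card_eq_two.1 (show (cl S B).card = 2 from h2)
  have m0 : θ0 ∈ cl S B := by rw [hcl]; simp
  have m1 : θ1 ∈ cl S B := by rw [hcl]; simp
  obtain ⟨b0, hb0, rfl⟩ := mem_cl.1 m0
  obtain ⟨b1, hb1, rfl⟩ := mem_cl.1 m1
  set d := b0 - b1 with hd
  have h2d : d + d ∈ S := hB.h3 S h2 b0 hb0 b1 hb1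
  let S' : AddSubgroup H :=
    { carrier := {x | x ∈ S ∨ x - d ∈ S}
      zero_mem' := Or.inl S.zero_mem
      add_mem' := by
        intro x y hx hy
        rcases hx with hx | hx <;> rcases hy with hy | hy
        · exact Or.inl (S.add_mem hx hy)
        · right
          have : x + y - d = x + (y - d) := by abel
          rw [this]; exact S.add_mem hx hy
        · right
          have : x + y - d = (x - d) + y := by abel
          rw [this]; exact S.add_mem hx hy
        · left
          have : x + y = (x - d) + (y - d) + (d + d) := by abel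
          rw [this]; exact S.add_mem (S.add_mem hx hy) h2d
      neg_mem' := by
        intro x hx
        rcases hx with hx | hx
        · exact Or.inl (S.neg_mem hx)
        · right
          have : -x - d = -(x - d) - (d + d) := by abel
          rw [this]; exact S.sub_mem (S.neg_mem hx) h2d }
  have hS' : ∀ x, x ∈ S' ↔ (x ∈ S ∨ x - d ∈ S) := fun x => Iff.rfl
  have hcard : Nat.card S' ≤ 2 * Nat.card S := by
    have hf : (S : Set H).Finite := Set.toFinite _
    have hf' : (S' : Set H).Finite := Set.toFinite _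
    rw [natCard_eq hf, natCard_eq hf']
    have : hf'.toFinset ⊆ hf.toFinset ∪ hf.toFinset.image (fun x => x + d) := by
      intro x hx
      rw [Set.Finite.mem_toFinset, SetLike.mem_coe, hS'] at hx
      rw [Finset.mem_union]
      rcases hx with hx | hx
      · left; simpa using hx
      · right
        rw [Finset.mem_image]
        exact ⟨x - d, by simpa using hx, by abel⟩
    refine (Finset.card_le_card this).trans ((Finset.card_union_le _ _).trans ?_)
    have := Finset.card_image_le (s := hf.toFinset) (f := fun x => x + d)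
    omega
  have hin : ∀ b ∈ B, ∀ b' ∈ B, b - b' ∈ S' := by
    have hone : ∀ b ∈ B, b - b1 ∈ S' := by
      intro b hb
      have : (QuotientAddGroup.mk b : H ⧸ S) ∈ cl S B := mk_mem_cl hb
      rw [hcl, Finset.mem_insert, Finset.mem_singleton] at this
      rw [hS']
      rcases this with h | h
      · right
        have h3 := sub_mem_of_mk_eq h
        have : b - b1 - d = b - b0 := by rw [hd]; abel
        rw [this]; exact h3
      · left
        exact sub_mem_of_mk_eq h
    intro b hb b' hb'
    have : b - b' = (b - b1) - (b' - b1) := by abel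
    rw [this]
    exact S'.sub_mem (hone b hb) (hone b' hb')
  have := hB.h1 S' hin
  omega

omit [DecidableEq H] in
theorem HW'.of_HW {B : Finset H} (hB : HW B) : HW' B where
  three := hB.three
  h1 := fun S h => hB.h1 S (inCoset_of_nc_eq_one h)
  h2 := hB.h2
  h3 := card_le_of_two hB

end Pool.Agent.Lib.MP_09e095_co.ML

namespace Pool.Agent.Lib.MP_09e095_co

open ML

variable {H : Type*} [AddCommGroup H] [DecidableEq H] [Finite H]

theorem hw_kappa {B : Finset H} (hB : HW B) {F : Finset H} (hF : F.Nonempty) (hFB : F ⊆ B)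
    (hk : (F + B).card + 2 ≤ F.card + B.card) :
    ∃ S : AddSubgroup H, S = stb (F + B) ∧ S ≠ ⊥ ∧ 4 ≤ Nat.card S ∧ 3 ≤ nc S B ∧
      nc S F + 1 ≤ nc S B ∧
      Nat.card S * nc S F + Nat.card S * nc S B = (F + B).card + Nat.card S ∧
      Nat.card S * nc S F + Nat.card S * nc S B + 2 ≤ Nat.card S + F.card + B.card :=
  (HW'.of_HW hB).kappa hF hFB hk

theorem hw_E0 {B : Finset H} (hB : HW B) {F : Finset H} (hF : F.Nonempty) (hFB : F ⊆ B)
    (hne : F ≠ B) : 2 * F.card ≤ (F + B).card := (HW'.of_HW hB).e0 hF hFB hne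

theorem hw_E1 {B : Finset H} (hB : HW B) : 2 * B.card ≤ (B + B).card + 1 :=
  (HW'.of_HW hB).e1

theorem hw_k10 {B : Finset H} (hB : HW B) {F : Finset H} (hF : F.Nonempty) (hFB : F ⊆ B)
    (hk : (F + B).card + 2 ≤ F.card + B.card) : 10 ≤ B.card := (HW'.of_HW hB).k10 hF hFB hk

theorem hw_psi1 {B : Finset H} (hB : HW B) {T : Finset H} (hT : T.Nonempty) (hTB : T ⊆ B)
    (hne : T ≠ B) : 3 * T.card + 1 ≤ (T + B).card + (T + T).card :=
  (HW'.of_HW hB).psi1 hT hTB hne

theorem hw_psi2 {B : Finset H} (hB : HW B) (hm : 4 ≤ B.card) {T : Finset H} (hT : T.Nonempty)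
    (hTB : T ⊆ B) (hne : T ≠ B) : 3 * T.card + 2 ≤ (T + B).card + (T + T).card :=
  (HW'.of_HW hB).psi2 hm hT hTB hne

theorem hw_psi3 {B : Finset H} (hB : HW B) {F : Finset H} (hF : F.Nonempty) (hFB : F ⊆ B)
    (hk : (F + B).card + 2 ≤ F.card + B.card) {T : Finset H} (hT : T.Nonempty)
    (hTB : T ⊆ B) (hne : T ≠ B) : 3 * T.card + 3 ≤ (T + B).card + (T + T).card :=
  (HW'.of_HW hB).psi3 hF hFB hk hT hTB hne

end Pool.Agent.Lib.MP_09e095_co
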