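import Mathlib
import Pool.Agent.Lib.MP_09e095_co.QStepC

/-!
MP_09e095_co : transfer of an inequality from the image of `A` in the quotient by a finite
subgroup `L` to `A`, by level sets.
-/

set_option autoImplicit false

open Finset
open scoped Pointwise

namespace Pool.Agent.Lib.MP_09e095_co

variable {G : Type*} [AddCommGroup G]

/-- the level sets : the `L`-cosets in which `A` has at least `t` elements -/
noncomputable def lev (L : AddSubgroup G) (A : Finset G) (t : ℕ) : Finset (G ⧸ L) :=
  (cl L A).filter (fun p => t ≤ (fb L A p).card)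

theorem mem_lev {L : AddSubgroup G} {A : Finset G} {t : ℕ} {p : G ⧸ L} :
    p ∈ lev L A t ↔ p ∈ cl L A ∧ t ≤ (fb L A p).card := by
  unfold lev; rw [Finset.mem_filter]

theorem lev_subset {L : AddSubgroup G} {A : Finset G} {t : ℕ} : lev L A t ⊆ cl L A :=
  Finset.filter_subset _ _

/-- the number of elements from the level sets -/
theorem card_eq_sum_lev {L : AddSubgroup G} (hL : (L : Set G).Finite) (A : Finset G) :
    A.card = ∑ t ∈ Finset.Icc 1 (Nat.card L), (lev L A t).card := by
  classical
  rw [card_eq_sum_fb (V := L) A (le_refl _)]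
  have h1 : ∀ t ∈ Finset.Icc 1 (Nat.card L), (lev L A t).card =
      ∑ p ∈ cl L A, if t ≤ (fb L A p).card then 1 else 0 := by
    intro t _
    unfold lev
    rw [Finset.card_filter]
  rw [Finset.sum_congr rfl h1, Finset.sum_comm]
  apply Finset.sum_congr rfl
  intro p _
  rw [← Finset.card_filter]
  have : (Finset.Icc 1 (Nat.card L)).filter (fun t => t ≤ (fb L A p).card) =
      Finset.Icc 1 (fb L A p).card := by
    ext t
    rw [Finset.mem_filter, Finset.mem_Icc, Finset.mem_Icc]
    have := card_fb_le hL A p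
    omega
  rw [this, Nat.card_Icc]
  omega

section dec
variable [DecidableEq G]

omit [DecidableEq G] in
/-- lower bound for the sumset by means of a family of sets `E t` of cosets, such that the sum
fibre over a point of `E t` has at least `t` elements -/
theorem sum_le_card {L : AddSubgroup G} {A : Finset G} {n : ℕ} (E : ℕ → Finset (G ⧸ L))
    (hE : ∀ t ∈ Finset.Icc 1 n, ∀ q ∈ E t, t ≤ (fb L A q).card) :
    ∑ t ∈ Finset.Icc 1 n, (E t).card ≤ A.card := by
  classical
  rw [card_eq_sum_fb (V := L) A (le_refl _)]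
  have h1 : ∀ t ∈ Finset.Icc 1 n, (E t).card =
      ∑ q ∈ cl L A, if q ∈ E t then 1 else 0 := by
    intro t ht
    rw [← Finset.card_filter]
    congr 1
    ext q
    rw [Finset.mem_filter]
    constructor
    · intro hq
      refine ⟨?_, hq⟩
      have h2 := hE t ht q hq
      have h3 := (Finset.mem_Icc.1 ht).1
      exact fb_nonempty_iff.1 (Finset.card_pos.1 (by omega))
    · exact fun h => h.2
  rw [Finset.sum_congr rfl h1, Finset.sum_comm]
  apply Finset.sum_le_sum
  intro q _
  rw [← Finset.card_filter]
  calc ((Finset.Icc 1 n).filter (fun t => q ∈ E t)).card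
      ≤ (Finset.Icc 1 (fb L A q).card).card := by
        apply Finset.card_le_card
        intro t ht
        rw [Finset.mem_filter] at ht
        rw [Finset.mem_Icc]
        exact ⟨(Finset.mem_Icc.1 ht.1).1, hE t ht.1 q ht.2⟩
    _ = (fb L A q).card := by rw [Nat.card_Icc]; omega

theorem fb_add_card_ge {L : AddSubgroup G} {A : Finset G} {p p' : G ⧸ L}
    (hp' : p' ∈ cl L A) : (fb L A p).card ≤ (fb L (A + A) (p + p')).card := by
  refine le_trans ?_ (Finset.card_le_card (fb_add_subset (A := A) (B := A)))
  exact Finset.card_le_card_add_right (fb_nonempty_iff.2 hp')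

/-- level `t` of the sumset contains `lev t + P` -/
theorem lev_add_le {L : AddSubgroup G} [DecidableEq (G ⧸ L)] {A : Finset G} {t : ℕ}
    {q : G ⧸ L} (hq : q ∈ lev L A t + cl L A) : t ≤ (fb L (A + A) q).card := by
  obtain ⟨p, hp, p', hp', rfl⟩ := Finset.mem_add.1 hq
  rw [mem_lev] at hp
  exact le_trans hp.2 (fb_add_card_ge hp')

/-- **Transfer, first form.** -/
theorem transfer_three {L : AddSubgroup G} [DecidableEq (G ⧸ L)] (hL : (L : Set G).Finite)
    (A : Finset G)
    (h : ∀ F ⊆ cl L A, F.Nonempty → 3 * F.card ≤ (F + cl L A).card) :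
    3 * A.card ≤ (A + A).card := by
  have h1 := sum_le_card (L := L) (A := A + A) (n := Nat.card L)
    (fun t => lev L A t + cl L A) (fun t _ q hq => lev_add_le hq)
  refine le_trans ?_ h1
  rw [card_eq_sum_lev hL A, Finset.mul_sum]
  apply Finset.sum_le_sum
  intro t _
  rcases (lev L A t).eq_empty_or_nonempty with he | he
  · rw [he]; simp
  · exact h _ lev_subset he

/-- if all fibres have more than `|L| / 2` elements then `2A` is a union of cosets -/
theorem card_add_self_of_large {L : AddSubgroup G} (hL : (L : Set G).Finite) (A : Finset G)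
    (h : ∀ p ∈ cl L A, Nat.card L < 2 * (fb L A p).card) :
    Nat.card L * nc L (A + A) ≤ (A + A).card := by
  rw [card_eq_sum_fb (V := L) (A + A) (le_refl _)]
  have : ∀ σ ∈ cl L (A + A), Nat.card L ≤ (fb L (A + A) σ).card := by
    intro σ hσ
    obtain ⟨θ, hθ, θ', hθ', rfl⟩ := cl_add hσ
    have h1 := h θ hθ
    have h2 := h θ' hθ'
    exact card_fb_add_full hL hθ hθ' (by omega)
  have h2 := Finset.sum_le_sum this
  rw [Finset.sum_const, smul_eq_mul] at h2
  have h3 : (cl L (A + A)).card = nc L (A + A) := rfl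
  rw [h3, mul_comm] at h2
  exact h2

/-- the large fibres -/
noncomputable def big (L : AddSubgroup G) (A : Finset G) : Finset (G ⧸ L) :=
  lev L A (Nat.card L / 2 + 1)

omit [DecidableEq G] in
theorem mem_big {L : AddSubgroup G} {A : Finset G} {p : G ⧸ L} :
    p ∈ big L A ↔ p ∈ cl L A ∧ Nat.card L < 2 * (fb L A p).card := by
  unfold big; rw [mem_lev]
  have : Nat.card L / 2 + 1 ≤ (fb L A p).card ↔ Nat.card L < 2 * (fb L A p).card := by omega
  rw [this]

theorem big_add_full {L : AddSubgroup G} [DecidableEq (G ⧸ L)] (hL : (L : Set G).Finite)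
    {A : Finset G} {q : G ⧸ L} (hq : q ∈ big L A + big L A) :
    Nat.card L ≤ (fb L (A + A) q).card := by
  obtain ⟨p, hp, p', hp', rfl⟩ := Finset.mem_add.1 hq
  rw [mem_big] at hp hp'
  exact card_fb_add_full hL hp.1 hp'.1 (by omega)

omit [DecidableEq G] in
/-- the smallest fibre -/
theorem exists_min_fibre {L : AddSubgroup G} {A : Finset G} (hA : A.Nonempty) :
    ∃ p ∈ cl L A, ∀ p' ∈ cl L A, (fb L A p).card ≤ (fb L A p').card := by
  obtain ⟨x, hx⟩ := hA
  exact Finset.exists_min_image (cl L A) (fun p => (fb L A p).card) ⟨_, mk_mem_cl hx⟩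

/-- **Transfer, second form.** -/
theorem transfer_two {L : AddSubgroup G} [DecidableEq (G ⧸ L)] (hL : (L : Set G).Finite)
    {A : Finset G} (hA : A.Nonempty)
    (h0 : 3 * nc L A ≤ (cl L A + cl L A).card + 1)
    (h : ∀ F ⊆ cl L A, F.Nonempty → F ≠ cl L A → 3 * F.card + 1 ≤ (F + cl L A).card)
    (hb : (big L A).Nonempty) :
    3 * A.card ≤ (A + A).card ∨
      2 * (Nat.card L * nc L A) + A.card ≤ (A + A).card + Nat.card L := by
  classical
  by_cases hall : ∀ p ∈ cl L A, Nat.card L < 2 * (fb L A p).card
  · right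
    have h1 := card_add_self_of_large hL A hall
    have h2 := card_le_mul_nc hL A
    have h3 : (cl L A + cl L A).card = nc L (A + A) := by
      rw [← show cl L (A + A) = cl L A + cl L A from ?_]
      · rfl
      · ext c
        rw [Finset.mem_add]
        constructor
        · intro hc
          obtain ⟨θ, hθ, θ', hθ', h⟩ := cl_add hc
          exact ⟨θ, hθ, θ', hθ', h⟩
        · rintro ⟨θ, hθ, θ', hθ', rfl⟩
          exact add_mem_cl hθ hθ'
    rw [h3] at h0
    have h4 := Nat.mul_le_mul_left (Nat.card L) h0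
    rw [mul_add, mul_one] at h4
    have h5 : Nat.card L * (3 * nc L A) = 3 * (Nat.card L * nc L A) := by ring
    omega
  · left
    push Not at hall
    obtain ⟨p1, hp1, hp1'⟩ := hall
    obtain ⟨p0, hp0, hmin⟩ := exists_min_fibre (L := L) hA
    set a := (fb L A p0).card with ha
    have ha2 : 2 * a ≤ Nat.card L := le_trans (Nat.mul_le_mul_left 2 (hmin p1 hp1)) hp1'
    have key := sum_le_card (L := L) (A := A + A) (n := Nat.card L)
      (fun t => if (lev L A t).Nonempty then lev L A t + cl L A else big L A + big L A)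
      (by
        intro t ht q hq
        split_ifs at hq with hne
        · exact lev_add_le hq
        · exact le_trans (Finset.mem_Icc.1 ht).2 (big_add_full hL hq))
    have hterm : ∀ t ∈ Finset.Icc 1 (Nat.card L),
        3 * (lev L A t).card + (if t ≤ a then 0 else 1) ≤
          (if (lev L A t).Nonempty then lev L A t + cl L A else big L A + big L A).card +
            (if t ≤ a then 1 else 0) := by
      intro t _
      by_cases ht : t ≤ a
      · have hl : lev L A t = cl L A := by
          apply Finset.Subset.antisymm lev_subset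
          intro p hp
          rw [mem_lev]
          exact ⟨hp, le_trans ht (hmin p hp)⟩
        rw [hl, if_pos ht, if_pos ht, if_pos ⟨p0, hp0⟩]
        exact h0
      · rw [if_neg ht, if_neg ht, add_zero]
        by_cases hne : (lev L A t).Nonempty
        · rw [if_pos hne]
          apply h _ lev_subset hne
          intro heq
          have : p0 ∈ lev L A t := by rw [heq]; exact hp0
          rw [mem_lev] at this
          omega
        · rw [if_neg hne, Finset.not_nonempty_iff_eq_empty.1 hne]
          have : 0 < (big L A + big L A).card := Finset.card_pos.2 (hb.add hb)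
          simpa using this
    have hs := Finset.sum_le_sum hterm
    rw [Finset.sum_add_distrib, Finset.sum_add_distrib, ← Finset.mul_sum,
      ← card_eq_sum_lev hL A] at hs
    have e1 : ∑ t ∈ Finset.Icc 1 (Nat.card L), (if t ≤ a then 1 else 0) = a := by
      rw [← Finset.card_filter]
      have : (Finset.Icc 1 (Nat.card L)).filter (fun t => t ≤ a) = Finset.Icc 1 a := by
        ext t
        rw [Finset.mem_filter, Finset.mem_Icc, Finset.mem_Icc]
        omega
      rw [this, Nat.card_Icc]; omega
    have e2 : ∑ t ∈ Finset.Icc 1 (Nat.card L), (if t ≤ a then 0 else 1) +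
        ∑ t ∈ Finset.Icc 1 (Nat.card L), (if t ≤ a then 1 else 0) = Nat.card L := by
      rw [← Finset.sum_add_distrib]
      have : ∀ t ∈ Finset.Icc 1 (Nat.card L),
          ((if t ≤ a then 0 else 1) + (if t ≤ a then 1 else 0) : ℕ) = 1 := by
        intro t _
        split_ifs <;> rfl
      rw [Finset.sum_congr rfl this]
      simp
    omega

theorem cl_add_self {L : AddSubgroup G} [DecidableEq (G ⧸ L)] (A : Finset G) :
    cl L (A + A) = cl L A + cl L A := by
  ext c
  rw [Finset.mem_add]
  constructor
  · intro hc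
    obtain ⟨θ, hθ, θ', hθ', h⟩ := cl_add hc
    exact ⟨θ, hθ, θ', hθ', h⟩
  · rintro ⟨θ, hθ, θ', hθ', rfl⟩
    exact add_mem_cl hθ hθ'

/-- at most two small fibres : bound of the number of missing sums -/
theorem missing_le {L : AddSubgroup G} (hL : (L : Set G).Finite) (A : Finset G)
    {p1 p2 : G ⧸ L} (hp1 : p1 ∈ cl L A) (hp2 : p2 ∈ cl L A) (hne : p1 ≠ p2)
    (h12 : (fb L A p1).card ≤ (fb L A p2).card)
    (hbig : ∀ p ∈ cl L A, p ≠ p1 → p ≠ p2 → Nat.card L < 2 * (fb L A p).card) :
    Nat.card L * nc L (A + A) + 2 * A.card + Nat.card L ≤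
      (A + A).card + 2 * (Nat.card L * nc L A) + (fb L A p1).card := by
  classical
  set n := Nat.card L with hn
  set η : G ⧸ L → ℕ := fun p => n - (fb L A p).card with hη
  set B := ((cl L A).erase p1).erase p2 with hB
  have hsplit : ∀ f : G ⧸ L → ℕ, ∑ p ∈ cl L A, f p = f p1 + (f p2 + ∑ p ∈ B, f p) := by
    intro f
    rw [← Finset.add_sum_erase _ f hp1, ← Finset.add_sum_erase _ f
      (Finset.mem_erase.2 ⟨hne.symm, hp2⟩)]
  have hsum := sum_holes hL A
  rw [← hn, hsplit (fun θ => n - (fb L A θ).card)] at hsum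
  set T : Finset ((G ⧸ L) × (G ⧸ L)) :=
    ({p1, p2} ×ˢ B) ∪ {(p1, p1), (p1, p2), (p2, p2)} with hT
  have hTcl : ∀ p ∈ T, p.1 ∈ cl L A ∧ p.2 ∈ cl L A := by
    rintro ⟨a, b⟩ hp
    rw [hT, Finset.mem_union, Finset.mem_product] at hp
    rcases hp with ⟨ha, hb⟩ | hp
    · have hb' : b ∈ cl L A := Finset.mem_of_mem_erase (Finset.mem_of_mem_erase hb)
      rcases Finset.mem_insert.1 ha with ha | ha
      · exact ⟨by rw [show ((a, b) : (G ⧸ L) × (G ⧸ L)).1 = p1 from ha]; exact hp1, hb'⟩
      · exact ⟨by rw [show ((a, b) : (G ⧸ L) × (G ⧸ L)).1 = p2 from Finset.mem_singleton.1 ha]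
                  exact hp2, hb'⟩
    · simp only [Finset.mem_insert, Finset.mem_singleton, Prod.mk.injEq] at hp
      rcases hp with ⟨rfl, rfl⟩ | ⟨rfl, rfl⟩ | ⟨rfl, rfl⟩
      · exact ⟨hp1, hp1⟩
      · exact ⟨hp1, hp2⟩
      · exact ⟨hp2, hp2⟩
  have key : ∀ σ ∈ cl L (A + A), n ≤ (fb L (A + A) σ).card +
      ∑ p ∈ T.filter (fun p => p.1 + p.2 = σ), η p.2 := by
    intro σ hσ
    -- a representation
    obtain ⟨p, hp, p', hp', rfl⟩ := cl_add hσ
    have hone : ∀ x y : G ⧸ L, (x, y) ∈ T → x + y = p + p' →
        n ≤ (fb L (A + A) (p + p')).card +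
          ∑ p ∈ T.filter (fun q => q.1 + q.2 = p + p'), η p.2 := by
      intro x y hxy he
      have h1 : η y ≤ ∑ p ∈ T.filter (fun q => q.1 + q.2 = p + p'), η p.2 := by
        apply Finset.single_le_sum (f := fun p : (G ⧸ L) × (G ⧸ L) => η p.2)
          (a := (x, y)) (fun i _ => Nat.zero_le _)
        rw [Finset.mem_filter]
        exact ⟨hxy, he⟩
      have h2 := fb_add_card_ge (A := A) (p := y) (p' := x) (hTcl _ hxy).1
      rw [add_comm y x, he] at h2
      have h3 : η y = n - (fb L A y).card := rfl
      omega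
    have hmem : ∀ x : G ⧸ L, (x = p1 ∨ x = p2) → ∀ y ∈ cl L A, y ≠ p1 → y ≠ p2 →
        (x, y) ∈ T := by
      intro x hx y hy h1 h2
      rw [hT, Finset.mem_union, Finset.mem_product]
      left
      refine ⟨?_, Finset.mem_erase.2 ⟨h2, Finset.mem_erase.2 ⟨h1, hy⟩⟩⟩
      rcases hx with rfl | rfl
      · simp
      · simp
    by_cases c1 : p = p1 ∨ p = p2
    · by_cases c2 : p' = p1 ∨ p' = p2
      · rcases c1 with rfl | rfl <;> rcases c2 with rfl | rfl
        · exact hone _ _ (by rw [hT]; simp) rfl
        · exact hone _ _ (by rw [hT]; simp) rfl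
        · exact hone p' p (by rw [hT]; simp) (add_comm _ _)
        · exact hone _ _ (by rw [hT]; simp) rfl
      · push Not at c2
        exact hone p p' (hmem p c1 p' hp' c2.1 c2.2) rfl
    · by_cases c2 : p' = p1 ∨ p' = p2
      · push Not at c1
        exact hone p' p (hmem p' c2 p hp c1.1 c1.2) (add_comm _ _)
      · push Not at c1 c2
        have h1 := hbig p hp c1.1 c1.2
        have h2 := hbig p' hp' c2.1 c2.2
        have h3 := card_fb_add_full hL hp hp' (A := A) (B := A) (by omega)
        omega
  have hs := Finset.sum_le_sum key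
  rw [Finset.sum_add_distrib, ← card_eq_sum_fb (V := L) (A + A) (le_refl _)] at hs
  rw [Finset.sum_const, smul_eq_mul] at hs
  rw [Finset.sum_fiberwise_of_maps_to (s := T) (t := cl L (A + A))
      (g := fun p : (G ⧸ L) × (G ⧸ L) => p.1 + p.2)
      (fun p hp => add_mem_cl (hTcl p hp).1 (hTcl p hp).2)
      (fun p => η p.2)] at hs
  have hTs : ∑ p ∈ T, η p.2 ≤ 2 * ∑ p ∈ B, η p + (η p1 + 2 * η p2) := by
    have u1 := Finset.sum_union_inter (s₁ := ({p1, p2} : Finset (G ⧸ L)) ×ˢ B)
      (s₂ := ({(p1, p1), (p1, p2), (p2, p2)} : Finset ((G ⧸ L) × (G ⧸ L))))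
      (f := fun p => η p.2)
    rw [← hT] at u1
    have u2 : ∑ p ∈ (({p1, p2} : Finset (G ⧸ L)) ×ˢ B), η p.2 = 2 * ∑ p ∈ B, η p := by
      rw [Finset.sum_product]
      simp only [Finset.sum_const, smul_eq_mul]
      rw [Finset.card_pair hne]
    have u3 : ∑ p ∈ ({(p1, p1), (p1, p2), (p2, p2)} : Finset ((G ⧸ L) × (G ⧸ L))), η p.2 =
        η p1 + 2 * η p2 := by
      rw [Finset.sum_insert, Finset.sum_insert, Finset.sum_singleton]
      · ring
      · simp [hne]
      · simp [hne]
    omega
  have h5 : (cl L (A + A)).card = nc L (A + A) := rfl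
  rw [h5] at hs
  have hcomm : nc L (A + A) * n = n * nc L (A + A) := mul_comm _ _
  have h6 : η p1 = n - (fb L A p1).card := rfl
  have h7 := card_fb_le hL A p1
  have h8 : ∀ p, η p = n - (fb L A p).card := fun _ => rfl
  simp only [h8] at hTs hs
  omega

/-- **Transfer, third form.** -/
theorem transfer_one {L : AddSubgroup G} [DecidableEq (G ⧸ L)] (hL : (L : Set G).Finite)
    {A : Finset G} (hA : A.Nonempty)
    (h0 : 3 * nc L A ≤ (cl L A + cl L A).card + 2)
    (h : ∀ F ⊆ cl L A, F.Nonempty → F.card + 3 ≤ nc L A →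
      3 * F.card + 2 ≤ (F + cl L A).card)
    (hb : 2 ≤ (big L A).card) :
    3 * A.card ≤ (A + A).card + 3 ∨
      2 * (Nat.card L * nc L A) + A.card ≤ (A + A).card + 3 * Nat.card L := by
  classical
  set n := Nat.card L with hn
  have hcl : (cl L A + cl L A).card = nc L (A + A) := by rw [← cl_add_self]; rfl
  have hAle := card_le_mul_nc hL A
  rw [← hn] at hAle
  have h0' := Nat.mul_le_mul_left n h0
  rw [hcl, mul_add] at h0'
  have h0'' : n * (3 * nc L A) = 3 * (n * nc L A) := by ring
  obtain ⟨p1, hp1, hmin1⟩ := exists_min_fibre (L := L) hA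
  set a1 := (fb L A p1).card with ha1
  by_cases hall : n < 2 * a1
  · right
    have h1 := card_add_self_of_large hL A
      (fun p hp => lt_of_lt_of_le hall (Nat.mul_le_mul_left 2 (hmin1 p hp)))
    rw [← hn] at h1
    omega
  push Not at hall
  by_cases hk : (cl L A).erase p1 = ∅
  · right
    have hnc : nc L A = 1 := by
      have := Finset.card_erase_of_mem hp1
      rw [hk, Finset.card_empty] at this
      have h2 : 0 < (cl L A).card := Finset.card_pos.2 ⟨p1, hp1⟩
      have h3 : (cl L A).card = nc L A := rfl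
      omega
    have h3 : A.card ≤ (A + A).card := Finset.card_le_card_add_right hA
    rw [hnc]
    omega
  obtain ⟨p2, hp2, hmin2⟩ := Finset.exists_min_image ((cl L A).erase p1)
    (fun p => (fb L A p).card) (Finset.nonempty_iff_ne_empty.2 hk)
  have hp2' : p2 ∈ cl L A := Finset.mem_of_mem_erase hp2
  have hne12 : p1 ≠ p2 := fun he => Finset.ne_of_mem_erase hp2 he.symm
  set a2 := (fb L A p2).card with ha2
  have h12 : a1 ≤ a2 := hmin1 p2 hp2'
  by_cases hbg : ∀ p ∈ cl L A, p ≠ p1 → p ≠ p2 → n < 2 * (fb L A p).card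
  · have h1 := missing_le hL A hp1 hp2' hne12 h12 hbg
    rw [← hn] at h1
    by_cases hH : n * nc L A ≤ A.card + n + (n - a1)
    · right; omega
    · left; omega
  push Not at hbg
  obtain ⟨p, hp, hpp1, hpp2, hp'⟩ := hbg
  have hpe : p ∈ ((cl L A).erase p1).erase p2 :=
    Finset.mem_erase.2 ⟨hpp2, Finset.mem_erase.2 ⟨hpp1, hp⟩⟩
  obtain ⟨p3, hp3, hmin3⟩ := Finset.exists_min_image (((cl L A).erase p1).erase p2)
    (fun p => (fb L A p).card) ⟨p, hpe⟩
  set a3 := (fb L A p3).card with ha3
  have ha3n : 2 * a3 ≤ n := le_trans (Nat.mul_le_mul_left 2 (hmin3 p hpe)) hp'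
  have h23 : a2 ≤ a3 := hmin2 p3 (Finset.mem_of_mem_erase hp3)
  have hP0 : (cl L A).card = nc L A := rfl
  have hc1 : ((cl L A).erase p1).card + 1 = nc L A := by
    rw [Finset.card_erase_of_mem hp1]
    have h2 : 0 < (cl L A).card := Finset.card_pos.2 ⟨p1, hp1⟩
    omega
  have hc2 : (((cl L A).erase p1).erase p2).card + 2 = nc L A := by
    rw [Finset.card_erase_of_mem hp2]
    have h2 : 0 < ((cl L A).erase p1).card := Finset.card_pos.2 ⟨p2, hp2⟩
    omega
  have hc3 : ((((cl L A).erase p1).erase p2).erase p3).card + 3 = nc L A := by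
    rw [Finset.card_erase_of_mem hp3]
    have h2 : 0 < (((cl L A).erase p1).erase p2).card := Finset.card_pos.2 ⟨p3, hp3⟩
    omega
  -- losses for one and two missing cosets
  have l1 : (cl L A + cl L A).card ≤ ((cl L A).erase p1 + cl L A).card + 1 := by
    have hsub : cl L A + cl L A ⊆ ((cl L A).erase p1 + cl L A) ∪ {p1 + p1} := by
      intro z hz
      obtain ⟨x, hx, y, hy, rfl⟩ := Finset.mem_add.1 hz
      rw [Finset.mem_union, Finset.mem_singleton]
      by_cases hx1 : x = p1
      · by_cases hy1 : y = p1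
        · right; rw [hx1, hy1]
        · left; rw [add_comm x y]; exact Finset.add_mem_add (Finset.mem_erase.2 ⟨hy1, hy⟩) hx
      · left; exact Finset.add_mem_add (Finset.mem_erase.2 ⟨hx1, hx⟩) hy
    refine le_trans (Finset.card_le_card hsub) (le_trans (Finset.card_union_le _ _) ?_)
    simp
  have l2 : (cl L A + cl L A).card ≤ (((cl L A).erase p1).erase p2 + cl L A).card + 3 := by
    have hsub : cl L A + cl L A ⊆
        (((cl L A).erase p1).erase p2 + cl L A) ∪ {p1 + p1, p1 + p2, p2 + p2} := by
      intro z hz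
      obtain ⟨x, hx, y, hy, rfl⟩ := Finset.mem_add.1 hz
      rw [Finset.mem_union]
      by_cases hx1 : x ≠ p1 ∧ x ≠ p2
      · left
        exact Finset.add_mem_add
          (Finset.mem_erase.2 ⟨hx1.2, Finset.mem_erase.2 ⟨hx1.1, hx⟩⟩) hy
      · by_cases hy1 : y ≠ p1 ∧ y ≠ p2
        · left; rw [add_comm x y]
          exact Finset.add_mem_add
            (Finset.mem_erase.2 ⟨hy1.2, Finset.mem_erase.2 ⟨hy1.1, hy⟩⟩) hx
        · right
          have e1 : x = p1 ∨ x = p2 := by
            by_cases c : x = p1
            · exact Or.inl c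
            · exact Or.inr (by by_contra c2; exact hx1 ⟨c, c2⟩)
          have e2 : y = p1 ∨ y = p2 := by
            by_cases c : y = p1
            · exact Or.inl c
            · exact Or.inr (by by_contra c2; exact hy1 ⟨c, c2⟩)
          rcases e1 with rfl | rfl <;> rcases e2 with rfl | rfl
          · simp
          · simp
          · rw [add_comm x y]; simp
          · simp
    refine le_trans (Finset.card_le_card hsub) (le_trans (Finset.card_union_le _ _) ?_)
    have : ({p1 + p1, p1 + p2, p2 + p2} : Finset (G ⧸ L)).card ≤ 3 := Finset.card_le_three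
    omega
  left
  have key := sum_le_card (L := L) (A := A + A) (n := n)
    (fun t => if (lev L A t).Nonempty then lev L A t + cl L A else big L A + big L A)
    (by
      intro t ht q hq
      split_ifs at hq with hne
      · exact lev_add_le hq
      · exact le_trans (Finset.mem_Icc.1 ht).2 (big_add_full hL hq))
  have hbig2 : 2 ≤ (big L A + big L A).card := by
    have h1 : (big L A).Nonempty := Finset.card_pos.1 (by omega)
    exact le_trans hb (Finset.card_le_card_add_right h1)
  have hterm : ∀ t ∈ Finset.Icc 1 n,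
      3 * (lev L A t).card + ((if t ≤ a2 then 0 else 1) + (if t ≤ a3 then 0 else 1)) ≤
        (if (lev L A t).Nonempty then lev L A t + cl L A else big L A + big L A).card +
          2 * (if t ≤ a1 then 1 else 0) := by
    intro t _
    by_cases ht1 : t ≤ a1
    · have hl : lev L A t = cl L A := by
        apply Finset.Subset.antisymm lev_subset
        intro p hp
        rw [mem_lev]
        exact ⟨hp, le_trans ht1 (hmin1 p hp)⟩
      rw [hl, if_pos (le_trans ht1 h12), if_pos (le_trans (le_trans ht1 h12) h23),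
        if_pos ht1, if_pos ⟨p1, hp1⟩]
      rw [hP0]
      omega
    · by_cases ht2 : t ≤ a2
      · have hl : lev L A t = (cl L A).erase p1 := by
          ext p
          rw [mem_lev, Finset.mem_erase]
          constructor
          · rintro ⟨h1, h2⟩
            refine ⟨?_, h1⟩
            rintro rfl
            omega
          · rintro ⟨h1, h2⟩
            exact ⟨h2, le_trans ht2 (hmin2 p (Finset.mem_erase.2 ⟨h1, h2⟩))⟩
        rw [hl, if_pos ht2, if_pos (le_trans ht2 h23), if_neg ht1,
          if_pos (Finset.nonempty_iff_ne_empty.2 hk)]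
        omega
      · by_cases ht3 : t ≤ a3
        · have hl : lev L A t = ((cl L A).erase p1).erase p2 := by
            ext p
            rw [mem_lev, Finset.mem_erase, Finset.mem_erase]
            constructor
            · rintro ⟨h1, h2⟩
              refine ⟨?_, ?_, h1⟩
              · rintro rfl
                omega
              · rintro rfl
                omega
            · rintro ⟨h1, h2, h3⟩
              exact ⟨h3, le_trans ht3 (hmin3 p
                (Finset.mem_erase.2 ⟨h1, Finset.mem_erase.2 ⟨h2, h3⟩⟩))⟩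
          rw [hl, if_neg ht2, if_pos ht3, if_neg ht1, if_pos ⟨p3, hp3⟩]
          omega
        · rw [if_neg ht2, if_neg ht3, if_neg ht1]
          by_cases hne : (lev L A t).Nonempty
          · rw [if_pos hne]
            have h1 : (lev L A t).card + 3 ≤ nc L A := by
              rw [← hc3]
              apply Nat.add_le_add_right
              apply Finset.card_le_card
              intro p hp
              rw [mem_lev] at hp
              rw [Finset.mem_erase, Finset.mem_erase, Finset.mem_erase]
              refine ⟨?_, ?_, ?_, hp.1⟩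
              · rintro rfl; omega
              · rintro rfl; omega
              · rintro rfl; omega
            have := h _ lev_subset hne h1
            omega
          · rw [if_neg hne, Finset.not_nonempty_iff_eq_empty.1 hne]
            simpa using hbig2
  have hs := Finset.sum_le_sum hterm
  rw [Finset.sum_add_distrib, Finset.sum_add_distrib, Finset.sum_add_distrib, ← Finset.mul_sum,
    ← Finset.mul_sum, ← card_eq_sum_lev hL A] at hs
  have e1 : ∀ a ≤ n, ∑ t ∈ Finset.Icc 1 n, (if t ≤ a then 1 else 0) = a := by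
    intro a ha
    rw [← Finset.card_filter]
    have : (Finset.Icc 1 n).filter (fun t => t ≤ a) = Finset.Icc 1 a := by
      ext t
      rw [Finset.mem_filter, Finset.mem_Icc, Finset.mem_Icc]
      omega
    rw [this, Nat.card_Icc]; omega
  have e2 : ∀ a ≤ n, ∑ t ∈ Finset.Icc 1 n, (if t ≤ a then 0 else 1) + a = n := by
    intro a ha
    have h1 := e1 a ha
    have h2 : ∑ t ∈ Finset.Icc 1 n, (if t ≤ a then 0 else 1) +
        ∑ t ∈ Finset.Icc 1 n, (if t ≤ a then 1 else 0) = n := by
      rw [← Finset.sum_add_distrib]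
      have : ∀ t ∈ Finset.Icc 1 n,
          ((if t ≤ a then 0 else 1) + (if t ≤ a then 1 else 0) : ℕ) = 1 := by
        intro t _
        split_ifs <;> rfl
      rw [Finset.sum_congr rfl this]
      simp
    omega
  have f1 := e1 a1 (by omega)
  have f2 := e2 a2 (by omega)
  have f3 := e2 a3 (by omega)
  omega

end dec

end Pool.Agent.Lib.MP_09e095_co
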