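import Mathlib
import Pool.Agent.Lib.MP_09e095_co.MLTransfer
import Pool.Agent.Lib.MP_09e095_co.MLDefs

/-!
MP_09e095_co : sets over strips, level-set inequality.
-/

set_option autoImplicit false

open Finset
open scoped Pointwise

namespace Pool.Agent.Lib.MP_09e095_co

/-- sums inside strips -/
theorem strip_add {E : Type*} [AddCommGroup E] [DecidableEq E] {N : AddSubgroup E} (π : E →+ ℤ)
    (hπ : ∀ x ∈ N, π x = 0 → x = 0) {F P : Finset E} {θ θ' : E ⧸ N} (hF : θ ∈ cl N F)
    (hP : θ' ∈ cl N P) :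
    (fb N F θ).card + (fb N P θ').card ≤ (fb N (F + P) (θ + θ')).card + 1 := by
  classical
  have hinj : ∀ (A : Finset E), InCoset N A → (A.image π).card = A.card := by
    intro A hA
    apply Finset.card_image_of_injOn
    intro x hx y hy hxy
    have h1 := hπ (x - y) (hA x hx y hy) (by rw [map_sub, hxy, sub_self])
    exact sub_eq_zero.1 h1
  have h1 := hinj _ (inCoset_fb N F θ)
  have h2 := hinj _ (inCoset_fb N P θ')
  have h3 : ((fb N F θ).image π).Nonempty := (fb_nonempty_iff.2 hF).image _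
  have h4 : ((fb N P θ').image π).Nonempty := (fb_nonempty_iff.2 hP).image _
  have h5 := cauchy_davenport_add_of_linearOrder_isCancelAdd h3 h4
  rw [← Finset.image_add] at h5
  have h6 : ((fb N F θ + fb N P θ').image π).card ≤ (fb N F θ + fb N P θ').card :=
    Finset.card_image_le
  have h7 := Finset.card_le_card (fb_add_subset (V := N) (A := F) (B := P) (θ := θ) (θ' := θ'))
  omega

/-- loss of sums when some elements are removed -/
theorem removal_le {E : Type*} [AddCommGroup E] [DecidableEq E] {F P : Finset E} (hFP : F ⊆ P)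
    {y : ℕ} (hy : F.card + y = P.card) :
    2 * (P + P).card ≤ 2 * (F + P).card + y * (y + 1) := by
  classical
  set D := P \ F with hD
  have hDy : D.card = y := by
    rw [hD, Finset.card_sdiff_of_subset hFP]; omega
  have hsub : P + P ⊆ (F + P) ∪ (D + D) := by
    intro z hz
    obtain ⟨a, ha, b, hb, rfl⟩ := Finset.mem_add.1 hz
    rw [Finset.mem_union]
    by_cases ha' : a ∈ F
    · left; exact Finset.add_mem_add ha' hb
    · by_cases hb' : b ∈ F
      · left; rw [add_comm a b]; exact Finset.add_mem_add hb' ha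
      · right
        exact Finset.add_mem_add (Finset.mem_sdiff.2 ⟨ha, ha'⟩) (Finset.mem_sdiff.2 ⟨hb, hb'⟩)
  have h1 : (P + P).card ≤ (F + P).card + (D + D).card :=
    le_trans (Finset.card_le_card hsub) (Finset.card_union_le _ _)
  have h2 : 2 * (D + D).card ≤ y * (y + 1) := by
    have h3 : D + D ⊆ (D.sym2).image (Sym2.lift ⟨fun a b => a + b, fun a b => add_comm a b⟩) := by
      intro z hz
      obtain ⟨a, ha, b, hb, rfl⟩ := Finset.mem_add.1 hz
      rw [Finset.mem_image]
      exact ⟨s(a, b), Finset.mk_mem_sym2_iff.2 ⟨ha, hb⟩, rfl⟩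
    have h4 := le_trans (Finset.card_le_card h3) Finset.card_image_le
    rw [Finset.card_sym2, hDy, Nat.choose_two_right] at h4
    simp only [Nat.add_sub_cancel] at h4
    have h5 := Nat.div_mul_le_self ((y + 1) * y) 2
    have h6 : (y + 1) * y = y * (y + 1) := mul_comm _ _
    omega
  omega

section level
variable {H : Type*} [AddCommGroup H] [DecidableEq H]

/-- level sets of a function on `B` -/
def lv (B : Finset H) (f : H → ℕ) (i : ℕ) : Finset H := B.filter (fun r => i ≤ f r)

omit [AddCommGroup H] [DecidableEq H] in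
theorem mem_lv {B : Finset H} {f : H → ℕ} {i : ℕ} {r : H} : r ∈ lv B f i ↔ r ∈ B ∧ i ≤ f r := by
  unfold lv; rw [Finset.mem_filter]

omit [AddCommGroup H] [DecidableEq H] in
theorem lv_subset {B : Finset H} {f : H → ℕ} {i : ℕ} : lv B f i ⊆ B := Finset.filter_subset _ _

omit [AddCommGroup H] [DecidableEq H] in
theorem lv_anti {B : Finset H} {f : H → ℕ} {i i' : ℕ} (h : i ≤ i') : lv B f i' ⊆ lv B f i := by
  intro r hr
  rw [mem_lv] at hr ⊢
  exact ⟨hr.1, le_trans h hr.2⟩

omit [AddCommGroup H] [DecidableEq H] in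
theorem sum_lv (B : Finset H) (f : H → ℕ) (M : ℕ) (hM : ∀ r ∈ B, f r ≤ M) :
    ∑ i ∈ Finset.Icc 1 M, (lv B f i).card = ∑ r ∈ B, f r := by
  classical
  have h1 : ∀ i ∈ Finset.Icc 1 M, (lv B f i).card = ∑ r ∈ B, if i ≤ f r then 1 else 0 := by
    intro i _
    unfold lv
    rw [Finset.card_filter]
  rw [Finset.sum_congr rfl h1, Finset.sum_comm]
  apply Finset.sum_congr rfl
  intro r hr
  rw [← Finset.card_filter]
  have : (Finset.Icc 1 M).filter (fun t => t ≤ f r) = Finset.Icc 1 (f r) := by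
    ext t
    rw [Finset.mem_filter, Finset.mem_Icc, Finset.mem_Icc]
    have := hM r hr
    omega
  rw [this, Nat.card_Icc]
  omega

/-- the level-set inequality -/
theorem level_ineq (B : Finset H) (p f n : H → ℕ) (j M : ℕ) (hj : 1 ≤ j)
    (hp : ∀ r ∈ B, j ≤ p r) (hM : ∀ r ∈ B, f r ≤ M)
    (hn : ∀ r ∈ B, ∀ r' ∈ B, 1 ≤ f r → f r + p r' ≤ n (r + r') + 1)
    (hne : (lv B f 1).Nonempty) :
    (j - 1) * (lv B f 1 + B).card + ∑ i ∈ Finset.Icc 1 M, (lv B f i + B).card + ∑ r ∈ B, p r ≤
      ∑ z ∈ lv B f 1 + B, n z + j * B.card := by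
  classical
  obtain ⟨r0, hr0, hmax⟩ := Finset.exists_max_image (lv B f 1) f hne
  rw [mem_lv] at hr0
  have hmax' : ∀ r ∈ B, f r ≤ f r0 := by
    intro r hr
    by_cases h : 1 ≤ f r
    · exact hmax r (mem_lv.2 ⟨hr, h⟩)
    · omega
  set i : H → ℕ := fun z => ((Finset.Icc 1 M).filter (fun t => z ∈ lv B f t + B)).card with hi
  have hsum : ∑ t ∈ Finset.Icc 1 M, (lv B f t + B).card = ∑ z ∈ lv B f 1 + B, i z := by
    have h1 : ∀ t ∈ Finset.Icc 1 M, (lv B f t + B).card =
        ∑ z ∈ lv B f 1 + B, if z ∈ lv B f t + B then 1 else 0 := by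
      intro t ht
      rw [← Finset.card_filter]
      congr 1
      ext z
      rw [Finset.mem_filter]
      constructor
      · intro hz
        exact ⟨Finset.add_subset_add_right (lv_anti (Finset.mem_Icc.1 ht).1) hz, hz⟩
      · exact fun h => h.2
    rw [Finset.sum_congr rfl h1, Finset.sum_comm]
    apply Finset.sum_congr rfl
    intro z _
    rw [← Finset.card_filter]
  -- `i z` is at most the last level
  have hiz : ∀ z ∈ lv B f 1 + B, ∃ r ∈ B, ∃ r' ∈ B, 1 ≤ f r ∧ r + r' = z ∧ i z ≤ f r := by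
    intro z hz
    -- maximise `f r` over representations
    set R := (B ×ˢ B).filter (fun q => 1 ≤ f q.1 ∧ q.1 + q.2 = z) with hR
    have hRne : R.Nonempty := by
      obtain ⟨r, hr, r', hr', h⟩ := Finset.mem_add.1 hz
      rw [mem_lv] at hr
      exact ⟨(r, r'), by rw [hR, Finset.mem_filter, Finset.mem_product]; exact ⟨⟨hr.1, hr'⟩, hr.2, h⟩⟩
    obtain ⟨q, hq, hqmax⟩ := Finset.exists_max_image R (fun q => f q.1) hRne
    rw [hR, Finset.mem_filter, Finset.mem_product] at hq
    refine ⟨q.1, hq.1.1, q.2, hq.1.2, hq.2.1, hq.2.2, ?_⟩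
    have : (Finset.Icc 1 M).filter (fun t => z ∈ lv B f t + B) ⊆ Finset.Icc 1 (f q.1) := by
      intro t ht
      rw [Finset.mem_filter, Finset.mem_Icc] at ht
      rw [Finset.mem_Icc]
      refine ⟨ht.1.1, ?_⟩
      obtain ⟨r, hr, r', hr', h⟩ := Finset.mem_add.1 ht.2
      rw [mem_lv] at hr
      have h2 := hqmax (r, r') (by
        rw [hR, Finset.mem_filter, Finset.mem_product]
        exact ⟨⟨hr.1, hr'⟩, by simp only; omega, h⟩)
      simp only at h2
      omega
    have h3 := Finset.card_le_card this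
    rw [Nat.card_Icc] at h3
    have : i z = ((Finset.Icc 1 M).filter (fun t => z ∈ lv B f t + B)).card := rfl
    omega
  have hterm : ∀ z ∈ lv B f 1 + B,
      (j - 1) + i z + (if z - r0 ∈ B then p (z - r0) - j else 0) ≤ n z := by
    intro z hz
    obtain ⟨r, hr, r', hr', hfr, hrz, hle⟩ := hiz z hz
    have h1 := hn r hr r' hr' hfr
    rw [hrz] at h1
    have h2 := hp r' hr'
    by_cases hc : z - r0 ∈ B
    · rw [if_pos hc]
      have h3 := hn r0 hr0.1 _ hc hr0.2
      rw [add_sub_cancel] at h3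
      have h4 := hmax' r hr
      have h5 := hp _ hc
      omega
    · rw [if_neg hc]
      omega
  have hs := Finset.sum_le_sum hterm
  rw [Finset.sum_add_distrib, Finset.sum_add_distrib, Finset.sum_const, smul_eq_mul] at hs
  have hshift : ∑ r ∈ B, (p r - j) ≤
      ∑ z ∈ lv B f 1 + B, (if z - r0 ∈ B then p (z - r0) - j else 0) := by
    calc ∑ r ∈ B, (p r - j) = ∑ z ∈ B.image (fun r => r0 + r),
          (if z - r0 ∈ B then p (z - r0) - j else 0) := by
          rw [Finset.sum_image (fun x _ y _ h => add_left_cancel h)]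
          apply Finset.sum_congr rfl
          intro r hr
          rw [add_sub_cancel_left, if_pos hr]
      _ ≤ ∑ z ∈ lv B f 1 + B, (if z - r0 ∈ B then p (z - r0) - j else 0) := by
          apply Finset.sum_le_sum_of_subset
          intro z hz
          obtain ⟨r, hr, rfl⟩ := Finset.mem_image.1 hz
          exact Finset.add_mem_add (mem_lv.2 hr0) hr
  have hp' : ∑ r ∈ B, (p r - j) + j * B.card = ∑ r ∈ B, p r := by
    have : j * B.card = ∑ _r ∈ B, j := by rw [Finset.sum_const, smul_eq_mul, mul_comm]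
    rw [this, ← Finset.sum_add_distrib]
    apply Finset.sum_congr rfl
    intro r hr
    exact Nat.sub_add_cancel (hp r hr)
  rw [hsum]
  have hcomm : (lv B f 1 + B).card * (j - 1) = (j - 1) * (lv B f 1 + B).card := mul_comm _ _
  omega

end level

section strips
variable {E : Type*} [AddCommGroup E] [DecidableEq E] {N : AddSubgroup E} [DecidableEq (E ⧸ N)]

omit [DecidableEq E] [DecidableEq (E ⧸ N)] in
theorem lv_one_eq {F P : Finset E} (hFP : F ⊆ P) :
    lv (cl N P) (fun r => (fb N F r).card) 1 = cl N F := by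
  ext r
  rw [mem_lv]
  constructor
  · rintro ⟨_, h⟩
    exact fb_nonempty_iff.1 (Finset.card_pos.1 h)
  · intro h
    exact ⟨cl_mono hFP h, Finset.card_pos.2 (fb_nonempty_iff.2 h)⟩

/-- the level-set inequality for strips -/
theorem strip_level (π : E →+ ℤ) (hπ : ∀ x ∈ N, π x = 0 → x = 0) {F P : Finset E}
    (hFP : F ⊆ P) (hF : F.Nonempty) {j M : ℕ} (hj : 1 ≤ j)
    (hp : ∀ r ∈ cl N P, j ≤ (fb N P r).card) (hM : ∀ r ∈ cl N P, (fb N F r).card ≤ M) :
    (j - 1) * (cl N F + cl N P).card +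
      ∑ i ∈ Finset.Icc 1 M, (lv (cl N P) (fun r => (fb N F r).card) i + cl N P).card + P.card ≤
      (F + P).card + j * (cl N P).card := by
  have h1 := level_ineq (cl N P) (fun r => (fb N P r).card) (fun r => (fb N F r).card)
    (fun z => (fb N (F + P) z).card) j M hj hp hM (by
      intro r _ r' hr' hfr
      exact strip_add π hπ (fb_nonempty_iff.1 (Finset.card_pos.1 hfr)) hr') (by
      rw [lv_one_eq hFP]
      obtain ⟨x, hx⟩ := hF
      exact ⟨_, mk_mem_cl hx⟩)
  rw [lv_one_eq hFP] at h1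
  have h2 : ∑ r ∈ cl N P, (fb N P r).card = P.card := (card_eq_sum_fb (V := N) P (le_refl _)).symm
  have h3 : ∑ z ∈ cl N F + cl N P, (fb N (F + P) z).card = (F + P).card := by
    symm
    apply card_eq_sum_fb
    intro z hz
    obtain ⟨θ, hθ, θ', hθ', h⟩ := cl_add hz
    rw [← h]
    exact Finset.add_mem_add hθ hθ'
  rw [h2, h3] at h1
  exact h1

/-- `F` does not meet all strips -/
theorem phi_ne (π : E →+ ℤ) (hπ : ∀ x ∈ N, π x = 0 → x = 0) {F P : Finset E}
    (hFP : F ⊆ P) (hF : F.Nonempty)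
    (hp : ∀ r ∈ cl N P, 2 ≤ (fb N P r).card) (hne : cl N F ≠ cl N P)
    (hE0 : ∀ T ⊆ cl N P, T.Nonempty → T ≠ cl N P → 2 * T.card ≤ (T + cl N P).card) :
    2 * F.card + P.card + 2 * (cl N F + cl N P).card ≤
      (F + P).card + 2 * (cl N F).card + 2 * (cl N P).card := by
  have hM : ∀ r ∈ cl N P, (fb N F r).card ≤ F.card := fun r _ => Finset.card_le_card fb_subset
  have h1 := strip_level π hπ hFP hF (j := 2) (M := F.card) (by norm_num) hp hM
  have hM1 : 1 ≤ F.card := Finset.card_pos.2 hF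
  have h2 := sum_lv (cl N P) (fun r => (fb N F r).card) F.card hM
  have h3 : ∑ r ∈ cl N P, (fb N F r).card = F.card :=
    (card_eq_sum_fb (V := N) F (cl_mono hFP)).symm
  rw [h3] at h2
  have hmem : 1 ∈ Finset.Icc 1 F.card := Finset.mem_Icc.2 ⟨le_refl _, hM1⟩
  rw [← Finset.add_sum_erase _ _ hmem] at h1 h2
  rw [lv_one_eq hFP] at h1 h2
  have h4 : ∑ i ∈ (Finset.Icc 1 F.card).erase 1,
      2 * (lv (cl N P) (fun r => (fb N F r).card) i).card ≤
      ∑ i ∈ (Finset.Icc 1 F.card).erase 1,
        (lv (cl N P) (fun r => (fb N F r).card) i + cl N P).card := by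
    apply Finset.sum_le_sum
    intro i hi
    rcases (lv (cl N P) (fun r => (fb N F r).card) i).eq_empty_or_nonempty with he | he
    · rw [he]; simp
    · apply hE0 _ lv_subset he
      intro heq
      apply hne
      apply Finset.Subset.antisymm (cl_mono hFP)
      rw [← heq, ← lv_one_eq hFP]
      exact lv_anti (Finset.mem_Icc.1 (Finset.mem_of_mem_erase hi)).1
  rw [← Finset.mul_sum] at h4
  omega

omit [DecidableEq E] in
/-- the sum of the level sets when `F` meets all strips -/
theorem sum_level_ge {F P : Finset E} (hFP : F ⊆ P) {i0 : ℕ}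
    (hi0 : ∃ r ∈ cl N P, (fb N F r).card ≤ i0)
    (hE0 : ∀ T ⊆ cl N P, T.Nonempty → T ≠ cl N P → 2 * T.card ≤ (T + cl N P).card) {c : ℕ}
    (hE1 : 2 * (cl N P).card + c ≤ (cl N P + cl N P).card + 1) (hi0F : i0 ≤ F.card)
    (hall : ∀ r ∈ cl N P, i0 ≤ (fb N F r).card) :
    2 * F.card + c * i0 ≤ ∑ i ∈ Finset.Icc 1 F.card,
      (lv (cl N P) (fun r => (fb N F r).card) i + cl N P).card + i0 := by
  have hM : ∀ r ∈ cl N P, (fb N F r).card ≤ F.card := fun r _ => Finset.card_le_card fb_subset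
  have h2 := sum_lv (cl N P) (fun r => (fb N F r).card) F.card hM
  have h3 : ∑ r ∈ cl N P, (fb N F r).card = F.card :=
    (card_eq_sum_fb (V := N) F (cl_mono hFP)).symm
  rw [h3] at h2
  have key : ∀ i ∈ Finset.Icc 1 F.card,
      2 * (lv (cl N P) (fun r => (fb N F r).card) i).card + c * (if i ≤ i0 then 1 else 0) ≤
        (lv (cl N P) (fun r => (fb N F r).card) i + cl N P).card + (if i ≤ i0 then 1 else 0) := by
    intro i _
    by_cases h : i ≤ i0
    · have : lv (cl N P) (fun r => (fb N F r).card) i = cl N P := by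
        apply Finset.Subset.antisymm lv_subset
        intro r hr
        rw [mem_lv]
        exact ⟨hr, le_trans h (hall r hr)⟩
      rw [this, if_pos h]
      omega
    · rw [if_neg h]
      rcases (lv (cl N P) (fun r => (fb N F r).card) i).eq_empty_or_nonempty with he | he
      · rw [he]; simp
      · have := hE0 _ lv_subset he (by
          intro heq
          obtain ⟨r, hr, hri⟩ := hi0
          rw [← heq, mem_lv] at hr
          omega)
        omega
  have hs := Finset.sum_le_sum key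
  rw [Finset.sum_add_distrib, Finset.sum_add_distrib, ← Finset.mul_sum, ← Finset.mul_sum] at hs
  have e1 : ∑ t ∈ Finset.Icc 1 F.card, (if t ≤ i0 then 1 else 0) = i0 := by
    rw [← Finset.card_filter]
    have : (Finset.Icc 1 F.card).filter (fun t => t ≤ i0) = Finset.Icc 1 i0 := by
      ext t
      rw [Finset.mem_filter, Finset.mem_Icc, Finset.mem_Icc]
      omega
    rw [this, Nat.card_Icc]; omega
  rw [e1, h2] at hs
  exact hs

/-- `F` meets all strips -/
theorem phi_eq (π : E →+ ℤ) (hπ : ∀ x ∈ N, π x = 0 → x = 0) {F P : Finset E}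
    (hFP : F ⊆ P) (hF : F.Nonempty) {j : ℕ} (hj : 2 ≤ j)
    (hp : ∀ r ∈ cl N P, j ≤ (fb N P r).card) (hpj : ∃ r ∈ cl N P, (fb N P r).card = j)
    (heq : cl N F = cl N P) (hm : 2 ≤ (cl N P).card)
    (hE0 : ∀ T ⊆ cl N P, T.Nonempty → T ≠ cl N P → 2 * T.card ≤ (T + cl N P).card)
    (hE1 : 2 * (cl N P).card ≤ (cl N P + cl N P).card + 1) :
    2 * F.card + P.card ≤ (F + P).card + 3 := by
  have hM : ∀ r ∈ cl N P, (fb N F r).card ≤ F.card := fun r _ => Finset.card_le_card fb_subset
  have h1 := strip_level π hπ hFP hF (j := j) (M := F.card) (by omega) hp hM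
  obtain ⟨r1, hr1, hr1j⟩ := hpj
  obtain ⟨r0, hr0, hmin⟩ := Finset.exists_min_image (cl N P) (fun r => (fb N F r).card)
    ⟨r1, hr1⟩
  set i0 := (fb N F r0).card with hi0
  have h2 := sum_level_ge (N := N) hFP (i0 := i0) ⟨r0, hr0, le_refl _⟩ hE0 (c := 0) (by omega)
    (hM r0 hr0) hmin
  have h3 : i0 ≤ j := by
    have e1 := hmin r1 hr1
    have e2 : (fb N F r1).card ≤ (fb N P r1).card := by
      apply Finset.card_le_card
      intro x hx
      rw [mem_fb] at hx ⊢
      exact ⟨hFP hx.1, hx.2⟩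
    omega
  rw [heq] at h1
  set m := (cl N P).card with hm'
  obtain ⟨j', rfl⟩ : ∃ j', j = j' + 2 := ⟨j - 2, by omega⟩
  obtain ⟨m', hm''⟩ : ∃ m', m = m' + 2 := ⟨m - 2, by omega⟩
  have h4 : (j' + 2 - 1) * (2 * m) ≤ (j' + 2 - 1) * ((cl N P + cl N P).card + 1) :=
    Nat.mul_le_mul_left _ hE1
  have e0 : j' + 2 - 1 = j' + 1 := by omega
  rw [e0] at h4 h1
  rw [hm''] at h4 h1
  have e1 : (j' + 1) * (2 * (m' + 2)) = 2 * (j' * m') + 4 * j' + 2 * m' + 4 := by ring
  have e2 : (j' + 1) * ((cl N P + cl N P).card + 1) =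
      (j' + 1) * (cl N P + cl N P).card + j' + 1 := by ring
  have e3 : (j' + 2) * (m' + 2) = j' * m' + 2 * j' + 2 * m' + 4 := by ring
  rw [e1, e2] at h4
  rw [e3] at h1
  omega

/-- the excess of the set `P` itself -/
theorem phi_self (π : E →+ ℤ) (hπ : ∀ x ∈ N, π x = 0 → x = 0) {P : Finset E}
    (hP : P.Nonempty) {j : ℕ} (hj : 2 ≤ j)
    (hp : ∀ r ∈ cl N P, j ≤ (fb N P r).card) (hpj : ∃ r ∈ cl N P, (fb N P r).card = j)
    (hm : 2 ≤ (cl N P).card)
    (hE0 : ∀ T ⊆ cl N P, T.Nonempty → T ≠ cl N P → 2 * T.card ≤ (T + cl N P).card) {c : ℕ}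
    (hE1 : 2 * (cl N P).card + c ≤ (cl N P + cl N P).card + 1) :
    3 * P.card + (j - 2) * ((cl N P).card - 2) + (2 * j - 1) * c ≤ (P + P).card + 3 := by
  have hM : ∀ r ∈ cl N P, (fb N P r).card ≤ P.card := fun r _ => Finset.card_le_card fb_subset
  have h1 := strip_level π hπ (subset_refl P) hP (j := j) (M := P.card) (by omega) hp hM
  obtain ⟨r1, hr1, hr1j⟩ := hpj
  have h2 := sum_level_ge (N := N) (subset_refl P) (i0 := j) ⟨r1, hr1, by omega⟩ hE0 hE1
    (by rw [← hr1j]; exact hM r1 hr1) hp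
  set m := (cl N P).card with hm'
  obtain ⟨j', rfl⟩ : ∃ j', j = j' + 2 := ⟨j - 2, by omega⟩
  obtain ⟨m', hm''⟩ : ∃ m', m = m' + 2 := ⟨m - 2, by omega⟩
  have h4 : (j' + 1) * (2 * m + c) ≤ (j' + 1) * ((cl N P + cl N P).card + 1) :=
    Nat.mul_le_mul_left _ hE1
  have e0 : j' + 2 - 1 = j' + 1 := by omega
  have e00 : 2 * (j' + 2) - 1 = 2 * j' + 3 := by omega
  have e01 : j' + 2 - 2 = j' := by omega
  have e02 : m' + 2 - 2 = m' := by omega
  rw [e0] at h1
  rw [hm''] at h4 h1 ⊢
  rw [e00, e01, e02]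
  have e1 : (j' + 1) * (2 * (m' + 2) + c) =
      2 * (j' * m') + 4 * j' + 2 * m' + 4 + (j' * c + c) := by ring
  have e2 : (j' + 1) * ((cl N P + cl N P).card + 1) =
      (j' + 1) * (cl N P + cl N P).card + j' + 1 := by ring
  have e3 : (j' + 2) * (m' + 2) = j' * m' + 2 * j' + 2 * m' + 4 := by ring
  have e4 : (2 * j' + 3) * c = 2 * (j' * c) + 3 * c := by ring
  have e5 : c * (j' + 2) = j' * c + 2 * c := by ring
  rw [e1, e2] at h4
  rw [e3] at h1
  rw [e5] at h2
  rw [e4]
  omega

omit [DecidableEq E] [DecidableEq (E ⧸ N)] in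
/-- the elements over the strips not met by `F` -/
theorem outside_le {F P : Finset E} (hFP : F ⊆ P) (hp : ∀ r ∈ cl N P, 2 ≤ (fb N P r).card) :
    F.card + 2 * (cl N P).card ≤ P.card + 2 * (cl N F).card := by
  classical
  have h1 : F.card = ∑ r ∈ cl N F, (fb N F r).card := card_eq_sum_fb (V := N) F (le_refl _)
  have h2 : P.card = ∑ r ∈ cl N P, (fb N P r).card := card_eq_sum_fb (V := N) P (le_refl _)
  have h3 := Finset.sum_sdiff (f := fun r => (fb N P r).card) (cl_mono (V := N) hFP)
  have h4 : ∑ r ∈ cl N F, (fb N F r).card ≤ ∑ r ∈ cl N F, (fb N P r).card := by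
    apply Finset.sum_le_sum
    intro r _
    apply Finset.card_le_card
    intro x hx
    rw [mem_fb] at hx ⊢
    exact ⟨hFP hx.1, hx.2⟩
  have h5 : 2 * (cl N P \ cl N F).card ≤ ∑ r ∈ cl N P \ cl N F, (fb N P r).card := by
    calc 2 * (cl N P \ cl N F).card = ∑ _r ∈ cl N P \ cl N F, 2 := by
          rw [Finset.sum_const, smul_eq_mul, mul_comm]
      _ ≤ _ := Finset.sum_le_sum (fun r hr => hp r (Finset.mem_sdiff.1 hr).1)
  have h6 := Finset.card_sdiff_add_card_eq_card (cl_mono (V := N) hFP)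
  omega

/-- the excess when all strips have `2` or `3` elements -/
theorem excess_two (π : E →+ ℤ) (hπ : ∀ x ∈ N, π x = 0 → x = 0) {P : Finset E}
    {T : Finset (E ⧸ N)} (hT : T ⊆ cl N P)
    (hpT : ∀ r ∈ T, (fb N P r).card = 3) (hpB : ∀ r ∈ cl N P, r ∉ T → (fb N P r).card = 2) :
    3 * (cl N P + cl N P).card + (T + cl N P).card + (T + T).card ≤ (P + P).card ∧
      P.card = 2 * (cl N P).card + T.card := by
  classical
  have hp2 : ∀ r ∈ cl N P, 2 ≤ (fb N P r).card := by
    intro r hr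
    by_cases h : r ∈ T
    · rw [hpT r h]; norm_num
    · rw [hpB r hr h]
  constructor
  · have h1 := sum_le_card (L := N) (A := P + P) (n := 5)
      (fun t => if t ≤ 3 then cl N P + cl N P else if t = 4 then T + cl N P else T + T) (by
        intro t ht z hz
        have ht5 := (Finset.mem_Icc.1 ht).2
        split_ifs at hz with h3 h4
        · obtain ⟨r, hr, r', hr', rfl⟩ := Finset.mem_add.1 hz
          have := strip_add π hπ hr hr'
          have := hp2 r hr
          have := hp2 r' hr'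
          omega
        · obtain ⟨r, hr, r', hr', rfl⟩ := Finset.mem_add.1 hz
          have := strip_add π hπ (hT hr) hr'
          have := hpT r hr
          have := hp2 r' hr'
          omega
        · obtain ⟨r, hr, r', hr', rfl⟩ := Finset.mem_add.1 hz
          have := strip_add π hπ (hT hr) (hT hr')
          have := hpT r hr
          have := hpT r' hr'
          omega)
    have h2 : Finset.Icc 1 5 = ({1, 2, 3, 4, 5} : Finset ℕ) := by decide
    rw [h2] at h1
    simp at h1
    omega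
  · rw [card_eq_sum_fb (V := N) P (le_refl _)]
    have : ∀ r ∈ cl N P, (fb N P r).card = 2 + (if r ∈ T then 1 else 0) := by
      intro r hr
      by_cases h : r ∈ T
      · rw [hpT r h, if_pos h]
      · rw [hpB r hr h, if_neg h]
    rw [Finset.sum_congr rfl this, Finset.sum_add_distrib, Finset.sum_const, smul_eq_mul,
      ← Finset.card_filter]
    have : (cl N P).filter (fun r => r ∈ T) = T := by
      ext r
      rw [Finset.mem_filter]
      exact ⟨fun h => h.2, fun h => ⟨hT h, h⟩⟩
    rw [this, mul_comm]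

/-- the excess when one strip has `2` elements and all others `3` or `4` -/
theorem excess_three (π : E →+ ℤ) (hπ : ∀ x ∈ N, π x = 0 → x = 0) {P : Finset E}
    {T : Finset (E ⧸ N)} (hT : T ⊆ cl N P) {r1 : E ⧸ N} (hr1 : r1 ∈ cl N P) (hr1T : r1 ∉ T)
    (hTne : T.Nonempty) (hp1 : (fb N P r1).card = 2)
    (hpT : ∀ r ∈ T, (fb N P r).card = 4)
    (hpB : ∀ r ∈ cl N P, r ∉ T → r ≠ r1 → (fb N P r).card = 3)
    (hE0 : ∀ T ⊆ cl N P, T.Nonempty → T ≠ cl N P → 2 * T.card ≤ (T + cl N P).card) :
    3 * (cl N P + cl N P).card + 3 * (cl N P).card + (T + cl N P).card + (T + T).card ≤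
      (P + P).card + 3 ∧
      P.card + 1 = 3 * (cl N P).card + T.card := by
  classical
  set B := cl N P with hB
  set B3 := B.erase r1 with hB3
  have hp2 : ∀ r ∈ B, 2 ≤ (fb N P r).card := by
    intro r hr
    by_cases h : r ∈ T
    · rw [hpT r h]; norm_num
    · by_cases h' : r = r1
      · rw [h', hp1]
      · rw [hpB r hr h h']; norm_num
  have hp3 : ∀ r ∈ B3, 3 ≤ (fb N P r).card := by
    intro r hr
    have hr' := Finset.mem_erase.1 hr
    by_cases h : r ∈ T
    · rw [hpT r h]; norm_num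
    · rw [hpB r hr'.2 h hr'.1]
  have hTB3 : T ⊆ B3 := by
    intro r hr
    rw [hB3, Finset.mem_erase]
    exact ⟨fun h => hr1T (h ▸ hr), hT hr⟩
  have hB3B : B3 ⊆ B := Finset.erase_subset _ _
  have hB3c : B3.card + 1 = B.card := by
    rw [hB3, Finset.card_erase_of_mem hr1]
    have : 0 < B.card := Finset.card_pos.2 ⟨r1, hr1⟩
    omega
  constructor
  · have h1 := sum_le_card (L := N) (A := P + P) (n := 7)
      (fun t => if t ≤ 3 then B + B else if t = 4 then B3 + B else if t = 5 then T + B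
        else if t = 6 then T + B3 else T + T) (by
        intro t ht z hz
        have ht5 := (Finset.mem_Icc.1 ht).2
        split_ifs at hz with h3 h4 h5 h6
        · obtain ⟨r, hr, r', hr', rfl⟩ := Finset.mem_add.1 hz
          have := strip_add π hπ hr hr'
          have := hp2 r hr
          have := hp2 r' hr'
          omega
        · obtain ⟨r, hr, r', hr', rfl⟩ := Finset.mem_add.1 hz
          have := strip_add π hπ (hB3B hr) hr'
          have := hp3 r hr
          have := hp2 r' hr'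
          omega
        · obtain ⟨r, hr, r', hr', rfl⟩ := Finset.mem_add.1 hz
          have := strip_add π hπ (hT hr) hr'
          have := hpT r hr
          have := hp2 r' hr'
          omega
        · obtain ⟨r, hr, r', hr', rfl⟩ := Finset.mem_add.1 hz
          have := strip_add π hπ (hT hr) (hB3B hr')
          have := hpT r hr
          have := hp3 r' hr'
          omega
        · obtain ⟨r, hr, r', hr', rfl⟩ := Finset.mem_add.1 hz
          have := strip_add π hπ (hT hr) (hT hr')
          have := hpT r hr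
          have := hpT r' hr'
          omega)
    have h2 : Finset.Icc 1 7 = ({1, 2, 3, 4, 5, 6, 7} : Finset ℕ) := by decide
    rw [h2] at h1
    simp at h1
    have h3 := hE0 B3 hB3B (by
      obtain ⟨r, hr⟩ := hTne
      exact ⟨r, hTB3 hr⟩) (by
      intro h
      rw [h] at hB3c
      omega)
    have h4 : B3.card ≤ (T + B3).card := Finset.card_le_card_add_left hTne
    omega
  · rw [card_eq_sum_fb (V := N) P (le_refl _)]
    rw [← hB, ← Finset.add_sum_erase _ _ hr1, hp1, ← hB3]
    have : ∀ r ∈ B3, (fb N P r).card = 3 + (if r ∈ T then 1 else 0) := by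
      intro r hr
      have hr' := Finset.mem_erase.1 hr
      by_cases h : r ∈ T
      · rw [hpT r h, if_pos h]
      · rw [hpB r hr'.2 h hr'.1, if_neg h]
    rw [Finset.sum_congr rfl this, Finset.sum_add_distrib, Finset.sum_const, smul_eq_mul,
      ← Finset.card_filter]
    have : B3.filter (fun r => r ∈ T) = T := by
      ext r
      rw [Finset.mem_filter]
      exact ⟨fun h => h.2, fun h => ⟨hTB3 h, h⟩⟩
    rw [this]
    omega

/-- lower bounds for the excess of `P` -/
theorem excess_ge (π : E →+ ℤ) (hπ : ∀ x ∈ N, π x = 0 → x = 0) {P : Finset E}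
    (hP : P.Nonempty) (hSD : SD (cl N P) (fun r => (fb N P r).card))
    (hm : 3 ≤ (cl N P).card)
    (hE0 : ∀ T ⊆ cl N P, T.Nonempty → T ≠ cl N P → 2 * T.card ≤ (T + cl N P).card)
    (hE1 : 2 * (cl N P).card ≤ (cl N P + cl N P).card + 1) {c : ℕ} (hc3 : c ≤ 3)
    (hcm : c + 2 ≤ (cl N P).card)
    (hψ : ∀ T ⊆ cl N P, T.Nonempty → T ≠ cl N P →
      3 * T.card + c ≤ (T + cl N P).card + (T + T).card) :
    (∀ r ∈ cl N P, 2 ≤ (fb N P r).card) ∧ 3 * P.card + c ≤ (P + P).card + 3 := by
  classical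
  obtain ⟨lam, e, x, hlam, hx1, hpe, he, r2, hr2, hxr2⟩ := hSD
  simp only at hpe
  have hee : ∀ r ∈ cl N P, 2 * e r + 1 ≤ lam := by
    intro r hr
    have := Finset.single_le_sum (f := e) (fun _ _ => Nat.zero_le _) hr
    omega
  have hp2 : ∀ r ∈ cl N P, 2 ≤ (fb N P r).card := by
    intro r hr
    have h1 := hpe r hr
    have h2 := hee r hr
    omega
  refine ⟨hp2, ?_⟩
  obtain ⟨r1, hr1, hmin⟩ := Finset.exists_min_image (cl N P) (fun r => (fb N P r).card)
    ⟨r2, hr2⟩
  have hj2 := hp2 r1 hr1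
  by_cases hj : 3 ≤ (fb N P r1).card
  · have h1 := phi_self π hπ hP hj2 hmin ⟨r1, hr1, rfl⟩ (by omega) hE0 (c := 0) (by omega)
    have h2 : 1 * ((cl N P).card - 2) ≤ ((fb N P r1).card - 2) * ((cl N P).card - 2) :=
      Nat.mul_le_mul_right _ (by omega)
    omega
  · have hj' : (fb N P r1).card = 2 := by omega
    by_cases hB2 : 2 * (cl N P).card ≤ (cl N P + cl N P).card
    · have h1 := phi_self π hπ hP hj2 hmin ⟨r1, hr1, rfl⟩ (by omega) hE0 (c := 1) (by omega)
      rw [hj'] at h1
      omega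
    · have hB2' : (cl N P + cl N P).card + 1 = 2 * (cl N P).card := by omega
      have h1 := hpe r1 hr1
      have h2 := hee r1 hr1
      set T := (cl N P).filter (fun r => x r = 1) with hTdef
      have hTB : T ⊆ cl N P := Finset.filter_subset _ _
      have hTne : T.Nonempty := ⟨r2, Finset.mem_filter.2 ⟨hr2, hxr2⟩⟩
      have hx1r := hx1 r1 hr1
      have hcase : (lam = 2 ∧ e r1 = 0 ∧ x r1 = 0) ∨ (lam = 3 ∧ e r1 = 1 ∧ x r1 = 0) := by
        omega
      have hr1T : r1 ∉ T := by
        intro h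
        have := (Finset.mem_filter.1 h).2
        omega
      have hTne' : T ≠ cl N P := by
        intro h
        rw [h] at hr1T
        exact hr1T hr1
      have h3 := hψ T hTB hTne hTne'
      rcases hcase with ⟨hl, he0, hx0⟩ | ⟨hl, he0, hx0⟩
      · have hez : ∀ r ∈ cl N P, e r = 0 := by
          intro r hr
          have := hee r hr
          omega
        obtain ⟨h4, h5⟩ := excess_two π hπ (T := T) hTB (by
          intro r hr
          have h := Finset.mem_filter.1 hr
          have h' := hpe r h.1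
          have h'' := hez r h.1
          omega) (by
          intro r hr hrT
          have h' := hpe r hr
          have h'' := hez r hr
          have : x r ≠ 1 := fun h => hrT (Finset.mem_filter.2 ⟨hr, h⟩)
          have := hx1 r hr
          omega)
        omega
      · have hez : ∀ r ∈ cl N P, r ≠ r1 → e r = 0 := by
          intro r hr hne
          have h6 : e r1 + e r ≤ ∑ r ∈ cl N P, e r := by
            rw [← Finset.sum_pair (f := e) hne.symm]
            apply Finset.sum_le_sum_of_subset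
            intro y hy
            rcases Finset.mem_insert.1 hy with rfl | hy
            · exact hr1
            · rw [Finset.mem_singleton.1 hy]; exact hr
          omega
        obtain ⟨h4, h5⟩ := excess_three π hπ (T := T) hTB hr1 hr1T hTne hj' (by
          intro r hr
          have h := Finset.mem_filter.1 hr
          have h' := hpe r h.1
          have h'' := hez r h.1 (fun h => hr1T (h ▸ hr))
          omega) (by
          intro r hr hrT hne
          have h' := hpe r hr
          have h'' := hez r hr hne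
          have : x r ≠ 1 := fun h => hrT (Finset.mem_filter.2 ⟨hr, h⟩)
          have := hx1 r hr
          omega) hE0
        omega

/-- the set `P` is good as soon as the excess is at least `3` -/
theorem good_three (π : E →+ ℤ) (hπ : ∀ x ∈ N, π x = 0 → x = 0) {P : Finset E}
    (hP : P.Nonempty) (hp2 : ∀ r ∈ cl N P, 2 ≤ (fb N P r).card)
    (hm : 2 ≤ (cl N P).card)
    (hE0 : ∀ T ⊆ cl N P, T.Nonempty → T ≠ cl N P → 2 * T.card ≤ (T + cl N P).card)
    (hE1 : 2 * (cl N P).card ≤ (cl N P + cl N P).card + 1)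
    (hs : 3 * P.card ≤ (P + P).card) :
    ∀ F ⊆ P, F.Nonempty → 3 * F.card ≤ (F + P).card := by
  intro F hFP hF
  obtain ⟨x, hx⟩ := hP
  obtain ⟨r1, hr1, hmin⟩ := Finset.exists_min_image (cl N P) (fun r => (fb N P r).card)
    ⟨_, mk_mem_cl hx⟩
  by_cases hne : cl N F = cl N P
  · have h1 := phi_eq π hπ hFP hF (hp2 r1 hr1) hmin ⟨r1, hr1, rfl⟩ hne hm hE0 hE1
    have h2 := Finset.card_le_card hFP
    obtain ⟨y, hy⟩ : ∃ y, F.card + y = P.card := ⟨P.card - F.card, by omega⟩
    by_cases hy3 : 3 ≤ y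
    · omega
    · have h3 := removal_le hFP hy
      interval_cases y <;> omega
  · have h1 := phi_ne π hπ hFP hF hp2 hne hE0
    have h2 := outside_le hFP hp2
    obtain ⟨z, hz⟩ := hF
    have h3 := hE0 _ (cl_mono hFP) ⟨_, mk_mem_cl hz⟩ hne
    omega

/-- the set `P` is good as soon as the excess is at least `2` and `B` has no exceptional
subset -/
theorem good_two (π : E →+ ℤ) (hπ : ∀ x ∈ N, π x = 0 → x = 0) {P : Finset E}
    (hP : P.Nonempty) (hp2 : ∀ r ∈ cl N P, 2 ≤ (fb N P r).card)
    (hm : 2 ≤ (cl N P).card)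
    (hE0 : ∀ T ⊆ cl N P, T.Nonempty → T ≠ cl N P → 2 * T.card ≤ (T + cl N P).card)
    (hE1 : 2 * (cl N P).card ≤ (cl N P + cl N P).card + 1)
    (hk : ∀ T ⊆ cl N P, T.Nonempty → T.card + (cl N P).card ≤ (T + cl N P).card + 1)
    (hs : 3 * P.card ≤ (P + P).card + 1) :
    ∀ F ⊆ P, F.Nonempty → F ≠ P → 3 * F.card + 1 ≤ (F + P).card := by
  intro F hFP hF hFne
  obtain ⟨x, hx⟩ := hP
  obtain ⟨r1, hr1, hmin⟩ := Finset.exists_min_image (cl N P) (fun r => (fb N P r).card)
    ⟨_, mk_mem_cl hx⟩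
  have h2 := Finset.card_lt_card (hFP.ssubset_of_ne hFne)
  obtain ⟨y, hy⟩ : ∃ y, F.card + y = P.card := ⟨P.card - F.card, by omega⟩
  have hy1 : 1 ≤ y := by omega
  by_cases hy4 : 4 ≤ y
  · by_cases hne : cl N F = cl N P
    · have h1 := phi_eq π hπ hFP hF (hp2 r1 hr1) hmin ⟨r1, hr1, rfl⟩ hne hm hE0 hE1
      omega
    · have h1 := phi_ne π hπ hFP hF hp2 hne hE0
      obtain ⟨z, hz⟩ := hF
      have h3 := hk _ (cl_mono hFP) ⟨_, mk_mem_cl hz⟩
      omega
  · have h3 := removal_le hFP hy
    interval_cases y <;> omega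

/-- **Strips.** -/
theorem strip_good (π : E →+ ℤ) (hπ : ∀ x ∈ N, π x = 0 → x = 0) {P : Finset E}
    (hP : P.Nonempty) (hSD : SD (cl N P) (fun r => (fb N P r).card))
    (hm : 4 ≤ (cl N P).card)
    (hE0 : ∀ T ⊆ cl N P, T.Nonempty → T ≠ cl N P → 2 * T.card ≤ (T + cl N P).card)
    (hE1 : 2 * (cl N P).card ≤ (cl N P + cl N P).card + 1)
    (hψ2 : ∀ T ⊆ cl N P, T.Nonempty → T ≠ cl N P →
      3 * T.card + 2 ≤ (T + cl N P).card + (T + T).card)
    (hk : (∀ T ⊆ cl N P, T.Nonempty → T.card + (cl N P).card ≤ (T + cl N P).card + 1) ∨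
      (5 ≤ (cl N P).card ∧ ∀ T ⊆ cl N P, T.Nonempty → T ≠ cl N P →
        3 * T.card + 3 ≤ (T + cl N P).card + (T + T).card)) : PGood P := by
  rcases hk with hk | ⟨hm5, hψ3⟩
  · obtain ⟨hp2, hs⟩ := excess_ge π hπ hP hSD (by omega) hE0 hE1 (c := 2) (by omega) (by omega)
      hψ2
    right; left
    exact ⟨by omega, good_two π hπ hP hp2 (by omega) hE0 hE1 hk (by omega)⟩
  · obtain ⟨hp2, hs⟩ := excess_ge π hπ hP hSD (by omega) hE0 hE1 (c := 3) (by omega) (by omega)
      hψ3
    left
    exact good_three π hπ hP hp2 (by omega) hE0 hE1 (by omega)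

end strips

end Pool.Agent.Lib.MP_09e095_co
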