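import Mathlib
import Pool.Agent.Lib.MP_09e095_co.MLStrip
import Pool.Agent.Lib.MP_09e095_co.MLHW

/-!
MP_09e095_co : sets over at least four strips; three strips with excess at least two.
-/

set_option autoImplicit false

open Finset
open scoped Pointwise

namespace Pool.Agent.Lib.MP_09e095_co

variable {E : Type*} [AddCommGroup E] [DecidableEq E] {N : AddSubgroup E} [Finite (E ⧸ N)]

omit [DecidableEq E] [Finite (E ⧸ N)] in
theorem nonempty_of_cl {P : Finset E} (h : 1 ≤ (cl N P).card) : P.Nonempty := by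
  by_contra hc
  rw [Finset.not_nonempty_iff_eq_empty] at hc
  have : nc N P = 0 := nc_eq_zero.2 hc
  unfold nc at this
  omega

/-- at least four strips -/
theorem strips_four (π : E →+ ℤ) (hπ : ∀ x ∈ N, π x = 0 → x = 0) {P : Finset E}
    (hB : HW (cl N P)) (hSD : SD (cl N P) (fun r => (fb N P r).card))
    (hm : 4 ≤ (cl N P).card) : PGood P := by
  classical
  have hP : P.Nonempty := nonempty_of_cl (N := N) (by omega)
  refine strip_good π hπ hP hSD hm (fun T h1 h2 h3 => hw_E0 hB h2 h1 h3) (hw_E1 hB)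
    (fun T h1 h2 h3 => hw_psi2 hB hm h2 h1 h3) ?_
  by_cases hk : ∀ T ⊆ cl N P, T.Nonempty → T.card + (cl N P).card ≤ (T + cl N P).card + 1
  · exact Or.inl hk
  · push Not at hk
    obtain ⟨F, hFB, hF, hk⟩ := hk
    have h10 := hw_k10 hB hF hFB (by omega)
    exact Or.inr ⟨by omega, fun T h1 h2 h3 => hw_psi3 hB hF hFB (by omega) h2 h1 h3⟩

/-- no exceptional subset when there are three strips -/
theorem no_kappa_three {P : Finset E} (hB : HW (cl N P)) [DecidableEq (E ⧸ N)]
    (hm : (cl N P).card = 3) :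
    ∀ T ⊆ cl N P, T.Nonempty → T.card + (cl N P).card ≤ (T + cl N P).card + 1 := by
  intro T hT hTn
  by_contra hc
  have := hw_k10 hB hTn hT (by omega)
  omega

/-- three strips : the strips have at least two elements and the excess is at least one -/
theorem three_excess [DecidableEq (E ⧸ N)] (π : E →+ ℤ) (hπ : ∀ x ∈ N, π x = 0 → x = 0)
    {P : Finset E} (hB : HW (cl N P)) (hSD : SD (cl N P) (fun r => (fb N P r).card))
    (hm : (cl N P).card = 3) :
    (∀ r ∈ cl N P, 2 ≤ (fb N P r).card) ∧ 3 * P.card ≤ (P + P).card + 2 := by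
  have hP : P.Nonempty := nonempty_of_cl (N := N) (by omega)
  obtain ⟨h1, h2⟩ := excess_ge π hπ hP hSD (by omega)
    (fun T h1 h2 h3 => hw_E0 hB h2 h1 h3) (hw_E1 hB) (c := 1) (by omega) (by omega)
    (fun T h1 h2 h3 => hw_psi1 hB h2 h1 h3)
  exact ⟨h1, by omega⟩

/-- three strips with excess at least two -/
theorem three_good_of_two (π : E →+ ℤ) (hπ : ∀ x ∈ N, π x = 0 → x = 0)
    {P : Finset E} (hB : HW (cl N P)) (hSD : SD (cl N P) (fun r => (fb N P r).card))
    (hm : (cl N P).card = 3) (hs : 3 * P.card ≤ (P + P).card + 1) : PGood P := by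
  classical
  have hP : P.Nonempty := nonempty_of_cl (N := N) (by omega)
  obtain ⟨h1, h2⟩ := three_excess π hπ hB hSD hm
  right; left
  exact ⟨hs, good_two π hπ hP h1 (by omega) (fun T h1 h2 h3 => hw_E0 hB h2 h1 h3) (hw_E1 hB)
    (no_kappa_three hB hm) hs⟩

/-- three strips : bound for subsets missing a strip -/
theorem three_phi_ne [DecidableEq (E ⧸ N)] (π : E →+ ℤ) (hπ : ∀ x ∈ N, π x = 0 → x = 0)
    {P : Finset E} (hB : HW (cl N P)) (hSD : SD (cl N P) (fun r => (fb N P r).card))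
    (hm : (cl N P).card = 3) {F : Finset E} (hFP : F ⊆ P) (hF : F.Nonempty)
    (hne : cl N F ≠ cl N P) : 2 * F.card + P.card ≤ (F + P).card + 2 := by
  obtain ⟨h1, h2⟩ := three_excess π hπ hB hSD hm
  have h3 := phi_ne π hπ hFP hF h1 hne (fun T h1 h2 h3 => hw_E0 hB h2 h1 h3)
  obtain ⟨z, hz⟩ := hF
  have h4 := no_kappa_three hB hm _ (cl_mono hFP) ⟨_, mk_mem_cl hz⟩
  omega

end Pool.Agent.Lib.MP_09e095_co
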