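import Mathlib

/-!
MP_09e095_co, multi-layer theorem: subgroups of `Γ` containing `g`, where `π : Γ → ℤ` has a finite
kernel and `π g > 0`.
-/

set_option autoImplicit false

namespace Pool.Agent.Lib.MP_09e095_co

variable {Γ : Type*} [AddCommGroup Γ]

/-- the structure of a subgroup `N` containing `g` -/
theorem sub_struct (π : Γ →+ ℤ) {g : Γ} (hg : 0 < π g)
    (N : AddSubgroup Γ) (hN : AddSubgroup.zmultiples g ≤ N) :
    ∃ (e : Γ) (lam : ℕ), e ∈ N ∧ 0 < π e ∧ 1 ≤ lam ∧ (lam : ℤ) * π e = π g ∧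
      (∀ x ∈ N, π e ∣ π x) ∧
      (AddSubgroup.zmultiples g).relIndex N = lam * Nat.card (N ⊓ π.ker : AddSubgroup Γ) := by
  classical
  have hgN : g ∈ N := hN (AddSubgroup.mem_zmultiples g)
  obtain ⟨a, ha⟩ := Int.subgroup_cyclic (N.map π)
  have hamem : a ∈ N.map π := by
    rw [ha]; exact AddSubgroup.subset_closure rfl
  obtain ⟨e0, he0, hae0⟩ := AddSubgroup.mem_map.1 hamem
  have hdiv0 : ∀ x ∈ N, a ∣ π x := by
    intro x hx
    have : π x ∈ N.map π := AddSubgroup.mem_map.2 ⟨x, hx, rfl⟩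
    rw [ha, AddSubgroup.mem_closure_singleton] at this
    obtain ⟨n, hn⟩ := this
    exact ⟨n, by rw [← hn, smul_eq_mul, mul_comm]⟩
  have ha0 : a ≠ 0 := by
    rintro rfl
    have := hdiv0 g hgN
    rw [zero_dvd_iff] at this
    omega
  -- choose the sign
  obtain ⟨e, he, hpe, hdiv⟩ : ∃ e ∈ N, 0 < π e ∧ ∀ x ∈ N, π e ∣ π x := by
    rcases lt_or_gt_of_ne ha0 with h | h
    · refine ⟨-e0, N.neg_mem he0, ?_, ?_⟩
      · rw [map_neg, hae0]; omega
      · intro x hx
        rw [map_neg, hae0, neg_dvd]; exact hdiv0 x hx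
    · exact ⟨e0, he0, by rw [hae0]; exact h, fun x hx => by rw [hae0]; exact hdiv0 x hx⟩
  obtain ⟨l, hl⟩ := hdiv g hgN
  have hlpos : 0 < l := by
    by_contra hcon
    have : π e * l ≤ 0 := mul_nonpos_of_nonneg_of_nonpos hpe.le (by omega)
    omega
  obtain ⟨lam, rfl⟩ := Int.eq_ofNat_of_zero_le hlpos.le
  refine ⟨e, lam, he, hpe, by omega, by rw [hl, mul_comm], hdiv, ?_⟩
  -- the bijection
  set Z := AddSubgroup.zmultiples g with hZ
  set L : AddSubgroup Γ := N ⊓ π.ker with hL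
  have hLmem : ∀ v : L, (v : Γ) ∈ N ∧ π v = 0 := fun v => by
    have h := v.2
    exact ⟨(AddSubgroup.mem_inf.1 h).1, AddMonoidHom.mem_ker.1 (AddSubgroup.mem_inf.1 h).2⟩
  let F : Fin lam × L → N ⧸ (Z.addSubgroupOf N) := fun t =>
    QuotientAddGroup.mk ⟨((t.1 : ℕ) • e + (t.2 : Γ)), N.add_mem (N.nsmul_mem he _) (hLmem t.2).1⟩
  have hF : Function.Bijective F := by
    constructor
    · rintro ⟨i, v⟩ ⟨j, w⟩ h
      have h' := (QuotientAddGroup.eq).1 h
      rw [AddSubgroup.mem_addSubgroupOf] at h'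
      obtain ⟨k, hk⟩ := AddSubgroup.mem_zmultiples_iff.1 h'
      have hk' : k • g = -((i : ℕ) • e + (v : Γ)) + ((j : ℕ) • e + (w : Γ)) := hk
      have hπ := congrArg π hk'
      rw [map_zsmul, map_add, map_neg, map_add, map_add, map_nsmul, map_nsmul, (hLmem v).2,
        (hLmem w).2] at hπ
      simp only [smul_eq_mul, nsmul_eq_mul, add_zero] at hπ
      rw [hl] at hπ
      have hi := i.2
      have hj := j.2
      have h3 : k * (lam : ℤ) = (j : ℕ) - (i : ℕ) := by
        have : π e * (k * (lam : ℤ)) = π e * (((j : ℕ) : ℤ) - ((i : ℕ) : ℤ)) := by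
          linear_combination hπ
        exact mul_left_cancel₀ (ne_of_gt hpe) this
      have hk0 : k = 0 := by
        by_contra hk0
        rcases lt_or_gt_of_ne hk0 with h4 | h4
        · have : k * (lam : ℤ) ≤ -1 * (lam : ℤ) :=
            mul_le_mul_of_nonneg_right (by omega) (by omega)
          omega
        · have : 1 * (lam : ℤ) ≤ k * (lam : ℤ) :=
            mul_le_mul_of_nonneg_right (by omega) (by omega)
          omega
      rw [hk0, zero_mul] at h3
      have hij : i = j := Fin.ext (by omega)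
      subst hij
      rw [hk0, zero_smul] at hk'
      have hvw : (v : Γ) = w := by
        have h5 : (v : Γ) = w - (-((i : ℕ) • e + (v : Γ)) + ((i : ℕ) • e + (w : Γ))) := by abel
        rw [h5, ← hk', sub_zero]
      rw [Subtype.ext hvw]
    · intro c
      obtain ⟨x, rfl⟩ := QuotientAddGroup.mk_surjective c
      obtain ⟨t, ht⟩ := hdiv x x.2
      set q := t / (lam : ℤ) with hq
      set i := t % (lam : ℤ) with hi
      have hi0 : 0 ≤ i := Int.emod_nonneg _ (by omega)
      have hi1 : i < lam := Int.emod_lt_of_pos _ (by omega)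
      have ht' : t = lam * q + i := by rw [hq, hi]; exact (Int.mul_ediv_add_emod t lam).symm
      obtain ⟨i', hi'⟩ := Int.eq_ofNat_of_zero_le hi0
      have hvmem : (x : Γ) - q • g - i' • e ∈ L := by
        rw [hL, AddSubgroup.mem_inf, AddMonoidHom.mem_ker]
        refine ⟨N.sub_mem (N.sub_mem x.2 (N.zsmul_mem hgN _)) (N.nsmul_mem he _), ?_⟩
        rw [map_sub, map_sub, map_zsmul, map_nsmul, ht, hl, ht', hi']
        simp only [smul_eq_mul, nsmul_eq_mul]
        ring
      refine ⟨(⟨i', by omega⟩, ⟨_, hvmem⟩), ?_⟩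
      apply QuotientAddGroup.eq.2
      rw [AddSubgroup.mem_addSubgroupOf]
      apply AddSubgroup.mem_zmultiples_iff.2
      refine ⟨q, ?_⟩
      change q • g = -(i' • e + ((x : Γ) - q • g - i' • e)) + (x : Γ)
      abel
  have hcard := Nat.card_eq_of_bijective F hF
  rw [Nat.card_prod, Nat.card_eq_fintype_card, Fintype.card_fin] at hcard
  rw [AddSubgroup.relIndex, AddSubgroup.index, ← hcard]

theorem natCard_ne_zero_of_finite {L : AddSubgroup Γ} (hL : (L : Set Γ).Finite) :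
    Nat.card L ≠ 0 := by
  have : Finite L := hL.to_subtype
  exact Nat.card_pos.ne'

/-- `Z` has finite index -/
theorem index_ne_zero (π : Γ →+ ℤ) (hK : (π.ker : Set Γ).Finite) {g : Γ} (hg : 0 < π g) :
    (AddSubgroup.zmultiples g).index ≠ 0 := by
  obtain ⟨e, lam, _, _, h1, _, _, h2⟩ := sub_struct π hg ⊤ le_top
  rw [← AddSubgroup.relIndex_top_right, h2]
  have : Nat.card ((⊤ : AddSubgroup Γ) ⊓ π.ker : AddSubgroup Γ) ≠ 0 :=
    natCard_ne_zero_of_finite (hK.subset (fun x hx => hx.2))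
  exact Nat.mul_ne_zero (by omega) this

theorem zmul_inf_ker (π : Γ →+ ℤ) {g : Γ} (hg : 0 < π g) {V : AddSubgroup Γ}
    (hV : V ≤ π.ker) : AddSubgroup.zmultiples g ⊓ V = ⊥ := by
  rw [eq_bot_iff]
  intro x hx
  obtain ⟨k, hk⟩ := AddSubgroup.mem_zmultiples_iff.1 hx.1
  have h0 : π x = 0 := by simpa using hV hx.2
  rw [← hk, map_zsmul, smul_eq_mul] at h0
  rcases mul_eq_zero.1 h0 with h | h
  · rw [← hk, h, zero_smul]; exact AddSubgroup.zero_mem _
  · omega

theorem relIndex_sup (π : Γ →+ ℤ) {g : Γ} (hg : 0 < π g) {V : AddSubgroup Γ}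
    (hV : V ≤ π.ker) :
    (AddSubgroup.zmultiples g).relIndex (V ⊔ AddSubgroup.zmultiples g) = Nat.card V := by
  rw [AddSubgroup.relIndex_sup_right, ← AddSubgroup.inf_relIndex_right, zmul_inf_ker π hg hV,
    AddSubgroup.relIndex_bot_left]

end Pool.Agent.Lib.MP_09e095_co
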