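import Mathlib
import Pool.Agent.Lib.MP_09e095_co.CWDefs
import Pool.Agent.Lib.MP_09e095_co.QTransfer
import Pool.Agent.Lib.MP_09e095_co.MLGeo1

/-!
MP_09e095_co, multi-layer theorem: counting modulo `g`.
-/

set_option autoImplicit false

open Finset
open scoped Pointwise

namespace Pool.Agent.Lib.MP_09e095_co

variable {Γ : Type*} [AddCommGroup Γ]

open AddSubgroup (zmultiples)

/-- `V + <g>` and `V` agree on elements of small level difference -/
theorem sub_mem_sup_iff {π : Γ →+ ℤ} {g : Γ} (hg : 0 < π g) {V : AddSubgroup Γ}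
    (hV : V ≤ π.ker) {x y : Γ} (h1 : π x - π y < π g) (h2 : π y - π x < π g) :
    x - y ∈ V ⊔ zmultiples g ↔ x - y ∈ V := by
  constructor
  · intro h
    obtain ⟨v, hv, z, hz, hvz⟩ := AddSubgroup.mem_sup.1 h
    obtain ⟨k, hk⟩ := AddSubgroup.mem_zmultiples_iff.1 hz
    have hv0 : π v = 0 := by simpa using hV hv
    have h3 : π x - π y = k * π g := by
      rw [← map_sub, ← hvz, map_add, hv0, ← hk, map_zsmul, smul_eq_mul, zero_add]
    have hk0 : k = 0 := by
      by_contra hk0
      rcases lt_or_gt_of_ne hk0 with h4 | h4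
      · have : k * π g ≤ -1 * π g := mul_le_mul_of_nonneg_right (by omega) hg.le
        omega
      · have : 1 * π g ≤ k * π g := mul_le_mul_of_nonneg_right (by omega) hg.le
        omega
    rw [← hvz, ← hk, hk0, zero_smul, add_zero]
    exact hv
  · intro h
    exact (le_sup_left : V ≤ V ⊔ zmultiples g) h

/-- the number of cells does not change modulo `g` for a set of levels of width less than `π g` -/
theorem nc_sup_eq {π : Γ →+ ℤ} {g : Γ} (hg : 0 < π g) {V : AddSubgroup Γ}
    (hV : V ≤ π.ker) {A : Finset Γ} (h : ∀ x ∈ A, ∀ y ∈ A, π x - π y < π g) :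
    nc (V ⊔ zmultiples g) A = nc V A := by
  classical
  unfold nc cl
  apply card_image_congr
  intro x hx y hy
  rw [mk_eq_iff, mk_eq_iff]
  exact sub_mem_sup_iff hg hV (h x hx y hy) (h y hy x hx)

/-- sets in different levels -/
theorem nc_union_levels [DecidableEq Γ] {π : Γ →+ ℤ} {V : AddSubgroup Γ}
    (hV : V ≤ π.ker) {A B : Finset Γ} (h : ∀ x ∈ A, ∀ y ∈ B, π x ≠ π y) :
    nc V (A ∪ B) = nc V A + nc V B := by
  classical
  unfold nc
  rw [cl_union, Finset.card_union_of_disjoint]
  rw [Finset.disjoint_left]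
  intro c hc hc'
  obtain ⟨x, hx, rfl⟩ := mem_cl.1 hc
  obtain ⟨y, hy, hxy⟩ := mem_cl.1 hc'
  have := hV (sub_mem_of_mk_eq hxy)
  rw [AddMonoidHom.mem_ker, map_sub] at this
  exact h x hx y hy (by omega)

theorem nc_congr_rel [DecidableEq Γ] {V : AddSubgroup Γ} {A B : Finset Γ}
    (h1 : ∀ a ∈ A, ∃ b ∈ B, a - b ∈ V) (h2 : ∀ b ∈ B, ∃ a ∈ A, b - a ∈ V) :
    cl V A = cl V B := by
  ext c
  rw [mem_cl, mem_cl]
  constructor
  · rintro ⟨a, ha, rfl⟩
    obtain ⟨b, hb, hab⟩ := h1 a ha
    exact ⟨b, hb, (mk_eq_of_sub_mem hab).symm⟩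
  · rintro ⟨b, hb, rfl⟩
    obtain ⟨a, ha, hab⟩ := h2 b hb
    exact ⟨a, ha, (mk_eq_of_sub_mem hab).symm⟩

section dec
variable [DecidableEq Γ]

/-- the lowest layer, with `x + g ∈ A` -/
def C0 (π : Γ →+ ℤ) (g : Γ) (A : Finset Γ) : Finset Γ :=
  A.filter (fun x => π x = 0 ∧ x + g ∈ A)

theorem mem_C0 {π : Γ →+ ℤ} {g : Γ} {A : Finset Γ} {x : Γ} :
    x ∈ C0 π g A ↔ x ∈ A ∧ π x = 0 ∧ x + g ∈ A := by
  unfold C0; rw [Finset.mem_filter]

theorem C0_subset {π : Γ →+ ℤ} {g : Γ} {A : Finset Γ} : C0 π g A ⊆ A :=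
  Finset.filter_subset _ _

omit [DecidableEq Γ] in
theorem sup_bot_eq (g : Γ) : (⊥ : AddSubgroup Γ) ⊔ zmultiples g = zmultiples g := bot_sup_eq _

omit [DecidableEq Γ] in
theorem nc_Z_eq_card {π : Γ →+ ℤ} {g : Γ} (hg : 0 < π g) {A : Finset Γ}
    (h : ∀ x ∈ A, ∀ y ∈ A, π x - π y < π g) : nc (zmultiples g) A = A.card := by
  have := nc_sup_eq (V := ⊥) hg bot_le h
  rw [sup_bot_eq, nc_bot] at this
  exact this

theorem C0_levels {π : Γ →+ ℤ} {g : Γ} (hg : 0 < π g) {A : Finset Γ} :
    ∀ x ∈ C0 π g A, ∀ y ∈ C0 π g A, π x - π y < π g := by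
  intro x hx y hy
  rw [(mem_C0.1 hx).2.1, (mem_C0.1 hy).2.1]; omega

/-- `|A| = |B| + |C|` -/
theorem card_mod {π : Γ →+ ℤ} {g : Γ} (hg : 0 < π g) {A : Finset Γ}
    (hlo : ∀ a ∈ A, 0 ≤ π a) (hhi : ∀ a ∈ A, π a ≤ π g) :
    nc (zmultiples g) A + nc (zmultiples g) (C0 π g A) = A.card := by
  classical
  set Z := zmultiples g with hZ
  set lo := A.filter (fun x => π x < π g) with hlodef
  set up := A.filter (fun x => ¬ π x < π g) with hupdef
  have hA : lo ∪ up = A := Finset.filter_union_filter_not_eq _ _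
  have hcard : lo.card + up.card = A.card := Finset.card_filter_add_card_filter_not _
  have h1 : nc Z lo = lo.card := by
    apply nc_Z_eq_card hg
    intro x hx y hy
    have := (Finset.mem_filter.1 hx).2
    have := hlo y (Finset.mem_filter.1 hy).1
    omega
  have hupl : ∀ x ∈ up, π x = π g := by
    intro x hx
    have := (Finset.mem_filter.1 hx).2
    have := hhi x (Finset.mem_filter.1 hx).1
    omega
  have h2 : nc Z up = up.card := by
    apply nc_Z_eq_card hg
    intro x hx y hy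
    rw [hupl x hx, hupl y hy]; omega
  have h3 : cl Z lo ∩ cl Z up = cl Z (C0 π g A) := by
    ext c
    rw [Finset.mem_inter, mem_cl, mem_cl, mem_cl]
    constructor
    · rintro ⟨⟨x, hx, rfl⟩, y, hy, hxy⟩
      have hmem := sub_mem_of_mk_eq hxy
      obtain ⟨k, hk⟩ := AddSubgroup.mem_zmultiples_iff.1 hmem
      have hπ : k * π g = π g - π x := by
        rw [← hupl y hy, ← map_sub, ← hk, map_zsmul, smul_eq_mul, hupl y hy]
      have hx0 := hlo x (Finset.mem_filter.1 hx).1
      have hx1 := (Finset.mem_filter.1 hx).2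
      have hk1 : k = 1 := by
        by_contra hne
        rcases lt_or_gt_of_ne hne with h4 | h4
        · have : k * π g ≤ 0 * π g := mul_le_mul_of_nonneg_right (by omega) hg.le
          omega
        · have : 2 * π g ≤ k * π g := mul_le_mul_of_nonneg_right (by omega) hg.le
          omega
      refine ⟨x, mem_C0.2 ⟨(Finset.mem_filter.1 hx).1, ?_, ?_⟩, rfl⟩
      · rw [hk1] at hπ; omega
      · rw [hk1, one_smul] at hk
        rw [hk]
        have : x + (y - x) = y := by abel
        rw [this]; exact (Finset.mem_filter.1 hy).1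
    · rintro ⟨x, hx, rfl⟩
      obtain ⟨hxA, hx0, hxg⟩ := mem_C0.1 hx
      refine ⟨⟨x, Finset.mem_filter.2 ⟨hxA, by omega⟩, rfl⟩, x + g,
        Finset.mem_filter.2 ⟨hxg, by rw [map_add]; omega⟩, ?_⟩
      apply mk_eq_of_sub_mem
      have : x + g - x = g := by abel
      rw [this]; exact AddSubgroup.mem_zmultiples g
  have h4 := Finset.card_union_add_card_inter (cl Z lo) (cl Z up)
  rw [← cl_union, hA, h3] at h4
  change nc Z A + nc Z (C0 π g A) = nc Z lo + nc Z up at h4
  omega

/-- the compression inequality -/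
theorem card_add_mod {π : Γ →+ ℤ} {g : Γ} (hg : 0 < π g) {A : Finset Γ}
    (Z : AddSubgroup Γ) (hZ : Z = zmultiples g) [DecidableEq (Γ ⧸ Z)] :
    (cl Z A + cl Z A).card + (cl Z A + cl Z (C0 π g A)).card +
      (cl Z (C0 π g A) + cl Z (C0 π g A)).card ≤ (A + A).card := by
  have hgZ : g ∈ Z := by rw [hZ]; exact AddSubgroup.mem_zmultiples g
  set B := cl Z A with hB
  set C := cl Z (C0 π g A) with hC
  have hCB : C ⊆ B := cl_mono C0_subset
  have hg0 : g ≠ 0 := by
    rintro rfl
    simp at hg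
  have h2g : g + g ≠ 0 := by
    intro h
    have := congrArg π h
    rw [map_add, map_zero] at this
    omega
  have hmkg : ∀ x : Γ, (QuotientAddGroup.mk (x + g) : Γ ⧸ Z) = QuotientAddGroup.mk x := by
    intro x
    apply mk_eq_of_sub_mem
    have : x + g - x = g := by abel
    rw [this]; exact hgZ
  have hcl : cl Z (A + A) = B + B := cl_add_cl A A
  rw [card_eq_sum_fb (V := Z) (A + A) (le_refl _), hcl]
  have e1 : (B + B).card = ∑ z ∈ B + B, 1 := by rw [Finset.sum_const, smul_eq_mul, mul_one]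
  have e2 : (B + C).card = ∑ z ∈ B + B, if z ∈ B + C then 1 else 0 := by
    rw [← Finset.card_filter]
    congr 1
    ext z
    rw [Finset.mem_filter]
    exact ⟨fun h => ⟨Finset.add_subset_add_left hCB h, h⟩, fun h => h.2⟩
  have e3 : (C + C).card = ∑ z ∈ B + B, if z ∈ C + C then 1 else 0 := by
    rw [← Finset.card_filter]
    congr 1
    ext z
    rw [Finset.mem_filter]
    exact ⟨fun h => ⟨Finset.add_subset_add hCB hCB h, h⟩, fun h => h.2⟩
  rw [e1, e2, e3, ← Finset.sum_add_distrib, ← Finset.sum_add_distrib]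
  apply Finset.sum_le_sum
  intro z hz
  by_cases h3 : z ∈ C + C
  · have h2 : z ∈ B + C := Finset.add_subset_add_right hCB h3
    rw [if_pos h2, if_pos h3]
    obtain ⟨c, hc, c', hc', rfl⟩ := Finset.mem_add.1 h3
    obtain ⟨x, hx, rfl⟩ := mem_cl.1 hc
    obtain ⟨y, hy, rfl⟩ := mem_cl.1 hc'
    obtain ⟨hxA, -, hxg⟩ := mem_C0.1 hx
    obtain ⟨hyA, -, hyg⟩ := mem_C0.1 hy
    have hsub : ({x + y, x + (y + g), (x + g) + (y + g)} : Finset Γ) ⊆
        fb Z (A + A) (QuotientAddGroup.mk x + QuotientAddGroup.mk y) := by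
      intro w hw
      rw [Finset.mem_insert, Finset.mem_insert, Finset.mem_singleton] at hw
      rw [mem_fb]
      rcases hw with rfl | rfl | rfl
      · exact ⟨Finset.add_mem_add hxA hyA, rfl⟩
      · exact ⟨Finset.add_mem_add hxA hyg, by rw [QuotientAddGroup.mk_add, hmkg]⟩
      · exact ⟨Finset.add_mem_add hxg hyg, by rw [QuotientAddGroup.mk_add, hmkg, hmkg]⟩
    refine le_trans ?_ (Finset.card_le_card hsub)
    rw [Finset.card_insert_of_notMem, Finset.card_insert_of_notMem, Finset.card_singleton]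
    · rw [Finset.mem_singleton]
      intro h
      apply hg0
      have : (x + g) + (y + g) - (x + (y + g)) = g := by abel
      rw [← this, ← h, sub_self]
    · rw [Finset.mem_insert, Finset.mem_singleton]
      rintro (h | h)
      · apply hg0
        have : x + (y + g) - (x + y) = g := by abel
        rw [← this, ← h, sub_self]
      · apply h2g
        have : (x + g) + (y + g) - (x + y) = g + g := by abel
        rw [← this, ← h, sub_self]
  · rw [if_neg h3]
    by_cases h2 : z ∈ B + C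
    · rw [if_pos h2]
      obtain ⟨c, hc, c', hc', rfl⟩ := Finset.mem_add.1 h2
      obtain ⟨x, hxA, rfl⟩ := mem_cl.1 hc
      obtain ⟨y, hy, rfl⟩ := mem_cl.1 hc'
      obtain ⟨hyA, -, hyg⟩ := mem_C0.1 hy
      have hsub : ({x + y, x + (y + g)} : Finset Γ) ⊆
          fb Z (A + A) (QuotientAddGroup.mk x + QuotientAddGroup.mk y) := by
        intro w hw
        rw [Finset.mem_insert, Finset.mem_singleton] at hw
        rw [mem_fb]
        rcases hw with rfl | rfl
        · exact ⟨Finset.add_mem_add hxA hyA, rfl⟩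
        · exact ⟨Finset.add_mem_add hxA hyg, by rw [QuotientAddGroup.mk_add, hmkg]⟩
      refine le_trans ?_ (Finset.card_le_card hsub)
      rw [Finset.card_insert_of_notMem, Finset.card_singleton]
      rw [Finset.mem_singleton]
      intro h
      apply hg0
      have : x + (y + g) - (x + y) = g := by abel
      rw [← this, ← h, sub_self]
    · rw [if_neg h2]
      have : z ∈ cl Z (A + A) := by rw [hcl]; exact hz
      exact Finset.card_pos.2 (fb_nonempty_iff.2 this)

end dec

end Pool.Agent.Lib.MP_09e095_co
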