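import Mathlib
import Pool.Agent.Lib.MP_09e095_co.MLGeo2

/-!
MP_09e095_co, multi-layer theorem: the minimising subgroup.
-/

set_option autoImplicit false

open Finset
open scoped Pointwise

namespace Pool.Agent.Lib.MP_09e095_co

open AddSubgroup (zmultiples)

universe u

variable {Γ : Type u} [AddCommGroup Γ]

/-- the order of `N / <g>` -/
noncomputable def idx (g : Γ) (N : AddSubgroup Γ) : ℕ := (zmultiples g).relIndex N

theorem idx_comap (g : Γ) (M : AddSubgroup (Γ ⧸ zmultiples g)) :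
    idx g (M.comap (QuotientAddGroup.mk' (zmultiples g))) = Nat.card M := by
  have h : (⊥ : AddSubgroup (Γ ⧸ zmultiples g)).comap (QuotientAddGroup.mk' (zmultiples g)) =
      zmultiples g := by
    rw [AddMonoidHom.comap_bot, QuotientAddGroup.ker_mk']
  have h2 := AddSubgroup.relIndex_comap (⊥ : AddSubgroup (Γ ⧸ zmultiples g))
    (QuotientAddGroup.mk' (zmultiples g)) (M.comap (QuotientAddGroup.mk' (zmultiples g)))
  rw [h, AddSubgroup.map_comap_eq_self_of_surjective (QuotientAddGroup.mk'_surjective _),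
    AddSubgroup.relIndex_bot_left] at h2
  exact h2

theorem comap_map_mk {Z N : AddSubgroup Γ} (h : Z ≤ N) :
    (N.map (QuotientAddGroup.mk' Z)).comap (QuotientAddGroup.mk' Z) = N := by
  rw [AddSubgroup.comap_map_eq, QuotientAddGroup.ker_mk']
  exact sup_eq_left.2 h

theorem idx_pos (π : Γ →+ ℤ) (hK : (π.ker : Set Γ).Finite) {g : Γ} (hg : 0 < π g)
    (N : AddSubgroup Γ) (hN : zmultiples g ≤ N) : 0 < idx g N := by
  obtain ⟨e, lam, _, _, h1, _, _, h2⟩ := sub_struct π hg N hN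
  unfold idx
  rw [h2]
  have : Nat.card (N ⊓ π.ker : AddSubgroup Γ) ≠ 0 :=
    natCard_ne_zero_of_finite (hK.subset (fun x hx => hx.2))
  exact Nat.mul_pos (by omega) (Nat.pos_of_ne_zero this)

theorem idx_mul (g : Γ) {N N' : AddSubgroup Γ} (hN : zmultiples g ≤ N) (h : N ≤ N') :
    idx g N' = idx g N * N.relIndex N' := by
  unfold idx
  rw [AddSubgroup.relIndex_mul_relIndex _ _ _ hN h]

variable [DecidableEq Γ]

/-- `N` is a minimiser of the value, of maximal order -/
structure MinN (π : Γ →+ ℤ) (g : Γ) (A : Finset Γ) (N : AddSubgroup Γ) : Prop where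
  le : zmultiples g ≤ N
  val : A.card + 2 * (idx g N * (nc N A + nc N (C0 π g A))) ≤ (A + A).card + 3 * idx g N
  min : ∀ N' : AddSubgroup Γ, zmultiples g ≤ N' →
    2 * (idx g N * (nc N A + nc N (C0 π g A))) + 3 * idx g N' ≤
      2 * (idx g N' * (nc N' A + nc N' (C0 π g A))) + 3 * idx g N
  max : ∀ N' : AddSubgroup Γ, zmultiples g ≤ N' → idx g N < idx g N' →
    2 * (idx g N * (nc N A + nc N (C0 π g A))) + 3 * idx g N' <
      2 * (idx g N' * (nc N' A + nc N' (C0 π g A))) + 3 * idx g N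

theorem exists_minN (hQ : ∀ (G : Type u) [AddCommGroup G], QThm G)
    (π : Γ →+ ℤ) (hK : (π.ker : Set Γ).Finite) {g : Γ} (hg : 0 < π g) {A : Finset Γ}
    (hlo : ∀ a ∈ A, 0 ≤ π a) (hhi : ∀ a ∈ A, π a ≤ π g) (hC : (C0 π g A).Nonempty) :
    ∃ N, MinN π g A N := by
  classical
  set Z := zmultiples g with hZ
  have hidx : Z.index ≠ 0 := index_ne_zero π hK hg
  have hfin : Finite (Γ ⧸ Z) := by
    have : Z.FiniteIndex := ⟨hidx⟩
    exact AddSubgroup.finite_quotient_of_finiteIndex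
  have hA : A.Nonempty := hC.mono C0_subset
  -- value on subgroups of the quotient
  let v : AddSubgroup (Γ ⧸ Z) → ℤ := fun M =>
    2 * (Nat.card M * (nc M (cl Z A) + nc M (cl Z (C0 π g A))) : ℕ) - 3 * Nat.card M
  have hfinS : Finite (AddSubgroup (Γ ⧸ Z)) := inferInstance
  let U : Finset (AddSubgroup (Γ ⧸ Z)) := Set.finite_univ.toFinset
  have hU : ∀ M, M ∈ U := fun M => by simp [U]
  obtain ⟨M0, _, hM0⟩ := Finset.exists_min_image U v ⟨⊥, hU ⊥⟩
  obtain ⟨M, hM, hMmax⟩ := Finset.exists_max_image (U.filter (fun M => v M = v M0))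
    (fun M => Nat.card M) ⟨M0, Finset.mem_filter.2 ⟨hU _, rfl⟩⟩
  have hMv : v M = v M0 := (Finset.mem_filter.1 hM).2
  have hmin : ∀ M' : AddSubgroup (Γ ⧸ Z), v M ≤ v M' := fun M' => by rw [hMv]; exact hM0 M' (hU M')
  have hmax : ∀ M' : AddSubgroup (Γ ⧸ Z), Nat.card M < Nat.card M' → v M < v M' := by
    intro M' h
    refine lt_of_le_of_ne (hmin M') ?_
    intro heq
    have := hMmax M' (Finset.mem_filter.2 ⟨hU _, by rw [← heq, hMv]⟩)
    omega
  set N := M.comap (QuotientAddGroup.mk' Z) with hN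
  have hZN : Z ≤ N := le_comap_mk M
  have hidxN : idx g N = Nat.card M := idx_comap g M
  have hncN : ∀ S, nc N S = nc M (cl Z S) := fun S => nc_comap M S
  have hgen : ∀ N', Z ≤ N' → ∃ M' : AddSubgroup (Γ ⧸ Z), idx g N' = Nat.card M' ∧ (∀ S, nc N' S = nc M' (cl Z S)) := by
    intro N' h
    refine ⟨N'.map (QuotientAddGroup.mk' Z), ?_, ?_⟩
    · rw [← idx_comap, comap_map_mk h]
    · intro S
      rw [← nc_comap, comap_map_mk h]
  refine ⟨N, hZN, ?_, ?_, ?_⟩
  · -- theorem Q in the quotient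
    have hCn : (cl Z (C0 π g A)).Nonempty := by
      obtain ⟨x, hx⟩ := hC
      exact ⟨_, mk_mem_cl hx⟩
    have hBn : (cl Z A).Nonempty := by
      obtain ⟨x, hx⟩ := hA
      exact ⟨_, mk_mem_cl hx⟩
    obtain ⟨V, _, hV⟩ := hQ (Γ ⧸ Z) inferInstance (cl Z A) (cl Z (C0 π g A)) hBn hCn
    have h1 := card_mod (π := π) hg hlo hhi
    have h2 := card_add_mod (π := π) hg (A := A) Z rfl
    have h3 := hmin V
    simp only [v] at h3
    rw [hidxN, hncN, hncN]
    change (cl Z A).card + (cl Z (C0 π g A)).card = A.card at h1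
    push_cast at h3
    zify at h1 h2 hV ⊢
    linarith
  · intro N' hN'
    obtain ⟨M', h1, h2⟩ := hgen N' hN'
    have h3 := hmin M'
    simp only [v] at h3
    rw [hidxN, hncN, hncN, h1, h2, h2]
    push_cast at h3
    zify
    linarith
  · intro N' hN' hlt
    obtain ⟨M', h1, h2⟩ := hgen N' hN'
    rw [hidxN, h1] at hlt
    have h3 := hmax M' hlt
    simp only [v] at h3
    rw [hidxN, hncN, hncN, h1, h2, h2]
    push_cast at h3
    zify
    linarith

end Pool.Agent.Lib.MP_09e095_co
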