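import Mathlib
import Pool.Agent.Lib.MP_09e095_co.MLGeo3

/-!
MP_09e095_co, multi-layer theorem: consequences of minimality, in `Γ`.
-/

set_option autoImplicit false

open Finset
open scoped Pointwise

namespace Pool.Agent.Lib.MP_09e095_co

open AddSubgroup (zmultiples)

universe u

variable {Γ : Type u} [AddCommGroup Γ]

/-- a set in one coset of `N` meets at most `V.relIndex N` cosets of `V` -/
theorem nc_le_relIndex {V N : AddSubgroup Γ} (hfin : V.relIndex N ≠ 0) {A : Finset Γ}
    (h : ∀ x ∈ A, ∀ y ∈ A, x - y ∈ N) : nc V A ≤ V.relIndex N := by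
  classical
  rcases A.eq_empty_or_nonempty with rfl | ⟨a, ha⟩
  · rw [nc_eq_zero.2 rfl]; exact Nat.zero_le _
  have hf : Finite (N ⧸ (V.addSubgroupOf N)) := by
    apply Nat.finite_of_card_ne_zero
    exact hfin
  have : Fintype (N ⧸ (V.addSubgroupOf N)) := Fintype.ofFinite _
  have hcard : V.relIndex N = Fintype.card (N ⧸ (V.addSubgroupOf N)) := by
    rw [← Nat.card_eq_fintype_card]; rfl
  rw [hcard]
  unfold nc
  let F : Γ → N ⧸ (V.addSubgroupOf N) := fun x =>
    if hx : x - a ∈ N then QuotientAddGroup.mk ⟨x - a, hx⟩ else 0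
  have h1 : (A.image (fun x => (QuotientAddGroup.mk x : Γ ⧸ V))).card = (A.image F).card := by
    apply card_image_congr
    intro x hx y hy
    have hx' : x - a ∈ N := h x hx a ha
    have hy' : y - a ∈ N := h y hy a ha
    simp only [F, dif_pos hx', dif_pos hy']
    rw [mk_eq_iff, QuotientAddGroup.eq, AddSubgroup.mem_addSubgroupOf]
    have : ((-(⟨x - a, hx'⟩ : N) + ⟨y - a, hy'⟩ : N) : Γ) = -(x - y) := by
      change -(x - a) + (y - a) = -(x - y)
      abel
    rw [this, neg_mem_iff]
  have h2 : (cl V A).card = (A.image F).card := by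
    rw [← h1]; unfold cl; congr
  rw [h2]
  exact Finset.card_le_univ _

variable [DecidableEq Γ]

/-- standing hypotheses, for a proof by contradiction of the multi-layer theorem -/
structure Hyp (π : Γ →+ ℤ) (g : Γ) (A : Finset Γ) : Prop where
  ker : (π.ker : Set Γ).Finite
  pos : 0 < π g
  lo : ∀ a ∈ A, 0 ≤ π a
  hi : ∀ a ∈ A, π a ≤ π g
  ne : (C0 π g A).Nonempty
  mu : ∀ V ≤ π.ker, (A + A).card + 3 * Nat.card V < A.card + 2 * (Nat.card V * nc V A)
  al : ∀ V ≤ π.ker, ∀ (n : ℕ) (a d : Γ), 2 ≤ n → (∀ x ∈ A, ∃ j : ℕ, j < n ∧ x - a - j • d ∈ V) →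
    (A + A).card < (n - 1) * Nat.card V + A.card
  cw : ∀ V ≤ π.ker, (A + A).card + 3 * Nat.card V < A.card + 2 * (Nat.card V *
    (nc (V ⊔ zmultiples g) A + nc (V ⊔ zmultiples g) (C0 π g A)))

/-- number of strips -/
theorem Hyp.facts {π : Γ →+ ℤ} {g : Γ} {A : Finset Γ} (h : Hyp π g A) {N : AddSubgroup Γ}
    (hN : MinN π g A N) :
    ∃ lam : ℕ, 2 ≤ lam ∧ idx g N = Nat.card (N ⊓ π.ker : AddSubgroup Γ) * lam ∧
      ((N ⊓ π.ker) ⊔ zmultiples g).relIndex N = lam ∧
      nc N (C0 π g A) = 1 ∧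
      2 * (lam * nc N A) + 1 ≤ 2 * nc ((N ⊓ π.ker) ⊔ zmultiples g) A + lam := by
  classical
  set L : AddSubgroup Γ := N ⊓ π.ker with hL
  have hLN : L ≤ N := inf_le_left
  have hLk : L ≤ π.ker := inf_le_right
  have hLf : (L : Set Γ).Finite := h.ker.subset hLk
  have hLpos : 0 < Nat.card L := Nat.pos_of_ne_zero (natCard_ne_zero_of_finite hLf)
  set M : AddSubgroup Γ := L ⊔ zmultiples g with hM
  have hMN : M ≤ N := sup_le hLN hN.le
  have hZM : zmultiples g ≤ M := le_sup_right
  have hidxM : idx g M = Nat.card L := relIndex_sup π h.pos hLk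
  have hidx : idx g N = Nat.card L * M.relIndex N := by rw [idx_mul g hZM hMN, hidxM]
  have hpos : 0 < idx g N := idx_pos π h.ker h.pos N hN.le
  -- C0
  have hCeq : nc N (C0 π g A) = nc M (C0 π g A) := by
    unfold nc cl
    apply card_image_congr
    intro x hx y hy
    rw [mk_eq_iff, mk_eq_iff]
    constructor
    · intro hxy
      have : x - y ∈ L := by
        rw [hL, AddSubgroup.mem_inf, AddMonoidHom.mem_ker, map_sub, (mem_C0.1 hx).2.1,
          (mem_C0.1 hy).2.1]
        exact ⟨hxy, by simp⟩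
      exact (le_sup_left : L ≤ M) this
    · intro hxy
      exact hMN hxy
  have hval := hN.val
  have hmin := hN.min M hZM
  have hcpos : 0 < nc N (C0 π g A) := nc_pos h.ne
  set lam := M.relIndex N with hlam
  have hlampos : 0 < lam := by
    rcases Nat.eq_zero_or_pos lam with h0 | h0
    · rw [h0, mul_zero] at hidx; omega
    · exact h0
  have hlam2 : 2 ≤ lam := by
    by_contra hcon
    have h1 : lam = 1 := by omega
    have hNM : N ≤ M := by
      rw [hlam] at h1
      exact AddSubgroup.relIndex_eq_one.1 h1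
    have hMN' : M = N := le_antisymm hMN hNM
    have h2 := h.cw L hLk
    rw [← hM, hMN'] at h2
    rw [hidx, h1, mul_one] at hval
    omega
  -- divide by |L|
  rw [← hCeq, hidxM, hidx] at hmin
  set c := nc N (C0 π g A) with hc
  set m := nc N A with hm
  set b := nc M A with hb
  have hdiv : 2 * (lam * (m + c)) + 3 ≤ 2 * (b + c) + 3 * lam := by
    have h1 : Nat.card L * (2 * (lam * (m + c)) + 3) ≤
        Nat.card L * (2 * (b + c) + 3 * lam) := by
      calc Nat.card L * (2 * (lam * (m + c)) + 3)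
          = 2 * (Nat.card L * lam * (m + c)) + 3 * Nat.card L := by ring
        _ ≤ _ := hmin
        _ = Nat.card L * (2 * (b + c) + 3 * lam) := by ring
    exact Nat.le_of_mul_le_mul_left h1 hLpos
  -- b ≤ lam * m
  have hbm : b ≤ lam * m := by
    rw [hb, nc_eq_sum_fb hMN A (le_refl _)]
    calc ∑ θ ∈ cl N A, nc M (fb N A θ) ≤ ∑ _θ ∈ cl N A, lam := by
          apply Finset.sum_le_sum
          intro θ _
          apply nc_le_relIndex (by rw [← hlam]; omega)
          intro x hx y hy
          exact sub_mem_of_mk_eq ((mem_fb.1 hx).2.trans (mem_fb.1 hy).2.symm)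
      _ = lam * m := by rw [Finset.sum_const, smul_eq_mul, mul_comm]; rfl
  have hc1 : c = 1 := by
    by_contra hne
    have hc2 : 2 ≤ c := by omega
    have h3 : lam * (m + c) = lam * m + lam * c := by ring
    rw [h3] at hdiv
    obtain ⟨c', hc'⟩ : ∃ c', c = c' + 2 := ⟨c - 2, by omega⟩
    rw [hc'] at hdiv
    have h4 : lam * (c' + 2) = lam * c' + 2 * lam := by ring
    have h5 : 1 * c' ≤ lam * c' := Nat.mul_le_mul_right _ hlampos
    omega
  refine ⟨lam, hlam2, hidx, rfl, hc1, ?_⟩
  rw [hc1] at hdiv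
  have h3 : lam * (m + 1) = lam * m + lam := by ring
  omega

/-- lower bound for the doubling -/
theorem Hyp.val_ge {π : Γ →+ ℤ} {g : Γ} {A : Finset Γ} (h : Hyp π g A) {N : AddSubgroup Γ}
    (hN : MinN π g A N) : A.card + 2 * (idx g N * nc N A) ≤ (A + A).card + idx g N := by
  obtain ⟨lam, _, _, _, hc, _⟩ := h.facts hN
  have := hN.val
  rw [hc] at this
  have h1 : idx g N * (nc N A + 1) = idx g N * nc N A + idx g N := by ring
  omega

end Pool.Agent.Lib.MP_09e095_co
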