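import Mathlib
import Pool.Agent.Lib.MP_09e095_co.MLDefs
import Pool.Agent.Lib.MP_09e095_co.MLGeo4

/-!
MP_09e095_co, multi-layer theorem: the conditions `HW`.
-/

set_option autoImplicit false

open Finset
open scoped Pointwise

namespace Pool.Agent.Lib.MP_09e095_co

open AddSubgroup (zmultiples)

universe u

variable {Γ : Type u} [AddCommGroup Γ]

/-- the image of `N` in `Γ / L` -/
abbrev NL (L N : AddSubgroup Γ) : AddSubgroup (Γ ⧸ L) := N.map (QuotientAddGroup.mk' L)

/-- the map from `Γ` to `(Γ/L)/(N/L)` -/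
def qH (L N : AddSubgroup Γ) : Γ →+ (Γ ⧸ L) ⧸ (NL L N) :=
  (QuotientAddGroup.mk' (NL L N)).comp (QuotientAddGroup.mk' L)

theorem qH_apply (L N : AddSubgroup Γ) (x : Γ) :
    qH L N x = QuotientAddGroup.mk (QuotientAddGroup.mk x : Γ ⧸ L) := rfl

theorem mk_mem_NL {L N : AddSubgroup Γ} (hL : L ≤ N) {x : Γ} :
    (QuotientAddGroup.mk x : Γ ⧸ L) ∈ NL L N ↔ x ∈ N := by
  constructor
  · intro h
    obtain ⟨y, hy, hyx⟩ := AddSubgroup.mem_map.1 h
    have h1 : y - x ∈ L := sub_mem_of_mk_eq hyx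
    have : x = y - (y - x) := by abel
    rw [this]
    exact N.sub_mem hy (hL h1)
  · intro h
    exact AddSubgroup.mem_map.2 ⟨x, h, rfl⟩

theorem qH_eq_iff {L N : AddSubgroup Γ} (hL : L ≤ N) {x y : Γ} :
    qH L N x = qH L N y ↔ x - y ∈ N := by
  rw [qH_apply, qH_apply, mk_eq_iff, ← QuotientAddGroup.mk_sub, mk_mem_NL hL]

theorem qH_surjective (L N : AddSubgroup Γ) : Function.Surjective (qH L N) := by
  intro c
  obtain ⟨d, rfl⟩ := QuotientAddGroup.mk_surjective c
  obtain ⟨x, rfl⟩ := QuotientAddGroup.mk_surjective d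
  exact ⟨x, rfl⟩

theorem comap_bot_qH {L N : AddSubgroup Γ} (hL : L ≤ N) :
    (⊥ : AddSubgroup ((Γ ⧸ L) ⧸ (NL L N))).comap (qH L N) = N := by
  ext x
  rw [AddSubgroup.mem_comap, AddSubgroup.mem_bot]
  have := qH_eq_iff hL (x := x) (y := 0)
  rw [map_zero, sub_zero] at this
  exact this

theorem nc_qH {L N : AddSubgroup Γ} (S : AddSubgroup ((Γ ⧸ L) ⧸ (NL L N))) (A : Finset Γ) :
    nc S (cl (NL L N) (cl L A)) = nc (S.comap (qH L N)) A := by
  rw [← nc_comap, ← nc_comap]
  rfl

theorem relIndex_qH {L N : AddSubgroup Γ} (hL : L ≤ N)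
    (S : AddSubgroup ((Γ ⧸ L) ⧸ (NL L N))) :
    N.relIndex (S.comap (qH L N)) = Nat.card S := by
  have h2 := AddSubgroup.relIndex_comap (⊥ : AddSubgroup ((Γ ⧸ L) ⧸ (NL L N)))
    (qH L N) (S.comap (qH L N))
  rw [comap_bot_qH hL, AddSubgroup.map_comap_eq_self_of_surjective (qH_surjective L N),
    AddSubgroup.relIndex_bot_left] at h2
  exact h2

theorem le_comap_qH {L N : AddSubgroup Γ} (hL : L ≤ N)
    (S : AddSubgroup ((Γ ⧸ L) ⧸ (NL L N))) : N ≤ S.comap (qH L N) := by
  conv_lhs => rw [← comap_bot_qH hL]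
  exact AddSubgroup.comap_mono bot_le

theorem finite_H {L N : AddSubgroup Γ} (hL : L ≤ N) (hN : N.index ≠ 0) :
    Finite ((Γ ⧸ L) ⧸ (NL L N)) := by
  have h := AddSubgroup.index_comap_of_surjective (NL L N) (QuotientAddGroup.mk'_surjective L)
  rw [comap_map_mk hL] at h
  have : (NL L N).index ≠ 0 := by rw [← h]; exact hN
  have : (NL L N).FiniteIndex := ⟨this⟩
  exact AddSubgroup.finite_quotient_of_finiteIndex

variable [DecidableEq Γ]

theorem Hyp.index_ne_zero {π : Γ →+ ℤ} {g : Γ} {A : Finset Γ} (h : Hyp π g A)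
    {N : AddSubgroup Γ} (hN : MinN π g A N) : N.index ≠ 0 := by
  have h1 := Pool.Agent.Lib.MP_09e095_co.index_ne_zero π h.ker h.pos
  intro h0
  have := AddSubgroup.index_dvd_of_le hN.le
  rw [h0, zero_dvd_iff] at this
  exact h1 this

/-- a larger subgroup meeting `A` in one coset has relative index at least `2m` -/
theorem Hyp.h1' {π : Γ →+ ℤ} {g : Γ} {A : Finset Γ} (h : Hyp π g A) {N : AddSubgroup Γ}
    (hN : MinN π g A N) {N1 : AddSubgroup Γ} (hNN : N ≤ N1)
    (hA : ∀ a ∈ A, ∀ b ∈ A, a - b ∈ N1) : 2 * nc N A ≤ N.relIndex N1 := by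
  by_contra hcon
  obtain ⟨e, lam, he, hpe, hlam1, hlam, hdiv, hidx⟩ := sub_struct π h.pos N1 (hN.le.trans hNN)
  obtain ⟨a0, ha0⟩ := h.ne
  obtain ⟨ha0A, ha00, -⟩ := mem_C0.1 ha0
  have hal := h.al (N1 ⊓ π.ker) inf_le_right (lam + 1) a0 e (by omega) (by
    intro x hx
    obtain ⟨t, ht⟩ := hdiv (x - a0) (hA x hx a0 ha0A)
    rw [map_sub, ha00, sub_zero] at ht
    have hx0 := h.lo x hx
    have hx1 := h.hi x hx
    have ht0 : 0 ≤ t := by
      by_contra hneg
      have : π e * t ≤ π e * (-1) := mul_le_mul_of_nonneg_left (by omega) hpe.le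
      omega
    have ht1 : t ≤ lam := by
      by_contra hgt
      have : π e * ((lam : ℤ) + 1) ≤ π e * t := mul_le_mul_of_nonneg_left (by omega) hpe.le
      have h2 : π e * ((lam : ℤ) + 1) = (lam : ℤ) * π e + π e := by ring
      omega
    obtain ⟨t', rfl⟩ := Int.eq_ofNat_of_zero_le ht0
    refine ⟨t', by omega, ?_⟩
    rw [AddSubgroup.mem_inf, AddMonoidHom.mem_ker]
    refine ⟨N1.sub_mem (hA x hx a0 ha0A) (N1.nsmul_mem he _), ?_⟩
    rw [map_sub, map_sub, map_nsmul, ha00, ht, nsmul_eq_mul]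
    ring)
  have h3 : idx g N1 = idx g N * N.relIndex N1 := idx_mul g hN.le hNN
  have h4 : idx g N1 = lam * Nat.card (N1 ⊓ π.ker : AddSubgroup Γ) := hidx
  have h5 := h.val_ge hN
  have h6 : idx g N * N.relIndex N1 + idx g N ≤ 2 * (idx g N * nc N A) := by
    have : idx g N * (N.relIndex N1 + 1) ≤ idx g N * (2 * nc N A) :=
      Nat.mul_le_mul_left _ (by omega)
    calc idx g N * N.relIndex N1 + idx g N = idx g N * (N.relIndex N1 + 1) := by ring
      _ ≤ idx g N * (2 * nc N A) := this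
      _ = 2 * (idx g N * nc N A) := by ring
  have h7 : lam + 1 - 1 = lam := by omega
  rw [h7] at hal
  omega

/-- strict maximality -/
theorem Hyp.h2' {π : Γ →+ ℤ} {g : Γ} {A : Finset Γ} (h : Hyp π g A) {N : AddSubgroup Γ}
    (hN : MinN π g A N) {N1 : AddSubgroup Γ} (hNN : N ≤ N1) (h2 : 2 ≤ N.relIndex N1) :
    2 * nc N A + N.relIndex N1 ≤ 2 * (N.relIndex N1 * nc N1 A) := by
  obtain ⟨lam, _, _, _, hc, _⟩ := h.facts hN
  have hpos : 0 < idx g N := idx_pos π h.ker h.pos N hN.le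
  have h3 : idx g N1 = idx g N * N.relIndex N1 := idx_mul g hN.le hNN
  have hlt : idx g N < idx g N1 := by
    rw [h3]
    calc idx g N = idx g N * 1 := (mul_one _).symm
      _ < idx g N * N.relIndex N1 := Nat.mul_lt_mul_of_pos_left (by omega) hpos
  have h4 := hN.max N1 (hN.le.trans hNN) hlt
  have hc1 : nc N1 (C0 π g A) = 1 := by
    have h5 : InCoset N1 (C0 π g A) := (inCoset_of_nc_eq_one hc).mono hNN
    exact h5.nc_eq_one h.ne
  rw [hc, hc1, h3] at h4
  set s := N.relIndex N1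
  set m := nc N A
  set m1 := nc N1 A
  have h5 : idx g N * (2 * (m + 1) + 3 * s) < idx g N * (2 * (s * (m1 + 1)) + 3) := by
    calc idx g N * (2 * (m + 1) + 3 * s)
        = 2 * (idx g N * (m + 1)) + 3 * (idx g N * s) := by ring
      _ < _ := h4
      _ = idx g N * (2 * (s * (m1 + 1)) + 3) := by ring
  have h6 := Nat.lt_of_mul_lt_mul_left h5
  have h7 : s * (m1 + 1) = s * m1 + s := by ring
  omega

/-- two cosets -/
theorem Hyp.h3' (hQ : QThm Γ) {π : Γ →+ ℤ} {g : Γ} {A : Finset Γ} (h : Hyp π g A)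
    {N1 : AddSubgroup Γ} (h2 : nc N1 A = 2) :
    ∀ a ∈ A, ∀ b ∈ A, (a - b) + (a - b) ∈ N1 := by
  classical
  intro a ha b hb
  by_contra hcon
  have hab : a - b ∉ N1 := fun hab => hcon (N1.add_mem hab hab)
  -- the two parts
  set X := fb N1 A (QuotientAddGroup.mk a) with hX
  set Y := fb N1 A (QuotientAddGroup.mk b) with hY
  have hne : (QuotientAddGroup.mk a : Γ ⧸ N1) ≠ QuotientAddGroup.mk b := by
    rw [Ne, mk_eq_iff]; exact hab
  have hcl : cl N1 A = {QuotientAddGroup.mk a, QuotientAddGroup.mk b} := by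
    symm
    apply Finset.eq_of_subset_of_card_le
    · intro c hc
      rw [Finset.mem_insert, Finset.mem_singleton] at hc
      rcases hc with rfl | rfl
      · exact mk_mem_cl ha
      · exact mk_mem_cl hb
    · rw [Finset.card_pair hne]
      exact h2.le
  have hXY : X ∪ Y = A := by
    ext x
    rw [Finset.mem_union, hX, hY, mem_fb, mem_fb]
    constructor
    · rintro (h | h)
      · exact h.1
      · exact h.1
    · intro hx
      have := mk_mem_cl (V := N1) hx
      rw [hcl, Finset.mem_insert, Finset.mem_singleton] at this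
      rcases this with h | h
      · exact Or.inl ⟨hx, h⟩
      · exact Or.inr ⟨hx, h⟩
  have hXa : ∀ x ∈ X, x - a ∈ N1 := fun x hx => sub_mem_of_mk_eq (mem_fb.1 hx).2
  have hYb : ∀ y ∈ Y, y - b ∈ N1 := fun y hy => sub_mem_of_mk_eq (mem_fb.1 hy).2
  have hdisj : Disjoint X Y := by
    rw [Finset.disjoint_left]
    intro x hx hy
    exact hne ((mem_fb.1 hx).2.symm.trans (mem_fb.1 hy).2)
  have hcardA : X.card + Y.card = A.card := by
    rw [← Finset.card_union_of_disjoint hdisj, hXY]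
  have hd1 : Disjoint (X + X) (X + Y) := by
    rw [Finset.disjoint_left]
    intro z hz hz'
    obtain ⟨x, hx, x', hx', rfl⟩ := Finset.mem_add.1 hz
    obtain ⟨u, hu, v, hv, huv⟩ := Finset.mem_add.1 hz'
    apply hab
    have : a - b = (u - a) + (v - b) - (x - a) - (x' - a) - ((u + v) - (x + x')) := by abel
    rw [this, huv, sub_self, sub_zero]
    exact N1.sub_mem (N1.sub_mem (N1.add_mem (hXa u hu) (hYb v hv)) (hXa x hx)) (hXa x' hx')
  have hd2 : Disjoint (X + Y) (Y + Y) := by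
    rw [Finset.disjoint_left]
    intro z hz hz'
    obtain ⟨x, hx, x', hx', rfl⟩ := Finset.mem_add.1 hz
    obtain ⟨u, hu, v, hv, huv⟩ := Finset.mem_add.1 hz'
    apply hab
    have : a - b = (u - b) + (v - b) - (x - a) - (x' - b) - ((u + v) - (x + x')) := by abel
    rw [this, huv, sub_self, sub_zero]
    exact N1.sub_mem (N1.sub_mem (N1.add_mem (hYb u hu) (hYb v hv)) (hXa x hx)) (hYb x' hx')
  have hd3 : Disjoint (X + X) (Y + Y) := by
    rw [Finset.disjoint_left]
    intro z hz hz'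
    obtain ⟨x, hx, x', hx', rfl⟩ := Finset.mem_add.1 hz
    obtain ⟨u, hu, v, hv, huv⟩ := Finset.mem_add.1 hz'
    apply hcon
    have : (a - b) + (a - b) = (u - b) + (v - b) - (x - a) - (x' - a) - ((u + v) - (x + x')) := by
      abel
    rw [this, huv, sub_self, sub_zero]
    exact N1.sub_mem (N1.sub_mem (N1.add_mem (hYb u hu) (hYb v hv)) (hXa x hx)) (hXa x' hx')
  have hsum : (X + X).card + (X + Y).card + (Y + Y).card ≤ (A + A).card := by
    have hd4 : Disjoint ((X + X) ∪ (X + Y)) (Y + Y) := Finset.disjoint_union_left.2 ⟨hd3, hd2⟩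
    rw [← Finset.card_union_of_disjoint hd1, ← Finset.card_union_of_disjoint hd4]
    apply Finset.card_le_card
    have hXA : X ⊆ A := fb_subset
    have hYA : Y ⊆ A := fb_subset
    exact Finset.union_subset (Finset.union_subset (Finset.add_subset_add hXA hXA)
      (Finset.add_subset_add hXA hYA)) (Finset.add_subset_add hYA hYA)
  have hXne : X.Nonempty := ⟨a, mem_fb.2 ⟨ha, rfl⟩⟩
  have hYne : Y.Nonempty := ⟨b, mem_fb.2 ⟨hb, rfl⟩⟩
  obtain ⟨V, hVf, hV⟩ := hQ inferInstance X Y hXne hYne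
  have hVk : V ≤ π.ker := by
    intro v hv
    rw [AddMonoidHom.mem_ker]
    have : Finite V := hVf.to_subtype
    have h3 : Nat.card V • (⟨v, hv⟩ : V) = 0 := card_nsmul_eq_zero'
    have h4 : Nat.card V • v = 0 := by
      have h40 := congrArg Subtype.val h3
      rw [AddSubgroup.coe_nsmul, AddSubgroup.coe_zero] at h40
      exact h40
    have h5 := congrArg π h4
    rw [map_nsmul, map_zero, nsmul_eq_mul] at h5
    rcases mul_eq_zero.1 h5 with h6 | h6
    · have := natCard_ne_zero_of_finite hVf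
      exact absurd (by exact_mod_cast h6) this
    · exact h6
  have hmu := h.mu V hVk
  have hnc : nc V A ≤ nc V X + nc V Y := by
    rw [← hXY]
    unfold nc
    rw [cl_union]
    exact Finset.card_union_le _ _
  have h8 : Nat.card V * nc V A ≤ Nat.card V * (nc V X + nc V Y) := Nat.mul_le_mul_left _ hnc
  omega

/-- the conditions on the image of `A` -/
theorem Hyp.hw (hQ : QThm Γ) {π : Γ →+ ℤ} {g : Γ} {A : Finset Γ} (h : Hyp π g A)
    {N : AddSubgroup Γ} (hN : MinN π g A N) :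
    HW (cl (NL (N ⊓ π.ker) N) (cl (N ⊓ π.ker) A)) := by
  classical
  set L : AddSubgroup Γ := N ⊓ π.ker with hL
  have hLN : L ≤ N := inf_le_left
  set B := cl (NL L N) (cl L A) with hB
  have hfin : Finite ((Γ ⧸ L) ⧸ (NL L N)) := finite_H hLN (h.index_ne_zero hN)
  have hBcard : B.card = nc N A := by
    have := nc_qH (L := L) (N := N) ⊥ A
    rw [nc_bot, comap_bot_qH hLN] at this
    exact this
  have hmem : ∀ a ∈ A, qH L N a ∈ B := fun a ha => mk_mem_cl (mk_mem_cl ha)
  have hmem' : ∀ b ∈ B, ∃ a ∈ A, qH L N a = b := by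
    intro b hb
    obtain ⟨c, hc, rfl⟩ := mem_cl.1 hb
    obtain ⟨a, ha, rfl⟩ := mem_cl.1 hc
    exact ⟨a, ha, rfl⟩
  have H1 : ∀ S : AddSubgroup ((Γ ⧸ L) ⧸ (NL L N)), (∀ b ∈ B, ∀ b' ∈ B, b - b' ∈ S) →
      2 * B.card ≤ Nat.card S := by
    intro S hS
    rw [hBcard, ← relIndex_qH hLN S]
    apply h.h1' hN (le_comap_qH hLN S)
    intro a ha b hb
    rw [AddSubgroup.mem_comap, map_sub]
    exact hS _ (hmem a ha) _ (hmem b hb)
  have H3 : ∀ S : AddSubgroup ((Γ ⧸ L) ⧸ (NL L N)), nc S B = 2 →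
      ∀ b ∈ B, ∀ b' ∈ B, (b - b') + (b - b') ∈ S := by
    intro S hS b hb b' hb'
    obtain ⟨a, ha, rfl⟩ := hmem' b hb
    obtain ⟨a', ha', rfl⟩ := hmem' b' hb'
    rw [hB, nc_qH] at hS
    have := h.h3' hQ hS a ha a' ha'
    rw [AddSubgroup.mem_comap, map_add, map_sub] at this
    exact this
  refine ⟨?_, H1, ?_, H3⟩
  · -- three
    by_contra hcon
    have hBne : B.Nonempty := by
      obtain ⟨x, hx⟩ := h.ne
      exact ⟨_, hmem x (C0_subset hx)⟩
    have hpos := hBne.card_pos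
    rcases Nat.lt_or_ge B.card 2 with hlt | hge
    · have h1 : B.card = 1 := by omega
      have h2 := H1 ⊥ (by
        intro b hb b' hb'
        rw [Finset.card_eq_one] at h1
        obtain ⟨c, hc⟩ := h1
        rw [hc, Finset.mem_singleton] at hb hb'
        rw [hb, hb', sub_self]; exact AddSubgroup.zero_mem _)
      rw [h1, AddSubgroup.card_bot] at h2
      omega
    · have h1 : B.card = 2 := by omega
      have h2 := H3 ⊥ (by rw [nc_bot]; exact h1)
      obtain ⟨b, b', hne, hbb⟩ := Finset.card_eq_two.1 h1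
      have hb : b ∈ B := by rw [hbb]; simp
      have hb' : b' ∈ B := by rw [hbb]; simp
      have h3 : (b - b') + (b - b') = 0 := by
        have := h2 b hb b' hb'
        rwa [AddSubgroup.mem_bot] at this
      have h4 := H1 (AddSubgroup.zmultiples (b - b')) (by
        intro c hc c' hc'
        rw [hbb, Finset.mem_insert, Finset.mem_singleton] at hc hc'
        rcases hc with rfl | rfl <;> rcases hc' with rfl | rfl
        · rw [sub_self]; exact AddSubgroup.zero_mem _
        · exact AddSubgroup.mem_zmultiples _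
        · have : c - c' = -(c' - c) := by abel
          rw [this]; exact AddSubgroup.neg_mem _ (AddSubgroup.mem_zmultiples _)
        · rw [sub_self]; exact AddSubgroup.zero_mem _)
      rw [h1, Nat.card_zmultiples] at h4
      have h5 : addOrderOf (b - b') ≤ 2 := by
        apply Nat.le_of_dvd (by norm_num)
        apply addOrderOf_dvd_of_nsmul_eq_zero
        rw [two_nsmul]; exact h3
      omega
  · intro S hS
    rw [hBcard, hB, nc_qH, ← relIndex_qH hLN S]
    apply h.h2' hN (le_comap_qH hLN S)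
    rw [relIndex_qH hLN S]
    have h1 : 0 < Nat.card S := Nat.card_pos
    by_contra hcon
    exact hS (AddSubgroup.eq_bot_of_card_eq S (by omega))

end Pool.Agent.Lib.MP_09e095_co
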