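import Mathlib
import Pool.Agent.Lib.MP_09e095_co.MLGeo5
import Pool.Agent.Lib.MP_09e095_co.MLTransfer

/-!
MP_09e095_co, multi-layer theorem: the sizes of the strips, and large fibres.
-/

set_option autoImplicit false

open Finset
open scoped Pointwise

namespace Pool.Agent.Lib.MP_09e095_co

open AddSubgroup (zmultiples)

universe u

variable {Γ : Type u} [AddCommGroup Γ] [DecidableEq Γ]

open Classical in
/-- the part of `A` over `r` -/
noncomputable def AS (L N : AddSubgroup Γ) (A : Finset Γ) (r : (Γ ⧸ L) ⧸ (NL L N)) : Finset Γ :=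
  A.filter (fun a => qH L N a = r)

omit [DecidableEq Γ] in
theorem mem_AS {L N : AddSubgroup Γ} {A : Finset Γ} {r : (Γ ⧸ L) ⧸ (NL L N)} {a : Γ} :
    a ∈ AS L N A r ↔ a ∈ A ∧ qH L N a = r := by
  classical
  unfold AS; rw [Finset.mem_filter]

omit [DecidableEq Γ] in
theorem fb_eq_cl_AS (L N : AddSubgroup Γ) (A : Finset Γ) (r : (Γ ⧸ L) ⧸ (NL L N)) :
    fb (NL L N) (cl L A) r = cl L (AS L N A r) := by
  ext c
  rw [mem_fb, mem_cl, mem_cl]
  constructor
  · rintro ⟨⟨a, ha, rfl⟩, h⟩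
    exact ⟨a, mem_AS.2 ⟨ha, h⟩, rfl⟩
  · rintro ⟨a, ha, rfl⟩
    exact ⟨⟨a, (mem_AS.1 ha).1, rfl⟩, (mem_AS.1 ha).2⟩

/-- cells of a strip, and cells modulo `g` -/
theorem strip_count {π : Γ →+ ℤ} {g : Γ} (hg : 0 < π g) {N : AddSubgroup Γ}
    (hN : zmultiples g ≤ N) {S : Finset Γ} (hS : ∀ x ∈ S, ∀ y ∈ S, x - y ∈ N)
    (hlo : ∀ a ∈ S, 0 ≤ π a) (hhi : ∀ a ∈ S, π a ≤ π g) :
    nc (N ⊓ π.ker) S = nc ((N ⊓ π.ker) ⊔ zmultiples g) S +
      (if (∃ a ∈ S, π a = 0) ∧ (∃ a ∈ S, π a = π g) then 1 else 0) := by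
  classical
  set L : AddSubgroup Γ := N ⊓ π.ker with hL
  have hLk : L ≤ π.ker := inf_le_right
  split_ifs with hx
  · obtain ⟨⟨a0, ha0, ha00⟩, ⟨a1, ha1, ha1g⟩⟩ := hx
    set lo := S.filter (fun x => π x < π g) with hlodef
    set up := S.filter (fun x => ¬ π x < π g) with hupdef
    have hSeq : lo ∪ up = S := Finset.filter_union_filter_not_eq _ _
    have hupl : ∀ x ∈ up, π x = π g := by
      intro x hx
      have := (Finset.mem_filter.1 hx).2
      have := hhi x (Finset.mem_filter.1 hx).1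
      omega
    have h1 : nc L S = nc L lo + nc L up := by
      rw [← hSeq]
      apply nc_union_levels hLk
      intro x hx y hy
      have := (Finset.mem_filter.1 hx).2
      rw [hupl y hy]; omega
    have h2 : nc L up = 1 := by
      have h3 : InCoset L up := by
        intro x hx y hy
        rw [hL, AddSubgroup.mem_inf, AddMonoidHom.mem_ker, map_sub, hupl x hx, hupl y hy, sub_self]
        exact ⟨hS x (Finset.mem_filter.1 hx).1 y (Finset.mem_filter.1 hy).1, rfl⟩
      exact h3.nc_eq_one ⟨a1, Finset.mem_filter.2 ⟨ha1, by omega⟩⟩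
    have h3 : nc (L ⊔ zmultiples g) lo = nc L lo := by
      apply nc_sup_eq hg hLk
      intro x hx y hy
      have := (Finset.mem_filter.1 hx).2
      have := hlo y (Finset.mem_filter.1 hy).1
      omega
    have h4 : cl (L ⊔ zmultiples g) S = cl (L ⊔ zmultiples g) lo := by
      apply nc_congr_rel
      · intro a ha
        by_cases hlt : π a < π g
        · exact ⟨a, Finset.mem_filter.2 ⟨ha, hlt⟩, by rw [sub_self]; exact AddSubgroup.zero_mem _⟩
        · refine ⟨a0, Finset.mem_filter.2 ⟨ha0, by omega⟩, ?_⟩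
          have hag : π a = π g := by have := hhi a ha; omega
          have h5 : a - a0 - g ∈ L := by
            rw [hL, AddSubgroup.mem_inf, AddMonoidHom.mem_ker, map_sub, map_sub, ha00, hag]
            exact ⟨N.sub_mem (hS a ha a0 ha0) (hN (AddSubgroup.mem_zmultiples g)), by ring⟩
          have h6 : a - a0 = (a - a0 - g) + g := by abel
          rw [h6]
          exact AddSubgroup.add_mem _ ((le_sup_left : L ≤ _) h5)
            ((le_sup_right : zmultiples g ≤ _) (AddSubgroup.mem_zmultiples g))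
      · intro b hb
        exact ⟨b, (Finset.mem_filter.1 hb).1, by rw [sub_self]; exact AddSubgroup.zero_mem _⟩
    have h5 : nc (L ⊔ zmultiples g) S = nc (L ⊔ zmultiples g) lo := by
      unfold nc; rw [h4]
    rw [h1, h2, h5, h3]
  · rw [add_zero, nc_sup_eq hg hLk]
    intro x hx' y hy'
    have h1 := hhi x hx'
    have h2 := hlo y hy'
    by_contra hcon
    exact hx ⟨⟨y, hy', by omega⟩, ⟨x, hx', by omega⟩⟩

omit [DecidableEq Γ] in
/-- cells are distributed over the strips -/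
theorem sum_nc_AS {L N V : AddSubgroup Γ} (hLN : L ≤ N) (hVN : V ≤ N) (A : Finset Γ) :
    ∑ r ∈ cl (NL L N) (cl L A), nc V (AS L N A r) = nc V A := by
  classical
  unfold nc
  rw [← Finset.card_biUnion]
  · congr 1
    ext c
    rw [Finset.mem_biUnion, mem_cl]
    constructor
    · rintro ⟨r, _, hc⟩
      obtain ⟨a, ha, rfl⟩ := mem_cl.1 hc
      exact ⟨a, (mem_AS.1 ha).1, rfl⟩
    · rintro ⟨a, ha, rfl⟩
      exact ⟨qH L N a, mk_mem_cl (mk_mem_cl ha), mk_mem_cl (mem_AS.2 ⟨ha, rfl⟩)⟩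
  · intro r _ r' _ hne
    rw [Function.onFun, Finset.disjoint_left]
    intro c hc hc'
    obtain ⟨a, ha, rfl⟩ := mem_cl.1 hc
    obtain ⟨b, hb, hab⟩ := mem_cl.1 hc'
    have h1 : a - b ∈ N := hVN (sub_mem_of_mk_eq hab.symm)
    have h2 := (qH_eq_iff hLN).2 h1
    rw [(mem_AS.1 ha).2, (mem_AS.1 hb).2] at h2
    exact hne h2

omit [DecidableEq Γ] in
theorem AS_sub {L N : AddSubgroup Γ} (hLN : L ≤ N) {A : Finset Γ} {r : (Γ ⧸ L) ⧸ (NL L N)} :
    ∀ x ∈ AS L N A r, ∀ y ∈ AS L N A r, x - y ∈ N := by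
  intro x hx y hy
  exact (qH_eq_iff hLN).1 ((mem_AS.1 hx).2.trans (mem_AS.1 hy).2.symm)

omit [DecidableEq Γ] in
theorem Hyp.card_B {π : Γ →+ ℤ} {A : Finset Γ} {N : AddSubgroup Γ} :
    (cl (NL (N ⊓ π.ker) N) (cl (N ⊓ π.ker) A)).card = nc N A := by
  have hLN : N ⊓ π.ker ≤ N := inf_le_left
  have := nc_qH (L := N ⊓ π.ker) (N := N) ⊥ A
  rw [nc_bot, comap_bot_qH hLN] at this
  exact this

/-- the sizes of the strips -/
theorem Hyp.sd {π : Γ →+ ℤ} {g : Γ} {A : Finset Γ} (h : Hyp π g A)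
    {N : AddSubgroup Γ} (hN : MinN π g A N) :
    SD (cl (NL (N ⊓ π.ker) N) (cl (N ⊓ π.ker) A))
      (fun r => (fb (NL (N ⊓ π.ker) N) (cl (N ⊓ π.ker) A) r).card) := by
  classical
  obtain ⟨lam, hlam2, hidx, hrel, hc1, hmin⟩ := h.facts hN
  set L : AddSubgroup Γ := N ⊓ π.ker with hL
  have hLN : L ≤ N := inf_le_left
  set M : AddSubgroup Γ := L ⊔ zmultiples g with hM
  have hMN : M ≤ N := sup_le hLN hN.le
  set B := cl (NL L N) (cl L A) with hB
  have hBc : B.card = nc N A := Hyp.card_B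
  have hb : ∀ r, nc M (AS L N A r) ≤ lam := by
    intro r
    rw [← hrel]
    apply nc_le_relIndex (by rw [hrel]; omega)
    exact AS_sub hLN
  have hcount : ∀ r, (fb (NL L N) (cl L A) r).card = nc M (AS L N A r) +
      (if (∃ a ∈ AS L N A r, π a = 0) ∧ (∃ a ∈ AS L N A r, π a = π g) then 1 else 0) := by
    intro r
    rw [fb_eq_cl_AS]
    exact strip_count h.pos hN.le (AS_sub hLN) (fun a ha => h.lo a (mem_AS.1 ha).1)
      (fun a ha => h.hi a (mem_AS.1 ha).1)
  refine ⟨lam, fun r => lam - nc M (AS L N A r), fun r =>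
    if (∃ a ∈ AS L N A r, π a = 0) ∧ (∃ a ∈ AS L N A r, π a = π g) then 1 else 0, hlam2,
    ?_, ?_, ?_, ?_⟩
  · intro r _
    dsimp only
    split_ifs <;> omega
  · intro r _
    dsimp only
    rw [hcount r]
    have := hb r
    omega
  · have h1 : ∑ r ∈ B, (lam - nc M (AS L N A r)) + nc M A = lam * nc N A := by
      rw [← sum_nc_AS hLN hMN A, ← Finset.sum_add_distrib]
      have h2 : ∀ r ∈ B, lam - nc M (AS L N A r) + nc M (AS L N A r) = lam := by
        intro r _
        have := hb r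
        omega
      rw [Finset.sum_congr rfl h2, Finset.sum_const, smul_eq_mul, hBc, mul_comm]
    dsimp only
    omega
  · obtain ⟨x, hx⟩ := h.ne
    obtain ⟨hxA, hx0, hxg⟩ := mem_C0.1 hx
    refine ⟨qH L N x, mk_mem_cl (mk_mem_cl hxA), ?_⟩
    dsimp only
    rw [if_pos]
    refine ⟨⟨x, mem_AS.2 ⟨hxA, rfl⟩, hx0⟩, ⟨x + g, mem_AS.2 ⟨hxg, ?_⟩, by rw [map_add, hx0]; ring⟩⟩
    rw [qH_eq_iff hLN]
    have : x + g - x = g := by abel
    rw [this]; exact hN.le (AddSubgroup.mem_zmultiples g)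

/-- number of cells -/
theorem Hyp.nc_L_le {π : Γ →+ ℤ} {g : Γ} {A : Finset Γ} (h : Hyp π g A)
    {N : AddSubgroup Γ} (hN : MinN π g A N) {lam : ℕ} (hlam : 1 ≤ lam)
    (hrel : ((N ⊓ π.ker) ⊔ zmultiples g).relIndex N = lam) :
    nc (N ⊓ π.ker) A ≤ (lam + 1) * nc N A := by
  classical
  set L : AddSubgroup Γ := N ⊓ π.ker with hL
  have hLN : L ≤ N := inf_le_left
  set M : AddSubgroup Γ := L ⊔ zmultiples g with hM
  rw [← sum_nc_AS hLN hLN A]
  calc ∑ r ∈ cl (NL L N) (cl L A), nc L (AS L N A r)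
      ≤ ∑ _r ∈ cl (NL L N) (cl L A), (lam + 1) := by
        apply Finset.sum_le_sum
        intro r _
        rw [strip_count h.pos hN.le (AS_sub hLN) (fun a ha => h.lo a (mem_AS.1 ha).1)
          (fun a ha => h.hi a (mem_AS.1 ha).1)]
        have : nc (L ⊔ zmultiples g) (AS L N A r) ≤ lam := by
          rw [← hrel]
          apply nc_le_relIndex (by rw [hrel]; omega)
          exact AS_sub hLN
        change nc (L ⊔ zmultiples g) (AS L N A r) + _ ≤ _
        split_ifs <;> omega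
    _ = (lam + 1) * nc N A := by
        rw [Finset.sum_const, smul_eq_mul, mul_comm]
        congr 1
        exact Hyp.card_B

/-- at least two large fibres -/
theorem Hyp.two_big {π : Γ →+ ℤ} {g : Γ} {A : Finset Γ} (h : Hyp π g A)
    {N : AddSubgroup Γ} (hN : MinN π g A N) (h3 : 3 ≤ nc N A) :
    2 ≤ (big (N ⊓ π.ker) A).card := by
  classical
  obtain ⟨lam, hlam2, hidx, hrel, hc1, hmin⟩ := h.facts hN
  have hk := h.nc_L_le hN (by omega) hrel
  have hval := h.val_ge hN
  have hmu := h.mu ⊥ bot_le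
  rw [AddSubgroup.card_bot, nc_bot] at hmu
  set L : AddSubgroup Γ := N ⊓ π.ker with hL
  have hLf : (L : Set Γ).Finite := h.ker.subset inf_le_right
  have hLpos : 0 < Nat.card L := Nat.pos_of_ne_zero (natCard_ne_zero_of_finite hLf)
  set E := big L A with hE
  -- 2|A| ≤ (k + |E|) |L|
  have hA2 : 2 * A.card ≤ (nc L A + E.card) * Nat.card L := by
    rw [card_eq_sum_fb (V := L) A (le_refl _), Finset.mul_sum]
    have h1 : ∀ p ∈ cl L A, 2 * (fb L A p).card ≤
        Nat.card L + (if p ∈ E then Nat.card L else 0) := by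
      intro p hp
      have h2 := card_fb_le hLf A p
      split_ifs with hpE
      · omega
      · have : ¬ (Nat.card L < 2 * (fb L A p).card) := fun hlt => hpE (mem_big.2 ⟨hp, hlt⟩)
        omega
    refine le_trans (Finset.sum_le_sum h1) ?_
    rw [Finset.sum_add_distrib, Finset.sum_const, smul_eq_mul, ← Finset.sum_filter,
      Finset.sum_const, smul_eq_mul]
    have h3 : ((cl L A).filter (fun p => p ∈ E)).card ≤ E.card := by
      apply Finset.card_le_card
      intro p hp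
      exact (Finset.mem_filter.1 hp).2
    have h4 : nc L A * Nat.card L + ((cl L A).filter (fun p => p ∈ E)).card * Nat.card L ≤
        nc L A * Nat.card L + E.card * Nat.card L :=
      Nat.add_le_add_left (Nat.mul_le_mul_right _ h3) _
    calc _ ≤ nc L A * Nat.card L + E.card * Nat.card L := h4
      _ = (nc L A + E.card) * Nat.card L := by ring
  by_contra hcon
  have hE1 : E.card ≤ 1 := by omega
  rw [hidx] at hval
  set l := Nat.card L
  set m := nc N A
  set k := nc L A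
  -- 2 l lam m + 3 < 2|A| + l lam
  have h5 : (k + E.card) * l ≤ ((lam + 1) * m + 1) * l := Nat.mul_le_mul_right _ (by omega)
  have h6 : 2 * (l * lam * m) < ((lam + 1) * m + 1) * l + l * lam := by omega
  have h7 : l * (2 * (lam * m)) < l * ((lam + 1) * m + 1 + lam) := by
    calc l * (2 * (lam * m)) = 2 * (l * lam * m) := by ring
      _ < _ := h6
      _ = l * ((lam + 1) * m + 1 + lam) := by ring
  have h8 := Nat.lt_of_mul_lt_mul_left h7
  -- 2 lam m < lam m + m + 1 + lam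
  obtain ⟨a, rfl⟩ : ∃ a, lam = a + 2 := ⟨lam - 2, by omega⟩
  obtain ⟨b, hb⟩ : ∃ b, m = b + 3 := ⟨m - 3, by omega⟩
  rw [hb] at h8
  have h9 : 2 * ((a + 2) * (b + 3)) = 2 * (a * b) + 6 * a + 4 * b + 12 := by ring
  have h10 : (a + 2 + 1) * (b + 3) + 1 + (a + 2) = a * b + 4 * a + 3 * b + 12 := by ring
  omega

end Pool.Agent.Lib.MP_09e095_co
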