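import Mathlib
import Pool.Agent.Lib.MP_09e095_co.MLGeo6
import Pool.Agent.Lib.MP_09e095_co.CombW

/-!
MP_09e095_co, multi-layer theorem: conclusion from the statement on strips.
-/

set_option autoImplicit false

open Finset
open scoped Pointwise

namespace Pool.Agent.Lib.MP_09e095_co

open AddSubgroup (zmultiples)

universe u

/-- the statement on strips -/
def StripStmt : Prop :=
  ∀ (Q : Type u) [AddCommGroup Q] [DecidableEq Q] (N : AddSubgroup Q) [Finite (Q ⧸ N)]
    (π : Q →+ ℤ), (∀ x ∈ N, π x = 0 → x = 0) → ∀ P : Finset Q, HW (cl N P) →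
      SD (cl N P) (fun r => (fb N P r).card) → PGood P

variable {Γ : Type u} [AddCommGroup Γ] [DecidableEq Γ]

theorem Hyp.false (hQ : ∀ (G : Type u) [AddCommGroup G], QThm G) (hSt : StripStmt.{u})
    {π : Γ →+ ℤ} {g : Γ} {A : Finset Γ} (h : Hyp π g A) : False := by
  classical
  obtain ⟨N, hN⟩ := exists_minN hQ π h.ker h.pos h.lo h.hi h.ne
  have hw := h.hw (hQ Γ) hN
  have hsd := h.sd hN
  have h3 : 3 ≤ nc N A := by
    have := hw.three
    rw [Hyp.card_B] at this
    exact this
  have hbig := h.two_big hN h3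
  set L : AddSubgroup Γ := N ⊓ π.ker with hL
  have hLN : L ≤ N := inf_le_left
  have hLk : L ≤ π.ker := inf_le_right
  have hLf : (L : Set Γ).Finite := h.ker.subset hLk
  have hfin : Finite ((Γ ⧸ L) ⧸ (NL L N)) := finite_H hLN (h.index_ne_zero hN)
  have hAne : A.Nonempty := h.ne.mono C0_subset
  let π' : Γ ⧸ L →+ ℤ := QuotientAddGroup.lift L π hLk
  have hπ' : ∀ x : Γ, π' (QuotientAddGroup.mk x) = π x := fun x => rfl
  have hinj : ∀ x ∈ NL L N, π' x = 0 → x = 0 := by
    intro x hx h0
    obtain ⟨y, hy, rfl⟩ := AddSubgroup.mem_map.1 hx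
    have h1 : π y = 0 := h0
    have h2 : y ∈ L := AddSubgroup.mem_inf.2 ⟨hy, AddMonoidHom.mem_ker.2 h1⟩
    exact (QuotientAddGroup.eq_zero_iff y).2 h2
  have hg := hSt (Γ ⧸ L) (NL L N) π' hinj (cl L A) hw hsd
  have hmu0 := h.mu ⊥ bot_le
  rw [AddSubgroup.card_bot, nc_bot] at hmu0
  have hmuL := h.mu L hLk
  rcases hg with hg | hg | hg
  · have := transfer_three hLf A hg
    omega
  · have := transfer_two hLf hAne hg.1 hg.2 (Finset.card_pos.1 (by omega))
    rcases this with h1 | h1
    · omega
    · omega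
  · have := transfer_one hLf hAne hg.1 hg.2 hbig
    rcases this with h1 | h1
    · omega
    · omega

/-- the several-layer theorem for sets with lowest level `0` -/
theorem ml_zero (hQ : ∀ (G : Type u) [AddCommGroup G], QThm G) (hSt : StripStmt.{u})
    (π : Γ →+ ℤ) (hK : (π.ker : Set Γ).Finite)
    (hcyc : ∀ V V' : AddSubgroup Γ, V ≤ π.ker → V' ≤ π.ker → Nat.card V = Nat.card V' → V = V')
    (A : Finset Γ) (x0 : Γ) (hx0 : x0 ∈ A) (hx00 : π x0 = 0) (hlo : ∀ a ∈ A, 0 ≤ π a)
    (y : Γ) (hy : y ∈ A) (hy0 : π y ≠ 0) :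
    (∃ V : AddSubgroup Γ, (V : Set Γ).Finite ∧
        2 * (Nat.card V * nc V A) + A.card ≤ (A + A).card + 3 * Nat.card V) ∨
      (∃ (N : ℕ) (V : AddSubgroup Γ) (a d : Γ), (V : Set Γ).Finite ∧ 2 ≤ N ∧
        (∀ z ∈ A, ∃ j : ℕ, j < N ∧ z - a - j • d ∈ V) ∧
        (N - 1) * Nat.card V + A.card ≤ (A + A).card) := by
  classical
  by_contra hcon
  push Not at hcon
  obtain ⟨hc1, hc2⟩ := hcon
  -- the top level
  obtain ⟨y1, hy1, hy1max⟩ := Finset.exists_max_image A π ⟨y, hy⟩
  set l := π y1 with hl
  have hlpos : 0 < l := by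
    have h1 := hlo y hy
    have h2 := hy1max y hy
    omega
  set X := A.filter (fun a => π a = 0) with hX
  set Y := A.filter (fun a => π a = l) with hY
  set W := A.filter (fun a => 0 < π a ∧ π a < l) with hW
  have hXYW : (X ∪ Y) ∪ W = A := by
    ext a
    rw [Finset.mem_union, Finset.mem_union, hX, hY, hW, Finset.mem_filter, Finset.mem_filter,
      Finset.mem_filter]
    constructor
    · rintro ((h | h) | h)
      · exact h.1
      · exact h.1
      · exact h.1
    · intro ha
      have h1 := hlo a ha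
      have h2 := hy1max a ha
      rcases eq_or_ne (π a) 0 with h3 | h3
      · exact Or.inl (Or.inl ⟨ha, h3⟩)
      · rcases eq_or_ne (π a) l with h4 | h4
        · exact Or.inl (Or.inr ⟨ha, h4⟩)
        · exact Or.inr ⟨ha, by omega, by omega⟩
  have hX0 : ∀ a ∈ X, π a = 0 := fun a ha => (Finset.mem_filter.1 ha).2
  have hYl : ∀ a ∈ Y, π a = l := fun a ha => (Finset.mem_filter.1 ha).2
  have hWl : ∀ a ∈ W, 0 < π a ∧ π a < l := fun a ha => (Finset.mem_filter.1 ha).2
  have hfinV : ∀ V : AddSubgroup Γ, V ≤ π.ker → (V : Set Γ).Finite := fun V hV => hK.subset hV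
  have hncA : ∀ V ≤ π.ker, nc V A = nc V X + nc V Y + nc V W := by
    intro V hV
    rw [← hXYW, nc_union_levels hV, nc_union_levels hV]
    · intro a ha b hb
      rw [hX0 a ha, hYl b hb]; omega
    · intro a ha b hb
      have h2 := hWl b hb
      rcases Finset.mem_union.1 ha with h | h
      · rw [hX0 a h]; omega
      · rw [hYl a h]; omega
  have hmu : ∀ V ≤ π.ker, (A + A).card + 3 * Nat.card V < A.card + 2 * (Nat.card V * nc V A) := by
    intro V hV
    have := hc1 V (hfinV V hV)
    omega
  obtain ⟨g, hg, hgm⟩ := combW π.ker hK hcyc X Y W ⟨x0, Finset.mem_filter.2 ⟨hx0, hx00⟩⟩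
    ⟨y1, Finset.mem_filter.2 ⟨hy1, rfl⟩⟩ (((A + A).card : ℤ) - A.card + 1) (by
      intro V hV
      have h1 := hmu V hV
      rw [hncA V hV] at h1
      unfold gz
      zify at h1
      push_cast
      linarith)
  -- level of g
  have hπg : π g = l := by
    obtain ⟨x, hx⟩ := hg
    obtain ⟨h1, h2⟩ := mem_Cd.1 hx
    have h3 := hYl _ h2
    rw [map_add, hX0 x h1] at h3
    omega
  have hCeq : C0 π g A = Cd X Y g := by
    ext x
    rw [mem_C0, mem_Cd, hX, hY, Finset.mem_filter, Finset.mem_filter]
    constructor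
    · rintro ⟨h1, h2, h3⟩
      exact ⟨⟨h1, h2⟩, h3, by rw [map_add, h2, hπg]; omega⟩
    · rintro ⟨⟨h1, h2⟩, h3, _⟩
      exact ⟨h1, h2, h3⟩
  have hgpos : 0 < π g := by rw [hπg]; exact hlpos
  have hBl : ∀ a ∈ Bd X Y g, π a = 0 := by
    intro a ha
    rcases mem_Bd.1 ha with h | h
    · exact hX0 a h
    · have := hYl _ h
      rw [map_add, hπg] at this
      omega
  apply Hyp.false hQ hSt (π := π) (g := g) (A := A)
  refine ⟨hK, hgpos, hlo, ?_, ?_, hmu, ?_, ?_⟩
  · intro a ha
    rw [hπg]; exact hy1max a ha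
  · rw [hCeq]; exact hg
  · intro V hV n a d hn hA
    have := hc2 n V a d (hfinV V hV) hn hA
    exact this
  · intro V hV
    have h1 := hgm V hV
    unfold gm at h1
    have h2 : nc (V ⊔ zmultiples g) A = nc V (Bd X Y g) + nc V W := by
      have h3 : cl (V ⊔ zmultiples g) A = cl (V ⊔ zmultiples g) (Bd X Y g ∪ W) := by
        apply nc_congr_rel
        · intro a ha
          rw [← hXYW, Finset.mem_union, Finset.mem_union] at ha
          rcases ha with (h | h) | h
          · exact ⟨a, Finset.mem_union_left _ (mem_Bd.2 (Or.inl h)),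
              by rw [sub_self]; exact AddSubgroup.zero_mem _⟩
          · refine ⟨a - g, Finset.mem_union_left _ (mem_Bd.2 (Or.inr ?_)), ?_⟩
            · rw [sub_add_cancel]; exact h
            · have : a - (a - g) = g := by abel
              rw [this]
              exact (le_sup_right : zmultiples g ≤ _) (AddSubgroup.mem_zmultiples g)
          · exact ⟨a, Finset.mem_union_right _ h,
              by rw [sub_self]; exact AddSubgroup.zero_mem _⟩
        · intro b hb
          rcases Finset.mem_union.1 hb with h | h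
          · rcases mem_Bd.1 h with h' | h'
            · refine ⟨b, ?_, by rw [sub_self]; exact AddSubgroup.zero_mem _⟩
              exact (Finset.mem_filter.1 h').1
            · refine ⟨b + g, (Finset.mem_filter.1 h').1, ?_⟩
              have : b - (b + g) = -g := by abel
              rw [this]
              exact AddSubgroup.neg_mem _
                ((le_sup_right : zmultiples g ≤ _) (AddSubgroup.mem_zmultiples g))
          · exact ⟨b, (Finset.mem_filter.1 h).1,
              by rw [sub_self]; exact AddSubgroup.zero_mem _⟩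
      have h4 : nc (V ⊔ zmultiples g) A = nc (V ⊔ zmultiples g) (Bd X Y g ∪ W) := by
        unfold nc; rw [h3]
      rw [h4, nc_sup_eq hgpos hV, nc_union_levels hV]
      · intro a ha b hb
        rw [hBl a ha]
        have := (hWl b hb).1
        omega
      · intro a ha b hb
        have hra : 0 ≤ π a ∧ π a < π g := by
          rcases Finset.mem_union.1 ha with h | h
          · rw [hBl a h]; omega
          · have := hWl a h
            rw [hπg]; omega
        have hrb : 0 ≤ π b ∧ π b < π g := by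
          rcases Finset.mem_union.1 hb with h | h
          · rw [hBl b h]; omega
          · have := hWl b h
            rw [hπg]; omega
        omega
    have h5 : nc (V ⊔ zmultiples g) (C0 π g A) = nc V (Cd X Y g) := by
      rw [hCeq, nc_sup_eq hgpos hV]
      intro a ha b hb
      rw [hX0 a (mem_Cd.1 ha).1, hX0 b (mem_Cd.1 hb).1]
      omega
    rw [h2, h5]
    push_cast at h1
    zify
    nlinarith [h1]

/-- the several-layer theorem -/
theorem ml_main (hQ : ∀ (G : Type u) [AddCommGroup G], QThm G) (hSt : StripStmt.{u})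
    (π : Γ →+ ℤ) (hK : (π.ker : Set Γ).Finite)
    (hcyc : ∀ V V' : AddSubgroup Γ, V ≤ π.ker → V' ≤ π.ker → Nat.card V = Nat.card V' → V = V')
    (A : Finset Γ) (x y : Γ) (hx : x ∈ A) (hy : y ∈ A) (hxy : π x ≠ π y) :
    (∃ V : AddSubgroup Γ, (V : Set Γ).Finite ∧
        2 * (Nat.card V * nc V A) + A.card ≤ (A + A).card + 3 * Nat.card V) ∨
      (∃ (N : ℕ) (V : AddSubgroup Γ) (a d : Γ), (V : Set Γ).Finite ∧ 2 ≤ N ∧
        (∀ z ∈ A, ∃ j : ℕ, j < N ∧ z - a - j • d ∈ V) ∧
        (N - 1) * Nat.card V + A.card ≤ (A + A).card) := by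
  classical
  obtain ⟨x0, hx0, hmin⟩ := Finset.exists_min_image A π ⟨x, hx⟩
  set A' := sh x0 A with hA'
  have hcard : A'.card = A.card := by
    rw [hA']; unfold sh
    exact Finset.card_image_of_injective _ (fun a b h => by simpa using h)
  have hadd : (A' + A').card = (A + A).card := by
    have : A' + A' = sh (x0 + x0) (A + A) := by
      ext z
      rw [Finset.mem_add, mem_sh, Finset.mem_add]
      constructor
      · rintro ⟨a, ha, b, hb, rfl⟩
        exact ⟨a + x0, mem_sh.1 ha, b + x0, mem_sh.1 hb, by abel⟩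
      · rintro ⟨a, ha, b, hb, hab⟩
        refine ⟨a - x0, mem_sh.2 (by rw [sub_add_cancel]; exact ha), b - x0,
          mem_sh.2 (by rw [sub_add_cancel]; exact hb), ?_⟩
        have : a - x0 + (b - x0) = a + b - (x0 + x0) := by abel
        rw [this, hab]; abel
    rw [this]; unfold sh
    exact Finset.card_image_of_injective _ (fun a b h => by simpa using h)
  -- a point of positive level
  obtain ⟨z, hz, hzne⟩ : ∃ z ∈ A, π z ≠ π x0 := by
    by_contra hno
    push Not at hno
    exact hxy ((hno x hx).trans (hno y hy).symm)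
  have hmain := ml_zero hQ hSt π hK hcyc A' 0 (mem_sh.2 (by rw [zero_add]; exact hx0))
    (map_zero π) (by
      intro a ha
      have := hmin _ (mem_sh.1 ha)
      rw [map_add] at this
      omega) (z - x0) (mem_sh.2 (by rw [sub_add_cancel]; exact hz)) (by
      rw [map_sub]; omega)
  rcases hmain with ⟨V, hV, h⟩ | ⟨N, V, a, d, hV, hN, hc, h⟩
  · left
    refine ⟨V, hV, ?_⟩
    rw [hcard, hadd, hA', nc_sh] at h
    exact h
  · right
    refine ⟨N, V, a + x0, d, hV, hN, ?_, ?_⟩
    · intro z hz
      obtain ⟨j, hj, hj'⟩ := hc (z - x0) (mem_sh.2 (by rw [sub_add_cancel]; exact hz))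
      refine ⟨j, hj, ?_⟩
      have : z - (a + x0) - j • d = z - x0 - a - j • d := by abel
      rw [this]; exact hj'
    · rw [hcard, hadd] at h
      exact h

end Pool.Agent.Lib.MP_09e095_co
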