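import Mathlib
import Pool.Agent.Lib.MP_09e095_co.QTransfer
import Pool.Agent.Lib.MP_09e095_co.QFinal

/-!
MP_09e095_co : the two-layer theorem, from finite groups to all abelian groups.
-/

set_option autoImplicit false

open Finset
open scoped Pointwise

namespace Pool.Agent.Lib.MP_09e095_co

universe u

/-- the number of cosets through a homomorphism which reflects membership of differences -/
theorem nc_image {G H : Type*} [AddCommGroup G] [AddCommGroup H] [DecidableEq H] (f : G → H)
    (V : AddSubgroup G) (W : AddSubgroup H) (X : Finset G)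
    (h : ∀ x ∈ X, ∀ y ∈ X, x - y ∈ V ↔ f x - f y ∈ W) : nc W (X.image f) = nc V X := by
  classical
  unfold nc cl
  rw [Finset.image_image]
  apply card_image_congr
  intro x hx y hy
  simp only [Function.comp_apply]
  rw [mk_eq_iff, mk_eq_iff]
  exact (h x hx y hy).symm

theorem image_add_hom {G H : Type*} [AddCommGroup G] [AddCommGroup H] [DecidableEq G]
    [DecidableEq H] (f : G →+ H) (X Y : Finset G) : (X + Y).image f = X.image f + Y.image f :=
  Finset.image_add f

/-- the theorem passes to subgroups -/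
theorem QThm_of_injective {G H : Type*} [AddCommGroup G] [AddCommGroup H] (f : G →+ H)
    (hf : Function.Injective f) (hQ : QThm H) : QThm G := by
  classical
  intro inst X Y hX hY
  obtain ⟨W, hWf, hW⟩ := hQ inferInstance (X.image f) (Y.image f) (hX.image f) (hY.image f)
  have hVf : ((W.comap f : AddSubgroup G) : Set G).Finite := by
    apply Set.Finite.preimage (hf.injOn) hWf
  refine ⟨W.comap f, hVf, ?_⟩
  rw [← image_add_hom, ← image_add_hom, ← image_add_hom, Finset.card_image_of_injective _ hf,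
    Finset.card_image_of_injective _ hf, Finset.card_image_of_injective _ hf,
    Finset.card_image_of_injective _ hf, Finset.card_image_of_injective _ hf] at hW
  have hn : ∀ Z : Finset G, nc W (Z.image f) = nc (W.comap f) Z := by
    intro Z
    apply nc_image
    intro x _ y _
    rw [AddSubgroup.mem_comap, map_sub]
  rw [hn, hn] at hW
  have h1 := nc_pos (V := W.comap f) hX
  have h2 := nc_pos (V := W.comap f) hY
  have hle : Nat.card (W.comap f) ≤ Nat.card W := by
    haveI : Finite W := hWf.to_subtype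
    apply Nat.card_le_card_of_injective (fun x : W.comap f => (⟨f x.1, x.2⟩ : W))
    intro x y hxy
    have := congrArg Subtype.val hxy
    exact Subtype.ext (hf this)
  obtain ⟨m, hm⟩ : ∃ m, nc (W.comap f) X + nc (W.comap f) Y = m + 2 := ⟨_, by
    exact (Nat.sub_add_cancel (by omega)).symm⟩
  rw [hm] at hW ⊢
  have e1 := Nat.mul_le_mul_right (2 * m + 1) hle
  have e2 : 2 * (Nat.card W * (m + 2)) = Nat.card W * (2 * m + 1) + 3 * Nat.card W := by ring
  have e3 : 2 * (Nat.card (W.comap f) * (m + 2)) =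
      Nat.card (W.comap f) * (2 * m + 1) + 3 * Nat.card (W.comap f) := by ring
  omega

/-- from the groups `ZMod q × H` to `ℤ × H` -/
theorem QThm_int_prod {H : Type*} [AddCommGroup H]
    (hQ : ∀ q : ℕ, q.Prime → QThm (ZMod q × H)) : QThm (ℤ × H) := by
  classical
  intro inst X Y hX hY
  -- bound for the first coordinates
  obtain ⟨R, hR⟩ : ∃ R : ℕ, ∀ z ∈ X ∪ Y, |z.1| ≤ (R : ℤ) := by
    refine ⟨(X ∪ Y).sup (fun z => z.1.natAbs), fun z hz => ?_⟩
    have := Finset.le_sup (f := fun z : ℤ × H => z.1.natAbs) hz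
    rw [Int.abs_eq_natAbs]
    exact_mod_cast this
  obtain ⟨q, hq1, hq2⟩ := Nat.exists_infinite_primes (4 * R + 2 * (X.card + Y.card) + 1)
  haveI : Fact q.Prime := ⟨hq2⟩
  set f : ℤ × H →+ ZMod q × H :=
    (Int.castAddHom (ZMod q)).prodMap (AddMonoidHom.id H) with hf
  have hfapp : ∀ z : ℤ × H, f z = ((z.1 : ZMod q), z.2) := fun z => rfl
  have hsmall : ∀ a : ℤ, |a| ≤ 4 * (R : ℤ) → ((a : ZMod q) = 0 ↔ a = 0) := by
    intro a ha
    constructor
    · intro h
      rw [ZMod.intCast_zmod_eq_zero_iff_dvd] at h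
      by_contra hne
      have := Int.le_of_dvd (abs_pos.2 hne) ((dvd_abs _ _).2 h)
      have h2 : ((4 * R + 2 * (X.card + Y.card) + 1 : ℕ) : ℤ) ≤ q := by exact_mod_cast hq1
      push_cast at h2
      have h3 : (0 : ℤ) ≤ 2 * ((X.card : ℤ) + Y.card) := by positivity
      linarith
    · rintro rfl; simp
  have hinj : ∀ S : Finset (ℤ × H), (∀ z ∈ S, |z.1| ≤ 2 * (R : ℤ)) →
      (S.image f).card = S.card := by
    intro S hS
    apply Finset.card_image_of_injOn
    intro x hx y hy hxy
    rw [hfapp, hfapp, Prod.mk.injEq] at hxy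
    have h1 : ((x.1 - y.1 : ℤ) : ZMod q) = 0 := by push_cast; rw [hxy.1]; ring
    rw [hsmall] at h1
    · exact Prod.ext (by linarith) hxy.2
    · have h2 := hS x hx
      have h3 := hS y hy
      rw [abs_le] at h2 h3 ⊢
      constructor <;> linarith [h2.1, h2.2, h3.1, h3.2]
  have hXb : ∀ z ∈ X, |z.1| ≤ (R : ℤ) := fun z hz => hR z (Finset.mem_union_left _ hz)
  have hYb : ∀ z ∈ Y, |z.1| ≤ (R : ℤ) := fun z hz => hR z (Finset.mem_union_right _ hz)
  have hsum : ∀ S T : Finset (ℤ × H), (∀ z ∈ S, |z.1| ≤ (R : ℤ)) →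
      (∀ z ∈ T, |z.1| ≤ (R : ℤ)) → (S.image f + T.image f).card = (S + T).card := by
    intro S T hS hT
    rw [← image_add_hom]
    apply hinj
    intro z hz
    obtain ⟨a, ha, b, hb, rfl⟩ := Finset.mem_add.1 hz
    have h1 := hS a ha
    have h2 := hT b hb
    rw [Prod.fst_add]
    calc |a.1 + b.1| ≤ |a.1| + |b.1| := abs_add_le _ _
      _ ≤ 2 * (R : ℤ) := by linarith
  have hone : ∀ S : Finset (ℤ × H), (∀ z ∈ S, |z.1| ≤ (R : ℤ)) → (S.image f).card = S.card := by
    intro S hS
    apply hinj
    intro z hz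
    have := hS z hz
    have h0 : (0 : ℤ) ≤ R := by positivity
    linarith
  obtain ⟨W, hWf, hW⟩ := hQ q hq2 inferInstance (X.image f) (Y.image f) (hX.image f)
    (hY.image f)
  rw [hsum X X hXb hXb, hsum X Y hXb hYb, hsum Y Y hYb hYb, hone X hXb, hone Y hYb] at hW
  have hn1 := nc_pos (V := W) (hX.image f)
  have hn2 := nc_pos (V := W) (hY.image f)
  haveI : Finite W := hWf.to_subtype
  by_cases hc : ∀ w ∈ W, w.1 = 0
  · -- `W` comes from a finite subgroup of `H`
    set VH : AddSubgroup H := W.comap (AddMonoidHom.inr (ZMod q) H) with hVH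
    have hmem : ∀ h : H, h ∈ VH ↔ ((0 : ZMod q), h) ∈ W := fun h => Iff.rfl
    have hinr : Function.Injective (AddMonoidHom.inr ℤ H) := by
      intro a b hab
      exact congrArg Prod.snd hab
    have hcard : Nat.card (VH.map (AddMonoidHom.inr ℤ H)) = Nat.card W := by
      rw [card_map_sub _ hinr]
      apply Nat.card_congr
      refine ⟨fun x => ⟨((0 : ZMod q), x.1), x.2⟩, fun w => ⟨w.1.2, ?_⟩, ?_, ?_⟩
      · rw [hmem]
        have := w.2
        have h0 := hc w.1 w.2
        have h1 : ((0 : ZMod q), w.1.2) = w.1 := Prod.ext h0.symm rfl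
        rw [h1]; exact this
      · intro x; rfl
      · intro w
        apply Subtype.ext
        exact Prod.ext (hc w.1 w.2).symm rfl
    have hfin : ((VH.map (AddMonoidHom.inr ℤ H) : AddSubgroup (ℤ × H)) : Set (ℤ × H)).Finite := by
      rw [AddSubgroup.coe_map]
      apply Set.Finite.image
      apply Set.Finite.preimage _ hWf
      intro a _ b _ hab
      exact congrArg Prod.snd hab
    refine ⟨VH.map (AddMonoidHom.inr ℤ H), hfin, ?_⟩
    have hn : ∀ Z : Finset (ℤ × H), (∀ z ∈ Z, |z.1| ≤ (R : ℤ)) →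
        nc W (Z.image f) = nc (VH.map (AddMonoidHom.inr ℤ H)) Z := by
      intro Z hZ
      apply nc_image
      intro x hx y hy
      rw [← map_sub, hfapp, AddSubgroup.mem_map]
      have hd : |(x - y).1| ≤ 4 * (R : ℤ) := by
        have h2 := hZ x hx
        have h3 := hZ y hy
        rw [Prod.fst_sub]
        rw [abs_le] at h2 h3 ⊢
        have h0 : (0 : ℤ) ≤ R := by positivity
        constructor <;> linarith [h2.1, h2.2, h3.1, h3.2]
      constructor
      · rintro ⟨v, hv, hvx⟩
        rw [← hvx]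
        have h1 : (AddMonoidHom.inr ℤ H) v = (0, v) := rfl
        rw [h1]
        simpa [hmem] using hv
      · intro h
        have h1 : ((x - y).1 : ZMod q) = 0 := hc _ h
        rw [hsmall _ hd] at h1
        refine ⟨(x - y).2, ?_, ?_⟩
        · rw [hmem]
          rw [h1] at h
          simpa using h
        · exact Prod.ext h1.symm rfl
    rw [hn X hXb, hn Y hYb] at hW
    rw [hcard]
    exact hW
  · -- `W` is large
    push Not at hc
    obtain ⟨w, hw, hw0⟩ := hc
    have hqW : q ≤ Nat.card W := by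
      have h1 : Function.Surjective (fun x : W => x.1.1) := by
        intro c
        -- `c = j * w.1`
        refine ⟨⟨(c * w.1⁻¹).val • w, W.nsmul_mem hw _⟩, ?_⟩
        simp only [Prod.smul_fst, nsmul_eq_mul, ZMod.natCast_val, ZMod.cast_id', id_eq]
        rw [mul_assoc, inv_mul_cancel₀ hw0, mul_one]
      have h2 := Nat.card_le_card_of_surjective _ h1
      rwa [Nat.card_zmod] at h2
    refine ⟨⊥, by simp, ?_⟩
    rw [nc_bot, nc_bot]
    have e0 : Nat.card (⊥ : AddSubgroup (ℤ × H)) = 1 := by simp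
    rw [e0]
    have e1 : Nat.card W * 2 ≤ Nat.card W * (nc W (X.image f) + nc W (Y.image f)) :=
      Nat.mul_le_mul_left _ (by omega)
    omega

/-- the free part -/
theorem QThm_fin_int (hfin : ∀ (G : Type u) [AddCommGroup G] [Finite G], QThm G) :
    ∀ (n : ℕ) (T : Type u) [AddCommGroup T] [Finite T], QThm ((Fin n → ℤ) × T) := by
  intro n
  induction n with
  | zero =>
    intro T _ _
    refine QThm_of_injective (AddMonoidHom.snd (Fin 0 → ℤ) T) ?_ (hfin T)
    intro x y hxy
    exact Prod.ext (Subsingleton.elim _ _) hxy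
  | succ n ih =>
    intro T _ _
    have h1 : QThm (ℤ × ((Fin n → ℤ) × T)) := by
      apply QThm_int_prod
      intro q hq
      haveI : NeZero q := ⟨hq.ne_zero⟩
      let f : ZMod q × ((Fin n → ℤ) × T) →+ (Fin n → ℤ) × (ZMod q × T) :=
        { toFun := fun z => (z.2.1, (z.1, z.2.2))
          map_zero' := rfl
          map_add' := fun _ _ => rfl }
      refine QThm_of_injective f ?_ (ih (ZMod q × T))
      intro x y hxy
      have e1 : x.2.1 = y.2.1 := (Prod.ext_iff.1 hxy).1
      have e2 : (x.1, x.2.2) = (y.1, y.2.2) := (Prod.ext_iff.1 hxy).2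
      rw [Prod.mk.injEq] at e2
      exact Prod.ext e2.1 (Prod.ext e1 e2.2)
    let g : (Fin (n + 1) → ℤ) × T →+ ℤ × ((Fin n → ℤ) × T) :=
      { toFun := fun z => (z.1 0, (fun i => z.1 i.succ, z.2))
        map_zero' := rfl
        map_add' := fun _ _ => rfl }
    refine QThm_of_injective g ?_ h1
    intro x y hxy
    have e1 : x.1 0 = y.1 0 := (Prod.ext_iff.1 hxy).1
    have e2 : ((fun i => x.1 (Fin.succ i), x.2) : (Fin n → ℤ) × T) =
      (fun i => y.1 (Fin.succ i), y.2) := (Prod.ext_iff.1 hxy).2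
    rw [Prod.mk.injEq] at e2
    refine Prod.ext ?_ e2.2
    funext i
    refine Fin.cases e1 (fun j => ?_) i
    exact congrFun e2.1 j

/-- the two-layer theorem for every abelian group -/
theorem QThm_all (hfin : ∀ (G : Type) [AddCommGroup G] [Finite G], QThm G)
    (G : Type*) [AddCommGroup G] : QThm G := by
  classical
  intro inst X Y hX hY
  set H : AddSubgroup G := AddSubgroup.closure ((X ∪ Y : Finset G) : Set G) with hH
  have hXH : ∀ x ∈ X, x ∈ H := fun x hx =>
    AddSubgroup.subset_closure (by simp [hx])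
  have hYH : ∀ x ∈ Y, x ∈ H := fun x hx =>
    AddSubgroup.subset_closure (by simp [hx])
  have hfg : AddGroup.FG H := by
    rw [AddGroup.fg_iff_addSubgroup_fg]
    exact ⟨X ∪ Y, rfl⟩
  obtain ⟨n, ι, _, p, hp, e, ⟨φ⟩⟩ := AddCommGroup.equiv_free_prod_directSum_zmod H
  have hTfin : Finite (DirectSum ι (fun i => ZMod (p i ^ e i))) := by
    have : ∀ i, NeZero (p i ^ e i) := fun i => ⟨pow_ne_zero _ (hp i).ne_zero⟩
    have : ∀ i, Finite (ZMod (p i ^ e i)) := fun i => inferInstance
    exact Finite.of_injective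
      (fun x : DirectSum ι (fun i => ZMod (p i ^ e i)) => (fun i => x i))
      (fun x y hxy => DFinsupp.ext (fun i => congrFun hxy i))
  have h1 := QThm_fin_int hfin n (DirectSum ι (fun i => ZMod (p i ^ e i)))
  have hQH : QThm H := by
    let f : H →+ (Fin n → ℤ) × DirectSum ι (fun i => ZMod (p i ^ e i)) :=
      { toFun := fun z => (fun i => (φ z).1 i, (φ z).2)
        map_zero' := by simp; rfl
        map_add' := fun x y => by simp; rfl }
    refine QThm_of_injective f ?_ h1
    intro x y hxy
    apply φ.injective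
    have e1 : (fun i => (φ x).1 i) = (fun i => (φ y).1 i) := (Prod.ext_iff.1 hxy).1
    have e2 : (φ x).2 = (φ y).2 := (Prod.ext_iff.1 hxy).2
    exact Prod.ext (Finsupp.ext (fun i => congrFun e1 i)) e2
  obtain ⟨W, hWf, _, hW⟩ := sub_transfer hQH hX hY
    (fun x hx y hy => H.sub_mem (hXH x hx) (hXH y hy))
    (fun x hx y hy => H.sub_mem (hYH x hx) (hYH y hy))
  exact ⟨W, hWf, hW⟩

/-- **Theorem Q** for every abelian group -/
theorem QThm_abelian (G : Type*) [AddCommGroup G] : QThm G :=
  QThm_all (fun G _ _ => QThm_finite G) G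

end Pool.Agent.Lib.MP_09e095_co
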