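import Mathlib
import Pool.Agent.Lib.MP_09e095_co.MLGeo7
import Pool.Agent.Lib.MP_09e095_co.FinIter
import Pool.Agent.Lib.MP_09e095_co.FinCyc
import Pool.Agent.Lib.MP_09e095_co.QZ

/-!
MP_09e095_co : the several-layer theorem from the statement on strips.
-/

set_option autoImplicit false

namespace Pool.Agent.Lib.MP_09e095_co

theorem QQ_of_strip (hSt : StripStmt.{0}) : QQStmt := by
  intro Γ _ π hfin hcyc _ A x y hx hy hxy
  exact ml_main (fun G _ => QThm_abelian G) hSt π (Set.toFinite _)
    (fun V V' hV hV' h => eq_of_card_cyclic hfin hcyc hV hV' h) A x y hx hy hxy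

end Pool.Agent.Lib.MP_09e095_co
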