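import Mathlib
import Pool.Agent.Lib.MP_09e095_co.MLFour

/-!
MP_09e095_co, multi-layer theorem, three strips : uniquely represented sums.
-/

set_option autoImplicit false

open Finset
open scoped Pointwise

namespace Pool.Agent.Lib.MP_09e095_co.Three

/-- In a sum `I + J` of sets of integers of minimal size there is no uniquely represented sum
`i₀ + j₀` with an element of `I` below `i₀` and an element of `J` above `j₀`. -/
theorem no_cross {I J : Finset ℤ} (ht : (I + J).card + 1 ≤ I.card + J.card) {i₀ j₀ : ℤ}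
    (hi : i₀ ∈ I) (hj : j₀ ∈ J) (hu : ∀ x ∈ I, ∀ y ∈ J, x + y = i₀ + j₀ → x = i₀ ∧ y = j₀)
    {x₀ y₀ : ℤ} (hx₀ : x₀ ∈ I) (hx : x₀ < i₀) (hy₀ : y₀ ∈ J) (hy : j₀ < y₀) : False := by
  classical
  have hIlt : (I.filter (fun x => x < i₀)).Nonempty := ⟨x₀, Finset.mem_filter.2 ⟨hx₀, hx⟩⟩
  have hJgt : (J.filter (fun y => j₀ < y)).Nonempty := ⟨y₀, Finset.mem_filter.2 ⟨hy₀, hy⟩⟩
  have hIge : (I.filter (fun x => ¬ x < i₀)).Nonempty := ⟨i₀, Finset.mem_filter.2 ⟨hi, by simp⟩⟩
  have hJle : (J.filter (fun y => ¬ j₀ < y)).Nonempty := ⟨j₀, Finset.mem_filter.2 ⟨hj, by simp⟩⟩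
  have hIle : (I.filter (fun x => ¬ i₀ < x)).Nonempty := ⟨i₀, Finset.mem_filter.2 ⟨hi, by simp⟩⟩
  have hJge : (J.filter (fun y => ¬ y < j₀)).Nonempty := ⟨j₀, Finset.mem_filter.2 ⟨hj, by simp⟩⟩
  set a := (I.filter (fun x => x < i₀)).max' hIlt with ha
  set b := (J.filter (fun y => j₀ < y)).min' hJgt with hb
  have haI := Finset.mem_filter.1 (Finset.max'_mem _ hIlt)
  have hbJ := Finset.mem_filter.1 (Finset.min'_mem _ hJgt)
  rw [← ha] at haI
  rw [← hb] at hbJ
  have hamax : ∀ x ∈ I, x < i₀ → x ≤ a := fun x hx hxi =>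
    Finset.le_max' _ _ (Finset.mem_filter.2 ⟨hx, hxi⟩)
  have hbmin : ∀ y ∈ J, j₀ < y → b ≤ y := fun y hy hyj =>
    Finset.min'_le _ _ (Finset.mem_filter.2 ⟨hy, hyj⟩)
  -- counting
  have cI : (I.filter (fun x => x < i₀)).card + (I.filter (fun x => ¬ x < i₀)).card = I.card :=
    Finset.card_filter_add_card_filter_not _
  have cJ : (J.filter (fun y => j₀ < y)).card + (J.filter (fun y => ¬ j₀ < y)).card = J.card :=
    Finset.card_filter_add_card_filter_not _
  have cI2 : I.card + 1 ≤ (I.filter (fun x => ¬ i₀ < x)).card +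
      (I.filter (fun x => ¬ x < i₀)).card := by
    have h1 := Finset.card_union_add_card_inter (I.filter (fun x => ¬ i₀ < x))
      (I.filter (fun x => ¬ x < i₀))
    have h2 : I ⊆ (I.filter (fun x => ¬ i₀ < x)) ∪ (I.filter (fun x => ¬ x < i₀)) := by
      intro x hx
      rw [Finset.mem_union, Finset.mem_filter, Finset.mem_filter]
      rcases lt_or_ge i₀ x with h | h
      · right; exact ⟨hx, by omega⟩
      · left; exact ⟨hx, by omega⟩
    have h3 : 1 ≤ ((I.filter (fun x => ¬ i₀ < x)) ∩ (I.filter (fun x => ¬ x < i₀))).card := by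
      rw [Nat.one_le_iff_ne_zero, ← Nat.pos_iff_ne_zero, Finset.card_pos]
      exact ⟨i₀, by simp [hi]⟩
    have h4 := Finset.card_le_card h2
    omega
  have cJ2 : J.card + 1 ≤ (J.filter (fun y => ¬ j₀ < y)).card +
      (J.filter (fun y => ¬ y < j₀)).card := by
    have h1 := Finset.card_union_add_card_inter (J.filter (fun y => ¬ j₀ < y))
      (J.filter (fun y => ¬ y < j₀))
    have h2 : J ⊆ (J.filter (fun y => ¬ j₀ < y)) ∪ (J.filter (fun y => ¬ y < j₀)) := by
      intro x hx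
      rw [Finset.mem_union, Finset.mem_filter, Finset.mem_filter]
      rcases lt_or_ge j₀ x with h | h
      · right; exact ⟨hx, by omega⟩
      · left; exact ⟨hx, by omega⟩
    have h3 : 1 ≤ ((J.filter (fun y => ¬ j₀ < y)) ∩ (J.filter (fun y => ¬ y < j₀))).card := by
      rw [Nat.one_le_iff_ne_zero, ← Nat.pos_iff_ne_zero, Finset.card_pos]
      exact ⟨j₀, by simp [hj]⟩
    have h4 := Finset.card_le_card h2
    omega
  have hzmem : a + b ∈ I + J := Finset.add_mem_add haI.1 hbJ.1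
  have fin : ∀ E E' : Finset ℤ, E ⊆ I + J → E' ⊆ I + J → Disjoint E E' → a + b ∉ E →
      a + b ∉ E' → E.card + E'.card + 1 ≤ (I + J).card := by
    intro E E' h1 h2 h3 h4 h5
    have h6 : (insert (a + b) (E ∪ E')).card = E.card + E'.card + 1 := by
      rw [Finset.card_insert_of_notMem, Finset.card_union_of_disjoint h3]
      rw [Finset.mem_union]; tauto
    rw [← h6]
    apply Finset.card_le_card
    intro z hz
    rcases Finset.mem_insert.1 hz with rfl | hz
    · exact hzmem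
    · rcases Finset.mem_union.1 hz with hz | hz
      · exact h1 hz
      · exact h2 hz
  have sub : ∀ (I' J' : Finset ℤ), I' ⊆ I → J' ⊆ J → I' + J' ⊆ I + J :=
    fun I' J' h1 h2 => Finset.add_subset_add h1 h2
  rcases lt_trichotomy (a + b) (i₀ + j₀) with hlt | heq | hgt
  · -- E = I_< + J_≤, E' = I_≥ + J_≥
    have c1 := cauchy_davenport_add_of_linearOrder_isCancelAdd hIlt hJle
    have c2 := cauchy_davenport_add_of_linearOrder_isCancelAdd hIge hJge
    have h1 := fin _ _ (sub _ _ (Finset.filter_subset (fun x => x < i₀) I)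
      (Finset.filter_subset (fun y => ¬ j₀ < y) J))
      (sub _ _ (Finset.filter_subset (fun x => ¬ x < i₀) I)
      (Finset.filter_subset (fun y => ¬ y < j₀) J)) ?_ ?_ ?_
    · have p1 := Finset.card_pos.2 hIlt
      have p2 := Finset.card_pos.2 hJle
      have p3 := Finset.card_pos.2 hIge
      have p4 := Finset.card_pos.2 hJge
      omega
    · rw [Finset.disjoint_left]
      intro z hz hz'
      obtain ⟨x, hx, y, hy, rfl⟩ := Finset.mem_add.1 hz
      obtain ⟨x', hx', y', hy', h⟩ := Finset.mem_add.1 hz'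
      rw [Finset.mem_filter] at hx hy hx' hy'
      omega
    · intro hz
      obtain ⟨x, hx, y, hy, h⟩ := Finset.mem_add.1 hz
      rw [Finset.mem_filter] at hx hy
      have := hamax x hx.1 hx.2
      omega
    · intro hz
      obtain ⟨x, hx, y, hy, h⟩ := Finset.mem_add.1 hz
      rw [Finset.mem_filter] at hx hy
      omega
  · have := hu a haI.1 b hbJ.1 heq
    omega
  · have c1 := cauchy_davenport_add_of_linearOrder_isCancelAdd hIle hJle
    have c2 := cauchy_davenport_add_of_linearOrder_isCancelAdd hIge hJgt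
    have h1 := fin _ _ (sub _ _ (Finset.filter_subset (fun x => ¬ i₀ < x) I)
      (Finset.filter_subset (fun y => ¬ j₀ < y) J))
      (sub _ _ (Finset.filter_subset (fun x => ¬ x < i₀) I)
      (Finset.filter_subset (fun y => j₀ < y) J)) ?_ ?_ ?_
    · have p1 := Finset.card_pos.2 hIle
      have p2 := Finset.card_pos.2 hJle
      have p3 := Finset.card_pos.2 hIge
      have p4 := Finset.card_pos.2 hJgt
      omega
    · rw [Finset.disjoint_left]
      intro z hz hz'
      obtain ⟨x, hx, y, hy, rfl⟩ := Finset.mem_add.1 hz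
      obtain ⟨x', hx', y', hy', h⟩ := Finset.mem_add.1 hz'
      rw [Finset.mem_filter] at hx hy hx' hy'
      omega
    · intro hz
      obtain ⟨x, hx, y, hy, h⟩ := Finset.mem_add.1 hz
      rw [Finset.mem_filter] at hx hy
      omega
    · intro hz
      obtain ⟨x, hx, y, hy, h⟩ := Finset.mem_add.1 hz
      rw [Finset.mem_filter] at hx hy
      have := hbmin y hy.1 hy.2
      omega

/-- a uniquely represented sum in a sum of minimal size is `min + min` or `max + max` -/
theorem uniq_extreme {I J : Finset ℤ} (hI : 2 ≤ I.card) (hJ : 2 ≤ J.card)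
    (ht : (I + J).card + 1 ≤ I.card + J.card) {i₀ j₀ : ℤ}
    (hi : i₀ ∈ I) (hj : j₀ ∈ J) (hu : ∀ x ∈ I, ∀ y ∈ J, x + y = i₀ + j₀ → x = i₀ ∧ y = j₀) :
    ((∀ x ∈ I, i₀ ≤ x) ∧ (∀ y ∈ J, j₀ ≤ y)) ∨ ((∀ x ∈ I, x ≤ i₀) ∧ (∀ y ∈ J, y ≤ j₀)) := by
  have h1 : ¬ ((∃ x ∈ I, x < i₀) ∧ ∃ y ∈ J, j₀ < y) := by
    rintro ⟨⟨x, hx, hxi⟩, y, hy, hyj⟩
    exact no_cross ht hi hj hu hx hxi hy hyj
  have h2 : ¬ ((∃ y ∈ J, y < j₀) ∧ ∃ x ∈ I, i₀ < x) := by
    rintro ⟨⟨y, hy, hyj⟩, x, hx, hxi⟩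
    refine no_cross (I := J) (J := I) (by rw [add_comm J I]; omega) hj hi ?_ hy hyj hx hxi
    intro y hy x hx h
    have := hu x hx y hy (by omega)
    exact ⟨this.2, this.1⟩
  have h3 : ∃ x ∈ I, x ≠ i₀ := by
    by_contra hc
    push Not at hc
    have : I.card ≤ 1 := Finset.card_le_one.2 (fun x hx y hy => (hc x hx).trans (hc y hy).symm)
    omega
  have h4 : ∃ y ∈ J, y ≠ j₀ := by
    by_contra hc
    push Not at hc
    have : J.card ≤ 1 := Finset.card_le_one.2 (fun x hx y hy => (hc x hx).trans (hc y hy).symm)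
    omega
  by_cases hl : ∃ x ∈ I, x < i₀
  · right
    have h5 : ∀ y ∈ J, y ≤ j₀ := by
      intro y hy
      by_contra hc
      exact h1 ⟨hl, y, hy, by omega⟩
    obtain ⟨y, hy, hyne⟩ := h4
    have h6 : ∃ y ∈ J, y < j₀ := ⟨y, hy, by have := h5 y hy; omega⟩
    refine ⟨?_, h5⟩
    intro x hx
    by_contra hc
    exact h2 ⟨h6, x, hx, by omega⟩
  · left
    have h5 : ∀ x ∈ I, i₀ ≤ x := by
      intro x hx
      by_contra hc
      exact hl ⟨x, hx, by omega⟩
    obtain ⟨x, hx, hxne⟩ := h3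
    have h6 : ∃ x ∈ I, i₀ < x := ⟨x, hx, by have := h5 x hx; omega⟩
    refine ⟨h5, ?_⟩
    intro y hy
    by_contra hc
    exact h2 ⟨⟨y, hy, by omega⟩, h6⟩

/-- pairs of elements of a set with distinct sums -/
theorem sum_pairs {E : Type*} [AddCommGroup E] [DecidableEq E] {D Lost : Finset E}
    (hsub : Lost ⊆ D + D) (hc : (D.card + 1).choose 2 ≤ Lost.card) :
    (∀ a ∈ D, ∀ b ∈ D, a + b ∈ Lost) ∧
    (∀ a ∈ D, ∀ b ∈ D, ∀ x ∈ D, ∀ y ∈ D, x + y = a + b → (x = a ∧ y = b) ∨ (x = b ∧ y = a)) := by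
  classical
  let f : Sym2 E → E := Sym2.lift ⟨fun x y => x + y, fun x y => add_comm x y⟩
  have hf : ∀ x y, f s(x, y) = x + y := fun x y => rfl
  have himg : D + D ⊆ D.sym2.image f := by
    intro z hz
    obtain ⟨x, hx, y, hy, rfl⟩ := Finset.mem_add.1 hz
    exact Finset.mem_image.2 ⟨s(x, y), Finset.mk_mem_sym2_iff.2 ⟨hx, hy⟩, rfl⟩
  have hle : (D.sym2.image f).card ≤ (D.card + 1).choose 2 := by
    rw [← Finset.card_sym2]
    exact Finset.card_image_le
  have h1 := Finset.card_le_card hsub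
  have h2 := Finset.card_le_card himg
  have heq : D + D = Lost := (Finset.eq_of_subset_of_card_le hsub (by omega)).symm
  have hinj : Set.InjOn f (D.sym2 : Set (Sym2 E)) := by
    rw [← Finset.card_image_iff, Finset.card_sym2]
    omega
  refine ⟨fun a ha b hb => heq ▸ Finset.add_mem_add ha hb, ?_⟩
  intro a ha b hb x hx y hy h
  have h3 : s(x, y) = s(a, b) := by
    apply hinj
    · exact Finset.mem_coe.2 (Finset.mk_mem_sym2_iff.2 ⟨hx, hy⟩)
    · exact Finset.mem_coe.2 (Finset.mk_mem_sym2_iff.2 ⟨ha, hb⟩)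
    · exact h
  rw [Sym2.eq_iff] at h3
  exact h3

end Pool.Agent.Lib.MP_09e095_co.Three
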