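import Mathlib
import Pool.Agent.Lib.MP_09e095_co.MLThreeA

/-!
MP_09e095_co, multi-layer theorem, three strips : three removed cells.
-/

set_option autoImplicit false

open Finset
open scoped Pointwise

namespace Pool.Agent.Lib.MP_09e095_co.Three

variable {E : Type*} [AddCommGroup E] [DecidableEq E] {N : AddSubgroup E}

/-- uniquely represented sums in a tight sum of two strips -/
theorem uniq_strip (π : E →+ ℤ) (hπ : ∀ x ∈ N, π x = 0 → x = 0) {I J : Finset E}
    (hIN : InCoset N I) (hJN : InCoset N J) (hI : 2 ≤ I.card) (hJ : 2 ≤ J.card)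
    (ht : (I + J).card + 1 ≤ I.card + J.card) {a b : E} (ha : a ∈ I) (hb : b ∈ J)
    (hu : ∀ x ∈ I, ∀ y ∈ J, x + y = a + b → x = a ∧ y = b) :
    ((∀ x ∈ I, π a ≤ π x) ∧ (∀ y ∈ J, π b ≤ π y)) ∨
      ((∀ x ∈ I, π x ≤ π a) ∧ (∀ y ∈ J, π y ≤ π b)) := by
  have hinj : ∀ (A : Finset E), InCoset N A → (A.image π).card = A.card := by
    intro A hA
    apply Finset.card_image_of_injOn
    intro x hx y hy hxy
    have h1 := hπ (x - y) (hA x hx y hy) (by rw [map_sub, hxy, sub_self])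
    exact sub_eq_zero.1 h1
  have h1 := hinj _ hIN
  have h2 := hinj _ hJN
  have h3 : (I.image π + J.image π).card + 1 ≤ (I.image π).card + (J.image π).card := by
    rw [← Finset.image_add, h1, h2]
    have : ((I + J).image π).card ≤ (I + J).card := Finset.card_image_le
    omega
  have key := uniq_extreme (I := I.image π) (J := J.image π) (by omega) (by omega) h3
    (Finset.mem_image_of_mem π ha) (Finset.mem_image_of_mem π hb) ?_
  · rcases key with ⟨k1, k2⟩ | ⟨k1, k2⟩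
    · exact Or.inl ⟨fun x hx => k1 _ (Finset.mem_image_of_mem π hx),
        fun y hy => k2 _ (Finset.mem_image_of_mem π hy)⟩
    · exact Or.inr ⟨fun x hx => k1 _ (Finset.mem_image_of_mem π hx),
        fun y hy => k2 _ (Finset.mem_image_of_mem π hy)⟩
  · intro x' hx' y' hy' h
    obtain ⟨x, hx, rfl⟩ := Finset.mem_image.1 hx'
    obtain ⟨y, hy, rfl⟩ := Finset.mem_image.1 hy'
    have h4 : (x + y) - (a + b) = 0 := by
      apply hπ
      · have e : (x + y) - (a + b) = (x - a) + (y - b) := by abel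
        rw [e]
        exact N.add_mem (hIN x hx a ha) (hJN y hy b hb)
      · rw [map_sub, map_add, map_add, h, sub_self]
    obtain ⟨h5, h6⟩ := hu x hx y hy (sub_eq_zero.1 h4)
    rw [h5, h6]
    exact ⟨rfl, rfl⟩

/-- three cells of two strips (all three sums of strips tight) cannot have all their sums
uniquely represented -/
theorem no_three (π : E →+ ℤ) (hπ : ∀ x ∈ N, π x = 0 → x = 0) {I J D : Finset E}
    (hIN : InCoset N I) (hJN : InCoset N J) (hI : 2 ≤ I.card) (hJ : 2 ≤ J.card)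
    (hII : (I + I).card + 1 ≤ I.card + I.card) (hIJ : (I + J).card + 1 ≤ I.card + J.card)
    (hJJ : (J + J).card + 1 ≤ J.card + J.card) (hdis : Disjoint I J) (hD : D ⊆ I ∪ J)
    (hD3 : D.card = 3)
    (hu : ∀ a ∈ D, ∀ b ∈ D, ∀ x ∈ I ∪ J, ∀ y ∈ I ∪ J, x + y = a + b →
      (x = a ∧ y = b) ∨ (x = b ∧ y = a)) : False := by
  classical
  have hII' : I ⊆ I ∪ J := Finset.subset_union_left
  have hJJ' : J ⊆ I ∪ J := Finset.subset_union_right
  -- minimum and maximum are unique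
  have uni : ∀ (A : Finset E), InCoset N A → ∀ a ∈ A, ∀ b ∈ A, π a = π b → a = b := by
    intro A hA a ha b hb h
    have := hπ (a - b) (hA a ha b hb) (by rw [map_sub, h, sub_self])
    exact sub_eq_zero.1 this
  have nomm : ∀ (A : Finset E), InCoset N A → 2 ≤ A.card → ∀ a ∈ A, (∀ x ∈ A, π a ≤ π x) →
      (∀ x ∈ A, π x ≤ π a) → False := by
    intro A hA h2 a ha h3 h4
    have : A.card ≤ 1 := Finset.card_le_one.2 (fun x hx y hy =>
      uni A hA x hx y hy (by have := h3 x hx; have := h4 x hx; have := h3 y hy; have := h4 y hy; omega))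
    omega
  let Q : E → Prop := fun d => (d ∈ I ∧ ∀ x ∈ I, π d ≤ π x) ∨ (d ∈ J ∧ ∀ x ∈ J, π x ≤ π d)
  let R : E → Prop := fun d => (d ∈ I ∧ ∀ x ∈ I, π x ≤ π d) ∨ (d ∈ J ∧ ∀ x ∈ J, π d ≤ π x)
  -- sums of a cell in `I` and a cell in `J`
  have cross : ∀ d ∈ D, ∀ d' ∈ D, d ∈ I → d' ∈ J →
      ((∀ x ∈ I, π d ≤ π x) ∧ (∀ y ∈ J, π d' ≤ π y)) ∨
      ((∀ x ∈ I, π x ≤ π d) ∧ (∀ y ∈ J, π y ≤ π d')) := by
    intro d hd d' hd' hdI hd'J
    refine uniq_strip π hπ hIN hJN hI hJ hIJ hdI hd'J ?_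
    intro x hx y hy h
    rcases hu d hd d' hd' x (hII' hx) y (hJJ' hy) h with h5 | h5
    · exact h5
    · exfalso
      rw [Finset.disjoint_left] at hdis
      exact hdis hx (h5.1 ▸ hd'J)
  have crossQ : ∀ d ∈ D, ∀ d' ∈ D, d ∈ I → (∀ x ∈ I, π d ≤ π x) → d' ∈ J →
      (∀ x ∈ J, π x ≤ π d') → False := by
    intro d hd d' hd' h1 h2 h3 h4
    rcases cross d hd d' hd' h1 h3 with ⟨h5, h6⟩ | ⟨h5, h6⟩
    · exact nomm J hJN hJ d' h3 h6 h4
    · exact nomm I hIN hI d h1 h2 h5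
  have crossR : ∀ d ∈ D, ∀ d' ∈ D, d ∈ I → (∀ x ∈ I, π x ≤ π d) → d' ∈ J →
      (∀ x ∈ J, π d' ≤ π x) → False := by
    intro d hd d' hd' h1 h2 h3 h4
    rcases cross d hd d' hd' h1 h3 with ⟨h5, h6⟩ | ⟨h5, h6⟩
    · exact nomm I hIN hI d h1 h5 h2
    · exact nomm J hJN hJ d' h3 h4 h6
  have hQR : D ⊆ D.filter Q ∪ D.filter R := by
    intro d hd
    rw [Finset.mem_union, Finset.mem_filter, Finset.mem_filter]
    rcases Finset.mem_union.1 (hD hd) with h | h
    · rcases uniq_strip π hπ hIN hIN hI hI hII h h (fun x hx y hy h5 => by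
        rcases hu d hd d hd x (hII' hx) y (hII' hy) h5 with h6 | h6
        · exact h6
        · exact ⟨h6.1, h6.2⟩) with ⟨h5, _⟩ | ⟨h5, _⟩
      · exact Or.inl ⟨hd, Or.inl ⟨h, h5⟩⟩
      · exact Or.inr ⟨hd, Or.inl ⟨h, h5⟩⟩
    · rcases uniq_strip π hπ hJN hJN hJ hJ hJJ h h (fun x hx y hy h5 => by
        rcases hu d hd d hd x (hJJ' hx) y (hJJ' hy) h5 with h6 | h6
        · exact h6
        · exact ⟨h6.1, h6.2⟩) with ⟨h5, _⟩ | ⟨h5, _⟩
      · exact Or.inr ⟨hd, Or.inr ⟨h, h5⟩⟩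
      · exact Or.inl ⟨hd, Or.inr ⟨h, h5⟩⟩
  have hQ1 : (D.filter Q).card ≤ 1 := by
    rw [Finset.card_le_one]
    intro d hd d' hd'
    rw [Finset.mem_filter] at hd hd'
    obtain ⟨hdD, hd | hd⟩ := hd
    · obtain ⟨hdD', hd' | hd'⟩ := hd'
      · exact uni I hIN d hd.1 d' hd'.1 (le_antisymm (hd.2 _ hd'.1) (hd'.2 _ hd.1))
      · exact (crossQ d hdD d' hdD' hd.1 hd.2 hd'.1 hd'.2).elim
    · obtain ⟨hdD', hd' | hd'⟩ := hd'
      · exact (crossQ d' hdD' d hdD hd'.1 hd'.2 hd.1 hd.2).elim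
      · exact uni J hJN d hd.1 d' hd'.1 (le_antisymm (hd'.2 _ hd.1) (hd.2 _ hd'.1))
  have hR1 : (D.filter R).card ≤ 1 := by
    rw [Finset.card_le_one]
    intro d hd d' hd'
    rw [Finset.mem_filter] at hd hd'
    obtain ⟨hdD, hd | hd⟩ := hd
    · obtain ⟨hdD', hd' | hd'⟩ := hd'
      · exact uni I hIN d hd.1 d' hd'.1 (le_antisymm (hd'.2 _ hd.1) (hd.2 _ hd'.1))
      · exact (crossR d hdD d' hdD' hd.1 hd.2 hd'.1 hd'.2).elim
    · obtain ⟨hdD', hd' | hd'⟩ := hd'
      · exact (crossR d' hdD' d hdD hd'.1 hd'.2 hd.1 hd.2).elim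
      · exact uni J hJN d hd.1 d' hd'.1 (le_antisymm (hd.2 _ hd'.1) (hd'.2 _ hd.1))
  have h1 := Finset.card_le_card hQR
  have h2 := Finset.card_union_le (D.filter Q) (D.filter R)
  omega

omit [DecidableEq E] in
/-- disjoint strips -/
theorem sum_five (A : Finset E) {s1 s2 s3 s4 s5 : E ⧸ N} [DecidableEq (E ⧸ N)]
    (h : ({s1, s2, s3, s4, s5} : Finset (E ⧸ N)).card = 5) :
    (fb N A s1).card + (fb N A s2).card + (fb N A s3).card + (fb N A s4).card +
      (fb N A s5).card ≤ A.card := by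
  classical
  have hdis : ∀ s s' : E ⧸ N, s ≠ s' → Disjoint (fb N A s) (fb N A s') := by
    intro s s' hne
    rw [Finset.disjoint_left]
    intro x hx hx'
    exact hne ((mem_fb.1 hx).2.symm.trans (mem_fb.1 hx').2)
  have hbU : (({s1, s2, s3, s4, s5} : Finset (E ⧸ N)).biUnion (fun s => fb N A s)).card ≤
      A.card := by
    apply Finset.card_le_card
    intro x hx
    obtain ⟨s, _, hs⟩ := Finset.mem_biUnion.1 hx
    exact fb_subset hs
  rw [Finset.card_biUnion (fun s _ s' _ hne => hdis s s' hne)] at hbU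
  have n1 : s1 ∉ ({s2, s3, s4, s5} : Finset (E ⧸ N)) := by
    intro hm
    rw [Finset.insert_eq_of_mem hm] at h
    have := Finset.card_le_four (a := s2) (b := s3) (c := s4) (d := s5)
    omega
  have n2 : s2 ∉ ({s3, s4, s5} : Finset (E ⧸ N)) := by
    intro hm
    rw [Finset.insert_eq_of_mem hm, Finset.card_insert_of_notMem] at h
    · have := Finset.card_le_three (a := s3) (b := s4) (c := s5)
      omega
    · intro hm'
      exact n1 (Finset.mem_insert_of_mem hm')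
  have n3 : s3 ∉ ({s4, s5} : Finset (E ⧸ N)) := by
    intro hm
    rw [Finset.card_insert_of_notMem n1, Finset.card_insert_of_notMem n2,
      Finset.insert_eq_of_mem hm] at h
    have := Finset.card_le_two (a := s4) (b := s5)
    omega
  have n4 : s4 ∉ ({s5} : Finset (E ⧸ N)) := by
    intro hm
    rw [Finset.card_insert_of_notMem n1, Finset.card_insert_of_notMem n2,
      Finset.card_insert_of_notMem n3, Finset.insert_eq_of_mem hm, Finset.card_singleton] at h
    omega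
  rw [Finset.sum_insert n1, Finset.sum_insert n2, Finset.sum_insert n3, Finset.sum_insert n4,
    Finset.sum_singleton] at hbU
  omega

end Pool.Agent.Lib.MP_09e095_co.Three
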