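import Mathlib
import Pool.Agent.Lib.MP_09e095_co.MLThreeB

/-!
MP_09e095_co, multi-layer theorem : exactly three strips.
-/

set_option autoImplicit false

open Finset
open scoped Pointwise

namespace Pool.Agent.Lib.MP_09e095_co.Three

section base

variable {H : Type*} [AddCommGroup H] [DecidableEq H] [Finite H]

omit [DecidableEq H] in
theorem no_double {B : Finset H} (hB : HW B) (h3 : B.card = 3) {a b : H} (ha : a ∈ B)
    (hb : b ∈ B) (hab : a ≠ b) (h : a + a = b + b) : False := by
  classical
  set t := a - b with ht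
  have ht0 : t ≠ 0 := sub_ne_zero.2 hab
  have htt : 2 • t = 0 := by
    rw [two_nsmul, ht]
    have : a - b + (a - b) = (a + a) - (b + b) := by abel
    rw [this, h, sub_self]
  have hord : addOrderOf t = 2 := addOrderOf_eq_prime htt ht0
  set S := AddSubgroup.zmultiples t with hS
  have hcard : Nat.card S = 2 := by rw [hS, Nat.card_zmultiples, hord]
  have hSbot : S ≠ ⊥ := by
    intro hc
    rw [hc] at hcard
    simp at hcard
  have h2 := hB.h2 S hSbot
  rw [hcard, h3] at h2
  have hle : nc S B ≤ 2 := by
    have hsub : cl S B ⊆ cl S (B.erase a) := by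
      intro q hq
      obtain ⟨x, hx, rfl⟩ := mem_cl.1 hq
      by_cases hxa : x = a
      · subst hxa
        refine mem_cl.2 ⟨b, Finset.mem_erase.2 ⟨hab.symm, hb⟩, (mk_eq_of_sub_mem ?_).symm⟩
        rw [hS, ← ht]
        exact AddSubgroup.mem_zmultiples t
      · exact mk_mem_cl (Finset.mem_erase.2 ⟨hxa, hx⟩)
    have h4 := Finset.card_le_card hsub
    have h5 := nc_le_card S (B.erase a)
    rw [Finset.card_erase_of_mem ha, h3] at h5
    unfold nc at h5 ⊢
    omega
  have h6 := ML.card_le_of_two hB S (by omega)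
  omega

theorem arrange_aux {B : Finset H} (hB : HW B) {a b c : H} (hab : a ≠ b) (hac : a ≠ c)
    (hbc : b ≠ c) (hBe : B = {a, b, c}) (h : a + c = b + b) :
    ({a + a, a + b, b + b, b + c, c + c} : Finset H).card = 5 := by
  have h3 : B.card = 3 := by rw [hBe]; exact Finset.card_eq_three.2 ⟨a, b, c, hab, hac, hbc, rfl⟩
  have h1 := hw_E1 hB
  have hsub : B + B ⊆ {a + a, a + b, b + b, b + c, c + c} := by
    rw [hBe]
    intro z hz
    obtain ⟨x, hx, y, hy, rfl⟩ := Finset.mem_add.1 hz
    simp only [Finset.mem_insert, Finset.mem_singleton] at hx hy ⊢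
    rcases hx with rfl | rfl | rfl <;> rcases hy with rfl | rfl | rfl
    · tauto
    · tauto
    · tauto
    · right; left; exact add_comm _ _
    · tauto
    · tauto
    · rw [add_comm x y]; tauto
    · right; right; right; left; exact add_comm _ _
    · tauto
  have h4 := Finset.card_le_card hsub
  have h5 := Finset.card_le_five (a := a + a) (b := a + b) (c := b + b) (d := b + c) (e := c + c)
  omega

theorem arrange {B : Finset H} (hB : HW B) (h3 : B.card = 3) (h5 : (B + B).card ≤ 5) :
    ∃ a b c : H, a ≠ b ∧ a ≠ c ∧ b ≠ c ∧ B = {a, b, c} ∧ a + c = b + b ∧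
      ({a + a, a + b, b + b, b + c, c + c} : Finset H).card = 5 := by
  obtain ⟨a, b, c, hab, hac, hbc, hBe⟩ := Finset.card_eq_three.1 h3
  have ha : a ∈ B := by rw [hBe]; simp
  have hb : b ∈ B := by rw [hBe]; simp
  have hc : c ∈ B := by rw [hBe]; simp
  by_cases e1 : a + c = b + b
  · exact ⟨a, b, c, hab, hac, hbc, hBe, e1, arrange_aux hB hab hac hbc hBe e1⟩
  by_cases e2 : a + b = c + c
  · have hBe' : B = {a, c, b} := by
      rw [hBe]; congr 1; exact Finset.pair_comm b c
    exact ⟨a, c, b, hac, hab, hbc.symm, hBe', e2, arrange_aux hB hac hab hbc.symm hBe' e2⟩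
  by_cases e3 : b + c = a + a
  · have hBe' : B = {b, a, c} := by
      rw [hBe, Finset.insert_comm]
    exact ⟨b, a, c, hab.symm, hbc, hac, hBe', e3, arrange_aux hB hab.symm hbc hac hBe' e3⟩
  exfalso
  have n1 : a + a ≠ b + b := fun h => no_double hB h3 ha hb hab h
  have n2 : a + a ≠ c + c := fun h => no_double hB h3 ha hc hac h
  have n3 : b + b ≠ c + c := fun h => no_double hB h3 hb hc hbc h
  have n4 : a + a ≠ a + b := fun h => hab (add_left_cancel h)
  have n5 : a + a ≠ a + c := fun h => hac (add_left_cancel h)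
  have n6 : b + b ≠ a + b := fun h => hab (add_right_cancel h).symm
  have n7 : b + b ≠ b + c := fun h => hbc (add_left_cancel h)
  have n8 : c + c ≠ a + c := fun h => hac (add_right_cancel h).symm
  have n9 : c + c ≠ b + c := fun h => hbc (add_right_cancel h).symm
  have n10 : a + b ≠ a + c := fun h => hbc (add_left_cancel h)
  have n11 : a + b ≠ b + c := fun h => hac (by rw [add_comm a b] at h; exact add_left_cancel h)
  have n12 : a + c ≠ b + c := fun h => hab (add_right_cancel h)
  have h6 : ({a + a, b + b, c + c, a + b, a + c, b + c} : Finset H).card = 6 := by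
    rw [Finset.card_insert_of_notMem, Finset.card_insert_of_notMem,
      Finset.card_insert_of_notMem, Finset.card_insert_of_notMem, Finset.card_insert_of_notMem,
      Finset.card_singleton]
    · simp only [Finset.mem_singleton]; exact n12
    · simp only [Finset.mem_insert, Finset.mem_singleton]; tauto
    · simp only [Finset.mem_insert, Finset.mem_singleton]
      have := Ne.symm e2
      tauto
    · simp only [Finset.mem_insert, Finset.mem_singleton]
      have := Ne.symm e1
      tauto
    · simp only [Finset.mem_insert, Finset.mem_singleton]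
      have := Ne.symm e3
      tauto
  have h7 : ({a + a, b + b, c + c, a + b, a + c, b + c} : Finset H) ⊆ B + B := by
    intro z hz
    simp only [Finset.mem_insert, Finset.mem_singleton] at hz
    rcases hz with rfl | rfl | rfl | rfl | rfl | rfl
    · exact Finset.add_mem_add ha ha
    · exact Finset.add_mem_add hb hb
    · exact Finset.add_mem_add hc hc
    · exact Finset.add_mem_add ha hb
    · exact Finset.add_mem_add ha hc
    · exact Finset.add_mem_add hb hc
  have h8 := Finset.card_le_card h7
  omega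

end base

variable {E : Type*} [AddCommGroup E] [DecidableEq E] {N : AddSubgroup E}

/-- the structure of `P` over three strips in arithmetic progression -/
structure Tri (N : AddSubgroup E) [DecidableEq (E ⧸ N)] (P : Finset E) (a b c : E ⧸ N) :
    Prop where
  hab : a ≠ b
  hac : a ≠ c
  hbc : b ≠ c
  hcl : cl N P = {a, b, c}
  hs : a + c = b + b
  h5 : ({a + a, a + b, b + b, b + c, c + c} : Finset (E ⧸ N)).card = 5

omit [DecidableEq E] in
theorem Tri.card [DecidableEq (E ⧸ N)] {P : Finset E} {a b c : E ⧸ N} (h : Tri N P a b c)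
    {F : Finset E} (hFP : F ⊆ P) :
    F.card = (fb N F a).card + (fb N F b).card + (fb N F c).card := by
  have h1 := card_eq_sum_fb (V := N) F (cl_mono hFP)
  rw [h.hcl, Finset.sum_insert (by simp [h.hab, h.hac]), Finset.sum_insert (by simp [h.hbc]),
    Finset.sum_singleton] at h1
  omega

/-- the numerical data of the tight case -/
theorem tight_data [DecidableEq (E ⧸ N)] (π : E →+ ℤ) (hπ : ∀ x ∈ N, π x = 0 → x = 0)
    {P : Finset E} {a b c : E ⧸ N} (h : Tri N P a b c)
    (hp : ∀ r ∈ cl N P, 2 ≤ (fb N P r).card) (hk : 7 ≤ P.card)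
    (hs : (P + P).card + 2 = 3 * P.card) :
    (fb N (P + P) (a + a)).card + 1 ≤ 2 * (fb N P a).card ∧
    (fb N (P + P) (a + b)).card + 1 ≤ (fb N P a).card + (fb N P b).card ∧
    (fb N (P + P) (b + c)).card + 1 ≤ (fb N P b).card + (fb N P c).card ∧
    (fb N (P + P) (c + c)).card + 1 ≤ 2 * (fb N P c).card ∧
    (fb N (P + P) (b + b)).card ≤ (fb N P b).card + 2 ∧
    (((fb N P b).card = 3) ∨ ((fb N P b).card = 2 ∧ (fb N P a).card + (fb N P c).card = 5)) := by
  have ma : a ∈ cl N P := by rw [h.hcl]; simp
  have mb : b ∈ cl N P := by rw [h.hcl]; simp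
  have mc : c ∈ cl N P := by rw [h.hcl]; simp
  have pa := hp a ma
  have pb := hp b mb
  have pc := hp c mc
  have hP := h.card (le_refl P)
  have e1 := strip_add π hπ ma ma
  have e2 := strip_add π hπ ma mb
  have e3 := strip_add π hπ mb mb
  have e4 := strip_add π hπ ma mc
  rw [h.hs] at e4
  have e5 := strip_add π hπ mb mc
  have e6 := strip_add π hπ mc mc
  have e7 := sum_five (P + P) h.h5
  omega

/-- three removed cells -/
theorem three_cells [DecidableEq (E ⧸ N)] (π : E →+ ℤ) (hπ : ∀ x ∈ N, π x = 0 → x = 0)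
    {P : Finset E} {a b c : E ⧸ N} (h : Tri N P a b c)
    (hp : ∀ r ∈ cl N P, 2 ≤ (fb N P r).card) (hk : 7 ≤ P.card)
    (hs : (P + P).card + 2 = 3 * P.card) {F : Finset E} (hFP : F ⊆ P)
    (hF3 : F.card + 3 = P.card) : 3 * F.card + 2 ≤ (F + P).card := by
  by_contra hcon
  have ma : a ∈ cl N P := by rw [h.hcl]; simp
  have mb : b ∈ cl N P := by rw [h.hcl]; simp
  have mc : c ∈ cl N P := by rw [h.hcl]; simp
  have pa := hp a ma
  have pb := hp b mb
  have pc := hp c mc
  obtain ⟨t1, t2, t3, t4, t5, t6⟩ := tight_data π hπ h hp hk hs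
  set D := P \ F with hD
  have hDc : D.card = 3 := by
    rw [hD, Finset.card_sdiff_of_subset hFP]; omega
  have hDP : D ⊆ P := Finset.sdiff_subset
  set Lost := (P + P) \ (F + P) with hLost
  have hFPP : F + P ⊆ P + P := Finset.add_subset_add hFP (le_refl P)
  have hLc : Lost.card = (P + P).card - (F + P).card := Finset.card_sdiff_of_subset hFPP
  have hout : ∀ x ∈ P, ∀ y ∈ P, x + y ∉ F + P → x ∈ D ∧ y ∈ D := by
    intro x hx y hy hxy
    refine ⟨Finset.mem_sdiff.2 ⟨hx, fun hxF => hxy (Finset.add_mem_add hxF hy)⟩,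
      Finset.mem_sdiff.2 ⟨hy, fun hyF => hxy ?_⟩⟩
    rw [add_comm x y]
    exact Finset.add_mem_add hyF hx
  have hsub : Lost ⊆ D + D := by
    intro z hz
    obtain ⟨hz1, hz2⟩ := Finset.mem_sdiff.1 hz
    obtain ⟨x, hx, y, hy, rfl⟩ := Finset.mem_add.1 hz1
    obtain ⟨h1, h2⟩ := hout x hx y hy hz2
    exact Finset.add_mem_add h1 h2
  obtain ⟨k1, k2⟩ := sum_pairs hsub (by
    rw [hDc, hLc]
    have : (3 + 1).choose 2 = 6 := by decide
    omega)
  have hu : ∀ d ∈ D, ∀ d' ∈ D, ∀ x ∈ P, ∀ y ∈ P, x + y = d + d' →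
      (x = d ∧ y = d') ∨ (x = d' ∧ y = d) := by
    intro d hd d' hd' x hx y hy hxy
    have h1 := k1 d hd d' hd'
    rw [← hxy] at h1
    obtain ⟨h2, h3⟩ := hout x hx y hy (Finset.mem_sdiff.1 h1).2
    exact k2 d hd d' hd' x h2 y h3 hxy
  -- strips
  have hfP : ∀ r : E ⧸ N, fb N P r ⊆ P := fun r => fb_subset
  have hdisj : ∀ r r' : E ⧸ N, r ≠ r' → Disjoint (fb N P r) (fb N P r') := by
    intro r r' hne
    rw [Finset.disjoint_left]
    intro x hx hx'
    exact hne ((mem_fb.1 hx).2.symm.trans (mem_fb.1 hx').2)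
  have hDmem : ∀ d ∈ D, d ∈ fb N P a ∨ d ∈ fb N P b ∨ d ∈ fb N P c := by
    intro d hd
    have h1 : (QuotientAddGroup.mk d : E ⧸ N) ∈ cl N P := mk_mem_cl (hDP hd)
    rw [h.hcl] at h1
    simp only [Finset.mem_insert, Finset.mem_singleton] at h1
    rcases h1 with h1 | h1 | h1
    · exact Or.inl (mem_fb.2 ⟨hDP hd, h1⟩)
    · exact Or.inr (Or.inl (mem_fb.2 ⟨hDP hd, h1⟩))
    · exact Or.inr (Or.inr (mem_fb.2 ⟨hDP hd, h1⟩))
  have hle : ∀ r r' : E ⧸ N, (fb N P r + fb N P r').card ≤ (fb N (P + P) (r + r')).card :=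
    fun r r' => Finset.card_le_card fb_add_subset
  have fin : ∀ r r' : E ⧸ N, r ≠ r' → 2 ≤ (fb N P r).card → 2 ≤ (fb N P r').card →
      (fb N (P + P) (r + r)).card + 1 ≤ 2 * (fb N P r).card →
      (fb N (P + P) (r + r')).card + 1 ≤ (fb N P r).card + (fb N P r').card →
      (fb N (P + P) (r' + r')).card + 1 ≤ 2 * (fb N P r').card →
      ¬ (∀ d ∈ D, d ∈ fb N P r ∨ d ∈ fb N P r') := by
    intro r r' hne h1 h2 h3 h4 h5 h6
    refine no_three π hπ (inCoset_fb N P r) (inCoset_fb N P r') h1 h2
      ?_ ?_ ?_ (hdisj r r' hne) (D := D) (fun d hd => Finset.mem_union.2 (h6 d hd)) hDc ?_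
    · have := hle r r; omega
    · have := hle r r'; omega
    · have := hle r' r'; omega
    · intro d hd d' hd' x hx y hy hxy
      have hxP : x ∈ P := by
        rcases Finset.mem_union.1 hx with hx | hx <;> exact hfP _ hx
      have hyP : y ∈ P := by
        rcases Finset.mem_union.1 hy with hy | hy <;> exact hfP _ hy
      exact hu d hd d' hd' x hxP y hyP hxy
  rcases t6 with t6 | ⟨t6, t7⟩
  · -- case A : the sums of the outer strips are sums of elements of the middle strip
    have hbb : fb N P b + fb N P b = fb N (P + P) (b + b) := by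
      apply Finset.eq_of_subset_of_card_le fb_add_subset
      have h1 : ((fb N P b).image π).card = (fb N P b).card := by
        apply Finset.card_image_of_injOn
        intro x hx y hy hxy
        have h1 := hπ (x - y) (inCoset_fb N P b x hx y hy) (by rw [map_sub, hxy, sub_self])
        exact sub_eq_zero.1 h1
      have h2 : ((fb N P b).image π).Nonempty := by
        rw [← Finset.card_pos]; omega
      have h3 := cauchy_davenport_add_of_linearOrder_isCancelAdd h2 h2
      rw [← Finset.image_add] at h3
      have h4 : ((fb N P b + fb N P b).image π).card ≤ (fb N P b + fb N P b).card :=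
        Finset.card_image_le
      omega
    have hnot : ∀ x ∈ D, ∀ z ∈ D, x ∈ fb N P a → z ∈ fb N P c → False := by
      intro x hxD z hzD hx hz
      have h1 : x + z ∈ fb N (P + P) (b + b) := by
        rw [← h.hs]
        exact fb_add_subset (Finset.add_mem_add hx hz)
      rw [← hbb] at h1
      obtain ⟨y, hy, y', hy', h2⟩ := Finset.mem_add.1 h1
      rcases hu x hxD z hzD y (hfP _ hy) y' (hfP _ hy') h2 with ⟨h3, _⟩ | ⟨h3, _⟩
      · rw [h3] at hy
        exact h.hab ((mem_fb.1 hx).2.symm.trans (mem_fb.1 hy).2)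
      · rw [h3] at hy
        exact h.hbc ((mem_fb.1 hy).2.symm.trans (mem_fb.1 hz).2)
    by_cases hc : ∃ z ∈ D, z ∈ fb N P c
    · obtain ⟨z, hzD, hz⟩ := hc
      refine fin c b h.hbc.symm pc pb t4 (by rw [add_comm c b]; omega) (by omega) ?_
      intro d hd
      rcases hDmem d hd with h1 | h1 | h1
      · exact (hnot d hd z hzD h1 hz).elim
      · exact Or.inr h1
      · exact Or.inl h1
    · refine fin a b h.hab pa pb t1 t2 (by omega) ?_
      intro d hd
      rcases hDmem d hd with h1 | h1 | h1
      · exact Or.inl h1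
      · exact Or.inr h1
      · exact (hc ⟨d, hd, h1⟩).elim
  · -- case B : the doubles of the middle strip are sums of the outer strips
    have hac : fb N P a + fb N P c = fb N (P + P) (a + c) := by
      apply Finset.eq_of_subset_of_card_le fb_add_subset
      have h1 : ∀ r : E ⧸ N, ((fb N P r).image π).card = (fb N P r).card := by
        intro r
        apply Finset.card_image_of_injOn
        intro x hx y hy hxy
        have h1 := hπ (x - y) (inCoset_fb N P r x hx y hy) (by rw [map_sub, hxy, sub_self])
        exact sub_eq_zero.1 h1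
      have h1a := h1 a
      have h1c := h1 c
      have h2 : ((fb N P a).image π).Nonempty := by
        rw [← Finset.card_pos]; omega
      have h2' : ((fb N P c).image π).Nonempty := by
        rw [← Finset.card_pos]; omega
      have h3 := cauchy_davenport_add_of_linearOrder_isCancelAdd h2 h2'
      rw [← Finset.image_add] at h3
      have h4 : ((fb N P a + fb N P c).image π).card ≤ (fb N P a + fb N P c).card :=
        Finset.card_image_le
      rw [h.hs]
      omega
    refine fin a c h.hac pa pc t1 (by rw [h.hs]; omega) t4 ?_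
    intro d hd
    rcases hDmem d hd with h1 | h1 | h1
    · exact Or.inl h1
    · exfalso
      have h2 : d + d ∈ fb N (P + P) (a + c) := by
        rw [h.hs]
        exact fb_add_subset (Finset.add_mem_add h1 h1)
      rw [← hac] at h2
      obtain ⟨x, hx, z, hz, h3⟩ := Finset.mem_add.1 h2
      rcases hu d hd d hd x (hfP _ hx) z (hfP _ hz) h3 with ⟨h4, _⟩ | ⟨h4, _⟩ <;>
      · rw [h4] at hx
        exact h.hab ((mem_fb.1 hx).2.symm.trans (mem_fb.1 h1).2)
    · exact Or.inr h1

/-- four removed cells, all strips met -/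
theorem four_cells [DecidableEq (E ⧸ N)] (π : E →+ ℤ) (hπ : ∀ x ∈ N, π x = 0 → x = 0)
    {P : Finset E} {a b c : E ⧸ N} (h : Tri N P a b c)
    (hp : ∀ r ∈ cl N P, 2 ≤ (fb N P r).card) (hk : 7 ≤ P.card)
    (hs : (P + P).card + 2 = 3 * P.card) {F : Finset E} (hFP : F ⊆ P)
    (hF4 : F.card + 4 = P.card) (hcl : cl N F = cl N P) : 3 * F.card + 2 ≤ (F + P).card := by
  have ma : a ∈ cl N P := by rw [h.hcl]; simp
  have mb : b ∈ cl N P := by rw [h.hcl]; simp
  have mc : c ∈ cl N P := by rw [h.hcl]; simp
  have ma' : a ∈ cl N F := hcl ▸ ma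
  have mb' : b ∈ cl N F := hcl ▸ mb
  have mc' : c ∈ cl N F := hcl ▸ mc
  have pa := hp a ma
  have pb := hp b mb
  have pc := hp c mc
  obtain ⟨t1, t2, t3, t4, t5, t6⟩ := tight_data π hπ h hp hk hs
  have hP := h.card (le_refl P)
  have hF := h.card hFP
  have la : (fb N F a).card ≤ (fb N P a).card := Finset.card_le_card (by
    intro x hx; exact mem_fb.2 ⟨hFP (mem_fb.1 hx).1, (mem_fb.1 hx).2⟩)
  have lb : (fb N F b).card ≤ (fb N P b).card := Finset.card_le_card (by
    intro x hx; exact mem_fb.2 ⟨hFP (mem_fb.1 hx).1, (mem_fb.1 hx).2⟩)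
  have lc : (fb N F c).card ≤ (fb N P c).card := Finset.card_le_card (by
    intro x hx; exact mem_fb.2 ⟨hFP (mem_fb.1 hx).1, (mem_fb.1 hx).2⟩)
  have e1 := strip_add π hπ ma' ma
  have e2 := strip_add π hπ ma' mb
  have e3 := strip_add π hπ mb' ma
  rw [add_comm b a] at e3
  have e4 := strip_add π hπ mb' mb
  have e5 := strip_add π hπ ma' mc
  rw [h.hs] at e5
  have e6 := strip_add π hπ mc' ma
  rw [add_comm c a, h.hs] at e6
  have e7 := strip_add π hπ mb' mc
  have e8 := strip_add π hπ mc' mb
  rw [add_comm c b] at e8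
  have e9 := strip_add π hπ mc' mc
  have e10 := sum_five (F + P) h.h5
  have e11 := strip_add π hπ ma ma
  have e12 := strip_add π hπ ma mb
  have e13 := strip_add π hπ mb mb
  have e14 := strip_add π hπ ma mc
  rw [h.hs] at e14
  have e15 := strip_add π hπ mb mc
  have e16 := strip_add π hπ mc mc
  have e17 := sum_five (P + P) h.h5
  omega

end Pool.Agent.Lib.MP_09e095_co.Three

namespace Pool.Agent.Lib.MP_09e095_co

variable {E : Type*} [AddCommGroup E] [DecidableEq E] {N : AddSubgroup E} [Finite (E ⧸ N)]

/-- exactly three strips -/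
theorem strips_three (π : E →+ ℤ) (hπ : ∀ x ∈ N, π x = 0 → x = 0) {P : Finset E}
    (hB : HW (cl N P)) (hSD : SD (cl N P) (fun r => (fb N P r).card))
    (hm : (cl N P).card = 3) : PGood P := by
  classical
  obtain ⟨hp, hs⟩ := three_excess π hπ hB hSD hm
  by_cases hs2 : 3 * P.card ≤ (P + P).card + 1
  · exact three_good_of_two π hπ hB hSD hm hs2
  have hs1 : (P + P).card + 2 = 3 * P.card := by omega
  have hP : P.Nonempty := nonempty_of_cl (N := N) (by omega)
  -- `|2B| ≤ 5`
  have hB5 : (cl N P + cl N P).card ≤ 5 := by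
    by_contra hc
    have h1 : ∀ s ∈ cl N P + cl N P, ∃ r ∈ cl N P, ∃ r' ∈ cl N P, r + r' = s := fun s hs => by
      obtain ⟨r, hr, r', hr', h⟩ := Finset.mem_add.1 hs
      exact ⟨r, hr, r', hr', h⟩
    obtain ⟨a, b, c, hab, hac, hbc, hBe⟩ := Finset.card_eq_three.1 hm
    have ma : a ∈ cl N P := by rw [hBe]; simp
    have mb : b ∈ cl N P := by rw [hBe]; simp
    have mc : c ∈ cl N P := by rw [hBe]; simp
    have pa := hp a ma
    have pb := hp b mb
    have pc := hp c mc
    have hsub : cl N P + cl N P ⊆ {a + a, b + b, c + c, a + b, a + c, b + c} := by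
      intro z hz
      obtain ⟨x, hx, y, hy, rfl⟩ := Finset.mem_add.1 hz
      rw [hBe] at hx hy
      simp only [Finset.mem_insert, Finset.mem_singleton] at hx hy ⊢
      rcases hx with rfl | rfl | rfl <;> rcases hy with rfl | rfl | rfl
      · tauto
      · tauto
      · tauto
      · rw [add_comm x y]; tauto
      · tauto
      · tauto
      · rw [add_comm x y]; tauto
      · rw [add_comm x y]; tauto
      · tauto
    have h6 := Finset.card_le_card hsub
    have h7 := Finset.card_le_six (a := a + a) (b := b + b) (c := c + c) (d := a + b)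
      (e := a + c) (f := b + c)
    have h8 : ({a + a, b + b, c + c, a + b, a + c, b + c} : Finset (E ⧸ N)).card = 6 := by omega
    have h9 : ∑ s ∈ ({a + a, b + b, c + c, a + b, a + c, b + c} : Finset (E ⧸ N)),
        (fb N (P + P) s).card ≤ (P + P).card := by
      have hbU : (({a + a, b + b, c + c, a + b, a + c, b + c} : Finset (E ⧸ N)).biUnion
          (fun s => fb N (P + P) s)).card ≤ (P + P).card := by
        apply Finset.card_le_card
        intro x hx
        obtain ⟨s, _, hs⟩ := Finset.mem_biUnion.1 hx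
        exact fb_subset hs
      rwa [Finset.card_biUnion (fun s _ s' _ hne => by
        show Disjoint (fb N (P + P) s) (fb N (P + P) s')
        rw [Finset.disjoint_left]
        intro x hx hx'
        exact hne ((mem_fb.1 hx).2.symm.trans (mem_fb.1 hx').2))] at hbU
    have n1 : a + a ∉ ({b + b, c + c, a + b, a + c, b + c} : Finset (E ⧸ N)) := by
      intro hmem
      rw [Finset.insert_eq_of_mem hmem] at h8
      have := Finset.card_le_five (a := b + b) (b := c + c) (c := a + b) (d := a + c) (e := b + c)
      omega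
    have h10 := h8
    rw [Finset.card_insert_of_notMem n1] at h10
    have n2 : b + b ∉ ({c + c, a + b, a + c, b + c} : Finset (E ⧸ N)) := by
      intro hmem
      rw [Finset.insert_eq_of_mem hmem] at h10
      have := Finset.card_le_four (a := c + c) (b := a + b) (c := a + c) (d := b + c)
      omega
    rw [Finset.card_insert_of_notMem n2] at h10
    have n3 : c + c ∉ ({a + b, a + c, b + c} : Finset (E ⧸ N)) := by
      intro hmem
      rw [Finset.insert_eq_of_mem hmem] at h10
      have := Finset.card_le_three (a := a + b) (b := a + c) (c := b + c)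
      omega
    rw [Finset.card_insert_of_notMem n3] at h10
    have n4 : a + b ∉ ({a + c, b + c} : Finset (E ⧸ N)) := by
      intro hmem
      rw [Finset.insert_eq_of_mem hmem] at h10
      have := Finset.card_le_two (a := a + c) (b := b + c)
      omega
    rw [Finset.card_insert_of_notMem n4] at h10
    have n5 : a + c ∉ ({b + c} : Finset (E ⧸ N)) := by
      intro hmem
      rw [Finset.insert_eq_of_mem hmem, Finset.card_singleton] at h10
      omega
    rw [Finset.sum_insert n1, Finset.sum_insert n2, Finset.sum_insert n3, Finset.sum_insert n4,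
      Finset.sum_insert n5, Finset.sum_singleton] at h9
    have e1 := strip_add π hπ ma ma
    have e2 := strip_add π hπ mb mb
    have e3 := strip_add π hπ mc mc
    have e4 := strip_add π hπ ma mb
    have e5 := strip_add π hπ ma mc
    have e6 := strip_add π hπ mb mc
    have hPc := card_eq_sum_fb (V := N) P (le_refl _)
    rw [hBe, Finset.sum_insert (by simp [hab, hac]), Finset.sum_insert (by simp [hbc]),
      Finset.sum_singleton] at hPc
    omega
  obtain ⟨a, b, c, hab, hac, hbc, hBe, hsum, h5⟩ := Three.arrange hB hm hB5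
  have hT : Three.Tri N P a b c := ⟨hab, hac, hbc, hBe, hsum, h5⟩
  -- `k ≥ 7`
  have hk : 7 ≤ P.card := by
    have hPc := hT.card (le_refl P)
    obtain ⟨lam, e, x, hlam, hx, hpe, he, r, hr, hxr⟩ := hSD
    have ma : a ∈ cl N P := by rw [hBe]; simp
    have mb : b ∈ cl N P := by rw [hBe]; simp
    have mc : c ∈ cl N P := by rw [hBe]; simp
    have e1 := hpe a ma
    have e2 := hpe b mb
    have e3 := hpe c mc
    rw [hBe, Finset.sum_insert (by simp [hab, hac]), Finset.sum_insert (by simp [hbc]),
      Finset.sum_singleton] at he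
    rw [hBe] at hr
    simp only [Finset.mem_insert, Finset.mem_singleton] at hr
    simp only at e1 e2 e3
    rcases hr with rfl | rfl | rfl <;> omega
  right; right
  refine ⟨by omega, ?_⟩
  intro F hFP hFn hF3
  by_cases hcl : cl N F = cl N P
  · rcases Nat.lt_or_ge (F.card + 4) P.card with h5' | h5'
    · -- at least five removed cells
      obtain ⟨r0, hr0, hmin⟩ := Finset.exists_min_image (cl N P) (fun r => (fb N P r).card)
        (Finset.card_pos.1 (by omega))
      have := phi_eq π hπ hFP hFn (j := (fb N P r0).card) (hp r0 hr0) hmin ⟨r0, hr0, rfl⟩ hcl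
        (by omega) (fun T h1 h2 h3 => hw_E0 hB h2 h1 h3) (hw_E1 hB)
      omega
    · rcases Nat.lt_or_ge (F.card + 3) P.card with h6 | h6
      · exact Three.four_cells π hπ hT hp hk hs1 hFP (by omega) hcl
      · exact Three.three_cells π hπ hT hp hk hs1 hFP (by omega)
  · rcases Nat.lt_or_ge (F.card + 3) P.card with h6 | h6
    · have := three_phi_ne π hπ hB hSD hm hFP hFn hcl
      omega
    · exact Three.three_cells π hπ hT hp hk hs1 hFP (by omega)

/-- the strips theorem -/
theorem strips_main (N : AddSubgroup E) [Finite (E ⧸ N)] (π : E →+ ℤ)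
    (hπ : ∀ x ∈ N, π x = 0 → x = 0) (P : Finset E) (hB : HW (cl N P))
    (hS : SD (cl N P) (fun r => (fb N P r).card)) : PGood P := by
  rcases Nat.lt_or_ge (cl N P).card 4 with h | h
  · exact strips_three π hπ hB hS (by have := hB.three; omega)
  · exact strips_four π hπ hB hS h

end Pool.Agent.Lib.MP_09e095_co
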