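import Mathlib
import Pool.Agent.Lib.MP_09e095_co.MLQQ0
import Pool.Agent.Lib.MP_09e095_co.MLThree

/-!
MP_09e095_co : the several-layer theorem.
-/

set_option autoImplicit false

namespace Pool.Agent.Lib.MP_09e095_co

theorem strip_stmt : StripStmt := by
  intro Q _ _ N _ π hπ P hB hS
  exact strips_main N π hπ P hB hS

/-- **the several-layer theorem** -/
theorem QQ : QQStmt := QQ_of_strip strip_stmt

end Pool.Agent.Lib.MP_09e095_co
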