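import Mathlib
import Pool.Agent.Lib.MP_09e095_co.QFinal

/-!
MP_09e095_co : theorem Q for all abelian groups (finite sets), from the finite case.
-/

set_option autoImplicit false

open Finset
open scoped Pointwise

namespace Pool.Agent.Lib.MP_09e095_co

universe u v

/-- theorem Q for sets in the image of an injective homomorphism -/
theorem Q_of_injective {H : Type u} {G : Type v} [AddCommGroup H] [AddCommGroup G]
    [DecidableEq G] (hQ : QThm H) (f : H →+ G) (hf : Function.Injective f) {X Y : Finset G}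
    (hX : X.Nonempty) (hY : Y.Nonempty) (hXf : ∀ x ∈ X, ∃ h, f h = x)
    (hYf : ∀ x ∈ Y, ∃ h, f h = x) :
    ∃ V : AddSubgroup G, (V : Set G).Finite ∧
      X.card + Y.card + 2 * (Nat.card V * (nc V X + nc V Y)) ≤
        (X + X).card + (X + Y).card + (Y + Y).card + 3 * Nat.card V := by
  classical
  have lift : ∀ Z : Finset G, (∀ x ∈ Z, ∃ h, f h = x) → ∃ Z' : Finset H, Z = Z'.image f := by
    intro Z hZ
    refine ⟨Z.preimage f hf.injOn, ?_⟩
    ext z
    rw [Finset.mem_image]
    constructor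
    · intro hz
      obtain ⟨h, rfl⟩ := hZ z hz
      exact ⟨h, Finset.mem_preimage.2 hz, rfl⟩
    · rintro ⟨h, hh, rfl⟩
      exact Finset.mem_preimage.1 hh
  obtain ⟨X', rfl⟩ := lift X hXf
  obtain ⟨Y', rfl⟩ := lift Y hYf
  rw [Finset.image_nonempty] at hX hY
  obtain ⟨V, hVf, hV⟩ := hQ inferInstance X' Y' hX hY
  refine ⟨V.map f, ?_, ?_⟩
  · rw [AddSubgroup.coe_map]; exact hVf.image _
  · have hn : ∀ Z : Finset H, nc (V.map f) (Z.image f) = nc V Z := by
      intro Z
      have := nc_map f hf V Z 0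
      simpa using this
    rw [hn, hn, card_map_sub f hf, ← Finset.image_add, ← Finset.image_add, ← Finset.image_add,
      Finset.card_image_of_injective _ hf, Finset.card_image_of_injective _ hf,
      Finset.card_image_of_injective _ hf, Finset.card_image_of_injective _ hf,
      Finset.card_image_of_injective _ hf]
    exact hV

/-- reduction modulo `p` on `ℤ^n × T` -/
noncomputable def redp (n : ℕ) (T : Type u) [AddCommGroup T] (p : ℕ) :
    ((Fin n →₀ ℤ) × T) →+ ((Fin n →₀ ZMod p) × T) :=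
  AddMonoidHom.prodMap (Finsupp.mapRange.addMonoidHom (Int.castAddHom (ZMod p)))
    (AddMonoidHom.id T)

theorem redp_fst {n : ℕ} {T : Type u} [AddCommGroup T] {p : ℕ} (z : (Fin n →₀ ℤ) × T)
    (i : Fin n) : (redp n T p z).1 i = ((z.1 i : ℤ) : ZMod p) := rfl

theorem redp_snd {n : ℕ} {T : Type u} [AddCommGroup T] {p : ℕ} (z : (Fin n →₀ ℤ) × T) :
    (redp n T p z).2 = z.2 := rfl

theorem Q_free_prod (n : ℕ) (T : Type u) [AddCommGroup T] [Finite T] :
    QThm ((Fin n →₀ ℤ) × T) := by
  classical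
  intro inst X Y hX hY
  -- the bound
  set Z : Finset ((Fin n →₀ ℤ) × T) := X ∪ Y ∪ (X + X) ∪ (X + Y) ∪ (Y + Y) with hZ
  obtain ⟨M, hM⟩ : ∃ M : ℕ, ∀ z ∈ Z, ∀ i, |z.1 i| ≤ (M : ℤ) := by
    refine ⟨∑ z ∈ Z, ∑ i, (z.1 i).natAbs, ?_⟩
    intro z hz i
    have h1 : (z.1 i).natAbs ≤ ∑ i, (z.1 i).natAbs :=
      Finset.single_le_sum (f := fun i => (z.1 i).natAbs) (fun _ _ => Nat.zero_le _)
        (Finset.mem_univ i)
    have h2 : ∑ i, (z.1 i).natAbs ≤ ∑ z ∈ Z, ∑ i, (z.1 i).natAbs :=
      Finset.single_le_sum (f := fun z : (Fin n →₀ ℤ) × T => ∑ i, (z.1 i).natAbs)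
        (fun _ _ => Nat.zero_le _) hz
    rw [Int.abs_eq_natAbs]
    exact_mod_cast h1.trans h2
  obtain ⟨p, hpM, hp⟩ := Nat.exists_infinite_primes
    (2 * M + (X + X).card + (X + Y).card + (Y + Y).card + 1)
  haveI : Fact p.Prime := ⟨hp⟩
  haveI : NeZero p := ⟨hp.ne_zero⟩
  haveI : Finite (Fin n →₀ ZMod p) := inferInstance
  set f := redp n T p with hf
  have hinj : ∀ z ∈ Z, ∀ w ∈ Z, ∀ i, ((z.1 i : ℤ) : ZMod p) = ((w.1 i : ℤ) : ZMod p) →
      z.1 i = w.1 i := by
    intro z hz w hw i h
    rw [ZMod.intCast_eq_intCast_iff_dvd_sub] at h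
    have h1 := hM z hz i
    have h2 := hM w hw i
    have h3 : |w.1 i - z.1 i| < (p : ℤ) := by
      have : |w.1 i - z.1 i| ≤ |w.1 i| + |z.1 i| := abs_sub _ _
      have h4 : (2 * M + (X + X).card + (X + Y).card + (Y + Y).card + 1 : ℤ) ≤ p := by
        exact_mod_cast hpM
      have h5 : (0 : ℤ) ≤ (X + X).card + (X + Y).card + (Y + Y).card := by positivity
      omega
    have := Int.eq_zero_of_abs_lt_dvd h h3
    omega
  have hinj2 : ∀ z ∈ Z, ∀ w ∈ Z, f z = f w → z = w := by
    intro z hz w hw h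
    apply Prod.ext
    · ext i
      apply hinj z hz w hw i
      rw [← redp_fst, ← redp_fst, ← hf, h]
    · rw [← redp_snd (p := p) z, ← redp_snd (p := p) w, ← hf, h]
  have hXZ : X ⊆ Z := fun x hx => by
    rw [hZ]; simp only [Finset.mem_union]; tauto
  have hYZ : Y ⊆ Z := fun x hx => by
    rw [hZ]; simp only [Finset.mem_union]; tauto
  have hXXZ : X + X ⊆ Z := fun x hx => by
    rw [hZ]; simp only [Finset.mem_union]; tauto
  have hXYZ : X + Y ⊆ Z := fun x hx => by
    rw [hZ]; simp only [Finset.mem_union]; tauto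
  have hYYZ : Y + Y ⊆ Z := fun x hx => by
    rw [hZ]; simp only [Finset.mem_union]; tauto
  have hcard : ∀ W : Finset ((Fin n →₀ ℤ) × T), W ⊆ Z → (W.image f).card = W.card := by
    intro W hW
    apply Finset.card_image_of_injOn
    intro x hx y hy h
    exact hinj2 x (hW hx) y (hW hy) h
  obtain ⟨V, _, hV⟩ := QThm_finite ((Fin n →₀ ZMod p) × T) inferInstance (X.image f) (Y.image f)
    (hX.image f) (hY.image f)
  rw [← Finset.image_add, ← Finset.image_add, ← Finset.image_add, hcard X hXZ, hcard Y hYZ,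
    hcard _ hXXZ, hcard _ hXYZ, hcard _ hYYZ] at hV
  have hn1 := nc_pos (V := V) (hX.image f)
  have hn2 := nc_pos (V := V) (hY.image f)
  have hVlt : Nat.card V < p := by
    have h1 : Nat.card V * 2 ≤ Nat.card V * (nc V (X.image f) + nc V (Y.image f)) :=
      Nat.mul_le_mul_left _ (by omega)
    omega
  have hVbot : ∀ z ∈ V, z.1 = 0 := by
    intro z hz
    by_contra hne
    have : ∃ i, z.1 i ≠ 0 := by
      by_contra hcon
      push Not at hcon
      exact hne (Finsupp.ext hcon)
    obtain ⟨i, hi⟩ := this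
    let φ : ((Fin n →₀ ZMod p) × T) →+ ZMod p :=
      (Finsupp.applyAddHom i).comp (AddMonoidHom.fst _ _)
    have h1 : addOrderOf (φ z) = p := by
      apply addOrderOf_eq_prime
      · rw [nsmul_eq_mul, ZMod.natCast_self, zero_mul]
      · exact hi
    have h2 : addOrderOf (φ z) ∣ addOrderOf z := addOrderOf_map_dvd φ z
    have h3 : addOrderOf z ∣ Nat.card V := V.addOrderOf_dvd_natCard hz
    have h4 : addOrderOf (φ z) ∣ Nat.card V := h2.trans h3
    rw [h1] at h4
    have h5 := Nat.le_of_dvd (natCard_pos (Set.toFinite _)) h4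
    omega
  -- the subgroup upstairs
  set V0 : AddSubgroup T := V.comap (AddMonoidHom.inr _ T) with hV0
  set V' : AddSubgroup ((Fin n →₀ ℤ) × T) := V0.map (AddMonoidHom.inr _ T) with hV'
  have hinr1 : Function.Injective (AddMonoidHom.inr (Fin n →₀ ℤ) T) := by
    intro x y h
    exact (Prod.mk.inj h).2
  have hinr2 : Function.Injective (AddMonoidHom.inr (Fin n →₀ ZMod p) T) := by
    intro x y h
    exact (Prod.mk.inj h).2
  have hc : Nat.card V' = Nat.card V := by
    have h1 : V0.map (AddMonoidHom.inr (Fin n →₀ ZMod p) T) = V := by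
      ext z
      rw [AddSubgroup.mem_map]
      constructor
      · rintro ⟨t, ht, rfl⟩
        exact ht
      · intro hz
        have h0 := hVbot z hz
        have h1 : z = (0, z.2) := Prod.ext h0 rfl
        refine ⟨z.2, ?_, h1.symm⟩
        rw [hV0, AddSubgroup.mem_comap]
        change (0, z.2) ∈ V
        rwa [← h1]
    rw [hV', card_map_sub _ hinr1, ← card_map_sub _ hinr2, h1]
  have hnc : ∀ W : Finset ((Fin n →₀ ℤ) × T), W ⊆ Z → nc V' W = nc V (W.image f) := by
    intro W hW
    symm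
    apply Lay.nc_image
    intro x hx y hy
    rw [← map_sub]
    constructor
    · intro h
      have h0 := hVbot _ h
      have h1 : x.1 = y.1 := by
        ext i
        apply hinj x (hW hx) y (hW hy) i
        have h2 : (f (x - y)).1 i = 0 := by rw [h0]; rfl
        rw [hf, redp_fst] at h2
        have h3 : ((x - y).1 i : ℤ) = x.1 i - y.1 i := rfl
        rw [h3, Int.cast_sub, sub_eq_zero] at h2
        exact h2
      rw [hV', AddSubgroup.mem_map]
      refine ⟨(x - y).2, ?_, ?_⟩
      · rw [hV0, AddSubgroup.mem_comap]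
        have : (AddMonoidHom.inr (Fin n →₀ ZMod p) T) (x - y).2 = f (x - y) := by
          apply Prod.ext
          · exact h0.symm
          · rfl
        rw [this]; exact h
      · apply Prod.ext
        · change (0 : Fin n →₀ ℤ) = x.1 - y.1
          rw [h1, sub_self]
        · rfl
    · intro h
      rw [hV', AddSubgroup.mem_map] at h
      obtain ⟨t, ht, hxy⟩ := h
      rw [hV0, AddSubgroup.mem_comap] at ht
      have : f (x - y) = (AddMonoidHom.inr (Fin n →₀ ZMod p) T) t := by
        rw [← hxy]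
        apply Prod.ext
        · ext i
          rw [hf, redp_fst]
          exact Int.cast_zero (R := ZMod p)
        · rfl
      rw [this]; exact ht
  refine ⟨V', ?_, ?_⟩
  · rw [hV', AddSubgroup.coe_map]
    exact (Set.toFinite _).image _
  · rw [hc, hnc X hXZ, hnc Y hYZ]
    exact hV

/-- theorem Q for every abelian group -/
theorem QThm_all (G : Type u) [AddCommGroup G] : QThm G := by
  classical
  intro inst X Y hX hY
  set G0 : AddSubgroup G := AddSubgroup.closure ((X ∪ Y : Finset G) : Set G) with hG0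
  haveI : AddGroup.FG G0 := (AddGroup.fg_iff_addSubgroup_fg G0).2 ⟨X ∪ Y, rfl⟩
  obtain ⟨n, ι, _, p, hp, e, ⟨ε⟩⟩ := AddCommGroup.equiv_free_prod_directSum_zmod G0
  haveI : ∀ i, NeZero (p i ^ e i) := fun i => ⟨pow_ne_zero _ (hp i).ne_zero⟩
  haveI : Finite (DirectSum ι fun i => ZMod (p i ^ e i)) :=
    Finite.of_equiv _ (DirectSum.addEquivProd (fun i => ZMod (p i ^ e i))).symm.toEquiv
  have hQ := Q_free_prod n (DirectSum ι fun i => ZMod (p i ^ e i))
  apply Q_of_injective hQ (G0.subtype.comp ε.symm.toAddMonoidHom)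
    (Subtype.val_injective.comp ε.symm.injective) hX hY
  · intro x hx
    have hxG : x ∈ G0 := AddSubgroup.subset_closure (by
      rw [Finset.coe_union]; exact Or.inl hx)
    refine ⟨ε ⟨x, hxG⟩, ?_⟩
    simp
  · intro x hx
    have hxG : x ∈ G0 := AddSubgroup.subset_closure (by
      rw [Finset.coe_union]; exact Or.inr hx)
    refine ⟨ε ⟨x, hxG⟩, ?_⟩
    simp

end Pool.Agent.Lib.MP_09e095_co
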